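import Mathlib

set_option autoImplicit false

/-!
# Selberg weights for a finite set of primes

Self-contained. Square-free numbers are represented by finite sets `D` of primes; `h p` is the
density of the elements divisible by `p`.
-/

namespace Pool.Agent.Lib.MP_0b748d_nt.MR

noncomputable section

private lemma sel_alt (G E : Finset ℕ) (hGE : G ⊆ E) :
    ∑ D ∈ E.powerset.filter (fun D => G ⊆ D), (-1 : ℝ) ^ D.card =
      if G = E then (-1 : ℝ) ^ G.card else 0 := by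
  classical
  have himg : E.powerset.filter (fun D => G ⊆ D) = (E \ G).powerset.image (fun F => G ∪ F) := by
    ext D
    simp only [Finset.mem_filter, Finset.mem_powerset, Finset.mem_image]
    constructor
    · rintro ⟨h1, h2⟩
      exact ⟨D \ G, Finset.sdiff_subset_sdiff h1 le_rfl, by
        rw [Finset.union_sdiff_of_subset h2]⟩
    · rintro ⟨F, hF, rfl⟩
      refine ⟨Finset.union_subset hGE (hF.trans Finset.sdiff_subset), Finset.subset_union_left⟩
  have hdisj : ∀ F ∈ (E \ G).powerset, Disjoint G F := by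
    intro F hF
    rw [Finset.mem_powerset] at hF
    exact (Finset.disjoint_of_subset_left hF Finset.sdiff_disjoint).symm
  rw [himg, Finset.sum_image]
  · have h1 : ∀ F ∈ (E \ G).powerset, (-1 : ℝ) ^ (G ∪ F).card =
        (-1 : ℝ) ^ G.card * (-1 : ℝ) ^ F.card := by
      intro F hF
      rw [Finset.card_union_of_disjoint (hdisj F hF), pow_add]
    rw [Finset.sum_congr rfl h1, ← Finset.mul_sum]
    have h2 := Finset.sum_powerset_neg_one_pow_card (x := E \ G)
    have h3 : (∑ F ∈ (E \ G).powerset, (-1 : ℝ) ^ F.card) = if E \ G = ∅ then 1 else 0 := by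
      have h4 := congrArg (fun z : ℤ => (z : ℝ)) h2
      push_cast at h4
      rw [h4]
    rw [h3]
    by_cases hE : G = E
    · rw [if_pos hE, if_pos (by rw [hE, Finset.sdiff_self]), mul_one]
    · rw [if_neg hE, if_neg, mul_zero]
      intro h5
      exact hE (Finset.Subset.antisymm hGE (Finset.sdiff_eq_empty_iff_subset.1 h5))
  · intro F hF F' hF' hFF'
    have h1 := hdisj F hF
    have h2 := hdisj F' hF'
    simp only at hFF'
    have e1 : (G ∪ F) \ G = F := by
      rw [Finset.union_sdiff_left]; exact Finset.sdiff_eq_self_of_disjoint h1.symm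
    have e2 : (G ∪ F') \ G = F' := by
      rw [Finset.union_sdiff_left]; exact Finset.sdiff_eq_self_of_disjoint h2.symm
    rw [← e1, ← e2, hFF']

/-- Selberg weights.

Proof. Put `g E = ∏_{p ∈ E} h p/(1 - h p)`, `J = ∑_{E ∈ 𝒟} g E ≥ g ∅ = 1`, and
`lam D = (-1)^|D| (∏_{p ∈ D} 1/h p) (1/J) ∑_{E ∈ 𝒟, D ⊆ E} g E` for `D ∈ 𝒟`, `0` otherwise.
`lam ∅ = 1`.
(1) `|lam D| ≤ 1`. For `E = D ∪ F`, `F` disjoint from `D`, `g E = g D * g F` and
`(∏_{p ∈ D} 1/h p) g D = ∏_{p ∈ D} 1/(1 - h p)`. So `|lam D| = ∏_{p ∈ D} (1/(1-h p)) S/J` with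
`S = ∑_{F, F ∩ D = ∅, F ∪ D ∈ 𝒟} g F`. On the other hand, splitting `E ∈ 𝒟` as
`E = D' ∪ F`, `D' = E ∩ D`, and using that `𝒟` is closed under subsets,
`J ≥ ∑_{D' ⊆ D} g D' * S = ∏_{p ∈ D} (1 + h p/(1 - h p)) * S = ∏_{p ∈ D} (1/(1 - h p)) * S`.
(2) The quadratic form. `∏_{D ∪ E} h = (∏_D h)(∏_E h) ∏_{D ∩ E} 1/h` and
`∏_{p ∈ D ∩ E} 1/h p = ∏ (1 + (1/h p - 1)) = ∑_{G ⊆ D ∩ E} 1/g G`. So the form is
`∑_{G ∈ 𝒟} (1/g G) y_G^2` with `y_G = ∑_{D ∈ 𝒟, G ⊆ D} (∏_D h) lam D
= (1/J) ∑_{D ⊇ G} (-1)^|D| ∑_{E ∈ 𝒟, E ⊇ D} g E = (1/J) ∑_{E ∈ 𝒟, E ⊇ G} g E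
∑_{G ⊆ D ⊆ E} (-1)^|D| = (-1)^|G| g G/J` (the inner alternating sum vanishes unless `E = G`).
Hence the form equals `∑_{G ∈ 𝒟} g G/J^2 = 1/J`. -/
theorem selberg (S : Finset ℕ) (h : ℕ → ℝ) (hh : ∀ p ∈ S, 0 < h p ∧ h p < 1)
    (DD : Finset (Finset ℕ)) (hS : ∀ D ∈ DD, D ⊆ S) (hdown : ∀ D ∈ DD, ∀ E ⊆ D, E ∈ DD)
    (h0 : ∅ ∈ DD) :
    ∃ lam : Finset ℕ → ℝ, lam ∅ = 1 ∧ (∀ D, |lam D| ≤ 1) ∧ (∀ D, D ∉ DD → lam D = 0) ∧
      ∑ D ∈ DD, ∑ E ∈ DD, lam D * lam E * ∏ p ∈ D ∪ E, h p =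
        1 / ∑ D ∈ DD, ∏ p ∈ D, h p / (1 - h p) := by
  classical
  set g : Finset ℕ → ℝ := fun E => ∏ p ∈ E, h p / (1 - h p) with hg
  set gi : Finset ℕ → ℝ := fun G => ∏ p ∈ G, (1 - h p) / h p with hgi
  set J : ℝ := ∑ D ∈ DD, g D with hJ
  have hp1 : ∀ D ∈ DD, ∀ p ∈ D, 0 < h p ∧ 0 < 1 - h p := fun D hD p hp =>
    ⟨(hh p (hS D hD hp)).1, by linarith [(hh p (hS D hD hp)).2]⟩
  have hgpos : ∀ D ∈ DD, 0 < g D := fun D hD =>
    Finset.prod_pos fun p hp => div_pos (hp1 D hD p hp).1 (hp1 D hD p hp).2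
  have hJ0 : 0 < J := Finset.sum_pos hgpos ⟨∅, h0⟩
  set T : Finset ℕ → ℝ := fun D => ∑ E ∈ DD.filter (fun E => D ⊆ E), g E with hT
  have hT0 : ∀ D, 0 ≤ T D := fun D =>
    Finset.sum_nonneg fun E hE => (hgpos E (Finset.mem_filter.1 hE).1).le
  have hgig : ∀ D ∈ DD, gi D * g D = 1 := by
    intro D hD
    rw [hgi, hg]
    simp only
    rw [← Finset.prod_mul_distrib]
    refine Finset.prod_eq_one fun p hp => ?_
    have h1 := (hp1 D hD p hp).1.ne'
    have h2 := (hp1 D hD p hp).2.ne'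
    field_simp
  have hinv : ∀ D ∈ DD, ∏ p ∈ D, (h p)⁻¹ = ∑ C ∈ D.powerset, gi C := by
    intro D hD
    rw [hgi]
    simp only
    rw [← Finset.prod_one_add]
    refine Finset.prod_congr rfl fun p hp => ?_
    have h1 := (hp1 D hD p hp).1.ne'
    field_simp
    ring
  -- (1)
  have hbound : ∀ D ∈ DD, (∏ p ∈ D, (h p)⁻¹) * T D ≤ J := by
    intro D hD
    rw [hinv D hD, hT]
    simp only
    rw [Finset.sum_mul_sum, ← Finset.sum_product']
    have hinj : Set.InjOn (fun x : Finset ℕ × Finset ℕ => x.2 \ x.1)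
        (D.powerset ×ˢ DD.filter (fun E => D ⊆ E) : Finset (Finset ℕ × Finset ℕ)) := by
      rintro ⟨C, E⟩ hCE ⟨C', E'⟩ hCE' heq
      simp only [Finset.coe_product, Set.mem_prod, Finset.mem_coe, Finset.mem_powerset,
        Finset.mem_filter] at hCE hCE'
      simp only at heq
      have hC : D \ (E \ C) = C := by
        ext x
        simp only [Finset.mem_sdiff, not_and, not_not]
        constructor
        · rintro ⟨h1, h2⟩
          exact h2 (hCE.2.2 h1)
        · intro h1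
          exact ⟨hCE.1 h1, fun _ => h1⟩
      have hC' : D \ (E' \ C') = C' := by
        ext x
        simp only [Finset.mem_sdiff, not_and, not_not]
        constructor
        · rintro ⟨h1, h2⟩
          exact h2 (hCE'.2.2 h1)
        · intro h1
          exact ⟨hCE'.1 h1, fun _ => h1⟩
      have hE : (E \ C) ∪ D = E := by
        ext x
        simp only [Finset.mem_union, Finset.mem_sdiff]
        constructor
        · rintro (h1 | h1)
          · exact h1.1
          · exact hCE.2.2 h1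
        · intro h1
          by_cases hx : x ∈ D
          · exact Or.inr hx
          · exact Or.inl ⟨h1, fun h2 => hx (hCE.1 h2)⟩
      have hE' : (E' \ C') ∪ D = E' := by
        ext x
        simp only [Finset.mem_union, Finset.mem_sdiff]
        constructor
        · rintro (h1 | h1)
          · exact h1.1
          · exact hCE'.2.2 h1
        · intro h1
          by_cases hx : x ∈ D
          · exact Or.inr hx
          · exact Or.inl ⟨h1, fun h2 => hx (hCE'.1 h2)⟩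
      have e1 : C = C' := by rw [← hC, ← hC', heq]
      have e2 : E = E' := by rw [← hE, ← hE', heq]
      rw [e1, e2]
    have hval : ∀ x ∈ (D.powerset ×ˢ DD.filter (fun E => D ⊆ E) : Finset (Finset ℕ × Finset ℕ)),
        gi x.1 * g x.2 = g (x.2 \ x.1) := by
      rintro ⟨C, E⟩ hCE
      simp only [Finset.mem_product, Finset.mem_powerset, Finset.mem_filter] at hCE
      have hCE' : C ⊆ E := hCE.1.trans hCE.2.2
      have hCD : C ∈ DD := hdown D hD C hCE.1
      have h1 : g (E \ C) * g C = g E := by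
        rw [hg]
        simp only
        exact Finset.prod_sdiff hCE'
      simp only
      rw [← h1]
      have h2 := hgig C hCD
      calc gi C * (g (E \ C) * g C) = g (E \ C) * (gi C * g C) := by ring
        _ = g (E \ C) := by rw [h2, mul_one]
    rw [Finset.sum_congr rfl hval, ← Finset.sum_image (f := g) hinj]
    refine Finset.sum_le_sum_of_subset_of_nonneg ?_ fun E hE _ => (hgpos E hE).le
    intro F hF
    rw [Finset.mem_image] at hF
    obtain ⟨⟨C, E⟩, hCE, rfl⟩ := hF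
    simp only [Finset.mem_product, Finset.mem_powerset, Finset.mem_filter] at hCE
    exact hdown E hCE.2.1 _ Finset.sdiff_subset
  set lam : Finset ℕ → ℝ := fun D =>
    if D ∈ DD then (-1 : ℝ) ^ D.card * (∏ p ∈ D, (h p)⁻¹) * J⁻¹ * T D else 0 with hlam
  have hlamD : ∀ D ∈ DD, lam D = (-1 : ℝ) ^ D.card * (∏ p ∈ D, (h p)⁻¹) * J⁻¹ * T D := by
    intro D hD
    rw [hlam]
    simp only
    rw [if_pos hD]
  refine ⟨lam, ?_, ?_, ?_, ?_⟩
  · rw [hlamD ∅ h0]
    have h1 : T ∅ = J := by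
      rw [hT, hJ]
      simp
    rw [h1]
    simp [hJ0.ne']
  · intro D
    by_cases hD : D ∈ DD
    · have h1 := hbound D hD
      have h2 : 0 ≤ ∏ p ∈ D, (h p)⁻¹ :=
        Finset.prod_nonneg fun p hp => (inv_pos.2 (hp1 D hD p hp).1).le
      rw [hlamD D hD, abs_mul, abs_mul, abs_mul, abs_pow, abs_neg, abs_one, one_pow, one_mul,
        abs_of_nonneg h2, abs_of_nonneg (hT0 D), abs_of_pos (inv_pos.2 hJ0)]
      calc (∏ p ∈ D, (h p)⁻¹) * J⁻¹ * T D = ((∏ p ∈ D, (h p)⁻¹) * T D) * J⁻¹ := by ring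
        _ ≤ J * J⁻¹ := by gcongr
        _ = 1 := mul_inv_cancel₀ hJ0.ne'
    · rw [hlam]
      simp only
      rw [if_neg hD, abs_zero]
      exact zero_le_one
  · intro D hD
    rw [hlam]
    simp only
    rw [if_neg hD]
  · -- (2)
    set y : Finset ℕ → ℝ := fun G => ∑ D ∈ DD.filter (fun D => G ⊆ D), lam D * ∏ p ∈ D, h p
      with hy
    have hyG : ∀ G ∈ DD, y G = J⁻¹ * ((-1 : ℝ) ^ G.card * g G) := by
      intro G hG
      have h1 : ∀ D ∈ DD.filter (fun D => G ⊆ D), lam D * ∏ p ∈ D, h p =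
          ∑ E ∈ DD.filter (fun E => D ⊆ E), J⁻¹ * ((-1 : ℝ) ^ D.card * g E) := by
        intro D hD
        have hD' := (Finset.mem_filter.1 hD).1
        rw [hlamD D hD', ← Finset.mul_sum, ← Finset.mul_sum]
        have h2 : (∏ p ∈ D, (h p)⁻¹) * ∏ p ∈ D, h p = 1 := by
          rw [← Finset.prod_mul_distrib]
          exact Finset.prod_eq_one fun p hp => inv_mul_cancel₀ (hp1 D hD' p hp).1.ne'
        calc (-1 : ℝ) ^ D.card * (∏ p ∈ D, (h p)⁻¹) * J⁻¹ * T D * ∏ p ∈ D, h p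
            = ((∏ p ∈ D, (h p)⁻¹) * ∏ p ∈ D, h p) * (J⁻¹ * ((-1 : ℝ) ^ D.card * T D)) := by ring
          _ = _ := by rw [h2, one_mul]
      rw [hy]
      simp only
      rw [Finset.sum_congr rfl h1]
      have hswap : ∑ D ∈ DD.filter (fun D => G ⊆ D), ∑ E ∈ DD.filter (fun E => D ⊆ E),
          J⁻¹ * ((-1 : ℝ) ^ D.card * g E) =
          ∑ E ∈ DD.filter (fun E => G ⊆ E), ∑ D ∈ E.powerset.filter (fun D => G ⊆ D),
          J⁻¹ * ((-1 : ℝ) ^ D.card * g E) := by
        refine Finset.sum_comm' ?_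
        intro D E
        simp only [Finset.mem_filter, Finset.mem_powerset]
        constructor
        · rintro ⟨⟨h1, h2⟩, h3, h4⟩
          exact ⟨⟨h4, h2⟩, h3, h2.trans h4⟩
        · rintro ⟨⟨h1, h2⟩, h3, h4⟩
          exact ⟨⟨hdown E h3 D h1, h2⟩, h3, h1⟩
      rw [hswap]
      have h2 : ∀ E ∈ DD.filter (fun E => G ⊆ E),
          ∑ D ∈ E.powerset.filter (fun D => G ⊆ D), J⁻¹ * ((-1 : ℝ) ^ D.card * g E) =
          if G = E then J⁻¹ * ((-1 : ℝ) ^ G.card * g G) else 0 := by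
        intro E hE
        have hGE := (Finset.mem_filter.1 hE).2
        rw [← Finset.mul_sum, ← Finset.sum_mul, sel_alt G E hGE]
        by_cases hGE' : G = E
        · rw [if_pos hGE', if_pos hGE', ← hGE']
        · rw [if_neg hGE', if_neg hGE', zero_mul, mul_zero]
      rw [Finset.sum_congr rfl h2, Finset.sum_ite_eq, if_pos]
      exact Finset.mem_filter.2 ⟨hG, le_rfl⟩
    have hform : ∀ D ∈ DD, ∀ E ∈ DD, lam D * lam E * ∏ p ∈ D ∪ E, h p =
        ∑ G ∈ DD, gi G * ((if G ⊆ D then lam D * ∏ p ∈ D, h p else 0) *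
          (if G ⊆ E then lam E * ∏ p ∈ E, h p else 0)) := by
      intro D hD E hE
      have hDE : D ∩ E ∈ DD := hdown D hD _ Finset.inter_subset_left
      have h1 : ∏ p ∈ D ∪ E, h p = (∏ p ∈ D, h p) * (∏ p ∈ E, h p) * ∏ p ∈ D ∩ E, (h p)⁻¹ := by
        rw [← Finset.prod_union_inter, mul_assoc, ← Finset.prod_mul_distrib]
        rw [Finset.prod_eq_one (s := D ∩ E), mul_one]
        intro p hp
        exact mul_inv_cancel₀ (hp1 _ hDE p hp).1.ne'
      rw [h1, hinv _ hDE, Finset.mul_sum, Finset.mul_sum]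
      have hsub : (D ∩ E).powerset ⊆ DD := by
        intro G hG
        exact hdown _ hDE G (Finset.mem_powerset.1 hG)
      refine Finset.sum_subset_zero_on_sdiff hsub ?_ ?_
      · intro G hG
        rw [Finset.mem_sdiff, Finset.mem_powerset] at hG
        by_cases h2 : G ⊆ D
        · have h3 : ¬ G ⊆ E := fun h4 => hG.2 (Finset.subset_inter h2 h4)
          rw [if_neg h3, mul_zero, mul_zero]
        · rw [if_neg h2, zero_mul, mul_zero]
      · intro G hG
        rw [Finset.mem_powerset] at hG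
        rw [if_pos (hG.trans Finset.inter_subset_left), if_pos (hG.trans Finset.inter_subset_right)]
        ring
    have hQ : ∑ D ∈ DD, ∑ E ∈ DD, lam D * lam E * ∏ p ∈ D ∪ E, h p =
        ∑ G ∈ DD, gi G * (y G * y G) := by
      rw [Finset.sum_congr rfl fun D hD => Finset.sum_congr rfl fun E hE => hform D hD E hE]
      have h1 : ∀ D ∈ DD, ∑ E ∈ DD, ∑ G ∈ DD, gi G *
          ((if G ⊆ D then lam D * ∏ p ∈ D, h p else 0) *
            (if G ⊆ E then lam E * ∏ p ∈ E, h p else 0)) =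
          ∑ G ∈ DD, ∑ E ∈ DD, gi G *
          ((if G ⊆ D then lam D * ∏ p ∈ D, h p else 0) *
            (if G ⊆ E then lam E * ∏ p ∈ E, h p else 0)) := fun D _ => Finset.sum_comm
      rw [Finset.sum_congr rfl h1, Finset.sum_comm]
      refine Finset.sum_congr rfl fun G _ => ?_
      have h2 : y G = ∑ D ∈ DD, if G ⊆ D then lam D * ∏ p ∈ D, h p else 0 := by
        rw [hy]
        simp only
        rw [Finset.sum_filter]
      rw [h2, Finset.sum_mul_sum, Finset.mul_sum]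
      refine Finset.sum_congr rfl fun D _ => ?_
      rw [Finset.mul_sum]
    rw [hQ]
    have h3 : ∀ G ∈ DD, gi G * (y G * y G) = (J⁻¹ * J⁻¹) * g G := by
      intro G hG
      rw [hyG G hG]
      have h4 := hgig G hG
      have h5 : (-1 : ℝ) ^ G.card * (-1 : ℝ) ^ G.card = 1 := by
        rw [← mul_pow]; norm_num
      calc gi G * (J⁻¹ * ((-1 : ℝ) ^ G.card * g G) * (J⁻¹ * ((-1 : ℝ) ^ G.card * g G)))
          = (J⁻¹ * J⁻¹) * ((-1 : ℝ) ^ G.card * (-1 : ℝ) ^ G.card) * (gi G * g G) * g G := by ring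
        _ = _ := by rw [h4, h5, mul_one, mul_one]
    rw [Finset.sum_congr rfl h3, ← Finset.mul_sum, ← hJ]
    field_simp

end

end Pool.Agent.Lib.MP_0b748d_nt.MR
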