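import Pool.Agent.Lib.MP_0b748d_nt.P.Freq

section

set_option autoImplicit false

/-!
# Positive proportion program: definitions

Everything concerns the *odd* elements of `ℤ[√2]` (odd real part, equivalently odd norm),
totally positive, modulo the group of totally positive units `un n`.
-/

namespace Pool.Agent.Lib.MP_0b748d_nt.MR

open Zsqrtd

noncomputable section

/-- odd totally positive elements -/
def OT (z : ℤ√2) : Prop := TP z ∧ z.re % 2 = 1

/-- the totally positive unit of normalised angle `n` -/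
def un (n : ℤ) : ℤ√2 := (freq_unit n).choose

/-- the representative of `z` modulo totally positive units with normalised angle in `[0, 1)` -/
def rp (z : ℤ√2) : ℤ√2 := un (-⌊al z⌋) * z

open Classical in
/-- odd totally positive elements modulo units, norm in `[a, b)` -/
def Vs (a b : ℝ) : Finset (ℤ√2) :=
  (((Finset.range (⌈3 * √b⌉₊ + 1)) ×ˢ (Finset.range (⌈3 * √b⌉₊ + 1))).image
    (fun p => (⟨p.1, p.2⟩ : ℤ√2))).filter
    (fun z => OT z ∧ a ≤ nm z ∧ (nm z : ℝ) < b ∧ 0 ≤ al z ∧ al z < 1)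

open Classical in
/-- the primitive elements of `Vs a b` -/
def Us (a b : ℝ) : Finset (ℤ√2) := (Vs a b).filter Prim

/-- canonical primitive odd elements -/
def Can (z : ℤ√2) : Prop := OT z ∧ Prim z ∧ 0 ≤ al z ∧ al z < 1

/-- the angular characters -/
def xi (k : ℤ) (z : ℤ√2) : ℂ := ee (k * al z)

/-- invariance under totally positive units -/
def Inv {M : Type*} (φ : ℤ√2 → M) : Prop := ∀ (n : ℤ) (z : ℤ√2), TP z → φ (un n * z) = φ z

/-- completely multiplicative functions of modulus at most one on odd elements modulo units -/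
structure MF (f : ℤ√2 → ℂ) : Prop where
  mul : ∀ z w, OT z → OT w → f (z * w) = f z * f w
  le : ∀ z, OT z → ‖f z‖ ≤ 1
  inv : Inv f

/-- completely multiplicative signs on the odd numbers -/
structure CO (g : ℕ → ℤ) : Prop where
  mul : ∀ m n, m % 2 = 1 → n % 2 = 1 → g (m * n) = g m * g n
  val : ∀ n, n % 2 = 1 → g n = 1 ∨ g n = -1

/-- the multiplicative function on `ℤ[√2]` attached to `g` -/
def fg (g : ℕ → ℤ) (z : ℤ√2) : ℂ := ((F g z : ℤ) : ℂ)

/-- split odd primes -/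
def Sp (p : ℕ) : Prop := p.Prime ∧ (p % 8 = 1 ∨ p % 8 = 7)

/-- a totally positive element of norm `p` -/
def pe (p : ℕ) : ℤ√2 := Classical.epsilon (fun z : ℤ√2 => TP z ∧ nm z = (p : ℤ))

/-- the two prime elements above `p` -/
def el (p : ℕ) (s : Bool) : ℤ√2 := if s then pe p else star (pe p)

open Classical in
/-- the primes `≡ 1 mod 8` in `[P, Q)` -/
def Ip (P Q : ℝ) : Finset ℕ :=
  (Finset.range (⌈Q⌉₊ + 1)).filter (fun p => p.Prime ∧ p % 8 = 1 ∧ P ≤ p ∧ (p : ℝ) < Q)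

/-- total weight of the prime elements with norm in `[P, Q)` -/
def Wp (P Q : ℝ) : ℝ := ∑ p ∈ Ip P Q, 2 / (p : ℝ)

open Classical in
/-- number of prime elements above the primes of `I` which divide `w` -/
def om (I : Finset ℕ) (w : ℤ√2) : ℝ := ∑ p ∈ I, ∑ s : Bool, if el p s ∣ w then (1 : ℝ) else 0

/-- the polynomial over prime elements with norm in `[P, Q)` -/
def Qp (f : ℤ√2 → ℂ) (k : ℤ) (P Q : ℝ) : ℂ :=
  ∑ p ∈ Ip P Q, ∑ s : Bool, f (el p s) * xi k (el p s)

/-- the polynomial over primitive elements with norm in `[a, b)` -/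
def Ap (f : ℤ√2 → ℂ) (k : ℤ) (a b : ℝ) : ℂ := ∑ w ∈ Us a b, f w * xi k w

/-- the integers `k` with `|k| ≤ K` -/
def Ik (K : ℕ) : Finset ℤ := Finset.Icc (-(K : ℤ)) K

open Classical in
/-- prime element step on canonical primitive elements: multiply by `el p s` and reduce -/
def Tp (p : ℕ) (s : Bool) (w : ℤ√2) : ℤ√2 :=
  rp (if h : el p (!s) ∣ w then h.choose else el p s * w)

open Classical in
/-- the operator on functions on canonical primitive elements -/
def opn (I : Finset ℕ) (b : ℕ → Bool → ℂ) (a : ℤ√2 → ℂ) (w : ℤ√2) : ℂ :=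
  if Can w then ∑ p ∈ I, ∑ s : Bool, b p s * a (Tp p (!s) w) else 0

/-- membership of the direction `z` in the window of length `h` starting at `θ` (modulo 1) -/
def Win (θ h : ℝ) (z : ℤ√2) : Prop := Int.fract (al z - θ) < h

/-- sieve density of split primes -/
def hd (p : ℕ) : ℝ := (2 * (p : ℝ) - 1) / (p : ℝ) ^ 2

open Classical in
/-- the split odd primes up to `R` -/
def Spl (R : ℝ) : Finset ℕ := (Finset.range (⌊R⌋₊ + 1)).filter Sp

/-- number of roots of `r ^ 2 = 2` modulo `d` -/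
def rho (d : ℕ) : ℕ := ((Finset.range d).filter (fun r : ℕ => (d : ℤ) ∣ (r : ℤ) ^ 2 - 2)).card

open Classical in
/-- balanced pairs `(n, d)`, `d ∣ n ^ 2 - 2`, `n ≡ c mod 2`, `n ≤ N`, with prescribed sign -/
def BP (D N : ℕ) (c : ℕ) (g : ℕ → ℤ) (s : ℤ) : Finset (ℕ × ℕ) :=
  (Finset.Icc 2 N ×ˢ Finset.Icc 1 (D * N)).filter (fun x => x.1 % 2 = c ∧ x.2 ∣ x.1 ^ 2 - 2 ∧
    x.1 ≤ D * x.2 ∧ x.2 ≤ D * x.1 ∧ g (x.1 ^ 2 - 2) = s)

end

end Pool.Agent.Lib.MP_0b748d_nt.MR
end

section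

set_option autoImplicit false

/-!
# Directions inside a balanced edge
-/

namespace Pool.Agent.Lib.MP_0b748d_nt.MR

open Zsqrtd MeasureTheory

noncomputable section

theorem th_uu_bounds : 1 ≤ th uu ∧ th uu ≤ 2 := by
  refine ⟨?_, freq_th_uu_le⟩
  have h12 : s1 uu * s2 uu = 1 := by rw [s1_mul_s2, nm_uu]; norm_num
  have hu := TP_uu
  have hlog : Real.log (s2 uu) = - Real.log (s1 uu) := by
    have h3 : Real.log (s1 uu) + Real.log (s2 uu) = 0 := by
      rw [← Real.log_mul hu.1.ne' hu.2.ne', h12, Real.log_one]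
    linarith
  have hth : th uu = Real.log (s1 uu) := by
    simp only [th]; rw [hlog]; ring
  rw [hth, Real.le_log_iff_exp_le hu.1]
  have h1 : s1 uu = 3 + 2 * √2 := by simp [s1, uu]
  rw [h1]
  have h2 := sqrt2_pos
  have h3 := Real.exp_one_lt_d9
  linarith

open Classical in
/-- totally positive elements with norm at most `Y` and angle at most `5` -/
def AA (Y : ℝ) : Finset (ℤ√2) :=
  (((Finset.Icc (-(⌈200 * √Y⌉ : ℤ)) ⌈200 * √Y⌉) ×ˢ
    (Finset.Icc (-(⌈200 * √Y⌉ : ℤ)) ⌈200 * √Y⌉)).image (fun p => (⟨p.1, p.2⟩ : ℤ√2))).filter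
    (fun z => TP z ∧ (nm z : ℝ) ≤ Y ∧ |th z| ≤ 5)

lemma DirsA_exp5 : Real.exp 5 ≤ 150 := by
  have h3 := Real.exp_one_lt_d9
  have h0 := Real.exp_pos 1
  have h5 : Real.exp 5 = Real.exp 1 ^ 5 := by
    rw [← Real.exp_nat_mul]; norm_num
  rw [h5]
  calc Real.exp 1 ^ 5 ≤ (2.7182818286 : ℝ) ^ 5 := pow_le_pow_left₀ h0.le h3.le 5
    _ ≤ 150 := by norm_num

lemma DirsA_s_le {z : ℤ√2} {Y : ℝ} (hz : TP z) (hY : (nm z : ℝ) ≤ Y) (ht : |th z| ≤ 5) :
    s1 z ≤ 150 * √Y ∧ s2 z ≤ 150 * √Y := by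
  have hn := hz.nm_pos
  have hnR : (0 : ℝ) < nm z := by exact_mod_cast hn
  have hYpos : 0 < Y := hnR.trans_le hY
  have h12 := s1_mul_s2 z
  have ht' := abs_le.1 ht
  have hlog12 : Real.log (s1 z) + Real.log (s2 z) = Real.log (nm z : ℝ) := by
    rw [← Real.log_mul hz.1.ne' hz.2.ne', h12]
  have hlY : Real.log (nm z : ℝ) ≤ Real.log Y := Real.log_le_log hnR hY
  have hsq : Real.log (√Y) = Real.log Y / 2 := Real.log_sqrt hYpos.le
  have hsY : 0 < √Y := Real.sqrt_pos.2 hYpos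
  have key : ∀ s : ℝ, 0 < s → Real.log s ≤ 5 + Real.log (√Y) → s ≤ 150 * √Y := by
    intro s hs h
    have h1 : s ≤ Real.exp (5 + Real.log (√Y)) := by
      rw [← Real.log_le_iff_le_exp hs]
      exact h
    rw [Real.exp_add, Real.exp_log hsY] at h1
    exact h1.trans (mul_le_mul_of_nonneg_right DirsA_exp5 hsY.le)
  have hdef : th z = (Real.log (s1 z) - Real.log (s2 z)) / 2 := rfl
  constructor
  · apply key _ hz.1
    rw [hsq]
    linarith [ht'.2]
  · apply key _ hz.2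
    rw [hsq]
    linarith [ht'.1]

/-- Proof: `s1 z = √(nm z) e^(th z)`, `s2 z = √(nm z) e^(-th z)`, so `|re z|, |im z| ≤ e^5 √Y ≤
150 √Y`. -/
theorem mem_AA {Y : ℝ} {z : ℤ√2} : z ∈ AA Y ↔ TP z ∧ (nm z : ℝ) ≤ Y ∧ |th z| ≤ 5 := by
  classical
  simp only [AA, Finset.mem_filter, Finset.mem_image, Finset.mem_product, Finset.mem_Icc,
    Prod.exists]
  constructor
  · rintro ⟨_, h⟩
    exact h
  · rintro ⟨hz, hY, ht⟩
    refine ⟨?_, hz, hY, ht⟩
    obtain ⟨h1, h2⟩ := DirsA_s_le hz hY ht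
    have hs1 := hz.1
    have hs2 := hz.2
    have hsY : 0 ≤ √Y := Real.sqrt_nonneg Y
    have hre : s1 z + s2 z = 2 * (z.re : ℝ) := by simp [s1, s2]; ring
    have him : s1 z - s2 z = 2 * ((z.im : ℝ) * √2) := by simp [s1, s2]; ring
    have hc : 200 * √Y ≤ (⌈200 * √Y⌉ : ℝ) := Int.le_ceil _
    have hr1 : (z.re : ℝ) ≤ ⌈200 * √Y⌉ := by linarith
    have hr2 : (0 : ℝ) ≤ z.re := by linarith
    have hc0 : (0 : ℝ) ≤ (⌈200 * √Y⌉ : ℝ) := by linarith
    have hl := lt_sqrt2
    have hi1 : (z.im : ℝ) ≤ ⌈200 * √Y⌉ := by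
      by_contra hcon
      push Not at hcon
      nlinarith
    have hi2 : -(⌈200 * √Y⌉ : ℝ) ≤ (z.im : ℝ) := by
      by_contra hcon
      push Not at hcon
      nlinarith
    refine ⟨z.re, z.im, ⟨⟨?_, ?_⟩, ?_, ?_⟩, ?_⟩
    · have : -(⌈200 * √Y⌉ : ℝ) ≤ (z.re : ℝ) := by linarith
      exact_mod_cast this
    · exact_mod_cast hr1
    · exact_mod_cast hi2
    · exact_mod_cast hi1
    · rfl

/-- Proof: empty if `Y < 1`; otherwise at most `(2 ⌈200 √Y⌉ + 1)^2` elements. -/
theorem AA_card : ∃ C : ℝ, 1 ≤ C ∧ ∀ Y : ℝ, 0 ≤ Y → ((AA Y).card : ℝ) ≤ C * Y := by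
  classical
  refine ⟨170000, by norm_num, fun Y hY => ?_⟩
  by_cases h1 : Y < 1
  · have he : AA Y = ∅ := by
      rw [Finset.eq_empty_iff_forall_notMem]
      intro z hz
      rw [mem_AA] at hz
      have hn := hz.1.nm_pos
      have hnR : (1 : ℝ) ≤ nm z := by exact_mod_cast hn
      linarith [hz.2.1]
    rw [he]
    simp only [Finset.card_empty, Nat.cast_zero]
    positivity
  · push Not at h1
    have hs1 : 1 ≤ √Y := by
      rw [Real.one_le_sqrt]; exact h1
    have hcard : (AA Y).card ≤ (2 * ⌈200 * √Y⌉ + 1).toNat * (2 * ⌈200 * √Y⌉ + 1).toNat := by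
      refine (Finset.card_filter_le _ _).trans ?_
      refine Finset.card_image_le.trans ?_
      rw [Finset.card_product, Int.card_Icc]
      apply le_of_eq
      congr 1 <;> congr 1 <;> ring
    have hc0 : 0 ≤ ⌈200 * √Y⌉ := by
      apply Int.ceil_nonneg
      positivity
    have hR : ((2 * ⌈200 * √Y⌉ + 1).toNat : ℝ) ≤ 403 * √Y := by
      have e : ((2 * ⌈200 * √Y⌉ + 1).toNat : ℝ) = 2 * (⌈200 * √Y⌉ : ℝ) + 1 := by
        have : ((2 * ⌈200 * √Y⌉ + 1).toNat : ℤ) = 2 * ⌈200 * √Y⌉ + 1 :=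
          Int.toNat_of_nonneg (by omega)
        exact_mod_cast this
      rw [e]
      have := Int.ceil_lt_add_one (200 * √Y)
      linarith
    have hR0 : (0 : ℝ) ≤ ((2 * ⌈200 * √Y⌉ + 1).toNat : ℝ) := by positivity
    have hss : √Y * √Y = Y := Real.mul_self_sqrt hY
    calc ((AA Y).card : ℝ) ≤
        ((2 * ⌈200 * √Y⌉ + 1).toNat : ℝ) * ((2 * ⌈200 * √Y⌉ + 1).toNat : ℝ) := by
          exact_mod_cast hcard
      _ ≤ (403 * √Y) * (403 * √Y) := mul_le_mul hR hR hR0 (by positivity)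
      _ = 162409 * (√Y * √Y) := by ring
      _ = 162409 * Y := by rw [hss]
      _ ≤ 170000 * Y := by nlinarith

/-- Proof: split by `Y/2^(i+1) < nm z ≤ Y/2^i`: the class has at most `C Y/2^i` elements
(`AA_card`), each with `1/√(nm z) ≤ √(2^(i+1)/Y)`; `∑_i 2^(-i/2)` converges. -/
theorem AA_sum : ∃ C : ℝ, 1 ≤ C ∧ ∀ Y : ℝ, 0 ≤ Y →
    ∑ z ∈ AA Y, 1 / √(nm z : ℝ) ≤ C * √Y := by
  classical
  obtain ⟨C, hC1, hC⟩ := AA_card
  refine ⟨4 * C, by linarith, ?_⟩
  have hC0 : 0 < C := by linarith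
  have main : ∀ k : ℕ, ∀ Y : ℝ, 0 ≤ Y → Y < 4 ^ k →
      ∑ z ∈ AA Y, 1 / √(nm z : ℝ) ≤ (4 * C) * √Y := by
    intro k
    induction k with
    | zero =>
      intro Y hY h1
      rw [pow_zero] at h1
      have he : AA Y = ∅ := by
        rw [Finset.eq_empty_iff_forall_notMem]
        intro z hz
        rw [mem_AA] at hz
        have hn := hz.1.nm_pos
        have hnR : (1 : ℝ) ≤ nm z := by exact_mod_cast hn
        linarith [hz.2.1]
      rw [he, Finset.sum_empty]
      positivity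
    | succ k ih =>
      intro Y hY h1
      rcases hY.eq_or_lt with h0 | hYpos
      · rw [← h0]
        have he : AA 0 = ∅ := by
          rw [Finset.eq_empty_iff_forall_notMem]
          intro z hz
          rw [mem_AA] at hz
          have hn := hz.1.nm_pos
          have hnR : (1 : ℝ) ≤ nm z := by exact_mod_cast hn
          linarith [hz.2.1]
        rw [he, Finset.sum_empty]
        positivity
      have hsub : AA (Y / 4) ⊆ AA Y := by
        intro z hz
        rw [mem_AA] at hz ⊢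
        exact ⟨hz.1, by linarith [hz.2.1], hz.2.2⟩
      rw [← Finset.sum_sdiff hsub]
      have hq : √(Y / 4) = √Y / 2 := by
        have h4 : √(4 : ℝ) = 2 := by
          rw [show (4 : ℝ) = 2 * 2 by norm_num]
          exact Real.sqrt_mul_self (by norm_num)
        rw [Real.sqrt_div hY, h4]
      have h2 := ih (Y / 4) (by positivity) (by rw [pow_succ] at h1; linarith)
      rw [hq] at h2
      have hsY : 0 < √Y := Real.sqrt_pos.2 hYpos
      have h3 : ∑ z ∈ AA Y \ AA (Y / 4), 1 / √(nm z : ℝ) ≤ 2 * C * √Y := by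
        have h4 : ∀ z ∈ AA Y \ AA (Y / 4), 1 / √(nm z : ℝ) ≤ 2 / √Y := by
          intro z hz
          rw [Finset.mem_sdiff, mem_AA, mem_AA] at hz
          obtain ⟨⟨hz1, hz2, hz3⟩, hz4⟩ := hz
          have h5 : Y / 4 < nm z := by
            by_contra hcon
            push Not at hcon
            exact hz4 ⟨hz1, hcon, hz3⟩
          have h6 : √Y / 2 ≤ √(nm z : ℝ) := by
            rw [← hq]
            exact Real.sqrt_le_sqrt h5.le
          have h7 : 0 < √Y / 2 := by positivity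
          calc 1 / √(nm z : ℝ) ≤ 1 / (√Y / 2) := one_div_le_one_div_of_le h7 h6
            _ = 2 / √Y := by field_simp
        refine (Finset.sum_le_card_nsmul _ _ _ h4).trans ?_
        rw [nsmul_eq_mul]
        have h8 : ((AA Y \ AA (Y / 4)).card : ℝ) ≤ C * Y := by
          have : ((AA Y \ AA (Y / 4)).card : ℝ) ≤ (AA Y).card := by
            exact_mod_cast Finset.card_le_card Finset.sdiff_subset
          exact this.trans (hC Y hY)
        have h9 : 0 ≤ 2 / √Y := by positivity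
        calc ((AA Y \ AA (Y / 4)).card : ℝ) * (2 / √Y) ≤ (C * Y) * (2 / √Y) :=
              mul_le_mul_of_nonneg_right h8 h9
          _ = (C * (√Y * √Y)) * (2 / √Y) := by rw [Real.mul_self_sqrt hY]
          _ = 2 * C * √Y := by field_simp
      calc ∑ z ∈ AA Y \ AA (Y / 4), 1 / √(nm z : ℝ) + ∑ z ∈ AA (Y / 4), 1 / √(nm z : ℝ)
          ≤ 2 * C * √Y + 4 * C * (√Y / 2) := add_le_add h3 h2
        _ = 4 * C * √Y := by ring
  intro Y hY
  obtain ⟨k, hk⟩ := pow_unbounded_of_one_lt Y (by norm_num : (1 : ℝ) < 4)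
  exact main k Y hY hk

end

end Pool.Agent.Lib.MP_0b748d_nt.MR
end
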