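import Pool.Agent.Lib.MP_0b748d_nt.MR.Cheb

section

set_option autoImplicit false

/-!
# Mean value theorem and duality
-/

namespace Pool.Agent.Lib.MP_0b748d_nt.MR

open Zsqrtd

noncomputable section

/-- duality on a sparse set of frequencies.

Proof. Let `S k = ∑_w a w xi k w`, `A = ∑ ‖a w‖²`, `Σ = ∑_{k ∈ 𝒰} ‖S k‖²`. Then
`Σ = ∑_k conj(S k) S k = ∑_w a w ∑_k conj(S k) xi k w ≤ √A (∑_w |∑_k conj(S k) xi k w|²)^(1/2)`, and
expanding the square, `∑_w |..|² = ∑_{k,l} conj(S k) S l ∑_w xi (k-l) w` (`xi_sub`)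
`≤ #T ∑_k |S k|² + M ∑_{k,l} |S k| |S l| ≤ (#T + M #𝒰) Σ`. So `Σ² ≤ A (#T + M #𝒰) Σ`. -/
theorem dual (T : Finset (ℤ√2)) (M : ℝ) (hM0 : 0 ≤ M) (J : ℤ)
    (hM : ∀ j : ℤ, j ≠ 0 → |j| ≤ J → ‖∑ w ∈ T, xi j w‖ ≤ M) (𝒰 : Finset ℤ)
    (hU : ∀ k ∈ 𝒰, ∀ l ∈ 𝒰, |k - l| ≤ J) (a : ℤ√2 → ℂ) :
    ∑ k ∈ 𝒰, ‖∑ w ∈ T, a w * xi k w‖ ^ 2 ≤
      ((T.card : ℝ) + 𝒰.card * M) * ∑ w ∈ T, ‖a w‖ ^ 2 := by
  set S : ℤ → ℂ := fun k => ∑ w ∈ T, a w * xi k w with hS
  set Sg : ℝ := ∑ k ∈ 𝒰, ‖S k‖ ^ 2 with hSg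
  set A : ℝ := ∑ w ∈ T, ‖a w‖ ^ 2 with hA
  set b : ℤ√2 → ℂ := fun w => ∑ k ∈ 𝒰, (starRingEnd ℂ) (S k) * xi k w with hb
  have hSg0 : 0 ≤ Sg := Finset.sum_nonneg fun _ _ => sq_nonneg _
  have hA0 : 0 ≤ A := Finset.sum_nonneg fun _ _ => sq_nonneg _
  -- `Sg = ∑ a b`
  have h1 : (Sg : ℂ) = ∑ w ∈ T, a w * b w := by
    have e1 : (Sg : ℂ) = ∑ k ∈ 𝒰, (starRingEnd ℂ) (S k) * S k := by
      rw [hSg]
      push_cast
      refine Finset.sum_congr rfl fun k _ => ?_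
      rw [← Complex.normSq_eq_conj_mul_self, Complex.normSq_eq_norm_sq]
      push_cast
      rfl
    rw [e1]
    have e2 : ∀ k ∈ 𝒰, (starRingEnd ℂ) (S k) * S k =
        ∑ w ∈ T, a w * ((starRingEnd ℂ) (S k) * xi k w) := by
      intro k _
      conv_lhs => rw [hS]
      simp only
      rw [Finset.mul_sum]
      refine Finset.sum_congr rfl fun w _ => ?_
      ring
    rw [Finset.sum_congr rfl e2, Finset.sum_comm]
    refine Finset.sum_congr rfl fun w _ => ?_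
    rw [hb, Finset.mul_sum]
  have h2 : Sg ^ 2 ≤ A * ∑ w ∈ T, ‖b w‖ ^ 2 := by
    have e1 : Sg ≤ ∑ w ∈ T, ‖a w‖ * ‖b w‖ := by
      have e2 : ‖(Sg : ℂ)‖ = Sg := by
        rw [Complex.norm_real, Real.norm_of_nonneg hSg0]
      rw [← e2, h1]
      refine (norm_sum_le _ _).trans (le_of_eq ?_)
      refine Finset.sum_congr rfl fun w _ => _root_.norm_mul _ _
    calc Sg ^ 2 ≤ (∑ w ∈ T, ‖a w‖ * ‖b w‖) ^ 2 := pow_le_pow_left₀ hSg0 e1 2
      _ ≤ _ := Finset.sum_mul_sq_le_sq_mul_sq _ _ _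
  -- the sum of squares of `b`
  have h3 : ((∑ w ∈ T, ‖b w‖ ^ 2 : ℝ) : ℂ) =
      ∑ k ∈ 𝒰, ∑ l ∈ 𝒰, (starRingEnd ℂ) (S k) * S l * ∑ w ∈ T, xi (k - l) w := by
    push_cast
    have e1 : ∀ w ∈ T, ((‖b w‖ : ℂ)) ^ 2 =
        ∑ k ∈ 𝒰, ∑ l ∈ 𝒰, (starRingEnd ℂ) (S k) * S l * xi (k - l) w := by
      intro w _
      have e2 : ((‖b w‖ : ℂ)) ^ 2 = b w * (starRingEnd ℂ) (b w) := by
        rw [Complex.mul_conj, Complex.normSq_eq_norm_sq]
        push_cast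
        rfl
      rw [e2, hb, map_sum, Finset.sum_mul_sum]
      refine Finset.sum_congr rfl fun k _ => Finset.sum_congr rfl fun l _ => ?_
      rw [map_mul, Complex.conj_conj, xi_sub]
      ring
    rw [Finset.sum_congr rfl e1, Finset.sum_comm]
    refine Finset.sum_congr rfl fun k _ => ?_
    rw [Finset.sum_comm]
    refine Finset.sum_congr rfl fun l _ => ?_
    exact (Finset.mul_sum T (fun w => xi (k - l) w) ((starRingEnd ℂ) (S k) * S l)).symm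
  have h4 : ∑ w ∈ T, ‖b w‖ ^ 2 ≤
      ∑ k ∈ 𝒰, ∑ l ∈ 𝒰, ‖S k‖ * ‖S l‖ * ‖∑ w ∈ T, xi (k - l) w‖ := by
    have e0 : 0 ≤ ∑ w ∈ T, ‖b w‖ ^ 2 := Finset.sum_nonneg fun _ _ => sq_nonneg _
    have e2 : ‖((∑ w ∈ T, ‖b w‖ ^ 2 : ℝ) : ℂ)‖ = ∑ w ∈ T, ‖b w‖ ^ 2 := by
      rw [Complex.norm_real, Real.norm_of_nonneg e0]
    rw [← e2, h3]
    refine (norm_sum_le _ _).trans (Finset.sum_le_sum fun k _ => ?_)
    refine (norm_sum_le _ _).trans (le_of_eq (Finset.sum_congr rfl fun l _ => ?_))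
    rw [_root_.norm_mul, _root_.norm_mul, RCLike.norm_conj]
  have h5 : ∀ k ∈ 𝒰, ∀ l ∈ 𝒰, ‖S k‖ * ‖S l‖ * ‖∑ w ∈ T, xi (k - l) w‖ ≤
      (if k = l then (T.card : ℝ) * ‖S k‖ ^ 2 else 0) + M * (‖S k‖ * ‖S l‖) := by
    intro k hk l hl
    have hn : 0 ≤ ‖S k‖ * ‖S l‖ := mul_nonneg (norm_nonneg _) (norm_nonneg _)
    by_cases hkl : k = l
    · subst hkl
      rw [if_pos rfl]
      have e1 : ‖∑ w ∈ T, xi (k - k) w‖ = T.card := by
        rw [sub_self]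
        simp only [xi_zero, Finset.sum_const, nsmul_eq_mul, mul_one]
        exact Complex.norm_natCast _
      rw [e1]
      have : 0 ≤ M * (‖S k‖ * ‖S k‖) := mul_nonneg hM0 hn
      nlinarith
    · rw [if_neg hkl, zero_add]
      have e1 := hM (k - l) (sub_ne_zero.2 hkl) (hU k hk l hl)
      calc ‖S k‖ * ‖S l‖ * ‖∑ w ∈ T, xi (k - l) w‖ ≤ ‖S k‖ * ‖S l‖ * M :=
            mul_le_mul_of_nonneg_left e1 hn
        _ = M * (‖S k‖ * ‖S l‖) := by ring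
  have h6 : ∑ w ∈ T, ‖b w‖ ^ 2 ≤ ((T.card : ℝ) + 𝒰.card * M) * Sg := by
    refine h4.trans ((Finset.sum_le_sum fun k hk => Finset.sum_le_sum fun l hl =>
      h5 k hk l hl).trans ?_)
    simp only [Finset.sum_add_distrib]
    have e1 : ∑ k ∈ 𝒰, ∑ l ∈ 𝒰, (if k = l then (T.card : ℝ) * ‖S k‖ ^ 2 else 0) =
        T.card * Sg := by
      rw [hSg, Finset.mul_sum]
      refine Finset.sum_congr rfl fun k hk => ?_
      rw [Finset.sum_ite_eq, if_pos hk]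
    have e2 : ∑ k ∈ 𝒰, ∑ l ∈ 𝒰, M * (‖S k‖ * ‖S l‖) ≤ 𝒰.card * M * Sg := by
      have e3 : ∑ k ∈ 𝒰, ∑ l ∈ 𝒰, M * (‖S k‖ * ‖S l‖) = M * (∑ k ∈ 𝒰, ‖S k‖) ^ 2 := by
        rw [sq, Finset.sum_mul_sum, Finset.mul_sum]
        refine Finset.sum_congr rfl fun k _ => ?_
        rw [Finset.mul_sum]
      have e4 : (∑ k ∈ 𝒰, ‖S k‖) ^ 2 ≤ 𝒰.card * Sg := sq_sum_le_card_mul_sum_sq
      rw [e3]
      calc M * (∑ k ∈ 𝒰, ‖S k‖) ^ 2 ≤ M * (𝒰.card * Sg) := mul_le_mul_of_nonneg_left e4 hM0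
        _ = 𝒰.card * M * Sg := by ring
    rw [e1]
    linarith
  have h7 : Sg ^ 2 ≤ ((T.card : ℝ) + 𝒰.card * M) * A * Sg := by
    refine h2.trans ?_
    calc A * ∑ w ∈ T, ‖b w‖ ^ 2 ≤ A * (((T.card : ℝ) + 𝒰.card * M) * Sg) :=
          mul_le_mul_of_nonneg_left h6 hA0
      _ = _ := by ring
  rcases hSg0.eq_or_lt with h0 | h0
  · rw [← h0]
    positivity
  · rw [sq] at h7
    exact le_of_mul_le_mul_right h7 h0

end

end Pool.Agent.Lib.MP_0b748d_nt.MR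
end

section

set_option autoImplicit false

/-!
# The finite sets of elements modulo units
-/

namespace Pool.Agent.Lib.MP_0b748d_nt.MR

open Zsqrtd

noncomputable section

/-- normalised angle in `[0, 1)` means `0 ≤ im` and `3 im < 2 re`.

Proof. `al z ≥ 0` iff `th 1 ≤ th z` iff `0 ≤ det 1 z = im z` (`th_le_iff`); `al z < 1` iff
`th z < th uu` iff `0 < det z uu = 2 re z - 3 im z` (`th_lt_iff`). -/
theorem al_range {z : ℤ√2} (hz : TP z) : (0 ≤ al z ∧ al z < 1) ↔ (0 ≤ z.im ∧ 3 * z.im < 2 * z.re) := by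
  have h1 : 0 ≤ al z ↔ 0 ≤ z.im := by
    have h3 : 0 ≤ al z ↔ 0 ≤ th z := by
      rw [al, le_div_iff₀ th_uu_pos, zero_mul]
    rw [h3, ← th_one, th_le_iff TP_one hz]
    simp [det]
  have h2 : al z < 1 ↔ 3 * z.im < 2 * z.re := by
    rw [al, div_lt_one th_uu_pos, th_lt_iff hz TP_uu]
    simp only [det, uu]
    constructor <;> intro h <;> linarith
  rw [h1, h2]

/-- Proof. `←`: by `al_range`, `0 ≤ im`, `3 im < 2 re`, so `nm z = re² - 2 im² ≥ re²/9`, so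
`re ≤ 3 √b` and `im ≤ re`; both are natural numbers. -/
theorem mem_Vs {a b : ℝ} {z : ℤ√2} :
    z ∈ Vs a b ↔ OT z ∧ a ≤ nm z ∧ (nm z : ℝ) < b ∧ 0 ≤ al z ∧ al z < 1 := by
  classical
  unfold Vs
  rw [Finset.mem_filter]
  refine ⟨fun h => h.2, fun h => ⟨?_, h⟩⟩
  obtain ⟨hz, -, hb, h0, h1⟩ := h
  obtain ⟨him, hre⟩ := (al_range hz.1).1 ⟨h0, h1⟩
  have hrp := hz.1.re_pos
  have hn : (z.re : ℝ) ^ 2 ≤ 9 * nm z := by
    have : z.re ^ 2 ≤ 9 * nm z := by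
      simp only [nm]
      nlinarith
    exact_mod_cast this
  have hb0 : (z.re : ℝ) ^ 2 ≤ (3 * √b) ^ 2 := by
    have hb' : 0 ≤ b := by
      have := hz.1.nm_pos
      have h2 : (0 : ℝ) < nm z := by exact_mod_cast this
      linarith
    rw [mul_pow, Real.sq_sqrt hb']
    linarith
  have hre' : (z.re : ℝ) ≤ 3 * √b := le_of_sq_le_sq_local hb0 (by positivity)
  have hre2 : z.re ≤ (⌈3 * √b⌉₊ : ℤ) := by
    have h2 : (z.re : ℝ) ≤ (⌈3 * √b⌉₊ : ℝ) := hre'.trans (Nat.le_ceil _)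
    exact_mod_cast h2
  rw [Finset.mem_image]
  refine ⟨(z.re.toNat, z.im.toNat), ?_, ?_⟩
  · rw [Finset.mem_product, Finset.mem_range, Finset.mem_range]
    constructor <;> simp only <;> omega
  · ext
    · simp only
      omega
    · simp only
      omega
where
  le_of_sq_le_sq_local {x y : ℝ} (h : x ^ 2 ≤ y ^ 2) (hy : 0 ≤ y) : x ≤ y :=
    (abs_le_of_sq_le_sq' h hy).2

theorem mem_Us {a b : ℝ} {z : ℤ√2} : z ∈ Us a b ↔ Can z ∧ a ≤ nm z ∧ (nm z : ℝ) < b := by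
  classical
  unfold Us Can
  rw [Finset.mem_filter, mem_Vs]
  tauto

theorem Us_sub (a b : ℝ) : Us a b ⊆ Vs a b := by
  classical
  unfold Us
  exact Finset.filter_subset _ _

theorem Vs_mono {a b a' b' : ℝ} (ha : a' ≤ a) (hb : b ≤ b') : Vs a b ⊆ Vs a' b' := by
  intro z hz
  rw [mem_Vs] at hz ⊢
  exact ⟨hz.1, ha.trans hz.2.1, hz.2.2.1.trans_le hb, hz.2.2.2⟩

theorem Us_mono {a b a' b' : ℝ} (ha : a' ≤ a) (hb : b ≤ b') : Us a b ⊆ Us a' b' := by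
  intro z hz
  rw [mem_Us] at hz ⊢
  exact ⟨hz.1, ha.trans hz.2.1, hz.2.2.trans_le hb⟩

private lemma sa_one_le {z : ℤ√2} (hz : TP z) : (1 : ℝ) ≤ nm z := by
  have := hz.nm_pos
  have h2 : 1 ≤ nm z := by omega
  exact_mod_cast h2

theorem Vs_empty {a b : ℝ} (hb : b ≤ 1) : Vs a b = ∅ := by
  rw [Finset.eq_empty_iff_forall_notMem]
  intro z hz
  rw [mem_Vs] at hz
  have := sa_one_le hz.1.1
  linarith [hz.2.2.1]

theorem Us_empty {a b : ℝ} (hb : b ≤ 1) : Us a b = ∅ := by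
  rw [Finset.eq_empty_iff_forall_notMem]
  intro z hz
  have h := Us_sub a b hz
  rw [Vs_empty hb] at h
  exact absurd h (Finset.notMem_empty z)

/-- elements of norm 1. Proof: `nm w < 2` and `0 < nm w` give `nm w = 1`, so `w = un n`
(`eq_un`) and `0 ≤ al w = n < 1`; `un 0 = 1`. -/
theorem Us_two : Us 0 2 = {1} := by
  ext z
  rw [mem_Us, Finset.mem_singleton]
  constructor
  · rintro ⟨⟨hz, -, h0, h1⟩, -, h2⟩
    have h3 := hz.1.nm_pos
    have h4 : nm z < 2 := by exact_mod_cast h2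
    have h5 : nm z = 1 := by omega
    obtain ⟨n, rfl⟩ := eq_un hz.1 h5
    have h6 : al (un n) = n := by
      have := al_un TP_one n
      rw [mul_one] at this
      rw [this, al, th_one]
      simp
    rw [h6] at h0 h1
    have h7 : n = 0 := by
      have h8 : (0 : ℤ) ≤ n := by exact_mod_cast h0
      have h9 : n < 1 := by exact_mod_cast h1
      omega
    rw [h7, un_zero]
  · rintro rfl
    have h1 : al (1 : ℤ√2) = 0 := by rw [al, th_one]; simp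
    refine ⟨⟨⟨TP_one, by simp⟩, ⟨1, 0, by simp⟩, by rw [h1], by rw [h1]; exact one_pos⟩, ?_, ?_⟩
    · simp [nm]
    · simp [nm]

theorem rp_mem_Vs {a b : ℝ} {z : ℤ√2} (hz : OT z) (ha : a ≤ nm z) (hb : (nm z : ℝ) < b) :
    rp z ∈ Vs a b := by
  obtain ⟨h1, h2, h3, h4⟩ := rp_spec hz
  rw [mem_Vs, h2]
  exact ⟨h1, ha, hb, h3, h4⟩

theorem rp_mem_Us {a b : ℝ} {z : ℤ√2} (hz : OT z) (pz : Prim z) (ha : a ≤ nm z)
    (hb : (nm z : ℝ) < b) : rp z ∈ Us a b := by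
  obtain ⟨h1, h2, h3, h4⟩ := rp_spec hz
  rw [mem_Us, h2]
  exact ⟨⟨h1, rp_prim.2 pz, h3, h4⟩, ha, hb⟩

end

end Pool.Agent.Lib.MP_0b748d_nt.MR
end

section

set_option autoImplicit false

/-!
# Divisibility by the prime elements
-/

namespace Pool.Agent.Lib.MP_0b748d_nt.MR

open Zsqrtd

noncomputable section

private theorem eda_root {p : ℕ} (hp : p.Prime) {π : ℤ√2} (hπ : nm π = p) :
    ∃ r : ℤ, (p : ℤ) ∣ r ^ 2 - 2 ∧ (p : ℤ) ∣ π.re - r * π.im := by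
  have hpp : Prime (p : ℤ) := Nat.prime_iff_prime_int.1 hp
  have hnm : π.re ^ 2 - 2 * π.im ^ 2 = p := hπ
  have hb : ¬ (p : ℤ) ∣ π.im := by
    intro h
    have h1 : (p : ℤ) ∣ π.re ^ 2 := by
      have h2 : π.re ^ 2 = p + 2 * π.im ^ 2 := by linarith
      rw [h2]
      exact dvd_add dvd_rfl (Dvd.dvd.mul_left (dvd_pow h two_ne_zero) 2)
    have h3 : (p : ℤ) ∣ π.re := hpp.dvd_of_dvd_pow h1
    obtain ⟨c, hc⟩ := h3
    obtain ⟨d, hd⟩ := h
    have h4 : (p : ℤ) * (p * (c ^ 2 - 2 * d ^ 2)) = p * 1 := by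
      rw [hc, hd] at hnm
      linarith
    have h5 : (p : ℤ) * (c ^ 2 - 2 * d ^ 2) = 1 := mul_left_cancel₀ hpp.ne_zero h4
    exact hpp.not_isUnit (IsUnit.of_mul_eq_one _ h5)
  have hcop : IsCoprime (p : ℤ) π.im := (Prime.coprime_iff_not_dvd hpp).2 hb
  obtain ⟨u, v, huv⟩ := hcop
  refine ⟨v * π.re, ?_, ?_⟩
  · have h1 : (p : ℤ) ∣ π.im ^ 2 * ((v * π.re) ^ 2 - 2) := by
      have h2 : π.im ^ 2 * ((v * π.re) ^ 2 - 2) =
          (v * π.im) ^ 2 * (π.re ^ 2 - 2 * π.im ^ 2) + 2 * π.im ^ 2 * ((v * π.im) ^ 2 - 1) := by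
        ring
      have h3 : (v * π.im) ^ 2 - 1 = p * (-u * (v * π.im + 1)) := by
        have h4 : v * π.im = 1 - u * p := by linarith
        rw [h4]
        ring
      rw [h2, h3, hnm]
      exact dvd_add (Dvd.intro_left _ rfl) (Dvd.dvd.mul_left (Dvd.intro _ rfl) _)
    rcases hpp.dvd_or_dvd h1 with h2 | h2
    · exact absurd (hpp.dvd_of_dvd_pow h2) hb
    · exact h2
  · have h1 : π.re - v * π.re * π.im = p * (u * π.re) := by
      have h4 : v * π.im = 1 - u * p := by linarith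
      have h5 : π.re - v * π.re * π.im = π.re * (1 - v * π.im) := by ring
      rw [h5, h4]
      ring
    rw [h1]
    exact Dvd.intro _ rfl

private theorem eda_iff {p : ℕ} (hp : p.Prime) {π : ℤ√2} (hπ : nm π = p) {r : ℤ}
    (h2 : (p : ℤ) ∣ r ^ 2 - 2) (hr : (p : ℤ) ∣ π.re - r * π.im) (x : ℤ√2) :
    π ∣ x ↔ (p : ℤ) ∣ x.re - r * x.im := by
  have hpp : Prime (p : ℤ) := Nat.prime_iff_prime_int.1 hp
  have hnm : π.re ^ 2 - 2 * π.im ^ 2 = p := hπ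
  obtain ⟨c, hc⟩ := h2
  obtain ⟨d, hd⟩ := hr
  constructor
  · rintro ⟨y, rfl⟩
    simp only [Zsqrtd.re_mul, Zsqrtd.im_mul]
    have h3 : π.re = r * π.im + p * d := by linarith
    have h4 : π.re * y.re + 2 * π.im * y.im - r * (π.re * y.im + π.im * y.re) =
        p * (d * y.re - r * d * y.im - c * π.im * y.im) := by
      rw [h3]
      have h5 : r ^ 2 = 2 + p * c := by linarith
      linear_combination (-π.im * y.im) * h5
    rw [h4]
    exact Dvd.intro _ rfl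
  · rintro ⟨e, he⟩
    have h3 : π.re = r * π.im + p * d := by linarith
    have h6 : x.re = r * x.im + p * e := by linarith
    have h5 : r ^ 2 = 2 + p * c := by linarith
    have e1 : x.re * π.re - 2 * x.im * π.im =
        p * (c * x.im * π.im + r * x.im * d + e * r * π.im + p * e * d) := by
      rw [h3, h6]
      linear_combination (x.im * π.im) * h5
    have e2 : x.im * π.re - x.re * π.im = p * (x.im * d - e * π.im) := by
      rw [h3, h6]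
      ring
    refine ⟨⟨c * x.im * π.im + r * x.im * d + e * r * π.im + p * e * d,
      x.im * d - e * π.im⟩, ?_⟩
    generalize c * x.im * π.im + r * x.im * d + e * r * π.im + p * e * d = A at *
    generalize x.im * d - e * π.im = B at *
    have hp0 : (p : ℤ) ≠ 0 := hpp.ne_zero
    ext
    · simp only [Zsqrtd.re_mul]
      apply mul_left_cancel₀ hp0
      have : (p : ℤ) * (π.re * A + 2 * π.im * B) = π.re * (p * A) + 2 * π.im * (p * B) := by ring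
      rw [this, ← e1, ← e2, ← hnm]
      ring
    · simp only [Zsqrtd.im_mul]
      apply mul_left_cancel₀ hp0
      have : (p : ℤ) * (π.re * B + π.im * A) = π.re * (p * B) + π.im * (p * A) := by ring
      rw [this, ← e1, ← e2, ← hnm]
      ring

private theorem eda_both {p : ℕ} (hp : Sp p) (s : Bool) :
    ∃ r : ℤ, (p : ℤ) ∣ r ^ 2 - 2 ∧ (∀ x : ℤ√2, el p s ∣ x ↔ (p : ℤ) ∣ x.re - r * x.im) ∧
      ∀ x : ℤ√2, el p (!s) ∣ x ↔ (p : ℤ) ∣ x.re + r * x.im := by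
  obtain ⟨-, h1⟩ := el_spec hp s
  obtain ⟨r, h2, h3⟩ := eda_root hp.1 h1
  refine ⟨r, h2, eda_iff hp.1 h1 h2 h3, fun x => ?_⟩
  obtain ⟨-, h4⟩ := el_spec hp (!s)
  have h5 : (p : ℤ) ∣ (-r) ^ 2 - 2 := by
    rw [neg_sq]
    exact h2
  have h6 : (p : ℤ) ∣ (el p (!s)).re - (-r) * (el p (!s)).im := by
    rw [← el_star]
    have h7 : (star (el p s)).re - (-r) * (star (el p s)).im = (el p s).re - r * (el p s).im := by
      simp only [Zsqrtd.re_star, Zsqrtd.im_star]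
      ring
    rw [h7]
    exact h3
  rw [eda_iff hp.1 h4 h5 h6]
  have h8 : x.re - -r * x.im = x.re + r * x.im := by ring
  rw [h8]

/-- the elements of prime norm are prime.

Proof. Let `π = el p s`, `nm π = p`. There is an integer `r` with `π ∣ x` iff
`p ∣ re x - r im x` for all `x`: since `p ∤ im π` (otherwise `p ∣ re π² `, so `p ∣ re π` and
`p² ∣ p`), let `r = re π * (im π)^(-1) mod p`; `r² ≡ 2 mod p`. The map
`ψ x = re x - r im x mod p` hmm for the ring homomorphism `x ↦ re x + ρ im x mod p` with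
`ρ² ≡ 2` one has `x ↦ re x - r im x` is a ring homomorphism to `ZMod p` (`ρ = -r`); it kills `π`
(by the choice of `r`), so `π ∣ x → ψ x = 0`; conversely if `ψ x = 0` then
`x * star π ≡ 0 mod p`: the coordinates of `x * star π` are `re x re π - 2 im x im π` and
`im x re π - re x im π`; with `re x ≡ r im x`, `re π ≡ r im π` they are
`≡ (r² - 2) im x im π ≡ 0` and `≡ 0`. So `p = π star π ∣ x star π`, so `π ∣ x`. As `ZMod p` is a
field, `ψ (z w) = ψ z ψ w = 0` implies `ψ z = 0` or `ψ w = 0`. -/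
theorem el_prime {p : ℕ} (hp : Sp p) (s : Bool) {z w : ℤ√2} (h : el p s ∣ z * w) :
    el p s ∣ z ∨ el p s ∣ w := by
  have hpp : Prime (p : ℤ) := Nat.prime_iff_prime_int.1 hp.1
  obtain ⟨r, h2, h3, -⟩ := eda_both hp s
  rw [h3] at h
  rw [h3, h3]
  refine hpp.dvd_or_dvd ?_
  have h4 : (z.re - r * z.im) * (w.re - r * w.im) =
      ((z * w).re - r * (z * w).im) + (r ^ 2 - 2) * (z.im * w.im) := by
    simp only [Zsqrtd.re_mul, Zsqrtd.im_mul]
    ring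
  rw [h4]
  exact dvd_add h (Dvd.dvd.mul_right h2 _)

/-- Proof. `←`: norms are multiplicative. `→`: let `π = pe p`, `p = π star π` and `p ∣ nm w =
w * star w`, so `π ∣ w * star w`, hence (`el_prime`) `π ∣ w` or `π ∣ star w`, i.e.
`star π ∣ w`. -/
theorem dvd_nm_iff {p : ℕ} (hp : Sp p) (w : ℤ√2) :
    (p : ℤ) ∣ nm w ↔ el p true ∣ w ∨ el p false ∣ w := by
  have hpp : Prime (p : ℤ) := Nat.prime_iff_prime_int.1 hp.1
  obtain ⟨r, h2, h3, h4⟩ := eda_both hp true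
  rw [Bool.not_true] at h4
  rw [h3, h4, ← hpp.dvd_mul]
  have h5 : nm w = (w.re - r * w.im) * (w.re + r * w.im) + (r ^ 2 - 2) * w.im ^ 2 := by
    unfold nm
    ring
  rw [h5, dvd_add_left (Dvd.dvd.mul_right h2 _)]

/-- Proof. `←`: `p = el p true * el p false`. `→`: with `r` as in `el_prime` for `π = el p true`
(then `-r` for `star π`): `p ∣ re w - r im w` and `p ∣ re w + r im w`, so `p ∣ 2 re w` and
`p ∣ 2 r im w`; `p` is odd and `p ∤ r`, so `p` divides both coordinates (`nat_dvd`). -/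
theorem el_both {p : ℕ} (hp : Sp p) (w : ℤ√2) :
    (el p true ∣ w ∧ el p false ∣ w) ↔ ((p : ℕ) : ℤ√2) ∣ w := by
  have hpp : Prime (p : ℤ) := Nat.prime_iff_prime_int.1 hp.1
  have hp2 : ¬ (p : ℤ) ∣ 2 := by
    intro h
    have h1 : p ∣ 2 := by exact_mod_cast h
    have h2 : p ≤ 2 := Nat.le_of_dvd two_pos h1
    have h3 := hp.1.two_le
    have h4 : p = 2 := le_antisymm h2 h3
    have h5 := hp.2
    omega
  obtain ⟨r, h2, h3, h4⟩ := eda_both hp true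
  rw [Bool.not_true] at h4
  rw [h3, h4, nat_dvd]
  constructor
  · rintro ⟨h5, h6⟩
    have h7 : (p : ℤ) ∣ 2 * w.re := by
      have := dvd_add h5 h6
      have h8 : w.re - r * w.im + (w.re + r * w.im) = 2 * w.re := by ring
      rwa [h8] at this
    have h9 : (p : ℤ) ∣ w.re := (hpp.dvd_or_dvd h7).resolve_left hp2
    refine ⟨h9, ?_⟩
    have h10 : (p : ℤ) ∣ r * w.im := by
      have := dvd_sub h6 h9
      have h8 : w.re + r * w.im - w.re = r * w.im := by ring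
      rwa [h8] at this
    refine (hpp.dvd_or_dvd h10).resolve_left fun h11 => hp2 ?_
    have h12 := dvd_sub (dvd_pow h11 two_ne_zero) h2
    have h13 : r ^ 2 - (r ^ 2 - 2) = 2 := by ring
    rwa [h13] at h12
  · rintro ⟨h5, h6⟩
    exact ⟨dvd_sub h5 (Dvd.dvd.mul_left h6 _), dvd_add h5 (Dvd.dvd.mul_left h6 _)⟩

/-- distinct prime elements are coprime.

Proof. `←` clear. `→`: `el_prime` gives `el p s ∣ el q t` or `el p s ∣ w`. In the first case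
`p ∣ q` (norms), so `p = q`, `t = !s`, and `el p s ∣ star (el p s)`; then both `el p s` and its
conjugate divide `star (el p s)`, so `p ∣ star (el p s)` (`el_both`) and `p² ∣ p`, absurd. -/
theorem el_coprime {p q : ℕ} (hp : Sp p) (hq : Sp q) {s t : Bool} (h : (p, s) ≠ (q, t))
    (w : ℤ√2) : el p s ∣ el q t * w ↔ el p s ∣ w := by
  have hpp : Prime (p : ℤ) := Nat.prime_iff_prime_int.1 hp.1
  refine ⟨fun h1 => ?_, fun h1 => Dvd.dvd.mul_left h1 _⟩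
  refine (el_prime hp s h1).resolve_left fun h2 => ?_
  have h3 : (p : ℤ) ∣ q := by
    obtain ⟨y, hy⟩ := h2
    have h4 := congrArg nm hy
    rw [nm_mul, (el_spec hp s).2, (el_spec hq t).2] at h4
    exact ⟨_, h4⟩
  have h4 : p ∣ q := by exact_mod_cast h3
  have h5 : p = q := (Nat.prime_dvd_prime_iff_eq hp.1 hq.1).1 h4
  subst h5
  have h6 : t = !s := by
    cases s <;> cases t <;> simp at h ⊢
  subst h6
  have h7 : ((p : ℕ) : ℤ√2) ∣ el p (!s) := by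
    rw [← el_both hp]
    cases s
    · exact ⟨dvd_rfl, h2⟩
    · exact ⟨h2, dvd_rfl⟩
  rw [nat_dvd] at h7
  obtain ⟨⟨c, hc⟩, ⟨d, hd⟩⟩ := h7
  have h8 : (el p (!s)).re ^ 2 - 2 * (el p (!s)).im ^ 2 = p := (el_spec hp (!s)).2
  rw [hc, hd] at h8
  have h9 : (p : ℤ) * (p * (c ^ 2 - 2 * d ^ 2)) = p * 1 := by linarith
  have h10 : (p : ℤ) * (c ^ 2 - 2 * d ^ 2) = 1 := mul_left_cancel₀ hpp.ne_zero h9
  exact hpp.not_isUnit (IsUnit.of_mul_eq_one _ h10)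

end

end Pool.Agent.Lib.MP_0b748d_nt.MR
end
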