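import Pool.Agent.Lib.MP_0b748d_nt.MR.DirsA
import Pool.Agent.Lib.MP_0b748d_nt.Count

section

set_option autoImplicit false

/-!
# Chebyshev and Mertens type bounds for the primes `≡ 1 mod 8`
-/

namespace Pool.Agent.Lib.MP_0b748d_nt.MR

open Zsqrtd

noncomputable section

theorem mem_Ip {P Q : ℝ} {p : ℕ} : p ∈ Ip P Q ↔ p.Prime ∧ p % 8 = 1 ∧ P ≤ p ∧ (p : ℝ) < Q := by
  unfold Ip
  rw [Finset.mem_filter, Finset.mem_range]
  refine ⟨fun h => h.2, fun h => ⟨?_, h⟩⟩
  have h1 : (p : ℝ) < (⌈Q⌉₊ : ℝ) := h.2.2.2.trans_le (Nat.le_ceil Q)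
  have h2 : p < ⌈Q⌉₊ := by exact_mod_cast h1
  omega

theorem Ip_Sp {P Q : ℝ} {p : ℕ} (h : p ∈ Ip P Q) : Sp p := by
  rw [mem_Ip] at h
  exact ⟨h.1, Or.inl h.2.1⟩

/-- Chebyshev: the number of primes `≡ 1 mod 8` below `y` is at most `C y / log y`.

Proof. `Chebyshev.theta_le_log4_mul_x` (Mathlib) gives `∑_{p ≤ y} log p ≤ log 4 * y`. Primes
`p ≤ √y` are at most `√y ≤ 2 y / log y` in number (as `log y ≤ 2 √y`), the others satisfy
`log p ≥ (1/2) log y`, so they number at most `2 log 4 * y / log y`. -/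
theorem cheb : ∃ C : ℝ, 1 ≤ C ∧ ∀ P y : ℝ, 2 ≤ y → ((Ip P y).card : ℝ) ≤ C * (y / Real.log y) := by
  classical
  have hlog4 : 0 ≤ Real.log 4 := Real.log_nonneg (by norm_num)
  refine ⟨2 + 2 * Real.log 4, by linarith, fun P y hy => ?_⟩
  have hy0 : 0 < y := by linarith
  have hly : 0 < Real.log y := Real.log_pos (by linarith)
  set A := (Ip P y).filter (fun p : ℕ => (p : ℝ) ≤ Real.sqrt y) with hA
  set B := (Ip P y).filter (fun p : ℕ => ¬ (p : ℝ) ≤ Real.sqrt y) with hB
  have hcard : (Ip P y).card = A.card + B.card := (Finset.card_filter_add_card_filter_not _).symm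
  have hA1 : (A.card : ℝ) ≤ 2 * (y / Real.log y) := by
    have h1 : A ⊆ Finset.Icc 1 ⌊Real.sqrt y⌋₊ := by
      intro p hp
      rw [hA, Finset.mem_filter, mem_Ip] at hp
      rw [Finset.mem_Icc]
      exact ⟨hp.1.1.one_lt.le, Nat.le_floor hp.2⟩
    have h2 := Finset.card_le_card h1
    rw [Nat.card_Icc, Nat.add_sub_cancel] at h2
    have h3 : (A.card : ℝ) ≤ Real.sqrt y := by
      calc (A.card : ℝ) ≤ (⌊Real.sqrt y⌋₊ : ℝ) := by exact_mod_cast h2
        _ ≤ Real.sqrt y := Nat.floor_le (Real.sqrt_nonneg y)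
    refine h3.trans ?_
    have hs : 0 < Real.sqrt y := Real.sqrt_pos.2 hy0
    have h4 : Real.log y ≤ 2 * Real.sqrt y := by
      have h5 := Real.log_le_sub_one_of_pos hs
      rw [Real.log_sqrt hy0.le] at h5
      linarith
    rw [mul_div_assoc', le_div_iff₀ hly]
    have h6 : y = Real.sqrt y * Real.sqrt y := (Real.mul_self_sqrt hy0.le).symm
    calc Real.sqrt y * Real.log y ≤ Real.sqrt y * (2 * Real.sqrt y) := by gcongr
      _ = 2 * y := by rw [h6]; ring_nf; rw [Real.sq_sqrt (by positivity)]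
  have hB1 : (B.card : ℝ) ≤ 2 * Real.log 4 * (y / Real.log y) := by
    have h1 : (B.card : ℝ) * (Real.log y / 2) ≤ ∑ p ∈ B, Real.log p := by
      rw [← nsmul_eq_mul]
      refine Finset.card_nsmul_le_sum _ _ _ fun p hp => ?_
      rw [hB, Finset.mem_filter] at hp
      have h2 : Real.sqrt y ≤ p := (not_le.1 hp.2).le
      have h3 := Real.log_le_log (Real.sqrt_pos.2 hy0) h2
      rw [Real.log_sqrt hy0.le] at h3
      exact h3
    have h2 : ∑ p ∈ B, Real.log (p : ℝ) ≤ Chebyshev.theta y := by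
      unfold Chebyshev.theta
      refine Finset.sum_le_sum_of_subset_of_nonneg ?_ ?_
      · intro p hp
        rw [hB, Finset.mem_filter, mem_Ip] at hp
        rw [Finset.mem_filter, Finset.mem_Ioc]
        exact ⟨⟨hp.1.1.pos, Nat.le_floor hp.1.2.2.2.le⟩, hp.1.1⟩
      · intro p hp _
        rw [Finset.mem_filter, Finset.mem_Ioc] at hp
        exact Real.log_nonneg (by exact_mod_cast hp.1.1)
    have h3 := Chebyshev.theta_le_log4_mul_x hy0.le
    rw [mul_div_assoc', le_div_iff₀ hly]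
    nlinarith [h1.trans (h2.trans h3)]
  rw [hcard]
  push_cast
  calc (A.card : ℝ) + B.card ≤ 2 * (y / Real.log y) + 2 * Real.log 4 * (y / Real.log y) :=
        add_le_add hA1 hB1
    _ = _ := by ring

/-- dyadic splitting of `Ip` -/
theorem Ip_split {M : Type*} [AddCommMonoid M] (φ : ℕ → M) (P lam : ℝ) (hP : 0 < P)
    (hl : 1 < lam) (n : ℕ) :
    ∑ p ∈ Ip P (P * lam ^ n), φ p =
      ∑ v ∈ Finset.range n, ∑ p ∈ Ip (P * lam ^ v) (P * lam ^ (v + 1)), φ p := by
  classical
  induction n with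
  | zero =>
    have h : Ip P (P * lam ^ 0) = ∅ := by
      ext p
      simp only [mem_Ip, pow_zero, mul_one, Finset.notMem_empty, iff_false, not_and, not_lt]
      intro _ _ h
      exact h
    rw [h]
    simp
  | succ n ih =>
    rw [Finset.sum_range_succ, ← ih]
    have h1 : 1 ≤ lam ^ n := one_le_pow₀ hl.le
    have h2 : P ≤ P * lam ^ n := le_mul_of_one_le_right hP.le h1
    have h3 : P * lam ^ n ≤ P * lam ^ (n + 1) := by
      rw [pow_succ, ← mul_assoc]
      exact le_mul_of_one_le_right (by positivity) hl.le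
    have h4 : Ip P (P * lam ^ (n + 1)) =
        Ip P (P * lam ^ n) ∪ Ip (P * lam ^ n) (P * lam ^ (n + 1)) := by
      ext p
      simp only [Finset.mem_union, mem_Ip]
      constructor
      · rintro ⟨a, b, c, d⟩
        rcases lt_or_ge (p : ℝ) (P * lam ^ n) with h | h
        · exact Or.inl ⟨a, b, c, h⟩
        · exact Or.inr ⟨a, b, h, d⟩
      · rintro (⟨a, b, c, d⟩ | ⟨a, b, c, d⟩)
        · exact ⟨a, b, c, d.trans_le h3⟩
        · exact ⟨a, b, h2.trans c, d⟩
    rw [h4, Finset.sum_union]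
    rw [Finset.disjoint_left]
    intro p hp hq
    rw [mem_Ip] at hp hq
    exact absurd hp.2.2.2 (not_lt.2 hq.2.2.1)

end

end Pool.Agent.Lib.MP_0b748d_nt.MR
end

section

set_option autoImplicit false

/-!
# Totally positive units and representatives
-/

namespace Pool.Agent.Lib.MP_0b748d_nt.MR

open Zsqrtd

noncomputable section

/-- by definition (`freq_unit` in `P/Freq.lean`) -/
theorem un_spec (n : ℤ) : TP (un n) ∧ nm (un n) = 1 ∧ th (un n) = n * th uu :=
  (freq_unit n).choose_spec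

private lemma ua_star_mul {v : ℤ√2} (hv : nm v = 1) : star v * v = 1 := by
  ext
  · simp only [Zsqrtd.re_mul, Zsqrtd.re_star, Zsqrtd.im_star, Zsqrtd.re_one]
    simp only [nm] at hv
    linarith
  · simp only [Zsqrtd.im_mul, Zsqrtd.re_star, Zsqrtd.im_star, Zsqrtd.im_one]
    ring

private lemma ua_eq {u v : ℤ√2} (hu : TP u) (hv : TP v) (h1 : nm u = 1) (h2 : nm v = 1)
    (h : |th u - th v| < 1) : u = v := by
  have h3 : u * star v = 1 := by
    apply unit_eq_one (hu.mul hv.star)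
    · rw [nm_mul, nm_star, h1, h2, one_mul]
    · rw [th_mul hu hv.star, th_star, ← sub_eq_add_neg]
      exact h
  calc u = u * (star v * v) := by rw [ua_star_mul h2, mul_one]
    _ = (u * star v) * v := by ring
    _ = v := by rw [h3, one_mul]

/-- Proof: `un 0` has norm 1 and angle 0; `s1 * s2 = 1` and `log s1 = log s2` give `s1 = s2 = 1`
(or `unit_eq_one` in `Count.lean`). -/
theorem un_zero : un 0 = 1 := by
  obtain ⟨h1, h2, h3⟩ := un_spec 0
  apply unit_eq_one h1 h2
  rw [h3]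
  simp

/-- Proof: the quotient of two totally positive elements of norm 1 with the same angle is `1`:
for `u = un (m+n)`, `v = un m * un n`, `u * star v` has norm 1 and angle 0, so it is `1`
(`unit_eq_one`), so `u = u * (star v * v) = v` (`star v * v = nm v = 1`). -/
theorem un_add (m n : ℤ) : un (m + n) = un m * un n := by
  obtain ⟨h1, h2, h3⟩ := un_spec (m + n)
  obtain ⟨h4, h5, h6⟩ := un_spec m
  obtain ⟨h7, h8, h9⟩ := un_spec n
  apply ua_eq h1 (h4.mul h7) h2
  · rw [nm_mul, h5, h8, one_mul]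
  · rw [th_mul h4 h7, h3, h6, h9]
    push_cast
    ring_nf
    simp

/-- same argument: `uu` is totally positive of norm 1 and angle `th uu` -/
theorem un_one : un 1 = uu := by
  obtain ⟨h1, h2, h3⟩ := un_spec 1
  apply ua_eq h1 TP_uu h2 nm_uu
  rw [h3]
  simp

/-- Proof: for totally positive `u` of norm 1, `re^2 - 2 im^2 = 1`, so `re` is odd and
`2 im^2 = re^2 - 1` is divisible by `8`, so `im` is even. -/
theorem un_par (n : ℤ) : (un n).re % 2 = 1 ∧ (un n).im % 2 = 0 := by
  obtain ⟨-, h2, -⟩ := un_spec n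
  simp only [nm] at h2
  set a := (un n).re
  set b := (un n).im
  have ha : a % 2 = 1 := by
    rcases Int.even_or_odd a with ⟨k, hk⟩ | ⟨k, hk⟩
    · exfalso
      rw [hk] at h2
      have : 2 * (2 * k ^ 2 - b ^ 2) = 1 := by linarith
      omega
    · omega
  refine ⟨ha, ?_⟩
  obtain ⟨k, hk⟩ : ∃ k, a = 2 * k + 1 := ⟨a / 2, by omega⟩
  rcases Int.even_or_odd b with ⟨l, hl⟩ | ⟨l, hl⟩
  · omega
  · exfalso
    rw [hk, hl] at h2
    have h3 : 2 * (k ^ 2 + k - 2 * l ^ 2 - 2 * l) = 1 := by nlinarith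
    omega

/-- Proof: let `n = round (al u)`. `u * star (un n)` (norm 1, totally positive) has angle
`(al u - n) * th uu` of absolute value `≤ th uu/2 < 1` (`th uu ≤ 2`, in fact `< 2`; use
`th_uu_le`/`freq_th_uu_le`; if equality matters note `th uu = log(3+2√2) < 2`), so it is `1`
(`unit_eq_one`). -/
theorem eq_un {u : ℤ√2} (hu : TP u) (h1 : nm u = 1) : ∃ n, u = un n := by
  refine ⟨round (al u), ?_⟩
  obtain ⟨h4, h5, h6⟩ := un_spec (round (al u))
  apply ua_eq hu h4 h1 h5
  have hpos := th_uu_pos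
  have h7 : th u - th (un (round (al u))) = (al u - round (al u)) * th uu := by
    rw [h6]
    simp only [al]
    field_simp
  rw [h7, abs_mul, abs_of_pos hpos]
  have h8 : |al u - round (al u)| ≤ 1 / 2 := abs_sub_round _
  have h9 : th uu < 2 := by
    have h12 : s1 uu * s2 uu = 1 := by
      rw [s1_mul_s2, nm_uu]; simp
    have hp : 0 < s1 uu := TP_uu.1
    have hp2 : 0 < s2 uu := TP_uu.2
    have h2 : Real.log (s1 uu) + Real.log (s2 uu) = 0 := by
      rw [← Real.log_mul hp.ne' hp2.ne', h12, Real.log_one]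
    have h3 : th uu = Real.log (s1 uu) := by
      simp only [th]
      linarith
    rw [h3, Real.log_lt_iff_lt_exp hp]
    have h4 : s1 uu ≤ 6 := by
      simp only [s1, uu]
      have := sqrt2_lt
      push_cast
      linarith
    have h5 : (2.5 : ℝ) ≤ Real.exp 1 := by
      have := Real.exp_one_gt_d9
      linarith
    have h6 : Real.exp 2 = Real.exp 1 * Real.exp 1 := by
      rw [← Real.exp_add]; norm_num
    rw [h6]
    nlinarith
  calc |al u - round (al u)| * th uu ≤ (1 / 2) * th uu :=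
        mul_le_mul_of_nonneg_right h8 hpos.le
    _ < 1 := by linarith

/-- `th_mul` -/
theorem al_mul {z w : ℤ√2} (hz : TP z) (hw : TP w) : al (z * w) = al z + al w := by
  simp only [al]
  rw [th_mul hz hw, add_div]

/-- `th_star` -/
theorem al_star (z : ℤ√2) : al (star z) = - al z := by
  simp only [al]
  rw [th_star, neg_div]

/-- `th_mul` and `un_spec` -/
theorem al_un {z : ℤ√2} (hz : TP z) (n : ℤ) : al (un n * z) = al z + n := by
  obtain ⟨h4, h5, h6⟩ := un_spec n
  rw [al_mul h4 hz, add_comm]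
  congr 1
  simp only [al]
  rw [h6, mul_div_cancel_right₀ _ th_uu_pos.ne']

/-- `nm_mul`, `un_spec` -/
theorem nm_un (n : ℤ) (z : ℤ√2) : nm (un n * z) = nm z := by
  rw [nm_mul, (un_spec n).2.1, one_mul]

private lemma ua_neg (n : ℤ) (z : ℤ√2) : un (-n) * (un n * z) = z := by
  rw [← mul_assoc, ← un_add, neg_add_cancel, un_zero, one_mul]

/-- Proof: `→`: `z = un (-n) * (un n * z)`; `←`: `TP.mul`. -/
theorem TP_un {z : ℤ√2} (n : ℤ) : TP (un n * z) ↔ TP z := by
  constructor
  · intro h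
    rw [← ua_neg n z]
    exact (un_spec (-n)).1.mul h
  · intro h
    exact (un_spec n).1.mul h

/-- Proof: `TP_un`; `(un n * z).re = re * re + 2 im * im ≡ z.re mod 2` by `un_par`. -/
theorem OT_un {z : ℤ√2} (n : ℤ) : OT (un n * z) ↔ OT z := by
  unfold OT
  rw [TP_un]
  refine and_congr_right fun _ => ?_
  obtain ⟨h1, -⟩ := un_par n
  obtain ⟨k, hk⟩ : ∃ k, (un n).re = 2 * k + 1 := ⟨(un n).re / 2, by omega⟩
  have h2 : (un n * z).re = z.re + 2 * (k * z.re + (un n).im * z.im) := by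
    rw [Zsqrtd.re_mul, hk]
    ring
  rw [h2]
  omega

theorem OT.mul {z w : ℤ√2} (hz : OT z) (hw : OT w) : OT (z * w) := by
  refine ⟨hz.1.mul hw.1, ?_⟩
  obtain ⟨k, hk⟩ : ∃ k, z.re = 2 * k + 1 := ⟨z.re / 2, by have := hz.2; omega⟩
  obtain ⟨l, hl⟩ : ∃ l, w.re = 2 * l + 1 := ⟨w.re / 2, by have := hw.2; omega⟩
  have h2 : (z * w).re = 2 * (2 * k * l + k + l + z.im * w.im) + 1 := by
    rw [Zsqrtd.re_mul, hk, hl]
    ring
  rw [h2]
  omega

theorem OT.star {z : ℤ√2} (hz : OT z) : OT (star z) := by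
  refine ⟨hz.1.star, ?_⟩
  rw [Zsqrtd.re_star]
  exact hz.2

/-- Proof: `freq_prim_mul` in `P/Freq.lean` and the inverse `un (-n)`. -/
theorem Prim_un {z : ℤ√2} (n : ℤ) : Prim (un n * z) ↔ Prim z := by
  constructor
  · intro h
    rw [← ua_neg n z]
    exact freq_prim_mul (un_spec (-n)).2.1 h
  · intro h
    exact freq_prim_mul (un_spec n).2.1 h

/-- Proof: `un n` is a unit with inverse `un (-n)`. -/
theorem dvd_un (n : ℤ) (x z : ℤ√2) : x ∣ un n * z ↔ x ∣ z := by
  constructor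
  · intro h
    rw [← ua_neg n z]
    exact h.mul_left _
  · intro h
    exact h.mul_left _

end

end Pool.Agent.Lib.MP_0b748d_nt.MR
end
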