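import Pool.Agent.Lib.MP_0b748d_nt.Basic

set_option autoImplicit false

/-!
# Elements of prescribed norm
-/

namespace Pool.Agent.Lib.MP_0b748d_nt.MR

open Zsqrtd

noncomputable section

private theorem ex_sign {e : ℕ} (he : 1 ≤ e) {r : ℤ} {z : ℤ√2} (hz : nm z = e)
    (hd : (e : ℤ) ∣ z.re - r * z.im) :
    ∃ z : ℤ√2, TP z ∧ nm z = e ∧ (e : ℤ) ∣ z.re - r * z.im := by
  have hpos : 0 < nm z := by rw [hz]; exact_mod_cast he
  rcases lt_trichotomy z.re 0 with h | h | h
  · refine ⟨⟨-z.re, -z.im⟩, (TP_iff _).2 ⟨?_, ?_⟩, ?_, ?_⟩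
    · change 0 < -z.re
      linarith
    · have : nm ⟨-z.re, -z.im⟩ = nm z := by simp [nm]
      rw [this]; exact hpos
    · have : nm ⟨-z.re, -z.im⟩ = nm z := by simp [nm]
      rw [this, hz]
    · have h1 := (dvd_neg (a := (e : ℤ))).2 hd
      have h2 : (⟨-z.re, -z.im⟩ : ℤ√2).re - r * (⟨-z.re, -z.im⟩ : ℤ√2).im =
          -(z.re - r * z.im) := by
        change -z.re - r * -z.im = _
        ring
      rw [h2]; exact h1
  · exfalso
    rw [nm, h] at hpos
    have := sq_nonneg z.im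
    linarith
  · exact ⟨z, (TP_iff _).2 ⟨h, hpos⟩, hz, hd⟩

/-- existence of elements of given norm.

Proof. Elementary. Descent on `e`: replace `r` by its residue with `|r| ≤ e/2` (`r ≡ r mod e`
changes neither hypothesis nor conclusion). `e = 1`: `z = 1`. If `e ≥ 2`: `r² - 2 = e e'`. If
`r² ≥ 2` then `e' ≥ 0`, and `e' > 0` (2 is not a square), `e' = (r²-2)/e < e/4·... < e`;
by induction there is `z'` totally positive with `nm z' = e'` and `e' ∣ re z' - r im z'`
(apply it with the same `r`; then also `-r` by conjugation). Put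
`z = (r + √2) * star z' / e'`-type quotient: precisely, since `e' ∣ re z' - r im z'`, the element
`(r + √2) * star z'` is divisible by `e'` (its coordinates are `r re z' - 2 im z'` and
`re z' - r im z'`; `r re z' - 2 im z' ≡ r (re z' - r im z') + (r² - 2) im z' ≡ 0 mod e'`), and
`z = (r + √2) star z'/e'` has norm `(r² - 2) e'/e'² = e`; `r + √2` is totally positive if `r ≥ 2`;
if `r ≤ -2` use `-(r + √2)` i.e. `(-r - √2)`. The congruence
`e ∣ re z - r im z`: `re z - r im z = ((r re z' - 2 im z') - r (re z' - r im z'))/e'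
= (r² - 2) im z'/e' = e im z'`. (Sign change in the case `r < 0`.) If `r² < 2` (`r ∈ {0, ±1}`):
`e ∣ 2` or `e ∣ 1`: `e = 2`, `r = 0`: `z = ⟨2, 1⟩` (norm 2, `2 ∣ 2 - 0`).
(`exists_elt` in `P/PrimeElt.lean` is the special case of primes, by another method.) -/
theorem exists_norm (e : ℕ) (he : 1 ≤ e) (r : ℤ) (hr : (e : ℤ) ∣ r ^ 2 - 2) :
    ∃ z : ℤ√2, TP z ∧ nm z = e ∧ (e : ℤ) ∣ z.re - r * z.im := by
  induction e using Nat.strong_induction_on generalizing r with
  | _ e ih =>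
  have he0 : (0 : ℤ) < e := by exact_mod_cast he
  -- reduce to `0 ≤ r < e`
  obtain ⟨r', q, hr0, hre, hq⟩ : ∃ r' q : ℤ, 0 ≤ r' ∧ r' < e ∧ r = r' + e * q :=
    ⟨r % e, r / e, Int.emod_nonneg _ he0.ne', Int.emod_lt_of_pos _ he0,
      (Int.emod_add_mul_ediv r e).symm⟩
  have hr' : (e : ℤ) ∣ r' ^ 2 - 2 := by
    have h1 : r' ^ 2 - 2 = (r ^ 2 - 2) - e * (q * (2 * r' + e * q)) := by rw [hq]; ring
    rw [h1]
    exact dvd_sub hr (dvd_mul_right _ _)
  suffices h : ∃ z : ℤ√2, nm z = e ∧ (e : ℤ) ∣ z.re - r' * z.im by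
    obtain ⟨z, hz, hd⟩ := h
    refine ex_sign he hz (r := r) ?_
    have h1 : z.re - r * z.im = (z.re - r' * z.im) - e * (q * z.im) := by rw [hq]; ring
    rw [h1]
    exact dvd_sub hd (dvd_mul_right _ _)
  obtain ⟨e', he'⟩ := hr'
  rcases lt_or_ge r' 2 with hlt | hge
  · have hcases : r' = 0 ∨ r' = 1 := by omega
    rcases hcases with h0 | h1
    · subst h0
      have h2 : (e : ℤ) ∣ 2 := ⟨-e', by linarith⟩
      have h3 : e ∣ 2 := by exact_mod_cast h2
      have h4 : e ≤ 2 := Nat.le_of_dvd two_pos h3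
      have h5 : e = 1 ∨ e = 2 := by omega
      rcases h5 with h5 | h5
      · exact ⟨1, by rw [h5]; simp [nm], by rw [h5]; exact one_dvd _⟩
      · exact ⟨⟨2, 1⟩, by rw [h5]; simp [nm], by rw [h5]; simp⟩
    · subst h1
      have h2 : (e : ℤ) ∣ 1 := ⟨-e', by linarith⟩
      have h3 : e ∣ 1 := by exact_mod_cast h2
      have h5 : e = 1 := Nat.dvd_one.1 h3
      exact ⟨1, by rw [h5]; simp [nm], by rw [h5]; exact one_dvd _⟩
  · have h1 : 0 < (e : ℤ) * e' := by rw [← he']; nlinarith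
    have h2 : 0 < e' := (pos_iff_pos_of_mul_pos h1).1 he0
    have h3 : e' < e := by
      by_contra h
      push Not at h
      have h4 : (e : ℤ) * e ≤ e * e' := mul_le_mul_of_nonneg_left h he0.le
      nlinarith
    lift e' to ℕ using h2.le
    obtain ⟨w, hw, hwn, t, ht⟩ := ih e' (by exact_mod_cast h3) (by exact_mod_cast h2) r'
      ⟨e, by rw [he']; ring⟩
    have hre' : w.re = e' * t + r' * w.im := by linarith
    have key : e' * t ^ 2 + 2 * t * r' * w.im + e * w.im ^ 2 = 1 := by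
      have h5 : (e' : ℤ) * (e' * t ^ 2 + 2 * t * r' * w.im + e * w.im ^ 2) = e' * 1 := by
        rw [nm, hre'] at hwn
        linear_combination hwn - w.im ^ 2 * he'
      exact mul_left_cancel₀ h2.ne' h5
    refine ⟨⟨r' * t + e * w.im, t⟩, ?_, ?_⟩
    · rw [nm]
      linear_combination (e : ℤ) * key + t ^ 2 * he'
    · refine ⟨w.im, ?_⟩
      change r' * t + e * w.im - r' * t = _
      ring

end

end Pool.Agent.Lib.MP_0b748d_nt.MR
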