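import Mathlib
import Pool.Agent.Lib.MP_0b748d_nt.MR.ElDvdA
import Pool.Agent.Lib.MP_0b748d_nt.MR.ExNorm

section

set_option autoImplicit false

/-!
# The finite sets of elements modulo units
-/

namespace Pool.Agent.Lib.MP_0b748d_nt.MR

open Zsqrtd

noncomputable section

private lemma st_un_neg (n : ℤ) (z : ℤ√2) : un n * (un (-n) * z) = z := by
  rw [← mul_assoc, ← un_add, add_neg_cancel, un_zero, one_mul]

/-- change of fundamental domain: sums of invariant functions.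

Proof. `z ↦ rp z` is a bijection from `S` to `Vs a b` (inverse: `z ↦ un m * z` with
`m = ⌈c - al z⌉`), and `φ (rp z) = φ z` (`Inv.rp`). -/
theorem sum_domain {M : Type*} [AddCommMonoid M] (φ : ℤ√2 → M) (hφ : Inv φ) (a b c : ℝ)
    (S : Finset (ℤ√2)) (hS : ∀ z, z ∈ S ↔ OT z ∧ a ≤ nm z ∧ (nm z : ℝ) < b ∧ c ≤ al z ∧
      al z < c + 1) : ∑ z ∈ S, φ z = ∑ z ∈ Vs a b, φ z := by
  refine Finset.sum_nbij' rp (fun z => un ⌈c - al z⌉ * z) ?_ ?_ ?_ ?_ ?_
  · intro z hz
    rw [hS] at hz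
    exact rp_mem_Vs hz.1 hz.2.1 hz.2.2.1
  · intro z hz
    rw [mem_Vs] at hz
    rw [hS, OT_un, nm_un, al_un hz.1.1]
    refine ⟨hz.1, hz.2.1, hz.2.2.1, ?_, ?_⟩
    · have := Int.le_ceil (c - al z)
      linarith
    · have := Int.ceil_lt_add_one (c - al z)
      linarith
  · intro z hz
    rw [hS] at hz
    have h1 : al (rp z) = al z + ((-⌊al z⌋ : ℤ) : ℝ) := al_un hz.1.1 _
    have h2 : ⌈c - al (rp z)⌉ = ⌊al z⌋ := by
      rw [Int.ceil_eq_iff, h1]
      push_cast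
      constructor <;> linarith [hz.2.2.2.1, hz.2.2.2.2]
    rw [h2]
    exact st_un_neg _ z
  · intro z hz
    rw [mem_Vs] at hz
    rw [rp_un hz.1.1, rp_eq hz.2.2.2.1 hz.2.2.2.2]
  · intro z hz
    rw [hS] at hz
    exact (hφ.rp hz.1.1).symm

theorem Vs_split {M : Type*} [AddCommMonoid M] (φ : ℤ√2 → M) {a b c : ℝ} (h1 : a ≤ b)
    (h2 : b ≤ c) : ∑ z ∈ Vs a c, φ z = ∑ z ∈ Vs a b, φ z + ∑ z ∈ Vs b c, φ z := by
  classical
  rw [← Finset.sum_union]
  · congr 1
    ext z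
    rw [Finset.mem_union, mem_Vs, mem_Vs, mem_Vs]
    constructor
    · rintro ⟨g1, g2, g3, g4⟩
      rcases lt_or_ge (nm z : ℝ) b with h | h
      · exact Or.inl ⟨g1, g2, h, g4⟩
      · exact Or.inr ⟨g1, h, g3, g4⟩
    · rintro (⟨g1, g2, g3, g4⟩ | ⟨g1, g2, g3, g4⟩)
      · exact ⟨g1, g2, g3.trans_le h2, g4⟩
      · exact ⟨g1, h1.trans g2, g3, g4⟩
  · rw [Finset.disjoint_left]
    intro z hz hz'
    rw [mem_Vs] at hz hz'
    linarith [hz.2.2.1, hz'.2.1]

theorem Us_split {M : Type*} [AddCommMonoid M] (φ : ℤ√2 → M) {a b c : ℝ} (h1 : a ≤ b)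
    (h2 : b ≤ c) : ∑ z ∈ Us a c, φ z = ∑ z ∈ Us a b, φ z + ∑ z ∈ Us b c, φ z := by
  classical
  rw [← Finset.sum_union]
  · congr 1
    ext z
    rw [Finset.mem_union, mem_Us, mem_Us, mem_Us]
    constructor
    · rintro ⟨g1, g2, g3⟩
      rcases lt_or_ge (nm z : ℝ) b with h | h
      · exact Or.inl ⟨g1, g2, h⟩
      · exact Or.inr ⟨g1, h, g3⟩
    · rintro (⟨g1, g2, g3⟩ | ⟨g1, g2, g3⟩)
      · exact ⟨g1, g2, g3.trans_le h2⟩
      · exact ⟨g1, h1.trans g2, g3⟩
  · rw [Finset.disjoint_left]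
    intro z hz hz'
    rw [mem_Us] at hz hz'
    linarith [hz.2.2, hz'.2.1]

end

end Pool.Agent.Lib.MP_0b748d_nt.MR
end

section

set_option autoImplicit false

/-!
# Divisibility by the prime elements
-/

namespace Pool.Agent.Lib.MP_0b748d_nt.MR

open Zsqrtd

noncomputable section

/-- An element is primitive iff no rational prime divides it. -/
theorem prim_iff_prime (z : ℤ√2) :
    Prim z ↔ ∀ q : ℕ, q.Prime → ¬ ((q : ℕ) : ℤ√2) ∣ z := by
  rw [Prim, Int.isCoprime_iff_gcd_eq_one]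
  constructor
  · intro h q hq hd
    rw [nat_dvd] at hd
    have h1 : (q : ℤ) ∣ ((Int.gcd z.re z.im : ℕ) : ℤ) := Int.dvd_coe_gcd hd.1 hd.2
    rw [h] at h1
    exact hq.one_lt.ne' (Nat.dvd_one.mp (by exact_mod_cast h1))
  · intro h
    by_contra hne
    obtain ⟨q, hq, hd⟩ := Nat.exists_prime_and_dvd hne
    have h1 : (q : ℤ) ∣ ((Int.gcd z.re z.im : ℕ) : ℤ) := by exact_mod_cast hd
    exact h q hq ((nat_dvd q z).mpr ⟨h1.trans (Int.gcd_dvd_left _ _),
      h1.trans (Int.gcd_dvd_right _ _)⟩)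

/-- primitivity of a product with a prime element.

Proof. An element is not primitive iff some rational prime `q` divides it.
`→`: if `q ∣ m` then `q ∣ π m`; if `star π ∣ m` (`π = el p s`) then `p = π star π ∣ π m`.
`←`: suppose `q ∣ π m`, `m` primitive, `star π ∤ m`. If `q = p`: `star π ∣ p ∣ π m`, so
`star π ∣ m` by `el_coprime`, contradiction. If `q ≠ p`: multiply by `star π`:
`q ∣ p m`, so `q ∣ m` as `gcd(p, q) = 1`, contradiction. (`TP`/oddness of `m` is not needed, but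
`m ≠ 0` for primitivity is automatic.) -/
theorem prim_el_mul {p : ℕ} (hp : Sp p) (s : Bool) (m : ℤ√2) :
    Prim (el p s * m) ↔ Prim m ∧ ¬ el p (!s) ∣ m := by
  rw [prim_iff_prime, prim_iff_prime]
  constructor
  · intro h
    refine ⟨fun q hq hd => h q hq (hd.mul_left _), ?_⟩
    rintro ⟨x, rfl⟩
    refine h p hp.1 ⟨x, ?_⟩
    rw [← mul_assoc, el_mul hp s]
  · rintro ⟨h1, h2⟩ q hq hd
    by_cases hqp : q = p
    · subst hqp
      have h3 : el q (!s) ∣ el q s * m := by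
        refine Dvd.dvd.trans ⟨el q s, ?_⟩ hd
        rw [mul_comm, el_mul hp s]
      have hne : (q, !s) ≠ (q, s) := by
        intro h
        have := congrArg Prod.snd h
        cases s <;> simp at this
      exact h2 ((el_coprime hp hp hne m).mp h3)
    · have h3 : ((q : ℕ) : ℤ√2) ∣ ((p : ℕ) : ℤ√2) * m := by
        rw [← el_mul hp s, mul_comm (el p s), mul_assoc]
        exact hd.mul_left _
      rw [nat_dvd] at h3
      have h4 : ((p : ℕ) : ℤ√2) * m = ⟨p * m.re, p * m.im⟩ := by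
        ext <;> simp
      rw [h4] at h3
      have hqi : Prime (q : ℤ) := Nat.prime_iff_prime_int.mp hq
      have hqp' : ¬ (q : ℤ) ∣ (p : ℤ) := by
        intro h
        exact hqp ((Nat.prime_dvd_prime_iff_eq hq hp.1).mp (by exact_mod_cast h))
      refine h1 q hq ((nat_dvd q m).mpr ⟨?_, ?_⟩)
      · exact (hqi.dvd_or_dvd h3.1).resolve_left hqp'
      · exact (hqi.dvd_or_dvd h3.2).resolve_left hqp'

/-- Proof: a rational integer dividing both coordinates of `y` divides those of `x * y`; write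
`IsCoprime` via `Int.isCoprime_iff_gcd_eq_one`. -/
theorem prim_right {x y : ℤ√2} (h : Prim (x * y)) : Prim y := by
  rw [prim_iff_prime] at h ⊢
  exact fun q hq hd => h q hq (hd.mul_left _)

/-- Proof: `s1 (x*y) = s1 x * s1 y`; `re (x y) = re x re y + 2 (..)` is odd only if `re y` is. -/
theorem OT_of_mul {x y : ℤ√2} (hx : OT x) (h : OT (x * y)) : OT y := by
  obtain ⟨⟨h1, h2⟩, h3⟩ := h
  rw [s1_mul] at h1
  rw [s2_mul] at h2
  refine ⟨⟨(pos_iff_pos_of_mul_pos h1).mp hx.1.1, (pos_iff_pos_of_mul_pos h2).mp hx.1.2⟩, ?_⟩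
  rcases Int.even_or_odd y.re with ⟨k, hk⟩ | ⟨k, hk⟩
  · exfalso
    have h4 : (x * y).re = 2 * (x.re * k + x.im * y.im) := by
      rw [Zsqrtd.re_mul, hk]
      ring
    rw [h4] at h3
    omega
  · omega

/-- a primitive element is not divisible by both prime elements above `p` -/
theorem prim_not_both {p : ℕ} (hp : Sp p) {w : ℤ√2} (hw : Prim w) (s : Bool) (h : el p s ∣ w) :
    ¬ el p (!s) ∣ w := by
  intro h'
  have h1 : el p true ∣ w ∧ el p false ∣ w := by
    cases s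
    · exact ⟨h', h⟩
    · exact ⟨h, h'⟩
  exact (prim_iff_prime w).mp hw p hp.1 ((el_both hp w).mp h1)

/-- for a primitive element the odd prime factors of the norm are split.

Proof. `p ∣ re² - 2 im²` and `p ∤ im` (otherwise `p ∣ re`, not primitive), so
`(re/im)² ≡ 2 mod p` and `ZMod.exists_sq_eq_two_iff`. -/
theorem Sp_of_dvd {w : ℤ√2} (hw : Prim w) {p : ℕ} (hp : p.Prime) (h2 : p ≠ 2)
    (h : (p : ℤ) ∣ nm w) : Sp p := by
  have hpp : Fact p.Prime := ⟨hp⟩
  have hpi : Prime (p : ℤ) := Nat.prime_iff_prime_int.mp hp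
  have him : ¬ (p : ℤ) ∣ w.im := by
    intro h1
    have h3 : (p : ℤ) ∣ w.re ^ 2 := by
      have h4 : w.re ^ 2 = nm w + w.im * (2 * w.im) := by simp only [nm]; ring
      rw [h4]
      exact dvd_add h (h1.mul_right _)
    exact (prim_iff_prime w).mp hw p hp ((nat_dvd p w).mpr ⟨hpi.dvd_of_dvd_pow h3, h1⟩)
  have h3 : (w.im : ZMod p) ≠ 0 := fun h4 => him ((ZMod.intCast_zmod_eq_zero_iff_dvd _ _).mp h4)
  have h4 : ((nm w : ℤ) : ZMod p) = 0 := (ZMod.intCast_zmod_eq_zero_iff_dvd _ _).mpr h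
  have h5 : IsSquare (2 : ZMod p) := by
    refine ⟨(w.re : ZMod p) / w.im, ?_⟩
    simp only [nm] at h4
    push_cast at h4
    field_simp
    linear_combination -h4
  exact ⟨hp, (ZMod.exists_sq_eq_two_iff h2).mp h5⟩

end

end Pool.Agent.Lib.MP_0b748d_nt.MR
end

section

set_option autoImplicit false

/-!
# Sums of the number of roots of `r² = 2`
-/

namespace Pool.Agent.Lib.MP_0b748d_nt.MR

open Zsqrtd

noncomputable section

private lemma ra_exists (d : ℕ) (hd : 1 ≤ d) (r : ℤ) (hr : (d : ℤ) ∣ r ^ 2 - 2) :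
    ∃ z : ℤ√2, TP z ∧ nm z = d ∧ (d : ℤ) ∣ z.re - r * z.im ∧ 0 ≤ z.im ∧ 3 * z.im < 2 * z.re := by
  obtain ⟨z, hz, hn, hdz⟩ := exists_norm d hd r hr
  set u := un (-⌊al z⌋) with hu
  have hT : TP (u * z) := (TP_un _).2 hz
  have hal : al (u * z) = al z - ⌊al z⌋ := by
    rw [hu, al_un hz]
    push_cast
    ring
  have hran := (al_range hT).1 ⟨by rw [hal]; linarith [Int.floor_le (al z)],
    by rw [hal]; linarith [Int.lt_floor_add_one (al z)]⟩
  refine ⟨u * z, hT, by rw [hu, nm_un, hn], ?_, hran.1, hran.2⟩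
  have e : (u * z).re - r * (u * z).im =
      (u.re - r * u.im) * (z.re - r * z.im) - (r ^ 2 - 2) * (u.im * z.im) := by
    simp only [Zsqrtd.re_mul, Zsqrtd.im_mul]
    ring
  rw [e]
  exact dvd_sub (hdz.mul_left _) (hr.mul_right _)

private lemma ra_cop {d : ℕ} (hd : 1 ≤ d) {r : ℤ} (hr : (d : ℤ) ∣ r ^ 2 - 2) {z : ℤ√2}
    (hn : nm z = d) (h1 : (d : ℤ) ∣ z.re - r * z.im) : IsCoprime (d : ℤ) z.im := by
  rw [Int.isCoprime_iff_gcd_eq_one]
  by_contra hne
  obtain ⟨p, hp, hpg⟩ := Nat.exists_prime_and_dvd hne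
  have hpd : (p : ℤ) ∣ (d : ℤ) := (Int.natCast_dvd_natCast.2 hpg).trans (Int.gcd_dvd_left ..)
  have hpi : (p : ℤ) ∣ z.im := (Int.natCast_dvd_natCast.2 hpg).trans (Int.gcd_dvd_right ..)
  have hpr : (p : ℤ) ∣ z.re := by
    have h2 : (p : ℤ) ∣ z.re - r * z.im := hpd.trans h1
    have h3 := dvd_add h2 (hpi.mul_left r)
    simpa using h3
  obtain ⟨x, hx⟩ := hpr
  obtain ⟨y, hy⟩ := hpi
  have hp0 : (0 : ℤ) < p := by exact_mod_cast hp.pos
  have hm : (d : ℤ) = p * (p * (x ^ 2 - 2 * y ^ 2)) := by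
    rw [← hn, nm, hx, hy]
    ring
  set m := x ^ 2 - 2 * y ^ 2 with hmdef
  have hd0 : (0 : ℤ) < d := by exact_mod_cast hd
  have hm0 : 0 < m := by
    by_contra hcon
    push Not at hcon
    have h5 : (d : ℤ) ≤ 0 := by
      rw [hm]
      have h6 : (p : ℤ) * m ≤ 0 := mul_nonpos_of_nonneg_of_nonpos hp0.le hcon
      exact mul_nonpos_of_nonneg_of_nonpos hp0.le h6
    omega
  have h4 : (p : ℤ) * m ∣ x - r * y := by
    have h5 : (p : ℤ) * (p * m) ∣ p * (x - r * y) := by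
      rw [← hm]
      have e : (p : ℤ) * (x - r * y) = z.re - r * z.im := by rw [hx, hy]; ring
      rw [e]
      exact h1
    exact Int.dvd_of_mul_dvd_mul_left hp0.ne' h5
  have h6 : (p : ℤ) * m ∣ r ^ 2 - 2 := by
    refine dvd_trans ?_ hr
    rw [hm]
    exact Dvd.intro_left _ rfl
  have h7 : (p : ℤ) * m ∣ m := by
    have e : (x - r * y) * (x + r * y) + (r ^ 2 - 2) * y ^ 2 = m := by rw [hmdef]; ring
    have h10 : (p : ℤ) * m ∣ (x - r * y) * (x + r * y) + (r ^ 2 - 2) * y ^ 2 :=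
      dvd_add (h4.mul_right _) (h6.mul_right _)
    rwa [e] at h10
  have h8 : (p : ℤ) * m ≤ m := Int.le_of_dvd hm0 h7
  have h9 : (2 : ℤ) ≤ p := by exact_mod_cast hp.two_le
  nlinarith

private lemma ra_inj {d : ℕ} (hd : 1 ≤ d) {r r' : ℕ} (hrd : r < d) (hrd' : r' < d)
    (hr : (d : ℤ) ∣ (r : ℤ) ^ 2 - 2) {z : ℤ√2}
    (hn : nm z = d) (h1 : (d : ℤ) ∣ z.re - r * z.im) (h2 : (d : ℤ) ∣ z.re - r' * z.im) :
    r = r' := by
  have hc := ra_cop hd hr hn h1
  have h3 : (d : ℤ) ∣ ((r : ℤ) - r') * z.im := by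
    have e : ((r : ℤ) - r') * z.im = (z.re - r' * z.im) - (z.re - r * z.im) := by ring
    rw [e]
    exact dvd_sub h2 h1
  have h4 : (d : ℤ) ∣ (r : ℤ) - r' := hc.dvd_of_dvd_mul_right h3
  have hz : (r : ℤ) - r' = 0 := by
    apply Int.eq_zero_of_abs_lt_dvd h4
    rw [abs_lt]
    constructor <;> omega
  omega

open Classical in
private def raz (d r : ℕ) : ℤ√2 :=
  if h : 1 ≤ d ∧ (d : ℤ) ∣ (r : ℤ) ^ 2 - 2 then (ra_exists d h.1 r h.2).choose else 0

private lemma raz_spec {d r : ℕ} (hd : 1 ≤ d) (hr : (d : ℤ) ∣ (r : ℤ) ^ 2 - 2) :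
    TP (raz d r) ∧ nm (raz d r) = d ∧ (d : ℤ) ∣ (raz d r).re - r * (raz d r).im ∧
      0 ≤ (raz d r).im ∧ 3 * (raz d r).im < 2 * (raz d r).re := by
  unfold raz
  rw [dif_pos ⟨hd, hr⟩]
  exact (ra_exists d hd r hr).choose_spec

/-- Proof. For `1 ≤ d ≤ Y` and a root `r`, `0 ≤ r < d`, `d ∣ r² - 2`, let `z` be as in
`exists_norm` (`TP z`, `nm z = d`, `d ∣ re z - r im z`) and `z' = u z` with a totally positive unit
`u` such that `0 ≤ al z' < 1` (`u = un (-⌊al z⌋)`); `nm z' = d` and still `d ∣ re z' - r im z'`: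
`re z' - r im z' ≡ (re u - r im u)(re z - r im z) mod d` because `r² ≡ 2`. The map `(d, r) ↦ z'` is
injective: `d = nm z'`, and if `d ∣ re z' - r im z'`, `d ∣ re z' - r' im z'` then
`d ∣ (r - r') im z'`, so it suffices that `gcd(d, im z') = 1`. Suppose a prime `p` divides `d` and
`im z'`. Then `p ∣ re z'`; write `z' = p z''`, `d = p² m`, `m = nm z'' > 0`. From
`p² m ∣ p (re z'' - r im z'')` we get `p m ∣ re z'' - r im z''`, so
`m = nm z'' = re z''² - 2 im z''² ≡ (r² - 2) im z''² ≡ 0 mod p m`, contradiction.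
The image lies in the set of `z'` with `0 ≤ im z'`, `3 im z' < 2 re z'` (`al_range`), `nm z' ≤ Y`,
where `re z' ≤ 3 √Y`: at most `(3 √Y + 1)² ≤ 16 Y` elements. (`al_range` is in
`MR/Sets.lean`; import it, or repeat its short proof.) -/
theorem rho_sum : ∃ C : ℝ, 1 ≤ C ∧ ∀ Y : ℕ, 1 ≤ Y → ∑ d ∈ Finset.Icc 1 Y, (rho d : ℝ) ≤ C * Y := by
  classical
  refine ⟨16, by norm_num, fun Y hY => ?_⟩
  set M : ℕ := ⌊3 * √(Y : ℝ)⌋₊ with hM
  have hcard : ∑ d ∈ Finset.Icc 1 Y, rho d ≤ (M + 1) * (M + 1) := by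
    have e1 : ∑ d ∈ Finset.Icc 1 Y, rho d = ((Finset.Icc 1 Y).sigma (fun d =>
        (Finset.range d).filter (fun r : ℕ => (d : ℤ) ∣ (r : ℤ) ^ 2 - 2))).card := by
      rw [Finset.card_sigma]
      rfl
    rw [e1]
    have e2 : (M + 1) * (M + 1) = (Finset.range (M + 1) ×ˢ Finset.range (M + 1)).card := by
      rw [Finset.card_product, Finset.card_range]
    rw [e2]
    refine Finset.card_le_card_of_injOn
      (fun x => ((raz x.1 x.2).re.toNat, (raz x.1 x.2).im.toNat)) ?_ ?_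
    · rintro ⟨d, r⟩ hx
      rw [Finset.mem_coe, Finset.mem_sigma, Finset.mem_Icc, Finset.mem_filter,
        Finset.mem_range] at hx
      obtain ⟨⟨hd1, hdY⟩, hrd, hr⟩ := hx
      simp only at hd1 hdY hrd hr
      obtain ⟨hT, hn, hdv, hi, hre⟩ := raz_spec hd1 hr
      set z := raz d r with hz
      have hsq : z.re ^ 2 ≤ 9 * Y := by
        have h1 : z.re ^ 2 ≤ 9 * nm z := by
          simp only [nm]
          nlinarith
        rw [hn] at h1
        have h2 : (d : ℤ) ≤ Y := by exact_mod_cast hdY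
        linarith
      have hre0 : 0 < z.re := hT.re_pos
      have hreM : z.re.toNat ≤ M := by
        rw [hM]
        apply Nat.le_floor
        have h3 : ((z.re.toNat : ℕ) : ℝ) = (z.re : ℝ) := by
          have : ((z.re.toNat : ℕ) : ℤ) = z.re := Int.toNat_of_nonneg hre0.le
          exact_mod_cast this
        rw [h3]
        have h4 : (z.re : ℝ) ^ 2 ≤ (3 * √(Y : ℝ)) ^ 2 := by
          rw [mul_pow, Real.sq_sqrt (by positivity)]
          have : (z.re : ℝ) ^ 2 ≤ 9 * Y := by exact_mod_cast hsq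
          linarith
        exact (abs_le_of_sq_le_sq' h4 (by positivity)).2
      rw [Finset.mem_coe, Finset.mem_product, Finset.mem_range, Finset.mem_range]
      constructor
      · change z.re.toNat < M + 1
        omega
      · change z.im.toNat < M + 1
        have : z.im.toNat ≤ z.re.toNat := by omega
        omega
    · rintro ⟨d, r⟩ hx ⟨d', r'⟩ hx' he
      rw [Finset.mem_coe, Finset.mem_sigma, Finset.mem_Icc, Finset.mem_filter,
        Finset.mem_range] at hx hx'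
      obtain ⟨⟨hd1, hdY⟩, hrd, hr⟩ := hx
      obtain ⟨⟨hd1', hdY'⟩, hrd', hr'⟩ := hx'
      simp only at hd1 hdY hrd hr hd1' hdY' hrd' hr'
      obtain ⟨hT, hn, hdv, hi, hre⟩ := raz_spec hd1 hr
      obtain ⟨hT', hn', hdv', hi', hre'⟩ := raz_spec hd1' hr'
      simp only [Prod.mk.injEq] at he
      obtain ⟨he1, he2⟩ := he
      have hre0 : 0 < (raz d r).re := hT.re_pos
      have hre0' : 0 < (raz d' r').re := hT'.re_pos
      have hzz : raz d r = raz d' r' := by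
        ext
        · omega
        · omega
      have hdd : d = d' := by
        have : (d : ℤ) = d' := by rw [← hn, ← hn', hzz]
        exact_mod_cast this
      subst hdd
      have hrr : r = r' := ra_inj hd1 hrd hrd' hr hn hdv (by rw [hzz]; exact hdv')
      subst hrr
      rfl
  have h1 : ((∑ d ∈ Finset.Icc 1 Y, rho d : ℕ) : ℝ) ≤ ((M + 1) * (M + 1) : ℕ) := by
    exact_mod_cast hcard
  push_cast at h1
  have hs : 1 ≤ √(Y : ℝ) := by
    rw [Real.one_le_sqrt]
    exact_mod_cast hY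
  have hMle : (M : ℝ) ≤ 3 * √(Y : ℝ) := Nat.floor_le (by positivity)
  have hM0 : (0 : ℝ) ≤ M := by positivity
  have hsq : √(Y : ℝ) * √(Y : ℝ) = Y := Real.mul_self_sqrt (by positivity)
  calc ∑ d ∈ Finset.Icc 1 Y, (rho d : ℝ) ≤ ((M : ℝ) + 1) * (M + 1) := h1
    _ ≤ (4 * √(Y : ℝ)) * (4 * √(Y : ℝ)) := by
        apply mul_le_mul <;> linarith
    _ = 16 * (√(Y : ℝ) * √(Y : ℝ)) := by ring
    _ = 16 * Y := by rw [hsq]

end

end Pool.Agent.Lib.MP_0b748d_nt.MR
end

section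

section

set_option autoImplicit false

/-!
# Lattice points in sectors
-/

namespace Pool.Agent.Lib.MP_0b748d_nt.MR

open Zsqrtd

noncomputable section

/-- the area integral.

Proof. An antiderivative of `√(Y + 2 t²)` is
`t √(Y + 2t²)/2 + (Y/(2√2)) log(√2 t + √(Y + 2 t²))`. At `T = √(Y/(r²-2))` one has
`Y + 2T² = r² T²`, so `√(..) = r T`, the value at `T` minus the value at `0` is
`r T²/2 + (Y/(2√2)) (log((√2 + r) T) - log √Y)`, and subtracting `r T²/2` leaves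
`(Y/(2√2)) log((r + √2)/√(r² - 2)) = (Y/(4√2)) log((r+√2)/(r-√2))`. -/
theorem area_int (Y r : ℝ) (hY : 0 < Y) (hr : √2 < r) :
    ∫ t in (0 : ℝ)..√(Y / (r ^ 2 - 2)), (√(Y + 2 * t ^ 2) - r * t) =
      Y / (4 * √2) * Real.log ((r + √2) / (r - √2)) := by
  have h2 : (0 : ℝ) < √2 := by positivity
  have hsq2 : √2 ^ 2 = 2 := Real.sq_sqrt (by norm_num)
  have hr0 : 0 < r := h2.trans hr
  have hr2 : 0 < r ^ 2 - 2 := by nlinarith
  have hpos : ∀ t : ℝ, 0 < Y + 2 * t ^ 2 := fun t => by positivity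
  set F : ℝ → ℝ := fun t => t * √(Y + 2 * t ^ 2) / 2 +
    Y / (2 * √2) * Real.log (√2 * t + √(Y + 2 * t ^ 2)) - r * t ^ 2 / 2 with hF
  have hlogpos : ∀ t : ℝ, 0 < √2 * t + √(Y + 2 * t ^ 2) := by
    intro t
    have h3 : |√2 * t| < √(Y + 2 * t ^ 2) := by
      rw [← Real.sqrt_sq_eq_abs]
      refine Real.sqrt_lt_sqrt (sq_nonneg _) ?_
      rw [mul_pow, hsq2]
      linarith
    have h4 := neg_abs_le (√2 * t)
    linarith
  have hder : ∀ t : ℝ, HasDerivAt F (√(Y + 2 * t ^ 2) - r * t) t := by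
    intro t
    have hs : 0 < √(Y + 2 * t ^ 2) := Real.sqrt_pos.2 (hpos t)
    have hss : √(Y + 2 * t ^ 2) ^ 2 = Y + 2 * t ^ 2 := Real.sq_sqrt (hpos t).le
    have d1 : HasDerivAt (fun t : ℝ => Y + 2 * t ^ 2) (4 * t) t := by
      have := ((hasDerivAt_pow 2 t).const_mul 2).const_add Y
      refine this.congr_deriv ?_
      push_cast
      ring
    have d2 : HasDerivAt (fun t : ℝ => √(Y + 2 * t ^ 2)) (4 * t / (2 * √(Y + 2 * t ^ 2))) t :=
      d1.sqrt (hpos t).ne'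
    have d3 := ((hasDerivAt_id t).mul d2).div_const 2
    have d4' : HasDerivAt (fun t : ℝ => √2 * t + √(Y + 2 * t ^ 2))
        (√2 + 4 * t / (2 * √(Y + 2 * t ^ 2))) t := by
      have := ((hasDerivAt_id t).const_mul √2).add d2
      refine this.congr_deriv ?_
      ring
    have d4 := (d4'.log (hlogpos t).ne').const_mul (Y / (2 * √2))
    have d5 := ((hasDerivAt_pow 2 t).const_mul r).div_const 2
    have d6 := (d3.add d4).sub d5
    refine (d6.congr_deriv ?_)
    have hl := hlogpos t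
    set s := √(Y + 2 * t ^ 2) with hsd
    have e1 : Y = s ^ 2 - 2 * t ^ 2 := by rw [hss]; ring
    have hl' : √2 * t + s ≠ 0 := hl.ne'
    have e0 : (id : ℝ → ℝ) t = t := rfl
    rw [e0, e1]
    have hl2 : t * √2 + s ≠ 0 := by rwa [mul_comm]
    have e5 : (√2 + 4 * t / (2 * s)) / (√2 * t + s) = √2 / s := by
      rw [div_eq_div_iff hl' hs.ne']
      field_simp
      linear_combination (-(2 * t)) * hsq2
    rw [e5]
    field_simp
    ring
  have hint := intervalIntegral.integral_eq_sub_of_hasDerivAt (a := 0)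
    (b := √(Y / (r ^ 2 - 2))) (fun t _ => hder t)
    (Continuous.intervalIntegrable (by fun_prop) _ _)
  rw [hint]
  set T := √(Y / (r ^ 2 - 2)) with hT
  have hT0 : 0 < T := Real.sqrt_pos.2 (div_pos hY hr2)
  have hTT : T ^ 2 = Y / (r ^ 2 - 2) := Real.sq_sqrt (div_pos hY hr2).le
  have hYT : Y = T ^ 2 * (r ^ 2 - 2) := by rw [hTT]; field_simp
  have e1 : √(Y + 2 * T ^ 2) = r * T := by
    rw [show Y + 2 * T ^ 2 = (r * T) ^ 2 by rw [hYT]; ring, Real.sqrt_sq (by positivity)]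
  have hrm : 0 < r - √2 := sub_pos.2 hr
  have hrp : 0 < r + √2 := by positivity
  have e2 : Real.log (√2 * T + r * T) = Real.log (r + √2) + Real.log T := by
    rw [show √2 * T + r * T = (r + √2) * T by ring, Real.log_mul hrp.ne' hT0.ne']
  have e3 : Real.log T = (1 / 2) * (Real.log Y - (Real.log (r - √2) + Real.log (r + √2))) := by
    rw [hT, Real.log_sqrt (div_pos hY hr2).le, Real.log_div hY.ne' hr2.ne',
      show r ^ 2 - 2 = (r - √2) * (r + √2) by linear_combination hsq2,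
      Real.log_mul hrm.ne' hrp.ne']
    ring
  have e4 : Real.log (√Y) = (1 / 2) * Real.log Y := by
    rw [Real.log_sqrt hY.le]
    ring
  rw [hF]
  simp only
  rw [e1, e2, e3, Real.log_div hrp.ne' hrm.ne']
  simp only [mul_zero, ne_eq, OfNat.ofNat_ne_zero, not_false_eq_true, zero_pow, add_zero,
    zero_mul, zero_div, zero_add, sub_zero]
  rw [e4]
  field_simp
  ring

end

end Pool.Agent.Lib.MP_0b748d_nt.MR
end

section

set_option autoImplicit false

/-!
# Lattice points in sectors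
-/

namespace Pool.Agent.Lib.MP_0b748d_nt.MR

open Zsqrtd

noncomputable section

/-- odd numbers in an interval -/
theorem slice_odd_count {u v : ℝ} (hu : 0 ≤ u) (huv : u < v) (F : Finset ℕ)
    (hF : ∀ x : ℕ, x ∈ F ↔ x % 2 = 1 ∧ u < x ∧ (x : ℝ) < v) :
    |(F.card : ℝ) - (v - u) / 2| ≤ 1 := by
  classical
  set α : ℝ := (u - 1) / 2 with hα
  set β : ℝ := (v - 1) / 2 with hβ
  have himg : F = (Finset.Ioo ⌊α⌋ ⌈β⌉).image (fun k : ℤ => (2 * k + 1).toNat) := by
    ext x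
    rw [hF, Finset.mem_image]
    constructor
    · rintro ⟨h1, h2, h3⟩
      refine ⟨(x : ℤ) / 2, ?_, by omega⟩
      have h4 : (x : ℤ) = 2 * ((x : ℤ) / 2) + 1 := by omega
      have h5 : (x : ℝ) = 2 * (((x : ℤ) / 2 : ℤ) : ℝ) + 1 := by exact_mod_cast h4
      rw [Finset.mem_Ioo, Int.floor_lt, Int.lt_ceil]
      constructor
      · rw [hα]; linarith
      · rw [hβ]; linarith only [h3, h5]
    · rintro ⟨k, hk, rfl⟩
      rw [Finset.mem_Ioo, Int.floor_lt, Int.lt_ceil] at hk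
      obtain ⟨h1, h2⟩ := hk
      have hk0 : 0 ≤ k := by
        have h3 : (-1 : ℝ) < k := by rw [hα] at h1; linarith
        have h4 : (-1 : ℤ) < k := by exact_mod_cast h3
        omega
      have h5 : (((2 * k + 1).toNat : ℕ) : ℝ) = 2 * (k : ℝ) + 1 := by
        have h6 : (((2 * k + 1).toNat : ℕ) : ℤ) = 2 * k + 1 := Int.toNat_of_nonneg (by omega)
        exact_mod_cast h6
      refine ⟨by omega, ?_, ?_⟩
      · rw [h5]; rw [hα] at h1; linarith
      · rw [h5]; rw [hβ] at h2; linarith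
  have hfl := Int.floor_le α
  have hfl' := Int.lt_floor_add_one α
  have hcl := Int.le_ceil β
  have hcl' := Int.ceil_lt_add_one β
  have hαβ : α < β := by rw [hα, hβ]; linarith
  have hα1 : (-1 : ℝ) / 2 ≤ α := by rw [hα]; linarith
  have hcard : F.card = (Finset.Ioo ⌊α⌋ ⌈β⌉).card := by
    rw [himg]
    apply Finset.card_image_of_injOn
    intro k hk l hl hkl
    rw [Finset.mem_coe, Finset.mem_Ioo, Int.floor_lt, Int.lt_ceil] at hk hl
    have hk0 : 0 ≤ k := by
      have h3 : (-1 : ℝ) < k := by linarith [hk.1]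
      have h4 : (-1 : ℤ) < k := by exact_mod_cast h3
      omega
    have hl0 : 0 ≤ l := by
      have h3 : (-1 : ℝ) < l := by linarith [hl.1]
      have h4 : (-1 : ℤ) < l := by exact_mod_cast h3
      omega
    simp only at hkl
    omega
  rw [hcard, Int.card_Ioo]
  have h1 : ⌊α⌋ + 1 ≤ ⌈β⌉ := by
    have h2 : (⌊α⌋ : ℝ) < ⌈β⌉ := by linarith
    have h3 : ⌊α⌋ < ⌈β⌉ := by exact_mod_cast h2
    omega
  have h2 : (((⌈β⌉ - ⌊α⌋ - 1).toNat : ℕ) : ℝ) = (⌈β⌉ : ℝ) - ⌊α⌋ - 1 := by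
    have h3 : (((⌈β⌉ - ⌊α⌋ - 1).toNat : ℕ) : ℤ) = ⌈β⌉ - ⌊α⌋ - 1 :=
      Int.toNat_of_nonneg (by omega)
    exact_mod_cast h3
  rw [h2, abs_le]
  have hα' : α = (u - 1) / 2 := hα
  have hβ' : β = (v - 1) / 2 := hβ
  constructor <;> linarith

/-- the height function decreases -/
theorem slice_anti {Y r : ℝ} (hY : 1 ≤ Y) (hr : 3 / 2 ≤ r) :
    AntitoneOn (fun t : ℝ => √(Y + 2 * t ^ 2) - r * t) (Set.Ici 0) := by
  intro s hs t ht hst
  have hs0 : 0 ≤ s := hs
  have ht0 : 0 ≤ t := ht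
  simp only
  have h1 : √(Y + 2 * t ^ 2) ≤ √(Y + 2 * s ^ 2) + r * (t - s) := by
    rw [Real.sqrt_le_left (by
      have := Real.sqrt_nonneg (Y + 2 * s ^ 2)
      have h3 : 0 ≤ r * (t - s) := mul_nonneg (by linarith) (by linarith)
      linarith)]
    have h2 : √(Y + 2 * s ^ 2) ^ 2 = Y + 2 * s ^ 2 := Real.sq_sqrt (by positivity)
    have h3 : 7 / 5 * s ≤ √(Y + 2 * s ^ 2) := by
      apply Real.le_sqrt_of_sq_le
      linarith only [hY, sq_nonneg s]
    have h4 : 0 ≤ t - s := by linarith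
    have h5 : 0 ≤ r * (t - s) := mul_nonneg (by linarith) h4
    have h6 : 7 / 5 * s * (r * (t - s)) ≤ √(Y + 2 * s ^ 2) * (r * (t - s)) :=
      mul_le_mul_of_nonneg_right h3 h5
    have h7 : 9 / 4 * (t - s) ^ 2 ≤ (r * (t - s)) ^ 2 := by
      rw [mul_pow]
      apply mul_le_mul_of_nonneg_right _ (sq_nonneg _)
      nlinarith only [hr]
    have h8 : 3 / 2 * (s * (t - s)) ≤ r * (s * (t - s)) :=
      mul_le_mul_of_nonneg_right hr (mul_nonneg hs0 h4)
    linarith only [h2, h6, h7, h8, mul_nonneg hs0 h4, sq_nonneg (t - s)]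
  linarith

/-- counting in slices: the number of `(x, b)`, `x` odd, `b ≥ 1`, `r b < x`, `x² < Y + 2 b²`.

Proof. For given `b ≥ 1` there is such an `x` only if `r b < √(Y + 2b²)`, i.e. `b < T`,
`T = √(Y/(r²-2)) ≤ 2 √Y`. The number of odd `x` in the interval `(r b, √(Y + 2b²))` of length
`G b`, `G t = √(Y + 2t²) - r t`, differs from `G b/2` by at most `1`. `G` is decreasing on
`[0, T]` (derivative `2t/√(Y+2t²) - r ≤ √2 - r < 0`), `G 0 = √Y`, `G T = 0`, so
`|∑_{1 ≤ b < T} G b - ∫_0^T G| ≤ G 0 = √Y`. Total error `≤ T + √Y/2 + 1 ≤ 20 √Y`. -/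
theorem slice_count (Y r : ℝ) (hY : 1 ≤ Y) (hr : 3 / 2 ≤ r) (S : Finset (ℕ × ℕ))
    (hS : ∀ x : ℕ × ℕ, x ∈ S ↔ x.1 % 2 = 1 ∧ 1 ≤ x.2 ∧ r * (x.2 : ℝ) < x.1 ∧
      (x.1 : ℝ) ^ 2 < Y + 2 * (x.2 : ℝ) ^ 2) :
    |(S.card : ℝ) - (1 / 2) * ∫ t in (0 : ℝ)..√(Y / (r ^ 2 - 2)), (√(Y + 2 * t ^ 2) - r * t)| ≤
      20 * √Y := by
  classical
  set G : ℝ → ℝ := fun t => √(Y + 2 * t ^ 2) - r * t with hG
  have hr2 : 1 / 4 ≤ r ^ 2 - 2 := by nlinarith
  have hr2' : 0 < r ^ 2 - 2 := by linarith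
  set T : ℝ := √(Y / (r ^ 2 - 2)) with hT
  have hT0 : 0 < T := Real.sqrt_pos.2 (by positivity)
  have hTsq : T ^ 2 * (r ^ 2 - 2) = Y := by
    rw [hT, Real.sq_sqrt (by positivity)]
    field_simp
  have hsY : 1 ≤ √Y := by rw [Real.one_le_sqrt]; exact hY
  have hT2 : T ≤ 2 * √Y := by
    rw [hT, Real.sqrt_le_left (by positivity), mul_pow, Real.sq_sqrt (by positivity),
      div_le_iff₀ hr2']
    nlinarith only [hY, hr2]
  have hanti := slice_anti hY hr
  have hG0 : G 0 = √Y := by simp [hG]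
  have hGT : G T = 0 := by
    have h1 : Y + 2 * T ^ 2 = (r * T) ^ 2 := by linarith only [hTsq]
    simp only [hG]
    rw [h1, Real.sqrt_sq (by positivity)]
    ring
  have hGcont : Continuous G := by
    simp only [hG]
    fun_prop
  set M : ℕ := ⌈T⌉₊ with hM
  have hM1 : 1 ≤ M := Nat.one_le_iff_ne_zero.2 (fun h => by
    have := Nat.ceil_eq_zero.1 h
    linarith)
  have hMT : T ≤ M := Nat.le_ceil T
  have hMT' : ((M - 1 : ℕ) : ℝ) < T := by
    have h1 : M - 1 < ⌈T⌉₊ := by omega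
    exact Nat.lt_ceil.1 h1
  have hM1' : ((M - 1 : ℕ) : ℝ) = (M : ℝ) - 1 := by push_cast [Nat.cast_sub hM1]; ring
  -- heights of the slices
  have hGpos : ∀ b : ℕ, b < M → 0 < G b := by
    intro b hb
    have hbT : (b : ℝ) < T := Nat.lt_ceil.1 hb
    have hb0 : (0 : ℝ) ≤ b := Nat.cast_nonneg b
    simp only [hG]
    rw [sub_pos]
    apply Real.lt_sqrt_of_sq_lt
    have h2 : (b : ℝ) ^ 2 < T ^ 2 := by nlinarith only [hbT]
    nlinarith only [hr2', hTsq, h2]
  -- the fibres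
  have hmaps : Set.MapsTo Prod.snd (S : Set (ℕ × ℕ)) (Finset.Ico 1 M : Finset ℕ) := by
    intro x hx
    obtain ⟨-, h1, h2, h3⟩ := (hS x).1 hx
    rw [Finset.mem_coe, Finset.mem_Ico]
    refine ⟨h1, ?_⟩
    rw [hM]
    apply Nat.lt_ceil.2
    by_contra hcon
    push Not at hcon
    have h4 : (r * (x.2 : ℝ)) ^ 2 < (x.1 : ℝ) ^ 2 := by
      apply pow_lt_pow_left₀ h2 _ two_ne_zero
      have : (0 : ℝ) ≤ x.2 := Nat.cast_nonneg _
      nlinarith only [hr]
    have h5 : T ^ 2 ≤ (x.2 : ℝ) ^ 2 := pow_le_pow_left₀ hT0.le hcon 2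
    nlinarith only [hr2', hTsq, h3, h4, h5]
  have hsum := Finset.card_eq_sum_card_fiberwise hmaps
  have hfib : ∀ b ∈ Finset.Ico 1 M,
      |((S.filter fun x => x.2 = b).card : ℝ) - G b / 2| ≤ 1 := by
    intro b hb
    rw [Finset.mem_Ico] at hb
    have hb0 : (0 : ℝ) ≤ b := Nat.cast_nonneg b
    have hcard : (S.filter fun x => x.2 = b).card = ((S.filter fun x => x.2 = b).image Prod.fst).card := by
      symm
      apply Finset.card_image_of_injOn
      intro x hx y hy hxy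
      rw [Finset.mem_coe, Finset.mem_filter] at hx hy
      exact Prod.ext hxy (hx.2.trans hy.2.symm)
    rw [hcard]
    have h1 := slice_odd_count (u := r * b) (v := √(Y + 2 * (b : ℝ) ^ 2)) (by positivity)
      (by have := hGpos b hb.2; simp only [hG] at this; linarith only [this])
      ((S.filter fun x => x.2 = b).image Prod.fst) (by
        intro x
        rw [Finset.mem_image]
        constructor
        · rintro ⟨⟨x', y'⟩, hx, rfl⟩
          rw [Finset.mem_filter, hS] at hx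
          obtain ⟨⟨a1, a2, a3, a4⟩, a5⟩ := hx
          simp only at a1 a2 a3 a4 a5
          subst a5
          exact ⟨a1, a3, Real.lt_sqrt_of_sq_lt a4⟩
        · rintro ⟨a1, a2, a3⟩
          refine ⟨(x, b), ?_, rfl⟩
          rw [Finset.mem_filter, hS]
          refine ⟨⟨a1, hb.1, a2, ?_⟩, rfl⟩
          exact (Real.lt_sqrt (Nat.cast_nonneg x)).1 a3)
    exact h1
  have hSsum : |(S.card : ℝ) - (1 / 2) * ∑ b ∈ Finset.Ico 1 M, G b| ≤ M - 1 := by
    have e : (S.card : ℝ) - (1 / 2) * ∑ b ∈ Finset.Ico 1 M, G b =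
        ∑ b ∈ Finset.Ico 1 M, (((S.filter fun x => x.2 = b).card : ℝ) - G b / 2) := by
      have e1 : ∑ b ∈ Finset.Ico 1 M, (((S.filter fun x => x.2 = b).card : ℝ) - G b / 2) =
          ∑ b ∈ Finset.Ico 1 M, ((S.filter fun x => x.2 = b).card : ℝ) -
            ∑ b ∈ Finset.Ico 1 M, G b / 2 := Finset.sum_sub_distrib _ _
      have e2 : (S.card : ℝ) = ∑ b ∈ Finset.Ico 1 M, ((S.filter fun x => x.2 = b).card : ℝ) := by
        rw [hsum]
        exact Nat.cast_sum _ _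
      have e3 : ∑ b ∈ Finset.Ico 1 M, G b / 2 = (1 / 2) * ∑ b ∈ Finset.Ico 1 M, G b := by
        rw [Finset.mul_sum]
        apply Finset.sum_congr rfl
        intro b _
        ring
      rw [e1, ← e2, e3]
    rw [e]
    refine (Finset.abs_sum_le_sum_abs _ _).trans ((Finset.sum_le_sum hfib).trans ?_)
    rw [Finset.sum_const, Nat.card_Ico, nsmul_eq_mul, mul_one, Nat.cast_sub hM1]
    push_cast
    exact le_rfl
  -- comparison with the integral
  have hint : ∀ a b : ℝ, IntervalIntegrable G MeasureTheory.volume a b :=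
    fun a b => hGcont.intervalIntegrable a b
  have hsplit : ∫ t in (0 : ℝ)..T, G t = (∫ t in (0 : ℝ)..((M - 1 : ℕ) : ℝ), G t) +
      ∫ t in ((M - 1 : ℕ) : ℝ)..T, G t :=
    (intervalIntegral.integral_add_adjacent_intervals (hint _ _) (hint _ _)).symm
  have hlast0 : 0 ≤ ∫ t in ((M - 1 : ℕ) : ℝ)..T, G t := by
    apply intervalIntegral.integral_nonneg hMT'.le
    intro t ht
    have h1 : 0 ≤ t := le_trans (Nat.cast_nonneg _) ht.1
    have := hanti (Set.mem_Ici.2 h1) (Set.mem_Ici.2 hT0.le) ht.2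
    simp only at this
    rw [← hGT]
    exact this
  have hlast1 : ∫ t in ((M - 1 : ℕ) : ℝ)..T, G t ≤ G ((M - 1 : ℕ) : ℝ) := by
    have h1 : ∫ t in ((M - 1 : ℕ) : ℝ)..T, G t ≤
        ∫ t in ((M - 1 : ℕ) : ℝ)..T, G ((M - 1 : ℕ) : ℝ) := by
      apply intervalIntegral.integral_mono_on hMT'.le (hint _ _) (by simp)
      intro t ht
      exact hanti (Set.mem_Ici.2 (Nat.cast_nonneg _))
        (Set.mem_Ici.2 (le_trans (Nat.cast_nonneg _) ht.1)) ht.1
    rw [intervalIntegral.integral_const, smul_eq_mul] at h1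
    refine h1.trans ?_
    have h2 : T - ((M - 1 : ℕ) : ℝ) ≤ 1 := by rw [hM1']; linarith
    have h3 : 0 ≤ G ((M - 1 : ℕ) : ℝ) := (hGpos _ (by omega)).le
    nlinarith only [h2, h3]
  have hanti' : AntitoneOn G (Set.Icc (0 : ℝ) (0 + ((M - 1 : ℕ) : ℝ))) :=
    hanti.mono (fun t ht => ht.1)
  have hup := hanti'.sum_le_integral
  have hlo := hanti'.integral_le_sum
  simp only [zero_add] at hup hlo
  -- reindex
  have hre : ∑ b ∈ Finset.Ico 1 M, G b = ∑ i ∈ Finset.range (M - 1), G ((i + 1 : ℕ) : ℝ) := by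
    rw [Finset.sum_Ico_eq_sum_range]
    apply Finset.sum_congr rfl
    intro i _
    rw [add_comm 1 i]
  have hre2 : ∑ i ∈ Finset.range (M - 1), G ((i + 1 : ℕ) : ℝ) =
      ∑ i ∈ Finset.range (M - 1), G (i : ℝ) + G ((M - 1 : ℕ) : ℝ) - G 0 := by
    have h1 := Finset.sum_range_succ (fun i : ℕ => G (i : ℝ)) (M - 1)
    have h2 := Finset.sum_range_succ' (fun i : ℕ => G (i : ℝ)) (M - 1)
    rw [h1] at h2
    simp only [Nat.cast_zero] at h2
    linarith only [h2]
  have hGM : 0 ≤ G ((M - 1 : ℕ) : ℝ) := (hGpos _ (by omega)).le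
  have hfin : |∑ b ∈ Finset.Ico 1 M, G b - ∫ t in (0 : ℝ)..T, G t| ≤ √Y := by
    rw [abs_le]
    constructor
    · rw [hre, hre2, hsplit]
      linarith only [hG0, hlast1, hlo]
    · rw [hre, hsplit]
      have : √Y ≥ 0 := by linarith only [hsY]
      linarith only [hlast0, hup, this]
  have hMle : (M : ℝ) - 1 ≤ 2 * √Y := by rw [← hM1']; linarith only [hT2, hMT']
  have e2 : (S.card : ℝ) - (1 / 2) * ∫ t in (0 : ℝ)..T, G t =
      ((S.card : ℝ) - (1 / 2) * ∑ b ∈ Finset.Ico 1 M, G b) +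
        (1 / 2) * (∑ b ∈ Finset.Ico 1 M, G b - ∫ t in (0 : ℝ)..T, G t) := by ring
  calc |(S.card : ℝ) - (1 / 2) * ∫ t in (0 : ℝ)..T, G t|
      ≤ |(S.card : ℝ) - (1 / 2) * ∑ b ∈ Finset.Ico 1 M, G b| +
        |(1 / 2) * (∑ b ∈ Finset.Ico 1 M, G b - ∫ t in (0 : ℝ)..T, G t)| := by
        rw [e2]; exact abs_add_le _ _
    _ ≤ (M - 1) + 1 / 2 * √Y := by
        rw [abs_mul, abs_of_pos (by norm_num : (0 : ℝ) < 1 / 2)]
        exact add_le_add hSsum (mul_le_mul_of_nonneg_left hfin (by norm_num))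
    _ ≤ 20 * √Y := by linarith only [hM1', hMle]

end

end Pool.Agent.Lib.MP_0b748d_nt.MR
end

section

set_option autoImplicit false

/-!
# Lattice points in sectors
-/

namespace Pool.Agent.Lib.MP_0b748d_nt.MR

open Zsqrtd

noncomputable section

/-- the slope attached to `q = exp (2 θ)` -/
private def se_r (q : ℝ) : ℝ := √2 * (q + 1) / (q - 1)

private lemma se_lt {z : ℤ√2} (hz : TP z) {α : ℝ} (q : ℝ) (hq : q = Real.exp (2 * (α * th uu)))
    (hq1 : 1 < q) : al z < α ↔ se_r q * z.im < z.re := by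
  have hu := th_uu_pos
  have h1 : al z < α ↔ Real.log (s1 z / s2 z) < 2 * (α * th uu) := by
    rw [al, div_lt_iff₀ hu, Real.log_div hz.1.ne' hz.2.ne', th]
    constructor <;> intro h <;> linarith
  rw [h1, Real.log_lt_iff_lt_exp (div_pos hz.1 hz.2), ← hq, div_lt_iff₀ hz.2, se_r,
    div_mul_eq_mul_div, div_lt_iff₀ (by linarith)]
  simp only [s1, s2]
  constructor <;> intro h <;> nlinarith

private lemma se_exp_uu : Real.exp (2 * th uu) * (3 - 2 * √2) = 3 + 2 * √2 := by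
  have h1 : 2 * th uu = Real.log (s1 uu) - Real.log (s2 uu) := by rw [th]; ring
  rw [h1, Real.exp_sub, Real.exp_log TP_uu.1, Real.exp_log TP_uu.2]
  have h2 : s2 uu = 3 - 2 * √2 := by simp [s2, uu]
  have h3 : s1 uu = 3 + 2 * √2 := by simp [s1, uu]
  have h4 : (0:ℝ) < 3 - 2 * √2 := h2 ▸ TP_uu.2
  rw [h2, h3, div_mul_cancel₀ _ h4.ne']

private lemma se_r_ge {α : ℝ} (h1 : α ≤ 1) (q : ℝ) (hq : q = Real.exp (2 * (α * th uu)))
    (hq1 : 1 < q) : 3 / 2 ≤ se_r q := by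
  have hu := th_uu_pos
  have h2 : q ≤ Real.exp (2 * th uu) := by
    rw [hq, Real.exp_le_exp]
    nlinarith
  have h3 := se_exp_uu
  have h4 : (0:ℝ) < 3 - 2 * √2 := by linarith [sqrt2_lt]
  have h5 : q * (3 - 2 * √2) ≤ 3 + 2 * √2 := by
    rw [← h3]
    exact mul_le_mul_of_nonneg_right h2 h4.le
  rw [se_r, le_div_iff₀ (by linarith)]
  linarith

private lemma se_ratio (q : ℝ) (hq1 : 1 < q) : √2 < se_r q ∧ (se_r q + √2) / (se_r q - √2) = q := by
  have hs := sqrt2_pos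
  have h0 : (0:ℝ) < q - 1 := by linarith
  have h1 : se_r q - √2 = 2 * √2 / (q - 1) := by
    rw [se_r]; field_simp; ring
  have h2 : se_r q + √2 = 2 * √2 * q / (q - 1) := by
    rw [se_r]; field_simp; ring
  have h3 : 0 < 2 * √2 / (q - 1) := by positivity
  refine ⟨by linarith, ?_⟩
  rw [h1, h2]
  field_simp

open Classical in
private lemma se_zero_im (b α : ℝ) (hb : 1 ≤ b) :
    ((((Vs 0 b).filter (fun z => al z < α)).filter (fun z => z.im = 0)).card : ℝ) ≤ 2 * √b := by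
  have hb0 : (0:ℝ) ≤ b := by linarith
  have h1 : (((Vs 0 b).filter (fun z => al z < α)).filter (fun z => z.im = 0)).card ≤
      (Finset.range (⌈√b⌉₊)).card := by
    refine Finset.card_le_card_of_injOn (fun z => z.re.toNat) ?_ ?_
    · intro z hz
      obtain ⟨h2, h3⟩ := Finset.mem_filter.1 (Finset.mem_coe.1 hz)
      obtain ⟨⟨h4, _⟩, _, h5, _⟩ := mem_Vs.1 (Finset.mem_filter.1 h2).1
      have h6 : (0:ℤ) < z.re := ((TP_iff z).1 h4).1
      have h7 : ((z.re : ℤ) : ℝ) ^ 2 < b := by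
        have : nm z = z.re ^ 2 := by rw [nm, h3]; ring
        rw [this] at h5
        push_cast at h5
        exact h5
      have h8 : ((z.re.toNat : ℕ) : ℝ) = z.re := by
        have : ((z.re.toNat : ℕ) : ℤ) = z.re := Int.toNat_of_nonneg h6.le
        exact_mod_cast this
      have h9 : ((z.re : ℤ) : ℝ) < √b := Real.lt_sqrt_of_sq_lt h7
      rw [Finset.mem_coe, Finset.mem_range]
      have h10 : ((z.re.toNat : ℕ) : ℝ) < ⌈√b⌉₊ := by
        rw [h8]
        exact h9.trans_le (Nat.le_ceil _)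
      exact_mod_cast h10
    · intro z hz w hw hzw
      obtain ⟨h2, h3⟩ := Finset.mem_filter.1 (Finset.mem_coe.1 hz)
      obtain ⟨h2', h3'⟩ := Finset.mem_filter.1 (Finset.mem_coe.1 hw)
      have h6 := ((TP_iff z).1 (mem_Vs.1 (Finset.mem_filter.1 h2).1).1.1).1
      have h6' := ((TP_iff w).1 (mem_Vs.1 (Finset.mem_filter.1 h2').1).1.1).1
      have h7 : z.re.toNat = w.re.toNat := hzw
      have h8 : z.re = w.re := by omega
      exact Zsqrtd.ext h8 (h3.trans h3'.symm)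
  rw [Finset.card_range] at h1
  have h2 : (1:ℝ) ≤ √b := by
    rw [Real.one_le_sqrt]; exact hb
  have h3 := Nat.ceil_lt_add_one (Real.sqrt_nonneg b)
  calc _ ≤ ((⌈√b⌉₊ : ℕ) : ℝ) := by exact_mod_cast h1
    _ ≤ 2 * √b := by linarith

open Classical in
private lemma se_pos_im (b α : ℝ) (hb : 1 ≤ b) (h0 : 0 < α) (h1 : α ≤ 1) :
    |((((Vs 0 b).filter (fun z => al z < α)).filter (fun z => ¬ z.im = 0)).card : ℝ) -
      th uu / (4 * √2) * b * α| ≤ 20 * √b := by
  have hu := th_uu_pos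
  set q : ℝ := Real.exp (2 * (α * th uu)) with hq
  have hq1 : 1 < q := by
    rw [hq, Real.one_lt_exp_iff]
    positivity
  have hr := se_r_ge h1 q hq hq1
  obtain ⟨hr2, hratio⟩ := se_ratio q hq1
  set F1 := ((Vs 0 b).filter (fun z => al z < α)).filter (fun z => ¬ z.im = 0) with hF1
  have hmem : ∀ z ∈ F1, TP z ∧ z.re % 2 = 1 ∧ (nm z : ℝ) < b ∧ 0 < z.re ∧ 1 ≤ z.im ∧
      se_r q * z.im < z.re := by
    intro z hz
    obtain ⟨h2, h3⟩ := Finset.mem_filter.1 hz
    obtain ⟨h4, h5⟩ := Finset.mem_filter.1 h2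
    obtain ⟨⟨h6, h7⟩, _, h8, h9, h10⟩ := mem_Vs.1 h4
    have h11 := ((al_range h6).1 ⟨h9, h10⟩).1
    exact ⟨h6, h7, h8, ((TP_iff z).1 h6).1, by omega, (se_lt h6 q hq hq1).1 h5⟩
  set S : Finset (ℕ × ℕ) := F1.image (fun z => (z.re.toNat, z.im.toNat)) with hS
  have hcard : S.card = F1.card := by
    refine Finset.card_image_of_injOn ?_
    intro z hz w hw hzw
    obtain ⟨_, _, _, h2, h3, _⟩ := hmem z (Finset.mem_coe.1 hz)
    obtain ⟨_, _, _, h2', h3', _⟩ := hmem w (Finset.mem_coe.1 hw)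
    have h4 : z.re.toNat = w.re.toNat := congrArg Prod.fst hzw
    have h5 : z.im.toNat = w.im.toNat := congrArg Prod.snd hzw
    exact Zsqrtd.ext (by omega) (by omega)
  have hSm : ∀ x : ℕ × ℕ, x ∈ S ↔ x.1 % 2 = 1 ∧ 1 ≤ x.2 ∧ se_r q * (x.2 : ℝ) < x.1 ∧
      (x.1 : ℝ) ^ 2 < b + 2 * (x.2 : ℝ) ^ 2 := by
    rintro ⟨x, m⟩
    constructor
    · intro hx
      obtain ⟨z, hz, hzx⟩ := Finset.mem_image.1 hx
      obtain ⟨h2, h3, h4, h5, h6, h7⟩ := hmem z hz
      have e1 : z.re.toNat = x := congrArg Prod.fst hzx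
      have e2 : z.im.toNat = m := congrArg Prod.snd hzx
      have e3 : z.re = (x : ℤ) := by omega
      have e4 : z.im = (m : ℤ) := by omega
      refine ⟨?_, ?_, ?_, ?_⟩
      · show x % 2 = 1
        omega
      · show 1 ≤ m
        omega
      · show se_r q * (m : ℝ) < (x : ℝ)
        rw [e3, e4] at h7
        exact_mod_cast h7
      · show (x : ℝ) ^ 2 < b + 2 * (m : ℝ) ^ 2
        rw [nm, e3, e4] at h4
        push_cast at h4
        linarith
    · rintro ⟨h2, h3, h4, h5⟩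
      have h2' : x % 2 = 1 := h2
      have h3' : 1 ≤ m := h3
      have h4' : se_r q * (m : ℝ) < (x : ℝ) := h4
      have h5' : (x : ℝ) ^ 2 < b + 2 * (m : ℝ) ^ 2 := h5
      have hm1 : (1:ℝ) ≤ m := by exact_mod_cast h3'
      have h6 : 3 / 2 * (m : ℝ) < x := lt_of_le_of_lt (by nlinarith) h4'
      have h6' : 3 * m < 2 * x := by
        have : (3:ℝ) * m < 2 * x := by linarith
        exact_mod_cast this
      have hnm : nm (⟨(x : ℤ), (m : ℤ)⟩ : ℤ√2) = (x : ℤ) ^ 2 - 2 * (m : ℤ) ^ 2 := rfl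
      have hpos : 0 < nm (⟨(x : ℤ), (m : ℤ)⟩ : ℤ√2) := by
        rw [hnm]
        have : (3:ℤ) * m < 2 * x := by exact_mod_cast h6'
        have hm : (1:ℤ) ≤ m := by exact_mod_cast h3'
        nlinarith
      have hTP : TP (⟨(x : ℤ), (m : ℤ)⟩ : ℤ√2) := (TP_iff _).2 ⟨by show (0:ℤ) < x; omega, hpos⟩
      refine Finset.mem_image.2 ⟨⟨(x : ℤ), (m : ℤ)⟩, ?_, ?_⟩
      · have hal := (al_range hTP).2 ⟨by show (0:ℤ) ≤ m; omega, by show 3 * (m : ℤ) < 2 * x; omega⟩
        refine Finset.mem_filter.2 ⟨Finset.mem_filter.2 ⟨mem_Vs.2 ⟨⟨hTP, by show (x : ℤ) % 2 = 1; omega⟩,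
          by exact_mod_cast hpos.le, ?_, hal⟩, ?_⟩, by show ¬ (m : ℤ) = 0; omega⟩
        · rw [hnm]
          push_cast
          linarith
        · refine (se_lt hTP q hq hq1).2 ?_
          show se_r q * ((m : ℤ) : ℝ) < ((x : ℤ) : ℝ)
          exact_mod_cast h4'
      · simp
  have h2 := slice_count b (se_r q) hb hr S hSm
  rw [area_int b (se_r q) (by linarith) hr2, hratio, hq, Real.log_exp, hcard] at h2
  have h3 : 1 / 2 * (b / (4 * √2) * (2 * (α * th uu))) = th uu / (4 * √2) * b * α := by ring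
  rwa [h3] at h2

open Classical in
private lemma se_base : ∃ C : ℝ, 0 < C ∧ ∀ b α : ℝ, 0 ≤ b → 0 ≤ α → α ≤ 1 →
    |(((Vs 0 b).filter (fun z => al z < α)).card : ℝ) - th uu / (4 * √2) * b * α| ≤ C * √b := by
  have hu := th_uu_pos
  have hs := sqrt2_pos
  have hκ : 0 < th uu / (4 * √2) := by positivity
  refine ⟨22 + th uu / (4 * √2), by positivity, fun b α hb h0 h1 => ?_⟩
  rcases le_or_gt b 1 with hb1 | hb1
  · rw [Vs_empty hb1, Finset.filter_empty, Finset.card_empty, Nat.cast_zero, zero_sub, abs_neg,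
      abs_of_nonneg (by positivity)]
    have h2 : b ≤ √b := by
      have h3 : √b ≤ 1 := Real.sqrt_le_one.2 hb1
      calc b = √b * √b := (Real.mul_self_sqrt hb).symm
        _ ≤ 1 * √b := mul_le_mul_of_nonneg_right h3 (Real.sqrt_nonneg _)
        _ = √b := one_mul _
    calc th uu / (4 * √2) * b * α ≤ th uu / (4 * √2) * b * 1 := by gcongr
      _ ≤ th uu / (4 * √2) * √b := by rw [mul_one]; gcongr
      _ ≤ (22 + th uu / (4 * √2)) * √b := by
          have := Real.sqrt_nonneg b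
          nlinarith
  rcases h0.eq_or_lt with h2 | h2
  · have h3 : (Vs 0 b).filter (fun z => al z < α) = ∅ := by
      refine Finset.filter_eq_empty_iff.2 fun z hz => ?_
      rw [← h2]
      exact not_lt.2 (mem_Vs.1 hz).2.2.2.1
    rw [h3, Finset.card_empty, ← h2, mul_zero, Nat.cast_zero, sub_zero, abs_zero]
    positivity
  have h3 := se_zero_im b α hb1.le
  have h4 := se_pos_im b α hb1.le h2 h1
  have h5 := Finset.card_filter_add_card_filter_not (s := (Vs 0 b).filter (fun z => al z < α))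
    (fun z => z.im = 0)
  have h6 : ((((Vs 0 b).filter (fun z => al z < α)).filter (fun z => z.im = 0)).card : ℝ) +
      ((((Vs 0 b).filter (fun z => al z < α)).filter (fun z => ¬ z.im = 0)).card : ℝ) =
      (((Vs 0 b).filter (fun z => al z < α)).card : ℝ) := by exact_mod_cast h5
  have h7 : (0:ℝ) ≤ ((((Vs 0 b).filter (fun z => al z < α)).filter (fun z => z.im = 0)).card : ℝ) :=
    Nat.cast_nonneg _
  have h8 := Real.sqrt_nonneg b
  have h9 : 0 ≤ th uu / (4 * √2) * √b := by positivity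
  rw [← h6]
  obtain ⟨h10, h11⟩ := abs_le.1 h4
  rw [abs_le]
  constructor <;> nlinarith

open Classical in
/-- equidistribution in sectors.

Proof. It is enough to treat `[0, b)` (subtract `a` from `b`; `√a ≤ √b`). `α = 0`: empty. Let
`0 < α ≤ 1`, `θ = α th uu`, `r = √2 cosh θ/sinh θ ≥ 3/2` (equality for `α = 1` as
`tanh(th uu) = 2√2/3`). For `z` totally positive with `im z ≥ 1`, `al z < α` iff
`th z < θ` iff `re z/im z > r`, because `(re + √2 im)/(re - √2 im) = exp(2 th z)`. Elements with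
`im = 0` are the odd `re < √b`: at most `√b + 1`. The others are counted by `slice_count` with
`Y = b` (if `b < 1` there is nothing: norms are `≥ 1`), giving
`(1/2) (b/(4√2)) log((r+√2)/(r-√2)) = (b/(8√2)) 2θ = (th uu/(4√2)) b α` up to `20 √b`. So
`κ = th uu/(4√2)`. -/
theorem sector_count : ∃ κ C : ℝ, 0 < κ ∧ 0 < C ∧ ∀ a b α : ℝ, 0 ≤ a → a ≤ b → 0 ≤ α → α ≤ 1 →
    |(((Vs a b).filter (fun z => al z < α)).card : ℝ) - κ * (b - a) * α| ≤ C * √b := by
  obtain ⟨C, hC, h⟩ := se_base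
  have hu := th_uu_pos
  have hs := sqrt2_pos
  refine ⟨th uu / (4 * √2), 2 * C, by positivity, by positivity, fun a b α ha hab h0 h1 => ?_⟩
  have hsplit := Vs_split (fun z => if al z < α then (1:ℝ) else 0) ha hab
  rw [Finset.sum_boole, Finset.sum_boole, Finset.sum_boole] at hsplit
  have ea := abs_le.1 (h a α ha h0 h1)
  have eb := abs_le.1 (h b α (ha.trans hab) h0 h1)
  have hab' : C * √a ≤ C * √b := mul_le_mul_of_nonneg_left (Real.sqrt_le_sqrt hab) hC.le
  have e : th uu / (4 * √2) * (b - a) * α =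
      th uu / (4 * √2) * b * α - th uu / (4 * √2) * a * α := by ring
  rw [e, abs_le]
  constructor <;> linarith [ea.1, ea.2, eb.1, eb.2]

/-- the density of odd elements modulo units -/
def kap : ℝ := sector_count.choose

theorem kap_pos : 0 < kap := by
  obtain ⟨C, h, _⟩ := sector_count.choose_spec
  exact h

open Classical in
private theorem se_sector : ∃ C : ℝ, 0 < C ∧ ∀ a b α : ℝ, 0 ≤ a → a ≤ b → 0 ≤ α → α ≤ 1 →
    |(((Vs a b).filter (fun z => al z < α)).card : ℝ) - kap * (b - a) * α| ≤ C * √b := by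
  obtain ⟨C, _, hC, h⟩ := sector_count.choose_spec
  exact ⟨C, hC, h⟩

/-- `sector_count` with `α = 1` -/
theorem V_count : ∃ C : ℝ, 0 < C ∧ ∀ a b : ℝ, 0 ≤ a → a ≤ b →
    |((Vs a b).card : ℝ) - kap * (b - a)| ≤ C * √b := by
  classical
  obtain ⟨C, hC, h⟩ := se_sector
  refine ⟨C, hC, fun a b ha hab => ?_⟩
  have h1 := h a b 1 ha hab zero_le_one le_rfl
  rw [Finset.filter_true_of_mem (fun z hz => (mem_Vs.1 hz).2.2.2.2), mul_one] at h1
  exact h1

open Classical in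
theorem V_sector : ∃ C : ℝ, 0 < C ∧ ∀ a b α : ℝ, 0 ≤ a → a ≤ b → 0 ≤ α → α ≤ 1 →
    |(((Vs a b).filter (fun z => al z < α)).card : ℝ) - kap * (b - a) * α| ≤ C * √b := by
  exact se_sector

/-- Proof. `Vs a b ⊆ Vs 0 b`; `V_count` gives `≤ kap b + C √b`; `√b ≤ b` for `b ≥ 1`, and
`Vs 0 b` is empty for `b < 1` (norms of odd totally positive elements are `≥ 1`). -/
theorem V_le : ∃ C : ℝ, 1 ≤ C ∧ ∀ a b : ℝ, 0 ≤ a → 0 ≤ b → ((Vs a b).card : ℝ) ≤ C * b := by
  obtain ⟨C, hC, h⟩ := V_count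
  have hk := kap_pos
  refine ⟨max 1 (kap + C), le_max_left _ _, fun a b ha hb => ?_⟩
  rcases le_or_gt b 1 with hb1 | hb1
  · rw [Vs_empty hb1, Finset.card_empty, Nat.cast_zero]
    exact mul_nonneg (zero_le_one.trans (le_max_left _ _)) hb
  · have h1 : ((Vs a b).card : ℝ) ≤ ((Vs 0 b).card : ℝ) := by
      exact_mod_cast Finset.card_le_card (Vs_mono ha le_rfl)
    have h2 := (abs_le.1 (h 0 b le_rfl hb)).2
    have h3 : √b ≤ b := by
      rw [Real.sqrt_le_left hb]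
      nlinarith
    have h4 : C * √b ≤ C * b := mul_le_mul_of_nonneg_left h3 hC.le
    have h5 : (kap + C) * b ≤ max 1 (kap + C) * b :=
      mul_le_mul_of_nonneg_right (le_max_right _ _) hb
    rw [sub_zero] at h2
    nlinarith

end

end Pool.Agent.Lib.MP_0b748d_nt.MR
end
end
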