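import Pool.Agent.Lib.MP_0b748d_nt.MR.UnitsA
import Pool.Agent.Lib.MP_0b748d_nt.MR.ExNorm

section

set_option autoImplicit false

/-!
# Totally positive units and representatives
-/

namespace Pool.Agent.Lib.MP_0b748d_nt.MR

open Zsqrtd

noncomputable section

theorem norm_xi (k : ℤ) (z : ℤ√2) : ‖xi k z‖ = 1 := norm_ee _

theorem xi_zero (z : ℤ√2) : xi 0 z = 1 := by
  unfold xi
  rw [Int.cast_zero, zero_mul, ee_zero]

theorem xi_mul (k : ℤ) {z w : ℤ√2} (hz : TP z) (hw : TP w) : xi k (z * w) = xi k z * xi k w := by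
  unfold xi
  rw [al_mul hz hw, mul_add, ee_add]

/-- `ee_add`, `ee_neg` -/
theorem xi_sub (k l : ℤ) (z : ℤ√2) : xi (k - l) z = xi k z * (starRingEnd ℂ) (xi l z) := by
  unfold xi
  rw [Int.cast_sub, sub_mul, sub_eq_add_neg, ee_add, ee_neg]

/-- `al_star`, `ee_neg` -/
theorem xi_star (k : ℤ) (z : ℤ√2) : xi k (star z) = (starRingEnd ℂ) (xi k z) := by
  unfold xi
  rw [al_star, mul_neg, ee_neg]

/-- `al_un`, `ee_add`, `ee_int` (`k * n` is an integer) -/
theorem xi_inv (k : ℤ) : Inv (xi k) := by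
  intro n z hz
  unfold xi
  rw [al_un hz, mul_add, ee_add, ← Int.cast_mul, ee_int, mul_one]

theorem F_inv (g : ℕ → ℤ) : Inv (F g) := by
  intro n z _
  unfold F
  rw [nm_un]

theorem Inv.rp {M : Type*} {φ : ℤ√2 → M} (h : Inv φ) {z : ℤ√2} (hz : TP z) :
    φ (rp z) = φ z := h _ _ hz

/-- Proof: `al (rp z) = al z - ⌊al z⌋ = Int.fract (al z)`. -/
theorem rp_spec {z : ℤ√2} (hz : OT z) :
    OT (rp z) ∧ nm (rp z) = nm z ∧ 0 ≤ al (rp z) ∧ al (rp z) < 1 := by
  have h1 : al (rp z) = Int.fract (al z) := by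
    unfold rp
    rw [al_un hz.1, Int.cast_neg, ← sub_eq_add_neg]
    rfl
  refine ⟨(OT_un _).2 hz, nm_un _ _, ?_, ?_⟩
  · rw [h1]
    exact Int.fract_nonneg _
  · rw [h1]
    exact Int.fract_lt_one _

theorem rp_prim {z : ℤ√2} : Prim (rp z) ↔ Prim z := Prim_un _

theorem rp_dvd (x z : ℤ√2) : x ∣ rp z ↔ x ∣ z := dvd_un _ _ _

theorem rp_eq {z : ℤ√2} (h0 : 0 ≤ al z) (h1 : al z < 1) : rp z = z := by
  have h2 : ⌊al z⌋ = 0 := Int.floor_eq_zero_iff.2 ⟨h0, h1⟩
  unfold rp
  rw [h2, neg_zero, un_zero, one_mul]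

theorem rp_un {z : ℤ√2} (hz : TP z) (n : ℤ) : rp (un n * z) = rp z := by
  unfold rp
  rw [al_un hz, Int.floor_add_intCast, ← mul_assoc, ← un_add]
  congr 2
  ring

/-- Proof: `un a * z = un b * w` with `a = -⌊al z⌋`, `b = -⌊al w⌋`; multiply by `un (-a)`. -/
theorem rp_inj {z w : ℤ√2} (hz : TP z) (hw : TP w) (h : rp z = rp w) : ∃ n, z = un n * w := by
  refine ⟨⌊al z⌋ + -⌊al w⌋, ?_⟩
  have h1 : un (-⌊al z⌋) * z = un (-⌊al w⌋) * w := h
  rw [un_add, mul_assoc, ← h1, ← mul_assoc, ← un_add, add_neg_cancel, un_zero, one_mul]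

theorem MF_xi {f : ℤ√2 → ℂ} (hf : MF f) (k : ℤ) : MF (fun z => f z * xi k z) := by
  refine ⟨fun z w hz hw => ?_, fun z hz => ?_, fun n z hz => ?_⟩
  · rw [hf.mul z w hz hw, xi_mul k hz.1 hw.1]
    ring
  · rw [_root_.norm_mul, norm_xi, mul_one]
    exact hf.le z hz
  · rw [hf.inv n z hz, xi_inv k n z hz]

/-- odd norm of an odd element -/
theorem nm_odd {z : ℤ√2} (h : z.re % 2 = 1) : nm z % 2 = 1 := by
  obtain ⟨t, ht⟩ : ∃ t, z.re = 2 * t + 1 := ⟨z.re / 2, by omega⟩
  have h1 : nm z = 2 * (2 * t ^ 2 + 2 * t - z.im ^ 2) + 1 := by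
    unfold nm
    rw [ht]
    ring
  rw [h1]
  omega

private theorem toNat_odd {z : ℤ√2} (hz : OT z) : (nm z).toNat % 2 = 1 := by
  have h1 := hz.1.nm_pos
  have h2 := nm_odd hz.2
  omega

theorem F_mul' {g : ℕ → ℤ} (hg : CO g) {z w : ℤ√2} (hz : OT z) (hw : OT w) :
    F g (z * w) = F g z * F g w := by
  unfold F
  rw [nm_mul, Int.toNat_mul hz.1.nm_pos.le hw.1.nm_pos.le]
  exact hg.mul _ _ (toNat_odd hz) (toNat_odd hw)

theorem F_val' {g : ℕ → ℤ} (hg : CO g) {z : ℤ√2} (hz : OT z) : F g z = 1 ∨ F g z = -1 :=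
  hg.val _ (toNat_odd hz)

/-- `fg g` is completely multiplicative, by `nm_mul` and `CO.mul` (the norms of odd elements are
odd and positive; `Int.toNat_mul`). -/
theorem MF_fg {g : ℕ → ℤ} (hg : CO g) : MF (fg g) := by
  refine ⟨fun z w hz hw => ?_, fun z hz => ?_, fun n z hz => ?_⟩
  · unfold fg
    rw [F_mul' hg hz hw, Int.cast_mul]
  · unfold fg
    rcases F_val' hg hz with h | h <;> rw [h] <;> simp
  · unfold fg
    rw [F_inv g n z hz]

end

end Pool.Agent.Lib.MP_0b748d_nt.MR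
end

section

set_option autoImplicit false

/-!
# Elements of prescribed norm
-/

namespace Pool.Agent.Lib.MP_0b748d_nt.MR

open Zsqrtd

noncomputable section

/-- Proof. `2` is a square modulo `p` (`ZMod.exists_sq_eq_two_iff`), so `exists_norm` gives an
element, so `Classical.epsilon_spec` applies to `pe p`; `re` is odd because the norm is odd. -/
theorem pe_spec {p : ℕ} (hp : Sp p) : OT (pe p) ∧ nm (pe p) = p := by
  have hpp : Fact p.Prime := ⟨hp.1⟩
  have h1 : IsSquare (2 : ZMod p) := by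
    rw [ZMod.exists_sq_eq_two_iff (by rintro rfl; have := hp.2; omega)]
    exact hp.2
  obtain ⟨r, hr⟩ := h1
  have h2 : (p : ℤ) ∣ (r.val : ℤ) ^ 2 - 2 := by
    rw [← ZMod.intCast_zmod_eq_zero_iff_dvd, Int.cast_sub, Int.cast_pow, Int.cast_natCast,
      ZMod.natCast_zmod_val, Int.cast_ofNat, hr]
    ring
  obtain ⟨z, hz1, hz2, -⟩ := exists_norm p hp.1.one_le _ h2
  have h3 : TP (pe p) ∧ nm (pe p) = (p : ℤ) :=
    Classical.epsilon_spec (p := fun z : ℤ√2 => TP z ∧ nm z = (p : ℤ)) ⟨z, hz1, hz2⟩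
  refine ⟨⟨h3.1, ?_⟩, h3.2⟩
  have h4 := h3.2
  simp only [nm] at h4
  have h5 : (p : ℤ) % 2 = 1 := by have := hp.2; omega
  rcases Int.even_or_odd (pe p).re with ⟨k, hk⟩ | ⟨k, hk⟩
  · exfalso
    rw [hk] at h4
    have h6 : (p : ℤ) = 2 * (2 * k ^ 2 - (pe p).im ^ 2) := by rw [← h4]; ring
    omega
  · omega

theorem el_spec {p : ℕ} (hp : Sp p) (s : Bool) : OT (el p s) ∧ nm (el p s) = p := by
  obtain ⟨h1, h2⟩ := pe_spec hp
  cases s
  · exact ⟨h1.star, (nm_star _).trans h2⟩
  · exact ⟨h1, h2⟩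

theorem el_star (p : ℕ) (s : Bool) : star (el p s) = el p (!s) := by
  cases s
  · exact star_star (pe p)
  · rfl

/-- Proof: `z * star z = nm z`. -/
theorem el_mul {p : ℕ} (hp : Sp p) (s : Bool) : el p s * el p (!s) = ((p : ℕ) : ℤ√2) := by
  rw [← el_star]
  have h := (el_spec hp s).2
  simp only [nm] at h
  ext
  · rw [Zsqrtd.re_mul, Zsqrtd.re_star, Zsqrtd.im_star, Zsqrtd.re_natCast]
    linarith
  · rw [Zsqrtd.im_mul, Zsqrtd.re_star, Zsqrtd.im_star, Zsqrtd.im_natCast]
    ring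

/-- a rational integer divides coordinatewise -/
theorem nat_dvd (c : ℕ) (z : ℤ√2) : ((c : ℕ) : ℤ√2) ∣ z ↔ (c : ℤ) ∣ z.re ∧ (c : ℤ) ∣ z.im := by
  have h := Zsqrtd.intCast_dvd (c : ℤ) z
  rwa [Int.cast_natCast] at h

end

end Pool.Agent.Lib.MP_0b748d_nt.MR
end

section

section

set_option autoImplicit false

/-!
# Chebyshev and Mertens type bounds for the primes `≡ 1 mod 8`
-/

namespace Pool.Agent.Lib.MP_0b748d_nt.MR

open Zsqrtd

noncomputable section

private theorem blockLow_sum (d : ℝ) (m M : ℕ) (h : m ≤ M) :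
    ∑ i ∈ Finset.Ico m M, primes8T d i =
      ∑ n ∈ Finset.Ico (2 ^ m) (2 ^ M), primes8W n / (n : ℝ) ^ (1 + d) := by
  induction M, h using Nat.le_induction with
  | base => simp
  | succ M hM ih =>
    rw [Finset.sum_Ico_succ_top hM, ih, primes8T, Finset.sum_Ico_consecutive]
    · exact Nat.pow_le_pow_right (by norm_num) hM
    · exact Nat.pow_le_pow_right (by norm_num) (Nat.le_succ M)

private theorem blockLow_half {d : ℝ} (hd : 0 < d) (hd1 : d ≤ 1) :
    d / 2 ≤ 1 - (1 / 2 : ℝ) ^ d := by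
  have h1 : ((1 : ℝ) + -(1 / 2)) ^ d ≤ 1 + d * -(1 / 2) :=
    rpow_one_add_le_one_add_mul_self (by norm_num) hd.le hd1
  have h2 : (1 : ℝ) + -(1 / 2) = 1 / 2 := by norm_num
  rw [h2] at h1
  linarith

private theorem blockLow_log : 2 * Real.log 4 ≤ 3 := by
  have h1 : Real.log 4 = 2 * Real.log 2 := by
    rw [show (4 : ℝ) = 2 ^ 2 by norm_num, Real.log_pow]
    norm_num
  have h2 := Real.log_two_lt_d9
  rw [h1]
  linarith

/-- one block of primes `≡ 1 mod 8`.

Proof. From `primes8_lower`: with `W n = primes8W n` (`log n` for primes `n ≡ 1 mod 8`, else `0`),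
`∑_n W n / n^(1+d) ≥ 1/(4 d) - K` for `0 < d ≤ 1` (dyadic partial sums). Let `y ≥ 2` be large and
`d = η / log y`. The terms `n < y` contribute at most `C1 log y` (dyadic blocks, `primes8_block`:
each block `[2^i, 2^(i+1))` contributes at most `2 log 4`), and with `η = 1/(16 C1)` this is
`≤ 1/(16 d)`. The terms `n ≥ y^T` contribute by `primes8_T_le` at most
`∑_{i ≥ T log₂ y - 1} 2 log 4 * 2^(-d i) ≤ C2 exp(-η T) / d ≤ 1/(16 d)` for a suitable constant
`T`. Hence for large `y` (so that `K ≤ 1/(16 d)`),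
`∑_{y ≤ p < y^T} log p / p ≥ 1/(4 d) - 3/(16 d) = 1/(16 d) = log y/(16 η)`, and
`log p ≤ T log y` gives `∑ 1/p ≥ 1/(16 η T)`. -/
theorem block_low : ∃ c T y0 : ℝ, 0 < c ∧ 2 ≤ T ∧ 2 ≤ y0 ∧ ∀ y : ℝ, y0 ≤ y → c ≤ Wp y (y ^ T) := by
  obtain ⟨K, hK0, hK⟩ := primes8_lower
  refine ⟨1 / 56, 672, max 2 (2 ^ ⌈K⌉₊), by norm_num, by norm_num, le_max_left _ _, ?_⟩
  intro y hy
  have hy2 : 2 ≤ y := (le_max_left _ _).trans hy
  have hyK : (2 : ℝ) ^ ⌈K⌉₊ ≤ y := (le_max_right _ _).trans hy
  obtain ⟨m, hm⟩ : ∃ m : ℕ, m = Nat.clog 2 ⌈y⌉₊ := ⟨_, rfl⟩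
  have hym : y ≤ 2 ^ m := by
    have h1 : ⌈y⌉₊ ≤ 2 ^ m := by rw [hm]; exact Nat.le_pow_clog (by norm_num) _
    have h2 : y ≤ (⌈y⌉₊ : ℝ) := Nat.le_ceil y
    have h3 : ((⌈y⌉₊ : ℕ) : ℝ) ≤ ((2 ^ m : ℕ) : ℝ) := by exact_mod_cast h1
    push_cast at h3
    linarith
  have hKm : ⌈K⌉₊ ≤ m := by
    have h1 : (2 : ℝ) ^ ⌈K⌉₊ ≤ 2 ^ m := hyK.trans hym
    exact (pow_le_pow_iff_right₀ (by norm_num : (1 : ℝ) < 2)).1 h1
  have hKm' : K ≤ m := (Nat.le_ceil K).trans (by exact_mod_cast hKm)
  have hm1 : 1 ≤ m := by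
    by_contra h
    have h0 : m = 0 := by omega
    rw [h0] at hym
    linarith
  have hm1' : (1 : ℝ) ≤ m := by exact_mod_cast hm1
  have hmy : (2 : ℝ) ^ m ≤ 2 * y := by
    have h1 : 2 ^ (m - 1) < ⌈y⌉₊ := by
      rw [hm]
      exact Nat.pow_pred_clog_lt_self (by norm_num) (by
        rw [Nat.lt_ceil]
        push_cast
        linarith)
    rw [Nat.lt_ceil] at h1
    push_cast at h1
    have h2 : (2 : ℝ) ^ m = 2 * 2 ^ (m - 1) := by
      rw [← pow_succ', Nat.sub_add_cancel hm1]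
    rw [h2]
    linarith
  obtain ⟨d, hdd⟩ : ∃ d : ℝ, d = 1 / (48 * m) := ⟨_, rfl⟩
  have hd : 0 < d := by rw [hdd]; positivity
  have hd1 : d ≤ 1 := by
    rw [hdd, div_le_one (by positivity)]
    linarith
  obtain ⟨N0, hN0⟩ := hK d hd hd1
  obtain ⟨N, hN⟩ : ∃ N : ℕ, N = N0 + 336 * m := ⟨_, rfl⟩
  have hlow := hN0 N (by omega)
  have hquart : (1 / 4) / d = 12 * m := by
    rw [hdd]
    field_simp
    norm_num
  obtain ⟨r, hr⟩ : ∃ r : ℝ, r = (1 / 2 : ℝ) ^ d := ⟨_, rfl⟩
  have hr0 : 0 ≤ r := by rw [hr]; positivity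
  have hr1 : r < 1 := by rw [hr]; exact Real.rpow_lt_one (by norm_num) (by norm_num) hd
  have hhalf : d / 2 ≤ 1 - r := by rw [hr]; exact blockLow_half hd hd1
  have hT : ∀ i, primes8T d i ≤ 3 * r ^ i := by
    intro i
    refine (primes8_T_le d hd i).trans ?_
    rw [← hr]
    exact mul_le_mul_of_nonneg_right blockLow_log (by positivity)
  have hfirst : ∑ i ∈ Finset.range m, primes8T d i ≤ 3 * m := by
    calc ∑ i ∈ Finset.range m, primes8T d i ≤ ∑ i ∈ Finset.range m, (3 : ℝ) := by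
          refine Finset.sum_le_sum fun i _ => (hT i).trans ?_
          have := pow_le_one₀ (n := i) hr0 hr1.le
          linarith
      _ = 3 * m := by
          rw [Finset.sum_const, Finset.card_range, nsmul_eq_mul]
          ring
  have hpow : r ^ (336 * m) = 1 / 128 := by
    rw [hr, ← Real.rpow_natCast, ← Real.rpow_mul (by norm_num)]
    have h1 : d * ((336 * m : ℕ) : ℝ) = 7 := by
      rw [hdd]
      push_cast
      field_simp
      norm_num
    rw [h1]
    norm_num
  have hlast : ∑ i ∈ Finset.Ico (336 * m) N, primes8T d i ≤ 3 * m := by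
    calc ∑ i ∈ Finset.Ico (336 * m) N, primes8T d i
        ≤ ∑ i ∈ Finset.Ico (336 * m) N, 3 * r ^ i := Finset.sum_le_sum fun i _ => hT i
      _ = 3 * ∑ i ∈ Finset.Ico (336 * m) N, r ^ i := by rw [Finset.mul_sum]
      _ ≤ 3 * (r ^ (336 * m) / (1 - r)) :=
          mul_le_mul_of_nonneg_left (primes8_geom r hr0 hr1 _ _) (by norm_num)
      _ ≤ 3 * (r ^ (336 * m) / (d / 2)) := by
          refine mul_le_mul_of_nonneg_left ?_ (by norm_num)
          exact div_le_div_of_nonneg_left (by positivity) (by positivity) hhalf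
      _ ≤ 3 * m := by
          rw [hpow, hdd]
          have : (m : ℝ) ≠ 0 := by positivity
          field_simp
          norm_num
  have hsplit : ∑ i ∈ Finset.range N, primes8T d i = ∑ i ∈ Finset.range m, primes8T d i +
      ∑ i ∈ Finset.Ico m (336 * m), primes8T d i +
      ∑ i ∈ Finset.Ico (336 * m) N, primes8T d i := by
    rw [Finset.range_eq_Ico, Finset.range_eq_Ico,
      Finset.sum_Ico_consecutive _ (Nat.zero_le _) (by omega),
      Finset.sum_Ico_consecutive _ (Nat.zero_le _) (by omega)]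
  have hmid : 3 * (m : ℝ) ≤ ∑ i ∈ Finset.Ico m (336 * m), primes8T d i := by
    rw [hsplit, hquart] at hlow
    linarith
  rw [blockLow_sum d m (336 * m) (by omega)] at hmid
  have hbound : ∑ n ∈ Finset.Ico (2 ^ m) (2 ^ (336 * m)), primes8W n / (n : ℝ) ^ (1 + d) ≤
      336 * m * ∑ p ∈ Ip y (y ^ (672 : ℝ)), 1 / (p : ℝ) := by
    have hterm : ∀ n ∈ Finset.Ico (2 ^ m) (2 ^ (336 * m)), primes8W n / (n : ℝ) ^ (1 + d) ≤
        if n ∈ Ip y (y ^ (672 : ℝ)) then 336 * m * (1 / (n : ℝ)) else 0 := by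
      intro n hn
      rw [Finset.mem_Ico] at hn
      by_cases h8 : n.Prime ∧ n % 8 = 1
      · have hnr : (2 : ℝ) ^ m ≤ n := by exact_mod_cast hn.1
        have hnr2 : (n : ℝ) < 2 ^ (336 * m) := by exact_mod_cast hn.2
        have hn1 : (1 : ℝ) ≤ n := by linarith
        have hmem : n ∈ Ip y (y ^ (672 : ℝ)) := by
          rw [mem_Ip]
          refine ⟨h8.1, h8.2, hym.trans hnr, lt_of_lt_of_le hnr2 ?_⟩
          have h1 : (2 : ℝ) ^ (336 * m) = (2 ^ m) ^ 336 := by
            rw [← pow_mul, mul_comm]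
          have h2 : y ^ (672 : ℝ) = (y ^ 2) ^ 336 := by
            rw [← pow_mul, show (672 : ℝ) = ((2 * 336 : ℕ) : ℝ) by norm_num, Real.rpow_natCast]
          rw [h1, h2]
          refine pow_le_pow_left₀ (by positivity) ?_ _
          nlinarith
        rw [if_pos hmem]
        unfold primes8W
        rw [if_pos h8]
        have hlog : Real.log n ≤ 336 * m := by
          have h3 : Real.log n ≤ Real.log (2 ^ (336 * m)) :=
            Real.log_le_log (by linarith) hnr2.le
          rw [Real.log_pow] at h3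
          have h4 := Real.log_two_lt_d9
          have h5 : (0 : ℝ) ≤ ((336 * m : ℕ) : ℝ) := by positivity
          have h6 : ((336 * m : ℕ) : ℝ) = 336 * m := by push_cast; ring
          rw [h6] at h3 h5
          nlinarith
        have hp : (n : ℝ) ≤ (n : ℝ) ^ (1 + d) := by
          calc (n : ℝ) = (n : ℝ) ^ (1 : ℝ) := (Real.rpow_one _).symm
            _ ≤ (n : ℝ) ^ (1 + d) := Real.rpow_le_rpow_of_exponent_le hn1 (by linarith)
        rw [mul_one_div]
        exact div_le_div₀ (by positivity) hlog (by linarith) hp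
      · have h0 : primes8W n = 0 := by
          unfold primes8W
          rw [if_neg h8]
        rw [h0, zero_div]
        split_ifs
        · positivity
        · exact le_rfl
    refine (Finset.sum_le_sum hterm).trans ?_
    rw [← Finset.sum_filter, ← Finset.mul_sum]
    refine mul_le_mul_of_nonneg_left ?_ (by positivity)
    refine Finset.sum_le_sum_of_subset_of_nonneg ?_ (fun n _ _ => by positivity)
    intro n hn
    exact (Finset.mem_filter.1 hn).2
  have hW : Wp y (y ^ (672 : ℝ)) = 2 * ∑ p ∈ Ip y (y ^ (672 : ℝ)), 1 / (p : ℝ) := by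
    unfold Wp
    rw [Finset.mul_sum]
    refine Finset.sum_congr rfl fun p _ => ?_
    ring
  rw [hW]
  have hfin := hmid.trans hbound
  have h7 : (m : ℝ) * 3 ≤ m * (336 * ∑ p ∈ Ip y (y ^ (672 : ℝ)), 1 / (p : ℝ)) := by
    calc (m : ℝ) * 3 = 3 * m := by ring
      _ ≤ _ := hfin
      _ = _ := by ring
  have h8 := le_of_mul_le_mul_left h7 (by linarith)
  linarith

end

end Pool.Agent.Lib.MP_0b748d_nt.MR
end

section

set_option autoImplicit false

/-!
# Chebyshev and Mertens type bounds for the primes `≡ 1 mod 8`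
-/

namespace Pool.Agent.Lib.MP_0b748d_nt.MR

open Zsqrtd

noncomputable section

private lemma Wp_mono {P Q a b : ℝ} (h1 : P ≤ a) (h2 : b ≤ Q) : Wp a b ≤ Wp P Q := by
  unfold Wp
  refine Finset.sum_le_sum_of_subset_of_nonneg ?_ fun p _ _ => by positivity
  intro p hp
  rw [mem_Ip] at hp ⊢
  exact ⟨hp.1, hp.2.1, h1.trans hp.2.2.1, hp.2.2.2.trans_le h2⟩

private lemma Wp_add {P a Q : ℝ} (h1 : P ≤ a) (h2 : a ≤ Q) : Wp P a + Wp a Q = Wp P Q := by
  classical
  unfold Wp
  rw [← Finset.sum_union]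
  · congr 1
    ext p
    rw [Finset.mem_union, mem_Ip, mem_Ip, mem_Ip]
    constructor
    · rintro (⟨h3, h4, h5, h6⟩ | ⟨h3, h4, h5, h6⟩)
      · exact ⟨h3, h4, h5, h6.trans_le h2⟩
      · exact ⟨h3, h4, h1.trans h5, h6⟩
    · rintro ⟨h3, h4, h5, h6⟩
      rcases lt_or_ge (p : ℝ) a with h7 | h7
      · exact Or.inl ⟨h3, h4, h5, h7⟩
      · exact Or.inr ⟨h3, h4, h7, h6⟩
  · rw [Finset.disjoint_left]
    intro p hp hp'
    rw [mem_Ip] at hp hp'
    linarith [hp.2.2.2, hp'.2.2.1]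

private lemma Wp_nonneg (P Q : ℝ) : 0 ≤ Wp P Q := by
  unfold Wp
  exact Finset.sum_nonneg fun p _ => by positivity

/-- Mertens type lower bound.

Proof. Iterate `block_low`: for `P ≥ y0` the blocks `[P^(T^i), P^(T^(i+1)))` with
`T^(i+1) ≤ log Q / log P` are disjoint and each contributes at least `c0`; there are
at least `log(log Q/log P)/log T - 1` of them. If `P < y0` replace `P` by `y0` (if `Q ≥ y0`,
otherwise the left-hand side is bounded): `log log y0 - log log 2` is a constant. -/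
theorem M_low : ∃ c K : ℝ, 0 < c ∧ 0 ≤ K ∧ ∀ P Q : ℝ, 2 ≤ P → P ≤ Q →
    c * Real.log (Real.log Q / Real.log P) - K ≤ Wp P Q := by
  obtain ⟨c0, T, y0, hc0, hT, hy0, hb⟩ := block_low
  have hT1 : 1 ≤ T := by linarith
  have hlT : 0 < Real.log T := Real.log_pos (by linarith)
  have hl2 : 0 < Real.log 2 := Real.log_pos (by norm_num)
  -- iteration
  have hiter : ∀ (n : ℕ) (y : ℝ), y0 ≤ y → n * c0 ≤ Wp y (y ^ (T ^ n)) := by
    intro n
    induction n with
    | zero => intro y _; simpa using Wp_nonneg _ _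
    | succ n ih =>
      intro y hy
      have hy1 : 1 ≤ y := by linarith
      have hy00 : 0 ≤ y := by linarith
      have hTn : 1 ≤ T ^ n := one_le_pow₀ hT1
      have h1 : y ≤ y ^ (T ^ n) := by
        calc y = y ^ (1 : ℝ) := (Real.rpow_one y).symm
          _ ≤ y ^ (T ^ n) := Real.rpow_le_rpow_of_exponent_le hy1 hTn
      have h2 : (y ^ (T ^ n)) ^ T = y ^ (T ^ (n + 1)) := by
        rw [← Real.rpow_mul hy00, pow_succ]
      have h3 : y ^ (T ^ n) ≤ y ^ (T ^ (n + 1)) := by
        refine Real.rpow_le_rpow_of_exponent_le hy1 ?_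
        rw [pow_succ]
        exact le_mul_of_one_le_right (by linarith) hT1
      have h4 := hb (y ^ (T ^ n)) (hy.trans h1)
      rw [h2] at h4
      rw [← Wp_add h1 h3]
      push_cast
      linarith [ih y hy]
  set c : ℝ := c0 / Real.log T with hc
  have hcpos : 0 < c := div_pos hc0 hlT
  -- large `P`
  have hlarge : ∀ P Q : ℝ, y0 ≤ P → P ≤ Q →
      c * Real.log (Real.log Q / Real.log P) - c0 ≤ Wp P Q := by
    intro P Q hP hPQ
    have hP1 : 1 < P := by linarith
    have hlP : 0 < Real.log P := Real.log_pos hP1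
    have hlQ : Real.log P ≤ Real.log Q := Real.log_le_log (by linarith) hPQ
    have hq1 : 1 ≤ Real.log Q / Real.log P := by rwa [le_div_iff₀ hlP, one_mul]
    have hq0 : 0 < Real.log Q / Real.log P := by linarith
    set L : ℝ := Real.log (Real.log Q / Real.log P) with hL
    have hL0 : 0 ≤ L := Real.log_nonneg hq1
    set n : ℕ := ⌊L / Real.log T⌋₊ with hn
    have hn1 : (n : ℝ) ≤ L / Real.log T := Nat.floor_le (by positivity)
    have hn2 : L / Real.log T < n + 1 := Nat.lt_floor_add_one _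
    have hTn : T ^ n ≤ Real.log Q / Real.log P := by
      rw [← Real.log_le_log_iff (by positivity) hq0, Real.log_pow]
      rwa [le_div_iff₀ hlT] at hn1
    have h1 : P ^ (T ^ n) ≤ Q := by
      rw [← Real.log_le_log_iff (by positivity) (by linarith), Real.log_rpow (by linarith)]
      rwa [le_div_iff₀ hlP] at hTn
    have h2 := (hiter n P hP).trans (Wp_mono le_rfl h1)
    refine le_trans ?_ h2
    have h3 : c * L = L / Real.log T * c0 := by rw [hc]; field_simp
    rw [h3]
    nlinarith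
  have hly0 : Real.log 2 ≤ Real.log y0 := Real.log_le_log (by norm_num) hy0
  set L0 : ℝ := Real.log (Real.log y0 / Real.log 2) with hL0
  have hL00 : 0 ≤ L0 := Real.log_nonneg (by rwa [le_div_iff₀ hl2, one_mul])
  refine ⟨c, c * L0 + c0, hcpos, by positivity, fun P Q hP hPQ => ?_⟩
  have hlP2 : Real.log 2 ≤ Real.log P := Real.log_le_log (by norm_num) hP
  have hlP : 0 < Real.log P := by linarith
  have hlQ : 0 < Real.log Q := hlP.trans_le (Real.log_le_log (by linarith) hPQ)
  have hcL : 0 ≤ c * L0 := by positivity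
  rcases le_or_gt y0 P with h | h
  · have := hlarge P Q h hPQ
    linarith
  · have hlPy : Real.log P ≤ Real.log y0 := Real.log_le_log (by linarith) h.le
    have hy0P : Real.log (Real.log y0 / Real.log P) ≤ L0 := by
      have hly00 : 0 ≤ Real.log y0 := by linarith
      apply Real.log_le_log (div_pos (by linarith) hlP)
      gcongr
    rcases le_or_gt Q y0 with h' | h'
    · have h1 : Real.log (Real.log Q / Real.log P) ≤ L0 := by
        refine le_trans ?_ hy0P
        apply Real.log_le_log (div_pos hlQ hlP)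
        gcongr
        linarith
      have h2 := mul_le_mul_of_nonneg_left h1 hcpos.le
      have h3 := Wp_nonneg P Q
      linarith
    · have h1 := hlarge y0 Q le_rfl h'.le
      have h2 := Wp_mono (P := P) (Q := Q) h.le le_rfl
      have hly0' : 0 < Real.log y0 := by linarith
      have h3 : Real.log (Real.log Q / Real.log P) =
          Real.log (Real.log Q / Real.log y0) + Real.log (Real.log y0 / Real.log P) := by
        rw [← Real.log_mul (div_pos hlQ hly0').ne' (div_pos hly0' hlP).ne']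
        congr 1
        field_simp
      rw [h3]
      have h4 := mul_le_mul_of_nonneg_left hy0P hcpos.le
      nlinarith

/-- dyadic sums `∑ 1 / log (2^i P)`.

Proof. `1/log(2^i P) = 1/(log P + i log 2)`; for `i ≥ 1` compare with the integral:
`1/(log P + i log 2) ≤ (1/log 2) (log(log P + i log 2) - log(log P + (i-1) log 2))`
(from `1 - 1/x ≤ log x`), sum and telescope; the term `i = 0` is `1/log P ≤ 1/log 2 ≤ 2`. -/
theorem sum_inv_log (P : ℝ) (hP : 2 ≤ P) (n : ℕ) :
    ∑ i ∈ Finset.range n, 1 / Real.log (2 ^ i * P) ≤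
      2 + 2 * Real.log (Real.log (2 ^ n * P) / Real.log P) := by
  have hl2 : (1 / 2 : ℝ) < Real.log 2 := by
    have := Real.log_two_gt_d9
    linarith
  have hlP : 0 < Real.log P := Real.log_pos (by linarith)
  have hlP2 : Real.log 2 ≤ Real.log P := Real.log_le_log (by norm_num) hP
  have ha : ∀ i : ℕ, Real.log (2 ^ i * P) = Real.log P + i * Real.log 2 := by
    intro i
    rw [Real.log_mul (by positivity) (by linarith), Real.log_pow]
    ring
  have hapos : ∀ i : ℕ, 0 < Real.log (2 ^ i * P) := by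
    intro i
    rw [ha]
    positivity
  have key : ∀ n : ℕ, ∑ i ∈ Finset.range (n + 1), 1 / Real.log (2 ^ i * P) ≤
      2 + 2 * Real.log (Real.log (2 ^ n * P) / Real.log P) := by
    intro n
    induction n with
    | zero =>
      simp only [zero_add, Finset.range_one, Finset.sum_singleton, pow_zero, one_mul]
      rw [div_self hlP.ne', Real.log_one, mul_zero, add_zero, div_le_iff₀ hlP]
      linarith
    | succ n ih =>
      rw [Finset.sum_range_succ]
      have h1 := hapos n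
      have h2 := hapos (n + 1)
      have h3 : Real.log (2 ^ (n + 1) * P) = Real.log (2 ^ n * P) + Real.log 2 := by
        rw [ha, ha]; push_cast; ring
      have h4 : 1 / Real.log (2 ^ (n + 1) * P) ≤
          2 * (Real.log (Real.log (2 ^ (n + 1) * P) / Real.log P) -
            Real.log (Real.log (2 ^ n * P) / Real.log P)) := by
        rw [Real.log_div h2.ne' hlP.ne', Real.log_div h1.ne' hlP.ne']
        have h5 : Real.log (Real.log (2 ^ (n + 1) * P)) - Real.log (Real.log (2 ^ n * P)) =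
            - Real.log (Real.log (2 ^ n * P) / Real.log (2 ^ (n + 1) * P)) := by
          rw [Real.log_div h1.ne' h2.ne']; ring
        have h6 := Real.log_le_sub_one_of_pos (div_pos h1 h2)
        have h7 : Real.log (2 ^ n * P) / Real.log (2 ^ (n + 1) * P) - 1 =
            - (Real.log 2 / Real.log (2 ^ (n + 1) * P)) := by
          rw [h3]; field_simp; ring
        rw [h7] at h6
        have h8 : 1 / Real.log (2 ^ (n + 1) * P) ≤
            2 * (Real.log 2 / Real.log (2 ^ (n + 1) * P)) := by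
          rw [← mul_div_assoc]
          gcongr
          linarith
        linarith
      linarith
  refine le_trans ?_ (key n)
  rw [Finset.sum_range_succ]
  have := hapos n
  have h1 : 0 < 1 / Real.log (2 ^ n * P) := by positivity
  linarith

end

end Pool.Agent.Lib.MP_0b748d_nt.MR
end
end
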