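import Pool.Agent.Lib.MP_0b748d_nt.MR.Sector
import Pool.Agent.Lib.MP_0b748d_nt.MR.ElDvdA
import Pool.Agent.Lib.MP_0b748d_nt.MR.Cheb

section

set_option autoImplicit false

/-!
# Sums over multiples
-/

namespace Pool.Agent.Lib.MP_0b748d_nt.MR

open Zsqrtd

noncomputable section

private lemma mult_ext {z w : ℤ√2} (h1 : s1 z = s1 w) (h2 : s2 z = s2 w) : z = w := by
  simp only [s1, s2] at h1 h2
  have h3 : (z.re : ℝ) = w.re := by linarith
  have h4 : (z.im : ℝ) * √2 = w.im * √2 := by linarith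
  have h5 : (z.im : ℝ) = w.im := mul_right_cancel₀ sqrt2_pos.ne' h4
  ext
  · exact_mod_cast h3
  · exact_mod_cast h5

private lemma mult_cancel {ρ u v : ℤ√2} (hρ : TP ρ) (h : ρ * u = ρ * v) : u = v := by
  apply mult_ext
  · have h1 := congrArg s1 h
    rw [s1_mul, s1_mul] at h1
    exact mul_left_cancel₀ hρ.1.ne' h1
  · have h1 := congrArg s2 h
    rw [s2_mul, s2_mul] at h1
    exact mul_left_cancel₀ hρ.2.ne' h1

open Classical in
/-- Proof. `w ∈ Vs a b` with `ρ ∣ w`, `w = ρ m'`; `OT m'` (`OT_of_mul`), `nm m' = nm w/nm ρ`. The map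
`w ↦ rp m'` is a bijection onto `Vs (a/nm ρ) (b/nm ρ)`; its inverse is `m ↦ rp (ρ m)`
(`rp_inj`, `rp_dvd`, `rp_un`); and `φ (ρ * rp m') = φ (un _ * (ρ m')) = φ w` by invariance.
(`nm ρ > 0`.) -/
theorem sum_dvd {M : Type*} [AddCommMonoid M] (ρ : ℤ√2) (hρ : OT ρ) (a b : ℝ) (φ : ℤ√2 → M)
    (hφ : Inv φ) :
    ∑ w ∈ (Vs a b).filter (fun w => ρ ∣ w), φ w =
      ∑ m ∈ Vs (a / nm ρ) (b / nm ρ), φ (ρ * m) := by
  have hn : (0 : ℝ) < nm ρ := by exact_mod_cast hρ.1.nm_pos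
  symm
  refine Finset.sum_bij (fun m _ => rp (ρ * m)) ?_ ?_ ?_ ?_
  · intro m hm
    rw [mem_Vs] at hm
    obtain ⟨h1, h2, h3, -, -⟩ := hm
    rw [Finset.mem_filter]
    refine ⟨rp_mem_Vs (hρ.mul h1) ?_ ?_, (rp_dvd _ _).mpr (dvd_mul_right _ _)⟩
    · rw [nm_mul, Int.cast_mul, mul_comm]
      exact (div_le_iff₀ hn).mp h2
    · rw [nm_mul, Int.cast_mul, mul_comm]
      exact (lt_div_iff₀ hn).mp h3
  · intro m hm m' hm' h
    rw [mem_Vs] at hm hm'
    obtain ⟨n, h1⟩ := rp_inj (hρ.mul hm.1).1 (hρ.mul hm'.1).1 h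
    have h2 : m = un n * m' := mult_cancel hρ.1 (by rw [h1]; ring)
    rw [← rp_eq hm.2.2.2.1 hm.2.2.2.2, ← rp_eq hm'.2.2.2.1 hm'.2.2.2.2, h2, rp_un hm'.1.1]
  · intro w hw
    rw [Finset.mem_filter, mem_Vs] at hw
    obtain ⟨⟨h1, h2, h3, h4, h5⟩, y, rfl⟩ := hw
    have hy : OT y := OT_of_mul hρ h1
    rw [nm_mul, Int.cast_mul, mul_comm] at h2 h3
    refine ⟨rp y, rp_mem_Vs hy ((div_le_iff₀ hn).mpr h2) ((lt_div_iff₀ hn).mpr h3), ?_⟩
    have h6 : ρ * rp y = un (-⌊al y⌋) * (ρ * y) := by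
      rw [rp]
      ring
    show rp (ρ * rp y) = ρ * y
    rw [h6, rp_un h1.1, rp_eq h4 h5]
  · intro m hm
    rw [mem_Vs] at hm
    exact (Inv.rp hφ (hρ.mul hm.1).1).symm

theorem OT_nat (c : ℕ) (hc : c % 2 = 1) : OT ((c : ℕ) : ℤ√2) := by
  have h1 : (0 : ℝ) < c := by
    have : 0 < c := by omega
    exact_mod_cast this
  refine ⟨⟨?_, ?_⟩, ?_⟩
  · simpa [s1] using h1
  · simpa [s2] using h1
  · rw [Zsqrtd.re_natCast]
    omega

theorem nm_nat (c : ℕ) : nm ((c : ℕ) : ℤ√2) = (c : ℤ) ^ 2 := by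
  simp [nm]

theorem al_nat_mul (c : ℕ) (hc : 1 ≤ c) {z : ℤ√2} (hz : TP z) :
    al (((c : ℕ) : ℤ√2) * z) = al z := by
  have h1 : (c : ℝ) ≠ 0 := by
    have : c ≠ 0 := by omega
    exact_mod_cast this
  have h2 : s1 ((c : ℕ) : ℤ√2) = c := by simp [s1]
  have h3 : s2 ((c : ℕ) : ℤ√2) = c := by simp [s2]
  simp only [al, th, s1_mul, s2_mul, h2, h3]
  rw [Real.log_mul h1 hz.1.ne', Real.log_mul h1 hz.2.ne']
  ring

end

end Pool.Agent.Lib.MP_0b748d_nt.MR
end

section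

set_option autoImplicit false

/-!
# The prime element step on canonical primitive elements
-/

namespace Pool.Agent.Lib.MP_0b748d_nt.MR

open Zsqrtd

noncomputable section

/-- cancellation of prime elements -/
private lemma top_cancel {p : ℕ} (hp : Sp p) (s : Bool) {x y : ℤ√2}
    (h : el p s * x = el p s * y) : x = y := by
  have h1 : ((p : ℕ) : ℤ√2) * x = ((p : ℕ) : ℤ√2) * y := by
    rw [← el_mul hp s]
    calc el p s * el p (!s) * x = el p (!s) * (el p s * x) := by ring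
      _ = el p (!s) * (el p s * y) := by rw [h]
      _ = el p s * el p (!s) * y := by ring
  have hp0 : (p : ℤ) ≠ 0 := by exact_mod_cast hp.1.ne_zero
  have h2 := congrArg Zsqrtd.re h1
  have h3 := congrArg Zsqrtd.im h1
  simp only [Zsqrtd.re_mul, Zsqrtd.im_mul, Zsqrtd.re_natCast, Zsqrtd.im_natCast, mul_zero,
    zero_mul, add_zero] at h2 h3
  ext
  · exact mul_left_cancel₀ hp0 h2
  · exact mul_left_cancel₀ hp0 h3

private lemma top_un_rp (z : ℤ√2) : z = un ⌊al z⌋ * rp z := by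
  unfold rp
  rw [← mul_assoc, ← un_add, add_neg_cancel, un_zero, one_mul]

private lemma top_pos {p : ℕ} (s : Bool) {w : ℤ√2} (h : el p (!s) ∣ w) :
    ∃ m, w = el p (!s) * m ∧ Tp p s w = rp m := by
  refine ⟨h.choose, h.choose_spec, ?_⟩
  unfold Tp
  rw [dif_pos h]

private lemma top_neg {p : ℕ} (s : Bool) {w : ℤ√2} (h : ¬ el p (!s) ∣ w) :
    Tp p s w = rp (el p s * w) := by
  unfold Tp
  rw [dif_neg h]

/-- Proof. If `el p (!s) ∣ w`, `w = el p (!s) * m`: `OT m`, `Prim m` (`OT_of_mul`, `prim_right`), apply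
`rp_spec`, `rp_prim`. Otherwise `el p s * w` is odd, totally positive, primitive by
`prim_el_mul`. -/
theorem Tp_can {p : ℕ} (hp : Sp p) (s : Bool) {w : ℤ√2} (hw : Can w) : Can (Tp p s w) := by
  by_cases h : el p (!s) ∣ w
  · obtain ⟨m, hm, hT⟩ := top_pos s h
    rw [hT]
    have h1 : OT m := OT_of_mul (el_spec hp (!s)).1 (hm ▸ hw.1)
    have h2 : Prim m := prim_right (x := el p (!s)) (hm ▸ hw.2.1)
    obtain ⟨h3, -, h4, h5⟩ := rp_spec h1
    exact ⟨h3, rp_prim.2 h2, h4, h5⟩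
  · rw [top_neg s h]
    have h1 : OT (el p s * w) := (el_spec hp s).1.mul hw.1
    have h2 : Prim (el p s * w) := (prim_el_mul hp s w).2 ⟨hw.2.1, h⟩
    obtain ⟨h3, -, h4, h5⟩ := rp_spec h1
    exact ⟨h3, rp_prim.2 h2, h4, h5⟩

/-- the step down: `w = unit * el p (!s) * Tp p s w` -/
theorem Tp_down {p : ℕ} (hp : Sp p) (s : Bool) {w : ℤ√2} (hw : Can w) (h : el p (!s) ∣ w) :
    ∃ n, w = un n * (el p (!s) * Tp p s w) := by
  obtain ⟨m, hm, hT⟩ := top_pos s h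
  refine ⟨⌊al m⌋, ?_⟩
  rw [hT]
  calc w = el p (!s) * m := hm
    _ = el p (!s) * (un ⌊al m⌋ * rp m) := by rw [← top_un_rp m]
    _ = un ⌊al m⌋ * (el p (!s) * rp m) := by ring

/-- the step up: `Tp p s w = unit * el p s * w` -/
theorem Tp_up {p : ℕ} (hp : Sp p) (s : Bool) {w : ℤ√2} (hw : Can w) (h : ¬ el p (!s) ∣ w) :
    ∃ n, Tp p s w = un n * (el p s * w) := by
  rw [top_neg s h]
  exact ⟨_, rfl⟩

theorem nm_Tp_down {p : ℕ} (hp : Sp p) (s : Bool) {w : ℤ√2} (hw : Can w) (h : el p (!s) ∣ w) :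
    (p : ℤ) * nm (Tp p s w) = nm w := by
  obtain ⟨n, hn⟩ := Tp_down hp s hw h
  have h1 : nm w = nm (un n * (el p (!s) * Tp p s w)) := by rw [← hn]
  rw [h1, nm_un, nm_mul, (el_spec hp (!s)).2]

theorem nm_Tp_up {p : ℕ} (hp : Sp p) (s : Bool) {w : ℤ√2} (hw : Can w) (h : ¬ el p (!s) ∣ w) :
    nm (Tp p s w) = p * nm w := by
  obtain ⟨n, hn⟩ := Tp_up hp s hw h
  rw [hn, nm_un, nm_mul, (el_spec hp s).2]

/-- after a step down the new element is not divisible by `el p s` -/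
private lemma top_down_not {p : ℕ} (hp : Sp p) (s : Bool) {w : ℤ√2} (hw : Can w)
    (h : el p (!s) ∣ w) : ¬ el p s ∣ Tp p s w := by
  obtain ⟨n, hn⟩ := Tp_down hp s hw h
  have h1 : Prim (el p (!s) * Tp p s w) := by
    rw [← Prim_un n, ← hn]
    exact hw.2.1
  have h2 := ((prim_el_mul hp (!s) _).1 h1).2
  rwa [Bool.not_not] at h2

private lemma top_up_dvd {p : ℕ} (hp : Sp p) (s : Bool) {w : ℤ√2} (hw : Can w)
    (h : ¬ el p (!s) ∣ w) : el p s ∣ Tp p s w := by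
  obtain ⟨n, hn⟩ := Tp_up hp s hw h
  rw [hn, dvd_un]
  exact dvd_mul_right _ _

/-- Proof. Step down first: `w = un n * (el p (!s) * u)`, `u = Tp p s w`. By `prim_el_mul`
(`w` primitive) `el p s ∤ u`, so `Tp p (!s) u = rp (el p (!s) * u) = w` (`rp_un`, `rp_eq`; the test
in `Tp p (!s)` is `el p (!!s) = el p s ∣ u`). Step up first: `u = un n * (el p s * w)`, so
`el p s ∣ u`, and `Tp p (!s) u = rp (u/el p s) = rp (un n * w) = w`. -/
theorem Tp_inv {p : ℕ} (hp : Sp p) (s : Bool) {w : ℤ√2} (hw : Can w) :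
    Tp p (!s) (Tp p s w) = w := by
  have hu := Tp_can hp s hw
  by_cases h : el p (!s) ∣ w
  · obtain ⟨n, hn⟩ := Tp_down hp s hw h
    have h1 : ¬ el p (!(!s)) ∣ Tp p s w := by
      rw [Bool.not_not]
      exact top_down_not hp s hw h
    rw [top_neg (!s) h1]
    have h2 : TP (el p (!s) * Tp p s w) := (el_spec hp (!s)).1.1.mul hu.1.1
    rw [← rp_un h2 n, ← hn]
    exact rp_eq hw.2.2.1 hw.2.2.2
  · obtain ⟨n, hn⟩ := Tp_up hp s hw h
    have h1 : el p (!(!s)) ∣ Tp p s w := by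
      rw [Bool.not_not]
      exact top_up_dvd hp s hw h
    obtain ⟨m, hm, hT⟩ := top_pos (!s) h1
    rw [hT]
    have h2 : el p s * m = el p s * (un n * w) := by
      rw [Bool.not_not] at hm
      rw [← hm, hn]
      ring
    rw [top_cancel hp s h2, rp_un hw.1.1]
    exact rp_eq hw.2.2.1 hw.2.2.2

/-- Proof. `xi_mul`, `xi_inv`; in the step down `xi k w = xi k (el p (!s)) xi k (Tp p s w)` and
`xi k (el p (!s)) = conj (xi k (el p s))` has modulus one. -/
theorem xi_Tp {p : ℕ} (hp : Sp p) (s : Bool) {w : ℤ√2} (hw : Can w) (k : ℤ) :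
    xi k (Tp p s w) = xi k (el p s) * xi k w := by
  have hu := Tp_can hp s hw
  by_cases h : el p (!s) ∣ w
  · obtain ⟨n, hn⟩ := Tp_down hp s hw h
    have h2 : TP (el p (!s) * Tp p s w) := (el_spec hp (!s)).1.1.mul hu.1.1
    have h3 : xi k w = xi k (el p (!s)) * xi k (Tp p s w) := by
      have h4 : xi k w = xi k (un n * (el p (!s) * Tp p s w)) := by rw [← hn]
      rw [h4, xi_inv k n _ h2, xi_mul k (el_spec hp (!s)).1.1 hu.1.1]
    have h5 : xi k (el p (!s)) = (starRingEnd ℂ) (xi k (el p s)) := by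
      rw [← el_star, xi_star]
    have h6 : xi k (el p s) * (starRingEnd ℂ) (xi k (el p s)) = 1 := by
      rw [Complex.mul_conj, Complex.normSq_eq_norm_sq, norm_xi]
      simp
    rw [h3, h5, ← mul_assoc, h6, one_mul]
  · obtain ⟨n, hn⟩ := Tp_up hp s hw h
    have h2 : TP (el p s * w) := (el_spec hp s).1.1.mul hw.1.1
    rw [hn, xi_inv k n _ h2, xi_mul k (el_spec hp s).1.1 hw.1.1]

/-- multiplicative functions, step down -/
theorem f_Tp_down {f : ℤ√2 → ℂ} (hf : MF f) {p : ℕ} (hp : Sp p) (s : Bool) {w : ℤ√2}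
    (hw : Can w) (h : el p (!s) ∣ w) : f (el p (!s)) * f (Tp p s w) = f w := by
  have hu := Tp_can hp s hw
  obtain ⟨n, hn⟩ := Tp_down hp s hw h
  have h2 : TP (el p (!s) * Tp p s w) := (el_spec hp (!s)).1.1.mul hu.1.1
  have h4 : f w = f (un n * (el p (!s) * Tp p s w)) := by rw [← hn]
  rw [h4, hf.inv n _ h2, hf.mul _ _ (el_spec hp (!s)).1 hu.1]

/-- multiplicative functions, step up -/
theorem f_Tp_up {f : ℤ√2 → ℂ} (hf : MF f) {p : ℕ} (hp : Sp p) (s : Bool) {w : ℤ√2}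
    (hw : Can w) (h : ¬ el p (!s) ∣ w) : f (Tp p s w) = f (el p s) * f w := by
  obtain ⟨n, hn⟩ := Tp_up hp s hw h
  have h2 : TP (el p s * w) := (el_spec hp s).1.1.mul hw.1.1
  rw [hn, hf.inv n _ h2, hf.mul _ _ (el_spec hp s).1 hw.1]

/-- Proof. After a step up, `Tp p s w = un n * (el p s * w)` is divisible by `el p s`. After a step
down, `w = un n * (el p (!s) * u)` is primitive, so `el p s ∤ u` (`prim_el_mul`). -/
theorem dvd_Tp_iff {p : ℕ} (hp : Sp p) (s : Bool) {w : ℤ√2} (hw : Can w) :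
    el p s ∣ Tp p s w ↔ ¬ el p (!s) ∣ w := by
  constructor
  · intro h h'
    exact top_down_not hp s hw h' h
  · exact top_up_dvd hp s hw

/-- Proof. Divisors of `u = Tp p s w` divide `w = un n * (el p (!s) * u)`. -/
theorem om_Tp_down {p : ℕ} (hp : Sp p) (s : Bool) {w : ℤ√2} (hw : Can w) (h : el p (!s) ∣ w)
    (I : Finset ℕ) : om I (Tp p s w) ≤ om I w := by
  classical
  obtain ⟨n, hn⟩ := Tp_down hp s hw h
  unfold om
  refine Finset.sum_le_sum fun q _ => Finset.sum_le_sum fun t _ => ?_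
  by_cases h1 : el q t ∣ Tp p s w
  · have h2 : el q t ∣ w := by
      rw [hn, dvd_un]
      exact h1.mul_left _
    rw [if_pos h1, if_pos h2]
  · rw [if_neg h1]
    split_ifs <;> norm_num

/-- Proof. `Tp p s w = un n * (el p s * w)`; by `el_coprime` only the pair `(p, s)` can be a new
divisor. -/
theorem om_Tp_up {p : ℕ} (hp : Sp p) (s : Bool) {w : ℤ√2} (hw : Can w) (h : ¬ el p (!s) ∣ w)
    (I : Finset ℕ) (hI : ∀ q ∈ I, Sp q) : om I (Tp p s w) ≤ om I w + 1 := by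
  classical
  obtain ⟨n, hn⟩ := Tp_up hp s hw h
  unfold om
  have h1 : ∀ q ∈ I, ∀ t : Bool, (if el q t ∣ Tp p s w then (1 : ℝ) else 0) ≤
      (if el q t ∣ w then (1 : ℝ) else 0) + (if (q, t) = (p, s) then (1 : ℝ) else 0) := by
    intro q hq t
    by_cases h2 : (q, t) = (p, s)
    · rw [if_pos h2]
      split_ifs <;> norm_num
    · rw [if_neg h2, add_zero]
      have h3 : el q t ∣ Tp p s w ↔ el q t ∣ w := by
        rw [hn, dvd_un]
        exact el_coprime (hI q hq) hp h2 w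
      simp only [h3]
      exact le_rfl
  calc ∑ q ∈ I, ∑ t : Bool, (if el q t ∣ Tp p s w then (1 : ℝ) else 0)
      ≤ ∑ q ∈ I, ∑ t : Bool, ((if el q t ∣ w then (1 : ℝ) else 0) +
        (if (q, t) = (p, s) then (1 : ℝ) else 0)) :=
        Finset.sum_le_sum fun q hq => Finset.sum_le_sum fun t _ => h1 q hq t
    _ = ∑ q ∈ I, ∑ t : Bool, (if el q t ∣ w then (1 : ℝ) else 0) +
        ∑ q ∈ I, ∑ t : Bool, (if (q, t) = (p, s) then (1 : ℝ) else 0) := by
        simp only [Finset.sum_add_distrib]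
    _ ≤ ∑ q ∈ I, ∑ t : Bool, (if el q t ∣ w then (1 : ℝ) else 0) + 1 := by
        gcongr
        have h4 : ∑ q ∈ I, ∑ t : Bool, (if (q, t) = (p, s) then (1 : ℝ) else 0) =
            ∑ q ∈ I, (if q = p then (1 : ℝ) else 0) := by
          refine Finset.sum_congr rfl fun q _ => ?_
          by_cases hq : q = p
          · subst hq
            cases s <;> simp
          · simp [hq]
        rw [h4, Finset.sum_ite_eq' I p]
        split_ifs <;> norm_num

end

end Pool.Agent.Lib.MP_0b748d_nt.MR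
end
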