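import Pool.Agent.Lib.MP_0b748d_nt.MR.ParamsX
import Pool.Agent.Lib.MP_0b748d_nt.MR.Sector
import Pool.Agent.Lib.MP_0b748d_nt.P.NearOrth
import Pool.Agent.Lib.MP_0b748d_nt.P.FourierCore

section

set_option autoImplicit false

/-!
# Primitive elements by Moebius inversion
-/

namespace Pool.Agent.Lib.MP_0b748d_nt.MR

open Zsqrtd

noncomputable section

/-- the terms of the main series -/
private def mt (c : ℕ) : ℝ := if c % 2 = 1 then (ArithmeticFunction.moebius c : ℝ) / (c : ℝ) ^ 2 else 0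

private theorem mt_abs (c : ℕ) : |mt c| ≤ ((c : ℝ) ^ 2)⁻¹ := by
  unfold mt
  split_ifs with h
  · have h1 : |(ArithmeticFunction.moebius c : ℝ)| ≤ 1 := by
      have := ArithmeticFunction.abs_moebius_le_one (n := c)
      exact_mod_cast this
    rw [abs_div, abs_of_nonneg (by positivity : (0 : ℝ) ≤ (c : ℝ) ^ 2), div_eq_mul_inv]
    have h2 : (0 : ℝ) ≤ ((c : ℝ) ^ 2)⁻¹ := by positivity
    nlinarith
  · rw [abs_zero]
    positivity

private theorem mt_summable : Summable mt := by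
  refine Summable.of_norm_bounded (g := fun c : ℕ => ((c : ℝ) ^ 2)⁻¹) ?_ fun c => mt_abs c
  exact Real.summable_nat_pow_inv.2 (by norm_num)

private def mS (T : ℕ) : ℝ := ∑ c ∈ Finset.Icc 1 T, mt c

private theorem mS_sub {T N : ℕ} (hT : 1 ≤ T) (h : T ≤ N) : |mS N - mS T| ≤ (T : ℝ)⁻¹ := by
  have h1 : mS N - mS T = ∑ c ∈ Finset.Ioc T N, mt c := by
    unfold mS
    have e1 : Finset.Icc 1 N = Finset.Ioc 0 N := by
      ext x
      simp only [Finset.mem_Icc, Finset.mem_Ioc]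
      omega
    have e2 : Finset.Icc 1 T = Finset.Ioc 0 T := by
      ext x
      simp only [Finset.mem_Icc, Finset.mem_Ioc]
      omega
    rw [e1, e2, ← Finset.sum_Ioc_consecutive mt (Nat.zero_le T) h]
    ring
  rw [h1]
  have h2 : ∑ c ∈ Finset.Ioc T N, ((c : ℝ) ^ 2)⁻¹ ≤ (T : ℝ)⁻¹ - (N : ℝ)⁻¹ :=
    sum_Ioc_inv_sq_le_sub (by omega) h
  have h3 : (0 : ℝ) ≤ (N : ℝ)⁻¹ := by positivity
  calc |∑ c ∈ Finset.Ioc T N, mt c| ≤ ∑ c ∈ Finset.Ioc T N, |mt c| :=
        Finset.abs_sum_le_sum_abs _ _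
    _ ≤ ∑ c ∈ Finset.Ioc T N, ((c : ℝ) ^ 2)⁻¹ := Finset.sum_le_sum fun c _ => mt_abs c
    _ ≤ (T : ℝ)⁻¹ := by linarith

private theorem mS_lim : ∃ s : ℝ, Filter.Tendsto mS Filter.atTop (nhds s) := by
  refine ⟨∑' c, mt c, ?_⟩
  have h1 := mt_summable.hasSum.tendsto_sum_nat
  have h2 := h1.comp (Filter.tendsto_add_atTop_nat 1)
  refine h2.congr fun N => ?_
  show ∑ c ∈ Finset.range (N + 1), mt c = mS N
  unfold mS
  rw [Finset.range_eq_Ico, Finset.sum_eq_sum_Ico_succ_bot (by omega)]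
  have h3 : mt 0 = 0 := by
    unfold mt
    simp
  rw [h3, zero_add]
  rfl

private theorem mS_est : ∃ s : ℝ, 0 < s ∧ ∀ T : ℕ, 1 ≤ T → |mS T - s| ≤ (T : ℝ)⁻¹ := by
  obtain ⟨s, hs⟩ := mS_lim
  have h1 : ∀ T : ℕ, 1 ≤ T → |mS T - s| ≤ (T : ℝ)⁻¹ := by
    intro T hT
    have h2 : Filter.Tendsto (fun N => |mS N - mS T|) Filter.atTop (nhds |s - mS T|) :=
      (hs.sub_const _).abs
    rw [abs_sub_comm]
    refine le_of_tendsto h2 ?_
    filter_upwards [Filter.eventually_ge_atTop T] with N hN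
    exact mS_sub hT hN
  refine ⟨s, ?_, h1⟩
  have h3 := h1 3 (by norm_num)
  have h4 : mS 3 = 8 / 9 := by
    unfold mS
    have e : Finset.Icc 1 3 = ({1, 2, 3} : Finset ℕ) := by decide
    rw [e, Finset.sum_insert (by decide), Finset.sum_insert (by decide), Finset.sum_singleton]
    have m1 : mt 1 = 1 := by
      unfold mt
      simp
    have m2 : mt 2 = 0 := by
      unfold mt
      simp
    have m3 : mt 3 = -(1 / 9) := by
      unfold mt
      rw [if_pos (by norm_num), ArithmeticFunction.moebius_apply_prime Nat.prime_three]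
      push_cast
      norm_num
    rw [m1, m2, m3]
    norm_num
  rw [h4] at h3
  have h5 := (abs_le.1 h3).2
  norm_num at h5
  linarith

private theorem uv_aux {u v : ℝ} (h1 : 1 ≤ u) (h : v ≤ u) (h8 : u ^ 2 - v ^ 2 = 1) :
    1 / u ^ 2 ≤ 2 * u - 2 * v := by
  rw [div_le_iff₀ (by positivity)]
  have h9 : (u - v) * (u + v) = 1 := by rw [← h8]; ring
  have h10 : 0 ≤ u - v := by linarith
  have h11 : (u - v) * (u + v) ≤ (u - v) * (2 * u) := mul_le_mul_of_nonneg_left (by linarith) h10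
  have h12 : (u - v) * (2 * u) ≤ (u - v) * (2 * u ^ 2) :=
    mul_le_mul_of_nonneg_left (by nlinarith) h10
  nlinarith

private theorem harm_le (T : ℕ) : ∑ c ∈ Finset.Icc 1 T, (1 : ℝ) / c ≤ 2 * √T := by
  induction T with
  | zero => simp
  | succ T ih =>
    rw [Finset.sum_Icc_succ_top (by omega)]
    have h1 : (0 : ℝ) ≤ T := Nat.cast_nonneg T
    have h2 : √(T : ℝ) ^ 2 = T := Real.sq_sqrt h1
    have h3 : √((T : ℝ) + 1) ^ 2 = T + 1 := Real.sq_sqrt (by positivity)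
    have h4 : 0 < √((T : ℝ) + 1) := Real.sqrt_pos.2 (by positivity)
    have h5 : √(T : ℝ) ≤ √((T : ℝ) + 1) := Real.sqrt_le_sqrt (by linarith)
    have h5' : 0 ≤ √(T : ℝ) := Real.sqrt_nonneg _
    have h6 : (1 : ℝ) ≤ √((T : ℝ) + 1) := Real.one_le_sqrt.2 (by linarith)
    have h7 := uv_aux h6 h5 (by rw [h3, h2]; ring)
    rw [h3] at h7
    push_cast
    linarith

private theorem Us_real (a b : ℝ) (T : ℕ) (hT : √b ≤ T) :
    ((Us a b).card : ℝ) = ∑ c ∈ (Finset.Icc 1 T).filter (fun c => c % 2 = 1),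
      (ArithmeticFunction.moebius c : ℝ) *
        ((Vs (a / (c : ℝ) ^ 2) (b / (c : ℝ) ^ 2)).card : ℝ) := by
  have h := sum_Us_moebius (fun _ => (1 : ℂ)) (fun _ _ _ _ => rfl) a b T hT
  simp only [Finset.sum_const, nsmul_eq_mul, mul_one] at h
  have h2 : (((Us a b).card : ℝ) : ℂ) = ((∑ c ∈ (Finset.Icc 1 T).filter (fun c => c % 2 = 1),
      (ArithmeticFunction.moebius c : ℝ) *
        ((Vs (a / (c : ℝ) ^ 2) (b / (c : ℝ) ^ 2)).card : ℝ) : ℝ) : ℂ) := by
    push_cast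
    exact h
  exact_mod_cast h2

/-- counting primitive elements.

Proof. `sum_Us_moebius` with `φ = 1`, `T = ⌈√b⌉`: `#Us a b = ∑_{c ≤ T odd} μ(c) #Vs (a/c²) (b/c²)`
`= ∑ μ(c) (kap (b-a)/c² + O(√b/c))`; the error is `O(√b (1 + log T)) = O(b^(3/4))` (for `b ≥ 1`; for
`b < 1` both sides are small: `Us = ∅` and `κ (b-a) ≤ κ b ≤ κ b^(3/4)`). The main series
`∑_{c odd} μ(c)/c²` converges to a number `s`; the tail beyond `T` is `≤ 2/T`, contributing
`O((b-a)/√b) = O(√b)`. `s > 0`: `s ≥ 1 - ∑_{c odd ≥ 3} 1/c² ≥ 3/4` (`1/c² ≤ (1/(c-1) - 1/(c+1))/2`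
telescopes over odd `c ≥ 3` to `1/4`). `κ₁ = kap s`. -/
theorem U_count_ex : ∃ κ C : ℝ, 0 < κ ∧ 0 < C ∧ ∀ a b : ℝ, 0 ≤ a → a ≤ b →
    |((Us a b).card : ℝ) - κ * (b - a)| ≤ C * b ^ ((3 : ℝ) / 4) := by
  obtain ⟨C0, hC0, hV⟩ := V_count
  obtain ⟨s, hs, hmS⟩ := mS_est
  have hk := kap_pos
  refine ⟨kap * s, 4 * C0 + kap + kap * s, by positivity, by positivity, fun a b ha hab => ?_⟩
  have hb : 0 ≤ b := ha.trans hab
  have hb34 : 0 ≤ b ^ ((3 : ℝ) / 4) := Real.rpow_nonneg hb _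
  rcases le_or_gt b 1 with hb1 | hb1
  · rw [Us_empty hb1, Finset.card_empty, Nat.cast_zero, zero_sub, abs_neg,
      abs_of_nonneg (mul_nonneg (by positivity) (by linarith))]
    have h1 : b ≤ b ^ ((3 : ℝ) / 4) := by
      have := Real.rpow_le_rpow_of_exponent_ge' hb hb1 (by norm_num : (0 : ℝ) ≤ 3 / 4)
        (by norm_num : (3 : ℝ) / 4 ≤ 1)
      rwa [Real.rpow_one] at this
    have h2 : kap * s * (b - a) ≤ kap * s * b ^ ((3 : ℝ) / 4) :=
      mul_le_mul_of_nonneg_left (by linarith) (by positivity)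
    nlinarith [mul_nonneg hC0.le hb34, mul_nonneg hk.le hb34]
  · set T : ℕ := ⌈√b⌉₊ with hT
    have hTb : √b ≤ T := Nat.le_ceil _
    have hsb : 1 ≤ √b := by
      rw [show (1 : ℝ) = √1 from Real.sqrt_one.symm]
      exact Real.sqrt_le_sqrt hb1.le
    have hT1 : (1 : ℝ) ≤ T := hsb.trans hTb
    have hT1' : 1 ≤ T := by exact_mod_cast hT1
    have hT2 : (T : ℝ) ≤ 2 * √b := by
      have := Nat.ceil_lt_add_one (Real.sqrt_nonneg b)
      rw [← hT] at this
      linarith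
    have hmain : |((Us a b).card : ℝ) - kap * (b - a) * mS T| ≤
        C0 * √b * ∑ c ∈ Finset.Icc 1 T, (1 : ℝ) / c := by
      have e1 : kap * (b - a) * mS T = ∑ c ∈ (Finset.Icc 1 T).filter (fun c => c % 2 = 1),
          (ArithmeticFunction.moebius c : ℝ) *
            (kap * (b / (c : ℝ) ^ 2 - a / (c : ℝ) ^ 2)) := by
        unfold mS mt
        rw [← Finset.sum_filter, Finset.mul_sum]
        refine Finset.sum_congr rfl fun c _ => ?_
        ring
      rw [Us_real a b T hTb, e1, ← Finset.sum_sub_distrib]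
      refine (Finset.abs_sum_le_sum_abs _ _).trans ?_
      rw [Finset.mul_sum]
      refine (Finset.sum_le_sum (g := fun c : ℕ => C0 * √b * (1 / (c : ℝ))) fun c hc => ?_).trans
        (Finset.sum_le_sum_of_subset_of_nonneg (Finset.filter_subset _ _) fun c _ _ => by positivity)
      rw [Finset.mem_filter, Finset.mem_Icc] at hc
      have hc0 : (0 : ℝ) < c := by
        have := hc.1.1
        exact_mod_cast this
      rw [← mul_sub, abs_mul]
      have h1 : |(ArithmeticFunction.moebius c : ℝ)| ≤ 1 := by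
        have := ArithmeticFunction.abs_moebius_le_one (n := c)
        exact_mod_cast this
      have h2 := hV (a / (c : ℝ) ^ 2) (b / (c : ℝ) ^ 2) (by positivity) (by gcongr)
      have h3 : √(b / (c : ℝ) ^ 2) = √b * (1 / (c : ℝ)) := by
        rw [Real.sqrt_div hb, Real.sqrt_sq hc0.le]
        ring
      rw [h3] at h2
      have h4 := abs_nonneg (((Vs (a / (c : ℝ) ^ 2) (b / (c : ℝ) ^ 2)).card : ℝ) -
        kap * (b / (c : ℝ) ^ 2 - a / (c : ℝ) ^ 2))
      calc _ ≤ 1 * |((Vs (a / (c : ℝ) ^ 2) (b / (c : ℝ) ^ 2)).card : ℝ) -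
            kap * (b / (c : ℝ) ^ 2 - a / (c : ℝ) ^ 2)| := mul_le_mul_of_nonneg_right h1 h4
        _ ≤ C0 * √b * (1 / (c : ℝ)) := by
          rw [one_mul]
          linarith
    -- powers of b
    have hq : √b * √(√b) = b ^ ((3 : ℝ) / 4) := by
      rw [Real.sqrt_eq_rpow (√b), Real.sqrt_eq_rpow b, ← Real.rpow_mul hb, ← Real.rpow_add (by linarith)]
      norm_num
    have hb12 : √b ≤ b ^ ((3 : ℝ) / 4) := by
      rw [Real.sqrt_eq_rpow]
      exact Real.rpow_le_rpow_of_exponent_le hb1.le (by norm_num)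
    have hsT : √(T : ℝ) ≤ 2 * √(√b) := by
      have h1 : √(T : ℝ) ≤ √(2 * √b) := Real.sqrt_le_sqrt hT2
      have h2 : √(2 * √b) = √2 * √(√b) := Real.sqrt_mul (by norm_num) _
      have h3 : √2 ≤ (2 : ℝ) := by
        rw [show (2 : ℝ) = √(2 ^ 2) from (Real.sqrt_sq (by norm_num)).symm]
        exact Real.sqrt_le_sqrt (by norm_num)
      rw [h2] at h1
      exact h1.trans (mul_le_mul_of_nonneg_right h3 (Real.sqrt_nonneg _))
    have hharm := harm_le T
    have e1 : C0 * √b * ∑ c ∈ Finset.Icc 1 T, (1 : ℝ) / c ≤ 4 * C0 * b ^ ((3 : ℝ) / 4) := by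
      have h1 : ∑ c ∈ Finset.Icc 1 T, (1 : ℝ) / c ≤ 4 * √(√b) := by linarith
      calc C0 * √b * ∑ c ∈ Finset.Icc 1 T, (1 : ℝ) / c ≤ C0 * √b * (4 * √(√b)) := by gcongr
        _ = 4 * C0 * (√b * √(√b)) := by ring
        _ = 4 * C0 * b ^ ((3 : ℝ) / 4) := by rw [hq]
    have e2 : |kap * (b - a) * mS T - kap * s * (b - a)| ≤ kap * b ^ ((3 : ℝ) / 4) := by
      have h1 : kap * (b - a) * mS T - kap * s * (b - a) = kap * (b - a) * (mS T - s) := by ring
      rw [h1, abs_mul, abs_of_nonneg (mul_nonneg hk.le (by linarith))]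
      have h2 := hmS T hT1'
      have h3 : (b - a) * |mS T - s| ≤ √b := by
        have h4 : (T : ℝ)⁻¹ ≤ (√b)⁻¹ := inv_anti₀ (by linarith) hTb
        calc (b - a) * |mS T - s| ≤ b * (√b)⁻¹ :=
              mul_le_mul (by linarith) (h2.trans h4) (abs_nonneg _) hb
          _ = √b := by
            rw [← div_eq_mul_inv, Real.div_sqrt]
      calc kap * (b - a) * |mS T - s| = kap * ((b - a) * |mS T - s|) := by ring
        _ ≤ kap * b ^ ((3 : ℝ) / 4) := mul_le_mul_of_nonneg_left (h3.trans hb12) hk.le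
    have e3 : ((Us a b).card : ℝ) - kap * s * (b - a) =
        (((Us a b).card : ℝ) - kap * (b - a) * mS T) +
          (kap * (b - a) * mS T - kap * s * (b - a)) := by ring
    rw [e3]
    refine (abs_add_le _ _).trans ?_
    have e4 : 0 ≤ kap * s * b ^ ((3 : ℝ) / 4) := by positivity
    have e5 := hmain.trans e1
    calc _ ≤ 4 * C0 * b ^ ((3 : ℝ) / 4) + kap * b ^ ((3 : ℝ) / 4) := add_le_add e5 e2
      _ ≤ _ := by nlinarith

/-- the density of primitive odd elements modulo units -/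
def kap1 : ℝ := U_count_ex.choose

theorem kap1_pos : 0 < kap1 := U_count_ex.choose_spec.choose_spec.1

theorem U_count : ∃ C : ℝ, 0 < C ∧ ∀ a b : ℝ, 0 ≤ a → a ≤ b →
    |((Us a b).card : ℝ) - kap1 * (b - a)| ≤ C * b ^ ((3 : ℝ) / 4) :=
  ⟨U_count_ex.choose_spec.choose, U_count_ex.choose_spec.choose_spec.2.1,
    U_count_ex.choose_spec.choose_spec.2.2⟩

theorem U_le : ∃ C : ℝ, 1 ≤ C ∧ ∀ a b : ℝ, 0 ≤ a → 0 ≤ b → ((Us a b).card : ℝ) ≤ C * b := by
  obtain ⟨C, hC, h⟩ := V_le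
  refine ⟨C, hC, fun a b ha hb => ?_⟩
  refine le_trans ?_ (h a b ha hb)
  exact_mod_cast Finset.card_le_card (Us_sub a b)

/-- `U_count` with `a = X`, `b = 2X`, `X` large -/
theorem U_dyadic : ∃ X0 : ℝ, 1 ≤ X0 ∧ ∀ X : ℝ, X0 ≤ X →
    kap1 / 2 * X ≤ (Us X (2 * X)).card ∧ ((Us X (2 * X)).card : ℝ) ≤ 2 * kap1 * X := by
  obtain ⟨C, hC, h⟩ := U_count
  have hk := kap1_pos
  refine ⟨max 1 ((4 * C / kap1) ^ 4), le_max_left _ _, fun X hX => ?_⟩
  have hX1 : 1 ≤ X := (le_max_left _ _).trans hX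
  have hX0 : 0 ≤ X := by linarith
  have hX2 : (4 * C / kap1) ^ 4 ≤ X := (le_max_right _ _).trans hX
  have h1 := h X (2 * X) hX0 (by linarith)
  have h2 : (2 * X) ^ ((3 : ℝ) / 4) ≤ 2 * X ^ ((3 : ℝ) / 4) := by
    rw [Real.mul_rpow (by norm_num) hX0]
    refine mul_le_mul_of_nonneg_right ?_ (Real.rpow_nonneg hX0 _)
    have := Real.rpow_le_rpow_of_exponent_le (by norm_num : (1 : ℝ) ≤ 2)
      (by norm_num : (3 : ℝ) / 4 ≤ 1)
    rwa [Real.rpow_one] at this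
  have h3 : 4 * C / kap1 ≤ X ^ ((1 : ℝ) / 4) := by
    have h4 : 4 * C / kap1 = ((4 * C / kap1) ^ 4) ^ ((1 : ℝ) / 4) := by
      rw [← Real.rpow_natCast, ← Real.rpow_mul (by positivity)]
      norm_num
    rw [h4]
    exact Real.rpow_le_rpow (by positivity) hX2 (by norm_num)
  have h5 : X ^ ((3 : ℝ) / 4) * X ^ ((1 : ℝ) / 4) = X := by
    rw [← Real.rpow_add (by linarith)]
    norm_num
  have h6 : C * (2 * X) ^ ((3 : ℝ) / 4) ≤ kap1 / 2 * X := by
    have h7 : 4 * C ≤ X ^ ((1 : ℝ) / 4) * kap1 := by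
      rwa [div_le_iff₀ hk] at h3
    have h8 : 0 ≤ X ^ ((3 : ℝ) / 4) := Real.rpow_nonneg hX0 _
    have h9 := mul_le_mul_of_nonneg_left h7 h8
    have h10 : X ^ ((3 : ℝ) / 4) * (X ^ ((1 : ℝ) / 4) * kap1) = X * kap1 := by
      rw [← mul_assoc, h5]
    rw [h10] at h9
    have h11 := mul_le_mul_of_nonneg_left h2 hC.le
    nlinarith
  have h12 := abs_le.1 h1
  have h13 : kap1 * (2 * X - X) = kap1 * X := by ring
  rw [h13] at h12
  constructor
  · linarith [h12.1]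
  · linarith [h12.2, mul_nonneg hk.le hX0]

end

end Pool.Agent.Lib.MP_0b748d_nt.MR
end

section

section

set_option autoImplicit false

/-!
# The inner exponential sum for all intervals

Generalisation of `P/ExpSum.lean` (`reg_al`, `inner_small`, `inner_window`, `inner_all`): there
`b ∈ [B, 2B)` and `i ∈ [8B, 16B)`; here `b` is arbitrary, the interval `[x, y)` of `i` is arbitrary
with `19 b ≤ 13 (2 x + 1)` and `2 y ≤ 5 b + 1`, i.e. `19/13 ≤ (2 i + 1)/b ≤ 5`.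
-/

namespace Pool.Agent.Lib.MP_0b748d_nt.MR

open Zsqrtd

noncomputable section

/-- lower constant of regularity -/
def rlo (k : ℕ) : ℝ := k.factorial / (2 * (4 + k : ℝ) ^ (k + 1)) / th uu

/-- upper constant of regularity -/
def rhi (k : ℕ) : ℝ := k.factorial * 50 ^ (k + 1) / th uu

private lemma dif_of_Gi_half (f : ℕ → ℝ) (c β : ℝ) (hβ : 0 ≤ β) (x0 : ℕ)
    (hx0 : β < (x0 : ℝ) + 1 / 2)
    (hf : ∀ a, x0 ≤ a → f a = c * Gi 0 β (a + 1 / 2)) (k : ℕ) :
    ∀ a, x0 ≤ a → dif k f a = (-1) ^ k * c * Gi k β (a + 1 / 2) := by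
  induction k with
  | zero =>
    intro a ha
    simp only [dif, pow_zero, one_mul]
    exact hf a ha
  | succ k ih =>
    intro a ha
    have ha' : (x0 : ℝ) ≤ a := by exact_mod_cast ha
    have h1 := Gi_succ k hβ (x := (a : ℝ) + 1 / 2) (by linarith)
    simp only [dif]
    rw [ih (a + 1) (by omega), ih a ha, ← h1]
    push_cast
    rw [show (a : ℝ) + 1 + 1 / 2 = a + 1 / 2 + 1 by ring]
    ring

/-- regularity of the angles.

Proof. Copy the proof of `reg_al` with `β = b √2/2`. For `x ≤ a`, `a + k < y` (or whatever range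
`Reg` asks for) one has `a + 1/2 - β ≥ (19/26) b - 0.7075 b ≥ b/50 > 0`
(`19/26 = 0.7307…`, `0.7307 - 0.7075 > 1/50`) and `a + 1/2 + β + k ≤ 5b/2 + 0.71 b + k ≤ (4 + k) b`
(`b ≥ 1`). So `Gi_le` with `y = b/50` gives `Gi k β (a+1/2) ≤ β k! (50/b)^(k+1) ≤ k! 50^(k+1)/b^k`
and `Gi_ge` with `y = (4+k) b` gives `≥ β k!/((4+k) b)^(k+1) ≥ k!/(2 (4+k)^(k+1)) / b^k`. -/
theorem reg_gen (k b x y : ℕ) (hb : 1 ≤ b) (hx : 19 * b ≤ 13 * (2 * x + 1)) (hy : 2 * y ≤ 5 * b + 1)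
    (d : ℤ) :
    ∃ g : ℕ → ℝ, (∀ x' y' : ℕ, x ≤ x' → y' ≤ y → ‖∑ i ∈ Finset.Ico x' y', ee (d * al (zz (i, b)))‖ =
        ‖∑ i ∈ Finset.Ico x' y', ee (g i)‖) ∧
      Reg k g (rlo k * |(d : ℝ)| / (b : ℝ) ^ k) (rhi k * |(d : ℝ)| / (b : ℝ) ^ k) x y := by
  have hT := th_uu_pos
  have hs1 := sqrt2_lt
  have hs2 := lt_sqrt2
  have hB' : (1 : ℝ) ≤ b := by exact_mod_cast hb
  have hb0 : (0 : ℝ) < b := by linarith
  have hxr : 19 * (b : ℝ) ≤ 13 * (2 * x + 1) := by exact_mod_cast hx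
  have hyr : 2 * (y : ℝ) ≤ 5 * b + 1 := by exact_mod_cast hy
  set β : ℝ := b * √2 / 2 with hβ
  have hβ1 : (1 / 2) * (b : ℝ) ≤ β := by rw [hβ]; nlinarith only [hs2]
  have hβ2 : β ≤ 0.7075 * (b : ℝ) := by rw [hβ]; nlinarith only [hs1]
  have hβ0 : 0 ≤ β := by positivity
  have hβx : β < (x : ℝ) + 1 / 2 := by linarith only [hxr, hβ2]
  -- the sign
  obtain ⟨σ, hσ, hσd⟩ : ∃ σ : ℝ, (σ = 1 ∨ σ = -1) ∧ (-1) ^ k * (σ * d) = |(d : ℝ)| := by
    rcases neg_one_pow_eq_or ℝ k with h | h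
    · rcases le_total 0 (d : ℝ) with h' | h'
      · exact ⟨1, Or.inl rfl, by rw [h, abs_of_nonneg h']; ring⟩
      · exact ⟨-1, Or.inr rfl, by rw [h, abs_of_nonpos h']; ring⟩
    · rcases le_total 0 (d : ℝ) with h' | h'
      · exact ⟨-1, Or.inr rfl, by rw [h, abs_of_nonneg h']; ring⟩
      · exact ⟨1, Or.inl rfl, by rw [h, abs_of_nonpos h']; ring⟩
  refine ⟨fun i => σ * (d * al (zz (i, b))), ?_, ?_⟩
  · intro x' y' _ _
    rcases hσ with rfl | rfl
    · simp only [one_mul]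
    · simp only [neg_mul, one_mul]
      rw [norm_sum_neg]
  have hdif : ∀ a, x ≤ a → dif k (fun i => σ * (d * al (zz (i, b)))) a =
      |(d : ℝ)| / th uu * Gi k β (a + 1 / 2) := by
    intro a ha
    rw [dif_of_Gi_half _ (σ * d / th uu) β hβ0 x hβx _ k a ha]
    · rw [← hσd]; ring
    · intro a ha
      have ha' : (x : ℝ) ≤ a := by exact_mod_cast ha
      simp only [al]
      rw [th_zz a b (by rw [← hβ]; linarith only [hβx, ha'])]
      ring
  constructor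
  · intro a ha hak
    rw [hdif a ha]
    have ha1 : (x : ℝ) ≤ a := by exact_mod_cast ha
    have ha2 : (a : ℝ) + 1 ≤ y := by
      have : a + 1 ≤ y := by omega
      exact_mod_cast this
    have hd0 : (0 : ℝ) ≤ |(d : ℝ)| / th uu := by positivity
    constructor
    · have h1 := Gi_ge k hβ0 (x := (a : ℝ) + 1 / 2) (by linarith only [hβx, ha1]) ((4 + k) * b) (by
        have hk : (k : ℝ) ≤ k * b := by nlinarith only [hB']
        linarith only [hyr, hβ2, ha2, hk])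
      have h2 : (k.factorial : ℝ) / (2 * (4 + k : ℝ) ^ (k + 1)) / (b : ℝ) ^ k ≤
          β * (k.factorial / ((4 + k) * b) ^ (k + 1)) := by
        rw [mul_pow, pow_succ (b : ℝ) k]
        have e : β * ((k.factorial : ℝ) / ((4 + k : ℝ) ^ (k + 1) * ((b : ℝ) ^ k * b))) =
          (k.factorial : ℝ) / (2 * (4 + k : ℝ) ^ (k + 1)) / (b : ℝ) ^ k * (2 * β / b) := by
          field_simp
        rw [e]
        have h3 : 1 ≤ 2 * β / b := by
          rw [le_div_iff₀ (by linarith only [hb0])]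
          linarith only [hβ1]
        have h4 : 0 ≤ (k.factorial : ℝ) / (2 * (4 + k : ℝ) ^ (k + 1)) / (b : ℝ) ^ k := by
          positivity
        nlinarith only [h3, h4]
      calc rlo k * |(d : ℝ)| / (b : ℝ) ^ k
          = |(d : ℝ)| / th uu * ((k.factorial : ℝ) / (2 * (4 + k : ℝ) ^ (k + 1)) / (b : ℝ) ^ k) := by
            unfold rlo
            ring
        _ ≤ _ := mul_le_mul_of_nonneg_left (h2.trans h1) hd0
    · have h1 := Gi_le k hβ0 (x := (a : ℝ) + 1 / 2) (by linarith only [hβx, ha1]) (b / 50) (by linarith)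
        (by linarith only [hxr, hβ2, ha1])
      have h2 : β * ((k.factorial : ℝ) / (b / 50) ^ (k + 1)) ≤
          k.factorial * 50 ^ (k + 1) / (b : ℝ) ^ k := by
        rw [div_pow, pow_succ (b : ℝ) k]
        have e : β * ((k.factorial : ℝ) / (((b : ℝ) ^ k * b) / 50 ^ (k + 1))) =
          k.factorial * 50 ^ (k + 1) / (b : ℝ) ^ k * (β / b) := by
          field_simp
        rw [e]
        have h3 : β / b ≤ 1 := by
          rw [div_le_one (by positivity)]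
          linarith only [hβ2]
        have h4 : 0 ≤ (k.factorial : ℝ) * 50 ^ (k + 1) / (b : ℝ) ^ k := by positivity
        nlinarith only [h3, h4]
      calc |(d : ℝ)| / th uu * Gi k β (a + 1 / 2)
          ≤ |(d : ℝ)| / th uu * (k.factorial * 50 ^ (k + 1) / (b : ℝ) ^ k) :=
            mul_le_mul_of_nonneg_left (h1.trans h2) hd0
        _ = _ := by
            unfold rhi
            ring
  · intro a ha hak
    rw [hdif a ha, hdif (a + 1) (by omega)]
    have ha1 : (x : ℝ) ≤ a := by exact_mod_cast ha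
    have h1 := Gi_succ k hβ0 (x := (a : ℝ) + 1 / 2) (by linarith only [hβx, ha1])
    have h2 := Gi_nonneg (k + 1) hβ0 (x := (a : ℝ) + 1 / 2) (by linarith only [hβx, ha1])
    apply mul_le_mul_of_nonneg_left _ (by positivity)
    push_cast
    rw [show (a : ℝ) + 1 + 1 / 2 = a + 1 / 2 + 1 by ring]
    linarith only [h1, h2]

end

end Pool.Agent.Lib.MP_0b748d_nt.MR
end

section

set_option autoImplicit false

/-!
# The inner exponential sum for all intervals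

Generalisation of `P/ExpSum.lean` (`reg_al`, `inner_small`, `inner_window`, `inner_all`): there
`b ∈ [B, 2B)` and `i ∈ [8B, 16B)`; here `b` is arbitrary, the interval `[x, y)` of `i` is arbitrary
with `19 b ≤ 13 (2 x + 1)` and `2 y ≤ 5 b + 1`, i.e. `19/13 ≤ (2 i + 1)/b ≤ 5`.
-/

namespace Pool.Agent.Lib.MP_0b748d_nt.MR

open Zsqrtd

noncomputable section

/-- small frequencies (copy `inner_small`, with `kusmin` on `[x, y)`; if `y ≤ x` the sum is
empty, and if the interval has at most one element the sum has modulus `≤ 1`, which is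
`≤ b/|d|` because `|d| ≤ b^(3/4)`) -/
theorem inner_small_gen : ∃ C : ℝ, 1 ≤ C ∧ ∃ B0 : ℕ, ∀ b : ℕ, B0 ≤ b → ∀ d : ℤ, d ≠ 0 →
    |(d : ℝ)| ≤ (b : ℝ) ^ ((3 : ℝ) / 4) → ∀ x y : ℕ, 19 * b ≤ 13 * (2 * x + 1) → 2 * y ≤ 5 * b + 1 →
    ‖∑ i ∈ Finset.Ico x y, ee (d * al (zz (i, b)))‖ ≤ b * (C / |(d : ℝ)|) := by
  have hT := th_uu_pos
  have hc0 : 0 < rlo 1 := by
    unfold rlo
    positivity
  have hrh : rlo 1 ≤ rhi 1 := by
    unfold rlo rhi
    gcongr
    norm_num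
  obtain ⟨B1, hB1⟩ := exp_large (2 * rhi 1) (1 / 4) (by norm_num)
  refine ⟨max 1 (2 / rlo 1), le_max_left _ _, max B1 1, ?_⟩
  intro b hb d hd hdb x y hx hy
  have hb' : 1 ≤ b := le_trans (le_max_right _ _) hb
  have hbr : (1 : ℝ) ≤ b := by exact_mod_cast hb'
  have hbp : (0 : ℝ) < b := by linarith
  have hB2 := hB1 b (le_trans (le_max_left _ _) hb)
  have hd0 : 0 < |(d : ℝ)| := by
    rw [abs_pos]
    exact_mod_cast hd
  rcases Nat.lt_or_ge y x with hyx | hxy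
  · rw [Finset.Ico_eq_empty_of_le hyx.le, Finset.sum_empty, _root_.norm_zero]
    positivity
  obtain ⟨g, hg1, hg2, hg3⟩ := reg_gen 1 b x y hb' hx hy d
  rw [hg1 x y le_rfl le_rfl]
  set lam : ℝ := rlo 1 * |(d : ℝ)| / (b : ℝ) ^ 1 with hlam
  have hlam0 : 0 < lam := by positivity
  have hLam : rhi 1 * |(d : ℝ)| / (b : ℝ) ^ 1 ≤ 1 / 2 := by
    rw [pow_one, div_le_iff₀ hbp]
    have h1 : (b : ℝ) = (b : ℝ) ^ ((3 : ℝ) / 4) * (b : ℝ) ^ ((1 : ℝ) / 4) := by
      rw [← Real.rpow_add hbp]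
      norm_num
    have h2 : rhi 1 * |(d : ℝ)| ≤ rhi 1 * (b : ℝ) ^ ((3 : ℝ) / 4) :=
      mul_le_mul_of_nonneg_left hdb (hc0.le.trans hrh)
    have h3 : 0 ≤ (b : ℝ) ^ ((3 : ℝ) / 4) := by positivity
    have h4 : 1 / 2 * (b : ℝ) = 1 / 2 * ((b : ℝ) ^ ((3 : ℝ) / 4) * (b : ℝ) ^ ((1 : ℝ) / 4)) := by
      rw [← h1]
    rw [h4]
    nlinarith
  have hlam2 : lam ≤ 1 / 2 := by
    refine le_trans ?_ hLam
    rw [hlam]
    gcongr
  have hk := kusmin g x (y - x) lam hlam0 hlam2 (by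
    intro a ha ha2
    have := hg2 a ha (by omega)
    exact ⟨this.1, this.2.trans hLam⟩) (by
    intro a ha ha2
    exact hg3 a ha (by omega))
  rw [show x + (y - x) = y by omega] at hk
  refine hk.trans ?_
  rw [hlam, pow_one]
  have h5 : 2 / rlo 1 ≤ max 1 (2 / rlo 1) := le_max_right _ _
  have h6 : 2 / (rlo 1 * |(d : ℝ)| / b) = b * (2 / rlo 1 / |(d : ℝ)|) := by
    field_simp
  rw [h6]
  gcongr

end

end Pool.Agent.Lib.MP_0b748d_nt.MR
end

section

set_option autoImplicit false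

/-!
# The inner exponential sum for all intervals

Generalisation of `P/ExpSum.lean` (`reg_al`, `inner_small`, `inner_window`, `inner_all`): there
`b ∈ [B, 2B)` and `i ∈ [8B, 16B)`; here `b` is arbitrary, the interval `[x, y)` of `i` is arbitrary
with `19 b ≤ 13 (2 x + 1)` and `2 y ≤ 5 b + 1`, i.e. `19/13 ≤ (2 i + 1)/b ≤ 5`.
-/

namespace Pool.Agent.Lib.MP_0b748d_nt.MR

open Zsqrtd

noncomputable section

/-- one window of frequencies (copy `inner_window`; the theorem `weyl` allows all intervals of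
length at most `n`, take `n = 3 b`) -/
theorem inner_window_gen (k : ℕ) (hk : 1 ≤ k) (s s' r : ℝ) (hr : 0 < r) (hrs : r < s)
    (hrk : r ≤ k) (hs' : s' < 1 + r / 2) : ∃ δ : ℝ, 0 < δ ∧ ∃ B0 : ℕ, ∀ b : ℕ, B0 ≤ b →
    ∀ d : ℤ, (b : ℝ) ^ ((k : ℝ) + 1 - s') ≤ |(d : ℝ)| → |(d : ℝ)| ≤ (b : ℝ) ^ ((k : ℝ) + 1 - s) →
    ∀ x y : ℕ, 19 * b ≤ 13 * (2 * x + 1) → 2 * y ≤ 5 * b + 1 →
    ‖∑ i ∈ Finset.Ico x y, ee (d * al (zz (i, b)))‖ ≤ b * (b : ℝ) ^ (-δ) := by
  have hT := th_uu_pos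
  have hk' : (1 : ℝ) ≤ k := by exact_mod_cast hk
  obtain ⟨Cw, hCw, hw⟩ := weyl k
  set c : ℝ := rlo (k + 1) with hc
  have hc0 : 0 < c := by rw [hc, rlo]; positivity
  set C : ℝ := rhi (k + 1) with hC
  have hC0 : 0 < C := by rw [hC, rhi]; positivity
  have hcC : c ≤ C := by
    rw [hc, hC, rlo, rhi]
    apply div_le_div_of_nonneg_right _ hT.le
    have h1 : ((k + 1).factorial : ℝ) / (2 * (4 + ((k + 1 : ℕ) : ℝ)) ^ (k + 1 + 1)) ≤
        (k + 1).factorial := by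
      apply div_le_self (by positivity)
      have h2 : (1 : ℝ) ≤ (4 + ((k + 1 : ℕ) : ℝ)) ^ (k + 1 + 1) := by
        apply one_le_pow₀
        push_cast
        linarith
      linarith
    have h3 : (1 : ℝ) ≤ 50 ^ (k + 1 + 1) := one_le_pow₀ (by norm_num)
    have h4 : (0 : ℝ) ≤ (k + 1).factorial := by positivity
    nlinarith only [h1, h3]
  set δ' : ℝ := min (r / (2 * k)) (1 - s' + r / 2) / 2 with hδ'
  have hδ0 : 0 < δ' := by
    rw [hδ']
    have : 0 < min (r / (2 * k)) (1 - s' + r / 2) := lt_min (by positivity) (by linarith)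
    linarith
  have hδ1 : δ' < r / (2 * k) := by
    have := min_le_left (r / (2 * k)) (1 - s' + r / 2)
    rw [hδ'] at hδ0 ⊢
    linarith
  have hδ2 : δ' < 1 - s' + r / 2 := by
    have := min_le_right (r / (2 * k)) (1 - s' + r / 2)
    rw [hδ'] at hδ0 ⊢
    linarith
  set δ : ℝ := δ' / 2 ^ k / 2 with hδ
  have hδp : 0 < δ := by positivity
  obtain ⟨B1, hB1⟩ := exp_large (2 * C) (s - r) (by linarith)
  obtain ⟨B2, hB2⟩ := exp_large 2 (r / (2 * k) - δ') (by linarith)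
  obtain ⟨B3, hB3⟩ := exp_large (2 ^ k / (3 * c)) (1 - s' + r / 2 - δ') (by linarith)
  obtain ⟨B4, hB4⟩ := exp_large (3 * Cw) δ hδp
  refine ⟨δ, hδp, max (max B1 B2) (max (max B3 B4) 1), ?_⟩
  intro B hB d hd1 hd2 x y hx hy
  simp only [max_le_iff] at hB
  obtain ⟨⟨hb1, hb2⟩, ⟨hb3, hb4⟩, hB'⟩ := hB
  replace hB1 := hB1 B hb1
  replace hB2 := hB2 B hb2
  replace hB3 := hB3 B hb3
  replace hB4 := hB4 B hb4
  have hBr : (1 : ℝ) ≤ B := by exact_mod_cast hB'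
  have hBp : (0 : ℝ) < B := by linarith only [hBr]
  obtain ⟨g, hg1, hg⟩ := reg_gen (k + 1) B x y hB' hx hy d
  rw [hg1 x y le_rfl le_rfl]
  rw [← hc, ← hC] at hg
  set q : ℝ := |(d : ℝ)| / (B : ℝ) ^ (k + 1) with hq
  have hq1 : (B : ℝ) ^ (-s') ≤ q := by
    rw [hq, le_div_iff₀ (by positivity)]
    refine le_trans (le_of_eq ?_) hd1
    rw [← Real.rpow_natCast, ← Real.rpow_add hBp]
    congr 1
    push_cast
    ring
  have hq2 : q ≤ (B : ℝ) ^ (-s) := by
    rw [hq, div_le_iff₀ (by positivity)]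
    refine le_trans hd2 (le_of_eq ?_)
    rw [← Real.rpow_natCast, ← Real.rpow_add hBp]
    congr 1
    push_cast
    ring
  have hq0 : 0 < q := lt_of_lt_of_le (by positivity) hq1
  have e1 : c * |(d : ℝ)| / (B : ℝ) ^ (k + 1) = c * q := by rw [hq]; ring
  have e2 : C * |(d : ℝ)| / (B : ℝ) ^ (k + 1) = C * q := by rw [hq]; ring
  rw [e1, e2] at hg
  -- the length of the shifts
  set u : ℝ := (B : ℝ) ^ (r / (2 * k)) with hu
  have hu1 : 1 ≤ u := Real.one_le_rpow hBr (by positivity)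
  have hu2 : u ^ 2 = (B : ℝ) ^ (r / k) := by
    rw [hu, ← Real.rpow_natCast, ← Real.rpow_mul hBp.le]
    congr 1
    push_cast
    field_simp
  have huk : u ^ k = (B : ℝ) ^ (r / 2) := by
    rw [hu, ← Real.rpow_natCast, ← Real.rpow_mul hBp.le]
    congr 1
    field_simp
  set R : ℕ := ⌊u ^ 2⌋₊ with hR
  have hR1 : 1 ≤ R := by
    rw [hR, Nat.one_le_floor_iff]
    nlinarith only [hu1]
  have hR1' : (1 : ℝ) ≤ R := by exact_mod_cast hR1
  have hRle : (R : ℝ) ≤ u ^ 2 := Nat.floor_le (by positivity)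
  have hRge : u ^ 2 / 2 ≤ R := by
    have := Nat.lt_floor_add_one (u ^ 2)
    rw [← hR] at this
    linarith only [hR1', this]
  have hsq : u / 2 ≤ √(R : ℝ) := by
    apply Real.le_sqrt_of_sq_le
    linarith only [hRge]
  have hRB : R ≤ 3 * B := by
    have h1 : (R : ℝ) ≤ B := by
      refine hRle.trans ?_
      rw [hu2]
      calc (B : ℝ) ^ (r / k) ≤ (B : ℝ) ^ (1 : ℝ) := by
            apply Real.rpow_le_rpow_of_exponent_le hBr
            rw [div_le_one (by linarith only [hk'])]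
            exact hrk
        _ = B := Real.rpow_one _
    have h2 : R ≤ B := by exact_mod_cast h1
    omega
  have hRk : (R : ℝ) ^ k ≤ (B : ℝ) ^ r := by
    calc (R : ℝ) ^ k ≤ (u ^ 2) ^ k := pow_le_pow_left₀ (by positivity) hRle k
      _ = (u ^ k) ^ 2 := by rw [← pow_mul, ← pow_mul, mul_comm]
      _ = (B : ℝ) ^ r := by
        rw [huk, ← Real.rpow_natCast, ← Real.rpow_mul hBp.le]
        congr 1
        push_cast
        ring
  have key := hw (3 * B) R x y (c * q) (C * q) ((B : ℝ) ^ (-δ')) g hR1 hRB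
    (by omega) (by positivity) (mul_le_mul_of_nonneg_right hcC hq0.le) (by
      calc (R : ℝ) ^ k * (C * q) ≤ (B : ℝ) ^ r * (C * (B : ℝ) ^ (-s)) := by gcongr
        _ = C / (B : ℝ) ^ (s - r) := by
          rw [eq_div_iff (by positivity)]
          have : (B : ℝ) ^ r * (B : ℝ) ^ (-s) * (B : ℝ) ^ (s - r) = 1 := by
            rw [← Real.rpow_add hBp, ← Real.rpow_add hBp]
            rw [show r + -s + (s - r) = 0 by ring, Real.rpow_zero]
          linear_combination C * this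
        _ ≤ 1 / 2 := by
          rw [div_le_iff₀ (by positivity)]
          linarith only [hB1]) hg (by
      rw [Real.rpow_neg hBp.le, ← one_div]
      apply one_div_le_one_div_of_le (by positivity)
      refine le_trans ?_ hsq
      rw [le_div_iff₀ (by norm_num)]
      calc (B : ℝ) ^ δ' * 2 ≤ (B : ℝ) ^ δ' * (B : ℝ) ^ (r / (2 * k) - δ') := by gcongr
        _ = u := by
          rw [← Real.rpow_add hBp, hu]
          congr 1
          ring) (by
      rw [Real.rpow_neg hBp.le, ← one_div]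
      apply one_div_le_one_div_of_le (by positivity)
      have h1 : (B : ℝ) ^ (r / 2) / 2 ^ k ≤ √(R : ℝ) ^ k := by
        rw [← huk, ← div_pow]
        exact pow_le_pow_left₀ (by positivity) hsq k
      calc (B : ℝ) ^ δ' ≤ (3 * c / 2 ^ k) * ((B : ℝ) ^ δ' * (B : ℝ) ^ (1 - s' + r / 2 - δ')) := by
            have h2 : 1 ≤ (3 * c / 2 ^ k) * (B : ℝ) ^ (1 - s' + r / 2 - δ') := by
              rw [div_le_iff₀ (by positivity)] at hB3
              rw [div_mul_eq_mul_div, le_div_iff₀ (by positivity)]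
              linarith only [hB3]
            have h3 : 0 < (B : ℝ) ^ δ' := by positivity
            nlinarith only [h2, h3]
        _ = (3 * B) * (c * (B : ℝ) ^ (-s')) * ((B : ℝ) ^ (r / 2) / 2 ^ k) := by
            have h4 : (B : ℝ) ^ δ' * (B : ℝ) ^ (1 - s' + r / 2 - δ') =
                B * (B : ℝ) ^ (-s') * (B : ℝ) ^ (r / 2) := by
              rw [← Real.rpow_add hBp]
              nth_rewrite 2 [← Real.rpow_one (B : ℝ)]
              rw [← Real.rpow_add hBp, ← Real.rpow_add hBp]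
              congr 1
              ring
            rw [h4]
            ring
        _ ≤ ((3 * B : ℕ) : ℝ) * (c * q) * √(R : ℝ) ^ k := by
            push_cast
            gcongr) (by
      apply Real.rpow_le_one_of_one_le_of_nonpos hBr
      linarith only [hδ0])
  refine key.trans ?_
  have h5 : ((B : ℝ) ^ (-δ')) ^ ((1 : ℝ) / 2 ^ k) = (B : ℝ) ^ (-δ) * (B : ℝ) ^ (-δ) := by
    rw [← Real.rpow_mul hBp.le, ← Real.rpow_add hBp]
    congr 1
    rw [hδ]
    ring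
  rw [h5]
  have h6 : 3 * Cw * (B : ℝ) ^ (-δ) ≤ 1 := by
    rw [Real.rpow_neg hBp.le, ← div_eq_mul_inv, div_le_one (by positivity)]
    exact hB4
  have h7 : 0 ≤ (B : ℝ) * (B : ℝ) ^ (-δ) := by positivity
  push_cast
  nlinarith only [h6, h7]

end

end Pool.Agent.Lib.MP_0b748d_nt.MR
end

section

set_option autoImplicit false

/-!
# The inner exponential sum for all intervals

Generalisation of `P/ExpSum.lean` (`reg_al`, `inner_small`, `inner_window`, `inner_all`): there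
`b ∈ [B, 2B)` and `i ∈ [8B, 16B)`; here `b` is arbitrary, the interval `[x, y)` of `i` is arbitrary
with `19 b ≤ 13 (2 x + 1)` and `2 y ≤ 5 b + 1`, i.e. `19/13 ≤ (2 i + 1)/b ≤ 5`.
-/

namespace Pool.Agent.Lib.MP_0b748d_nt.MR

open Zsqrtd

noncomputable section

/-- large frequencies -/
lemma inner_all_gen (K : ℕ) : ∃ δ : ℝ, 0 < δ ∧ ∃ B0 : ℕ, ∀ b : ℕ, B0 ≤ b → ∀ d : ℤ,
    (b : ℝ) ^ ((3 : ℝ) / 4) < |(d : ℝ)| → |(d : ℝ)| ≤ (b : ℝ) ^ ((K : ℝ) + 3 / 4) →
    ∀ x y : ℕ, 19 * b ≤ 13 * (2 * x + 1) → 2 * y ≤ 5 * b + 1 →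
    ‖∑ i ∈ Finset.Ico x y, ee (d * al (zz (i, b)))‖ ≤ b * (b : ℝ) ^ (-δ) := by
  induction K with
  | zero =>
    refine ⟨1, one_pos, 0, ?_⟩
    intro B _ d h1 h2
    exfalso
    rw [Nat.cast_zero, zero_add] at h2
    linarith
  | succ K ih =>
    obtain ⟨δ1, hδ1, B1, h1⟩ := ih
    obtain ⟨δ2, hδ2, B2, h2⟩ := inner_window_gen (K + 1) (by omega) (3 / 4) (5 / 4) (5 / 8)
      (by norm_num) (by norm_num) (by push_cast; linarith [show (0 : ℝ) ≤ K by positivity])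
      (by norm_num)
    obtain ⟨δ3, hδ3, B3, h3⟩ := inner_window_gen (K + 1) (by omega) (1 / 4) (3 / 4) (3 / 16)
      (by norm_num) (by norm_num) (by push_cast; linarith [show (0 : ℝ) ≤ K by positivity])
      (by norm_num)
    refine ⟨min δ1 (min δ2 δ3), by positivity, max (max B1 B2) (max B3 1), ?_⟩
    intro b hB d hd1 hd2 x y hx hy
    simp only [max_le_iff] at hB
    obtain ⟨⟨hb1, hb2⟩, hb3, hB'⟩ := hB
    have hBr : (1 : ℝ) ≤ b := by exact_mod_cast hB'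
    have mono : ∀ δ, min δ1 (min δ2 δ3) ≤ δ → (b : ℝ) * (b : ℝ) ^ (-δ) ≤
        (b : ℝ) * (b : ℝ) ^ (-(min δ1 (min δ2 δ3))) := by
      intro δ h
      apply mul_le_mul_of_nonneg_left _ (by positivity)
      apply Real.rpow_le_rpow_of_exponent_le hBr
      linarith
    rcases le_or_gt |(d : ℝ)| ((b : ℝ) ^ ((K : ℝ) + 3 / 4)) with h | h
    · exact (h1 b hb1 d hd1 h x y hx hy).trans (mono _ (min_le_left _ _))
    rcases le_or_gt |(d : ℝ)| ((b : ℝ) ^ (((K + 1 : ℕ) : ℝ) + 1 - 3 / 4)) with h' | h'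
    · refine (h2 b hb2 d ?_ h' x y hx hy).trans
        (mono _ ((min_le_right _ _).trans (min_le_left _ _)))
      refine le_trans (le_of_eq ?_) h.le
      congr 1
      push_cast
      ring
    · refine (h3 b hb3 d h'.le ?_ x y hx hy).trans
        (mono _ ((min_le_right _ _).trans (min_le_right _ _)))
      refine le_trans hd2 (le_of_eq ?_)
      congr 1
      push_cast
      ring

/-- all frequencies (copy `inner_all` and combine with `inner_small_gen`) -/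
theorem inner (M : ℕ) : ∃ C δ : ℝ, 1 ≤ C ∧ 0 < δ ∧ ∃ B0 : ℕ, ∀ b : ℕ, B0 ≤ b → ∀ d : ℤ, d ≠ 0 →
    |(d : ℝ)| ≤ (b : ℝ) ^ M → ∀ x y : ℕ, 19 * b ≤ 13 * (2 * x + 1) → 2 * y ≤ 5 * b + 1 →
    ‖∑ i ∈ Finset.Ico x y, ee (d * al (zz (i, b)))‖ ≤ b * (C / |(d : ℝ)| + (b : ℝ) ^ (-δ)) := by
  obtain ⟨C, hC, B1, h1⟩ := inner_small_gen
  obtain ⟨δ, hδ, B2, h2⟩ := inner_all_gen M
  refine ⟨C, δ, hC, hδ, max (max B1 B2) 1, ?_⟩
  intro b hB d hd hdB x y hx hy
  simp only [max_le_iff] at hB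
  obtain ⟨⟨hb1, hb2⟩, hB'⟩ := hB
  have hBr : (1 : ℝ) ≤ b := by exact_mod_cast hB'
  have p1 : 0 ≤ C / |(d : ℝ)| := by positivity
  have p2 : 0 ≤ (b : ℝ) ^ (-δ) := by positivity
  have p3 : (0 : ℝ) ≤ b := by positivity
  rcases le_or_gt |(d : ℝ)| ((b : ℝ) ^ ((3 : ℝ) / 4)) with h | h
  · refine (h1 b hb1 d hd h x y hx hy).trans ?_
    gcongr
    linarith
  · refine (h2 b hb2 d h ?_ x y hx hy).trans ?_
    · refine hdB.trans ?_
      rw [← Real.rpow_natCast]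
      apply Real.rpow_le_rpow_of_exponent_le hBr
      linarith
    · gcongr
      linarith

end

end Pool.Agent.Lib.MP_0b748d_nt.MR
end

section

set_option autoImplicit false

/-!
# Character sums over elements
-/

namespace Pool.Agent.Lib.MP_0b748d_nt.MR

open Zsqrtd

noncomputable section

open Classical in
/-- the fundamental domain of `inner`: elements `z` with `19 im ≤ 13 re`, `re < 5 im` -/
def Vd (a b : ℝ) : Finset (ℤ√2) :=
  (((Finset.range (⌈20 * √b⌉₊ + 1)) ×ˢ (Finset.range (⌈20 * √b⌉₊ + 1))).image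
    (fun p => (⟨p.1, p.2⟩ : ℤ√2))).filter
    (fun z => OT z ∧ a ≤ nm z ∧ (nm z : ℝ) < b ∧ 19 * z.im < 13 * z.re ∧ z.re ≤ 5 * z.im)

private lemma vd_TP5 : TP ⟨5, 1⟩ := (TP_iff _).2 ⟨by simp, by simp [nm]⟩

private lemma vd_TP19 : TP ⟨19, 13⟩ := (TP_iff _).2 ⟨by simp, by simp [nm]⟩

private lemma vd_al : al (⟨19, 13⟩ : ℤ√2) = al ⟨5, 1⟩ + 1 := by
  have h1 : (⟨19, 13⟩ : ℤ√2) = un 1 * ⟨5, 1⟩ := by
    rw [un_one]
    ext <;> simp [uu]
  rw [h1, al_un vd_TP5]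
  simp

private lemma vd_range {z : ℤ√2} (hz : TP z) :
    (al ⟨5, 1⟩ ≤ al z ∧ al z < al ⟨5, 1⟩ + 1) ↔ (19 * z.im < 13 * z.re ∧ z.re ≤ 5 * z.im) := by
  have hpos := th_uu_pos
  have h1 : al ⟨5, 1⟩ ≤ al z ↔ z.re ≤ 5 * z.im := by
    rw [al, al, div_le_div_iff_of_pos_right hpos, th_le_iff vd_TP5 hz]
    simp only [det]
    constructor <;> intro h <;> linarith
  have h2 : al z < al ⟨5, 1⟩ + 1 ↔ 19 * z.im < 13 * z.re := by
    rw [← vd_al, al, al, div_lt_div_iff_of_pos_right hpos, th_lt_iff hz vd_TP19]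
    simp only [det]
    constructor <;> intro h <;> linarith
  rw [h1, h2, and_comm]

private lemma vd_bound {b : ℝ} {z : ℤ√2} (hz : TP z) (hb : (nm z : ℝ) < b)
    (h1 : 19 * z.im < 13 * z.re) (h2 : z.re ≤ 5 * z.im) :
    1 ≤ z.im ∧ (z.im : ℝ) ≤ 3 * √b := by
  have hrp := hz.re_pos
  have him : 1 ≤ z.im := by omega
  have hn : 23 * z.im ^ 2 ≤ 169 * nm z := by
    simp only [nm]
    nlinarith
  have hn' : 23 * (z.im : ℝ) ^ 2 ≤ 169 * nm z := by exact_mod_cast hn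
  have hb' : 0 ≤ b := by
    have := hz.nm_pos
    have h2 : (0 : ℝ) < nm z := by exact_mod_cast this
    linarith
  refine ⟨him, ?_⟩
  have h3 : (z.im : ℝ) ^ 2 ≤ (3 * √b) ^ 2 := by
    rw [mul_pow, Real.sq_sqrt hb']
    linarith
  exact (abs_le_of_sq_le_sq' h3 (by positivity)).2

/-- membership in the domain -/
theorem mem_Vd {a b : ℝ} {z : ℤ√2} :
    z ∈ Vd a b ↔ OT z ∧ a ≤ nm z ∧ (nm z : ℝ) < b ∧ 19 * z.im < 13 * z.re ∧ z.re ≤ 5 * z.im := by
  classical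
  unfold Vd
  rw [Finset.mem_filter]
  refine ⟨fun h => h.2, fun h => ⟨?_, h⟩⟩
  obtain ⟨hz, -, hb, h1, h2⟩ := h
  obtain ⟨h3, h4⟩ := vd_bound hz.1 hb h1 h2
  have hs : 0 ≤ √b := Real.sqrt_nonneg b
  have hre : (z.re : ℝ) ≤ 20 * √b := by
    have : (z.re : ℝ) ≤ 5 * z.im := by exact_mod_cast h2
    linarith
  have him : (z.im : ℝ) ≤ 20 * √b := by linarith
  have hc := Nat.le_ceil (20 * √b)
  have hre2 : z.re ≤ (⌈20 * √b⌉₊ : ℤ) := by
    have h2 : (z.re : ℝ) ≤ (⌈20 * √b⌉₊ : ℝ) := hre.trans hc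
    exact_mod_cast h2
  have him2 : z.im ≤ (⌈20 * √b⌉₊ : ℤ) := by
    have h2 : (z.im : ℝ) ≤ (⌈20 * √b⌉₊ : ℝ) := him.trans hc
    exact_mod_cast h2
  have hrp := hz.1.re_pos
  rw [Finset.mem_image]
  refine ⟨(z.re.toNat, z.im.toNat), ?_, ?_⟩
  · rw [Finset.mem_product, Finset.mem_range, Finset.mem_range]
    constructor <;> simp only <;> omega
  · ext
    · simp only
      omega
    · simp only
      omega

/-- elements of the domain -/
theorem Vd_im {a b : ℝ} {z : ℤ√2} (hz : z ∈ Vd a b) : 1 ≤ z.im ∧ (z.im : ℝ) ≤ 3 * √b := by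
  rw [mem_Vd] at hz
  exact vd_bound hz.1.1 hz.2.2.1 hz.2.2.2.1 hz.2.2.2.2

/-- the domain is a fundamental domain.

Proof. For `z` totally positive, `re z ≤ 5 im z` iff `det ⟨5,1⟩ z ≥ 0` iff `al ⟨5,1⟩ ≤ al z`
(`th_le_iff`), and `19 im z < 13 re z` iff `det z ⟨19,13⟩ > 0` iff `al z < al ⟨19,13⟩`
(`th_lt_iff`), where `⟨19,13⟩ = uu * ⟨5,1⟩`, so `al ⟨19,13⟩ = al ⟨5,1⟩ + 1`. Elements of the domain
have `im ≥ 1` and `nm z ≥ (361/169 - 2) im^2 ≥ im^2/8`, so `im ≤ 3 √b`, `re ≤ 15 √b`; hence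
membership in `Vd a b` is exactly the condition and `sum_domain` (with `c = al ⟨5,1⟩`)
applies. -/
theorem sum_Vd {M : Type*} [AddCommMonoid M] (φ : ℤ√2 → M) (hφ : Inv φ) (a b : ℝ) :
    ∑ z ∈ Vs a b, φ z = ∑ z ∈ Vd a b, φ z := by
  refine (sum_domain φ hφ a b (al ⟨5, 1⟩) (Vd a b) fun z => ?_).symm
  rw [mem_Vd]
  constructor
  · rintro ⟨h1, h2, h3, h4⟩
    exact ⟨h1, h2, h3, (vd_range h1.1).2 h4⟩
  · rintro ⟨h1, h2, h3, h4⟩
    exact ⟨h1, h2, h3, (vd_range h1.1).1 h4⟩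

end

end Pool.Agent.Lib.MP_0b748d_nt.MR
end

section

set_option autoImplicit false

/-!
# Character sums over elements
-/

namespace Pool.Agent.Lib.MP_0b748d_nt.MR

open Zsqrtd

noncomputable section

private lemma vs_ord {a b : ℝ} {v i1 i i2 : ℕ} (h1 : zz (i1, v) ∈ Vd a b)
    (h2 : zz (i2, v) ∈ Vd a b) (h3 : i1 ≤ i) (h4 : i ≤ i2) : zz (i, v) ∈ Vd a b := by
  rw [mem_Vd] at h1 h2 ⊢
  obtain ⟨-, a2, -, a4, -⟩ := h1
  obtain ⟨-, -, b3, -, b5⟩ := h2
  have n1 : nm (zz (i1, v)) ≤ nm (zz (i, v)) := by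
    simp only [nm, zz]
    have : (i1 : ℤ) ≤ i := by exact_mod_cast h3
    have h0 : (0 : ℤ) ≤ i1 := by positivity
    nlinarith
  have n2 : nm (zz (i, v)) ≤ nm (zz (i2, v)) := by
    simp only [nm, zz]
    have : (i : ℤ) ≤ i2 := by exact_mod_cast h4
    have h0 : (0 : ℤ) ≤ i := by positivity
    nlinarith
  simp only [zz] at a4 b5 ⊢
  have hi1 : (i1 : ℤ) ≤ i := by exact_mod_cast h3
  have hi2 : (i : ℤ) ≤ i2 := by exact_mod_cast h4
  have c1 : 19 * (v : ℤ) < 13 * (2 * (i : ℤ) + 1) := by linarith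
  have c2 : 2 * (i : ℤ) + 1 ≤ 5 * (v : ℤ) := by linarith
  refine ⟨⟨(TP_iff _).2 ⟨?_, ?_⟩, ?_⟩, ?_, ?_, c1, c2⟩
  · simp only
    positivity
  · simp only [nm]
    have h0 : (0 : ℤ) ≤ v := by positivity
    nlinarith
  · simp only
    omega
  · have : (nm (zz (i1, v)) : ℝ) ≤ nm (zz (i, v)) := by exact_mod_cast n1
    exact a2.trans this
  · have : (nm (zz (i, v)) : ℝ) ≤ nm (zz (i2, v)) := by exact_mod_cast n2
    exact this.trans_lt b3

private lemma vs_bd {a b : ℝ} {v i : ℕ} (h : zz (i, v) ∈ Vd a b) :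
    19 * v < 13 * (2 * i + 1) ∧ 2 * i + 1 ≤ 5 * v := by
  rw [mem_Vd] at h
  obtain ⟨-, -, -, h1, h2⟩ := h
  simp only [zz] at h1 h2
  constructor
  · exact_mod_cast h1
  · exact_mod_cast h2

private lemma vs_int (a b : ℝ) (v : ℕ) : ∃ x y : ℕ,
    (x < y → 19 * v ≤ 13 * (2 * x + 1) ∧ 2 * y ≤ 5 * v + 1) ∧
    ∀ i, i ∈ Finset.Ico x y ↔ zz (i, v) ∈ Vd a b := by
  classical
  set I := (Finset.range (5 * v + 1)).filter (fun i => zz (i, v) ∈ Vd a b) with hI
  have hmem : ∀ i, i ∈ I ↔ zz (i, v) ∈ Vd a b := by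
    intro i
    rw [hI, Finset.mem_filter, Finset.mem_range]
    refine ⟨fun h => h.2, fun h => ⟨?_, h⟩⟩
    have := vs_bd h
    omega
  rcases I.eq_empty_or_nonempty with he | hne
  · refine ⟨0, 0, fun h => absurd h (lt_irrefl _), fun i => ?_⟩
    rw [← hmem, he]
    simp
  · refine ⟨I.min' hne, I.max' hne + 1, fun _ => ?_, fun i => ?_⟩
    · have h1 := vs_bd ((hmem _).1 (I.min'_mem hne))
      have h2 := vs_bd ((hmem _).1 (I.max'_mem hne))
      constructor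
      · omega
      · omega
    · rw [Finset.mem_Ico]
      constructor
      · rintro ⟨h1, h2⟩
        exact vs_ord ((hmem _).1 (I.min'_mem hne)) ((hmem _).1 (I.max'_mem hne)) h1 (by omega)
      · intro h
        have h' := (hmem i).2 h
        exact ⟨I.min'_le i h', by have := I.le_max' i h'; omega⟩

/-- slicing the domain by the imaginary part.

Proof. Group `Vd a b` by `im = v ∈ [1, 3 √b]`. For fixed `v` the set of `re` is the set of odd
numbers in an interval: the conditions `19 v < 13 re`, `re ≤ 5 v`, `a + 2 v² ≤ re² < b + 2 v²`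
(`re > 0`) define an interval, so `re = 2 i + 1` with `i` in some `Ico x y`, which can be chosen
with `19 v ≤ 13 (2 x + 1)`, `2 y ≤ 5 v + 1` (if the slice is nonempty let `2 x + 1` be its least
and `2 (y - 1) + 1` its largest element, so `2 y - 1 ≤ 5 v`; if empty, take `x = y` with
`x = y` arbitrary admissible, or state the bound separately: the slice sum is `0`). -/
theorem slice_Vd (φ : ℤ√2 → ℂ) (a b : ℝ) (T : ℕ) (hT : 3 * √b ≤ T) : ∃ x y : ℕ → ℕ,
    (∀ v, x v < y v → 19 * v ≤ 13 * (2 * x v + 1) ∧ 2 * y v ≤ 5 * v + 1) ∧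
    ∑ z ∈ Vd a b, φ z = ∑ v ∈ Finset.Icc 1 T, ∑ i ∈ Finset.Ico (x v) (y v), φ (zz (i, v)) := by
  choose x y hxy hmem using vs_int a b
  refine ⟨x, y, hxy, ?_⟩
  rw [Finset.sum_sigma']
  refine Finset.sum_nbij' (fun z => ⟨z.im.toNat, ((z.re - 1) / 2).toNat⟩)
    (fun p => zz (p.2, p.1)) ?_ ?_ ?_ ?_ ?_
  · intro z hz
    have h1 := Vd_im hz
    have h2 := (mem_Vd.1 hz).1
    have hrp := h2.1.re_pos
    have hodd := h2.2
    have e : zz (((z.re - 1) / 2).toNat, z.im.toNat) = z := by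
      ext
      · simp only [zz]
        omega
      · simp only [zz]
        omega
    rw [Finset.mem_sigma]
    refine ⟨?_, ?_⟩
    · rw [Finset.mem_Icc]
      refine ⟨by have := h1.1; simp only; omega, ?_⟩
      have h3 : (z.im : ℝ) ≤ T := h1.2.trans hT
      have h4 : z.im ≤ T := by exact_mod_cast h3
      simp only
      omega
    · rw [hmem, e]
      exact hz
  · intro p hp
    rw [Finset.mem_sigma] at hp
    exact (hmem _ _).1 hp.2
  · intro z hz
    have h1 := Vd_im hz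
    have h2 := (mem_Vd.1 hz).1
    have hrp := h2.1.re_pos
    have hodd := h2.2
    ext
    · simp only [zz]
      omega
    · simp only [zz]
      omega
  · rintro ⟨v, i⟩ hp
    simp only [zz]
    congr 1
    omega
  · intro z hz
    have h1 := Vd_im hz
    have h2 := (mem_Vd.1 hz).1
    have hrp := h2.1.re_pos
    have hodd := h2.2
    have e : zz (((z.re - 1) / 2).toNat, z.im.toNat) = z := by
      ext
      · simp only [zz]
        omega
      · simp only [zz]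
        omega
    simp only
    rw [e]

end

end Pool.Agent.Lib.MP_0b748d_nt.MR
end

section

set_option autoImplicit false

/-!
# Character sums over elements
-/

namespace Pool.Agent.Lib.MP_0b748d_nt.MR

open Zsqrtd

noncomputable section

private lemma ee_sub_le (x y : ℝ) : ‖ee x - ee y‖ ≤ 8 * |x - y| := by
  have h1 : ee x - ee y = ee y * (ee (x - y) - 1) := by
    rw [mul_sub, mul_one, ← ee_add]
    congr 2
    ring
  rw [h1, _root_.norm_mul, norm_ee, one_mul, NearOrth_norm_ee_sub_one]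
  have h2 : |Real.sin (Real.pi * (x - y))| ≤ |Real.pi * (x - y)| := Real.abs_sin_le_abs
  rw [abs_mul, abs_of_pos Real.pi_pos] at h2
  have h3 := Real.pi_le_four
  have h4 := abs_nonneg (x - y)
  nlinarith

private lemma al_of_mem {a b : ℝ} {z : ℤ√2} (hz : z ∈ Vs a b) : 0 ≤ al z ∧ al z < 1 := by
  classical
  unfold Vs at hz
  rw [Finset.mem_filter] at hz
  exact hz.2.2.2.2

private lemma nm_of_mem {a b : ℝ} {z : ℤ√2} (hz : z ∈ Vs a b) : OT z ∧ a ≤ nm z ∧ (nm z : ℝ) < b := by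
  classical
  unfold Vs at hz
  rw [Finset.mem_filter] at hz
  exact ⟨hz.2.1, hz.2.2.1, hz.2.2.2.1⟩

open Classical in
private lemma class_card {a b C : ℝ} (hC : ∀ α : ℝ, 0 ≤ α → α ≤ 1 →
    |(((Vs a b).filter (fun z => al z < α)).card : ℝ) - kap * (b - a) * α| ≤ C * √b)
    (m : ℕ) (hm : 0 < m) (t : ℕ) (ht : t < m) :
    |(((Vs a b).filter (fun z => ⌊(m : ℝ) * al z⌋₊ = t)).card : ℝ) - kap * (b - a) / m| ≤
      2 * (C * √b) := by
  have hm' : (0 : ℝ) < m := by exact_mod_cast hm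
  have ht' : (t : ℝ) + 1 ≤ m := by exact_mod_cast ht
  have h1 := hC ((t + 1 : ℝ) / m) (by positivity) (by rw [div_le_one hm']; exact ht')
  have h2 := hC ((t : ℝ) / m) (by positivity) (by rw [div_le_one hm']; linarith)
  have key : ∀ s : ℕ, ∀ z ∈ Vs a b, (al z < (s : ℝ) / m ↔ ⌊(m : ℝ) * al z⌋₊ < s) := by
    intro s z hz
    have h0 := (al_of_mem hz).1
    rw [Nat.floor_lt (by positivity), lt_div_iff₀ hm', mul_comm]
  have e1 : (Vs a b).filter (fun z => al z < ((t + 1 : ℝ)) / m) =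
      (Vs a b).filter (fun z => ⌊(m : ℝ) * al z⌋₊ = t) ∪
        (Vs a b).filter (fun z => al z < (t : ℝ) / m) := by
    ext z
    simp only [Finset.mem_union, Finset.mem_filter]
    constructor
    · rintro ⟨hz, h⟩
      have h3 := (key (t + 1) z hz).1 (by push_cast; exact h)
      by_cases h4 : ⌊(m : ℝ) * al z⌋₊ = t
      · exact Or.inl ⟨hz, h4⟩
      · exact Or.inr ⟨hz, (key t z hz).2 (by omega)⟩
    · rintro (⟨hz, h⟩ | ⟨hz, h⟩)
      · refine ⟨hz, ?_⟩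
        have := (key (t + 1) z hz).2 (by omega)
        push_cast at this
        exact this
      · refine ⟨hz, h.trans ?_⟩
        gcongr
        linarith
  have e2 : Disjoint ((Vs a b).filter (fun z => ⌊(m : ℝ) * al z⌋₊ = t))
      ((Vs a b).filter (fun z => al z < (t : ℝ) / m)) := by
    rw [Finset.disjoint_left]
    intro z hz hz2
    rw [Finset.mem_filter] at hz hz2
    have := (key t z hz.1).1 hz2.2
    omega
  have e3 := Finset.card_union_of_disjoint e2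
  rw [← e1] at e3
  have e4 : ((((Vs a b).filter (fun z => al z < ((t + 1 : ℝ)) / m)).card : ℕ) : ℝ) =
      (((Vs a b).filter (fun z => ⌊(m : ℝ) * al z⌋₊ = t)).card : ℝ) +
        (((Vs a b).filter (fun z => al z < (t : ℝ) / m)).card : ℝ) := by
    rw [e3]
    push_cast
    rfl
  have e5 : kap * (b - a) * ((t + 1 : ℝ) / m) - kap * (b - a) * ((t : ℝ) / m) =
      kap * (b - a) / m := by
    field_simp
    ring
  have h1' := abs_le.1 h1
  have h2' := abs_le.1 h2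
  rw [abs_le]
  constructor <;> linarith [h1'.1, h1'.2, h2'.1, h2'.2]

/-- small frequencies.

Proof. We may assume `a ≤ b` (else `Vs a b = ∅`). Let `m = ⌈b^(1/4)⌉`. Split `Vs a b` by
`t = ⌊m al z⌋ ∈ [0, m)`. By `V_sector` (difference of the counts for `α = (t+1)/m` and `t/m`) the
class `t` has `kap (b-a)/m + O(√b)` elements, and for `z` in the class
`|xi j z - ee (j t/m)| ≤ 2 π |j|/m`. Hence the sum is
`∑_t ee(j t/m) (kap (b-a)/m) + O(m √b + (|j|/m) b)`. Since `0 < |j| ≤ b^(1/16) < m` (when `b > 1`;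
`b = 1` is trivial as `Vs a 1 = ∅`), the first sum is `0` (`orth` in `P/FourierCore`, or geometric
sum). Finally `m √b ≤ 2 b^(3/4)` and `(|j|/m) b ≤ b^(1 + 1/16 - 1/4) ≤ b^(7/8)`. -/
theorem V_small : ∃ C : ℝ, 1 ≤ C ∧ ∀ a b : ℝ, 0 ≤ a → 1 ≤ b → ∀ j : ℤ, j ≠ 0 →
    |(j : ℝ)| ≤ b ^ ((1 : ℝ) / 16) → ‖∑ z ∈ Vs a b, xi j z‖ ≤ C * b ^ ((7 : ℝ) / 8) := by
  classical
  obtain ⟨C, hC0, hC⟩ := V_sector
  obtain ⟨C', hC'1, hC'⟩ := V_le
  refine ⟨4 * C + 8 * C', by linarith, fun a b ha hb j hj hjb => ?_⟩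
  have hb0 : (0 : ℝ) < b := by linarith
  have hpow : 0 ≤ b ^ ((7 : ℝ) / 8) := Real.rpow_nonneg hb0.le _
  rcases hb.eq_or_lt with hb1 | hb1
  · -- `b = 1`
    have he : Vs a b = ∅ := Vs_empty hb1.symm.le
    rw [he, Finset.sum_empty, _root_.norm_zero]
    positivity
  rcases lt_or_ge b a with hab | hab
  · have he : Vs a b = ∅ := by
      rw [Finset.eq_empty_iff_forall_notMem]
      intro z hz
      obtain ⟨h1, h2, h3⟩ := nm_of_mem hz
      linarith
    rw [he, Finset.sum_empty, _root_.norm_zero]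
    positivity
  set m : ℕ := ⌈b ^ ((1 : ℝ) / 4)⌉₊ with hm
  have hb14 : 1 ≤ b ^ ((1 : ℝ) / 4) := Real.one_le_rpow hb (by norm_num)
  have hmb : b ^ ((1 : ℝ) / 4) ≤ m := Nat.le_ceil _
  have hm0 : (0 : ℝ) < m := by linarith
  have hm0' : 0 < m := by exact_mod_cast hm0
  have hm2 : (m : ℝ) ≤ 2 * b ^ ((1 : ℝ) / 4) := by
    have := Nat.ceil_lt_add_one (a := b ^ ((1 : ℝ) / 4)) (by linarith)
    rw [← hm] at this
    linarith
  have hjm : ¬ (m : ℤ) ∣ j := by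
    intro h
    have h1 := Int.le_of_dvd (abs_pos.2 hj) ((dvd_abs _ _).2 h)
    have h2 : (m : ℝ) ≤ |(j : ℝ)| := by exact_mod_cast h1
    have h3 : b ^ ((1 : ℝ) / 16) < b ^ ((1 : ℝ) / 4) :=
      Real.rpow_lt_rpow_of_exponent_lt hb1 (by norm_num)
    linarith
  -- fibres
  have hmaps : ∀ z ∈ Vs a b, ⌊(m : ℝ) * al z⌋₊ ∈ Finset.range m := by
    intro z hz
    obtain ⟨h0, h1⟩ := al_of_mem hz
    rw [Finset.mem_range, Nat.floor_lt (by positivity)]
    nlinarith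
  have hfib := Finset.sum_fiberwise_of_maps_to hmaps (fun z => xi j z)
  rw [← hfib]
  have hcardfib := Finset.card_eq_sum_card_fiberwise hmaps
  set N : ℕ → ℝ := fun t => (((Vs a b).filter (fun z => ⌊(m : ℝ) * al z⌋₊ = t)).card : ℝ) with hN
  have hNcard : ∀ t ∈ Finset.range m, |N t - kap * (b - a) / m| ≤ 2 * (C * √b) := by
    intro t ht
    exact class_card (fun α h0 h1 => hC a b α ha hab h0 h1) m hm0' t (Finset.mem_range.1 ht)
  have hinner : ∀ t ∈ Finset.range m,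
      ‖(∑ z ∈ Vs a b with ⌊(m : ℝ) * al z⌋₊ = t, xi j z) - (N t : ℂ) * ee (j * (t / m : ℝ))‖ ≤
        N t * (8 * (|(j : ℝ)| / m)) := by
    intro t ht
    have h1 : (N t : ℂ) * ee (j * (t / m : ℝ)) =
        ∑ z ∈ Vs a b with ⌊(m : ℝ) * al z⌋₊ = t, ee (j * (t / m : ℝ)) := by
      rw [Finset.sum_const, nsmul_eq_mul]
      simp [hN]
    rw [h1, ← Finset.sum_sub_distrib]
    refine (norm_sum_le _ _).trans ?_
    have h2 : N t * (8 * (|(j : ℝ)| / m)) =
        ∑ z ∈ Vs a b with ⌊(m : ℝ) * al z⌋₊ = t, (8 * (|(j : ℝ)| / m)) := by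
      rw [Finset.sum_const, nsmul_eq_mul]
    rw [h2]
    refine Finset.sum_le_sum fun z hz => ?_
    rw [Finset.mem_filter] at hz
    obtain ⟨h3, h4⟩ := al_of_mem hz.1
    have h5 : (t : ℝ) ≤ m * al z := by
      rw [← hz.2]
      exact Nat.floor_le (by positivity)
    have h6 : (m : ℝ) * al z < t + 1 := by
      have := Nat.lt_floor_add_one ((m : ℝ) * al z)
      rw [hz.2] at this
      exact this
    refine (ee_sub_le _ _).trans ?_
    have h7 : (j : ℝ) * al z - j * (t / m : ℝ) = j * ((m * al z - t) / m) := by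
      field_simp
    rw [h7, abs_mul, abs_div, abs_of_pos hm0]
    have h8 : |(m : ℝ) * al z - t| ≤ 1 := by
      rw [abs_le]
      constructor <;> linarith
    have h9 : |(m : ℝ) * al z - t| / m ≤ 1 / m := by gcongr
    have h10 := abs_nonneg (j : ℝ)
    calc 8 * (|(j : ℝ)| * (|(m : ℝ) * al z - t| / m)) ≤ 8 * (|(j : ℝ)| * (1 / m)) := by gcongr
      _ = 8 * (|(j : ℝ)| / m) := by ring
  -- main decomposition
  have horth := FourierCore.orth m hm0' j hjm
  have hdecomp : ∑ t ∈ Finset.range m, ∑ z ∈ Vs a b with ⌊(m : ℝ) * al z⌋₊ = t, xi j z =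
      (∑ t ∈ Finset.range m, ((∑ z ∈ Vs a b with ⌊(m : ℝ) * al z⌋₊ = t, xi j z) -
        (N t : ℂ) * ee (j * (t / m : ℝ)))) +
      ∑ t ∈ Finset.range m, ((N t - kap * (b - a) / m : ℝ) : ℂ) * ee (j * (t / m : ℝ)) := by
    have h1 : ∑ t ∈ Finset.range m, ((kap * (b - a) / m : ℝ) : ℂ) * ee (j * (t / m : ℝ)) = 0 := by
      rw [← Finset.mul_sum, horth, mul_zero]
    rw [← Finset.sum_add_distrib]
    rw [← sub_eq_zero, ← Finset.sum_sub_distrib]
    rw [← h1]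
    refine Finset.sum_congr rfl fun t _ => ?_
    push_cast
    ring
  rw [hdecomp]
  refine (norm_add_le _ _).trans ?_
  have hA : ‖∑ t ∈ Finset.range m, ((∑ z ∈ Vs a b with ⌊(m : ℝ) * al z⌋₊ = t, xi j z) -
        (N t : ℂ) * ee (j * (t / m : ℝ)))‖ ≤ 8 * C' * b ^ ((7 : ℝ) / 8) := by
    refine (norm_sum_le _ _).trans ((Finset.sum_le_sum hinner).trans ?_)
    rw [← Finset.sum_mul]
    have h1 : ∑ t ∈ Finset.range m, N t = ((Vs a b).card : ℝ) := by
      rw [hcardfib]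
      push_cast
      rfl
    rw [h1]
    have h2 := hC' a b ha hb0.le
    have h3 : |(j : ℝ)| / m ≤ b ^ ((-1 : ℝ) / 8) := by
      have h4 : |(j : ℝ)| / m ≤ b ^ ((1 : ℝ) / 16) / b ^ ((1 : ℝ) / 4) := by gcongr
      refine h4.trans ?_
      rw [← Real.rpow_sub hb0]
      exact Real.rpow_le_rpow_of_exponent_le hb (by norm_num)
    have h5 : b ^ ((7 : ℝ) / 8) = b * b ^ ((-1 : ℝ) / 8) := by
      nth_rewrite 2 [← Real.rpow_one b]
      rw [← Real.rpow_add hb0]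
      norm_num
    have h6 : 0 ≤ |(j : ℝ)| / m := by positivity
    calc ((Vs a b).card : ℝ) * (8 * (|(j : ℝ)| / m)) ≤ (C' * b) * (8 * b ^ ((-1 : ℝ) / 8)) := by
          gcongr
      _ = 8 * C' * b ^ ((7 : ℝ) / 8) := by rw [h5]; ring
  have hB : ‖∑ t ∈ Finset.range m, ((N t - kap * (b - a) / m : ℝ) : ℂ) * ee (j * (t / m : ℝ))‖ ≤
      4 * C * b ^ ((7 : ℝ) / 8) := by
    refine (norm_sum_le _ _).trans ?_
    have h1 : ∀ t ∈ Finset.range m,
        ‖((N t - kap * (b - a) / m : ℝ) : ℂ) * ee (j * (t / m : ℝ))‖ ≤ 2 * (C * √b) := by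
      intro t ht
      rw [_root_.norm_mul, norm_ee, mul_one, Complex.norm_real, Real.norm_eq_abs]
      exact hNcard t ht
    refine (Finset.sum_le_sum h1).trans ?_
    rw [Finset.sum_const, Finset.card_range, nsmul_eq_mul]
    have h2 : √b = b ^ ((1 : ℝ) / 2) := Real.sqrt_eq_rpow b
    have h3 : b ^ ((1 : ℝ) / 4) * b ^ ((1 : ℝ) / 2) ≤ b ^ ((7 : ℝ) / 8) := by
      rw [← Real.rpow_add hb0]
      exact Real.rpow_le_rpow_of_exponent_le hb (by norm_num)
    have h4 : 0 ≤ b ^ ((1 : ℝ) / 2) := Real.rpow_nonneg hb0.le _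
    rw [h2]
    calc (m : ℝ) * (2 * (C * b ^ ((1 : ℝ) / 2)))
        ≤ (2 * b ^ ((1 : ℝ) / 4)) * (2 * (C * b ^ ((1 : ℝ) / 2))) := by gcongr
      _ = 4 * C * (b ^ ((1 : ℝ) / 4) * b ^ ((1 : ℝ) / 2)) := by ring
      _ ≤ 4 * C * b ^ ((7 : ℝ) / 8) := by gcongr
  calc _ ≤ 8 * C' * b ^ ((7 : ℝ) / 8) + 4 * C * b ^ ((7 : ℝ) / 8) := add_le_add hA hB
    _ = _ := by ring

end

end Pool.Agent.Lib.MP_0b748d_nt.MR
end

section

set_option autoImplicit false

/-!
# Character sums over elements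
-/

namespace Pool.Agent.Lib.MP_0b748d_nt.MR

open Zsqrtd

noncomputable section

/-- large frequencies.

Proof. `sum_Vd` (`xi_inv`) and `slice_Vd` with `T = ⌈3 √b⌉`. Let `δ, C, B0` be those of
`inner (4 M)`. For `v ≤ b^(1/4)` (or `v < B0`) bound the inner sum trivially by `3 v` (number of
`i` in `[x, y)` with `2 y ≤ 5 v + 1`), total `≤ C' b^(1/2)`. For `b^(1/4) < v ≤ T`, `v ≥ B0`:
`|j| ≤ b^M ≤ v^(4M)`, so the inner sum is `≤ v (C/|j| + v^(-δ)) ≤ v (C b^(-1/16) + b^(-δ/4))`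
and `∑_{v ≤ T} v ≤ T^2 ≤ 16 b`. So the total is `≤ C'' b^(1-η)` with
`η = min(1/16, δ/4)` (for `b ≥ 1`; `b^(1/2) ≤ b^(1-η)`). -/
theorem V_large (M : ℕ) : ∃ C η : ℝ, 1 ≤ C ∧ 0 < η ∧ η ≤ 1 / 4 ∧ ∀ a b : ℝ, 0 ≤ a → 1 ≤ b →
    ∀ j : ℤ, b ^ ((1 : ℝ) / 16) ≤ |(j : ℝ)| → |(j : ℝ)| ≤ b ^ M →
    ‖∑ z ∈ Vs a b, xi j z‖ ≤ C * b ^ (1 - η) := by
  obtain ⟨C0, δ, hC0, hδ, B0, hin⟩ := inner (4 * M)
  have hB0 : (0 : ℝ) ≤ B0 := Nat.cast_nonneg _
  refine ⟨16 * (C0 + 1) + 12 * (B0 + 1), min (1 / 16) (δ / 4), by linarith,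
    lt_min (by norm_num) (by positivity), (min_le_left _ _).trans (by norm_num), ?_⟩
  intro a b _ hb j hj1 hj2
  set η : ℝ := min (1 / 16) (δ / 4) with hη
  have hη1 : η ≤ 1 / 16 := min_le_left _ _
  have hη2 : η ≤ δ / 4 := min_le_right _ _
  have hb0 : 0 < b := by linarith
  have hsb : 1 ≤ √b := Real.one_le_sqrt.2 hb
  set T : ℕ := ⌈3 * √b⌉₊ with hT
  have hT1 : 3 * √b ≤ T := Nat.le_ceil _
  have hT2 : (T : ℝ) ≤ 4 * √b := by
    have := Nat.ceil_lt_add_one (show 0 ≤ 3 * √b by positivity)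
    rw [← hT] at this
    linarith
  obtain ⟨x, y, hxy, hsum⟩ := slice_Vd (xi j) a b T hT1
  rw [sum_Vd (xi j) (xi_inv j) a b, hsum]
  have hj0 : (0 : ℝ) < |(j : ℝ)| := lt_of_lt_of_le (Real.rpow_pos_of_pos hb0 _) hj1
  have hjne : j ≠ 0 := by
    rintro rfl
    simp at hj0
  have p16 : b ^ (-((1 : ℝ) / 16)) ≤ b ^ (-η) := Real.rpow_le_rpow_of_exponent_le hb (by linarith)
  have pδ : b ^ (-(δ / 4)) ≤ b ^ (-η) := Real.rpow_le_rpow_of_exponent_le hb (by linarith)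
  have hE0 : 0 < b ^ (-η) := Real.rpow_pos_of_pos hb0 _
  have h14 : 1 ≤ b ^ ((1 : ℝ) / 4) := Real.one_le_rpow hb (by norm_num)
  have key : ∀ v ∈ Finset.Icc 1 T, ‖∑ i ∈ Finset.Ico (x v) (y v), xi j (zz (i, v))‖ ≤
      T * ((C0 + 1) * b ^ (-η)) + 3 * (B0 + 1) * b ^ ((1 : ℝ) / 4) := by
    intro v hv
    rw [Finset.mem_Icc] at hv
    have hv1 : (1 : ℝ) ≤ v := by exact_mod_cast hv.1
    have hvT : (v : ℝ) ≤ T := by exact_mod_cast hv.2
    rcases Nat.lt_or_ge (x v) (y v) with hlt | hge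
    · obtain ⟨g1, g2⟩ := hxy v hlt
      have htriv : ‖∑ i ∈ Finset.Ico (x v) (y v), xi j (zz (i, v))‖ ≤ 3 * v := by
        calc ‖∑ i ∈ Finset.Ico (x v) (y v), xi j (zz (i, v))‖
            ≤ ∑ i ∈ Finset.Ico (x v) (y v), ‖xi j (zz (i, v))‖ := norm_sum_le _ _
          _ = ((y v - x v : ℕ) : ℝ) := by
              simp only [norm_xi, Finset.sum_const, Nat.card_Ico, nsmul_eq_mul, mul_one]
          _ ≤ ((3 * v : ℕ) : ℝ) := by
              apply Nat.cast_le.2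
              have := hv.1
              omega
          _ = 3 * v := by push_cast; ring
      by_cases hbig : (b : ℝ) ^ ((1 : ℝ) / 4) < v ∧ B0 ≤ v
      · obtain ⟨hb1, hb2⟩ := hbig
        have hpow : |(j : ℝ)| ≤ (v : ℝ) ^ (4 * M) := by
          refine hj2.trans ?_
          have e : b ^ M = (b ^ ((1 : ℝ) / 4)) ^ (4 * M) := by
            rw [pow_mul]
            congr 1
            rw [← Real.rpow_natCast, ← Real.rpow_mul hb0.le]
            norm_num
          rw [e]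
          exact pow_le_pow_left₀ (by linarith) hb1.le _
        have h1 := hin v hb2 j hjne hpow (x v) (y v) g1 g2
        have h2 : C0 / |(j : ℝ)| ≤ C0 * b ^ (-η) := by
          rw [div_eq_mul_inv]
          apply mul_le_mul_of_nonneg_left _ (by linarith)
          refine le_trans ?_ p16
          rw [Real.rpow_neg hb0.le]
          exact inv_anti₀ (Real.rpow_pos_of_pos hb0 _) hj1
        have h3 : (v : ℝ) ^ (-δ) ≤ b ^ (-η) := by
          refine le_trans ?_ pδ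
          have e : b ^ (-(δ / 4)) = (b ^ ((1 : ℝ) / 4)) ^ (-δ) := by
            rw [← Real.rpow_mul hb0.le]
            congr 1
            ring
          rw [e]
          exact Real.rpow_le_rpow_of_nonpos (by linarith) hb1.le (by linarith)
        have h4 : (v : ℝ) * (C0 / |(j : ℝ)| + (v : ℝ) ^ (-δ)) ≤ T * ((C0 + 1) * b ^ (-η)) := by
          have hnn : 0 ≤ C0 / |(j : ℝ)| + (v : ℝ) ^ (-δ) := by
            have : 0 ≤ C0 / |(j : ℝ)| := div_nonneg (by linarith) hj0.le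
            have := Real.rpow_nonneg (show (0 : ℝ) ≤ v by linarith) (-δ)
            linarith
          apply mul_le_mul hvT _ hnn (by linarith)
          linarith
        have h5 : 0 ≤ 3 * ((B0 : ℝ) + 1) * b ^ ((1 : ℝ) / 4) := by positivity
        exact (h1.trans h4).trans (by linarith)
      · have h6 : (v : ℝ) ≤ (B0 + 1) * b ^ ((1 : ℝ) / 4) := by
          rw [not_and_or, not_lt, not_le] at hbig
          rcases hbig with h7 | h7
          · refine h7.trans ?_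
            nlinarith
          · have h8 : (v : ℝ) ≤ B0 := by exact_mod_cast h7.le
            nlinarith
        have h7 : 0 ≤ (T : ℝ) * ((C0 + 1) * b ^ (-η)) := by positivity
        refine htriv.trans ?_
        linarith
    · rw [Finset.Ico_eq_empty (by omega), Finset.sum_empty, _root_.norm_zero]
      positivity
  have hT0 : (0 : ℝ) ≤ T := Nat.cast_nonneg _
  have hTT : (T : ℝ) * T ≤ 16 * b := by
    have h1 : √b * √b = b := Real.mul_self_sqrt hb0.le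
    have h2 : (T : ℝ) * T ≤ (4 * √b) * (4 * √b) := mul_le_mul hT2 hT2 hT0 (by positivity)
    linarith
  have e1 : b * b ^ (-η) = b ^ (1 - η) := by
    rw [sub_eq_add_neg, Real.rpow_add hb0, Real.rpow_one]
  have e2 : √b * b ^ ((1 : ℝ) / 4) ≤ b ^ (1 - η) := by
    rw [Real.sqrt_eq_rpow, ← Real.rpow_add hb0]
    apply Real.rpow_le_rpow_of_exponent_le hb
    linarith
  calc ‖∑ v ∈ Finset.Icc 1 T, ∑ i ∈ Finset.Ico (x v) (y v), xi j (zz (i, v))‖
      ≤ ∑ v ∈ Finset.Icc 1 T, ‖∑ i ∈ Finset.Ico (x v) (y v), xi j (zz (i, v))‖ := norm_sum_le _ _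
    _ ≤ ∑ v ∈ Finset.Icc 1 T,
          (T * ((C0 + 1) * b ^ (-η)) + 3 * (B0 + 1) * b ^ ((1 : ℝ) / 4)) := Finset.sum_le_sum key
    _ = T * T * ((C0 + 1) * b ^ (-η)) + 3 * (B0 + 1) * (T * b ^ ((1 : ℝ) / 4)) := by
        rw [Finset.sum_const, Nat.card_Icc, nsmul_eq_mul]
        simp only [Nat.add_sub_cancel]
        ring
    _ ≤ 16 * b * ((C0 + 1) * b ^ (-η)) + 3 * (B0 + 1) * (4 * √b * b ^ ((1 : ℝ) / 4)) := by
        gcongr
    _ = 16 * (C0 + 1) * (b * b ^ (-η)) + 12 * (B0 + 1) * (√b * b ^ ((1 : ℝ) / 4)) := by ring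
    _ ≤ 16 * (C0 + 1) * b ^ (1 - η) + 12 * (B0 + 1) * b ^ (1 - η) := by
        rw [e1]
        gcongr
    _ = _ := by ring

end

end Pool.Agent.Lib.MP_0b748d_nt.MR
end

section

set_option autoImplicit false

/-!
# Character sums over elements
-/

namespace Pool.Agent.Lib.MP_0b748d_nt.MR

open Zsqrtd

noncomputable section

/-- all frequencies: `V_small` and `V_large` -/
theorem V_exp (M : ℕ) : ∃ C η : ℝ, 1 ≤ C ∧ 0 < η ∧ η ≤ 1 / 8 ∧ ∀ a b : ℝ, 0 ≤ a → 1 ≤ b →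
    ∀ j : ℤ, j ≠ 0 → |(j : ℝ)| ≤ b ^ M → ‖∑ z ∈ Vs a b, xi j z‖ ≤ C * b ^ (1 - η) := by
  obtain ⟨C1, hC1, h1⟩ := V_small
  obtain ⟨C2, η2, hC2, hη, hη4, h2⟩ := V_large M
  refine ⟨max C1 C2, min (1 / 8) η2, hC1.trans (le_max_left _ _), lt_min (by norm_num) hη,
    min_le_left _ _, fun a b ha hb j hj hjM => ?_⟩
  have hb0 : 0 < b := by linarith
  rcases le_total |(j : ℝ)| (b ^ ((1 : ℝ) / 16)) with h | h
  · refine (h1 a b ha hb j hj h).trans ?_
    have e1 : b ^ ((7 : ℝ) / 8) ≤ b ^ (1 - min (1 / 8) η2) := by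
      apply Real.rpow_le_rpow_of_exponent_le hb
      have := min_le_left (1 / 8) η2
      linarith
    have e2 : 0 ≤ b ^ ((7 : ℝ) / 8) := by positivity
    exact mul_le_mul (le_max_left _ _) e1 e2 (by positivity)
  · refine (h2 a b ha hb j h hjM).trans ?_
    have e1 : b ^ (1 - η2) ≤ b ^ (1 - min (1 / 8) η2) := by
      apply Real.rpow_le_rpow_of_exponent_le hb
      have := min_le_right (1 / 8) η2
      linarith
    have e2 : 0 ≤ b ^ (1 - η2) := by positivity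
    have : 0 ≤ max C1 C2 := by have := hC1.trans (le_max_left C1 C2); linarith
    exact mul_le_mul (le_max_right _ _) e1 e2 this

private lemma ve_one {M : ℕ} {C C' η b c J T : ℝ} (hC : 1 ≤ C) (hη : 0 < η)
    (hη8 : η ≤ 1 / 8) (hb : 1 ≤ b) (hc : 1 ≤ c) (hJ : J ≤ b ^ M)
    (h1 : 1 ≤ b / c ^ 2 → J ≤ (b / c ^ 2) ^ (2 * M) → T ≤ C * (b / c ^ 2) ^ (1 - η))
    (h2 : T ≤ C' * (b / c ^ 2)) :
    T ≤ max C C' * b ^ (1 - η) * (1 / c ^ ((3 : ℝ) / 2)) := by
  have hb0 : 0 < b := by linarith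
  have hc0 : 0 < c := by linarith
  have hc2 : 0 < c ^ ((3 : ℝ) / 2) := by positivity
  rcases le_total c (b ^ ((1 : ℝ) / 4)) with h | h
  · have hcc : c ^ 2 ≤ b ^ ((1 : ℝ) / 2) := by
      calc c ^ 2 ≤ (b ^ ((1 : ℝ) / 4)) ^ 2 := by gcongr
        _ = b ^ ((1 : ℝ) / 2) := by
          rw [← Real.rpow_natCast, ← Real.rpow_mul hb0.le]
          norm_num
    have hbc : b ^ ((1 : ℝ) / 2) ≤ b / c ^ 2 := by
      rw [le_div_iff₀ (by positivity)]
      calc b ^ ((1 : ℝ) / 2) * c ^ 2 ≤ b ^ ((1 : ℝ) / 2) * b ^ ((1 : ℝ) / 2) := by gcongr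
        _ = b := by
          rw [← Real.rpow_add hb0]
          norm_num
    have hb1 : 1 ≤ b ^ ((1 : ℝ) / 2) := Real.one_le_rpow hb (by norm_num)
    have h3 := h1 (hb1.trans hbc) (by
      refine hJ.trans ?_
      calc b ^ M = (b ^ ((1 : ℝ) / 2)) ^ (2 * M) := by
            rw [← Real.rpow_natCast, ← Real.rpow_natCast, ← Real.rpow_mul hb0.le]
            congr 1
            push_cast
            ring
        _ ≤ (b / c ^ 2) ^ (2 * M) := by gcongr)
    refine h3.trans ?_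
    have h4 : (b / c ^ 2) ^ (1 - η) ≤ b ^ (1 - η) * (1 / c ^ ((3 : ℝ) / 2)) := by
      rw [Real.div_rpow hb0.le (by positivity), ← Real.rpow_natCast c 2, ← Real.rpow_mul hc0.le,
        div_eq_mul_one_div]
      refine mul_le_mul_of_nonneg_left ?_ (by positivity)
      refine one_div_le_one_div_of_le hc2 ?_
      apply Real.rpow_le_rpow_of_exponent_le hc
      push_cast
      linarith
    calc C * (b / c ^ 2) ^ (1 - η) ≤ max C C' * (b ^ (1 - η) * (1 / c ^ ((3 : ℝ) / 2))) :=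
          mul_le_mul (le_max_left _ _) h4 (by positivity) (by positivity)
      _ = _ := by ring
  · refine h2.trans ?_
    have h4 : b / c ^ 2 ≤ b ^ (1 - η) * (1 / c ^ ((3 : ℝ) / 2)) := by
      have e1 : b ^ ((1 : ℝ) / 8) ≤ c ^ ((1 : ℝ) / 2) := by
        calc b ^ ((1 : ℝ) / 8) = (b ^ ((1 : ℝ) / 4)) ^ ((1 : ℝ) / 2) := by
              rw [← Real.rpow_mul hb0.le]
              norm_num
          _ ≤ c ^ ((1 : ℝ) / 2) := by gcongr
      have e2 : c ^ 2 = c ^ ((3 : ℝ) / 2) * c ^ ((1 : ℝ) / 2) := by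
        rw [← Real.rpow_add hc0, ← Real.rpow_natCast]
        norm_num
      have e3 : b = b ^ ((7 : ℝ) / 8) * b ^ ((1 : ℝ) / 8) := by
        rw [← Real.rpow_add hb0]
        norm_num
      have e4 : b ^ ((7 : ℝ) / 8) ≤ b ^ (1 - η) := by
        apply Real.rpow_le_rpow_of_exponent_le hb
        linarith
      rw [e2, mul_one_div, div_le_div_iff₀ (by positivity) hc2]
      nth_rewrite 1 [e3]
      calc b ^ ((7 : ℝ) / 8) * b ^ ((1 : ℝ) / 8) * c ^ ((3 : ℝ) / 2) ≤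
            b ^ (1 - η) * c ^ ((1 : ℝ) / 2) * c ^ ((3 : ℝ) / 2) := by gcongr
        _ = b ^ (1 - η) * (c ^ ((3 : ℝ) / 2) * c ^ ((1 : ℝ) / 2)) := by ring
    calc C' * (b / c ^ 2) ≤ max C C' * (b ^ (1 - η) * (1 / c ^ ((3 : ℝ) / 2))) :=
          mul_le_mul (le_max_right _ _) h4 (by positivity) (by positivity)
      _ = _ := by ring

/-- primitive elements.

Proof. `sum_Us_moebius` with `φ = xi j` (`xi j (c z) = xi j z` by `al_nat_mul`), `T = ⌈√b⌉`. Let
`C, η` be those of `V_exp (2M)`. For `c ≤ b^(1/4)`: `b/c² ≥ b^(1/2) ≥ 1` and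
`|j| ≤ b^M ≤ (b/c²)^(2M)`, so the inner sum is `≤ C (b/c²)^(1-η) ≤ C b^(1-η) c^(-3/2)` (as
`2 (1-η) ≥ 3/2`). For `c > b^(1/4)` use `V_le`: `≤ C' b/c²`, and `∑_{c > b^(1/4)} 1/c² ≤
2 b^(-1/4)`. The sum is `≤ C'' b^(1-η)` because `∑ c^(-3/2)` converges and `η ≤ 1/8`. -/
theorem U_exp (M : ℕ) : ∃ C η : ℝ, 1 ≤ C ∧ 0 < η ∧ η ≤ 1 / 8 ∧ ∀ a b : ℝ, 0 ≤ a → 1 ≤ b →
    ∀ j : ℤ, j ≠ 0 → |(j : ℝ)| ≤ b ^ M → ‖∑ z ∈ Us a b, xi j z‖ ≤ C * b ^ (1 - η) := by
  obtain ⟨C, η, hC, hη, hη8, h1⟩ := V_exp (2 * M)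
  obtain ⟨C', hC', h2⟩ := V_le
  have hsum : Summable fun n : ℕ => 1 / (n : ℝ) ^ ((3 : ℝ) / 2) :=
    Real.summable_one_div_nat_rpow.2 (by norm_num)
  set S : ℝ := ∑' n : ℕ, 1 / (n : ℝ) ^ ((3 : ℝ) / 2) with hS
  have hS0 : 0 ≤ S := tsum_nonneg fun n => by positivity
  have hCm : 1 ≤ max C C' := hC.trans (le_max_left _ _)
  refine ⟨max C C' * (S + 1), η, by nlinarith, hη, hη8, fun a b ha hb j hj hjM => ?_⟩
  have hb0 : 0 < b := by linarith
  have hφ : ∀ c : ℕ, c % 2 = 1 → ∀ z, OT z → xi j (((c : ℕ) : ℤ√2) * z) = xi j z := by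
    intro c hc z hz
    unfold xi
    rw [al_nat_mul c (by omega) hz.1]
  rw [sum_Us_moebius (xi j) hφ a b ⌈√b⌉₊ (Nat.le_ceil _)]
  refine (norm_sum_le _ _).trans ?_
  have hterm : ∀ c ∈ (Finset.Icc 1 ⌈√b⌉₊).filter (fun c => c % 2 = 1),
      ‖((ArithmeticFunction.moebius c : ℤ) : ℂ) *
        ∑ w ∈ Vs (a / (c : ℝ) ^ 2) (b / (c : ℝ) ^ 2), xi j w‖ ≤
      max C C' * b ^ (1 - η) * (1 / (c : ℝ) ^ ((3 : ℝ) / 2)) := by
    intro c hc
    rw [Finset.mem_filter, Finset.mem_Icc] at hc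
    have hc1 : (1 : ℝ) ≤ c := by exact_mod_cast hc.1.1
    have hmu : ‖((ArithmeticFunction.moebius c : ℤ) : ℂ)‖ ≤ 1 := by
      rw [Complex.norm_intCast]
      exact_mod_cast ArithmeticFunction.abs_moebius_le_one
    rw [_root_.norm_mul]
    refine (mul_le_of_le_one_left (norm_nonneg _) hmu).trans ?_
    refine ve_one hC hη hη8 hb hc1 hjM (fun h3 h4 => ?_) ?_
    · exact h1 _ _ (by positivity) h3 j hj h4
    · calc ‖∑ w ∈ Vs (a / (c : ℝ) ^ 2) (b / (c : ℝ) ^ 2), xi j w‖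
          ≤ ∑ w ∈ Vs (a / (c : ℝ) ^ 2) (b / (c : ℝ) ^ 2), ‖xi j w‖ := norm_sum_le _ _
        _ = ((Vs (a / (c : ℝ) ^ 2) (b / (c : ℝ) ^ 2)).card : ℝ) := by
            rw [Finset.sum_congr rfl fun w _ => norm_xi j w, Finset.sum_const, nsmul_eq_mul,
              mul_one]
        _ ≤ C' * (b / (c : ℝ) ^ 2) := h2 _ _ (by positivity) (by positivity)
  refine (Finset.sum_le_sum hterm).trans ?_
  rw [← Finset.mul_sum]
  have h5 : ∑ c ∈ (Finset.Icc 1 ⌈√b⌉₊).filter (fun c => c % 2 = 1),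
      1 / (c : ℝ) ^ ((3 : ℝ) / 2) ≤ S := hsum.sum_le_tsum _ fun n _ => by positivity
  have h6 : 0 ≤ max C C' * b ^ (1 - η) := by positivity
  calc max C C' * b ^ (1 - η) * ∑ c ∈ (Finset.Icc 1 ⌈√b⌉₊).filter (fun c => c % 2 = 1),
        1 / (c : ℝ) ^ ((3 : ℝ) / 2) ≤ max C C' * b ^ (1 - η) * (S + 1) :=
        mul_le_mul_of_nonneg_left (by linarith) h6
    _ = _ := by ring

end

end Pool.Agent.Lib.MP_0b748d_nt.MR
end
end
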