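import Pool.Agent.Lib.MP_0b748d_nt.MR.ElDvdA
import Pool.Agent.Lib.MP_0b748d_nt.MR.TOp
import Pool.Agent.Lib.MP_0b748d_nt.MR.VExp
import Pool.Agent.Lib.MP_0b748d_nt.MR.UnitsA
import Pool.Agent.Lib.MP_0b748d_nt.MR.Sector

section

set_option autoImplicit false

/-!
# Multiplication of polynomials as an operator on coefficients
-/

namespace Pool.Agent.Lib.MP_0b748d_nt.MR

open Zsqrtd

noncomputable section

/-- the step maps `Us 0 Y` into `Us 0 Z` if `p * Y ≤ Z` -/
theorem TSum_mem {p : ℕ} (hp : Sp p) (s : Bool) {Y Z : ℝ} (hZ : (p : ℝ) * Y ≤ Z) {w : ℤ√2}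
    (hw : w ∈ Us 0 Y) : Tp p s w ∈ Us 0 Z := by
  obtain ⟨hc, h0, hY⟩ := mem_Us.1 hw
  have hp1 : (1 : ℤ) ≤ p := by exact_mod_cast hp.1.one_lt.le
  have hp1' : (1 : ℝ) ≤ p := by exact_mod_cast hp.1.one_lt.le
  have hp0 : (0 : ℝ) < p := by linarith
  have h0' : (0 : ℤ) ≤ nm w := by exact_mod_cast h0
  have hlt : (p : ℝ) * nm w < Z := lt_of_lt_of_le (mul_lt_mul_of_pos_left hY hp0) hZ
  refine mem_Us.2 ⟨Tp_can hp s hc, ?_, ?_⟩
  · by_cases h : el p (!s) ∣ w
    · have h1 := nm_Tp_down hp s hc h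
      have h2 : 0 ≤ nm (Tp p s w) := by
        by_contra h3
        push Not at h3
        nlinarith
      exact_mod_cast h2
    · have h1 := nm_Tp_up hp s hc h
      rw [h1]
      push_cast
      exact mul_nonneg hp0.le h0
  · by_cases h : el p (!s) ∣ w
    · have h1 := nm_Tp_down hp s hc h
      have h2 : 0 ≤ nm (Tp p s w) := by
        by_contra h3
        push Not at h3
        nlinarith
      have h3 : nm (Tp p s w) ≤ nm w := by nlinarith
      have h4 : (nm (Tp p s w) : ℝ) ≤ nm w := by exact_mod_cast h3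
      have h5 : (nm w : ℝ) ≤ p * nm w := by nlinarith
      linarith
    · have h1 := nm_Tp_up hp s hc h
      rw [h1]
      push_cast
      exact hlt

/-- reindexing by one prime step.

Proof. `w ↦ Tp p s w` maps canonical primitive elements bijectively to themselves (`Tp_inv`), and
`xi k (el p s) * xi k w = xi k (Tp p s w)` (`xi_Tp`). The `w ∈ Us 0 Y` go to elements of norm
`≤ p nm w < p Y ≤ Z`. So the left-hand side is the sum over `w' = Tp p s w` of
`a (Tp p (!s) w') xi k w'`, and the `w' ∈ Us 0 Z` which do not arise have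
`Tp p (!s) w' ∉ Us 0 Y`, so their coefficient vanishes. -/
theorem sum_step {p : ℕ} (hp : Sp p) (s : Bool) (Y Z : ℝ) (hZ : (p : ℝ) * Y ≤ Z) (a : ℤ√2 → ℂ)
    (ha : ∀ w, w ∉ Us 0 Y → a w = 0) (k : ℤ) :
    xi k (el p s) * ∑ w ∈ Us 0 Y, a w * xi k w = ∑ w ∈ Us 0 Z, a (Tp p (!s) w) * xi k w := by
  rw [Finset.mul_sum]
  have hinv : ∀ w, Can w → Tp p s (Tp p (!s) w) = w := by
    intro w hw
    have h := Tp_inv hp (!s) hw
    rwa [Bool.not_not] at h
  refine Finset.sum_of_injOn (fun w => Tp p s w) ?_ ?_ ?_ ?_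
  · intro w hw w' hw' h
    have hc := (mem_Us.1 (Finset.mem_coe.1 hw)).1
    have hc' := (mem_Us.1 (Finset.mem_coe.1 hw')).1
    have h1 := Tp_inv hp s hc
    have h2 := Tp_inv hp s hc'
    have h3 : Tp p s w = Tp p s w' := h
    rw [← h1, ← h2, h3]
  · intro w hw
    exact Finset.mem_coe.2 (TSum_mem hp s hZ (Finset.mem_coe.1 hw))
  · intro w hw hnot
    have hc := (mem_Us.1 hw).1
    have h1 : Tp p (!s) w ∉ Us 0 Y := by
      intro h2
      exact hnot ⟨Tp p (!s) w, Finset.mem_coe.2 h2, hinv w hc⟩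
    rw [ha _ h1, zero_mul]
  · intro w hw
    have hc := (mem_Us.1 hw).1
    show xi k (el p s) * (a w * xi k w) = a (Tp p (!s) (Tp p s w)) * xi k (Tp p s w)
    rw [Tp_inv hp s hc, xi_Tp hp s hc]
    ring

/-- Proof: expand the product and use `sum_step` with `Z = Qm * Y` for every `(p, s)`; for
`w ∈ Us 0 (Qm*Y)`, `Can w`, so `opn I b a w = ∑_p ∑_s b p s * a (Tp p (!s) w)`. -/
theorem Q_mul_sum (I : Finset ℕ) (Y Qm : ℝ) (hY : 0 ≤ Y) (hQ : 1 ≤ Qm)
    (hI : ∀ p ∈ I, Sp p ∧ (p : ℝ) ≤ Qm)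
    (b : ℕ → Bool → ℂ) (a : ℤ√2 → ℂ) (ha : ∀ w, w ∉ Us 0 Y → a w = 0) (k : ℤ) :
    (∑ p ∈ I, ∑ s : Bool, b p s * xi k (el p s)) * ∑ w ∈ Us 0 Y, a w * xi k w =
      ∑ w ∈ Us 0 (Qm * Y), opn I b a w * xi k w := by
  have hR : ∀ w ∈ Us 0 (Qm * Y), opn I b a w * xi k w =
      ∑ p ∈ I, ∑ s : Bool, b p s * (a (Tp p (!s) w) * xi k w) := by
    intro w hw
    have hc := (mem_Us.1 hw).1
    unfold opn
    rw [if_pos hc, Finset.sum_mul]
    refine Finset.sum_congr rfl fun p _ => ?_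
    rw [Finset.sum_mul]
    refine Finset.sum_congr rfl fun s _ => ?_
    ring
  have hL : (∑ p ∈ I, ∑ s : Bool, b p s * xi k (el p s)) * ∑ w ∈ Us 0 Y, a w * xi k w =
      ∑ p ∈ I, ∑ s : Bool, ∑ w ∈ Us 0 (Qm * Y), b p s * (a (Tp p (!s) w) * xi k w) := by
    rw [Finset.sum_mul]
    refine Finset.sum_congr rfl fun p hp => ?_
    rw [Finset.sum_mul]
    refine Finset.sum_congr rfl fun s _ => ?_
    rw [← Finset.mul_sum, mul_assoc,
      sum_step (hI p hp).1 s Y (Qm * Y) (mul_le_mul_of_nonneg_right (hI p hp).2 hY) a ha k]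
  have hC : ∑ p ∈ I, ∑ s : Bool, ∑ w ∈ Us 0 (Qm * Y), b p s * (a (Tp p (!s) w) * xi k w) =
      ∑ w ∈ Us 0 (Qm * Y), ∑ p ∈ I, ∑ s : Bool, b p s * (a (Tp p (!s) w) * xi k w) := by
    rw [Finset.sum_comm' (s := Us 0 (Qm * Y)) (t := fun _ => I) (t' := I)
      (s' := fun _ => Us 0 (Qm * Y)) (by intro x y; tauto)]
    exact Finset.sum_congr rfl fun p _ => Finset.sum_comm
  rw [hL, hC]
  exact Finset.sum_congr rfl fun w hw => (hR w hw).symm

/-- Proof: `w` not canonical: `opn = 0` by definition. If `w` is canonical with `nm w ≥ Qm Y`,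
`nm (Tp p (!s) w) ≥ nm w/p ≥ Y` (`nm_Tp_down`, `nm_Tp_up`), so `a` vanishes there. -/
theorem opn_supp (I : Finset ℕ) (Y Qm : ℝ) (hY : 0 ≤ Y) (hQ : 1 ≤ Qm)
    (hI : ∀ p ∈ I, Sp p ∧ (p : ℝ) ≤ Qm)
    (b : ℕ → Bool → ℂ) (a : ℤ√2 → ℂ) (ha : ∀ w, w ∉ Us 0 Y → a w = 0) :
    ∀ w, w ∉ Us 0 (Qm * Y) → opn I b a w = 0 := by
  intro w hw
  unfold opn
  by_cases hc : Can w
  · rw [if_pos hc]
    refine Finset.sum_eq_zero fun p hp => Finset.sum_eq_zero fun s _ => ?_
    have h1 : Tp p (!s) w ∉ Us 0 Y := by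
      intro h2
      apply hw
      have h3 := TSum_mem (hI p hp).1 s (mul_le_mul_of_nonneg_right (hI p hp).2 hY) h2
      have h4 := Tp_inv (hI p hp).1 (!s) hc
      rw [Bool.not_not] at h4
      rwa [h4] at h3
    rw [ha _ h1, mul_zero]
  · rw [if_neg hc]

/-- iterated version: induction on `r` with `Q_mul_sum`, `opn_supp` -/
theorem Q_pow_sum (I : Finset ℕ) (Y Qm : ℝ) (hY : 0 ≤ Y) (hQ : 1 ≤ Qm)
    (hI : ∀ p ∈ I, Sp p ∧ (p : ℝ) ≤ Qm)
    (b : ℕ → Bool → ℂ) (a : ℤ√2 → ℂ) (ha : ∀ w, w ∉ Us 0 Y → a w = 0) (k : ℤ) (r : ℕ) :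
    (∑ p ∈ I, ∑ s : Bool, b p s * xi k (el p s)) ^ r * ∑ w ∈ Us 0 Y, a w * xi k w =
      ∑ w ∈ Us 0 (Qm ^ r * Y), (opn I b)^[r] a w * xi k w := by
  have key : (∀ w, w ∉ Us 0 (Qm ^ r * Y) → (opn I b)^[r] a w = 0) ∧
      (∑ p ∈ I, ∑ s : Bool, b p s * xi k (el p s)) ^ r * ∑ w ∈ Us 0 Y, a w * xi k w =
        ∑ w ∈ Us 0 (Qm ^ r * Y), (opn I b)^[r] a w * xi k w := by
    induction r with
    | zero =>
      refine ⟨?_, ?_⟩
      · intro w hw
        rw [pow_zero, one_mul] at hw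
        exact ha w hw
      · rw [pow_zero, pow_zero, one_mul, one_mul]
        rfl
    | succ r ih =>
      obtain ⟨ih1, ih2⟩ := ih
      have hYr : 0 ≤ Qm ^ r * Y := by positivity
      have hpow : Qm ^ (r + 1) * Y = Qm * (Qm ^ r * Y) := by ring
      refine ⟨?_, ?_⟩
      · intro w hw
        rw [Function.iterate_succ_apply']
        rw [hpow] at hw
        exact opn_supp I _ Qm hYr hQ hI b _ ih1 w hw
      · rw [pow_succ', mul_assoc, ih2, Q_mul_sum I _ Qm hYr hQ hI b _ ih1 k, hpow]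
        refine Finset.sum_congr rfl fun w _ => ?_
        rw [Function.iterate_succ_apply']
  exact key.2

end

end Pool.Agent.Lib.MP_0b748d_nt.MR
end

section

set_option autoImplicit false

/-!
# Mean value theorem and duality
-/

namespace Pool.Agent.Lib.MP_0b748d_nt.MR

open Zsqrtd

noncomputable section

/-- angles of different elements are separated modulo `1` -/
theorem Us_sep {H : ℝ} {v w : ℤ√2} (hv : v ∈ Us 0 H) (hw : w ∈ Us 0 H) (hne : v ≠ w) (k : ℤ) :
    1 / (8 * (⌈H⌉₊ : ℝ)) ≤ |al v - al w - k| := by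
  obtain ⟨⟨ov, pv, av0, av1⟩, -, bv⟩ := mem_Us.1 hv
  obtain ⟨⟨ow, pw, aw0, aw1⟩, -, bw⟩ := mem_Us.1 hw
  have hle : H ≤ (⌈H⌉₊ : ℝ) := Nat.le_ceil H
  have hv0 : 0 < nm v := ov.1.nm_pos
  have hv1 : (1 : ℝ) ≤ nm v := by exact_mod_cast hv0
  have hH1 : 1 ≤ ⌈H⌉₊ := Nat.one_le_ceil_iff.2 (by linarith)
  have h1 : nm v ≤ (⌈H⌉₊ : ℤ) := by
    have : (nm v : ℝ) ≤ ((⌈H⌉₊ : ℤ) : ℝ) := by push_cast; linarith
    exact_mod_cast this
  have h2 : nm w ≤ (⌈H⌉₊ : ℤ) := by
    have : (nm w : ℝ) ≤ ((⌈H⌉₊ : ℤ) : ℝ) := by push_cast; linarith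
    exact_mod_cast this
  refine freq_sep ov.1 ow.1 pv pw ⌈H⌉₊ hH1 h1 h2 ?_ k
  intro u hu huw
  have hs1 : 0 < s1 u := by
    have e1 : s1 v = s1 u * s1 w := by rw [huw, s1_mul]
    have e2 := ov.1.1
    rw [e1] at e2
    exact pos_of_mul_pos_left e2 ow.1.1.le
  have hs2 : 0 < s2 u := by
    have e1 : s2 v = s2 u * s2 w := by rw [huw, s2_mul]
    have e2 := ov.1.2
    rw [e1] at e2
    exact pos_of_mul_pos_left e2 ow.1.2.le
  obtain ⟨n, hn⟩ := eq_un ⟨hs1, hs2⟩ hu
  rw [hn] at huw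
  have e3 := al_un ow.1 n
  rw [← huw] at e3
  have e4 : n = 0 := by
    have h3 : (n : ℝ) < 1 := by linarith
    have h4 : (-1 : ℝ) < n := by linarith
    have h5 : n < 1 := by exact_mod_cast h3
    have h6 : -1 < n := by exact_mod_cast h4
    omega
  rw [e4, un_zero, one_mul] at huw
  exact hne huw

/-- mean value theorem.

Proof. `large_sieve` in `P/LargeSieve.lean` with `α = al`, `δ = 1/(8 H')`, `H' = ⌈H⌉`,
`T = max K (8 H')`. Separation: for `v ≠ w` in `Us 0 H`, `freq_sep` (`v ≠ u w` for units `u` of norm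
1: totally positive such `u` are `un n`; `v = u w` with `v, w` totally positive forces `u` totally
positive, `u = un n`, and `al v = al w + n` with both in `[0, 1)` gives `n = 0`, `v = w`).
`Ik K ⊆ Icc (-T) T`, `8 T ≤ 8 K + 64 (H + 1) ≤ 200 (K + H)`.
`xi k w = ee (k * al w)`. -/
theorem mv (H : ℝ) (hH : 1 ≤ H) (a : ℤ√2 → ℂ) (K : ℕ) :
    ∑ k ∈ Ik K, ‖∑ w ∈ Us 0 H, a w * xi k w‖ ^ 2 ≤
      200 * (K + H) * ∑ w ∈ Us 0 H, ‖a w‖ ^ 2 := by
  set H' : ℕ := ⌈H⌉₊ with hH'
  have hH1 : 1 ≤ H' := Nat.one_le_ceil_iff.2 (by linarith)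
  have hH1r : (1 : ℝ) ≤ H' := by exact_mod_cast hH1
  have hH2 : (H' : ℝ) < H + 1 := Nat.ceil_lt_add_one (by linarith)
  set T : ℕ := max K (8 * H') with hT
  have hTK : K ≤ T := le_max_left _ _
  have hTH : 8 * H' ≤ T := le_max_right _ _
  have hTr : (8 : ℝ) * H' ≤ T := by exact_mod_cast hTH
  have h1 := large_sieve (Us 0 H) a al (1 / (8 * (H' : ℝ))) T (by positivity)
    (by
      rw [mul_one_div, le_div_iff₀ (by positivity), one_mul]
      exact hTr)
    (fun i hi j hj hij k => Us_sep hi hj hij k)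
  have h2 : ∑ k ∈ Ik K, ‖∑ w ∈ Us 0 H, a w * xi k w‖ ^ 2 ≤
      ∑ m ∈ Finset.Icc (-(T : ℤ)) T, ‖∑ i ∈ Us 0 H, a i * ee (m * al i)‖ ^ 2 := by
    refine Finset.sum_le_sum_of_subset_of_nonneg ?_ fun _ _ _ => sq_nonneg _
    unfold Ik
    intro x hx
    rw [Finset.mem_Icc] at hx ⊢
    have : (K : ℤ) ≤ T := by exact_mod_cast hTK
    omega
  have h3 : 8 * (T : ℝ) ≤ 200 * (K + H) := by
    have h4 : (T : ℝ) ≤ K + 8 * H' := by
      have : T ≤ K + 8 * H' := by omega
      exact_mod_cast this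
    have h5 : (0 : ℝ) ≤ K := Nat.cast_nonneg K
    linarith
  refine h2.trans (h1.trans ?_)
  exact mul_le_mul_of_nonneg_right h3 (Finset.sum_nonneg fun _ _ => sq_nonneg _)

open Classical in
/-- consequence for multiplicative functions: `C (K + b) b`.

Proof. `mv` with `H = b`, coefficients `f w` on `Us a b ⊆ Us 0 b`, `0` elsewhere; `#Us ≤ C b`
(`U_le`). -/
theorem mv_Ap : ∃ C : ℝ, 1 ≤ C ∧ ∀ f : ℤ√2 → ℂ, MF f → ∀ a b : ℝ, 0 ≤ a → 1 ≤ b → ∀ K : ℕ,
    ∑ k ∈ Ik K, ‖Ap f k a b‖ ^ 2 ≤ C * (K + b) * b := by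
  obtain ⟨C, hC1, hC⟩ := U_le
  refine ⟨200 * C, by linarith, fun f hf a b ha hb K => ?_⟩
  set c : ℤ√2 → ℂ := fun w => if w ∈ Us a b then f w else 0 with hc
  have hsub : Us a b ⊆ Us 0 b := Us_mono ha le_rfl
  have h1 : ∀ k, Ap f k a b = ∑ w ∈ Us 0 b, c w * xi k w := by
    intro k
    unfold Ap
    rw [← Finset.sum_subset hsub (f := fun w => c w * xi k w)]
    · refine Finset.sum_congr rfl fun w hw => ?_
      simp only [hc, if_pos hw]
    · intro w _ hw
      simp only [hc, if_neg hw, zero_mul]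
  simp only [h1]
  refine (mv b hb c K).trans ?_
  have h2 : ∑ w ∈ Us 0 b, ‖c w‖ ^ 2 ≤ C * b := by
    refine le_trans ?_ (hC 0 b le_rfl (by linarith))
    have h3 : ∀ w ∈ Us 0 b, ‖c w‖ ^ 2 ≤ 1 := by
      intro w hw
      simp only [hc]
      split_ifs with h4
      · have h5 := hf.le w (mem_Us.1 h4).1.1
        exact pow_le_one₀ (norm_nonneg _) h5
      · simp
    have h6 := Finset.sum_le_card_nsmul (Us 0 b) _ _ h3
    rwa [nsmul_eq_mul, mul_one] at h6
  have h7 : (0 : ℝ) ≤ K := Nat.cast_nonneg K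
  calc 200 * (K + b) * ∑ w ∈ Us 0 b, ‖c w‖ ^ 2 ≤ 200 * (K + b) * (C * b) :=
        mul_le_mul_of_nonneg_left h2 (by positivity)
    _ = 200 * C * (K + b) * b := by ring

end

end Pool.Agent.Lib.MP_0b748d_nt.MR
end

section

section

set_option autoImplicit false

/-!
# The correction term from non-primitive products
-/

namespace Pool.Agent.Lib.MP_0b748d_nt.MR

open Zsqrtd

noncomputable section

open Classical in
/-- number of prime elements in the correction term -/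
def om2 (X P lam : ℝ) (n : ℕ) (w : ℤ√2) : ℝ :=
  ∑ v ∈ Finset.range n, ∑ p ∈ Ip (P * lam ^ v) (P * lam ^ (v + 1)), ∑ _s : Bool,
    if X / (P * lam ^ v) ≤ (p : ℝ) * nm w ∧ (p : ℝ) * nm w < 2 * X / (P * lam ^ (v + 1)) then 1
    else 0

/-- the conditions of `om2` locate `p`.

Proof. The blocks are disjoint (`Ip_split`), and the conditions with `P λ^v ≤ p < P λ^(v+1)` give
`X ≤ p * nm w * (P λ^v) ≤ p^2 nm w` and `p^2 nm w ≤ p nm w (P λ^(v+1)) < 2 X`. So
`y ≤ p < √2 y` with `y = √(X/nm w)`. Then use `cheb` for the number of primes below `√2 y`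
(note `√2 y > p ≥ P ≥ 2`; if the set is empty the sum is `0`). -/
theorem om2_le : ∃ C : ℝ, 1 ≤ C ∧ ∀ (X P lam : ℝ) (n : ℕ), 1 ≤ X → 2 ≤ P → 1 < lam →
    ∀ w : ℤ√2, 1 ≤ nm w → om2 X P lam n w ≤
      if P ^ 2 * nm w < 2 * X then
        C * (√(X / nm w) / Real.log (√2 * √(X / nm w))) else 0 := by
  classical
  obtain ⟨C, hC, hcheb⟩ := cheb
  refine ⟨3 * C, by linarith, ?_⟩
  intro X P lam n hX hP hlam w hw
  have hY : (1 : ℝ) ≤ (nm w : ℝ) := by exact_mod_cast hw
  set Y : ℝ := (nm w : ℝ) with hYdef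
  have hX0 : 0 < X := by linarith
  have hY0 : 0 < Y := by linarith
  have hlam0 : 0 < lam := by linarith
  -- location of `p`
  have hloc : ∀ v : ℕ, ∀ p ∈ Ip (P * lam ^ v) (P * lam ^ (v + 1)),
      X / (P * lam ^ v) ≤ (p : ℝ) * Y → (p : ℝ) * Y < 2 * X / (P * lam ^ (v + 1)) →
      (p : ℝ) ^ 2 * Y < 2 * X ∧ P ≤ p := by
    intro v p hp h1 h2
    obtain ⟨-, -, h3, h4⟩ := mem_Ip.1 hp
    have hPv : 0 < P * lam ^ v := by positivity
    have hPv1 : 0 < P * lam ^ (v + 1) := by positivity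
    have hlv : (1 : ℝ) ≤ lam ^ v := one_le_pow₀ hlam.le
    have hPp : P ≤ p := by nlinarith
    have hp0 : (0 : ℝ) < p := by linarith
    rw [lt_div_iff₀ hPv1] at h2
    refine ⟨?_, hPp⟩
    calc (p : ℝ) ^ 2 * Y = (p * Y) * p := by ring
      _ ≤ (p * Y) * (P * lam ^ (v + 1)) := mul_le_mul_of_nonneg_left h4.le (by positivity)
      _ < 2 * X := h2
  -- bound by a sum over all primes
  have hle : om2 X P lam n w ≤ 2 * ∑ p ∈ Ip P (P * lam ^ n),
      (if (p : ℝ) ^ 2 * Y < 2 * X then (1 : ℝ) else 0) := by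
    rw [Ip_split _ P lam (by linarith) hlam n, Finset.mul_sum]
    unfold om2
    apply Finset.sum_le_sum
    intro v _
    rw [Finset.mul_sum]
    apply Finset.sum_le_sum
    intro p hp
    rw [Finset.sum_const, Finset.card_univ, Fintype.card_bool, nsmul_eq_mul]
    push_cast
    apply mul_le_mul_of_nonneg_left _ (by norm_num)
    split_ifs with h1 h2
    · exact le_rfl
    · exact absurd (hloc v p hp h1.1 h1.2).1 h2
    · norm_num
    · exact le_rfl
  split_ifs with hcase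
  · -- Chebyshev
    have e1 : √2 * √(X / Y) = √(2 * X / Y) := by
      rw [← Real.sqrt_mul (by norm_num), mul_div_assoc]
    have hbig : P < √2 * √(X / Y) := by
      rw [e1]
      apply Real.lt_sqrt_of_sq_lt
      rw [lt_div_iff₀ hY0]
      exact hcase
    have h2 : (2 : ℝ) ≤ √2 * √(X / Y) := by linarith
    have h3 := hcheb P (√2 * √(X / Y)) h2
    have h4 : ∑ p ∈ Ip P (P * lam ^ n), (if (p : ℝ) ^ 2 * Y < 2 * X then (1 : ℝ) else 0) ≤
        ((Ip P (√2 * √(X / Y))).card : ℝ) := by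
      rw [← Finset.sum_filter, Finset.sum_const, nsmul_eq_mul, mul_one]
      norm_cast
      apply Finset.card_le_card
      intro p hp
      obtain ⟨hp1, hp2⟩ := Finset.mem_filter.1 hp
      obtain ⟨a1, a2, a3, -⟩ := mem_Ip.1 hp1
      refine mem_Ip.2 ⟨a1, a2, a3, ?_⟩
      rw [e1]
      apply Real.lt_sqrt_of_sq_lt
      rw [lt_div_iff₀ hY0]
      push_cast at hp2
      exact hp2
    have hlog : 0 < Real.log (√2 * √(X / Y)) := Real.log_pos (by linarith)
    have hs2 : √2 ≤ 3 / 2 := by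
      rw [Real.sqrt_le_left (by norm_num)]
      norm_num
    have hy0 : 0 ≤ √(X / Y) / Real.log (√2 * √(X / Y)) := by positivity
    calc om2 X P lam n w ≤ 2 * ∑ p ∈ Ip P (P * lam ^ n),
          (if (p : ℝ) ^ 2 * Y < 2 * X then (1 : ℝ) else 0) := hle
      _ ≤ 2 * (C * (√2 * √(X / Y) / Real.log (√2 * √(X / Y)))) :=
          mul_le_mul_of_nonneg_left (h4.trans h3) (by norm_num)
      _ = 2 * C * √2 * (√(X / Y) / Real.log (√2 * √(X / Y))) := by ring
      _ ≤ 3 * C * (√(X / Y) / Real.log (√2 * √(X / Y))) := by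
          apply mul_le_mul_of_nonneg_right _ hy0
          nlinarith
  · -- no primes
    refine hle.trans (le_of_eq ?_)
    rw [Finset.sum_eq_zero, mul_zero]
    intro p hp
    obtain ⟨-, -, a3, -⟩ := mem_Ip.1 hp
    rw [if_neg]
    intro h
    apply hcase
    have h5 : P ^ 2 ≤ (p : ℝ) ^ 2 := pow_le_pow_left₀ (by linarith) a3 2
    nlinarith

end

end Pool.Agent.Lib.MP_0b748d_nt.MR
end

section

set_option autoImplicit false

/-!
# The decomposition of the polynomial over elements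
-/

namespace Pool.Agent.Lib.MP_0b748d_nt.MR

open Zsqrtd

noncomputable section

open Classical in
/-- the coefficients of one block -/
def dcA (f : ℤ√2 → ℂ) (A B : ℝ) (u : ℤ√2) : ℂ := if u ∈ Us A B then f u else 0

theorem dc_supp (f : ℤ√2 → ℂ) {A B : ℝ} (hA : 0 ≤ A) (w : ℤ√2) (hw : w ∉ Us 0 B) :
    dcA f A B w = 0 := by
  unfold dcA
  rw [if_neg fun h => hw (Us_mono hA le_rfl h)]

theorem dc_Ap (f : ℤ√2 → ℂ) (k : ℤ) {A B : ℝ} (hA : 0 ≤ A) :
    Ap f k A B = ∑ w ∈ Us 0 B, dcA f A B w * xi k w := by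
  unfold Ap
  rw [← Finset.sum_subset (Us_mono hA le_rfl) (f := fun w => dcA f A B w * xi k w)]
  · refine Finset.sum_congr rfl fun w hw => ?_
    simp only [dcA]
    rw [if_pos hw]
  · intro w _ hw
    simp only [dcA]
    rw [if_neg hw, zero_mul]

theorem dc_step (f : ℤ√2 → ℂ) {X R A B : ℝ} (hA : 0 ≤ A) (hB : B = 2 * X / R) (hR : 0 < R)
    (hX : 0 ≤ X) {p : ℕ} (hp : Sp p) (hpR : (p : ℝ) < R) (s : Bool) (k : ℤ) :
    xi k (el p s) * Ap f k A B =
      ∑ w ∈ Us 0 (2 * X), dcA f A B (Tp p (!s) w) * xi k w := by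
  rw [dc_Ap f k hA]
  refine sum_step hp s B (2 * X) ?_ _ (fun w hw => dc_supp f hA w hw) k
  rw [hB]
  have h1 : (p : ℝ) * (2 * X / R) ≤ R * (2 * X / R) := by
    have : 0 ≤ 2 * X / R := by positivity
    gcongr
  refine h1.trans (le_of_eq ?_)
  field_simp

theorem dc_block (f : ℤ√2 → ℂ) {X R A B P' : ℝ} (hA : 0 ≤ A) (hB : B = 2 * X / R) (hR : 0 < R)
    (hX : 0 ≤ X) (k : ℤ) :
    Qp f k P' R * Ap f k A B =
      ∑ w ∈ Us 0 (2 * X), (∑ p ∈ Ip P' R, ∑ s : Bool, f (el p s) * dcA f A B (Tp p (!s) w)) *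
        xi k w := by
  unfold Qp
  rw [Finset.sum_mul]
  have h1 : ∀ w ∈ Us 0 (2 * X),
      (∑ p ∈ Ip P' R, ∑ s : Bool, f (el p s) * dcA f A B (Tp p (!s) w)) * xi k w =
      ∑ p ∈ Ip P' R, ∑ s : Bool, f (el p s) * (dcA f A B (Tp p (!s) w) * xi k w) := by
    intro w _
    rw [Finset.sum_mul]
    refine Finset.sum_congr rfl fun p _ => ?_
    rw [Finset.sum_mul]
    refine Finset.sum_congr rfl fun s _ => ?_
    ring
  rw [Finset.sum_congr rfl h1, Finset.sum_comm]
  refine Finset.sum_congr rfl fun p hp => ?_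
  rw [Finset.sum_comm, Finset.sum_mul]
  refine Finset.sum_congr rfl fun s _ => ?_
  rw [mul_assoc, dc_step f hA hB hR hX (Ip_Sp hp) (mem_Ip.1 hp).2.2.2, Finset.mul_sum]

open Classical in
/-- the indicator of the divisible terms -/
def dcI (A B : ℝ) (p : ℕ) (s : Bool) (w : ℤ√2) : ℝ :=
  if el p s ∣ w ∧ A ≤ (nm w : ℝ) / p ∧ (nm w : ℝ) / p < B then 1 else 0

open Classical in
theorem dc_term {f : ℤ√2 → ℂ} (hf : MF f) {A B : ℝ} {p : ℕ} (hp : Sp p) (s : Bool) {w : ℤ√2}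
    (hw : Can w) :
    ‖f (el p s) * dcA f A B (Tp p (!s) w) - f w * (dcI A B p s w : ℂ)‖ ≤
      if A ≤ (p : ℝ) * nm w ∧ (p : ℝ) * nm w < B then (1 : ℝ) else 0 := by
  have hp0 : 0 < (p : ℝ) := by exact_mod_cast hp.1.pos
  have hcan := Tp_can hp (!s) hw
  by_cases hd : el p s ∣ w
  · have hd' : el p (!(!s)) ∣ w := by rwa [Bool.not_not]
    have hmem : Tp p (!s) w ∈ Us A B ↔
      Can (Tp p (!s) w) ∧ A ≤ nm (Tp p (!s) w) ∧ (nm (Tp p (!s) w) : ℝ) < B := mem_Us
    have h1 := nm_Tp_down hp (!s) hw hd'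
    have h2 := f_Tp_down hf hp (!s) hw hd'
    rw [Bool.not_not] at h2
    have h3 : (nm (Tp p (!s) w) : ℝ) = (nm w : ℝ) / p := by
      rw [eq_div_iff hp0.ne', ← h1]
      push_cast
      ring
    have h4 : f (el p s) * dcA f A B (Tp p (!s) w) - f w * (dcI A B p s w : ℂ) = 0 := by
      unfold dcA dcI
      rw [h3] at hmem
      by_cases hc : A ≤ (nm w : ℝ) / p ∧ (nm w : ℝ) / p < B
      · rw [if_pos (hmem.2 ⟨hcan, hc⟩), if_pos ⟨hd, hc⟩, h2]
        simp
      · rw [if_neg fun h => hc (hmem.1 h).2, if_neg fun h => hc h.2]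
        simp
    rw [h4, _root_.norm_zero]
    split_ifs <;> norm_num
  · have hd' : ¬ el p (!(!s)) ∣ w := by rwa [Bool.not_not]
    have hmem : Tp p (!s) w ∈ Us A B ↔
      Can (Tp p (!s) w) ∧ A ≤ nm (Tp p (!s) w) ∧ (nm (Tp p (!s) w) : ℝ) < B := mem_Us
    have h1 := nm_Tp_up hp (!s) hw hd'
    have h3 : (nm (Tp p (!s) w) : ℝ) = (p : ℝ) * nm w := by
      rw [h1]
      push_cast
      ring
    have h4 : dcI A B p s w = 0 := by
      unfold dcI
      rw [if_neg fun h => hd h.1]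
    rw [h4, Complex.ofReal_zero, mul_zero, sub_zero]
    unfold dcA
    rw [h3] at hmem
    by_cases hc : A ≤ (p : ℝ) * nm w ∧ (p : ℝ) * nm w < B
    · rw [if_pos (hmem.2 ⟨hcan, hc⟩), if_pos hc, _root_.norm_mul]
      have h5 := hf.le _ (el_spec hp s).1
      have h6 := hf.le _ hcan.1
      calc ‖f (el p s)‖ * ‖f (Tp p (!s) w)‖ ≤ 1 * 1 :=
            mul_le_mul h5 h6 (norm_nonneg _) zero_le_one
        _ = 1 := one_mul 1
    · rw [if_neg fun h => hc (hmem.1 h).2, if_neg hc, mul_zero, _root_.norm_zero]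

/-- the coefficients of the error in the decomposition.

Proof. Put `W = Wp P (P λ^n)`, `I_v = Ip (P λ^v) (P λ^(v+1))`, `A = X/(P λ^v)`,
`B = 2X/(P λ^(v+1))`. Take
`c w = f w * 1[X ≤ nm w] - (1/W) ∑_{v < n} ∑_{p ∈ I_v} ∑_s f (el p s) * a_v (Tp p (!s) w)`, where
`a_v u = f u` if `u ∈ Us A B` and `0` otherwise. By `sum_step` (with `Y = B`, `Z = 2X`; note
`p * B ≤ 2X`) one has `f (el p s) * xi k (el p s) * Ap f k A B = ∑_{w ∈ Us 0 2X}
f (el p s) * a_v (Tp p (!s) w) * xi k w`, which gives the identity. (`Ap f k A B = ∑_{w ∈ Us 0 B}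
a_v w * xi k w`.)
Bound. Let `w ∈ Us 0 2X`, `u = Tp p (!s) w` (recall `Tp p (!s) w` is the step down if
`el p s ∣ w`, as `!(!s) = s`).
* If `el p s ∣ w` then `nm w = p * nm u` and `f (el p s) * f u = f w` (`f_Tp_down`), so the
contribution is `f w * 1[A ≤ nm w/p < B]`. As `P λ^v ≤ p < P λ^(v+1)`, the condition implies
`X ≤ nm w < 2X` and is implied by `λ X ≤ nm w < 2X/λ`. Hence these terms sum to
`f w * om' w` with `0 ≤ om' w ≤ om I w` (`I = Ip P (P λ^n)`, `Ip_split`), `om' w = 0` if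
`nm w < X`, and `om' w = om I w` if `λ X ≤ nm w < 2X/λ`.
* Otherwise `nm u = p * nm w` and the term has modulus at most `1[A ≤ p nm w < B]`, so these terms
are bounded by `om2 X P λ n w`.
So `‖c w‖ ≤ |1[X ≤ nm w] - om' w/W| + om2/W`. If `nm w < X` the first term vanishes. If
`λ X ≤ nm w < 2X/λ` it is `|om w/W - 1|`. In the boundary case it is at most
`max(1, |om w/W - 1|) ≤ |om w/W - 1| + 2`. -/
theorem decomp_coef (f : ℤ√2 → ℂ) (hf : MF f) (X P lam : ℝ) (n : ℕ) (hX : 1 ≤ X) (hP : 2 ≤ P)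
    (hl : 1 < lam) (hl2 : lam ≤ 2) (hW : 1 ≤ Wp P (P * lam ^ n)) :
    ∃ c : ℤ√2 → ℂ, (∀ k : ℤ, Ap f k X (2 * X) - (1 / (Wp P (P * lam ^ n) : ℂ)) *
        ∑ v ∈ Finset.range n, Qp f k (P * lam ^ v) (P * lam ^ (v + 1)) *
          Ap f k (X / (P * lam ^ v)) (2 * X / (P * lam ^ (v + 1))) =
        ∑ w ∈ Us 0 (2 * X), c w * xi k w) ∧
      ∀ w ∈ Us 0 (2 * X), ‖c w‖ ≤
        (if X ≤ nm w then |om (Ip P (P * lam ^ n)) w / Wp P (P * lam ^ n) - 1| else 0) +
        (if (X ≤ nm w ∧ (nm w : ℝ) < lam * X) ∨ 2 * X / lam ≤ nm w then 2 else 0) +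
        om2 X P lam n w := by
  classical
  set W : ℝ := Wp P (P * lam ^ n) with hWdef
  have hP0 : 0 < P := by linarith
  have hl0 : 0 < lam := by linarith
  have hX0 : 0 < X := by linarith
  have hPl : ∀ v : ℕ, 0 < P * lam ^ v := fun v => by positivity
  set c : ℤ√2 → ℂ := fun w => dcA f X (2 * X) w - (1 / (W : ℂ)) *
    ∑ v ∈ Finset.range n, ∑ p ∈ Ip (P * lam ^ v) (P * lam ^ (v + 1)), ∑ s : Bool,
      f (el p s) * dcA f (X / (P * lam ^ v)) (2 * X / (P * lam ^ (v + 1))) (Tp p (!s) w) with hc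
  refine ⟨c, fun k => ?_, fun w hw => ?_⟩
  · -- the identity
    rw [dc_Ap f k hX0.le]
    have h1 : ∀ v ∈ Finset.range n, Qp f k (P * lam ^ v) (P * lam ^ (v + 1)) *
        Ap f k (X / (P * lam ^ v)) (2 * X / (P * lam ^ (v + 1))) =
        ∑ w ∈ Us 0 (2 * X), (∑ p ∈ Ip (P * lam ^ v) (P * lam ^ (v + 1)), ∑ s : Bool,
          f (el p s) * dcA f (X / (P * lam ^ v)) (2 * X / (P * lam ^ (v + 1)))
            (Tp p (!s) w)) * xi k w := by
      intro v _
      exact dc_block f (by have := hPl v; positivity) rfl (hPl _) hX0.le k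
    rw [Finset.sum_congr rfl h1, Finset.sum_comm, Finset.mul_sum, ← Finset.sum_sub_distrib]
    refine Finset.sum_congr rfl fun w _ => ?_
    rw [← Finset.sum_mul]
    simp only [hc]
    ring
  · -- the bound
    obtain ⟨hcan, hw0, hw1⟩ := mem_Us.1 hw
    set om' : ℝ := ∑ v ∈ Finset.range n, ∑ p ∈ Ip (P * lam ^ v) (P * lam ^ (v + 1)),
      ∑ s : Bool, dcI (X / (P * lam ^ v)) (2 * X / (P * lam ^ (v + 1))) p s w with hom'
    have hom : om (Ip P (P * lam ^ n)) w = ∑ v ∈ Finset.range n,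
        ∑ p ∈ Ip (P * lam ^ v) (P * lam ^ (v + 1)), ∑ s : Bool,
          if el p s ∣ w then (1 : ℝ) else 0 := by
      unfold om
      exact Ip_split (fun p => ∑ s : Bool, if el p s ∣ w then (1 : ℝ) else 0) P lam hP0 hl n
    have ha0 : 0 ≤ om' := by
      rw [hom']
      refine Finset.sum_nonneg fun v _ => Finset.sum_nonneg fun p _ =>
        Finset.sum_nonneg fun s _ => ?_
      unfold dcI
      split_ifs <;> norm_num
    have ha1 : om' ≤ om (Ip P (P * lam ^ n)) w := by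
      rw [hom', hom]
      refine Finset.sum_le_sum fun v _ => Finset.sum_le_sum fun p _ =>
        Finset.sum_le_sum fun s _ => ?_
      unfold dcI
      by_cases h1 : el p s ∣ w
      · rw [if_pos h1]
        split_ifs <;> norm_num
      · rw [if_neg h1, if_neg fun h => h1 h.1]
    have hb : (nm w : ℝ) < X → om' = 0 := by
      intro hlt
      rw [hom']
      refine Finset.sum_eq_zero fun v _ => Finset.sum_eq_zero fun p hp =>
        Finset.sum_eq_zero fun s _ => ?_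
      unfold dcI
      rw [if_neg]
      rintro ⟨-, h2, -⟩
      have hm := (mem_Ip.1 hp).2.2.1
      have hp0 : 0 < (p : ℝ) := lt_of_lt_of_le (hPl v) hm
      rw [div_le_div_iff₀ (hPl v) hp0] at h2
      have h3 : (nm w : ℝ) * (P * lam ^ v) < X * p := by
        have h4 : (nm w : ℝ) * (P * lam ^ v) < X * (P * lam ^ v) :=
          mul_lt_mul_of_pos_right hlt (hPl v)
        exact lt_of_lt_of_le h4 (mul_le_mul_of_nonneg_left hm hX0.le)
      linarith
    have hd : lam * X ≤ nm w → (nm w : ℝ) < 2 * X / lam →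
        om' = om (Ip P (P * lam ^ n)) w := by
      intro h1 h2
      rw [hom', hom]
      refine Finset.sum_congr rfl fun v _ => Finset.sum_congr rfl fun p hp =>
        Finset.sum_congr rfl fun s _ => ?_
      have hm := (mem_Ip.1 hp).2.2.1
      have hm2 := (mem_Ip.1 hp).2.2.2
      have hp0 : 0 < (p : ℝ) := lt_of_lt_of_le (hPl v) hm
      have h3 : X / (P * lam ^ v) ≤ (nm w : ℝ) / p := by
        rw [div_le_div_iff₀ (hPl v) hp0]
        calc X * p ≤ X * (P * lam ^ (v + 1)) := by gcongr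
          _ = (lam * X) * (P * lam ^ v) := by ring
          _ ≤ nm w * (P * lam ^ v) := mul_le_mul_of_nonneg_right h1 (hPl v).le
      have h4 : (nm w : ℝ) / p < 2 * X / (P * lam ^ (v + 1)) := by
        rw [div_lt_div_iff₀ hp0 (hPl _)]
        rw [lt_div_iff₀ hl0] at h2
        calc (nm w : ℝ) * (P * lam ^ (v + 1)) = (nm w * lam) * (P * lam ^ v) := by ring
          _ < (2 * X) * (P * lam ^ v) := mul_lt_mul_of_pos_right h2 (hPl v)
          _ ≤ 2 * X * p := by gcongr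
      unfold dcI
      by_cases h5 : el p s ∣ w
      · rw [if_pos h5, if_pos ⟨h5, h3, h4⟩]
      · rw [if_neg h5, if_neg fun h => h5 h.1]
    set S : ℂ := ∑ v ∈ Finset.range n, ∑ p ∈ Ip (P * lam ^ v) (P * lam ^ (v + 1)), ∑ s : Bool,
      f (el p s) * dcA f (X / (P * lam ^ v)) (2 * X / (P * lam ^ (v + 1))) (Tp p (!s) w) with hS
    have hE : ‖S - f w * (om' : ℂ)‖ ≤ om2 X P lam n w := by
      have h1 : S - f w * (om' : ℂ) = ∑ v ∈ Finset.range n,
          ∑ p ∈ Ip (P * lam ^ v) (P * lam ^ (v + 1)), ∑ s : Bool,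
          (f (el p s) * dcA f (X / (P * lam ^ v)) (2 * X / (P * lam ^ (v + 1))) (Tp p (!s) w) -
            f w * (dcI (X / (P * lam ^ v)) (2 * X / (P * lam ^ (v + 1))) p s w : ℂ)) := by
        simp only [Finset.sum_sub_distrib]
        rw [hS, hom']
        push_cast
        simp only [Finset.mul_sum]
      rw [h1]
      unfold om2
      refine (norm_sum_le _ _).trans (Finset.sum_le_sum fun v _ => ?_)
      refine (norm_sum_le _ _).trans (Finset.sum_le_sum fun p hp => ?_)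
      refine (norm_sum_le _ _).trans (Finset.sum_le_sum fun s _ => ?_)
      refine (dc_term hf (Ip_Sp hp) s hcan).trans (le_of_eq ?_)
      rfl
    have hcw : c w = dcA f X (2 * X) w - (1 / (W : ℂ)) * S := rfl
    have hfw : ‖f w‖ ≤ 1 := hf.le _ hcan.1
    have hdc : dcA f X (2 * X) w = f w * ((if X ≤ nm w then (1 : ℝ) else 0 : ℝ) : ℂ) := by
      unfold dcA
      by_cases h1 : X ≤ nm w
      · rw [if_pos (mem_Us.2 ⟨hcan, h1, hw1⟩), if_pos h1]
        simp
      · rw [if_neg fun h => h1 (mem_Us.1 h).2.1, if_neg h1]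
        simp
    set ι : ℝ := if X ≤ nm w then (1 : ℝ) else 0 with hι
    have hW0 : 0 < W := by linarith
    have hWc : (W : ℂ) ≠ 0 := by exact_mod_cast hW0.ne'
    have hmain : ‖c w‖ ≤ |ι - om' / W| + om2 X P lam n w := by
      have h1 : c w = f w * ((ι - om' / W : ℝ) : ℂ) - (1 / (W : ℂ)) * (S - f w * (om' : ℂ)) := by
        rw [hcw, hdc]
        push_cast
        field_simp
        ring
      rw [h1]
      refine (norm_sub_le _ _).trans (add_le_add ?_ ?_)
      · rw [_root_.norm_mul, Complex.norm_real, Real.norm_eq_abs]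
        exact mul_le_of_le_one_left (abs_nonneg _) hfw
      · rw [_root_.norm_mul, norm_div, NormOneClass.norm_one, Complex.norm_real,
          Real.norm_of_nonneg hW0.le]
        refine le_trans ?_ hE
        refine mul_le_of_le_one_left (norm_nonneg _) ?_
        rw [div_le_one hW0]
        exact hW
    refine hmain.trans (add_le_add ?_ le_rfl)
    have hdiv : om' / W ≤ om (Ip P (P * lam ^ n)) w / W := div_le_div_of_nonneg_right ha1 hW0.le
    have hdiv0 : 0 ≤ om' / W := div_nonneg ha0 hW0.le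
    by_cases h1 : X ≤ nm w
    · rw [if_pos h1]
      have hι1 : ι = 1 := by rw [hι, if_pos h1]
      rw [hι1]
      by_cases h2 : (X ≤ nm w ∧ (nm w : ℝ) < lam * X) ∨ 2 * X / lam ≤ nm w
      · rw [if_pos h2]
        rcases abs_cases (om (Ip P (P * lam ^ n)) w / W - 1) with h3 | h3 <;>
          rcases abs_cases (1 - om' / W) with h4 | h4 <;> linarith
      · rw [if_neg h2, add_zero]
        push Not at h2
        rw [hd (h2.1 h1) h2.2, abs_sub_comm]
    · rw [if_neg h1]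
      have hι0 : ι = 0 := by rw [hι, if_neg h1]
      rw [hι0, hb (lt_of_not_ge h1), zero_div, sub_zero, abs_zero]
      split_ifs <;> norm_num

end

end Pool.Agent.Lib.MP_0b748d_nt.MR
end

section

set_option autoImplicit false

/-!
# Turan-Kubilius
-/

namespace Pool.Agent.Lib.MP_0b748d_nt.MR

open Zsqrtd

noncomputable section

open Classical in
private def tkf (a : ℕ × Bool) (w : ℤ√2) : ℝ := if el a.1 a.2 ∣ w then (1 : ℝ) else 0

private theorem tkf_inv (a : ℕ × Bool) : Inv (tkf a) := by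
  intro n z _
  have h := dvd_un n (el a.1 a.2) z
  by_cases hd : el a.1 a.2 ∣ z
  · have h2 := h.2 hd
    simp [tkf, hd, h2]
  · have h2 : ¬ el a.1 a.2 ∣ un n * z := fun h3 => hd (h.1 h3)
    simp [tkf, hd, h2]

private theorem tkf_nonneg (a : ℕ × Bool) (w : ℤ√2) : 0 ≤ tkf a w := by
  unfold tkf
  split_ifs
  · exact zero_le_one
  · exact le_rfl

private theorem tkf_sq (a : ℕ × Bool) (w : ℤ√2) : tkf a w * tkf a w = tkf a w := by
  unfold tkf
  split_ifs <;> simp

private theorem tk_one {a : ℕ × Bool} (hp : Sp a.1) (x y : ℝ) :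
    ∑ w ∈ Vs x y, tkf a w = ((Vs (x / a.1) (y / a.1)).card : ℝ) := by
  classical
  have h := sum_dvd (el a.1 a.2) (el_spec hp a.2).1 x y (fun _ => (1 : ℝ)) (fun _ _ _ => rfl)
  have hn : ((nm (el a.1 a.2) : ℤ) : ℝ) = (a.1 : ℝ) := by
    rw [(el_spec hp a.2).2]
    simp
  rw [hn, Finset.sum_filter] at h
  simp only [Finset.sum_const, nsmul_eq_mul, mul_one] at h
  rw [← h]
  refine Finset.sum_congr rfl fun w _ => ?_
  unfold tkf
  congr

private theorem tk_two {a b : ℕ × Bool} (hp : Sp a.1) (hq : Sp b.1) (hab : a ≠ b) (x y : ℝ) :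
    ∑ w ∈ Vs x y, tkf a w * tkf b w =
      ((Vs (x / a.1 / b.1) (y / a.1 / b.1)).card : ℝ) := by
  classical
  have h := sum_dvd (el a.1 a.2) (el_spec hp a.2).1 x y (tkf b) (tkf_inv b)
  have hn : ((nm (el a.1 a.2) : ℤ) : ℝ) = (a.1 : ℝ) := by
    rw [(el_spec hp a.2).2]
    simp
  rw [hn, Finset.sum_filter] at h
  have h1 : ∑ w ∈ Vs x y, tkf a w * tkf b w =
      ∑ m ∈ Vs (x / a.1) (y / a.1), tkf b (el a.1 a.2 * m) := by
    rw [← h]
    refine Finset.sum_congr rfl fun w _ => ?_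
    unfold tkf
    by_cases hd : el a.1 a.2 ∣ w
    · simp [hd]
    · simp [hd]
  rw [h1, ← tk_one hq]
  refine Finset.sum_congr rfl fun m _ => ?_
  unfold tkf
  have hne : (b.1, b.2) ≠ (a.1, a.2) := by
    intro h
    exact hab (by ext <;> simp_all)
  rw [el_coprime hq hp hne m]

/-- Turan-Kubilius inequality.

Proof. Write `I = Ip P Q`, `W = Wp P Q`, `V = Vs X 2X`, `κ = kap`; all `p ∈ I` satisfy
`2 ≤ P ≤ p < Q ≤ X^(1/8)`, `|I| ≤ Q`, `W ≤ |I| ≤ Q` (each term is `2/p ≤ 1`).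
(1) `∑_{w ∈ V} om I w = ∑_{p ∈ I} ∑_s #{w ∈ V : el p s ∣ w}`, and by `sum_dvd` (`φ = 1`,
`ρ = el p s`, `nm ρ = p`) the count is `#Vs (X/p) (2X/p) = κ X/p + O(√X)` by `V_count`. Hence the
sum is `κ X W + O(Q √X)`.
(2) `∑_w (om I w)^2 = ∑_{(p,s),(q,t)} #{w ∈ V : el p s ∣ w, el q t ∣ w}`. The diagonal
`(p,s) = (q,t)` gives (1). For `(p,s) ≠ (q,t)`: `el p s ∣ w` and `el q t ∣ w` iff
`w = el p s * m` with `el q t ∣ m` (`el_coprime`), so applying `sum_dvd` twice the count is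
`#Vs (X/(p q)) (2X/(p q)) = κ X/(p q) + O(√X)`. The sum over all pairs of `1/(p q)` (also the
diagonal) is `W^2`; so `∑_w (om I w)^2 ≤ κ X W^2 + κ X W + O(Q^2 √X)`.
(3) Expand: `∑ (om - W)^2 = ∑ om^2 - 2 W ∑ om + W^2 #V ≤ κ X W + O(Q^2 √X)`
(using `#V = κ X + O(√X)`), and `Q^2 √X ≤ X^(3/4) ≤ X`. -/
theorem turan_kubilius : ∃ C : ℝ, 1 ≤ C ∧ ∀ X P Q : ℝ, 1 ≤ X → 2 ≤ P → P ≤ Q → Q ^ 8 ≤ X →
    ∑ w ∈ Vs X (2 * X), (om (Ip P Q) w - Wp P Q) ^ 2 ≤ C * X * (Wp P Q + 1) := by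
  classical
  obtain ⟨C, hC, hV⟩ := V_count
  have hk := kap_pos
  refine ⟨kap + 22 * C + 1, by linarith, ?_⟩
  intro X P Q hX hP hPQ hQX
  set I := Ip P Q with hI
  set W := Wp P Q with hW
  set J : Finset (ℕ × Bool) := I ×ˢ Finset.univ with hJ
  set M : ℝ := √(2 * X) with hM
  have hM0 : 0 ≤ M := Real.sqrt_nonneg _
  have hmem : ∀ p ∈ I, p.Prime ∧ p % 8 = 1 ∧ P ≤ p ∧ (p : ℝ) < Q := by
    intro p hp
    rw [hI, Ip, Finset.mem_filter] at hp
    exact hp.2
  have hSp : ∀ a ∈ J, Sp a.1 := by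
    intro a ha
    rw [hJ, Finset.mem_product] at ha
    obtain ⟨h1, h2, -, -⟩ := hmem a.1 ha.1
    exact ⟨h1, Or.inl h2⟩
  have hp1 : ∀ a ∈ J, (1 : ℝ) ≤ a.1 := by
    intro a ha
    rw [hJ, Finset.mem_product] at ha
    have := (hmem a.1 ha.1).1.one_le
    exact_mod_cast this
  have hom : ∀ w, om I w = ∑ a ∈ J, tkf a w := by
    intro w
    rw [hJ, Finset.sum_product]
    rfl
  have hWJ : W = ∑ a ∈ J, 1 / (a.1 : ℝ) := by
    rw [hJ, Finset.sum_product, hW, Wp]
    refine Finset.sum_congr rfl fun p _ => ?_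
    simp
    ring
  have hW0 : 0 ≤ W := by
    rw [hWJ]
    exact Finset.sum_nonneg fun a _ => by positivity
  have hWI : W ≤ (I.card : ℝ) := by
    rw [hW, Wp, Finset.card_eq_sum_ones]
    push_cast
    refine Finset.sum_le_sum fun p hp => ?_
    have h2 := (hmem p hp).2.2.1
    rw [div_le_one (by linarith)]
    linarith
  have hIQ : (I.card : ℝ) ≤ Q := by
    have h1 : I ⊆ (Finset.Icc 1 ⌊Q⌋₊) := by
      intro p hp
      obtain ⟨h1, -, -, h4⟩ := hmem p hp
      rw [Finset.mem_Icc]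
      exact ⟨h1.one_le, Nat.le_floor h4.le⟩
    have h2 := Finset.card_le_card h1
    rw [Nat.card_Icc, Nat.add_sub_cancel] at h2
    calc (I.card : ℝ) ≤ (⌊Q⌋₊ : ℝ) := by exact_mod_cast h2
      _ ≤ Q := Nat.floor_le (by linarith)
  have hJc : (J.card : ℝ) = 2 * I.card := by
    rw [hJ, Finset.card_product]
    simp
    ring
  -- counts
  have hsq : ∀ r : ℝ, 1 ≤ r → √(2 * X / r) ≤ M := by
    intro r hr
    apply Real.sqrt_le_sqrt
    exact div_le_self (by linarith) hr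
  have b0 : ((Vs X (2 * X)).card : ℝ) ≤ kap * X + C * M := by
    have h := hV X (2 * X) (by linarith) (by linarith)
    have := (abs_le.1 h).2
    linarith [this]
  have b1 : ∀ a ∈ J, |∑ w ∈ Vs X (2 * X), tkf a w - kap * X * (1 / (a.1 : ℝ))| ≤ C * M := by
    intro a ha
    have hpa := hp1 a ha
    rw [tk_one (hSp a ha)]
    have h := hV (X / a.1) (2 * X / a.1) (by positivity)
      (div_le_div_of_nonneg_right (by linarith) (by linarith))
    have h1 : kap * (2 * X / a.1 - X / a.1) = kap * X * (1 / (a.1 : ℝ)) := by ring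
    rw [h1] at h
    exact h.trans (mul_le_mul_of_nonneg_left (hsq _ hpa) hC.le)
  have b2 : ∀ a ∈ J, ∀ b ∈ J, a ≠ b → ∑ w ∈ Vs X (2 * X), tkf a w * tkf b w ≤
      kap * X * (1 / (a.1 : ℝ) * (1 / (b.1 : ℝ))) + C * M := by
    intro a ha b hb hab
    have hpa := hp1 a ha
    have hpb := hp1 b hb
    rw [tk_two (hSp a ha) (hSp b hb) hab]
    have h := hV (X / a.1 / b.1) (2 * X / a.1 / b.1) (by positivity)
      (div_le_div_of_nonneg_right (div_le_div_of_nonneg_right (by linarith) (by linarith))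
        (by linarith))
    have h1 : kap * (2 * X / a.1 / b.1 - X / a.1 / b.1) =
        kap * X * (1 / (a.1 : ℝ) * (1 / (b.1 : ℝ))) := by
      field_simp
      ring
    have h2 : 2 * X / (a.1 : ℝ) / b.1 = 2 * X / ((a.1 : ℝ) * b.1) := by
      rw [div_div]
    rw [h1] at h
    have h3 : C * √(2 * X / (a.1 : ℝ) / b.1) ≤ C * M := by
      rw [h2]
      exact mul_le_mul_of_nonneg_left (hsq _ (by nlinarith only [hpa, hpb])) hC.le
    have := (abs_le.1 h).2
    linarith only [h3, this]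
  -- first moment
  have m1 : kap * X * W - J.card * (C * M) ≤ ∑ w ∈ Vs X (2 * X), om I w := by
    have h1 : ∑ w ∈ Vs X (2 * X), om I w = ∑ a ∈ J, ∑ w ∈ Vs X (2 * X), tkf a w := by
      simp_rw [hom]
      rw [Finset.sum_comm]
    rw [h1, hWJ, Finset.mul_sum, ← nsmul_eq_mul, ← Finset.sum_const, ← Finset.sum_sub_distrib]
    refine Finset.sum_le_sum fun a ha => ?_
    have := (abs_le.1 (b1 a ha)).1
    linarith
  -- second moment
  have m2 : ∑ w ∈ Vs X (2 * X), om I w ^ 2 ≤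
      kap * X * W + J.card * (C * M) + (kap * X * W ^ 2 + (J.card : ℝ) ^ 2 * (C * M)) := by
    have h1 : ∑ w ∈ Vs X (2 * X), om I w ^ 2 =
        ∑ a ∈ J, ∑ b ∈ J, ∑ w ∈ Vs X (2 * X), tkf a w * tkf b w := by
      have : ∀ w, om I w ^ 2 = ∑ a ∈ J, ∑ b ∈ J, tkf a w * tkf b w := by
        intro w
        rw [hom, sq, Finset.sum_mul_sum]
      simp_rw [this]
      rw [Finset.sum_comm]
      refine Finset.sum_congr rfl fun a _ => ?_
      rw [Finset.sum_comm]
    rw [h1]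
    have h2 : ∀ a ∈ J, ∀ b ∈ J, ∑ w ∈ Vs X (2 * X), tkf a w * tkf b w ≤
        (if a = b then kap * X * (1 / (a.1 : ℝ)) + C * M else 0) +
        (kap * X * (1 / (a.1 : ℝ) * (1 / (b.1 : ℝ))) + C * M) := by
      intro a ha b hb
      by_cases hab : a = b
      · subst hab
        rw [if_pos rfl]
        simp_rw [tkf_sq]
        have := (abs_le.1 (b1 a ha)).2
        have h3 : 0 ≤ kap * X * (1 / (a.1 : ℝ) * (1 / (a.1 : ℝ))) := by positivity
        have h4 : 0 ≤ C * M := by positivity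
        linarith
      · rw [if_neg hab, zero_add]
        exact b2 a ha b hb hab
    calc ∑ a ∈ J, ∑ b ∈ J, ∑ w ∈ Vs X (2 * X), tkf a w * tkf b w
        ≤ ∑ a ∈ J, ∑ b ∈ J, ((if a = b then kap * X * (1 / (a.1 : ℝ)) + C * M else 0) +
          (kap * X * (1 / (a.1 : ℝ) * (1 / (b.1 : ℝ))) + C * M)) :=
          Finset.sum_le_sum fun a ha => Finset.sum_le_sum fun b hb => h2 a ha b hb
      _ = kap * X * W + J.card * (C * M) + (kap * X * W ^ 2 + (J.card : ℝ) ^ 2 * (C * M)) := by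
          simp_rw [Finset.sum_add_distrib]
          have e1 : ∑ a ∈ J, ∑ b ∈ J,
              (if a = b then kap * X * (1 / (a.1 : ℝ)) + C * M else 0) =
              kap * X * W + J.card * (C * M) := by
            have : ∀ a ∈ J, ∑ b ∈ J, (if a = b then kap * X * (1 / (a.1 : ℝ)) + C * M else 0) =
                kap * X * (1 / (a.1 : ℝ)) + C * M := by
              intro a ha
              rw [Finset.sum_ite_eq, if_pos ha]
            rw [Finset.sum_congr rfl this, Finset.sum_add_distrib, ← Finset.mul_sum, ← hWJ,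
              Finset.sum_const, nsmul_eq_mul]
          have e2 : ∑ a ∈ J, ∑ b ∈ J, kap * X * (1 / (a.1 : ℝ) * (1 / (b.1 : ℝ))) =
              kap * X * W ^ 2 := by
            rw [hWJ, sq, Finset.sum_mul_sum, Finset.mul_sum]
            refine Finset.sum_congr rfl fun a _ => ?_
            rw [Finset.mul_sum]
          have e3 : ∑ a ∈ J, ∑ b ∈ J, C * M = (J.card : ℝ) ^ 2 * (C * M) := by
            simp only [Finset.sum_const, nsmul_eq_mul]
            ring
          rw [e1, e2, e3]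
  -- expansion
  have hexp : ∑ w ∈ Vs X (2 * X), (om I w - W) ^ 2 =
      ∑ w ∈ Vs X (2 * X), om I w ^ 2 - 2 * W * ∑ w ∈ Vs X (2 * X), om I w +
        W ^ 2 * (Vs X (2 * X)).card := by
    have : ∀ w, (om I w - W) ^ 2 = om I w ^ 2 - 2 * W * om I w + W ^ 2 := by
      intro w
      ring
    simp_rw [this]
    rw [Finset.sum_add_distrib, Finset.sum_sub_distrib, ← Finset.mul_sum, Finset.sum_const,
      nsmul_eq_mul]
    ring
  rw [hexp]
  set N : ℝ := (I.card : ℝ) with hN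
  have hN0 : 0 ≤ N := Nat.cast_nonneg _
  have hNN : N ≤ N ^ 2 := by
    rw [hN]
    have : I.card ≤ I.card ^ 2 := Nat.le_self_pow (by norm_num) _
    exact_mod_cast this
  rw [hJc] at m1 m2
  have hCM : 0 ≤ C * M := by positivity
  have key : ∑ w ∈ Vs X (2 * X), om I w ^ 2 - 2 * W * ∑ w ∈ Vs X (2 * X), om I w +
        W ^ 2 * (Vs X (2 * X)).card ≤ kap * X * W + C * M * (11 * N ^ 2) := by
    have k1 : 2 * W * (kap * X * W - 2 * N * (C * M)) ≤
        2 * W * ∑ w ∈ Vs X (2 * X), om I w := mul_le_mul_of_nonneg_left m1 (by positivity)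
    have k2 : W ^ 2 * ((Vs X (2 * X)).card : ℝ) ≤ W ^ 2 * (kap * X + C * M) :=
      mul_le_mul_of_nonneg_left b0 (by positivity)
    have k3 : C * M * (2 * N + 4 * N ^ 2 + 4 * W * N + W ^ 2) ≤ C * M * (11 * N ^ 2) := by
      apply mul_le_mul_of_nonneg_left _ hCM
      nlinarith only [hW0, hWI, hNN]
    linarith only [m2, k1, k2, k3]
  refine key.trans ?_
  have hQ1 : 1 ≤ Q := by linarith
  have hQ2 : Q ^ 2 ≤ √X := by
    apply Real.le_sqrt_of_sq_le
    calc (Q ^ 2) ^ 2 = Q ^ 4 := by ring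
      _ ≤ Q ^ 8 := pow_le_pow_right₀ hQ1 (by norm_num)
      _ ≤ X := hQX
  have hMX : M ≤ 2 * √X := by
    rw [hM, Real.sqrt_mul (by norm_num)]
    apply mul_le_mul_of_nonneg_right _ (Real.sqrt_nonneg _)
    rw [Real.sqrt_le_left (by norm_num)]
    norm_num
  have hMN : M * N ^ 2 ≤ 2 * X := by
    have h1 : N ^ 2 ≤ Q ^ 2 := pow_le_pow_left₀ hN0 hIQ 2
    calc M * N ^ 2 ≤ (2 * √X) * √X :=
          mul_le_mul hMX (h1.trans hQ2) (by positivity) (by positivity)
      _ = 2 * X := by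
          rw [mul_assoc, Real.mul_self_sqrt (by linarith)]
  have : C * M * (11 * N ^ 2) ≤ 22 * C * X := by
    have : C * (M * N ^ 2) ≤ C * (2 * X) := mul_le_mul_of_nonneg_left hMN hC.le
    linarith only [this]
  have hXW : 0 ≤ X * W := by positivity
  linarith only [hX, this, hXW, mul_nonneg hC.le hXW, mul_nonneg hk.le (by linarith : (0 : ℝ) ≤ X)]

end

end Pool.Agent.Lib.MP_0b748d_nt.MR
end

section

set_option autoImplicit false

/-!
# The correction term from non-primitive products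
-/

namespace Pool.Agent.Lib.MP_0b748d_nt.MR

open Zsqrtd

noncomputable section

private theorem co_om2_nonneg (X P lam : ℝ) (n : ℕ) (w : ℤ√2) : 0 ≤ om2 X P lam n w := by
  classical
  unfold om2
  refine Finset.sum_nonneg fun v _ => Finset.sum_nonneg fun p _ => Finset.sum_nonneg fun s _ => ?_
  split_ifs
  · exact zero_le_one
  · exact le_rfl

private theorem co_tel {L l : ℝ} (hL : 0 < L) (hl : 0 < l) (N : ℕ) :
    ∑ i ∈ Finset.range (N + 1), 1 / (L + i * l) ^ 2 ≤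
      1 / L ^ 2 + (1 / l) * (1 / L - 1 / (L + N * l)) := by
  induction N with
  | zero => simp
  | succ N ih =>
    rw [Finset.sum_range_succ]
    have h1 : 0 < L + N * l := by positivity
    have h2 : L + ((N + 1 : ℕ) : ℝ) * l = (L + N * l) + l := by
      push_cast
      ring
    rw [h2]
    set z := L + N * l with hz
    have h3 : 1 / (z + l) ^ 2 ≤ (1 / l) * (1 / z - 1 / (z + l)) := by
      have e : (1 / l) * (1 / z - 1 / (z + l)) = 1 / (z * (z + l)) := by
        field_simp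
        ring
      rw [e]
      apply one_div_le_one_div_of_le (by positivity)
      nlinarith
    have h4 : (1 / l) * (1 / L - 1 / (z + l)) =
        (1 / l) * (1 / L - 1 / z) + (1 / l) * (1 / z - 1 / (z + l)) := by ring
    rw [h4]
    linarith

private theorem co_sum {P : ℝ} (hP : 2 ≤ P) (N : ℕ) :
    ∑ i ∈ Finset.range N, 1 / (Real.log (P * 2 ^ i)) ^ 2 ≤ 3 / Real.log P := by
  have hl : 0 < Real.log 2 := Real.log_pos (by norm_num)
  have hL : Real.log 2 ≤ Real.log P := Real.log_le_log (by norm_num) hP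
  have hL0 : 0 < Real.log P := lt_of_lt_of_le hl hL
  have h2 : (2 : ℝ) / 3 ≤ Real.log 2 := by linarith [Real.log_two_gt_d9]
  have h1 : ∀ i : ℕ, Real.log (P * 2 ^ i) = Real.log P + i * Real.log 2 := by
    intro i
    rw [Real.log_mul (by linarith) (by positivity), Real.log_pow]
  simp only [h1]
  calc ∑ i ∈ Finset.range N, 1 / (Real.log P + i * Real.log 2) ^ 2
      ≤ ∑ i ∈ Finset.range (N + 1), 1 / (Real.log P + i * Real.log 2) ^ 2 := by
        refine Finset.sum_le_sum_of_subset_of_nonneg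
          (Finset.range_subset_range.2 (Nat.le_succ N)) fun i _ _ => by positivity
    _ ≤ 1 / Real.log P ^ 2 + (1 / Real.log 2) * (1 / Real.log P -
          1 / (Real.log P + N * Real.log 2)) := co_tel hL0 hl N
    _ ≤ 1 / (Real.log 2 * Real.log P) + (1 / Real.log 2) * (1 / Real.log P) := by
        refine add_le_add ?_ ?_
        · apply one_div_le_one_div_of_le (by positivity)
          nlinarith
        · refine mul_le_mul_of_nonneg_left ?_ (by positivity)
          have : 0 ≤ 1 / (Real.log P + N * Real.log 2) := by positivity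
          linarith
    _ = (2 / Real.log 2) / Real.log P := by
        field_simp
        norm_num
    _ ≤ 3 / Real.log P := by
        refine div_le_div_of_nonneg_right ?_ hL0.le
        rw [div_le_iff₀ hl]
        linarith

/-- the second moment of the correction.

Proof. By `om2_le` only `w` with `P^2 nm w < 2 X` contribute; put `y = √(X/nm w) > P/√2`.
For `i ≥ 0` let `G_i` be the set of `w ∈ Us 0 (2X)` with `2^i P/√2 ≤ y < 2^(i+1) P/√2`; then
`nm w ≤ 2 X/(4^i P^2)`, so `#G_i ≤ C X/(4^i P^2)` by `U_le`, and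
`om2 ≤ C 2^(i+1) P/log(2^i P)`, `log(2^i P) = i log 2 + log P`. Hence
`∑_{w ∈ G_i} om2^2 ≤ C' X/(i log 2 + log P)^2`, and `∑_{i ≥ 0} 1/(i log 2 + L)^2 ≤
1/L^2 + 1/(L log 2) ≤ 3/L` for `L = log P ≥ log 2`. Only finitely many `i` occur. -/
theorem corr : ∃ C : ℝ, 1 ≤ C ∧ ∀ (X P lam : ℝ) (n : ℕ), 1 ≤ X → 2 ≤ P → 1 < lam →
    ∑ w ∈ Us 0 (2 * X), om2 X P lam n w ^ 2 ≤ C * X / Real.log P := by
  classical
  obtain ⟨C1, hC1, h1⟩ := om2_le
  obtain ⟨C2, hC2, h2⟩ := U_le
  have hCC : 1 ≤ C1 ^ 2 * C2 := by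
    have : (1 : ℝ) ≤ C1 ^ 2 := one_le_pow₀ hC1
    nlinarith
  refine ⟨24 * (C1 ^ 2 * C2), by linarith, ?_⟩
  intro X P lam n hX hP hlam
  have hP0 : 0 < P := by linarith
  obtain ⟨N, hN⟩ := pow_unbounded_of_one_lt (2 * X) (show (1 : ℝ) < 4 by norm_num)
  set K : ℕ → ℝ := fun i => C1 ^ 2 * (2 * P ^ 2 * 4 ^ i) / (Real.log (P * 2 ^ i)) ^ 2 with hK
  have hK0 : ∀ i, 0 ≤ K i := fun i => by
    rw [hK]
    positivity
  -- pointwise
  have hpt : ∀ w ∈ Us 0 (2 * X), om2 X P lam n w ^ 2 ≤ ∑ i ∈ Finset.range N,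
      if w ∈ Us 0 (4 * X / (P ^ 2 * 4 ^ i)) then K i else 0 := by
    intro w hw
    obtain ⟨hc, h0, hw2⟩ := mem_Us.1 hw
    have hnm : 0 < nm w := hc.1.1.nm_pos
    have hnm1 : 1 ≤ nm w := hnm
    have hnmr : (1 : ℝ) ≤ (nm w : ℝ) := by exact_mod_cast hnm1
    have hb := h1 X P lam n hX hP hlam w hnm1
    by_cases hcond : P ^ 2 * nm w < 2 * X
    · rw [if_pos hcond] at hb
      set t : ℝ := X / nm w with ht
      have ht0 : 0 < t := by
        rw [ht]
        positivity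
      have hx1 : 1 ≤ 2 * X / (P ^ 2 * nm w) := by
        rw [le_div_iff₀ (by positivity)]
        linarith
      obtain ⟨i, hi1, hi2⟩ := exists_nat_pow_near hx1 (show (1 : ℝ) < 4 by norm_num)
      have hxt : 2 * X / (P ^ 2 * nm w) = 2 * t / P ^ 2 := by
        rw [ht]
        field_simp
      have hiN : i < N := by
        by_contra hcon
        have h3 : (4 : ℝ) ^ N ≤ 4 ^ i := pow_le_pow_right₀ (by norm_num) (not_lt.1 hcon)
        have h4 : 2 * X / (P ^ 2 * nm w) ≤ 2 * X := by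
          apply div_le_self (by linarith)
          nlinarith
        linarith
      have hmem : w ∈ Us 0 (4 * X / (P ^ 2 * 4 ^ i)) := by
        rw [mem_Us]
        refine ⟨hc, h0, ?_⟩
        rw [le_div_iff₀ (by positivity)] at hi1
        rw [lt_div_iff₀ (by positivity)]
        nlinarith
      -- the bound
      have hPi : 2 ≤ P * 2 ^ i := by
        have : (1 : ℝ) ≤ 2 ^ i := one_le_pow₀ (by norm_num)
        nlinarith
      have hlog0 : 0 < Real.log (P * 2 ^ i) := Real.log_pos (by linarith)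
      rw [hxt] at hi1 hi2
      rw [le_div_iff₀ (by positivity)] at hi1
      rw [div_lt_iff₀ (by positivity)] at hi2
      have e4 : (4 : ℝ) ^ i = (2 ^ i) ^ 2 := by
        rw [← pow_mul, mul_comm, pow_mul]
        norm_num
      have hlog : Real.log (P * 2 ^ i) ≤ Real.log (√2 * √t) := by
        apply Real.log_le_log (by positivity)
        rw [← Real.sqrt_mul (by norm_num)]
        apply Real.le_sqrt_of_sq_le
        rw [e4] at hi1
        nlinarith
      have hom : om2 X P lam n w ^ 2 ≤ K i := by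
        have h5 := co_om2_nonneg X P lam n w
        have h6 := pow_le_pow_left₀ h5 hb 2
        refine h6.trans ?_
        rw [mul_pow, div_pow, Real.sq_sqrt ht0.le]
        have h7 : t / Real.log (√2 * √t) ^ 2 ≤ (2 * P ^ 2 * 4 ^ i) / (Real.log (P * 2 ^ i)) ^ 2 := by
          apply div_le_div₀ (by positivity) _ (by positivity)
            (pow_le_pow_left₀ hlog0.le hlog 2)
          rw [pow_succ] at hi2
          nlinarith
        rw [hK]
        simp only
        rw [mul_div_assoc]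
        exact mul_le_mul_of_nonneg_left h7 (by positivity)
      refine hom.trans ?_
      have h8 : K i = if w ∈ Us 0 (4 * X / (P ^ 2 * 4 ^ i)) then K i else 0 := by
        rw [if_pos hmem]
      rw [h8]
      refine Finset.single_le_sum (f := fun i =>
        if w ∈ Us 0 (4 * X / (P ^ 2 * 4 ^ i)) then K i else 0) (fun j _ => ?_)
        (Finset.mem_range.2 hiN)
      split_ifs
      · exact hK0 j
      · exact le_rfl
    · rw [if_neg hcond] at hb
      have h5 := co_om2_nonneg X P lam n w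
      have h6 : om2 X P lam n w = 0 := le_antisymm hb h5
      rw [h6]
      refine le_trans (by norm_num) (Finset.sum_nonneg fun j _ => ?_)
      split_ifs
      · exact hK0 j
      · exact le_rfl
  calc ∑ w ∈ Us 0 (2 * X), om2 X P lam n w ^ 2
      ≤ ∑ w ∈ Us 0 (2 * X), ∑ i ∈ Finset.range N,
        (if w ∈ Us 0 (4 * X / (P ^ 2 * 4 ^ i)) then K i else 0) := Finset.sum_le_sum hpt
    _ = ∑ i ∈ Finset.range N, ∑ w ∈ Us 0 (2 * X),
        (if w ∈ Us 0 (4 * X / (P ^ 2 * 4 ^ i)) then K i else 0) := Finset.sum_comm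
    _ ≤ ∑ i ∈ Finset.range N, 8 * (C1 ^ 2 * C2) * X * (1 / (Real.log (P * 2 ^ i)) ^ 2) := by
        refine Finset.sum_le_sum fun i _ => ?_
        rw [← Finset.sum_filter, Finset.sum_const, nsmul_eq_mul]
        have h3 : (((Us 0 (2 * X)).filter
            (fun w => w ∈ Us 0 (4 * X / (P ^ 2 * 4 ^ i)))).card : ℝ) ≤
            C2 * (4 * X / (P ^ 2 * 4 ^ i)) := by
          refine le_trans ?_ (h2 0 (4 * X / (P ^ 2 * 4 ^ i)) le_rfl (by positivity))
          exact_mod_cast Finset.card_le_card fun w hw => (Finset.mem_filter.1 hw).2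
        refine (mul_le_mul_of_nonneg_right h3 (hK0 i)).trans (le_of_eq ?_)
        rw [hK]
        have hPi : 2 ≤ P * 2 ^ i := by
          have : (1 : ℝ) ≤ 2 ^ i := one_le_pow₀ (by norm_num)
          nlinarith
        have hlog0 : Real.log (P * 2 ^ i) ≠ 0 := (Real.log_pos (by linarith)).ne'
        field_simp
        ring
    _ = 8 * (C1 ^ 2 * C2) * X * ∑ i ∈ Finset.range N, 1 / (Real.log (P * 2 ^ i)) ^ 2 := by
        rw [Finset.mul_sum]
    _ ≤ 8 * (C1 ^ 2 * C2) * X * (3 / Real.log P) :=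
        mul_le_mul_of_nonneg_left (co_sum hP N) (by positivity)
    _ = 24 * (C1 ^ 2 * C2) * X / Real.log P := by ring

end

end Pool.Agent.Lib.MP_0b748d_nt.MR
end
end
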