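import Pool.Agent.Lib.MP_0b748d_nt.MR.Corr
import Pool.Agent.Lib.MP_0b748d_nt.MR.DirsA

section

set_option autoImplicit false

/-!
# The decomposition of the polynomial over elements
-/

namespace Pool.Agent.Lib.MP_0b748d_nt.MR

open Zsqrtd

noncomputable section

private theorem dc_Wp_le {P Y : ℝ} (hY : 0 ≤ Y) : Wp P Y ≤ Y := by
  have h1 : ∀ p ∈ Ip P Y, (2 : ℝ) / p ≤ 1 := by
    intro p hp
    have h2 := (mem_Ip.1 hp).1.two_le
    have h3 : (2 : ℝ) ≤ p := by exact_mod_cast h2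
    rw [div_le_one (by linarith)]
    exact h3
  have h4 : Ip P Y ⊆ Finset.Icc 1 ⌊Y⌋₊ := by
    intro p hp
    obtain ⟨h5, -, -, h6⟩ := mem_Ip.1 hp
    exact Finset.mem_Icc.2 ⟨h5.one_lt.le, Nat.le_floor h6.le⟩
  have h7 : ((Ip P Y).card : ℝ) ≤ ⌊Y⌋₊ := by
    have := Finset.card_le_card h4
    rw [Nat.card_Icc, Nat.add_sub_cancel] at this
    exact_mod_cast this
  unfold Wp
  calc ∑ p ∈ Ip P Y, (2 : ℝ) / p ≤ ∑ _p ∈ Ip P Y, (1 : ℝ) := Finset.sum_le_sum h1
    _ = (Ip P Y).card := by rw [Finset.sum_const, nsmul_eq_mul, mul_one]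
    _ ≤ ⌊Y⌋₊ := h7
    _ ≤ Y := Nat.floor_le hY

/-- the decomposition with its error.

Proof. Let `c` be as in `decomp_coef`. By `mv` with `H = 2X`, the left-hand side is at most
`200 (K + 2X) ∑_{w ∈ Us 0 2X} ‖c w‖^2 ≤ 600 X ∑ ‖c w‖^2`, and
`‖c w‖^2 ≤ 3 (first)^2 + 3 (second)^2 + 3 (third)^2`.
First: by `turan_kubilius` (`Us ⊆ Vs`), `∑ (om/W - 1)^2 ≤ (1/W^2) C X (W + 1) ≤ 2 C X/W`.
Second: `4 * #boundary`; by `U_count` the boundary `[X, λX) ∪ [2X/λ, 2X)` (note the second set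
is inside `nm w < 2X`) contains at most `κ₁ (λ-1) X + κ₁ 2X (1 - 1/λ) + C X^(3/4)`
`≤ C' (λ-1) X + C' X^(3/4)` elements, and `X^(-1/4) ≤ (P λ^n)^(-2) ≤ 1/W` since
`W ≤ #Ip P (P λ^n) ≤ P λ^n`.
Third: `corr`. -/
theorem decomp : ∃ C : ℝ, 1 ≤ C ∧ ∀ f : ℤ√2 → ℂ, MF f → ∀ (X P lam : ℝ) (n K : ℕ), 1 ≤ X →
    2 ≤ P → 1 < lam → lam ≤ 2 → (P * lam ^ n) ^ 8 ≤ X → (K : ℝ) ≤ X →
    1 ≤ Wp P (P * lam ^ n) →
    ∑ k ∈ Ik K, ‖Ap f k X (2 * X) - (1 / (Wp P (P * lam ^ n) : ℂ)) *
        ∑ v ∈ Finset.range n, Qp f k (P * lam ^ v) (P * lam ^ (v + 1)) *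
          Ap f k (X / (P * lam ^ v)) (2 * X / (P * lam ^ (v + 1)))‖ ^ 2 ≤
      C * X ^ 2 * (1 / Wp P (P * lam ^ n) + (lam - 1) + 1 / Real.log P) := by
  classical
  obtain ⟨C1, hC1, hTK⟩ := turan_kubilius
  obtain ⟨C2, hC2, hU⟩ := U_count
  obtain ⟨C3, hC3, hcorr⟩ := corr
  have hk := kap1_pos
  refine ⟨1800 * (2 * C1 + 12 * kap1 + 16 * C2 + C3), by linarith, ?_⟩
  intro f _hf X P lam n K hX hP hl hl2 hPX hK hW
  obtain ⟨c, hc, hcb⟩ := decomp_coef f _hf X P lam n hX hP hl hl2 hW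
  obtain ⟨Y, hY⟩ : ∃ Y : ℝ, Y = P * lam ^ n := ⟨_, rfl⟩
  obtain ⟨W, hWd⟩ : ∃ W : ℝ, W = Wp P (P * lam ^ n) := ⟨_, rfl⟩
  have hX0 : 0 < X := by linarith
  have hln : 1 ≤ lam ^ n := one_le_pow₀ hl.le
  have hPY : P ≤ Y := by rw [hY]; nlinarith only [hP, hln]
  have hY1 : 1 ≤ Y := by linarith
  have hW0 : 0 < W := by rw [hWd]; linarith
  have hW1 : 1 ≤ W := by rw [hWd]; exact hW
  have hWY : W ≤ Y := by
    rw [hWd, ← hY]
    exact dc_Wp_le (by linarith)
  have hlogP : 0 < Real.log P := Real.log_pos (by linarith)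
  -- mean value theorem
  have hmv := mv (2 * X) (by linarith) c K
  have hL : ∑ k ∈ Ik K, ‖Ap f k X (2 * X) - (1 / (Wp P (P * lam ^ n) : ℂ)) *
        ∑ v ∈ Finset.range n, Qp f k (P * lam ^ v) (P * lam ^ (v + 1)) *
          Ap f k (X / (P * lam ^ v)) (2 * X / (P * lam ^ (v + 1)))‖ ^ 2 =
      ∑ k ∈ Ik K, ‖∑ w ∈ Us 0 (2 * X), c w * xi k w‖ ^ 2 := by
    refine Finset.sum_congr rfl fun k _ => ?_
    rw [hc k]
  rw [hL]
  rw [← hWd] at hcb ⊢
  obtain ⟨S1, hS1⟩ : ∃ S1 : ℝ, S1 = ∑ w ∈ Us 0 (2 * X),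
      (if X ≤ nm w then |om (Ip P (P * lam ^ n)) w / W - 1| else 0) ^ 2 := ⟨_, rfl⟩
  obtain ⟨S2, hS2⟩ : ∃ S2 : ℝ, S2 = ∑ w ∈ Us 0 (2 * X),
      (if (X ≤ nm w ∧ (nm w : ℝ) < lam * X) ∨ 2 * X / lam ≤ nm w then (2 : ℝ) else 0) ^ 2 :=
    ⟨_, rfl⟩
  obtain ⟨S3, hS3⟩ : ∃ S3 : ℝ, S3 = ∑ w ∈ Us 0 (2 * X), om2 X P lam n w ^ 2 := ⟨_, rfl⟩
  have hsum : ∑ w ∈ Us 0 (2 * X), ‖c w‖ ^ 2 ≤ 3 * (S1 + S2 + S3) := by
    rw [hS1, hS2, hS3, ← Finset.sum_add_distrib, ← Finset.sum_add_distrib, Finset.mul_sum]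
    refine Finset.sum_le_sum fun w hw => ?_
    have h1 := pow_le_pow_left₀ (norm_nonneg _) (hcb w hw) 2
    refine h1.trans ?_
    generalize (if X ≤ nm w then |om (Ip P (P * lam ^ n)) w / W - 1| else 0) = a
    generalize (if (X ≤ nm w ∧ (nm w : ℝ) < lam * X) ∨ 2 * X / lam ≤ nm w then (2 : ℝ) else 0) = b
    generalize om2 X P lam n w = d
    linarith only [sq_nonneg (a - b), sq_nonneg (a - d), sq_nonneg (b - d)]
  -- first part
  have hB1 : S1 ≤ 2 * C1 * (X * (1 / W)) := by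
    have h1 : S1 = ∑ w ∈ (Us 0 (2 * X)).filter (fun w => X ≤ nm w),
        (om (Ip P (P * lam ^ n)) w / W - 1) ^ 2 := by
      rw [hS1, Finset.sum_filter]
      refine Finset.sum_congr rfl fun w _ => ?_
      split_ifs with h
      · exact sq_abs _
      · norm_num
    have h2 : (Us 0 (2 * X)).filter (fun w => X ≤ nm w) ⊆ Vs X (2 * X) := by
      intro w hw
      obtain ⟨h3, h4⟩ := Finset.mem_filter.1 hw
      obtain ⟨h5, -, h6⟩ := mem_Us.1 h3
      exact Us_sub _ _ (mem_Us.2 ⟨h5, h4, h6⟩)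
    have h3 : S1 ≤ ∑ w ∈ Vs X (2 * X), (om (Ip P (P * lam ^ n)) w / W - 1) ^ 2 := by
      rw [h1]
      exact Finset.sum_le_sum_of_subset_of_nonneg h2 fun w _ _ => sq_nonneg _
    have h4 : ∑ w ∈ Vs X (2 * X), (om (Ip P (P * lam ^ n)) w / W - 1) ^ 2 =
        (∑ w ∈ Vs X (2 * X), (om (Ip P (P * lam ^ n)) w - W) ^ 2) / W ^ 2 := by
      rw [Finset.sum_div]
      refine Finset.sum_congr rfl fun w _ => ?_
      field_simp
    have h5 := hTK X P (P * lam ^ n) hX hP (by rw [← hY]; exact hPY) hPX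
    rw [← hWd] at h5
    rw [h4] at h3
    refine h3.trans ?_
    rw [div_le_iff₀ (by positivity)]
    refine h5.trans ?_
    have h6 : 2 * C1 * (X * (1 / W)) * W ^ 2 = C1 * X * (2 * W) := by
      field_simp
    rw [h6]
    apply mul_le_mul_of_nonneg_left _ (by positivity)
    linarith only [hW1]
  -- second part
  have h34 : (2 * X) ^ ((3 : ℝ) / 4) ≤ 2 * (X * (1 / W)) := by
    have h1 : (2 * X) ^ ((3 : ℝ) / 4) = 2 ^ ((3 : ℝ) / 4) * X ^ ((3 : ℝ) / 4) :=
      Real.mul_rpow (by norm_num) hX0.le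
    have h2 : (2 : ℝ) ^ ((3 : ℝ) / 4) ≤ 2 := by
      have := Real.rpow_le_rpow_of_exponent_le (show (1 : ℝ) ≤ 2 by norm_num)
        (show (3 : ℝ) / 4 ≤ 1 by norm_num)
      rwa [Real.rpow_one] at this
    have h3 : Y ≤ X ^ ((1 : ℝ) / 4) := by
      have h4 : Y ^ 4 ≤ X := by
        refine le_trans ?_ hPX
        rw [← hY]
        exact pow_le_pow_right₀ hY1 (by norm_num)
      have h5 := Real.rpow_le_rpow (by positivity) h4 (show (0 : ℝ) ≤ 1 / 4 by norm_num)
      rw [← Real.rpow_natCast, ← Real.rpow_mul (by linarith only [hW1, hWY])] at h5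
      norm_num at h5
      norm_num
      exact h5
    have h6 : X ^ ((3 : ℝ) / 4) * X ^ ((1 : ℝ) / 4) = X := by
      rw [← Real.rpow_add hX0]
      norm_num
    have h7 : 0 ≤ X ^ ((3 : ℝ) / 4) := Real.rpow_nonneg hX0.le _
    have h8 : X ^ ((3 : ℝ) / 4) ≤ X * (1 / W) := by
      rw [mul_one_div, le_div_iff₀ hW0]
      calc X ^ ((3 : ℝ) / 4) * W ≤ X ^ ((3 : ℝ) / 4) * X ^ ((1 : ℝ) / 4) :=
            mul_le_mul_of_nonneg_left (hWY.trans h3) h7
        _ = X := h6
    rw [h1]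
    exact mul_le_mul h2 h8 h7 (by norm_num)
  have hB2 : S2 ≤ 12 * kap1 * (X * (lam - 1)) + 16 * C2 * (X * (1 / W)) := by
    have h1 : S2 = ∑ w ∈ (Us 0 (2 * X)).filter (fun w =>
        (X ≤ nm w ∧ (nm w : ℝ) < lam * X) ∨ 2 * X / lam ≤ nm w), (4 : ℝ) := by
      rw [hS2, Finset.sum_filter]
      refine Finset.sum_congr rfl fun w _ => ?_
      split_ifs with h
      · norm_num
      · norm_num
    have h2 : (Us 0 (2 * X)).filter (fun w =>
        (X ≤ nm w ∧ (nm w : ℝ) < lam * X) ∨ 2 * X / lam ≤ nm w) ⊆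
        Us X (lam * X) ∪ Us (2 * X / lam) (2 * X) := by
      intro w hw
      obtain ⟨h3, h4⟩ := Finset.mem_filter.1 hw
      obtain ⟨h5, -, h6⟩ := mem_Us.1 h3
      rw [Finset.mem_union]
      rcases h4 with h4 | h4
      · exact Or.inl (mem_Us.2 ⟨h5, h4.1, h4.2⟩)
      · exact Or.inr (mem_Us.2 ⟨h5, h4, h6⟩)
    have h3 : S2 ≤ 4 * (((Us X (lam * X)).card : ℝ) + ((Us (2 * X / lam) (2 * X)).card : ℝ)) := by
      rw [h1, Finset.sum_const, nsmul_eq_mul, mul_comm]
      apply mul_le_mul_of_nonneg_left _ (by norm_num)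
      have := (Finset.card_le_card h2).trans (Finset.card_union_le _ _)
      exact_mod_cast this
    have hlam0 : 0 < lam := by linarith only [hl]
    have h4 := hU X (lam * X) hX0.le (by nlinarith only [hX, hl])
    have h5 := hU (2 * X / lam) (2 * X) (by positivity) (by
      rw [div_le_iff₀ hlam0]
      nlinarith only [hX, hl])
    have h6 : (lam * X) ^ ((3 : ℝ) / 4) ≤ (2 * X) ^ ((3 : ℝ) / 4) :=
      Real.rpow_le_rpow (by positivity) (by nlinarith only [hX, hl2]) (by norm_num)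
    have h7 : ((Us X (lam * X)).card : ℝ) ≤ kap1 * (X * (lam - 1)) + C2 * (2 * (X * (1 / W))) := by
      have e1 := (abs_le.1 h4).2
      have e2 : C2 * (lam * X) ^ ((3 : ℝ) / 4) ≤ C2 * (2 * (X * (1 / W))) :=
        mul_le_mul_of_nonneg_left (h6.trans h34) hC2.le
      have e3 : kap1 * (lam * X - X) = kap1 * (X * (lam - 1)) := by ring
      linarith only [e1, e2]
    have h8 : ((Us (2 * X / lam) (2 * X)).card : ℝ) ≤
        2 * kap1 * (X * (lam - 1)) + C2 * (2 * (X * (1 / W))) := by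
      have e1 := (abs_le.1 h5).2
      have e2 : C2 * (2 * X) ^ ((3 : ℝ) / 4) ≤ C2 * (2 * (X * (1 / W))) :=
        mul_le_mul_of_nonneg_left h34 hC2.le
      have e3 : 2 * X - 2 * X / lam ≤ 2 * (X * (lam - 1)) := by
        have e4 : 2 * X / lam = 2 * X * (1 / lam) := by ring
        have e5 : 1 - 1 / lam ≤ lam - 1 := by
          have e6 : 0 < 1 / lam := by positivity
          have e7 : lam * (1 / lam) = 1 := by field_simp
          nlinarith only [hl, e7]
        rw [e4]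
        nlinarith only [hX0, e5]
      have e4 := mul_le_mul_of_nonneg_left e3 hk.le
      linarith only [e1, e2, e4]
    have h9 : 0 ≤ X * (1 / W) := by positivity
    have h10 : 0 ≤ X * (lam - 1) := mul_nonneg hX0.le (by linarith only [hl])
    linarith only [h3, h7, h8]
  -- third part
  have hB3 : S3 ≤ C3 * (X * (1 / Real.log P)) := by
    rw [hS3]
    refine (hcorr X P lam n hX hP hl).trans (le_of_eq ?_)
    ring
  have hT : 0 ≤ 3 * (S1 + S2 + S3) := le_trans (Finset.sum_nonneg fun w _ => by positivity) hsum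
  have hfin : 200 * (K + 2 * X) * ∑ w ∈ Us 0 (2 * X), ‖c w‖ ^ 2 ≤
      600 * X * (3 * (S1 + S2 + S3)) := by
    apply mul_le_mul _ hsum (Finset.sum_nonneg fun w _ => by positivity) (by positivity)
    linarith
  refine hmv.trans (hfin.trans ?_)
  obtain ⟨A1, hA1⟩ : ∃ A1 : ℝ, A1 = X * (1 / W) := ⟨_, rfl⟩
  obtain ⟨A2, hA2⟩ : ∃ A2 : ℝ, A2 = X * (lam - 1) := ⟨_, rfl⟩
  obtain ⟨A3, hA3⟩ : ∃ A3 : ℝ, A3 = X * (1 / Real.log P) := ⟨_, rfl⟩
  have hA10 : 0 ≤ A1 := by rw [hA1]; positivity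
  have hA20 : 0 ≤ A2 := by rw [hA2]; exact mul_nonneg hX0.le (by linarith)
  have hA30 : 0 ≤ A3 := by rw [hA3]; positivity
  rw [← hA1] at hB1 hB2
  rw [← hA2] at hB2
  rw [← hA3] at hB3
  have hall : S1 + S2 + S3 ≤ (2 * C1 + 12 * kap1 + 16 * C2 + C3) * (A1 + A2 + A3) := by
    have e1 : (2 * C1 + 12 * kap1 + 16 * C2 + C3) * (A1 + A2 + A3) =
        (2 * C1 * A1 + (12 * kap1 * A2 + 16 * C2 * A1) + C3 * A3) +
        (12 * kap1 + C3) * A1 + (2 * C1 + 16 * C2 + C3) * A2 +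
        (2 * C1 + 12 * kap1 + 16 * C2) * A3 := by ring
    have e2 : 0 ≤ (12 * kap1 + C3) * A1 := by positivity
    have e3 : 0 ≤ (2 * C1 + 16 * C2 + C3) * A2 := by positivity
    have e4 : 0 ≤ (2 * C1 + 12 * kap1 + 16 * C2) * A3 := by positivity
    linarith
  have hXsum : X ^ 2 * (1 / W + (lam - 1) + 1 / Real.log P) = X * (A1 + A2 + A3) := by
    rw [hA1, hA2, hA3]
    ring
  rw [mul_assoc (1800 * (2 * C1 + 12 * kap1 + 16 * C2 + C3)), hXsum]
  have e5 := mul_le_mul_of_nonneg_left hall hX0.le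
  linarith

end

end Pool.Agent.Lib.MP_0b748d_nt.MR
end

section

section

set_option autoImplicit false

/-!
# Windows and Parseval
-/

namespace Pool.Agent.Lib.MP_0b748d_nt.MR

open Zsqrtd

noncomputable section

/-- the Fourier weight of a window of length `h` -/
def wt (h : ℝ) (k : ℤ) : ℝ :=
  if k = 0 then h ^ 2 else (Real.sin (Real.pi * k * h) / (Real.pi * k)) ^ 2

lemma norm_ee_sub_one_sq (x : ℝ) : ‖ee x - 1‖ ^ 2 = 4 * Real.sin (Real.pi * x) ^ 2 := by
  rw [Complex.sq_norm, Complex.normSq_apply]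
  simp only [Complex.sub_re, Complex.sub_im, Complex.one_re, Complex.one_im, ee_re, ee_im]
  have h1 : Real.cos (2 * Real.pi * x) = 1 - 2 * Real.sin (Real.pi * x) ^ 2 := by
    rw [mul_assoc, Real.cos_two_mul]
    have := Real.sin_sq_add_cos_sq (Real.pi * x)
    linarith
  have h2 := Real.sin_sq_add_cos_sq (2 * Real.pi * x)
  rw [h1] at h2 ⊢
  nlinarith [h2]

lemma norm_int_ee_sq (h : ℝ) (k : ℤ) :
    ‖∫ s in (0 : ℝ)..h, ee (k * s)‖ ^ 2 = wt h k := by
  by_cases hk : k = 0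
  · subst hk
    simp [wt, ee_zero]
  · have hkr : (k : ℝ) ≠ 0 := by exact_mod_cast hk
    have hc : (2 * Real.pi * k * Complex.I : ℂ) ≠ 0 := by
      have h1 : (k : ℂ) ≠ 0 := by exact_mod_cast hk
      have h2 : (Real.pi : ℂ) ≠ 0 := by exact_mod_cast Real.pi_ne_zero
      exact mul_ne_zero (mul_ne_zero (mul_ne_zero two_ne_zero h2) h1) Complex.I_ne_zero
    have h1 : ∫ s in (0 : ℝ)..h, ee (k * s) = (ee (k * h) - 1) / (2 * Real.pi * k * Complex.I) := by
      have h2 := integral_exp_mul_complex (a := 0) (b := h) hc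
      have h3 : ∀ s : ℝ, ee (k * s) = Complex.exp (2 * Real.pi * k * Complex.I * s) := by
        intro s
        simp only [ee]
        congr 1
        push_cast
        ring
      simp only [h3]
      rw [h2]
      simp
    rw [h1, norm_div, div_pow, norm_ee_sub_one_sq, wt, if_neg hk]
    have h4 : ‖(2 * Real.pi * k * Complex.I : ℂ)‖ ^ 2 = 4 * (Real.pi * k) ^ 2 := by
      have : (2 * Real.pi * k * Complex.I : ℂ) = ((2 * Real.pi * k : ℝ) : ℂ) * Complex.I := by
        push_cast; ring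
      rw [this, _root_.norm_mul, Complex.norm_I, mul_one, Complex.norm_real, Real.norm_eq_abs, sq_abs]
      ring
    rw [h4, div_pow, mul_div_mul_left _ _ (by norm_num : (4 : ℝ) ≠ 0)]
    congr 3
    ring

open Classical in
/-- the indicator of a window, as a complex number -/
def chi (h s : ℝ) : ℂ := if Int.fract s < h then 1 else 0

lemma measurable_chi (h : ℝ) : Measurable (chi h) := by
  unfold chi
  exact Measurable.ite (measurableSet_lt measurable_fract measurable_const)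
    measurable_const measurable_const

lemma norm_chi_le (h s : ℝ) : ‖chi h s‖ ≤ 1 := by
  unfold chi
  split_ifs <;> simp

lemma continuous_ee_mul (c : ℝ) : Continuous (fun s : ℝ => ee (c * s)) := by
  unfold ee
  fun_prop

lemma chi_intervalIntegrable (h c α a b : ℝ) :
    IntervalIntegrable (fun s : ℝ => ee (c * s) * chi h (α - s)) MeasureTheory.volume a b := by
  have hm : MeasureTheory.AEStronglyMeasurable (fun s : ℝ => ee (c * s) * chi h (α - s))
      MeasureTheory.volume :=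
    ((continuous_ee_mul c).measurable.mul
      ((measurable_chi h).comp (measurable_const.sub measurable_id))).aestronglyMeasurable
  have hb : ∀ s : ℝ, ‖ee (c * s) * chi h (α - s)‖ ≤ 1 := by
    intro s
    rw [_root_.norm_mul, norm_ee, one_mul]
    exact norm_chi_le _ _
  constructor
  · exact MeasureTheory.Measure.integrableOn_of_bounded (M := 1)
      (measure_Ioc_lt_top).ne hm (Filter.Eventually.of_forall hb)
  · exact MeasureTheory.Measure.integrableOn_of_bounded (M := 1)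
      (measure_Ioc_lt_top).ne hm (Filter.Eventually.of_forall hb)

lemma chi_intervalIntegrable' (h c a b : ℝ) :
    IntervalIntegrable (fun s : ℝ => ee (c * s) * chi h s) MeasureTheory.volume a b := by
  have hm : MeasureTheory.AEStronglyMeasurable (fun s : ℝ => ee (c * s) * chi h s)
      MeasureTheory.volume :=
    ((continuous_ee_mul c).measurable.mul (measurable_chi h)).aestronglyMeasurable
  have hb : ∀ s : ℝ, ‖ee (c * s) * chi h s‖ ≤ 1 := by
    intro s
    rw [_root_.norm_mul, norm_ee, one_mul]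
    exact norm_chi_le _ _
  constructor
  · exact MeasureTheory.Measure.integrableOn_of_bounded (M := 1)
      (measure_Ioc_lt_top).ne hm (Filter.Eventually.of_forall hb)
  · exact MeasureTheory.Measure.integrableOn_of_bounded (M := 1)
      (measure_Ioc_lt_top).ne hm (Filter.Eventually.of_forall hb)

lemma int_chi (h : ℝ) (k : ℤ) (h0 : 0 < h) (h1 : h ≤ 1) :
    ∫ s in (0 : ℝ)..1, ee (k * s) * chi h s = ∫ s in (0 : ℝ)..h, ee (k * s) := by
  rw [← intervalIntegral.integral_add_adjacent_intervals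
    (chi_intervalIntegrable' h k 0 h) (chi_intervalIntegrable' h k h 1)]
  have e1 : ∫ s in (0 : ℝ)..h, ee (k * s) * chi h s = ∫ s in (0 : ℝ)..h, ee (k * s) := by
    rw [intervalIntegral.integral_of_le h0.le, intervalIntegral.integral_of_le h0.le,
      MeasureTheory.integral_Ioc_eq_integral_Ioo, MeasureTheory.integral_Ioc_eq_integral_Ioo]
    refine MeasureTheory.setIntegral_congr_fun measurableSet_Ioo fun s hs => ?_
    have : Int.fract s = s := Int.fract_eq_self.mpr ⟨hs.1.le, hs.2.trans_le h1⟩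
    simp [chi, this, hs.2]
  have e2 : ∫ s in h..1, ee (k * s) * chi h s = 0 := by
    rw [intervalIntegral.integral_of_le h1, MeasureTheory.integral_Ioc_eq_integral_Ioo]
    rw [MeasureTheory.setIntegral_congr_fun (g := fun _ => (0 : ℂ)) measurableSet_Ioo]
    · simp
    · intro s hs
      have : Int.fract s = s := Int.fract_eq_self.mpr ⟨(h0.trans hs.1).le, hs.2⟩
      simp [chi, this, not_lt.mpr hs.1.le]
  rw [e1, e2, add_zero]

lemma int_chi_shift (h α : ℝ) (k : ℤ) (h0 : 0 < h) (h1 : h ≤ 1) :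
    ∫ θ in (0 : ℝ)..1, ee ((-k : ℤ) * θ) * chi h (α - θ)
      = ee (-(k * α)) * ∫ s in (0 : ℝ)..h, ee (k * s) := by
  have e1 : ∀ θ : ℝ, ee ((-k : ℤ) * θ) * chi h (α - θ)
      = ee (-(k * α)) * (fun s => ee (k * s) * chi h s) (α - θ) := by
    intro θ
    simp only
    rw [← mul_assoc, ← ee_add]
    congr 2
    push_cast
    ring
  simp_rw [e1]
  rw [intervalIntegral.integral_const_mul,
    intervalIntegral.integral_comp_sub_left (fun s => ee (k * s) * chi h s) α]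
  congr 1
  rw [← int_chi h k h0 h1]
  have hp : Function.Periodic (fun s : ℝ => ee (k * s) * chi h s) 1 := by
    intro s
    have : Int.fract (s + 1) = Int.fract s := Int.fract_add_one s
    simp only [chi, this]
    congr 1
    rw [mul_add, mul_one, ee_add, ee_int, mul_one]
  have := hp.intervalIntegral_add_eq (α - 1) 0
  simpa using this

open Classical in
/-- Parseval for windows.

Proof. `φ θ = ∑_{z ∈ T} a z 1[fract(al z - θ) < h]` is a bounded `1`-periodic function. Its Fourier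
coefficients on `[0,1]` are `∑_z a z ∫_0^1 1[fract(al z - θ) < h] e(-kθ) dθ`, and by periodicity the
integral equals `∫_{al z - h}^{al z} e(-kθ) dθ = e(-k al z) (e(k h) - 1)/(2π i k)` for `k ≠ 0`
(modulus `|sin(π k h)|/(π |k|)`, the same factor for all `z`) and `h` for `k = 0`. So the squared
modulus of the `k`-th coefficient is `‖∑_z a z conj(xi k z)‖² wt h k`, and
`‖∑ a z conj(xi k z)‖ = ‖∑ a z xi k z‖` because `a` is real. Use Parseval
(`hasSum_sq_fourierCoeff` or `tsum_sq_fourierCoeffOn` in Mathlib, for the circle `AddCircle 1`). -/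
theorem window_parseval (T : Finset (ℤ√2)) (a : ℤ√2 → ℝ) (h : ℝ) (h0 : 0 < h) (h1 : h ≤ 1) :
    HasSum (fun k : ℤ => ‖∑ z ∈ T, (a z : ℂ) * xi k z‖ ^ 2 * wt h k)
      (∫ θ in (0 : ℝ)..1, (∑ z ∈ T.filter (Win θ h), a z) ^ 2) := by
  set f : ℝ → ℂ := fun θ => ∑ z ∈ T, (a z : ℂ) * chi h (al z - θ) with hf
  have hfr : ∀ θ, f θ = ((∑ z ∈ T.filter (Win θ h), a z : ℝ) : ℂ) := by
    intro θ
    rw [hf, Finset.sum_filter]
    push_cast
    refine Finset.sum_congr rfl fun z _ => ?_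
    simp only [chi, Win]
    split_ifs <;> simp
  have hL2 : MeasureTheory.MemLp f 2 (MeasureTheory.volume.restrict (Set.Ioc 0 1)) := by
    refine MeasureTheory.MemLp.of_bound ?_ (∑ z ∈ T, |a z|) ?_
    · refine Measurable.aestronglyMeasurable ?_
      refine Finset.measurable_sum _ fun z _ => ?_
      exact measurable_const.mul ((measurable_chi h).comp (measurable_const.sub measurable_id))
    · refine Filter.Eventually.of_forall fun θ => ?_
      refine (norm_sum_le _ _).trans (Finset.sum_le_sum fun z _ => ?_)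
      rw [_root_.norm_mul, Complex.norm_real, Real.norm_eq_abs]
      exact mul_le_of_le_one_right (abs_nonneg _) (norm_chi_le _ _)
  have key := hasSum_sq_fourierCoeffOn (zero_lt_one) hL2
  have hcoef : ∀ k : ℤ, fourierCoeffOn (zero_lt_one) f k
      = (starRingEnd ℂ) (∑ z ∈ T, (a z : ℂ) * xi k z) * ∫ s in (0 : ℝ)..h, ee (k * s) := by
    intro k
    rw [fourierCoeffOn_eq_integral]
    have e1 : ∀ x : ℝ, fourier (-k) (x : AddCircle ((1 : ℝ) - 0)) • f x
        = ∑ z ∈ T, (a z : ℂ) * (ee ((-k : ℤ) * x) * chi h (al z - x)) := by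
      intro x
      have e2 : fourier (-k) (x : AddCircle ((1 : ℝ) - 0)) = ee ((-k : ℤ) * x) := by
        rw [fourier_coe_apply]
        simp only [ee]
        congr 1
        push_cast
        ring
      rw [e2, smul_eq_mul, hf]
      simp only [Finset.mul_sum]
      refine Finset.sum_congr rfl fun z _ => ?_
      ring
    simp_rw [e1]
    rw [intervalIntegral.integral_finsetSum]
    · simp only [sub_zero, div_one, one_smul]
      simp_rw [intervalIntegral.integral_const_mul, int_chi_shift h _ k h0 h1]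
      rw [map_sum, Finset.sum_mul]
      refine Finset.sum_congr rfl fun z _ => ?_
      rw [map_mul, Complex.conj_ofReal, xi, ← ee_neg]
      ring
    · intro z _
      exact (chi_intervalIntegrable h _ (al z) 0 1).const_mul _
  convert key using 1
  · ext k
    rw [hcoef, _root_.norm_mul, mul_pow, norm_int_ee_sq, RCLike.norm_conj]
  · simp only [sub_zero, inv_one, one_smul]
    congr 1
    ext θ
    rw [hfr, Complex.norm_real, Real.norm_eq_abs, sq_abs]

end

end Pool.Agent.Lib.MP_0b748d_nt.MR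
end

section

set_option autoImplicit false

/-!
# Windows and Parseval
-/

namespace Pool.Agent.Lib.MP_0b748d_nt.MR

open Zsqrtd

noncomputable section

private lemma wt_nonneg (h : ℝ) (k : ℤ) : 0 ≤ wt h k := by
  unfold wt
  split_ifs <;> positivity

private lemma wt_le (h : ℝ) (k : ℤ) : wt h k ≤ h ^ 2 := by
  unfold wt
  split_ifs with hk
  · exact le_rfl
  · have hk' : Real.pi * (k : ℝ) ≠ 0 :=
      mul_ne_zero Real.pi_pos.ne' (by exact_mod_cast hk)
    have h1 : |Real.sin (Real.pi * k * h)| ≤ |Real.pi * k * h| := Real.abs_sin_le_abs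
    rw [div_pow, div_le_iff₀ (by positivity), ← sq_abs (Real.sin _)]
    calc |Real.sin (Real.pi * k * h)| ^ 2 ≤ |Real.pi * k * h| ^ 2 :=
          pow_le_pow_left₀ (abs_nonneg _) h1 2
      _ = h ^ 2 * (Real.pi * k) ^ 2 := by rw [sq_abs]; ring

private lemma wt_far (h : ℝ) {k : ℤ} {L : ℝ} (hL : 0 < L) (hk : L ≤ |(k : ℝ)|) :
    wt h k ≤ 1 / L ^ 2 := by
  have hk0 : k ≠ 0 := by
    rintro rfl
    simp at hk
    linarith
  unfold wt
  rw [if_neg hk0, div_pow, div_le_div_iff₀ _ (by positivity)]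
  · have h1 : Real.sin (Real.pi * k * h) ^ 2 ≤ 1 := by
      rw [sq_le_one_iff_abs_le_one]
      exact Real.abs_sin_le_one _
    have h2 : L ^ 2 ≤ (k : ℝ) ^ 2 := by
      rw [← sq_abs (k : ℝ)]
      exact pow_le_pow_left₀ hL.le hk 2
    have h3 : (1 : ℝ) ≤ Real.pi ^ 2 := by
      have := Real.pi_gt_three
      nlinarith
    rw [one_mul, mul_pow]
    have h4 : 0 ≤ Real.sin (Real.pi * k * h) ^ 2 := sq_nonneg _
    have h5 : 0 ≤ (k : ℝ) ^ 2 := sq_nonneg _
    nlinarith [mul_le_mul h1 h2 (sq_nonneg L) zero_le_one, mul_le_mul_of_nonneg_right h3 h5]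
  · have hk' : (k : ℝ) ≠ 0 := by exact_mod_cast hk0
    have : Real.pi * (k : ℝ) ≠ 0 := mul_ne_zero Real.pi_pos.ne' hk'
    positivity

open Classical in
private lemma mv_win (C : ℝ) (hC : ∀ a b : ℝ, 0 ≤ a → 0 ≤ b → ((Us a b).card : ℝ) ≤ C * b)
    (X : ℝ) (hX : 1 ≤ X) (a : ℤ√2 → ℝ) (ha : ∀ z, |a z| ≤ 1) (K : ℕ) :
    ∑ k ∈ Ik K, ‖∑ z ∈ Us X (2 * X), (a z : ℂ) * xi k z‖ ^ 2 ≤
      200 * (K + 2 * X) * (C * (2 * X)) := by
  set c : ℤ√2 → ℂ := fun w => if w ∈ Us X (2 * X) then (a w : ℂ) else 0 with hc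
  have hsub : Us X (2 * X) ⊆ Us 0 (2 * X) := Us_mono (by linarith) le_rfl
  have h1 : ∀ k, ∑ z ∈ Us X (2 * X), (a z : ℂ) * xi k z = ∑ w ∈ Us 0 (2 * X), c w * xi k w := by
    intro k
    rw [← Finset.sum_subset hsub (f := fun w => c w * xi k w)]
    · refine Finset.sum_congr rfl fun w hw => ?_
      simp only [hc, if_pos hw]
    · intro w _ hw
      simp only [hc, if_neg hw, zero_mul]
  simp only [h1]
  refine (mv (2 * X) (by linarith) c K).trans ?_
  have h2 : ∑ w ∈ Us 0 (2 * X), ‖c w‖ ^ 2 ≤ C * (2 * X) := by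
    refine le_trans ?_ (hC 0 (2 * X) le_rfl (by linarith))
    have h3 : ∀ w ∈ Us 0 (2 * X), ‖c w‖ ^ 2 ≤ 1 := by
      intro w hw
      simp only [hc]
      split_ifs with h4
      · have h5 := ha w
        rw [Complex.norm_real, Real.norm_eq_abs]
        exact pow_le_one₀ (abs_nonneg _) h5
      · simp
    have h6 := Finset.sum_le_card_nsmul (Us 0 (2 * X)) _ _ h3
    rwa [nsmul_eq_mul, mul_one] at h6
  have h7 : (0 : ℝ) ≤ K := Nat.cast_nonneg K
  exact mul_le_mul_of_nonneg_left h2 (by positivity)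

private lemma Ik_mono {K L : ℕ} (h : K ≤ L) : Ik K ⊆ Ik L := by
  unfold Ik
  intro x hx
  rw [Finset.mem_Icc] at hx ⊢
  have : (K : ℤ) ≤ L := by exact_mod_cast h
  omega

private lemma not_mem_Ik {K : ℕ} {k : ℤ} (h : k ∉ Ik K) : (K : ℝ) ≤ |(k : ℝ)| := by
  unfold Ik at h
  rw [Finset.mem_Icc, not_and_or] at h
  have h1 : (K : ℤ) ≤ |k| := by
    rcases h with h | h
    · push Not at h
      have := neg_le_abs k
      omega
    · push Not at h
      have := le_abs_self k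
      omega
  have h2 : ((K : ℤ) : ℝ) ≤ ((|k| : ℤ) : ℝ) := by exact_mod_cast h1
  push_cast at h2
  exact h2

open Classical in
/-- windows and mean values.

Proof. By `window_parseval` the integral is `∑_k ‖S k‖² wt h k`. For all `k`, `wt h k ≤ h²`
(`|sin x| ≤ |x|`), and `wt h k ≤ 1/(π² k²)` for `k ≠ 0`. The `k` with `2^i K < |k| ≤ 2^(i+1) K`,
`i ≥ 0`, contribute at most `(1/(π² 4^i K²)) 200 (2^(i+1) K + 2X) #Us X 2X` (`mv` with `H = 2X`)
`≤ C' (1/(2^i K) + X/(4^i K²)) X` (`U_le`); sum over `i`. -/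
theorem window_bound : ∃ C : ℝ, 1 ≤ C ∧ ∀ (X : ℝ) (K : ℕ) (a : ℤ√2 → ℝ) (h : ℝ), 1 ≤ X → 1 ≤ K →
    (∀ z, |a z| ≤ 1) → 0 < h → h ≤ 1 →
    ∫ θ in (0 : ℝ)..1, (∑ z ∈ (Us X (2 * X)).filter (Win θ h), a z) ^ 2 ≤
      h ^ 2 * ∑ k ∈ Ik K, ‖∑ z ∈ Us X (2 * X), (a z : ℂ) * xi k z‖ ^ 2 +
        C * (1 / K + X / K ^ 2) * X := by
  obtain ⟨C, hC1, hC⟩ := U_le
  refine ⟨1600 * C, by linarith, fun X K a h hX hK ha h0 h1 => ?_⟩
  set S : ℤ → ℂ := fun k => ∑ z ∈ Us X (2 * X), (a z : ℂ) * xi k z with hS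
  have hKr : (1 : ℝ) ≤ K := by exact_mod_cast hK
  have hX0 : 0 < X := by linarith
  have hC0 : 0 < C := by linarith
  set E : ℝ := 800 * C * (1 / K + X / K ^ 2) * X with hE
  have hE0 : 0 ≤ E := by positivity
  have hf0 : ∀ k : ℤ, 0 ≤ ‖S k‖ ^ 2 * wt h k := fun k =>
    mul_nonneg (sq_nonneg _) (wt_nonneg h k)
  have hind : ∀ J : ℕ, ∑ k ∈ Ik (2 ^ J * K), ‖S k‖ ^ 2 * wt h k ≤
      h ^ 2 * ∑ k ∈ Ik K, ‖S k‖ ^ 2 + E * (2 - 2 * (1 / 2) ^ J) := by
    intro J
    induction J with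
    | zero =>
      simp only [pow_zero, one_mul, mul_one, sub_self, mul_zero, add_zero]
      rw [Finset.mul_sum]
      refine Finset.sum_le_sum fun k _ => ?_
      rw [mul_comm]
      exact mul_le_mul_of_nonneg_right (wt_le h k) (sq_nonneg _)
    | succ J ih =>
      have hle : 2 ^ J * K ≤ 2 ^ (J + 1) * K := by
        have : 2 ^ J ≤ 2 ^ (J + 1) := Nat.pow_le_pow_right (by norm_num) (Nat.le_succ J)
        exact Nat.mul_le_mul_right K this
      rw [← Finset.sum_sdiff (Ik_mono hle)]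
      have hL : (0 : ℝ) < 2 ^ J * K := by positivity
      have h2 : ∑ k ∈ Ik (2 ^ (J + 1) * K) \ Ik (2 ^ J * K), ‖S k‖ ^ 2 * wt h k ≤
          (1 / (2 ^ J * (K : ℝ)) ^ 2) * (200 * (((2 ^ (J + 1) * K : ℕ) : ℝ) + 2 * X) *
            (C * (2 * X))) := by
        calc ∑ k ∈ Ik (2 ^ (J + 1) * K) \ Ik (2 ^ J * K), ‖S k‖ ^ 2 * wt h k
            ≤ ∑ k ∈ Ik (2 ^ (J + 1) * K) \ Ik (2 ^ J * K),
                ‖S k‖ ^ 2 * (1 / (2 ^ J * (K : ℝ)) ^ 2) := by
              refine Finset.sum_le_sum fun k hk => ?_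
              refine mul_le_mul_of_nonneg_left (wt_far h hL ?_) (sq_nonneg _)
              have h3 := not_mem_Ik (Finset.mem_sdiff.1 hk).2
              push_cast at h3
              exact h3
          _ ≤ ∑ k ∈ Ik (2 ^ (J + 1) * K), ‖S k‖ ^ 2 * (1 / (2 ^ J * (K : ℝ)) ^ 2) :=
              Finset.sum_le_sum_of_subset_of_nonneg Finset.sdiff_subset
                fun _ _ _ => by positivity
          _ = (1 / (2 ^ J * (K : ℝ)) ^ 2) * ∑ k ∈ Ik (2 ^ (J + 1) * K), ‖S k‖ ^ 2 := by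
              rw [← Finset.sum_mul, mul_comm]
          _ ≤ _ := mul_le_mul_of_nonneg_left (mv_win C hC X hX a ha _) (by positivity)
      have h3 : (1 / (2 ^ J * (K : ℝ)) ^ 2) * (200 * (((2 ^ (J + 1) * K : ℕ) : ℝ) + 2 * X) *
            (C * (2 * X))) ≤ E * (1 / 2) ^ J := by
        have e1 : (1 / (2 ^ J * (K : ℝ)) ^ 2) * (200 * (((2 ^ (J + 1) * K : ℕ) : ℝ) + 2 * X) *
            (C * (2 * X))) =
            800 * C * X * ((1 / K) * (1 / 2) ^ J + (X / K ^ 2) * ((1 / 2) ^ J * (1 / 2) ^ J)) := by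
          push_cast
          rw [one_div_pow, pow_succ]
          field_simp
          ring
        have e2 : ((1 : ℝ) / 2) ^ J * (1 / 2) ^ J ≤ (1 / 2) ^ J := by
          have e3 : ((1 : ℝ) / 2) ^ J ≤ 1 := pow_le_one₀ (by norm_num) (by norm_num)
          have e4 : (0 : ℝ) ≤ (1 / 2) ^ J := by positivity
          nlinarith
        rw [e1, hE]
        calc 800 * C * X * ((1 / K) * (1 / 2) ^ J + (X / K ^ 2) * ((1 / 2) ^ J * (1 / 2) ^ J))
            ≤ 800 * C * X * ((1 / K) * (1 / 2) ^ J + (X / K ^ 2) * (1 / 2) ^ J) := by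
              gcongr
          _ = _ := by ring
      have h4 : (2 : ℝ) - 2 * (1 / 2) ^ (J + 1) = (2 - 2 * (1 / 2) ^ J) + (1 / 2) ^ J := by
        rw [pow_succ]
        ring
      rw [h4, mul_add]
      linarith
  have hfin : ∀ s : Finset ℤ, ∑ k ∈ s, ‖S k‖ ^ 2 * wt h k ≤
      h ^ 2 * ∑ k ∈ Ik K, ‖S k‖ ^ 2 + 2 * E := by
    intro s
    obtain ⟨J, hJ⟩ : ∃ J : ℕ, ∀ k ∈ s, k.natAbs ≤ 2 ^ J := by
      refine ⟨∑ k ∈ s, k.natAbs, fun k hk => ?_⟩
      have e1 : k.natAbs ≤ ∑ k ∈ s, k.natAbs :=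
        Finset.single_le_sum (f := fun k : ℤ => k.natAbs) (fun _ _ => Nat.zero_le _) hk
      exact e1.trans Nat.lt_two_pow_self.le
    have hsub : s ⊆ Ik (2 ^ J * K) := by
      intro k hk
      have e1 := hJ k hk
      have e2 : k.natAbs ≤ 2 ^ J * K := e1.trans (Nat.le_mul_of_pos_right _ hK)
      unfold Ik
      rw [Finset.mem_Icc]
      have e3 : |k| ≤ ((2 ^ J * K : ℕ) : ℤ) := by
        rw [Int.abs_eq_natAbs]
        exact_mod_cast e2
      exact abs_le.1 e3
    calc ∑ k ∈ s, ‖S k‖ ^ 2 * wt h k ≤ ∑ k ∈ Ik (2 ^ J * K), ‖S k‖ ^ 2 * wt h k :=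
          Finset.sum_le_sum_of_subset_of_nonneg hsub fun k _ _ => hf0 k
      _ ≤ _ := hind J
      _ ≤ _ := by
          have e4 : (0 : ℝ) ≤ (1 / 2) ^ J := by positivity
          nlinarith
  have hP := window_parseval (Us X (2 * X)) a h h0 h1
  have hle := hasSum_le_of_sum_le hP hfin
  refine hle.trans (le_of_eq ?_)
  rw [hE]
  ring

open Classical in
/-- mean of the number of elements in a window.

Proof. `∫_0^1 1[fract(α - θ) < h] dθ = h` for every real `α`. -/
theorem window_mean (T : Finset (ℤ√2)) (h : ℝ) (h0 : 0 < h) (h1 : h ≤ 1) :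
    ∫ θ in (0 : ℝ)..1, ((T.filter (Win θ h)).card : ℝ) = h * T.card := by
  have hper : ∀ α : ℝ, ∫ θ in (0 : ℝ)..1, (if Int.fract (α - θ) < h then (1 : ℝ) else 0) = h := by
    intro α
    set g : ℝ → ℝ := fun x => if Int.fract x < h then (1 : ℝ) else 0 with hg
    have hgp : Function.Periodic g 1 := by
      intro x
      simp only [hg, Int.fract_add_one]
    have e1 : ∫ θ in (0 : ℝ)..1, g (α - θ) = ∫ x in (α - 1)..(α - 0), g x :=
      intervalIntegral.integral_comp_sub_left g α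
    have e2 : ∫ x in (α - 1)..(α - 0), g x = ∫ x in (0 : ℝ)..(0 + 1), g x := by
      have := hgp.intervalIntegral_add_eq (α - 1) 0
      rw [← this]
      congr 1
      ring
    have e3 : ∫ x in (0 : ℝ)..(0 + 1), g x = h := by
      rw [zero_add, intervalIntegral.integral_of_le zero_le_one,
        ← MeasureTheory.integral_Ico_eq_integral_Ioc]
      have e4 : ∫ x in Set.Ico (0 : ℝ) 1, g x =
          ∫ x in Set.Ico (0 : ℝ) 1, (Set.Iio h).indicator (fun _ => (1 : ℝ)) x := by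
        refine MeasureTheory.setIntegral_congr_fun measurableSet_Ico fun x hx => ?_
        simp only [hg, Int.fract_eq_self.2 ⟨hx.1, hx.2⟩, Set.indicator, Set.mem_Iio]
      rw [e4, MeasureTheory.integral_indicator measurableSet_Iio,
        MeasureTheory.Measure.restrict_restrict measurableSet_Iio]
      have e5 : Set.Iio h ∩ Set.Ico (0 : ℝ) 1 = Set.Ico 0 h := by
        ext x
        simp only [Set.mem_inter_iff, Set.mem_Iio, Set.mem_Ico]
        constructor
        · rintro ⟨a, b, c⟩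
          exact ⟨b, a⟩
        · rintro ⟨a, b⟩
          exact ⟨b, a, by linarith⟩
      rw [e5]
      simp [h0.le]
    calc ∫ θ in (0 : ℝ)..1, (if Int.fract (α - θ) < h then (1 : ℝ) else 0)
        = ∫ θ in (0 : ℝ)..1, g (α - θ) := rfl
      _ = h := by rw [e1, e2, e3]
  have hcard : ∀ θ : ℝ, ((T.filter (Win θ h)).card : ℝ) =
      ∑ z ∈ T, (if Int.fract (al z - θ) < h then (1 : ℝ) else 0) := by
    intro θ
    rw [Finset.card_filter]
    push_cast
    rfl
  simp only [hcard]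
  rw [intervalIntegral.integral_finsetSum]
  · simp only [hper, Finset.sum_const, nsmul_eq_mul]
    ring
  · intro z _
    have hm : Measurable fun θ : ℝ => (if Int.fract (al z - θ) < h then (1 : ℝ) else 0) := by
      refine Measurable.ite ?_ measurable_const measurable_const
      exact measurableSet_lt (measurable_fract.comp (measurable_const.sub measurable_id))
        measurable_const
    rw [intervalIntegrable_iff, Set.uIoc_of_le zero_le_one]
    refine MeasureTheory.Integrable.of_bound (C := 1) hm.aestronglyMeasurable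
      (Filter.Eventually.of_forall fun θ => ?_)
    split_ifs <;> simp

open Classical in
/-- at most `C (h X + 1)` elements in a window.

Proof. The numbers `fract(al z - θ) ∈ [0, h)` for the `z` in the window are pairwise at distance
`≥ 1/(8 ⌈2X⌉)` (`freq_sep`, as in `mv`). So there are at most `8 ⌈2X⌉ h + 1` of them. -/
theorem window_card : ∃ C : ℝ, 1 ≤ C ∧ ∀ X h θ : ℝ, 1 ≤ X → 0 < h → h ≤ 1 →
    (((Us X (2 * X)).filter (Win θ h)).card : ℝ) ≤ C * (h * X + 1) := by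
  refine ⟨24, by norm_num, fun X h θ hX h0 h1 => ?_⟩
  set H' : ℕ := ⌈2 * X⌉₊ with hH'
  have hH1 : 1 ≤ H' := Nat.one_le_ceil_iff.2 (by linarith)
  have hH1r : (1 : ℝ) ≤ H' := by exact_mod_cast hH1
  have hH2 : (H' : ℝ) < 2 * X + 1 := Nat.ceil_lt_add_one (by linarith)
  set δ : ℝ := 1 / (8 * (H' : ℝ)) with hδ
  have hδ0 : 0 < δ := by positivity
  set f : ℤ√2 → ℝ := fun z => Int.fract (al z - θ) with hf
  set S := (Us X (2 * X)).filter (Win θ h) with hS
  have hsub : Us X (2 * X) ⊆ Us 0 (2 * X) := Us_mono (by linarith) le_rfl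
  have hinj : Set.InjOn (fun z => ⌊f z / δ⌋₊) (S : Set (ℤ√2)) := by
    intro z hz w hw hzw
    by_contra hne
    have hz1 := hsub (Finset.mem_filter.1 (Finset.mem_coe.1 hz)).1
    have hw1 := hsub (Finset.mem_filter.1 (Finset.mem_coe.1 hw)).1
    have h2 := Us_sep hz1 hw1 hne (⌊al z - θ⌋ - ⌊al w - θ⌋)
    have h3 : al z - al w - ((⌊al z - θ⌋ - ⌊al w - θ⌋ : ℤ) : ℝ) = f z - f w := by
      simp only [hf, Int.fract]
      push_cast
      ring
    rw [h3] at h2
    have hfz : 0 ≤ f z / δ := div_nonneg (Int.fract_nonneg _) hδ0.le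
    have hfw : 0 ≤ f w / δ := div_nonneg (Int.fract_nonneg _) hδ0.le
    have h4 := Nat.floor_le hfz
    have h5 := Nat.lt_floor_add_one (f z / δ)
    have h6 := Nat.floor_le hfw
    have h7 := Nat.lt_floor_add_one (f w / δ)
    simp only at hzw
    rw [hzw] at h4 h5
    have h8 : |f z / δ - f w / δ| < 1 := by
      rw [abs_lt]
      constructor <;> linarith
    rw [← sub_div, abs_div, abs_of_pos hδ0, div_lt_one hδ0] at h8
    linarith
  have hmap : ∀ z ∈ S, ⌊f z / δ⌋₊ ∈ Finset.range (⌊h / δ⌋₊ + 1) := by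
    intro z hz
    have h2 : f z < h := (Finset.mem_filter.1 hz).2
    rw [Finset.mem_range, Nat.lt_succ_iff]
    exact Nat.floor_le_floor (div_le_div_of_nonneg_right h2.le hδ0.le)
  have hc := Finset.card_le_card_of_injOn _ hmap hinj
  rw [Finset.card_range] at hc
  have hc' : (S.card : ℝ) ≤ (⌊h / δ⌋₊ : ℝ) + 1 := by exact_mod_cast hc
  have h2 : (⌊h / δ⌋₊ : ℝ) ≤ h / δ := Nat.floor_le (div_nonneg h0.le hδ0.le)
  have h3 : h / δ = 8 * H' * h := by
    rw [hδ]
    field_simp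
  have h4 : 8 * (H' : ℝ) * h ≤ 24 * (h * X) := by
    have : (H' : ℝ) ≤ 3 * X := by linarith
    nlinarith
  have h5 : (S.card : ℝ) ≤ 24 * (h * X) + 1 := by linarith
  linarith

end

end Pool.Agent.Lib.MP_0b748d_nt.MR
end
end
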