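import Mathlib
import Pool.Agent.Lib.MP_0b748d_nt.MR.TOp
import Pool.Agent.Lib.MP_0b748d_nt.MR.Sector

section

set_option autoImplicit false

/-!
# The parameters of the levels

`L_j = L^(2^j)`, `P_j = exp L_j`, `λ_j = 1 + 1/(2^j log L)`, `n_j = ⌈4 * 2^j log L * L_j^(3/2)⌉`,
`α_j = α (1 - 2^(-(j+1)))`. Note `2^j log L = log L_j`.
-/

namespace Pool.Agent.Lib.MP_0b748d_nt.MR

open Zsqrtd

noncomputable section

def pL (L : ℝ) (j : ℕ) : ℝ := L ^ (2 ^ j)

def pP (L : ℝ) (j : ℕ) : ℝ := Real.exp (pL L j)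

def pl (L : ℝ) (j : ℕ) : ℝ := 1 + 1 / Real.log (pL L j)

def pn (L : ℝ) (j : ℕ) : ℕ := ⌈4 * Real.log (pL L j) * pL L j ^ ((3 : ℝ) / 2)⌉₊

def pa (α : ℝ) (j : ℕ) : ℝ := α * (1 - (1 / 2) ^ (j + 1))

def pr (L : ℝ) (j : ℕ) : ℕ := ⌈7 * pL L j ^ 2⌉₊

theorem pL_succ (L : ℝ) (j : ℕ) : pL L (j + 1) = pL L j ^ 2 := by
  unfold pL
  rw [pow_succ 2 j, pow_mul]

theorem log_pL (L : ℝ) (j : ℕ) : Real.log (pL L j) = 2 ^ j * Real.log L := by
  unfold pL
  rw [Real.log_pow]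
  push_cast
  ring

theorem pL_mono (L : ℝ) (hL : 1 ≤ L) (j : ℕ) : L ≤ pL L j ∧ pL L j ≤ pL L (j + 1) := by
  unfold pL
  constructor
  · exact le_self_pow₀ hL (by positivity)
  · exact pow_le_pow_right₀ hL (Nat.pow_le_pow_right (by norm_num) (Nat.le_succ j))

/-- `2^j ≤ L_j^(1/4)` for `L ≥ 16`, since `L_j^(1/4) = (L^(1/4))^(2^j) ≥ 2^(2^j) ≥ 2^j` -/
theorem two_pow_le (L : ℝ) (hL : 16 ≤ L) (j : ℕ) : (2 : ℝ) ^ j ≤ pL L j ^ ((1 : ℝ) / 4) := by
  have hL0 : (0 : ℝ) ≤ L := by linarith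
  have h1 : (2 : ℝ) ≤ L ^ ((1 : ℝ) / 4) := by
    have h2 : (2 : ℝ) = (16 : ℝ) ^ ((1 : ℝ) / 4) := by
      rw [show (16 : ℝ) = 2 ^ (4 : ℝ) by norm_num, ← Real.rpow_mul (by norm_num)]
      norm_num
    calc (2 : ℝ) = (16 : ℝ) ^ ((1 : ℝ) / 4) := h2
      _ ≤ L ^ ((1 : ℝ) / 4) := Real.rpow_le_rpow (by norm_num) hL (by norm_num)
  have h3 : pL L j ^ ((1 : ℝ) / 4) = (L ^ ((1 : ℝ) / 4)) ^ (2 ^ j) := by
    unfold pL
    rw [← Real.rpow_natCast, ← Real.rpow_natCast, ← Real.rpow_mul hL0, ← Real.rpow_mul hL0,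
      mul_comm]
  rw [h3]
  calc (2 : ℝ) ^ j ≤ 2 ^ (2 ^ j) := pow_le_pow_right₀ (by norm_num) Nat.lt_two_pow_self.le
    _ ≤ (L ^ ((1 : ℝ) / 4)) ^ (2 ^ j) := pow_le_pow_left₀ (by norm_num) h1 _

/-- size of the top of a level.

Proof. Let `x = L_j ≥ 3`, `l = log x ≥ 1`, so `λ = 1 + 1/l ≤ 2`, and `1/(2 l) ≤ log λ ≤ 1/l`.
`n log λ ≤ (4 l x^(3/2) + 1)/l ≤ 4 x^(3/2) + 1`, `n log λ ≥ 4 l x^(3/2)/(2 l) = 2 x^(3/2)`. -/
theorem top_size (L : ℝ) (hL : 3 ≤ L) (j : ℕ) :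
    pL L j ^ ((3 : ℝ) / 2) ≤ Real.log (pP L j * pl L j ^ pn L j) ∧
      Real.log (pP L j * pl L j ^ pn L j) ≤ 6 * pL L j ^ ((3 : ℝ) / 2) := by
  set x := pL L j with hx
  have hx3 : 3 ≤ x := hL.trans (pL_mono L (by linarith) j).1
  have hx0 : 0 < x := by linarith
  set l := Real.log x with hl
  have hl1 : 1 ≤ l := by
    rw [hl, Real.le_log_iff_exp_le hx0]
    exact (Real.exp_one_lt_d9.le.trans (by norm_num)).trans hx3
  have hl0 : 0 < l := by linarith
  have hlam : pl L j = 1 + 1 / l := by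
    unfold pl
    rw [← hx]
  have hlam0 : 0 < pl L j := by
    rw [hlam]
    positivity
  set u := Real.log (pl L j) with hu
  have hu1 : u ≤ 1 / l := by
    have h := Real.log_le_sub_one_of_pos hlam0
    rw [hu]
    rw [hlam] at h ⊢
    linarith
  have hu2 : 1 / (2 * l) ≤ u := by
    have h := Real.one_sub_inv_le_log_of_pos hlam0
    have h2 : 1 / (2 * l) ≤ 1 - (pl L j)⁻¹ := by
      rw [hlam]
      have h3 : 1 - (1 + 1 / l)⁻¹ = 1 / (l + 1) := by
        field_simp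
        ring
      rw [h3]
      exact one_div_le_one_div_of_le (by linarith) (by linarith)
    exact h2.trans h
  have hu0 : 0 < u := lt_of_lt_of_le (by positivity) hu2
  set y := x ^ ((3 : ℝ) / 2) with hy
  have hy0 : 0 < y := Real.rpow_pos_of_pos hx0 _
  have hyx : x ≤ y := by
    rw [hy]
    calc x = x ^ (1 : ℝ) := (Real.rpow_one x).symm
      _ ≤ _ := Real.rpow_le_rpow_of_exponent_le (by linarith) (by norm_num)
  have hpn : (pn L j : ℝ) = ⌈4 * l * y⌉₊ := by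
    unfold pn
    rw [← hx]
  have hn1 : 4 * l * y ≤ (pn L j : ℝ) := by
    rw [hpn]
    exact Nat.le_ceil _
  have hn2 : (pn L j : ℝ) ≤ 4 * l * y + 1 := by
    rw [hpn]
    exact (Nat.ceil_lt_add_one (by positivity)).le
  have hlog : Real.log (pP L j * pl L j ^ pn L j) = x + pn L j * u := by
    unfold pP
    rw [Real.log_mul (Real.exp_pos _).ne' (pow_pos hlam0 _).ne', Real.log_exp, Real.log_pow]
  rw [hlog]
  constructor
  · have h1 : 4 * l * y * (1 / (2 * l)) ≤ (pn L j : ℝ) * u :=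
      mul_le_mul hn1 hu2 (by positivity) (by positivity)
    have h2 : 4 * l * y * (1 / (2 * l)) = 2 * y := by
      field_simp
      ring
    linarith
  · have h1 : (pn L j : ℝ) * u ≤ (4 * l * y + 1) * (1 / l) :=
      mul_le_mul hn2 hu1 hu0.le (by positivity)
    have h2 : (4 * l * y + 1) * (1 / l) = 4 * y + 1 / l := by
      field_simp
    have h3 : 1 / l ≤ 1 := by
      rw [div_le_one hl0]
      exact hl1
    linarith

end

end Pool.Agent.Lib.MP_0b748d_nt.MR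
end

section

set_option autoImplicit false

/-!
# Primitive elements by Moebius inversion
-/

namespace Pool.Agent.Lib.MP_0b748d_nt.MR

open Zsqrtd

noncomputable section

open Classical in
theorem moebius_dvd_sum {c : ℕ} (hc : c % 2 = 1) (φ : ℤ√2 → ℂ)
    (hφ : ∀ z, OT z → φ (((c : ℕ) : ℤ√2) * z) = φ z) (a b : ℝ) :
    ∑ w ∈ (Vs a b).filter (fun w => ((c : ℕ) : ℤ√2) ∣ w), φ w =
      ∑ w ∈ Vs (a / (c : ℝ) ^ 2) (b / (c : ℝ) ^ 2), φ w := by
  classical
  have hc1 : 1 ≤ c := by omega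
  have hc0 : (0 : ℝ) < (c : ℝ) ^ 2 := by positivity
  have hcz : (c : ℤ) ≠ 0 := by exact_mod_cast (by omega : c ≠ 0)
  have hnm : ∀ m : ℤ√2, ((nm (((c : ℕ) : ℤ√2) * m) : ℤ) : ℝ) = (c : ℝ) ^ 2 * (nm m : ℝ) := by
    intro m
    rw [nm_mul, nm_nat]
    push_cast
    ring
  symm
  refine Finset.sum_bij (fun m _ => ((c : ℕ) : ℤ√2) * m) ?_ ?_ ?_ ?_
  · intro m hm
    rw [mem_Vs] at hm
    obtain ⟨hO, ha, hb, h0, h1⟩ := hm
    rw [Finset.mem_filter, mem_Vs]
    have hOc := OT_nat c hc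
    rw [div_le_iff₀ hc0] at ha
    rw [lt_div_iff₀ hc0] at hb
    refine ⟨⟨⟨hOc.1.mul hO.1, ?_⟩, ?_, ?_, ?_, ?_⟩, dvd_mul_right _ _⟩
    · have e : (((c : ℕ) : ℤ√2) * m).re = (c : ℤ) * m.re := by
        simp
      rw [e]
      have h3 := hO.2
      have h4 : (c : ℤ) % 2 = 1 := by omega
      rw [Int.mul_emod, h3, h4]
      rfl
    · rw [hnm]; linarith
    · rw [hnm]; linarith
    · rw [al_nat_mul c hc1 hO.1]; exact h0
    · rw [al_nat_mul c hc1 hO.1]; exact h1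
  · intro m hm m' hm' h
    have h' : ((c : ℤ) : ℤ√2) * m = ((c : ℤ) : ℤ√2) * m' := by simpa using h
    exact Zsqrtd.eq_of_smul_eq_smul_left hcz h'
  · intro w hw
    rw [Finset.mem_filter, mem_Vs] at hw
    obtain ⟨⟨hO, ha, hb, h0, h1⟩, m, rfl⟩ := hw
    have hOm : OT m := OT_of_mul (OT_nat c hc) hO
    refine ⟨m, ?_, rfl⟩
    rw [mem_Vs, div_le_iff₀ hc0, lt_div_iff₀ hc0]
    rw [hnm] at ha hb
    rw [al_nat_mul c hc1 hOm.1] at h0 h1
    exact ⟨hOm, by linarith, by linarith, h0, h1⟩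
  · intro m hm
    rw [mem_Vs] at hm
    exact (hφ m hm.1).symm

open Classical in
theorem moebius_ind {a b : ℝ} {T : ℕ} (hT : √b ≤ T) {w : ℤ√2} (hw : w ∈ Vs a b) :
    ∑ c ∈ ((Finset.Icc 1 T).filter (fun c => c % 2 = 1)).filter
      (fun c : ℕ => ((c : ℕ) : ℤ√2) ∣ w), (ArithmeticFunction.moebius c : ℤ) =
      if Int.gcd w.re w.im = 1 then 1 else 0 := by
  classical
  rw [mem_Vs] at hw
  obtain ⟨hO, ha, hb, h0, h1⟩ := hw
  have hn0 : 0 < nm w := hO.1.nm_pos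
  have hb0 : 0 ≤ b := by
    have : (0 : ℝ) < nm w := by exact_mod_cast hn0
    linarith
  have hre : w.re ≠ 0 := by
    intro h
    have := hO.2
    rw [h] at this
    simp at this
  have he : Int.gcd w.re w.im ≠ 0 := by
    intro h
    exact hre (Int.gcd_eq_zero_iff.1 h).1
  have hset : ((Finset.Icc 1 T).filter (fun c => c % 2 = 1)).filter
      (fun c : ℕ => ((c : ℕ) : ℤ√2) ∣ w) = (Int.gcd w.re w.im).divisors := by
    ext c
    have hdiv : ((c : ℕ) : ℤ√2) ∣ w ↔ c ∣ Int.gcd w.re w.im := by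
      have h2 := Zsqrtd.intCast_dvd (c : ℤ) w
      have h3 : (((c : ℤ)) : ℤ√2) = ((c : ℕ) : ℤ√2) := by simp
      rw [h3] at h2
      rw [h2, ← Int.natCast_dvd_natCast, Int.dvd_coe_gcd_iff]
    rw [Finset.mem_filter, Finset.mem_filter, Finset.mem_Icc, Nat.mem_divisors, hdiv]
    constructor
    · rintro ⟨-, h⟩
      exact ⟨h, he⟩
    · rintro ⟨h, -⟩
      have hd : (c : ℤ) ∣ w.re ∧ (c : ℤ) ∣ w.im := by
        rw [← Int.dvd_coe_gcd_iff]
        exact Int.natCast_dvd_natCast.2 h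
      have hc1 : 1 ≤ c := Nat.pos_of_dvd_of_pos h (Nat.pos_of_ne_zero he)
      refine ⟨⟨⟨hc1, ?_⟩, ?_⟩, h⟩
      · have h4 : (c : ℤ) ^ 2 ∣ nm w := by
          obtain ⟨⟨x, hx⟩, ⟨y, hy⟩⟩ := hd
          refine ⟨x ^ 2 - 2 * y ^ 2, ?_⟩
          rw [nm, hx, hy]
          ring
        have h5 : (c : ℤ) ^ 2 ≤ nm w := Int.le_of_dvd hn0 h4
        have h6 : (c : ℝ) ^ 2 ≤ b := by
          have : ((c : ℤ) : ℝ) ^ 2 ≤ nm w := by exact_mod_cast h5
          push_cast at this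
          linarith
        have h7 : (c : ℝ) ≤ √b := Real.le_sqrt_of_sq_le h6
        exact_mod_cast h7.trans hT
      · have h8 := hO.2
        obtain ⟨x, hx⟩ := hd.1
        rw [hx, Int.mul_emod] at h8
        rcases Int.emod_two_eq_zero_or_one (c : ℤ) with h9 | h9
        · rw [h9] at h8
          simp at h8
        · omega
  rw [hset]
  have h10 := congrArg (fun f : ArithmeticFunction ℤ => f (Int.gcd w.re w.im))
    ArithmeticFunction.coe_zeta_mul_moebius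
  simp only [ArithmeticFunction.coe_zeta_mul_apply, ArithmeticFunction.one_apply] at h10
  exact h10

/-- Moebius inversion for sums over primitive elements.

Proof. For `w ∈ Vs a b` let `e = gcd(re w, im w)` (odd); `∑_{c ∣ e} μ(c) = 1` iff `e = 1` iff `w`
primitive. So `∑_{Us} φ = ∑_c μ(c) ∑_{w ∈ Vs a b, c ∣ w} φ w`, `c` odd, and `c ∣ w` forces
`c² ≤ nm w < b`, so `c ≤ T`; `sum_dvd` with `ρ = c` (`nm c = c²`, `OT_nat`) gives
`∑_{m ∈ Vs (a/c²) (b/c²)} φ(c m) = ∑ φ m`. (`φ` restricted to odd totally positive elements must be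
invariant under units: add this, i.e. use only that the bijection `w = un n * (c m)`... to avoid
this use that the map `m ↦ c m` itself is a bijection from `Vs (a/c²) (b/c²)` onto
`{w ∈ Vs a b, c ∣ w}`, because `al (c m) = al m`; so no invariance is needed.) -/
theorem sum_Us_moebius (φ : ℤ√2 → ℂ) (hφ : ∀ c : ℕ, c % 2 = 1 → ∀ z, OT z →
    φ (((c : ℕ) : ℤ√2) * z) = φ z) (a b : ℝ) (T : ℕ) (hT : √b ≤ T) :
    ∑ w ∈ Us a b, φ w = ∑ c ∈ (Finset.Icc 1 T).filter (fun c => c % 2 = 1),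
      ((ArithmeticFunction.moebius c : ℤ) : ℂ) *
        ∑ w ∈ Vs (a / (c : ℝ) ^ 2) (b / (c : ℝ) ^ 2), φ w := by
  classical
  have h1 : ∀ c ∈ (Finset.Icc 1 T).filter (fun c => c % 2 = 1),
      ((ArithmeticFunction.moebius c : ℤ) : ℂ) *
        ∑ w ∈ Vs (a / (c : ℝ) ^ 2) (b / (c : ℝ) ^ 2), φ w =
      ∑ w ∈ Vs a b, if ((c : ℕ) : ℤ√2) ∣ w then
        ((ArithmeticFunction.moebius c : ℤ) : ℂ) * φ w else 0 := by
    intro c hc
    rw [Finset.mem_filter] at hc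
    rw [← moebius_dvd_sum hc.2 φ (hφ c hc.2), Finset.mul_sum, Finset.sum_filter]
  rw [Finset.sum_congr rfl h1, Finset.sum_comm]
  have h2 : ∀ w ∈ Vs a b, (∑ c ∈ (Finset.Icc 1 T).filter (fun c => c % 2 = 1),
      if ((c : ℕ) : ℤ√2) ∣ w then ((ArithmeticFunction.moebius c : ℤ) : ℂ) * φ w else 0) =
      if Prim w then φ w else 0 := by
    intro w hw
    rw [← Finset.sum_filter, ← Finset.sum_mul, ← Int.cast_sum, moebius_ind hT hw]
    have h3 : Prim w ↔ Int.gcd w.re w.im = 1 := Int.isCoprime_iff_gcd_eq_one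
    by_cases h : Int.gcd w.re w.im = 1
    · rw [if_pos h, if_pos (h3.2 h)]
      simp
    · rw [if_neg h, if_neg (fun h' => h (h3.1 h'))]
      simp
  rw [Finset.sum_congr rfl h2, ← Finset.sum_filter]
  rfl

end

end Pool.Agent.Lib.MP_0b748d_nt.MR
end

section

section

set_option autoImplicit false

/-!
# The parameters of the levels

`L_j = L^(2^j)`, `P_j = exp L_j`, `λ_j = 1 + 1/(2^j log L)`, `n_j = ⌈4 * 2^j log L * L_j^(3/2)⌉`,
`α_j = α (1 - 2^(-(j+1)))`. Note `2^j log L = log L_j`.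
-/

namespace Pool.Agent.Lib.MP_0b748d_nt.MR

open Zsqrtd

noncomputable section

open Filter in
private theorem ls_thresh (α C : ℝ) (hα : 0 < α) : ∃ Y0 : ℝ, 3 ≤ Y0 ∧ ∀ y : ℝ, Y0 ≤ y →
    (8 * C) ^ 4 * y ^ 32 ≤ Real.exp (α / 4 * y) ∧ y ^ 68 ≤ Real.exp y ∧ 96 / α ≤ y := by
  have h1 : ∀ᶠ y : ℝ in atTop, (8 * C) ^ 4 * y ^ 32 ≤ Real.exp (α / 4 * y) := by
    have h := (isLittleO_pow_exp_pos_mul_atTop (k := 32) (show 0 < α / 4 by positivity)).bound
      (show (0 : ℝ) < 1 / ((8 * C) ^ 4 + 1) by positivity)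
    filter_upwards [h, eventually_ge_atTop (0 : ℝ)] with y hy hy0
    rw [Real.norm_eq_abs, Real.norm_eq_abs, abs_of_nonneg (by positivity),
      abs_of_pos (Real.exp_pos _), one_div, inv_mul_eq_div, le_div_iff₀ (by positivity)] at hy
    have h2 : 0 ≤ y ^ 32 := by positivity
    linarith
  have h2 : ∀ᶠ y : ℝ in atTop, y ^ 68 ≤ Real.exp y := by
    have h := (isLittleO_pow_exp_pos_mul_atTop (k := 68) (show (0 : ℝ) < 1 by norm_num)).bound
      (show (0 : ℝ) < 1 by norm_num)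
    filter_upwards [h, eventually_ge_atTop (0 : ℝ)] with y hy hy0
    rw [Real.norm_eq_abs, Real.norm_eq_abs, abs_of_nonneg (by positivity),
      abs_of_pos (Real.exp_pos _), one_mul, one_mul] at hy
    exact hy
  obtain ⟨Y0, hY⟩ := (h1.and (h2.and ((eventually_ge_atTop (96 / α)).and
    (eventually_ge_atTop (3 : ℝ))))).exists_forall_of_atTop
  exact ⟨max Y0 3, le_max_right _ _, fun y hy =>
    ⟨(hY y ((le_max_left _ _).trans hy)).1, (hY y ((le_max_left _ _).trans hy)).2.1,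
      (hY y ((le_max_left _ _).trans hy)).2.2.1⟩⟩

theorem ls_pn {L : ℝ} {j : ℕ} (hx : 25 ≤ pL L j) : (pn L j : ℝ) ≤ pL L j ^ 3 := by
  unfold pn
  obtain ⟨x, hxd⟩ : ∃ x, x = pL L j := ⟨_, rfl⟩
  rw [← hxd] at hx ⊢
  have hx0 : 0 < x := by linarith
  obtain ⟨z, hz⟩ : ∃ z, z = x ^ ((1 : ℝ) / 2) := ⟨_, rfl⟩
  have hz0 : 0 < z := by rw [hz]; positivity
  have hz2 : z ^ 2 = x := by
    rw [hz, ← Real.rpow_natCast, ← Real.rpow_mul hx0.le]
    norm_num
  have hz3 : x ^ ((3 : ℝ) / 2) = z ^ 3 := by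
    rw [hz, ← Real.rpow_natCast, ← Real.rpow_mul hx0.le]
    norm_num
  have hz5 : 5 ≤ z := by nlinarith only [hx, hz0, hz2]
  have hlog : Real.log x ≤ x := (Real.log_le_sub_one_of_pos hx0).trans (by linarith)
  have hlog0 : 0 ≤ Real.log x := Real.log_nonneg (by linarith)
  have h1 : (⌈4 * Real.log x * x ^ ((3 : ℝ) / 2)⌉₊ : ℝ) ≤
      4 * Real.log x * x ^ ((3 : ℝ) / 2) + 1 := (Nat.ceil_lt_add_one (by positivity)).le
  refine h1.trans ?_
  rw [hz3]
  have h2 : 4 * Real.log x * z ^ 3 ≤ 4 * x * z ^ 3 := by gcongr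
  have h3 : 1 ≤ z ^ 5 := one_le_pow₀ (by linarith)
  have h4 : 5 * z ^ 5 ≤ z * z ^ 5 := by gcongr
  have h5 : 4 * x * z ^ 3 = 4 * z ^ 5 := by rw [← hz2]; ring
  have h6 : x ^ 3 = z * z ^ 5 := by rw [← hz2]; ring
  rw [h6]
  linarith

/-- inequalities between consecutive levels, for `L ≥ L0(α, C)`.

Proof. Put `x = L_j ≥ L`; `α_(j+1) - α_j = α 2^(-(j+2))` and by `two_pow_le`
`2^(-(j+2)) ≥ x^(-1/4)/4`.
(1) `P_j λ_j^(n_j) ≤ exp(6 x^(3/2)) ≤ exp(x^2) = P_(j+1)` for `x ≥ 36`.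
(2) `log(top of level j+1) ≤ 6 (x^2)^(3/2) = 6 x^3 ≤ (7 x^2 - 1) x ≤ (r_j - 1) log P_j`.
(3) `(C r_j)^4 ≤ (8 C x^2)^4 ≤ exp((α/4) x^(3/4)) ≤ P_j^(α_(j+1) - α_j)` for large `x`.
(4) `n_(j+1) ≤ x^6`, `n_j ≤ x^3` (for large `x`: `4 log y y^(3/2) + 1 ≤ y^3` for `y ≥ 5`) and
`P_(j+1)^(-(α_(j+1) - α_j)) ≤ exp(-(α/4) x^(7/4))`, so the term in (4) is at most
`x^15 exp(12 x^(3/2) - (α/4) x^(7/4)) ≤ x^(-2)` for large `x`, and `x^(-2) ≤ 1/(L 2^j)` since
`x ≥ L` and `x ≥ 2^j`. -/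
theorem level_step (α C : ℝ) (hα : 0 < α) (hα1 : α ≤ 1 / 4) (hC : 1 ≤ C) : ∃ L0 : ℝ, 16 ≤ L0 ∧
    ∀ L : ℝ, L0 ≤ L → ∀ j : ℕ,
    pP L j * pl L j ^ pn L j ≤ pP L (j + 1) ∧
    Real.log (pP L (j + 1) * pl L (j + 1) ^ pn L (j + 1)) ≤ (pr L j - 1) * Real.log (pP L j) ∧
    (C * pr L j) ^ 4 ≤ pP L j ^ (pa α (j + 1) - pa α j) ∧
    pn L (j + 1) ^ 2 * pn L j * (pP L j * pl L j ^ pn L j) ^ 2 *
      pP L (j + 1) ^ (-(pa α (j + 1) - pa α j)) ≤ 1 / (L * 2 ^ j) := by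
  obtain ⟨Y0, hY3, hY⟩ := ls_thresh α C hα
  have hY0 : 0 < Y0 := by linarith
  have h81 : (81 : ℝ) ≤ Y0 ^ 4 := by
    calc (81 : ℝ) = 3 ^ 4 := by norm_num
      _ ≤ Y0 ^ 4 := by gcongr
  refine ⟨Y0 ^ 4, by linarith, fun L hL j => ?_⟩
  have hL81 : 81 ≤ L := h81.trans hL
  have hLx := (pL_mono L (by linarith) j).1
  have hsucc := pL_succ L j
  have h2y := two_pow_le L (by linarith) j
  have htop := (top_size L (by linarith) j).2
  have htop1 := (top_size L (by linarith) (j + 1)).2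
  have hpn := ls_pn (L := L) (j := j) (by linarith)
  have hpn1 := ls_pn (L := L) (j := j + 1) (by
    rw [hsucc]
    nlinarith only [hL81, hLx])
  have hT : 0 < pP L j * pl L j ^ pn L j := by
    have h1 : 0 < pP L j := Real.exp_pos _
    have h2 : 0 < pl L j := by
      unfold pl
      have : 0 ≤ Real.log (pL L j) := Real.log_nonneg (by linarith only [hL81, hLx])
      positivity
    positivity
  have hT1 : 0 < pP L (j + 1) * pl L (j + 1) ^ pn L (j + 1) := by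
    have h1 : 0 < pP L (j + 1) := Real.exp_pos _
    have h2 : 0 < pl L (j + 1) := by
      unfold pl
      have : 0 ≤ Real.log (pL L (j + 1)) := Real.log_nonneg (by rw [hsucc]; nlinarith only [hL81, hLx])
      positivity
    positivity
  have hlogP : Real.log (pP L j) = pL L j := Real.log_exp _
  have hPj : pP L j = Real.exp (pL L j) := rfl
  have hPj1 : pP L (j + 1) = Real.exp (pL L j ^ 2) := by unfold pP; rw [hsucc]
  have hpr1 : (7 * pL L j ^ 2) ≤ (pr L j : ℝ) := Nat.le_ceil _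
  have hpr2 : (pr L j : ℝ) ≤ 7 * pL L j ^ 2 + 1 :=
    (Nat.ceil_lt_add_one (by positivity)).le
  have hδ : pa α (j + 1) - pa α j = α / 4 * (1 / 2 ^ j) := by
    unfold pa
    rw [one_div_pow, one_div_pow]
    have : (2 : ℝ) ^ j ≠ 0 := by positivity
    field_simp
    ring
  rw [hsucc] at hpn1 htop1
  generalize hTdef : pP L j * pl L j ^ pn L j = T at *
  generalize hT1def : pP L (j + 1) * pl L (j + 1) ^ pn L (j + 1) = T1 at *
  generalize hδdef : pa α (j + 1) - pa α j = δ at *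
  generalize hxdef : pL L j = x at *
  have hx81 : 81 ≤ x := hL81.trans hLx
  have hx0 : 0 < x := by linarith
  obtain ⟨y, hy⟩ : ∃ y, y = x ^ ((1 : ℝ) / 4) := ⟨_, rfl⟩
  rw [← hy] at h2y
  have hy0 : 0 < y := by rw [hy]; positivity
  have hy4 : y ^ 4 = x := by
    rw [hy, ← Real.rpow_natCast, ← Real.rpow_mul hx0.le]
    norm_num
  have hy6 : x ^ ((3 : ℝ) / 2) = y ^ 6 := by
    rw [hy, ← Real.rpow_natCast, ← Real.rpow_mul hx0.le]
    norm_num
  have hyY : Y0 ≤ y := by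
    by_contra hc
    push Not at hc
    have : y ^ 4 < Y0 ^ 4 := by gcongr
    rw [hy4] at this
    linarith
  obtain ⟨hY1, hY2, hY4⟩ := hY y hyY
  have hy3 : 3 ≤ y := hY3.trans hyY
  have h2j : (0 : ℝ) < 2 ^ j := by positivity
  have hδ1 : α / 4 / y ≤ δ := by
    rw [hδ, mul_one_div]
    gcongr
  rw [hy6] at htop
  have hx32 : (x ^ 2) ^ ((3 : ℝ) / 2) = x ^ 3 := by
    rw [← Real.rpow_natCast x 2, ← Real.rpow_mul hx0.le, ← Real.rpow_natCast x 3]
    norm_num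
  rw [hx32] at htop1
  have hTexp : T ≤ Real.exp (6 * y ^ 6) := by
    rw [← Real.exp_log hT]
    exact Real.exp_le_exp.mpr htop
  refine ⟨?_, ?_, ?_, ?_⟩
  · rw [hPj1]
    refine hTexp.trans (Real.exp_le_exp.mpr ?_)
    have h1 : x ^ 2 = y ^ 2 * y ^ 6 := by rw [← hy4]; ring
    rw [h1]
    have h2 : 6 ≤ y ^ 2 := by nlinarith only [hy3]
    gcongr
  · rw [hlogP]
    refine htop1.trans ?_
    have h1 : (7 * x ^ 2 - 1) * x ≤ ((pr L j : ℝ) - 1) * x := by gcongr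
    have h2 : 6 * x ^ 3 ≤ (7 * x ^ 2 - 1) * x := by nlinarith only [hx81]
    linarith
  · rw [hPj, ← Real.exp_mul]
    have h1 : C * pr L j ≤ 8 * C * x ^ 2 := by
      have : (pr L j : ℝ) ≤ 8 * x ^ 2 := by nlinarith only [hpr2, hx81]
      nlinarith only [hC, this]
    have h2 : (C * pr L j) ^ 4 ≤ (8 * C * x ^ 2) ^ 4 := by
      have : 0 ≤ C * pr L j := by positivity
      gcongr
    refine h2.trans ?_
    have h3 : (8 * C * x ^ 2) ^ 4 = (8 * C) ^ 4 * y ^ 32 := by rw [← hy4]; ring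
    rw [h3]
    refine hY1.trans (Real.exp_le_exp.mpr ?_)
    have h5 : x * (α / 4 / y) ≤ x * δ := by gcongr
    have h6 : x * (α / 4 / y) = α / 4 * (y * y ^ 2) := by
      rw [← hy4]
      field_simp
    have h7 : α / 4 * y ≤ α / 4 * (y * y ^ 2) := by
      have h8 : 1 ≤ y ^ 2 := by nlinarith only [hy3]
      have h9 : y * 1 ≤ y * y ^ 2 := by gcongr
      rw [mul_one] at h9
      gcongr
    linarith only [h5, h6, h7]
  · rw [hPj1, ← Real.exp_mul]
    have hT2 : T ^ 2 ≤ Real.exp (12 * y ^ 6) := by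
      calc T ^ 2 ≤ Real.exp (6 * y ^ 6) ^ 2 := by gcongr
        _ = Real.exp (12 * y ^ 6) := by
          rw [← Real.exp_nat_mul]
          congr 1
          push_cast
          ring
    have h1 : (pn L (j + 1) : ℝ) ^ 2 ≤ x ^ 12 := by
      calc (pn L (j + 1) : ℝ) ^ 2 ≤ ((x ^ 2) ^ 3) ^ 2 := by gcongr
        _ = x ^ 12 := by ring
    have h2 : Real.exp (x ^ 2 * -δ) ≤ Real.exp (-(24 * y ^ 6)) := by
      apply Real.exp_le_exp.mpr
      have h5 : x ^ 2 * (α / 4 / y) ≤ x ^ 2 * δ := by gcongr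
      have h6 : x ^ 2 * (α / 4 / y) = (α / 4 * y) * y ^ 6 := by
        rw [← hy4]
        field_simp
      have h7 : 24 ≤ α / 4 * y := by
        rw [div_le_iff₀ hα] at hY4
        linarith only [hY4]
      have h8 : 24 * y ^ 6 ≤ (α / 4 * y) * y ^ 6 := by gcongr
      linarith only [h5, h6, h8]
    have h3 : Real.exp (12 * y ^ 6) * Real.exp (-(24 * y ^ 6)) ≤ 1 / y ^ 68 := by
      rw [← Real.exp_add]
      have h5 : 12 * y ^ 6 + -(24 * y ^ 6) ≤ -y := by
        have h6 : y ≤ y ^ 6 := by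
          calc y = y ^ 1 := (pow_one y).symm
            _ ≤ y ^ 6 := pow_le_pow_right₀ (by linarith only [hy3]) (by norm_num)
        linarith only [hy3, h6]
      refine (Real.exp_le_exp.mpr h5).trans ?_
      rw [Real.exp_neg, ← one_div]
      apply one_div_le_one_div_of_le (by positivity) hY2
    have h4 : (pn L (j + 1) : ℝ) ^ 2 * pn L j * T ^ 2 * Real.exp (x ^ 2 * -δ) ≤
        x ^ 12 * x ^ 3 * Real.exp (12 * y ^ 6) * Real.exp (-(24 * y ^ 6)) := by gcongr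
    refine h4.trans ?_
    rw [mul_assoc _ (Real.exp _) (Real.exp _)]
    have h5 : x ^ 12 * x ^ 3 * (Real.exp (12 * y ^ 6) * Real.exp (-(24 * y ^ 6))) ≤
        x ^ 12 * x ^ 3 * (1 / y ^ 68) := by gcongr
    refine h5.trans ?_
    have h6 : x ^ 12 * x ^ 3 * (1 / y ^ 68) = 1 / (x * x) := by
      rw [← hy4]
      field_simp
    rw [h6]
    apply one_div_le_one_div_of_le (by positivity)
    have h7 : y ≤ x := by
      rw [← hy4]
      calc y = y ^ 1 := (pow_one y).symm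
        _ ≤ y ^ 4 := pow_le_pow_right₀ (by linarith only [hy3]) (by norm_num)
    calc L * 2 ^ j ≤ x * y := by gcongr
      _ ≤ x * x := by gcongr

end

end Pool.Agent.Lib.MP_0b748d_nt.MR
end

section

set_option autoImplicit false

/-!
# The parameters of the levels

`L_j = L^(2^j)`, `P_j = exp L_j`, `λ_j = 1 + 1/(2^j log L)`, `n_j = ⌈4 * 2^j log L * L_j^(3/2)⌉`,
`α_j = α (1 - 2^(-(j+1)))`. Note `2^j log L = log L_j`.
-/

namespace Pool.Agent.Lib.MP_0b748d_nt.MR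

open Zsqrtd

noncomputable section

/-- the number of exceptional frequencies is small.

Proof. Put `y = log X`, `x = L_J`, `y^(1/6) < x ≤ y^(1/3)`. `n_J ≤ 4 log x x^(3/2) + 1 ≤ 5 y`,
`(top)^2 ≤ exp(12 x^(3/2)) ≤ exp(12 y^(1/2))`, `rm = ⌈y/x⌉ + 1 ≤ y^(5/6) + 2` and
`y ≤ (rm - 1) log P_J` (`log P_J = x`); the logarithm of the left-hand side is at most
`log(5y) + 2 α_J y + 12 y^(1/2) + (2 y^(5/6) + 6) log(C (y^(5/6) + 2))`, and `2 α_J ≤ 2 α`; the
other terms are `o(y)`, so at most `α y` for large `y`. -/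
theorem U_small (α C L : ℝ) (hα : 0 < α) (hα1 : α ≤ 1 / 4) (hC : 1 ≤ C) (hL : 3 ≤ L) :
    ∃ X0 : ℝ, 1 ≤ X0 ∧ ∀ X : ℝ, X0 ≤ X → ∀ J : ℕ, pL L J ≤ Real.log X ^ ((1 : ℝ) / 3) →
    Real.log X ^ ((1 : ℝ) / 6) < pL L J → ∃ rm : ℕ,
    Real.log X ≤ (rm - 1) * Real.log (pP L J) ∧
    pn L J * X ^ (2 * pa α J) * (pP L J * pl L J ^ pn L J) ^ 2 * (C * rm) ^ (2 * rm + 2) ≤
      X ^ (3 * α) := by
  set K : ℝ := 17 + 96 * (3 * C) ^ ((1 : ℝ) / 12) with hK
  have hC0 : 0 < 3 * C := by linarith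
  have hK0 : 0 < K := by
    rw [hK]
    positivity
  refine ⟨Real.exp (max 1 ((K / α) ^ 12)), Real.one_le_exp (le_max_of_le_left zero_le_one),
    fun X hX J hJ1 hJ2 => ?_⟩
  have hX0 : 0 < X := (Real.exp_pos _).trans_le hX
  set y := Real.log X with hy
  have hy1' : max 1 ((K / α) ^ 12) ≤ y := (Real.le_log_iff_exp_le hX0).2 hX
  have hy1 : 1 ≤ y := (le_max_left _ _).trans hy1'
  have hy0 : 0 < y := by linarith
  have hyK : (K / α) ^ 12 ≤ y := (le_max_right _ _).trans hy1'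
  have hyK2 : K * y ^ ((11 : ℝ) / 12) ≤ α * y := by
    have h1 : K / α ≤ y ^ ((1 : ℝ) / 12) := by
      calc K / α = ((K / α) ^ 12) ^ ((1 : ℝ) / 12) := by
            rw [← Real.rpow_natCast, ← Real.rpow_mul (by positivity)]
            norm_num
        _ ≤ _ := Real.rpow_le_rpow (by positivity) hyK (by norm_num)
    rw [div_le_iff₀ hα] at h1
    have h2 : y = y ^ ((11 : ℝ) / 12) * y ^ ((1 : ℝ) / 12) := by
      rw [← Real.rpow_add hy0]
      norm_num
    calc K * y ^ ((11 : ℝ) / 12) ≤ (y ^ ((1 : ℝ) / 12) * α) * y ^ ((11 : ℝ) / 12) := by gcongr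
      _ = α * (y ^ ((11 : ℝ) / 12) * y ^ ((1 : ℝ) / 12)) := by ring
      _ = α * y := by rw [← h2]
  set x := pL L J with hx
  have hx3 : 3 ≤ x := hL.trans (pL_mono L (by linarith only [hL]) J).1
  have hx0 : 0 < x := by linarith only [hx3]
  have hxy : x ^ 3 ≤ y := by
    calc x ^ 3 ≤ (y ^ ((1 : ℝ) / 3)) ^ 3 := pow_le_pow_left₀ hx0.le hJ1 3
      _ = y := by
        rw [← Real.rpow_natCast, ← Real.rpow_mul hy0.le]
        norm_num
  refine ⟨⌈y / x⌉₊ + 1, ?_, ?_⟩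
  · have h1 : Real.log (pP L J) = x := by
      unfold pP
      rw [Real.log_exp]
    rw [h1]
    push_cast
    have h2 : y / x ≤ ⌈y / x⌉₊ := Nat.le_ceil _
    rw [div_le_iff₀ hx0] at h2
    linarith only [h2]
  · set rm : ℕ := ⌈y / x⌉₊ + 1 with hrm
    -- size of `n_J`
    have hpn : (pn L J : ℝ) ≤ 5 * y := by
      have h1 : (pn L J : ℝ) ≤ 4 * Real.log x * x ^ ((3 : ℝ) / 2) + 1 := by
        unfold pn
        rw [← hx]
        have h2 : 0 ≤ Real.log x := Real.log_nonneg (by linarith only [hx3])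
        exact (Nat.ceil_lt_add_one (by positivity)).le
      have h2 : Real.log x ≤ x := (Real.log_le_sub_one_of_pos hx0).trans (by linarith only [])
      have h3 : x ^ ((3 : ℝ) / 2) ≤ x ^ 2 := by
        rw [← Real.rpow_natCast]
        exact Real.rpow_le_rpow_of_exponent_le (by linarith only [hx3]) (by norm_num)
      have h4 : 4 * Real.log x * x ^ ((3 : ℝ) / 2) ≤ 4 * x * x ^ 2 := by gcongr
      have h5 : 4 * x * x ^ 2 = 4 * x ^ 3 := by ring
      linarith only [hy1, hxy, h1, h4]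
    have hpn2 : (pn L J : ℝ) ≤ Real.exp (5 * y ^ ((11 : ℝ) / 12)) := by
      refine hpn.trans ?_
      rw [← Real.log_le_iff_le_exp (by positivity)]
      have h1 := Real.log_le_rpow_div (x := 5 * y) (ε := 1 / 2) (by positivity) (by norm_num)
      have h2 : (5 * y) ^ ((1 : ℝ) / 2) / (1 / 2) ≤ 5 * y ^ ((1 : ℝ) / 2) := by
        rw [Real.mul_rpow (by norm_num) hy0.le]
        have h3 : (5 : ℝ) ^ ((1 : ℝ) / 2) ≤ 5 / 2 := by
          calc (5 : ℝ) ^ ((1 : ℝ) / 2) ≤ ((5 / 2 : ℝ) ^ 2) ^ ((1 : ℝ) / 2) :=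
                Real.rpow_le_rpow (by norm_num) (by norm_num) (by norm_num)
            _ = 5 / 2 := by
              rw [← Real.rpow_natCast, ← Real.rpow_mul (by norm_num)]
              norm_num
        have h4 : 0 < y ^ ((1 : ℝ) / 2) := Real.rpow_pos_of_pos hy0 _
        nlinarith only [h3, h4]
      have h5 : y ^ ((1 : ℝ) / 2) ≤ y ^ ((11 : ℝ) / 12) :=
        Real.rpow_le_rpow_of_exponent_le hy1 (by norm_num)
      linarith only [h1, h2, h5]
    -- the power of `X`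
    have hXp : X ^ (2 * pa α J) ≤ Real.exp (2 * α * y) := by
      rw [Real.rpow_def_of_pos hX0, ← hy]
      refine Real.exp_le_exp.2 ?_
      have h1 : pa α J ≤ α := by
        unfold pa
        have h2 : (0 : ℝ) ≤ (1 / 2) ^ (J + 1) := by positivity
        nlinarith only [hα, h2]
      nlinarith only [hpn, h1]
    -- the top
    have htop := (top_size L hL J).2
    have hlam0 : 0 < pl L J := by
      unfold pl
      have := Real.log_nonneg (by linarith only [hx3] : 1 ≤ x)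
      rw [← hx]
      positivity
    have htpos : 0 < pP L J * pl L J ^ pn L J := by
      unfold pP
      positivity
    have htop2 : (pP L J * pl L J ^ pn L J) ^ 2 ≤ Real.exp (12 * y ^ ((11 : ℝ) / 12)) := by
      rw [← Real.exp_log htpos, ← Real.exp_nat_mul]
      refine Real.exp_le_exp.2 ?_
      have h1 : x ^ ((3 : ℝ) / 2) ≤ y ^ ((1 : ℝ) / 2) := by
        calc x ^ ((3 : ℝ) / 2) = (x ^ 3) ^ ((1 : ℝ) / 2) := by
              rw [← Real.rpow_natCast, ← Real.rpow_mul hx0.le]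
              norm_num
          _ ≤ _ := Real.rpow_le_rpow (by positivity) hxy (by norm_num)
      have h5 : y ^ ((1 : ℝ) / 2) ≤ y ^ ((11 : ℝ) / 12) :=
        Real.rpow_le_rpow_of_exponent_le hy1 (by norm_num)
      push_cast
      linarith only [htop, h1, h5]
    -- the last factor
    have hyx : y / x ≤ y ^ ((5 : ℝ) / 6) := by
      rw [div_le_iff₀ hx0]
      calc y = y ^ ((5 : ℝ) / 6) * y ^ ((1 : ℝ) / 6) := by
            rw [← Real.rpow_add hy0]
            norm_num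
        _ ≤ y ^ ((5 : ℝ) / 6) * x := by gcongr
    have h56 : 1 ≤ y ^ ((5 : ℝ) / 6) := Real.one_le_rpow hy1 (by norm_num)
    have hrm1 : (rm : ℝ) ≤ y ^ ((5 : ℝ) / 6) + 2 := by
      rw [hrm]
      push_cast
      have := (Nat.ceil_lt_add_one (a := y / x) (by positivity)).le
      linarith only [hyx, this]
    have h56y : y ^ ((5 : ℝ) / 6) ≤ y := by
      calc y ^ ((5 : ℝ) / 6) ≤ y ^ (1 : ℝ) :=
            Real.rpow_le_rpow_of_exponent_le hy1 (by norm_num)
        _ = y := Real.rpow_one y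
    have hrmy : (rm : ℝ) ≤ 3 * y := by linarith only [h56, hrm1, h56y]
    have hrm0 : (0 : ℝ) < rm := by
      rw [hrm]
      positivity
    have hlast : (C * rm) ^ (2 * rm + 2) ≤
        Real.exp (96 * (3 * C) ^ ((1 : ℝ) / 12) * y ^ ((11 : ℝ) / 12)) := by
      have hCrm : 0 < C * rm := by positivity
      rw [← Real.exp_log (pow_pos hCrm _)]
      refine Real.exp_le_exp.2 ?_
      rw [Real.log_pow]
      have h1 : Real.log (C * rm) ≤ 12 * (3 * C) ^ ((1 : ℝ) / 12) * y ^ ((1 : ℝ) / 12) := by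
        calc Real.log (C * rm) ≤ Real.log (3 * C * y) := by
              refine Real.log_le_log hCrm ?_
              nlinarith only [hrmy, hrm0, hCrm]
          _ ≤ (3 * C * y) ^ ((1 : ℝ) / 12) / (1 / 12) :=
              Real.log_le_rpow_div (by positivity) (by norm_num)
          _ = _ := by
            rw [Real.mul_rpow hC0.le hy0.le]
            ring
      have h2 : ((2 * rm + 2 : ℕ) : ℝ) ≤ 8 * y ^ ((5 : ℝ) / 6) := by
        push_cast
        linarith only [h56, hrm1]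
      have h3 : y ^ ((11 : ℝ) / 12) = y ^ ((5 : ℝ) / 6) * y ^ ((1 : ℝ) / 12) := by
        rw [← Real.rpow_add hy0]
        norm_num
      calc ((2 * rm + 2 : ℕ) : ℝ) * Real.log (C * rm) ≤
          (8 * y ^ ((5 : ℝ) / 6)) * (12 * (3 * C) ^ ((1 : ℝ) / 12) * y ^ ((1 : ℝ) / 12)) := by
            have h4 : 0 ≤ 12 * (3 * C) ^ ((1 : ℝ) / 12) * y ^ ((1 : ℝ) / 12) := by positivity
            calc ((2 * rm + 2 : ℕ) : ℝ) * Real.log (C * rm) ≤
                ((2 * rm + 2 : ℕ) : ℝ) * (12 * (3 * C) ^ ((1 : ℝ) / 12) * y ^ ((1 : ℝ) / 12)) :=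
                  mul_le_mul_of_nonneg_left h1 (Nat.cast_nonneg _)
              _ ≤ _ := mul_le_mul_of_nonneg_right h2 h4
        _ = _ := by
          rw [h3]
          ring
    -- together
    calc pn L J * X ^ (2 * pa α J) * (pP L J * pl L J ^ pn L J) ^ 2 * (C * rm) ^ (2 * rm + 2) ≤
        Real.exp (5 * y ^ ((11 : ℝ) / 12)) * Real.exp (2 * α * y) *
          Real.exp (12 * y ^ ((11 : ℝ) / 12)) *
          Real.exp (96 * (3 * C) ^ ((1 : ℝ) / 12) * y ^ ((11 : ℝ) / 12)) := by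
          gcongr
      _ = Real.exp (2 * α * y + K * y ^ ((11 : ℝ) / 12)) := by
          rw [← Real.exp_add, ← Real.exp_add, ← Real.exp_add, hK]
          congr 1
          ring
      _ ≤ Real.exp (3 * α * y) := by
          refine Real.exp_le_exp.2 ?_
          linarith only [hyK2]
      _ = X ^ (3 * α) := by
          rw [Real.rpow_def_of_pos hX0, ← hy]
          congr 1
          ring

end

end Pool.Agent.Lib.MP_0b748d_nt.MR
end

section

set_option autoImplicit false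

/-!
# The parameters of the levels

`L_j = L^(2^j)`, `P_j = exp L_j`, `λ_j = 1 + 1/(2^j log L)`, `n_j = ⌈4 * 2^j log L * L_j^(3/2)⌉`,
`α_j = α (1 - 2^(-(j+1)))`. Note `2^j log L = log L_j`.
-/

namespace Pool.Agent.Lib.MP_0b748d_nt.MR

open Zsqrtd

noncomputable section

open Filter in
private theorem le_thresh (α R ε C c : ℝ) (hα : 0 < α) (hε : 0 < ε) :
    ∃ L0 : ℝ, 25 ≤ L0 ∧ ∀ L : ℝ, L0 ≤ L →
      C * (2 * (1 / c + 2) / Real.log L + R * (L ^ 6 * Real.exp (-(α * L))) + 2 / L) ≤ ε := by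
  have h1 : Tendsto (fun L : ℝ => L ^ 6 * Real.exp (-(α * L))) atTop (nhds 0) := by
    have h := (isLittleO_pow_exp_pos_mul_atTop (k := 6) hα).tendsto_div_nhds_zero
    refine h.congr fun L => ?_
    rw [Real.exp_neg, div_eq_mul_inv]
  have h2 : Tendsto (fun L : ℝ => 2 * (1 / c + 2) / Real.log L) atTop (nhds 0) :=
    Real.tendsto_log_atTop.const_div_atTop _
  have h3 : Tendsto (fun L : ℝ => 2 / L) atTop (nhds 0) := tendsto_id.const_div_atTop _
  have h4 : Tendsto (fun L : ℝ => C * (2 * (1 / c + 2) / Real.log L +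
      R * (L ^ 6 * Real.exp (-(α * L))) + 2 / L)) atTop (nhds 0) := by
    have := ((h2.add (h1.const_mul R)).add h3).const_mul C
    simpa using this
  have h5 := h4.eventually (ge_mem_nhds hε)
  obtain ⟨Y0, hY⟩ := h5.exists_forall_of_atTop
  exact ⟨max Y0 25, le_max_right _ _, fun y hy => hY y ((le_max_left _ _).trans hy)⟩

private theorem le_geom (n : ℕ) : ∑ j ∈ Finset.range n, (1 / 2 : ℝ) ^ j ≤ 2 := by
  have h := geom_sum_eq (show (1 / 2 : ℝ) ≠ 1 by norm_num) n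
  rw [h]
  have h2 : (0 : ℝ) < (1 / 2) ^ n := by positivity
  rw [div_le_iff_of_neg (by norm_num)]
  linarith

/-- the total error is small.

Proof. `1/W_j ≤ 1/(c 2^j log L)`, `λ_j - 1 = 1/(2^j log L)`, `1/log P_j = 1/L_j ≤ 1/(2^j)·(1/log L)`
(`L_j ≥ log L_j = 2^j log L`); the geometric series gives `≤ 2 (1/c + 2)/log L`. The term with `R`
is at most `R (4 log L L^(3/2) + 1)^2 exp(-α L)` (`α_0 = α/2`), which tends to `0`, the last sum is
`≤ 2/L` by `level_step` (4). -/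
theorem level_err (α R ε C c : ℝ) (hα : 0 < α) (hα1 : α ≤ 1 / 4) (hR : 1 ≤ R) (hε : 0 < ε)
    (hC : 1 ≤ C) (hc : 0 < c) : ∃ L0 : ℝ, 16 ≤ L0 ∧ ∀ L : ℝ, L0 ≤ L → ∀ J : ℕ, ∀ W : ℕ → ℝ,
    (∀ j, c * (2 ^ j * Real.log L) ≤ W j) →
    (∀ j, pn L (j + 1) ^ 2 * pn L j * (pP L j * pl L j ^ pn L j) ^ 2 *
      pP L (j + 1) ^ (-(pa α (j + 1) - pa α j)) ≤ 1 / (L * 2 ^ j)) →
    C * (∑ j ∈ Finset.range (J + 1), (1 / W j + (pl L j - 1) + 1 / Real.log (pP L j)) +
        R * pn L 0 ^ 2 * pP L 0 ^ (-(2 * pa α 0)) +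
        ∑ j ∈ Finset.range J, (pn L (j + 1) ^ 2 * pn L j * (pP L j * pl L j ^ pn L j) ^ 2 *
          pP L (j + 1) ^ (-(pa α (j + 1) - pa α j)))) ≤ ε := by
  obtain ⟨L0, hL0, hthr⟩ := le_thresh α R ε C c hα hε
  refine ⟨L0, by linarith, fun L hL J W hW h4 => ?_⟩
  refine le_trans ?_ (hthr L hL)
  have hL25 : 25 ≤ L := hL0.trans hL
  have hlog : 0 < Real.log L := Real.log_pos (by linarith)
  have hL0' : 0 < L := by linarith
  apply mul_le_mul_of_nonneg_left _ (by linarith)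
  have e1 : ∑ j ∈ Finset.range (J + 1), (1 / W j + (pl L j - 1) + 1 / Real.log (pP L j)) ≤
      2 * (1 / c + 2) / Real.log L := by
    have h1 : ∀ j ∈ Finset.range (J + 1), (1 / W j + (pl L j - 1) + 1 / Real.log (pP L j)) ≤
        ((1 / c + 2) / Real.log L) * (1 / 2) ^ j := by
      intro j _
      have hq : (0 : ℝ) < 2 ^ j * Real.log L := by positivity
      have h2 : 1 / W j ≤ 1 / (c * (2 ^ j * Real.log L)) :=
        one_div_le_one_div_of_le (by positivity) (hW j)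
      have h3 : pl L j - 1 = 1 / (2 ^ j * Real.log L) := by
        unfold pl
        rw [log_pL]
        ring
      have h5 : 1 / Real.log (pP L j) ≤ 1 / (2 ^ j * Real.log L) := by
        have hlogP : Real.log (pP L j) = pL L j := Real.log_exp _
        rw [hlogP]
        apply one_div_le_one_div_of_le hq
        rw [← log_pL]
        have hx : 0 < pL L j := lt_of_lt_of_le hL0' (pL_mono L (by linarith) j).1
        exact (Real.log_le_sub_one_of_pos hx).trans (by linarith)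
      have h6 : ((1 / c + 2) / Real.log L) * (1 / 2) ^ j =
          1 / (c * (2 ^ j * Real.log L)) + 1 / (2 ^ j * Real.log L) +
            1 / (2 ^ j * Real.log L) := by
        rw [one_div_pow]
        field_simp
        ring
      rw [h6]
      linarith
    refine (Finset.sum_le_sum h1).trans ?_
    rw [← Finset.mul_sum]
    have h7 := le_geom (J + 1)
    have h8 : 0 ≤ (1 / c + 2) / Real.log L := by positivity
    calc (1 / c + 2) / Real.log L * ∑ j ∈ Finset.range (J + 1), (1 / 2 : ℝ) ^ j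
        ≤ (1 / c + 2) / Real.log L * 2 := by gcongr
      _ = 2 * (1 / c + 2) / Real.log L := by ring
  have e2 : R * pn L 0 ^ 2 * pP L 0 ^ (-(2 * pa α 0)) ≤ R * (L ^ 6 * Real.exp (-(α * L))) := by
    have hpL0 : pL L 0 = L := by unfold pL; simp
    have h1 : (pn L 0 : ℝ) ≤ L ^ 3 := by
      have := ls_pn (L := L) (j := 0) (by rw [hpL0]; exact hL25)
      rwa [hpL0] at this
    have h2 : (pn L 0 : ℝ) ^ 2 ≤ L ^ 6 := by
      calc (pn L 0 : ℝ) ^ 2 ≤ (L ^ 3) ^ 2 := by gcongr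
        _ = L ^ 6 := by ring
    have h3 : pP L 0 ^ (-(2 * pa α 0)) = Real.exp (-(α * L)) := by
      unfold pP pa
      rw [hpL0, ← Real.exp_mul]
      congr 1
      norm_num
      ring
    rw [h3, mul_assoc]
    gcongr
  have e3 : ∑ j ∈ Finset.range J, (pn L (j + 1) ^ 2 * pn L j * (pP L j * pl L j ^ pn L j) ^ 2 *
      pP L (j + 1) ^ (-(pa α (j + 1) - pa α j))) ≤ 2 / L := by
    refine (Finset.sum_le_sum fun j _ => h4 j).trans ?_
    have h1 : ∀ j ∈ Finset.range J, 1 / (L * 2 ^ j) = 1 / L * (1 / 2) ^ j := by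
      intro j _
      rw [one_div_pow]
      field_simp
    rw [Finset.sum_congr rfl h1, ← Finset.mul_sum]
    have h7 := le_geom J
    calc 1 / L * ∑ j ∈ Finset.range J, (1 / 2 : ℝ) ^ j ≤ 1 / L * 2 := by gcongr
      _ = 2 / L := by ring
  linarith

end

end Pool.Agent.Lib.MP_0b748d_nt.MR
end

section

set_option autoImplicit false

/-!
# Counting paths of prime element steps
-/

namespace Pool.Agent.Lib.MP_0b748d_nt.MR

open Zsqrtd

noncomputable section

private theorem path_om_nonneg (I : Finset ℕ) (w : ℤ√2) : 0 ≤ om I w := by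
  unfold om
  refine Finset.sum_nonneg fun p _ => Finset.sum_nonneg fun s _ => ?_
  split_ifs <;> norm_num

open Classical in
/-- path bound.

Proof. Induction on `r`, for all `w`. `r = 0`: `‖a w‖ ≤ 1[nm w ≤ Y]`. Step: write
`(opn I b)^[r+1] a w = ∑_{p,σ} b p σ * ((opn I b)^[r] a) (u)`, `u = Tp p (!σ) w`
(`Function.iterate_succ_apply'`), and use the induction hypothesis at `u`.
* Down: `el p σ ∣ w`. There are `om I w` such pairs; `om I u ≤ om I w`, `p * nm u = nm w`; the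
condition `nm u P^(2s) ≤ Y Qm^r` gives `nm w P^(2s) ≤ p Y Qm^r ≤ Y Qm^(r+1)` (`0 ≤ Y` may be
assumed: if `Y ≤ 0` everything is `0`). These terms are at most
`om I w * ∑_s C(r,s) (2|I|)^s (om I w + r)^(r-s) 1[nm w P^(2s) ≤ Y Qm^(r+1)]
≤ ∑_s C(r,s) (2|I|)^s (om I w + r + 1)^(r+1-s) 1[..]`.
* Up: at most `2 |I|` pairs, `om I u ≤ om I w + 1`, `nm u = p nm w ≥ P nm w`; the condition
`nm u P^(2s) ≤ Y Qm^r` gives `nm w P^(2s+2) ≤ P Y Qm^r ≤ Y Qm^(r+1)` (`P ≤ p ≤ Qm`). These terms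
are at most `∑_s C(r,s) (2|I|)^(s+1) (om I w + r + 1)^(r-s) 1[nm w P^(2(s+1)) ≤ Y Qm^(r+1)]`.
Add and use `C(r+1, s) = C(r, s) + C(r, s-1)`. -/
theorem path_bound (I : Finset ℕ) (P Qm Y : ℝ) (hP : 1 ≤ P) (hI : ∀ p ∈ I, Sp p ∧ P ≤ (p : ℝ) ∧
    (p : ℝ) ≤ Qm) (b : ℕ → Bool → ℂ) (hb : ∀ p s, ‖b p s‖ ≤ 1) (a : ℤ√2 → ℂ)
    (ha : ∀ w, w ∉ Us 0 Y → a w = 0) (ha1 : ∀ w, ‖a w‖ ≤ 1) (r : ℕ) (w : ℤ√2) (hw : Can w) :
    ‖(opn I b)^[r] a w‖ ≤ ∑ s ∈ Finset.range (r + 1), (r.choose s : ℝ) * (2 * I.card) ^ s *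
      (om I w + r) ^ (r - s) * (if (nm w : ℝ) * P ^ (2 * s) ≤ Y * Qm ^ r then 1 else 0) := by
  induction r generalizing w with
  | zero =>
    rw [Function.iterate_zero, id]
    by_cases hwY : w ∈ Us 0 Y
    · have h1 : (nm w : ℝ) < Y := by
        unfold Us Vs at hwY
        simp only [Finset.mem_filter] at hwY
        exact hwY.1.2.2.2.1
      have h2 : (nm w : ℝ) ≤ Y := h1.le
      simpa [h2] using ha1 w
    · rw [ha w hwY, _root_.norm_zero]
      refine Finset.sum_nonneg fun s _ => ?_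
      have : 0 ≤ om I w := path_om_nonneg I w
      split_ifs <;> positivity
  | succ r ih =>
    rw [Function.iterate_succ_apply']
    obtain ⟨a', ha'⟩ : ∃ a', a' = (opn I b)^[r] a := ⟨_, rfl⟩
    rw [← ha'] at ih ⊢
    have hopn : opn I b a' w = ∑ p ∈ I, ∑ s : Bool, b p s * a' (Tp p (!s) w) := by
      unfold opn
      rw [if_pos hw]
    have hom : 0 ≤ om I w := path_om_nonneg I w
    obtain ⟨N, hN⟩ : ∃ N : ℝ, N = 2 * I.card := ⟨_, rfl⟩
    have hN0 : 0 ≤ N := by rw [hN]; positivity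
    obtain ⟨A, hA⟩ : ∃ A : ℝ, A = om I w + ((r + 1 : ℕ) : ℝ) := ⟨_, rfl⟩
    have hr0 : (0 : ℝ) ≤ r := Nat.cast_nonneg r
    have hA' : A = om I w + r + 1 := by rw [hA]; push_cast; ring
    have hA0 : 0 ≤ A := by rw [hA']; linarith
    have hAom : om I w ≤ A := by rw [hA']; linarith
    obtain ⟨D, hD⟩ : ∃ D : ℕ → ℝ, ∀ s, D s =
        (if (nm w : ℝ) * P ^ (2 * s) ≤ Y * Qm ^ (r + 1) then 1 else 0) := ⟨_, fun _ => rfl⟩
    have hD0 : ∀ s, 0 ≤ D s := fun s => by rw [hD]; split_ifs <;> norm_num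
    have hnw : 0 < nm w := hw.1.1.nm_pos
    have hnwR : (0 : ℝ) < (nm w : ℝ) := by exact_mod_cast hnw
    obtain ⟨TD, hTD⟩ : ∃ TD : ℝ, TD = ∑ s ∈ Finset.range (r + 1),
        (r.choose s : ℝ) * N ^ s * A ^ (r - s) * D s := ⟨_, rfl⟩
    obtain ⟨TU, hTU⟩ : ∃ TU : ℝ, TU = ∑ s ∈ Finset.range (r + 1),
        (r.choose s : ℝ) * N ^ s * A ^ (r - s) * D (s + 1) := ⟨_, rfl⟩
    have hTD0 : 0 ≤ TD := by
      rw [hTD]
      refine Finset.sum_nonneg fun s _ => ?_
      have := hD0 s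
      positivity
    have hTU0 : 0 ≤ TU := by
      rw [hTU]
      refine Finset.sum_nonneg fun s _ => ?_
      have := hD0 (s + 1)
      positivity
    have key : ∀ p ∈ I, ∀ t : Bool, ‖b p t * a' (Tp p (!t) w)‖ ≤
        (if el p t ∣ w then (1 : ℝ) else 0) * TD + TU := by
      intro p hp t
      obtain ⟨hSp, hPp, hpQ⟩ := hI p hp
      have hp1 : (1 : ℝ) ≤ p := hP.trans hPp
      have hu : Can (Tp p (!t) w) := Tp_can hSp (!t) hw
      have h1 : ‖b p t * a' (Tp p (!t) w)‖ ≤ ‖a' (Tp p (!t) w)‖ := by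
        rw [_root_.norm_mul]
        have := hb p t
        have h0 := norm_nonneg (a' (Tp p (!t) w))
        nlinarith
      refine h1.trans ((ih _ hu).trans ?_)
      obtain ⟨u, hudef⟩ : ∃ u, u = Tp p (!t) w := ⟨_, rfl⟩
      rw [← hudef] at hu ⊢
      have hnu : 0 < nm u := hu.1.1.nm_pos
      have hnuR : (0 : ℝ) < (nm u : ℝ) := by exact_mod_cast hnu
      have homu : 0 ≤ om I u := path_om_nonneg I u
      have hPpow : ∀ s : ℕ, (0 : ℝ) < P ^ (2 * s) := fun s => by positivity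
      by_cases hdiv : el p t ∣ w
      · rw [if_pos hdiv, one_mul]
        have hdiv' : el p (!(!t)) ∣ w := by rw [Bool.not_not]; exact hdiv
        have e1 : (p : ℝ) * (nm u : ℝ) = nm w := by
          have := nm_Tp_down hSp (!t) hw hdiv'
          rw [← hudef] at this
          exact_mod_cast this
        have e2 : om I u ≤ om I w := by
          rw [hudef]
          exact om_Tp_down hSp (!t) hw hdiv' I
        refine le_trans ?_ (le_add_of_nonneg_right hTU0)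
        rw [hTD, ← hN]
        refine Finset.sum_le_sum fun s _ => ?_
        have e3 : (om I u + r) ^ (r - s) ≤ A ^ (r - s) := by
          apply pow_le_pow_left₀ (by linarith)
          rw [hA']
          linarith
        have e4 : (if (nm u : ℝ) * P ^ (2 * s) ≤ Y * Qm ^ r then (1 : ℝ) else 0) ≤ D s := by
          rw [hD]
          by_cases hc : (nm u : ℝ) * P ^ (2 * s) ≤ Y * Qm ^ r
          · have hY : 0 ≤ Y * Qm ^ r := le_trans (by have := hPpow s; positivity) hc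
            have hc2 : (nm w : ℝ) * P ^ (2 * s) ≤ Y * Qm ^ (r + 1) := by
              rw [← e1, pow_succ]
              calc (p : ℝ) * nm u * P ^ (2 * s) = p * (nm u * P ^ (2 * s)) := by ring
                _ ≤ p * (Y * Qm ^ r) := by gcongr
                _ ≤ Qm * (Y * Qm ^ r) := by gcongr
                _ = Y * (Qm ^ r * Qm) := by ring
            rw [if_pos hc, if_pos hc2]
          · rw [if_neg hc]
            split_ifs <;> norm_num
        have e5 : 0 ≤ (r.choose s : ℝ) * N ^ s := by positivity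
        have e6 : 0 ≤ (om I u + r) ^ (r - s) := pow_nonneg (by linarith) _
        have e7 : 0 ≤ (if (nm u : ℝ) * P ^ (2 * s) ≤ Y * Qm ^ r then (1 : ℝ) else 0) := by
          split_ifs <;> norm_num
        exact mul_le_mul (mul_le_mul_of_nonneg_left e3 e5) e4 e7
          (mul_nonneg e5 (pow_nonneg hA0 _))
      · rw [if_neg hdiv, zero_mul, zero_add]
        have hdiv' : ¬ el p (!(!t)) ∣ w := by rw [Bool.not_not]; exact hdiv
        have e1 : (nm u : ℝ) = (p : ℝ) * nm w := by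
          have := nm_Tp_up hSp (!t) hw hdiv'
          rw [← hudef] at this
          exact_mod_cast this
        have e2 : om I u ≤ om I w + 1 := by
          rw [hudef]
          exact om_Tp_up hSp (!t) hw hdiv' I (fun q hq => (hI q hq).1)
        rw [hTU, ← hN]
        refine Finset.sum_le_sum fun s _ => ?_
        have e3 : (om I u + r) ^ (r - s) ≤ A ^ (r - s) := by
          apply pow_le_pow_left₀ (by linarith)
          rw [hA']
          linarith
        have e4 : (if (nm u : ℝ) * P ^ (2 * s) ≤ Y * Qm ^ r then (1 : ℝ) else 0) ≤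
            D (s + 1) := by
          rw [hD]
          by_cases hc : (nm u : ℝ) * P ^ (2 * s) ≤ Y * Qm ^ r
          · have hY : 0 ≤ Y * Qm ^ r := le_trans (by have := hPpow s; positivity) hc
            have hP0 : 0 < P := by linarith
            have hc2 : (nm w : ℝ) * P ^ (2 * (s + 1)) ≤ Y * Qm ^ (r + 1) := by
              rw [pow_succ Qm]
              calc (nm w : ℝ) * P ^ (2 * (s + 1)) = P * ((P * nm w) * P ^ (2 * s)) := by ring
                _ ≤ P * ((p * nm w) * P ^ (2 * s)) := by gcongr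
                _ = P * (nm u * P ^ (2 * s)) := by rw [e1]
                _ ≤ P * (Y * Qm ^ r) := by gcongr
                _ ≤ Qm * (Y * Qm ^ r) := by
                    apply mul_le_mul_of_nonneg_right _ hY
                    linarith
                _ = Y * (Qm ^ r * Qm) := by ring
            rw [if_pos hc, if_pos hc2]
          · rw [if_neg hc]
            split_ifs <;> norm_num
        have e5 : 0 ≤ (r.choose s : ℝ) * N ^ s := by positivity
        have e6 : 0 ≤ (om I u + r) ^ (r - s) := pow_nonneg (by linarith) _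
        have e7 : 0 ≤ (if (nm u : ℝ) * P ^ (2 * s) ≤ Y * Qm ^ r then (1 : ℝ) else 0) := by
          split_ifs <;> norm_num
        exact mul_le_mul (mul_le_mul_of_nonneg_left e3 e5) e4 e7
          (mul_nonneg e5 (pow_nonneg hA0 _))
    have h1 : ‖opn I b a' w‖ ≤ A * TD + N * TU := by
      rw [hopn]
      calc ‖∑ p ∈ I, ∑ s : Bool, b p s * a' (Tp p (!s) w)‖
          ≤ ∑ p ∈ I, ∑ s : Bool, ‖b p s * a' (Tp p (!s) w)‖ :=
            (norm_sum_le _ _).trans (Finset.sum_le_sum fun p _ => norm_sum_le _ _)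
        _ ≤ ∑ p ∈ I, ∑ s : Bool, ((if el p s ∣ w then (1 : ℝ) else 0) * TD + TU) :=
            Finset.sum_le_sum fun p hp => Finset.sum_le_sum fun s _ => key p hp s
        _ = om I w * TD + N * TU := by
            simp only [Finset.sum_add_distrib, ← Finset.sum_mul, Finset.sum_const, nsmul_eq_mul]
            rw [om, hN]
            simp only [Finset.card_univ, Fintype.card_bool]
            push_cast
            ring
        _ ≤ A * TD + N * TU := by gcongr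
    refine h1.trans (le_of_eq ?_)
    rw [← hN, ← hA]
    simp only [← hD]
    rw [Finset.sum_range_succ', hTD, hTU, Finset.mul_sum, Finset.mul_sum]
    have e1 : ∀ s ∈ Finset.range (r + 1), ((r + 1).choose (s + 1) : ℝ) * N ^ (s + 1) *
        A ^ (r + 1 - (s + 1)) * D (s + 1) =
        N * ((r.choose s : ℝ) * N ^ s * A ^ (r - s) * D (s + 1)) +
          (r.choose (s + 1) : ℝ) * N ^ (s + 1) * A ^ (r - s) * D (s + 1) := by
      intro s _
      rw [Nat.choose_succ_succ, Nat.add_sub_add_right]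
      push_cast
      ring
    rw [Finset.sum_congr rfl e1, Finset.sum_add_distrib]
    have e2 : ∑ s ∈ Finset.range (r + 1), A * ((r.choose s : ℝ) * N ^ s * A ^ (r - s) * D s) =
        ∑ s ∈ Finset.range (r + 1), (r.choose (s + 1) : ℝ) * N ^ (s + 1) * A ^ (r - s) *
          D (s + 1) + A ^ (r + 1) * D 0 := by
      have e3 : ∀ s ∈ Finset.range (r + 1), A * ((r.choose s : ℝ) * N ^ s * A ^ (r - s) * D s) =
          (r.choose s : ℝ) * N ^ s * A ^ (r + 1 - s) * D s := by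
        intro s hs
        have hs' : s ≤ r := Nat.lt_succ_iff.mp (Finset.mem_range.mp hs)
        rw [Nat.succ_sub hs', pow_succ A]
        ring
      rw [Finset.sum_congr rfl e3]
      have e4 : ∑ s ∈ Finset.range (r + 1 + 1), (r.choose s : ℝ) * N ^ s * A ^ (r + 1 - s) * D s =
          ∑ s ∈ Finset.range (r + 1), (r.choose s : ℝ) * N ^ s * A ^ (r + 1 - s) * D s := by
        rw [Finset.sum_range_succ, Nat.choose_succ_self]
        simp
      rw [← e4, Finset.sum_range_succ']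
      congr 1
      · refine Finset.sum_congr rfl fun s _ => ?_
        rw [Nat.add_sub_add_right]
      · simp
    rw [e2]
    simp only [Nat.choose_zero_right, Nat.cast_one, pow_zero, mul_one, one_mul, Nat.sub_zero]
    ring

end

end Pool.Agent.Lib.MP_0b748d_nt.MR
end

section

set_option autoImplicit false

/-!
# Exponential moment of the number of prime factors
-/

namespace Pool.Agent.Lib.MP_0b748d_nt.MR

open Zsqrtd

noncomputable section

open Classical in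
/-- the product over a finite set of pairs -/
def rkProd (J : Finset (ℕ × Bool)) (c : ℝ) (w : ℤ√2) : ℝ :=
  ∏ j ∈ J, (1 + c * (if el j.1 j.2 ∣ w then (1 : ℝ) else 0))

theorem rkProd_inv (J : Finset (ℕ × Bool)) (c : ℝ) : Inv (rkProd J c) := by
  intro n z _
  unfold rkProd
  refine Finset.prod_congr rfl fun j _ => ?_
  by_cases h : el j.1 j.2 ∣ z
  · rw [if_pos h, if_pos ((dvd_un n (el j.1 j.2) z).2 h)]
  · rw [if_neg h, if_neg fun h' => h ((dvd_un n (el j.1 j.2) z).1 h')]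

theorem rkProd_nonneg (J : Finset (ℕ × Bool)) {c : ℝ} (hc : 0 ≤ c) (w : ℤ√2) :
    0 ≤ rkProd J c w := by
  unfold rkProd
  refine Finset.prod_nonneg fun j _ => ?_
  split_ifs <;> nlinarith

open Classical in
theorem rk_induct {C c : ℝ} (hc : 0 ≤ c)
    (hC : ∀ a b : ℝ, 0 ≤ a → 0 ≤ b → ((Vs a b).card : ℝ) ≤ C * b)
    (J : Finset (ℕ × Bool)) (hJ : ∀ j ∈ J, Sp j.1) :
    ∀ Z : ℝ, 0 ≤ Z →
      ∑ w ∈ Vs 0 Z, rkProd J c w ≤ C * Z * ∏ j ∈ J, (1 + c / (j.1 : ℝ)) := by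
  induction J using Finset.induction_on with
  | empty =>
    intro Z hZ
    have h := hC 0 Z le_rfl hZ
    simpa [rkProd] using h
  | insert j J hj ih =>
    intro Z hZ
    have hJ' : ∀ i ∈ J, Sp i.1 := fun i hi => hJ i (Finset.mem_insert_of_mem hi)
    have hjp : Sp j.1 := hJ j (Finset.mem_insert_self _ _)
    have hspec := el_spec hjp j.2
    have hp0 : (0 : ℝ) < j.1 := by exact_mod_cast hjp.1.pos
    have ih1 := ih hJ' Z hZ
    have ih2 := ih hJ' (Z / (j.1 : ℝ)) (by positivity)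
    have hsplit : ∀ w, rkProd (insert j J) c w =
        rkProd J c w + c * (if el j.1 j.2 ∣ w then rkProd J c w else 0) := by
      intro w
      unfold rkProd
      rw [Finset.prod_insert hj]
      split_ifs <;> ring
    have hs1 : ∑ w ∈ Vs 0 Z, rkProd (insert j J) c w =
        ∑ w ∈ Vs 0 Z, rkProd J c w +
          c * ∑ w ∈ (Vs 0 Z).filter (fun w => el j.1 j.2 ∣ w), rkProd J c w := by
      rw [Finset.sum_congr rfl fun w _ => hsplit w, Finset.sum_add_distrib, ← Finset.mul_sum,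
        Finset.sum_filter]
    have hs2 : ∑ w ∈ (Vs 0 Z).filter (fun w => el j.1 j.2 ∣ w), rkProd J c w =
        ∑ m ∈ Vs 0 (Z / (j.1 : ℝ)), rkProd J c m := by
      rw [sum_dvd (el j.1 j.2) hspec.1 0 Z (rkProd J c) (rkProd_inv J c), hspec.2]
      have hcast : (((j.1 : ℕ) : ℤ) : ℝ) = (j.1 : ℝ) := by norm_cast
      rw [hcast, zero_div]
      refine Finset.sum_congr rfl fun m _ => ?_
      unfold rkProd
      refine Finset.prod_congr rfl fun i hi => ?_
      have hne : (i.1, i.2) ≠ (j.1, j.2) := fun h => hj (by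
        have : i = j := h
        rwa [this] at hi)
      have := el_coprime (hJ' i hi) hjp hne m
      simp only [this]
    rw [hs1, hs2, Finset.prod_insert hj]
    have h3 : c * ∑ m ∈ Vs 0 (Z / (j.1 : ℝ)), rkProd J c m ≤
        c * (C * (Z / (j.1 : ℝ)) * ∏ i ∈ J, (1 + c / (i.1 : ℝ))) :=
      mul_le_mul_of_nonneg_left ih2 hc
    calc ∑ w ∈ Vs 0 Z, rkProd J c w + c * ∑ m ∈ Vs 0 (Z / (j.1 : ℝ)), rkProd J c m
        ≤ C * Z * ∏ i ∈ J, (1 + c / (i.1 : ℝ)) +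
          c * (C * (Z / (j.1 : ℝ)) * ∏ i ∈ J, (1 + c / (i.1 : ℝ))) := add_le_add ih1 h3
      _ = C * Z * ((1 + c / (j.1 : ℝ)) * ∏ i ∈ J, (1 + c / (i.1 : ℝ))) := by
        ring

theorem rk_exp (I : Finset ℕ) (w : ℤ√2) :
    Real.exp (om I w) = rkProd (I ×ˢ Finset.univ) (Real.exp 1 - 1) w := by
  unfold om rkProd
  rw [Real.exp_sum, Finset.prod_product]
  refine Finset.prod_congr rfl fun p _ => ?_
  rw [Real.exp_sum]
  refine Finset.prod_congr rfl fun s _ => ?_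
  split_ifs
  · ring
  · simp

/-- Rankin's bound.

Proof. `exp(om I w) = ∏_{(p,σ) : el p σ ∣ w} e = ∑_D (e-1)^|D|`, the sum over the sets `D` of pairs
`(p, σ)`, `p ∈ I`, with `el p σ ∣ w` for all `(p, σ) ∈ D`. Since the `el p σ` are pairwise coprime
primes, `w` is then divisible by `ρ_D = ∏_D el p σ` (induction with `el_coprime`), and
`#{w ∈ Vs 0 Z : ρ_D ∣ w} = #Vs 0 (Z/nm ρ_D) ≤ C Z/nm ρ_D` (`sum_dvd`, `V_le`). So the sum is at most
`C Z ∑_D ∏_{(p,σ) ∈ D} (e-1)/p = C Z ∏_{p ∈ I} (1 + (e-1)/p)² ≤ C Z exp(2 (e-1) ∑ 1/p)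
= C Z exp((e-1) ∑ 2/p)`, and `e - 1 ≤ 2`. -/
theorem rankin : ∃ C : ℝ, 1 ≤ C ∧ ∀ I : Finset ℕ, (∀ p ∈ I, Sp p) → ∀ Z : ℝ, 0 ≤ Z →
    ∑ w ∈ Vs 0 Z, Real.exp (om I w) ≤ C * Z * Real.exp (2 * ∑ p ∈ I, 2 / (p : ℝ)) := by
  obtain ⟨C, hC1, hC⟩ := V_le
  refine ⟨C, hC1, fun I hI Z hZ => ?_⟩
  have he : Real.exp 1 < 2.7182818286 := Real.exp_one_lt_d9
  have he1 : 1 < Real.exp 1 := Real.one_lt_exp_iff.2 one_pos
  have hc0 : 0 ≤ Real.exp 1 - 1 := by linarith
  have h1 := rk_induct hc0 hC (I ×ˢ Finset.univ) (fun j hj => hI j.1 (Finset.mem_product.1 hj).1)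
    Z hZ
  rw [Finset.sum_congr rfl fun w _ => rk_exp I w]
  refine h1.trans (mul_le_mul_of_nonneg_left ?_ (by nlinarith))
  have h2 : ∏ j ∈ I ×ˢ (Finset.univ : Finset Bool), (1 + (Real.exp 1 - 1) / (j.1 : ℝ)) ≤
      ∏ j ∈ I ×ˢ (Finset.univ : Finset Bool), Real.exp ((Real.exp 1 - 1) / (j.1 : ℝ)) := by
    refine Finset.prod_le_prod (fun j _ => by positivity) fun j _ => ?_
    rw [add_comm]
    exact Real.add_one_le_exp _
  refine h2.trans ?_
  rw [← Real.exp_sum, Finset.sum_product]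
  refine Real.exp_le_exp.2 ?_
  rw [Finset.mul_sum]
  refine Finset.sum_le_sum fun p _ => ?_
  rw [Fintype.sum_bool]
  have h3 : (0 : ℝ) ≤ 1 / (p : ℝ) := by positivity
  have h4 : (Real.exp 1 - 1) / (p : ℝ) = (Real.exp 1 - 1) * (1 / (p : ℝ)) := by ring
  have h5 : (2 : ℝ) / (p : ℝ) = 2 * (1 / (p : ℝ)) := by ring
  rw [h4, h5]
  nlinarith

end

end Pool.Agent.Lib.MP_0b748d_nt.MR
end

section

set_option autoImplicit false

/-!
# The moment bound
-/

namespace Pool.Agent.Lib.MP_0b748d_nt.MR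

open Zsqrtd

noncomputable section

private theorem mc_ip {P Q : ℝ} {p : ℕ} (h : p ∈ Ip P Q) :
    p.Prime ∧ p % 8 = 1 ∧ P ≤ p ∧ (p : ℝ) < Q := by
  classical
  unfold Ip at h
  exact (Finset.mem_filter.1 h).2

private theorem mc_card {P Q : ℝ} (hP : 2 ≤ P) (hPQ : P ≤ Q) (hQ : Q ≤ 3 * P) :
    ((Ip P Q).card : ℝ) ≤ 3 * P := by
  have hsub : Ip P Q ⊆ Finset.Ico ⌈P⌉₊ ⌈Q⌉₊ := by
    intro p hp
    obtain ⟨_, _, h1, h2⟩ := mc_ip hp
    rw [Finset.mem_Ico]
    exact ⟨Nat.ceil_le.2 h1, Nat.lt_ceil.2 h2⟩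
  have h1 := Finset.card_le_card hsub
  rw [Nat.card_Ico] at h1
  have h2 : ⌈P⌉₊ ≤ ⌈Q⌉₊ := Nat.ceil_mono hPQ
  have h3 : ((Ip P Q).card : ℝ) ≤ (⌈Q⌉₊ : ℝ) - ⌈P⌉₊ := by
    rw [← Nat.cast_sub h2]
    exact_mod_cast h1
  have h4 : (⌈Q⌉₊ : ℝ) < Q + 1 := Nat.ceil_lt_add_one (by linarith)
  have h5 : P ≤ ⌈P⌉₊ := Nat.le_ceil P
  linarith

private theorem mc_sum {P Q : ℝ} (hP : 2 ≤ P) (hPQ : P ≤ Q) (hQ : Q ≤ 3 * P) :
    ∑ p ∈ Ip P Q, 2 / (p : ℝ) ≤ 6 := by
  calc ∑ p ∈ Ip P Q, 2 / (p : ℝ) ≤ ∑ _p ∈ Ip P Q, 2 / P :=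
        Finset.sum_le_sum fun p hp =>
          div_le_div_of_nonneg_left (by norm_num) (by linarith) (mc_ip hp).2.2.1
    _ = (Ip P Q).card * (2 / P) := by rw [Finset.sum_const, nsmul_eq_mul]
    _ ≤ 3 * P * (2 / P) := mul_le_mul_of_nonneg_right (mc_card hP hPQ hQ) (by positivity)
    _ = 6 := by
        field_simp
        norm_num

private theorem mc_pow {x : ℝ} (hx : 0 ≤ x) (m : ℕ) : x ^ m ≤ (m : ℝ) ^ m * Real.exp x := by
  have h1 := Real.pow_div_factorial_le_exp x hx m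
  have h2 : (m.factorial : ℝ) ≤ (m : ℝ) ^ m := by exact_mod_cast Nat.factorial_le_pow m
  rw [div_le_iff₀ (by positivity)] at h1
  calc x ^ m ≤ Real.exp x * m.factorial := h1
    _ ≤ Real.exp x * (m : ℝ) ^ m := mul_le_mul_of_nonneg_left h2 (Real.exp_pos _).le
    _ = (m : ℝ) ^ m * Real.exp x := mul_comm _ _

private theorem mc_om (I : Finset ℕ) (w : ℤ√2) : 0 ≤ om I w := by
  unfold om
  refine Finset.sum_nonneg fun p _ => Finset.sum_nonneg fun s _ => ?_
  split_ifs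
  · exact zero_le_one
  · exact le_rfl

/-- one term -/
private theorem mc_term {N P x : ℝ} (hN : 0 ≤ N) (hNP : N ≤ 3 * P) (hx : 0 ≤ x) {r s : ℕ}
    (hr : 1 ≤ r) (hs : s ≤ r) :
    ((r.choose s : ℝ) * (2 * N) ^ s * (x + r) ^ (r - s)) ^ 2 ≤
      4 ^ r * (6 * P) ^ (2 * s) * (2 * r) ^ (2 * r) * Real.exp r * Real.exp x := by
  have h1 : (r.choose s : ℝ) ≤ 2 ^ r := by exact_mod_cast Nat.choose_le_two_pow r s
  have h2 : 2 * N ≤ 6 * P := by linarith
  have h3 : (x + r) ^ (2 * (r - s)) ≤ (2 * r) ^ (2 * r) * Real.exp (x + r) := by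
    refine (mc_pow (by positivity) _).trans ?_
    refine mul_le_mul_of_nonneg_right ?_ (Real.exp_pos _).le
    have h4 : ((2 * (r - s) : ℕ) : ℝ) ≤ 2 * r := by
      have : 2 * (r - s) ≤ 2 * r := by omega
      exact_mod_cast this
    calc ((2 * (r - s) : ℕ) : ℝ) ^ (2 * (r - s)) ≤ (2 * r) ^ (2 * (r - s)) :=
          pow_le_pow_left₀ (by positivity) h4 _
      _ ≤ (2 * r) ^ (2 * r) := by
          refine pow_le_pow_right₀ ?_ (by omega)
          have : (1 : ℝ) ≤ r := by exact_mod_cast hr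
          linarith
  have h5 : ((r.choose s : ℝ) * (2 * N) ^ s * (x + r) ^ (r - s)) ^ 2 =
      (r.choose s : ℝ) ^ 2 * (2 * N) ^ (2 * s) * (x + r) ^ (2 * (r - s)) := by
    rw [mul_pow, mul_pow, ← pow_mul, ← pow_mul, mul_comm s 2, mul_comm (r - s) 2]
  have h6 : (r.choose s : ℝ) ^ 2 ≤ 4 ^ r := by
    calc (r.choose s : ℝ) ^ 2 ≤ (2 ^ r) ^ 2 := pow_le_pow_left₀ (by positivity) h1 2
      _ = 4 ^ r := by
          rw [← pow_mul, mul_comm, pow_mul]
          norm_num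
  have h7 : (2 * N) ^ (2 * s) ≤ (6 * P) ^ (2 * s) := pow_le_pow_left₀ (by linarith) h2 _
  have h8 : 0 ≤ (6 * P) ^ (2 * s) := pow_nonneg (by linarith) _
  rw [h5]
  calc (r.choose s : ℝ) ^ 2 * (2 * N) ^ (2 * s) * (x + r) ^ (2 * (r - s))
      ≤ 4 ^ r * (6 * P) ^ (2 * s) * ((2 * r) ^ (2 * r) * Real.exp (x + r)) := by
        refine mul_le_mul (mul_le_mul h6 h7 (by positivity) (by positivity)) h3
          (by positivity) (mul_nonneg (by positivity) h8)
    _ = 4 ^ r * (6 * P) ^ (2 * s) * (2 * r) ^ (2 * r) * Real.exp r * Real.exp x := by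
        rw [Real.exp_add]
        ring

/-- Proof. `I = Ip P Q ⊆ [P, 3P)`, so `|I| ≤ 2P + 1 ≤ 3P`, `∑_I 2/p ≤ 2|I|/P ≤ 6`. By `path_bound`
(`Qm = Q`) and Cauchy-Schwarz over `s ≤ r`,
`‖(opn)^r a w‖² ≤ (r+1) ∑_s C(r,s)² (6P)^(2s) (om + r)^(2(r-s)) 1[nm w ≤ Z_s]`, `Z_s = Y Q^r/P^(2s)`.
`(om + r)^m ≤ m^m e^(om + r)` (`x^m/m! ≤ e^x`) with `m = 2(r-s) ≤ 2r` gives `≤ (2r)^(2r) e^r e^om`
(also for `m = 0`). By `rankin`, `∑_{nm w ≤ Z} e^(om w) ≤ ∑_{w ∈ Vs 0 2Z} e^om ≤ 2 C Z e^12`. So the sum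
over `w` is at most `(r+1)² 4^r 36^r (2r)^(2r) e^r · 2 C e^12 · Y Q^r` (`(6P)^(2s) Z_s = 36^s Y Q^r`) and
`Q^r ≤ 3^r P^r`. All together `≤ Y P^r (C' r)^(2r+2)` as `r ≥ 1`. -/
theorem moment_coef : ∃ C : ℝ, 1 ≤ C ∧ ∀ P Q : ℝ, 2 ≤ P → P ≤ Q → Q ≤ 3 * P →
    ∀ b : ℕ → Bool → ℂ, (∀ p s, ‖b p s‖ ≤ 1) → ∀ Y : ℝ, 1 ≤ Y → ∀ a : ℤ√2 → ℂ,
    (∀ w, w ∉ Us 0 Y → a w = 0) → (∀ w, ‖a w‖ ≤ 1) → ∀ r : ℕ, 1 ≤ r →
    ∑ w ∈ Us 0 (Q ^ r * Y), ‖(opn (Ip P Q) b)^[r] a w‖ ^ 2 ≤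
      Y * P ^ r * (C * r) ^ (2 * r + 2) := by
  classical
  obtain ⟨C0, hC0, hR⟩ := rankin
  set B : ℝ := 2 * C0 * Real.exp 12 with hB
  have hB1 : 1 ≤ B := by
    have h1 : (1 : ℝ) ≤ Real.exp 12 := Real.one_le_exp (by norm_num)
    have h2 : (1 : ℝ) ≤ 2 * C0 := by linarith
    calc (1 : ℝ) = 1 * 1 := by ring
      _ ≤ 2 * C0 * Real.exp 12 := mul_le_mul h2 h1 zero_le_one (by linarith)
  refine ⟨72 * B, by linarith, ?_⟩
  intro P Q hP hPQ hQ b hb Y hY a ha ha1 r hr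
  have hP0 : 0 < P := by linarith
  have hQ0 : 0 < Q := by linarith
  have hr1 : (1 : ℝ) ≤ r := by exact_mod_cast hr
  set I := Ip P Q with hI
  have hIsp : ∀ p ∈ I, Sp p := fun p hp => ⟨(mc_ip hp).1, Or.inl (mc_ip hp).2.1⟩
  have hN : (I.card : ℝ) ≤ 3 * P := mc_card hP hPQ hQ
  set A : ℕ → ℝ := fun s => 4 ^ r * (6 * P) ^ (2 * s) * (2 * r) ^ (2 * r) * Real.exp r with hA
  have hA0 : ∀ s, 0 ≤ A s := by
    intro s
    rw [hA]
    positivity
  -- the pointwise bound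
  have hpt : ∀ w ∈ Us 0 (Q ^ r * Y), ‖(opn I b)^[r] a w‖ ^ 2 ≤
      ((r : ℝ) + 1) * ∑ s ∈ Finset.range (r + 1),
        A s * (if (nm w : ℝ) * P ^ (2 * s) ≤ Y * Q ^ r then Real.exp (om I w) else 0) := by
    intro w hw
    have hcan : Can w := (mem_Us.1 hw).1
    have h1 := path_bound I P Q Y (by linarith) (fun p hp => ⟨hIsp p hp, (mc_ip hp).2.2.1,
      (mc_ip hp).2.2.2.le⟩) b hb a ha ha1 r w hcan
    have h2 := pow_le_pow_left₀ (norm_nonneg _) h1 2
    refine h2.trans ?_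
    have h3 := sq_sum_le_card_mul_sum_sq (s := Finset.range (r + 1)) (f := fun s =>
      (r.choose s : ℝ) * (2 * I.card) ^ s * (om I w + r) ^ (r - s) *
        (if (nm w : ℝ) * P ^ (2 * s) ≤ Y * Q ^ r then 1 else 0))
    refine h3.trans ?_
    rw [Finset.card_range]
    push_cast
    refine mul_le_mul_of_nonneg_left (Finset.sum_le_sum fun s hs => ?_) (by positivity)
    have hs' : s ≤ r := by
      rw [Finset.mem_range] at hs
      omega
    split_ifs with hcond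
    · rw [mul_one]
      exact mc_term (Nat.cast_nonneg _) hN (mc_om I w) hr hs'
    · simp
  -- the sum over `w` for fixed `s`
  have hsum : ∀ s ∈ Finset.range (r + 1), ∑ w ∈ Us 0 (Q ^ r * Y), A s *
      (if (nm w : ℝ) * P ^ (2 * s) ≤ Y * Q ^ r then Real.exp (om I w) else 0) ≤
      4 ^ r * 36 ^ r * (2 * r) ^ (2 * r) * Real.exp r * (B * (Y * Q ^ r)) := by
    intro s hs
    have hs' : s ≤ r := by
      rw [Finset.mem_range] at hs
      omega
    rw [← Finset.mul_sum, ← Finset.sum_filter]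
    set Z : ℝ := Y * Q ^ r / P ^ (2 * s) with hZ
    have hP2 : 0 < P ^ (2 * s) := by positivity
    have hZ0 : 0 < Z := by
      rw [hZ]
      positivity
    have h1 : ∑ w ∈ (Us 0 (Q ^ r * Y)).filter (fun w => (nm w : ℝ) * P ^ (2 * s) ≤ Y * Q ^ r),
        Real.exp (om I w) ≤ ∑ w ∈ Vs 0 (2 * Z), Real.exp (om I w) := by
      refine Finset.sum_le_sum_of_subset_of_nonneg ?_ fun w _ _ => (Real.exp_pos _).le
      intro w hw
      obtain ⟨hw1, hw2⟩ := Finset.mem_filter.1 hw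
      obtain ⟨hc, h0, _⟩ := mem_Us.1 hw1
      rw [mem_Vs]
      refine ⟨hc.1, h0, ?_, hc.2.2.1, hc.2.2.2⟩
      have h2 : (nm w : ℝ) ≤ Z := by
        rw [hZ, le_div_iff₀ hP2]
        exact hw2
      linarith
    have h2 := hR I hIsp (2 * Z) (by linarith)
    have h3 : Real.exp (2 * ∑ p ∈ I, 2 / (p : ℝ)) ≤ Real.exp 12 := by
      apply Real.exp_le_exp.2
      have := mc_sum hP hPQ hQ
      linarith
    have h4 : ∑ w ∈ Vs 0 (2 * Z), Real.exp (om I w) ≤ B * Z := by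
      refine h2.trans ?_
      calc C0 * (2 * Z) * Real.exp (2 * ∑ p ∈ I, 2 / (p : ℝ)) ≤ C0 * (2 * Z) * Real.exp 12 :=
            mul_le_mul_of_nonneg_left h3 (by positivity)
        _ = B * Z := by
            rw [hB]
            ring
    calc A s * ∑ w ∈ (Us 0 (Q ^ r * Y)).filter
          (fun w => (nm w : ℝ) * P ^ (2 * s) ≤ Y * Q ^ r), Real.exp (om I w)
        ≤ A s * (B * Z) := mul_le_mul_of_nonneg_left (h1.trans h4) (hA0 s)
      _ = 4 ^ r * 36 ^ s * (2 * r) ^ (2 * r) * Real.exp r * (B * (Y * Q ^ r)) := by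
          rw [hA, hZ]
          have e1 : (6 * P) ^ (2 * s) = 36 ^ s * P ^ (2 * s) := by
            rw [mul_pow, pow_mul 6 2 s]
            norm_num
          simp only
          rw [e1]
          field_simp
      _ ≤ 4 ^ r * 36 ^ r * (2 * r) ^ (2 * r) * Real.exp r * (B * (Y * Q ^ r)) := by
          have h36 : (36 : ℝ) ^ s ≤ 36 ^ r := pow_le_pow_right₀ (by norm_num) hs'
          gcongr
  calc ∑ w ∈ Us 0 (Q ^ r * Y), ‖(opn I b)^[r] a w‖ ^ 2
      ≤ ∑ w ∈ Us 0 (Q ^ r * Y), ((r : ℝ) + 1) * ∑ s ∈ Finset.range (r + 1),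
        A s * (if (nm w : ℝ) * P ^ (2 * s) ≤ Y * Q ^ r then Real.exp (om I w) else 0) :=
        Finset.sum_le_sum hpt
    _ = ((r : ℝ) + 1) * ∑ s ∈ Finset.range (r + 1), ∑ w ∈ Us 0 (Q ^ r * Y),
        A s * (if (nm w : ℝ) * P ^ (2 * s) ≤ Y * Q ^ r then Real.exp (om I w) else 0) := by
        rw [← Finset.mul_sum, Finset.sum_comm]
    _ ≤ ((r : ℝ) + 1) * ∑ s ∈ Finset.range (r + 1),
        4 ^ r * 36 ^ r * (2 * r) ^ (2 * r) * Real.exp r * (B * (Y * Q ^ r)) :=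
        mul_le_mul_of_nonneg_left (Finset.sum_le_sum hsum) (by positivity)
    _ = ((r : ℝ) + 1) ^ 2 * (4 ^ r * 36 ^ r * (2 * r) ^ (2 * r) * Real.exp r *
        (B * (Y * Q ^ r))) := by
        rw [Finset.sum_const, Finset.card_range, nsmul_eq_mul]
        push_cast
        ring
    _ ≤ (2 * r) ^ 2 * (4 ^ r * 36 ^ r * (2 * r) ^ (2 * r) * 3 ^ r *
        (B * (Y * (3 * P) ^ r))) := by
        have hexp : Real.exp r ≤ 3 ^ r := by
          rw [← Real.exp_one_pow]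
          exact pow_le_pow_left₀ (Real.exp_pos _).le (by linarith [Real.exp_one_lt_d9]) r
        have hQr : Q ^ r ≤ (3 * P) ^ r := pow_le_pow_left₀ hQ0.le hQ r
        have h2r : (r : ℝ) + 1 ≤ 2 * r := by linarith
        gcongr
    _ = Y * P ^ r * ((72 * r) ^ (2 * r) * ((2 * r) ^ 2 * B)) := by
        have e1 : (72 * (r : ℝ)) ^ (2 * r) = 36 ^ (2 * r) * (2 * r) ^ (2 * r) := by
          rw [← mul_pow]
          congr 1
          ring
        have e2 : (36 : ℝ) ^ (2 * r) = 4 ^ r * 36 ^ r * 3 ^ r * 3 ^ r := by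
          rw [pow_mul, ← mul_pow, ← mul_pow, ← mul_pow]
          norm_num
        rw [e1, e2, mul_pow 3 P r]
        ring
    _ ≤ Y * P ^ r * (72 * B * r) ^ (2 * r + 2) := by
        refine mul_le_mul_of_nonneg_left ?_ (by positivity)
        rw [pow_add]
        have h1 : 72 * (r : ℝ) ≤ 72 * B * r := by nlinarith
        have h2 : (2 * (r : ℝ)) ^ 2 * B ≤ (72 * B * r) ^ 2 := by
          have h3 : (72 * B * (r : ℝ)) ^ 2 = (72 * r) ^ 2 * (B * B) := by ring
          rw [h3]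
          have h4 : B ≤ B * B := by nlinarith
          have h5 : (2 * (r : ℝ)) ^ 2 ≤ (72 * r) ^ 2 :=
            pow_le_pow_left₀ (by positivity) (by linarith) 2
          exact mul_le_mul h5 h4 (by linarith) (by positivity)
        exact mul_le_mul (pow_le_pow_left₀ (by positivity) h1 _) h2 (by positivity)
          (by positivity)

end

end Pool.Agent.Lib.MP_0b748d_nt.MR
end

section

set_option autoImplicit false

/-!
# The parameters of the levels

`L_j = L^(2^j)`, `P_j = exp L_j`, `λ_j = 1 + 1/(2^j log L)`, `n_j = ⌈4 * 2^j log L * L_j^(3/2)⌉`,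
`α_j = α (1 - 2^(-(j+1)))`. Note `2^j log L = log L_j`.
-/

namespace Pool.Agent.Lib.MP_0b748d_nt.MR

open Zsqrtd

noncomputable section

/-- the last level.

Proof. Let `J` be the largest index with `L_J ≤ (log X)^(1/3)` (exists when
`L ≤ (log X)^(1/3)`; `L_j → ∞`). Then `L_J^2 = L_(J+1) > (log X)^(1/3)`. -/
theorem exists_J (L : ℝ) (hL : 2 ≤ L) : ∃ X0 : ℝ, 1 ≤ X0 ∧ ∀ X : ℝ, X0 ≤ X → ∃ J : ℕ,
    pL L J ≤ Real.log X ^ ((1 : ℝ) / 3) ∧ Real.log X ^ ((1 : ℝ) / 6) < pL L J := by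
  have hL0 : (0 : ℝ) < L := by linarith
  refine ⟨Real.exp (L ^ 3), Real.one_le_exp (by positivity), fun X hX => ?_⟩
  have hX0 : 0 < X := (Real.exp_pos _).trans_le hX
  have hlog : L ^ 3 ≤ Real.log X := (Real.le_log_iff_exp_le hX0).2 hX
  have hlog0 : 0 < Real.log X := lt_of_lt_of_le (by positivity) hlog
  set T := Real.log X ^ ((1 : ℝ) / 3) with hT
  have hLT : L ≤ T := by
    have h1 : L = (L ^ 3) ^ ((1 : ℝ) / 3) := by
      rw [← Real.rpow_natCast, ← Real.rpow_mul hL0.le]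
      norm_num
    rw [h1, hT]
    exact Real.rpow_le_rpow (by positivity) hlog (by norm_num)
  have hT0 : 0 < T := by linarith
  have hex : ∃ j : ℕ, T < pL L j := by
    obtain ⟨m, hm⟩ := exists_nat_gt T
    refine ⟨m, hm.trans_le ?_⟩
    unfold pL
    have h1 : (m : ℝ) ≤ 2 ^ m := by
      exact_mod_cast Nat.lt_two_pow_self.le
    calc (m : ℝ) ≤ 2 ^ m := h1
      _ ≤ (2 : ℝ) ^ (2 ^ m) := pow_le_pow_right₀ (by norm_num) Nat.lt_two_pow_self.le
      _ ≤ L ^ (2 ^ m) := pow_le_pow_left₀ (by norm_num) hL _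
  have hfind := Nat.find_spec hex
  have hmin := fun m (h : m < Nat.find hex) => Nat.find_min hex h
  have hne : Nat.find hex ≠ 0 := by
    intro h
    rw [h] at hfind
    have h2 : pL L 0 = L := by
      unfold pL
      rw [pow_zero, pow_one]
    rw [h2] at hfind
    linarith
  obtain ⟨J, hJ⟩ := Nat.exists_eq_succ_of_ne_zero hne
  refine ⟨J, not_lt.1 (hmin J (by omega)), ?_⟩
  rw [hJ, Nat.succ_eq_add_one, pL_succ] at hfind
  have hpos : 0 < pL L J := by
    unfold pL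
    positivity
  have h6 : (Real.log X ^ ((1 : ℝ) / 6)) ^ 2 = T := by
    rw [hT, ← Real.rpow_natCast, ← Real.rpow_mul hlog0.le]
    norm_num
  rw [← h6] at hfind
  exact lt_of_pow_lt_pow_left₀ 2 hpos.le hfind

/-- the tops are below `X^(1/8)`.

Proof. `8 log(top) ≤ 48 L_j^(3/2) ≤ 48 L_J^(3/2) ≤ 48 (log X)^(1/2) ≤ log X` for
`log X ≥ 2304`. -/
theorem top_le (L : ℝ) (hL : 3 ≤ L) : ∃ X0 : ℝ, 1 ≤ X0 ∧ ∀ X : ℝ, X0 ≤ X → ∀ J : ℕ,
    pL L J ≤ Real.log X ^ ((1 : ℝ) / 3) → ∀ j ≤ J, (pP L j * pl L j ^ pn L j) ^ 8 ≤ X := by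
  refine ⟨Real.exp 2304, Real.one_le_exp (by norm_num), fun X hX J hJ j hj => ?_⟩
  have hX0 : 0 < X := (Real.exp_pos _).trans_le hX
  have hlog : 2304 ≤ Real.log X := (Real.le_log_iff_exp_le hX0).2 hX
  have hlog0 : 0 < Real.log X := by linarith
  have hmono : pL L j ≤ pL L J := by
    unfold pL
    exact pow_le_pow_right₀ (by linarith) (Nat.pow_le_pow_right (by norm_num) hj)
  have hpos : ∀ i, 0 < pL L i := fun i => by
    unfold pL
    positivity
  have htop := (top_size L hL j).2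
  have hlam0 : 0 < pl L j := by
    unfold pl
    have h3 : 1 ≤ pL L j := by
      have := (pL_mono L (by linarith) j).1
      linarith
    have := Real.log_nonneg h3
    positivity
  have htpos : 0 < pP L j * pl L j ^ pn L j := by
    unfold pP
    positivity
  have h1 : pL L j ^ ((3 : ℝ) / 2) ≤ Real.sqrt (Real.log X) := by
    calc pL L j ^ ((3 : ℝ) / 2) ≤ (Real.log X ^ ((1 : ℝ) / 3)) ^ ((3 : ℝ) / 2) :=
          Real.rpow_le_rpow (hpos j).le (hmono.trans hJ) (by norm_num)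
      _ = Real.sqrt (Real.log X) := by
          rw [← Real.rpow_mul hlog0.le, Real.sqrt_eq_rpow]
          norm_num
  have h2 : 48 * Real.sqrt (Real.log X) ≤ Real.log X := by
    have h3 : (48 : ℝ) ≤ Real.sqrt (Real.log X) := by
      rw [Real.le_sqrt (by norm_num) hlog0.le]
      linarith
    have h4 := Real.mul_self_sqrt hlog0.le
    nlinarith
  rw [← Real.exp_log htpos, ← Real.exp_nat_mul, ← Real.le_log_iff_exp_le hX0]
  push_cast
  linarith

end

end Pool.Agent.Lib.MP_0b748d_nt.MR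
end
end
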