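import Pool.Agent.Lib.MP_0b748d_nt.MR.Cheb
import Pool.Agent.Lib.MP_0b748d_nt.MR.ParamsX
import Pool.Agent.Lib.MP_0b748d_nt.MR.Corr
import Pool.Agent.Lib.MP_0b748d_nt.MR.Parseval

section

set_option autoImplicit false

/-!
# The parameters of the levels

`L_j = L^(2^j)`, `P_j = exp L_j`, `λ_j = 1 + 1/(2^j log L)`, `n_j = ⌈4 * 2^j log L * L_j^(3/2)⌉`,
`α_j = α (1 - 2^(-(j+1)))`. Note `2^j log L = log L_j`.
-/

namespace Pool.Agent.Lib.MP_0b748d_nt.MR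

open Zsqrtd

noncomputable section

/-- weight of a level.

Proof. `M_low` with constants `c0, K0`, `top_size`: `log Q/log P ≥ x^(3/2)/x = x^(1/2)` with
`x = L_j`, so `W ≥ (c0/2) log x - K0 ≥ (c0/4) log x` if `log x ≥ log L ≥ 4 K0/c0`. -/
theorem level_W : ∃ c L0 : ℝ, 0 < c ∧ 3 ≤ L0 ∧ ∀ L : ℝ, L0 ≤ L → ∀ j : ℕ,
    c * (2 ^ j * Real.log L) ≤ Wp (pP L j) (pP L j * pl L j ^ pn L j) ∧
    1 ≤ Wp (pP L j) (pP L j * pl L j ^ pn L j) := by
  obtain ⟨c0, K0, hc0, hK0, hM⟩ := M_low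
  refine ⟨c0 / 4, max 3 (Real.exp (4 * (K0 + 1) / c0)), by positivity, le_max_left _ _, ?_⟩
  intro L hL j
  have hL3 : 3 ≤ L := (le_max_left _ _).trans hL
  have hLe : Real.exp (4 * (K0 + 1) / c0) ≤ L := (le_max_right _ _).trans hL
  have hlogL : 4 * (K0 + 1) / c0 ≤ Real.log L := by
    rw [← Real.log_exp (4 * (K0 + 1) / c0)]
    exact Real.log_le_log (Real.exp_pos _) hLe
  have hx3 : 3 ≤ pL L j := hL3.trans (pL_mono L (by linarith) j).1
  have hx0 : 0 < pL L j := by linarith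
  have hlx : Real.log L ≤ Real.log (pL L j) :=
    Real.log_le_log (by linarith) (pL_mono L (by linarith) j).1
  have hlx0 : 0 < Real.log (pL L j) := Real.log_pos (by linarith)
  have hP2 : 2 ≤ pP L j := by
    unfold pP
    have h1 := Real.add_one_le_exp (pL L j)
    linarith
  have hlam : 1 ≤ pl L j := by
    unfold pl
    have : 0 < 1 / Real.log (pL L j) := by positivity
    linarith
  have hPQ : pP L j ≤ pP L j * pl L j ^ pn L j := by
    have h1 : 1 ≤ pl L j ^ pn L j := one_le_pow₀ hlam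
    nlinarith
  have hlogP : Real.log (pP L j) = pL L j := Real.log_exp _
  have htop := (top_size L hL3 j).1
  have hdiv : pL L j ^ ((1 : ℝ) / 2) ≤
      Real.log (pP L j * pl L j ^ pn L j) / Real.log (pP L j) := by
    rw [hlogP, le_div_iff₀ hx0]
    refine le_trans (le_of_eq ?_) htop
    nth_rewrite 2 [← Real.rpow_one (pL L j)]
    rw [← Real.rpow_add hx0]
    norm_num
  have hlogdiv : 1 / 2 * Real.log (pL L j) ≤
      Real.log (Real.log (pP L j * pl L j ^ pn L j) / Real.log (pP L j)) := by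
    rw [← Real.log_rpow hx0]
    exact Real.log_le_log (by positivity) hdiv
  have hW := hM (pP L j) (pP L j * pl L j ^ pn L j) hP2 hPQ
  have h1 : c0 * (1 / 2 * Real.log (pL L j)) ≤
      c0 * Real.log (Real.log (pP L j * pl L j ^ pn L j) / Real.log (pP L j)) :=
    mul_le_mul_of_nonneg_left hlogdiv hc0.le
  have h2 : 4 * (K0 + 1) ≤ c0 * Real.log (pL L j) := by
    have h3 := hlogL.trans hlx
    rw [div_le_iff₀ hc0] at h3
    linarith
  rw [← log_pL]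
  constructor
  · nlinarith
  · nlinarith

end

end Pool.Agent.Lib.MP_0b748d_nt.MR
end

section

set_option autoImplicit false

/-!
# The moment bound
-/

namespace Pool.Agent.Lib.MP_0b748d_nt.MR

open Zsqrtd

noncomputable section

/-- the moment bound.

Proof. Replace `a` by its restriction to `Us 0 Y`. By `Q_pow_sum` the function of `k` is
`∑_{w ∈ Us 0 (Q^r Y)} (opn (Ip P Q) b)^[r] a w xi k w`; `mv` with `H = Q^r Y ≥ 1` and
`moment_coef` give `200 (K + Q^r Y) Y P^r (C r)^(2r+2)`; absorb `200`. -/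
theorem moment : ∃ C : ℝ, 1 ≤ C ∧ ∀ P Q : ℝ, 2 ≤ P → P ≤ Q → Q ≤ 3 * P →
    ∀ b : ℕ → Bool → ℂ, (∀ p s, ‖b p s‖ ≤ 1) → ∀ Y : ℝ, 1 ≤ Y → ∀ a : ℤ√2 → ℂ,
    (∀ w, ‖a w‖ ≤ 1) → ∀ r K : ℕ, 1 ≤ r →
    ∑ k ∈ Ik K, ‖(∑ p ∈ Ip P Q, ∑ s : Bool, b p s * xi k (el p s)) ^ r *
      ∑ w ∈ Us 0 Y, a w * xi k w‖ ^ 2 ≤
      (K + Y * Q ^ r) * (Y * P ^ r) * (C * r) ^ (2 * r + 2) := by
  classical
  obtain ⟨C, hC, h⟩ := moment_coef
  refine ⟨200 * C, by linarith, ?_⟩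
  intro P Q hP hPQ hQ3 b hb Y hY a ha r K hr
  set a' : ℤ√2 → ℂ := fun w => if w ∈ Us 0 Y then a w else 0 with ha'
  have h1 : ∀ w, w ∉ Us 0 Y → a' w = 0 := by
    intro w hw
    simp only [ha', if_neg hw]
  have h2 : ∀ w, ‖a' w‖ ≤ 1 := by
    intro w
    simp only [ha']
    split_ifs
    · exact ha w
    · simp
  have hQ1 : (1 : ℝ) ≤ Q := by linarith
  have hI : ∀ p ∈ Ip P Q, Sp p ∧ (p : ℝ) ≤ Q := by
    intro p hp
    simp only [Ip, Finset.mem_filter] at hp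
    exact ⟨⟨hp.2.1, Or.inl hp.2.2.1⟩, hp.2.2.2.2.le⟩
  have hH : (1 : ℝ) ≤ Q ^ r * Y := one_le_mul_of_one_le_of_one_le (one_le_pow₀ hQ1) hY
  have e1 : ∀ k ∈ Ik K, ‖(∑ p ∈ Ip P Q, ∑ s : Bool, b p s * xi k (el p s)) ^ r *
      ∑ w ∈ Us 0 Y, a w * xi k w‖ ^ 2 =
      ‖∑ w ∈ Us 0 (Q ^ r * Y), (opn (Ip P Q) b)^[r] a' w * xi k w‖ ^ 2 := by
    intro k _
    rw [← Q_pow_sum (Ip P Q) Y Q (by linarith) hQ1 hI b a' h1 k r]
    congr 3
    refine Finset.sum_congr rfl ?_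
    intro w hw
    simp only [ha', if_pos hw]
  rw [Finset.sum_congr rfl e1]
  refine (mv (Q ^ r * Y) hH _ K).trans ?_
  have h3 := h P Q hP hPQ hQ3 b hb Y hY a' h1 h2 r hr
  have hr1 : (1 : ℝ) ≤ r := by exact_mod_cast hr
  have h4 : (0 : ℝ) ≤ 200 * ((K : ℝ) + Q ^ r * Y) := by positivity
  refine (mul_le_mul_of_nonneg_left h3 h4).trans ?_
  have h5 : (200 : ℝ) * (C * r) ^ (2 * r + 2) ≤ (200 * C * r) ^ (2 * r + 2) := by
    rw [mul_assoc (200 : ℝ) C (r : ℝ), mul_pow (200 : ℝ)]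
    apply mul_le_mul_of_nonneg_right _ (by positivity)
    calc (200 : ℝ) = 200 ^ 1 := (pow_one _).symm
      _ ≤ 200 ^ (2 * r + 2) := pow_le_pow_right₀ (by norm_num) (by omega)
  have h6 : (0 : ℝ) ≤ ((K : ℝ) + Y * Q ^ r) * (Y * P ^ r) := by positivity
  calc 200 * ((K : ℝ) + Q ^ r * Y) * (Y * P ^ r * (C * r) ^ (2 * r + 2))
      = (((K : ℝ) + Y * Q ^ r) * (Y * P ^ r)) * (200 * (C * r) ^ (2 * r + 2)) := by ring
    _ ≤ (((K : ℝ) + Y * Q ^ r) * (Y * P ^ r)) * (200 * C * r) ^ (2 * r + 2) :=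
        mul_le_mul_of_nonneg_left h5 h6

end

end Pool.Agent.Lib.MP_0b748d_nt.MR
end

section

set_option autoImplicit false

/-!
# The contribution of one level
-/

namespace Pool.Agent.Lib.MP_0b748d_nt.MR

open Zsqrtd

noncomputable section

/-- number of frequencies with a large prime polynomial.

Proof. `#𝒰 * P^(2r(1-α)) ≤ ∑_{k ∈ Ik K} ‖Q(k)‖^(2r)`, and `moment` with `Y = 2`,
`a = 1_{w = 1}` (`Us_two`, `xi k 1 = 1`), `Q := P λ ≤ 2P` gives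
`≤ (K + 2 Q^r) (2 P^r) (C r)^(2r+2) ≤ (X + 2^(r+1) P^r) 2 P^r (C r)^(2r+2)
≤ 6 * 2^r P^(2r) (C r)^(2r+2)`, as `K ≤ X ≤ P^r`. So `#𝒰 ≤ P^(2rα) (C' r)^(2r+2)` and
`P^r = P * P^(r-1) < P X`, so `P^(2 r α) ≤ (P X)^(2α) ≤ P^2 X^(2α)`. -/
theorem level_U : ∃ C : ℝ, 1 ≤ C ∧ ∀ f : ℤ√2 → ℂ, MF f → ∀ (X P lam α : ℝ) (K r : ℕ),
    1 ≤ X → 2 ≤ P → 1 < lam → lam ≤ 2 → 0 < α → α ≤ 1 / 2 → (K : ℝ) ≤ X → 1 ≤ r →
    P ^ (r - 1) < X → X ≤ P ^ r → ∀ 𝒰 ⊆ Ik K,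
    (∀ k ∈ 𝒰, P ^ (1 - α) < ‖Qp f k P (P * lam)‖) →
    (𝒰.card : ℝ) ≤ X ^ (2 * α) * P ^ 2 * (C * r) ^ (2 * r + 2) := by
  classical
  obtain ⟨C0, hC0, hm⟩ := moment
  refine ⟨6 * C0, by linarith, ?_⟩
  intro f hf X P lam α K r hX hP hl1 hl2 hα hα2 hK hr hX1 hX2 𝒰 hU hbig
  have hP0 : (0 : ℝ) < P := by linarith
  have hP1 : (1 : ℝ) ≤ P := by linarith
  have hX0 : (0 : ℝ) < X := by linarith
  have hr1 : (1 : ℝ) ≤ r := by exact_mod_cast hr
  set b : ℕ → Bool → ℂ := fun p s => if OT (el p s) then f (el p s) else 0 with hbdef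
  have hb : ∀ p s, ‖b p s‖ ≤ 1 := by
    intro p s
    simp only [hbdef]
    split_ifs with h
    · exact hf.le _ h
    · simp
  have hQ : ∀ k : ℤ, (∑ p ∈ Ip P (P * lam), ∑ s : Bool, b p s * xi k (el p s)) =
      Qp f k P (P * lam) := by
    intro k
    refine Finset.sum_congr rfl ?_
    intro p hp
    simp only [Ip, Finset.mem_filter] at hp
    refine Finset.sum_congr rfl ?_
    intro s _
    have h1 : OT (el p s) := (el_spec ⟨hp.2.1, Or.inl hp.2.2.1⟩ s).1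
    simp only [hbdef, if_pos h1]
  have hS : ∀ k : ℤ, ‖∑ w ∈ Us 0 2, (1 : ℂ) * xi k w‖ = 1 := by
    intro k
    rw [Us_two, Finset.sum_singleton, one_mul]
    simp only [xi, norm_ee]
  have hm1 := hm P (P * lam) hP (by nlinarith) (by nlinarith) b hb 2 (by norm_num)
    (fun _ => 1) (fun _ => by simp) r K hr
  have e1 : ∀ k ∈ Ik K, ‖(∑ p ∈ Ip P (P * lam), ∑ s : Bool, b p s * xi k (el p s)) ^ r *
      ∑ w ∈ Us 0 2, (fun _ => (1 : ℂ)) w * xi k w‖ ^ 2 = ‖Qp f k P (P * lam)‖ ^ (2 * r) := by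
    intro k _
    rw [hQ k, _root_.norm_mul, norm_pow]
    have := hS k
    simp only at this ⊢
    rw [this, mul_one, ← pow_mul, mul_comm r 2]
  rw [Finset.sum_congr rfl e1] at hm1
  have h2 : (𝒰.card : ℝ) * (P ^ (1 - α)) ^ (2 * r) ≤
      ∑ k ∈ Ik K, ‖Qp f k P (P * lam)‖ ^ (2 * r) := by
    calc (𝒰.card : ℝ) * (P ^ (1 - α)) ^ (2 * r)
        = ∑ k ∈ 𝒰, (P ^ (1 - α)) ^ (2 * r) := by rw [Finset.sum_const, nsmul_eq_mul]
      _ ≤ ∑ k ∈ 𝒰, ‖Qp f k P (P * lam)‖ ^ (2 * r) := by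
          refine Finset.sum_le_sum ?_
          intro k hk
          exact pow_le_pow_left₀ (by positivity) (hbig k hk).le _
      _ ≤ _ := Finset.sum_le_sum_of_subset_of_nonneg hU (fun _ _ _ => by positivity)
  have h3 := h2.trans hm1
  -- bounds
  have h4 : ((K : ℝ) + 2 * (P * lam) ^ r) ≤ 3 * 2 ^ r * P ^ r := by
    have a1 : (P * lam) ^ r ≤ 2 ^ r * P ^ r := by
      rw [← mul_pow]
      exact pow_le_pow_left₀ (by positivity) (by nlinarith) _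
    have a2 : (K : ℝ) ≤ P ^ r := hK.trans hX2
    have a3 : (1 : ℝ) ≤ 2 ^ r := one_le_pow₀ (by norm_num)
    have a4 : (0 : ℝ) ≤ P ^ r := by positivity
    nlinarith
  have h5 : (𝒰.card : ℝ) * (P ^ (1 - α)) ^ (2 * r) ≤
      (6 * 2 ^ r * (C0 * r) ^ (2 * r + 2)) * (P ^ r) ^ 2 := by
    refine h3.trans ?_
    calc ((K : ℝ) + 2 * (P * lam) ^ r) * (2 * P ^ r) * (C0 * r) ^ (2 * r + 2)
        ≤ (3 * 2 ^ r * P ^ r) * (2 * P ^ r) * (C0 * r) ^ (2 * r + 2) := by gcongr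
      _ = _ := by ring
  have h6 : (P ^ (1 - α)) ^ (2 * r) * (P ^ r) ^ (2 * α) = (P ^ r) ^ 2 := by
    rw [← Real.rpow_natCast (P ^ (1 - α)), ← Real.rpow_natCast P r, ← Real.rpow_mul hP0.le,
      ← Real.rpow_mul hP0.le, ← Real.rpow_add hP0, ← Real.rpow_natCast (P ^ (r : ℝ)) 2,
      ← Real.rpow_mul hP0.le]
    congr 1
    push_cast
    ring
  have h7 : (0 : ℝ) < (P ^ (1 - α)) ^ (2 * r) := by positivity
  have h8 : (𝒰.card : ℝ) ≤ (6 * 2 ^ r * (C0 * r) ^ (2 * r + 2)) * (P ^ r) ^ (2 * α) := by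
    rw [← h6] at h5
    have : (𝒰.card : ℝ) * (P ^ (1 - α)) ^ (2 * r) ≤
        ((6 * 2 ^ r * (C0 * r) ^ (2 * r + 2)) * (P ^ r) ^ (2 * α)) *
          (P ^ (1 - α)) ^ (2 * r) := by
      refine h5.trans (le_of_eq ?_)
      ring
    exact le_of_mul_le_mul_right this h7
  have h9 : (P ^ r) ^ (2 * α) ≤ X ^ (2 * α) * P ^ 2 := by
    have c1 : P ^ r ≤ P * X := by
      have : P ^ r = P * P ^ (r - 1) := by
        rw [← pow_succ']
        congr 1
        omega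
      rw [this]
      exact mul_le_mul_of_nonneg_left hX1.le hP0.le
    calc (P ^ r) ^ (2 * α) ≤ (P * X) ^ (2 * α) :=
          Real.rpow_le_rpow (by positivity) c1 (by positivity)
      _ = P ^ (2 * α) * X ^ (2 * α) := Real.mul_rpow hP0.le hX0.le
      _ ≤ P ^ 2 * X ^ (2 * α) := by
          apply mul_le_mul_of_nonneg_right _ (by positivity)
          rw [← Real.rpow_natCast P 2]
          apply Real.rpow_le_rpow_of_exponent_le hP1
          push_cast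
          linarith
      _ = _ := mul_comm _ _
  have h10 : (6 : ℝ) * 2 ^ r * (C0 * r) ^ (2 * r + 2) ≤ (6 * C0 * r) ^ (2 * r + 2) := by
    rw [mul_assoc (6 : ℝ) C0 (r : ℝ), mul_pow (6 : ℝ)]
    apply mul_le_mul_of_nonneg_right _ (by positivity)
    calc (6 : ℝ) * 2 ^ r ≤ 6 * 6 ^ r := by
          apply mul_le_mul_of_nonneg_left _ (by norm_num)
          exact pow_le_pow_left₀ (by norm_num) (by norm_num) _
      _ = 6 ^ (r + 1) := by ring
      _ ≤ 6 ^ (2 * r + 2) := pow_le_pow_right₀ (by norm_num) (by omega)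
  calc (𝒰.card : ℝ) ≤ (6 * 2 ^ r * (C0 * r) ^ (2 * r + 2)) * (P ^ r) ^ (2 * α) := h8
    _ ≤ (6 * C0 * r) ^ (2 * r + 2) * (X ^ (2 * α) * P ^ 2) := by gcongr
    _ = _ := by ring

end

end Pool.Agent.Lib.MP_0b748d_nt.MR
end

section

set_option autoImplicit false

/-!
# The contribution of one level
-/

namespace Pool.Agent.Lib.MP_0b748d_nt.MR

open Zsqrtd

noncomputable section

/-- the mixed moment for one block `v` of the current level and one block of the previous level.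

Here `Pv = P λ^v` is the bottom of the block of the current level, `p' = P' λ'^(v')` that of the
previous one.

Proof. Let `r` be the least natural number with `Pv ≤ p'^r` (`r ≥ 1` because `Pv ≥ p' > 1`
... if `Pv ≤ 1`, excluded). Then `p'^(r-1) < Pv ≤ p'^r` and `r ≤ rmax`, as
`(r-1) log p' < log Pv ≤ (rmax-1) log p'`. For `k ∈ 𝒯` one has
`1 ≤ (‖Q'(k)‖ / p'^(1-α'))^(2r)`, so
`∑_{k ∈ 𝒯} ‖A_v(k)‖^2 ≤ p'^(-2r(1-α')) ∑_{k ∈ Ik K} ‖Q'(k)^r A_v(k)‖^2`. Apply `moment` with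
`P := p'`, `Q := p' λ' ≤ 2 p'`, `b p s = f (el p s)` (replace it by `0` if `p` is not split, to
have `‖b‖ ≤ 1` everywhere; `Qp` only uses `p ∈ Ip`), `Y = B` (`B = 2X/(Pv λ) ≥ 1`),
`a w = f w` if `w ∈ Us A B`, else `0` (`A = X/Pv`):
`∑_{k ∈ Ik K} ... ≤ (K + B Q^r) (B p'^r) (C r)^(2r+2)`.
Here `K ≤ X ≤ B Pv ≤ B p'^r` (as `λ ≤ 2`) and `Q^r ≤ 2^r p'^r`, so this is
`≤ 2 * 2^r B^2 p'^(2r) (C r)^(2r+2) ≤ B^2 p'^(2r) (2 C r)^(2r+2)`. Total
`∑_{k ∈ 𝒯} ‖A_v‖^2 ≤ B^2 p'^(2 r α') (2 C r)^(2r+2)` with `B ≤ 2X/Pv`.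
Now `p'^r < Pv p'`, so `p'^(2 r α') ≤ Pv^(2α') p'^(2α')`, and, writing `C1` for the constant of the
theorem (`C1 ≥ 2C`), `(2 C r)^(2r+2) ≤ ((C1 rmax)^4)^((r+1)/2) ≤ p'^((α-α')(r+1)/2)
≤ (Pv p'^2)^((α-α')/2) = Pv^((α-α')/2) p'^(α-α')`, using `p'^(r+1) = p'^(r-1) p'^2 < Pv p'^2`.
Multiplying by `‖Q_v‖^2 ≤ Pv^(2-2α)`:
`4 X^2 Pv^(-2) Pv^(2-2α) Pv^(2α' + (α-α')/2) p'^(2α'+α-α') ≤ 4 X^2 Pv^(-(α-α')) p'^2`
as `-2α + 2α' + (α-α')/2 ≤ -(α-α')` and `α + α' ≤ 1`. -/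
theorem level_mixed : ∃ C : ℝ, 1 ≤ C ∧ ∀ f : ℤ√2 → ℂ, MF f → ∀ (X Pv lam p' lam' α α' : ℝ)
    (K rmax : ℕ), 1 ≤ X → 2 ≤ p' → p' ≤ Pv → 1 < lam → lam ≤ 2 → 1 < lam' → lam' ≤ 2 →
    0 < α' → α' < α → α ≤ 1 / 2 → Pv * lam ≤ X → (K : ℝ) ≤ X →
    Real.log Pv ≤ (rmax - 1) * Real.log p' → (C * rmax) ^ 4 ≤ p' ^ (α - α') → ∀ 𝒯 ⊆ Ik K,
    (∀ k ∈ 𝒯, ‖Qp f k Pv (Pv * lam)‖ ≤ Pv ^ (1 - α)) →
    (∀ k ∈ 𝒯, p' ^ (1 - α') < ‖Qp f k p' (p' * lam')‖) →
    ∑ k ∈ 𝒯, ‖Qp f k Pv (Pv * lam)‖ ^ 2 * ‖Ap f k (X / Pv) (2 * X / (Pv * lam))‖ ^ 2 ≤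
      4 * X ^ 2 * Pv ^ (-(α - α')) * p' ^ 2 := by
  classical
  obtain ⟨C₀, hC₀, hM⟩ := moment
  refine ⟨2 * C₀, by linarith, ?_⟩
  intro f hf X Pv lam p' lam' α α' K rmax hX hp' hpP hlam hlam2 hlam' hlam2' hα' hαα hα hPX hKX
    hlog hC 𝒯 h𝒯 hQ hQ'
  have hp0 : 0 < p' := by linarith
  have hPv2 : 2 ≤ Pv := le_trans hp' hpP
  have hPv0 : 0 < Pv := by linarith
  have hX0 : 0 < X := by linarith
  have hex : ∃ r : ℕ, Pv ≤ p' ^ r := by
    obtain ⟨r, hr⟩ := pow_unbounded_of_one_lt Pv (show 1 < p' by linarith)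
    exact ⟨r, hr.le⟩
  obtain ⟨r, hr⟩ : ∃ r, r = Nat.find hex := ⟨_, rfl⟩
  have hr1 : Pv ≤ p' ^ r := by rw [hr]; exact Nat.find_spec hex
  have hr0 : 1 ≤ r := by
    rcases Nat.eq_zero_or_pos r with h | h
    · rw [h, pow_zero] at hr1
      linarith
    · exact h
  have hr2 : p' ^ (r - 1) < Pv := by
    by_contra hcon
    push Not at hcon
    have := Nat.find_min' hex hcon
    omega
  obtain ⟨m, hm⟩ : ∃ m, r = m + 1 := ⟨r - 1, by omega⟩
  clear hr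
  subst hm
  rw [Nat.add_sub_cancel] at hr2
  have hlogp : 0 < Real.log p' := Real.log_pos (by linarith)
  have hrm : (m : ℝ) + 1 ≤ rmax := by
    have h1 : Real.log (p' ^ m) < Real.log Pv := Real.log_lt_log (pow_pos hp0 m) hr2
    rw [Real.log_pow] at h1
    have h2 : (m : ℝ) * Real.log p' < ((rmax : ℝ) - 1) * Real.log p' := h1.trans_le hlog
    have h3 := lt_of_mul_lt_mul_right h2 hlogp.le
    linarith
  obtain ⟨c, hc⟩ : ∃ c : ℝ, c = α - α' := ⟨_, rfl⟩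
  have hc0 : 0 < c := by rw [hc]; linarith
  rw [← hc] at hC ⊢
  obtain ⟨B, hB⟩ : ∃ B : ℝ, B = 2 * X / (Pv * lam) := ⟨_, rfl⟩
  rw [← hB]
  obtain ⟨A, hA⟩ : ∃ A : ℝ, A = X / Pv := ⟨_, rfl⟩
  rw [← hA]
  have hPl0 : 0 < Pv * lam := by positivity
  have hA0 : 0 ≤ A := by rw [hA]; positivity
  have hB2 : 2 ≤ B := by
    rw [hB, le_div_iff₀ hPl0]
    linarith
  have hBP : X ≤ B * Pv := by
    rw [hB, div_mul_eq_mul_div, le_div_iff₀ hPl0]
    nlinarith only [hlam2, mul_pos hX0 hPv0]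
  have hBle : B ≤ 2 * X / Pv := by
    rw [hB]
    apply div_le_div_of_nonneg_left (by positivity) hPv0
    nlinarith only [hp', hpP, hlam]
  -- the moment bound
  have hOT : ∀ p ∈ Ip p' (p' * lam'), ∀ s, OT (el p s) := by
    intro p hp s
    have h1 : p.Prime ∧ p % 8 = 1 ∧ p' ≤ p ∧ (p : ℝ) < p' * lam' := (Finset.mem_filter.1 hp).2
    exact (el_spec ⟨h1.1, Or.inl h1.2.1⟩ s).1
  have hmom := hM p' (p' * lam') hp' (by nlinarith only [hp', hlam']) (by nlinarith only [hp', hlam2'])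
    (fun p s => if p ∈ Ip p' (p' * lam') then f (el p s) else 0)
    (by
      intro p s
      by_cases h : p ∈ Ip p' (p' * lam')
      · simp only [h, if_true]
        exact hf.le _ (hOT p h s)
      · simp only [h, if_false, _root_.norm_zero]
        exact zero_le_one)
    B (by linarith) (fun w => if w ∈ Us A B then f w else 0)
    (by
      intro w
      by_cases h : w ∈ Us A B
      · simp only [h, if_true]
        exact hf.le _ (mem_Us.1 h).1.1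
      · simp only [h, if_false, _root_.norm_zero]
        exact zero_le_one)
    (m + 1) K (by omega)
  have hQeq : ∀ k : ℤ, (∑ p ∈ Ip p' (p' * lam'), ∑ s : Bool,
      (if p ∈ Ip p' (p' * lam') then f (el p s) else 0) * xi k (el p s)) =
      Qp f k p' (p' * lam') := by
    intro k
    unfold Qp
    refine Finset.sum_congr rfl fun p hp => ?_
    refine Finset.sum_congr rfl fun s _ => ?_
    rw [if_pos hp]
  have hAeq : ∀ k : ℤ, (∑ w ∈ Us 0 B, (if w ∈ Us A B then f w else 0) * xi k w) =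
      Ap f k A B := by
    intro k
    unfold Ap
    rw [← Finset.sum_subset (Us_mono hA0 le_rfl : Us A B ⊆ Us 0 B)]
    · refine Finset.sum_congr rfl fun w hw => ?_
      rw [if_pos hw]
    · intro w _ hw
      rw [if_neg hw, zero_mul]
  simp only [hQeq, hAeq] at hmom
  -- lower bound by the large values
  obtain ⟨G, hG⟩ : ∃ G : ℝ, G = (p' ^ (1 - α')) ^ (m + 1) := ⟨_, rfl⟩
  have hg0 : 0 < p' ^ (1 - α') := Real.rpow_pos_of_pos hp0 _
  have hG0 : 0 < G := by rw [hG]; exact pow_pos hg0 _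
  have hlow : G ^ 2 * ∑ k ∈ 𝒯, ‖Ap f k A B‖ ^ 2 ≤
      ∑ k ∈ Ik K, ‖Qp f k p' (p' * lam') ^ (m + 1) * Ap f k A B‖ ^ 2 := by
    rw [Finset.mul_sum]
    calc ∑ k ∈ 𝒯, G ^ 2 * ‖Ap f k A B‖ ^ 2 ≤
        ∑ k ∈ 𝒯, ‖Qp f k p' (p' * lam') ^ (m + 1) * Ap f k A B‖ ^ 2 := by
          refine Finset.sum_le_sum fun k hk => ?_
          rw [_root_.norm_mul, norm_pow, mul_pow]
          apply mul_le_mul_of_nonneg_right _ (by positivity)
          apply pow_le_pow_left₀ hG0.le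
          rw [hG]
          exact pow_le_pow_left₀ hg0.le (hQ' k hk).le _
      _ ≤ _ := Finset.sum_le_sum_of_subset_of_nonneg h𝒯 fun k _ _ => by positivity
  -- upper bound
  obtain ⟨Z, hZ⟩ : ∃ Z : ℝ, Z = (2 * C₀ * ((m : ℝ) + 1)) ^ (2 * (m + 1) + 2) := ⟨_, rfl⟩
  have hZ0 : 0 ≤ Z := by rw [hZ]; positivity
  have hpm0 : 0 < p' ^ (m + 1) := pow_pos hp0 _
  have hup : (K + B * (p' * lam') ^ (m + 1)) * (B * p' ^ (m + 1)) *
      (C₀ * ((m + 1 : ℕ) : ℝ)) ^ (2 * (m + 1) + 2) ≤ B ^ 2 * (p' ^ (m + 1)) ^ 2 * Z := by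
    have h1 : (K : ℝ) ≤ B * p' ^ (m + 1) := by
      refine hKX.trans (hBP.trans ?_)
      exact mul_le_mul_of_nonneg_left hr1 (by linarith only [hB2])
    have h2 : (p' * lam') ^ (m + 1) ≤ 2 ^ (m + 1) * p' ^ (m + 1) := by
      rw [mul_pow, mul_comm]
      apply mul_le_mul_of_nonneg_right _ hpm0.le
      exact pow_le_pow_left₀ (by linarith) hlam2' _
    have h3 : (1 : ℝ) ≤ 2 ^ (m + 1) := one_le_pow₀ (by norm_num)
    have h4 : (K + B * (p' * lam') ^ (m + 1)) ≤ 2 ^ (m + 2) * (B * p' ^ (m + 1)) := by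
      have h5 : B * (p' * lam') ^ (m + 1) ≤ B * (2 ^ (m + 1) * p' ^ (m + 1)) :=
        mul_le_mul_of_nonneg_left h2 (by linarith)
      have h6 : 0 ≤ B * p' ^ (m + 1) := by positivity
      have h7 : (2 : ℝ) ^ (m + 2) = 2 * 2 ^ (m + 1) := by ring
      rw [h7]
      nlinarith only [h1, h3, h5]
    have h8 : Z = 2 ^ (2 * (m + 1) + 2) * (C₀ * ((m + 1 : ℕ) : ℝ)) ^ (2 * (m + 1) + 2) := by
      rw [hZ, ← mul_pow]
      congr 1
      push_cast
      ring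
    have h9 : (2 : ℝ) ^ (m + 2) ≤ 2 ^ (2 * (m + 1) + 2) :=
      pow_le_pow_right₀ (by norm_num) (by omega)
    have h10 : 0 ≤ (C₀ * ((m + 1 : ℕ) : ℝ)) ^ (2 * (m + 1) + 2) := by positivity
    have h11 : 0 ≤ B * p' ^ (m + 1) := by positivity
    calc (K + B * (p' * lam') ^ (m + 1)) * (B * p' ^ (m + 1)) *
          (C₀ * ((m + 1 : ℕ) : ℝ)) ^ (2 * (m + 1) + 2)
        ≤ (2 ^ (m + 2) * (B * p' ^ (m + 1))) * (B * p' ^ (m + 1)) *
          (C₀ * ((m + 1 : ℕ) : ℝ)) ^ (2 * (m + 1) + 2) := by gcongr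
      _ ≤ (2 ^ (2 * (m + 1) + 2) * (B * p' ^ (m + 1))) * (B * p' ^ (m + 1)) *
          (C₀ * ((m + 1 : ℕ) : ℝ)) ^ (2 * (m + 1) + 2) := by gcongr
      _ = B ^ 2 * (p' ^ (m + 1)) ^ 2 * Z := by rw [h8]; ring
  have hGp : p' ^ (m + 1) = G * (p' ^ (m + 1)) ^ α' := by
    rw [hG, ← Real.rpow_natCast (p' ^ (1 - α')), ← Real.rpow_mul hp0.le,
      ← Real.rpow_natCast p', ← Real.rpow_mul hp0.le, ← Real.rpow_add hp0]
    congr 1
    ring
  obtain ⟨W, hW⟩ : ∃ W : ℝ, W = (p' ^ (m + 1)) ^ α' := ⟨_, rfl⟩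
  rw [← hW] at hGp
  have hW0 : 0 ≤ W := by rw [hW]; positivity
  obtain ⟨S, hS⟩ : ∃ S : ℝ, S = ∑ k ∈ 𝒯, ‖Ap f k A B‖ ^ 2 := ⟨_, rfl⟩
  have hS0 : 0 ≤ S := by rw [hS]; positivity
  have hSle : S ≤ B ^ 2 * W ^ 2 * Z := by
    have h1 : G ^ 2 * S ≤ G ^ 2 * (B ^ 2 * W ^ 2 * Z) := by
      rw [hS]
      refine (hlow.trans (hmom.trans hup)).trans (le_of_eq ?_)
      rw [hGp]
      ring
    exact le_of_mul_le_mul_left h1 (by positivity)
  have hWle : W ≤ Pv ^ α' * p' ^ α' := by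
    rw [hW, ← Real.mul_rpow hPv0.le hp0.le]
    apply Real.rpow_le_rpow hpm0.le _ hα'.le
    rw [pow_succ]
    exact mul_le_mul_of_nonneg_right hr2.le hp0.le
  have hZle : Z ≤ Pv ^ (c / 2) * p' ^ c := by
    have h0 : (0 : ℝ) ≤ 2 * C₀ * rmax := by positivity
    have h1 : (2 * C₀ * rmax) ^ 2 ≤ p' ^ (c / 2) := by
      by_contra hcon
      push Not at hcon
      have h2 := pow_lt_pow_left₀ hcon (Real.rpow_nonneg hp0.le _) (n := 2) (by norm_num)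
      rw [← Real.rpow_natCast (p' ^ (c / 2)), ← Real.rpow_mul hp0.le] at h2
      have h3 : c / 2 * ((2 : ℕ) : ℝ) = c := by push_cast; ring
      rw [h3, ← pow_mul] at h2
      norm_num at h2
      linarith only [hC, h2]
    have h4 : Z ≤ (2 * C₀ * rmax) ^ (2 * (m + 1) + 2) := by
      rw [hZ]
      apply pow_le_pow_left₀ (by positivity)
      exact mul_le_mul_of_nonneg_left hrm (by linarith)
    have h5 : (2 * C₀ * rmax) ^ (2 * (m + 1) + 2) = ((2 * C₀ * rmax) ^ 2) ^ (m + 2) := by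
      rw [← pow_mul]
      congr 1
    have h6 : ((2 * C₀ * rmax) ^ 2) ^ (m + 2) ≤ (p' ^ (c / 2)) ^ (m + 2) :=
      pow_le_pow_left₀ (by positivity) h1 _
    have h7 : (p' ^ (c / 2)) ^ (m + 2) = (p' ^ (m + 2)) ^ (c / 2) := by
      rw [← Real.rpow_natCast (p' ^ (c / 2)), ← Real.rpow_mul hp0.le,
        ← Real.rpow_natCast p', ← Real.rpow_mul hp0.le]
      congr 1
      ring
    have h8 : (p' ^ (m + 2)) ^ (c / 2) ≤ (Pv * p' ^ 2) ^ (c / 2) := by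
      apply Real.rpow_le_rpow (by positivity) _ (by linarith only [hc0])
      rw [pow_add]
      exact mul_le_mul_of_nonneg_right hr2.le (by positivity)
    have h9 : (Pv * p' ^ 2) ^ (c / 2) = Pv ^ (c / 2) * p' ^ c := by
      rw [Real.mul_rpow hPv0.le (by positivity), ← Real.rpow_natCast p', ← Real.rpow_mul hp0.le]
      congr 2
      push_cast
      ring
    rw [← h9]
    refine le_trans ?_ h8
    rw [← h7]
    refine le_trans ?_ h6
    rw [← h5]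
    exact h4
  have hPa : 0 < Pv ^ (1 - α) := Real.rpow_pos_of_pos hPv0 _
  have hfin1 : ∑ k ∈ 𝒯, ‖Qp f k Pv (Pv * lam)‖ ^ 2 * ‖Ap f k A B‖ ^ 2 ≤
      (Pv ^ (1 - α)) ^ 2 * S := by
    rw [hS, Finset.mul_sum]
    refine Finset.sum_le_sum fun k hk => ?_
    apply mul_le_mul_of_nonneg_right _ (by positivity)
    exact pow_le_pow_left₀ (norm_nonneg _) (hQ k hk) 2
  have hfin2 : (Pv ^ (1 - α)) ^ 2 * S ≤ (Pv ^ (1 - α)) ^ 2 * ((2 * X / Pv) ^ 2 *
      (Pv ^ α' * p' ^ α') ^ 2 * (Pv ^ (c / 2) * p' ^ c)) := by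
    apply mul_le_mul_of_nonneg_left _ (by positivity)
    refine hSle.trans ?_
    gcongr
  refine hfin1.trans (hfin2.trans ?_)
  have e0 : Pv ^ (1 - α) = Pv * Pv ^ (-α) := by
    rw [show (1 - α) = 1 + -α by ring, Real.rpow_add hPv0, Real.rpow_one]
  have e1 : (Pv ^ (-α)) ^ 2 * (Pv ^ α') ^ 2 * Pv ^ (c / 2) = Pv ^ (-(3 / 2 * c)) := by
    rw [← Real.rpow_natCast, ← Real.rpow_natCast, ← Real.rpow_mul hPv0.le,
      ← Real.rpow_mul hPv0.le, ← Real.rpow_add hPv0, ← Real.rpow_add hPv0]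
    congr 1
    rw [hc]
    push_cast
    ring
  have e2 : (p' ^ α') ^ 2 * p' ^ c = p' ^ (α + α') := by
    rw [← Real.rpow_natCast, ← Real.rpow_mul hp0.le, ← Real.rpow_add hp0]
    congr 1
    rw [hc]
    push_cast
    ring
  have e3 : Pv ^ (-(3 / 2 * c)) ≤ Pv ^ (-c) :=
    Real.rpow_le_rpow_of_exponent_le (by linarith only [hPv2]) (by linarith only [hc0])
  have e4 : p' ^ (α + α') ≤ p' ^ 2 := by
    rw [← Real.rpow_two]
    exact Real.rpow_le_rpow_of_exponent_le (by linarith only [hp']) (by linarith only [hαα, hα])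
  have e5 : (Pv ^ (1 - α)) ^ 2 * ((2 * X / Pv) ^ 2 *
      (Pv ^ α' * p' ^ α') ^ 2 * (Pv ^ (c / 2) * p' ^ c)) =
      4 * X ^ 2 * (((Pv ^ (-α)) ^ 2 * (Pv ^ α') ^ 2 * Pv ^ (c / 2)) *
        ((p' ^ α') ^ 2 * p' ^ c)) := by
    rw [e0]
    field_simp
    ring
  rw [e5, e1, e2, mul_assoc (4 * X ^ 2)]
  apply mul_le_mul_of_nonneg_left _ (by positivity)
  exact mul_le_mul e3 e4 (Real.rpow_nonneg hp0.le _) (Real.rpow_nonneg hPv0.le _)

end

end Pool.Agent.Lib.MP_0b748d_nt.MR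
end

section

set_option autoImplicit false

/-!
# Combination of the levels
-/

namespace Pool.Agent.Lib.MP_0b748d_nt.MR

open Zsqrtd

noncomputable section

open Classical in
/-- the frequencies at which some prime polynomial of the level is large -/
def LU (f : ℤ√2 → ℂ) (P lam α : ℝ) (n K : ℕ) : Finset ℤ :=
  (Ik K).filter (fun k => ∃ v < n, (P * lam ^ v) ^ (1 - α) <
    ‖Qp f k (P * lam ^ v) (P * lam ^ (v + 1))‖)

/-- number of frequencies in `LU`.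

Proof. For `v < n` put `p = P λ^v ≤ P λ^n ≤ X` and let `r` be the least natural number with
`X ≤ p^r` (if `X ≤ 1`, i.e. `X = 1`, then `P λ^n ≤ X` is impossible as `P ≥ 2`; so `X > 1` and
`r ≥ 1`, `p^(r-1) < X`). Then `(r-1) log p < log X ≤ (rmax-1) log P ≤ (rmax-1) log p`, so
`r ≤ rmax`. By `level_U` the set of `k ∈ Ik K` with `p^(1-α) < ‖Q_v(k)‖` has at most
`X^(2α) p^2 (C r)^(2r+2) ≤ X^(2α) (P λ^n)^2 (C rmax)^(2 rmax+2)` elements (`C r ≥ 1`). Union over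
`v < n`. -/
theorem LU_card : ∃ C : ℝ, 1 ≤ C ∧ ∀ f : ℤ√2 → ℂ, MF f → ∀ (X P lam α : ℝ) (n K rmax : ℕ),
    1 ≤ X → 2 ≤ P → 1 < lam → lam ≤ 2 → 0 < α → α ≤ 1 / 2 → (K : ℝ) ≤ X → P * lam ^ n ≤ X →
    Real.log X ≤ (rmax - 1) * Real.log P →
    ((LU f P lam α n K).card : ℝ) ≤
      n * X ^ (2 * α) * (P * lam ^ n) ^ 2 * (C * rmax) ^ (2 * rmax + 2) := by
  classical
  obtain ⟨C, hC, hU⟩ := level_U
  refine ⟨C, hC, ?_⟩
  intro f hf X P lam α n K rmax hX hP hlam hlam2 hα hα2 hKX hPX hlog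
  have hlogP : 0 < Real.log P := Real.log_pos (by linarith)
  set U : ℕ → Finset ℤ := fun v => (Ik K).filter (fun k => (P * lam ^ v) ^ (1 - α) <
    ‖Qp f k (P * lam ^ v) ((P * lam ^ v) * lam)‖) with hUdef
  have hcov : LU f P lam α n K ⊆ (Finset.range n).biUnion U := by
    intro k hk
    unfold LU at hk
    rw [Finset.mem_filter] at hk
    obtain ⟨hk1, v, hv, hk2⟩ := hk
    rw [Finset.mem_biUnion]
    refine ⟨v, Finset.mem_range.2 hv, ?_⟩
    simp only [hUdef]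
    rw [Finset.mem_filter]
    refine ⟨hk1, ?_⟩
    have e : P * lam ^ (v + 1) = P * lam ^ v * lam := by rw [pow_succ]; ring
    rw [← e]
    exact hk2
  have hone : ∀ v ∈ Finset.range n, ((U v).card : ℝ) ≤
      X ^ (2 * α) * (P * lam ^ n) ^ 2 * (C * rmax) ^ (2 * rmax + 2) := by
    intro v hv
    rw [Finset.mem_range] at hv
    have hlam1 : (1 : ℝ) ≤ lam := hlam.le
    have hpv : 1 ≤ lam ^ v := one_le_pow₀ hlam1
    have hpn : lam ^ v ≤ lam ^ n := pow_le_pow_right₀ hlam1 hv.le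
    set p := P * lam ^ v with hp
    have hp2 : 2 ≤ p := by rw [hp]; nlinarith
    have hPp : P ≤ p := by rw [hp]; nlinarith
    have hpn' : p ≤ P * lam ^ n := by
      rw [hp]
      exact mul_le_mul_of_nonneg_left hpn (by linarith)
    have hpX : p ≤ X := hpn'.trans hPX
    have hX1 : 1 < X := by linarith
    have hex : ∃ r : ℕ, X ≤ p ^ r := by
      obtain ⟨r, hr⟩ := pow_unbounded_of_one_lt X (by linarith : (1 : ℝ) < p)
      exact ⟨r, hr.le⟩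
    set r := Nat.find hex with hr
    have hr1 : X ≤ p ^ r := Nat.find_spec hex
    have hr0 : 1 ≤ r := by
      by_contra h
      have h0 : r = 0 := by omega
      rw [h0, pow_zero] at hr1
      linarith
    have hr2 : p ^ (r - 1) < X := by
      by_contra h
      push Not at h
      have := Nat.find_min' hex h
      omega
    have hlogX : 0 < Real.log X := Real.log_pos hX1
    have hrm : (0 : ℝ) < (rmax : ℝ) - 1 := by
      by_contra h
      push Not at h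
      nlinarith
    have hlogPp : Real.log P ≤ Real.log p := Real.log_le_log (by linarith) hPp
    have hlogp : 0 < Real.log p := by linarith
    have h1 : ((r - 1 : ℕ) : ℝ) * Real.log p < Real.log X := by
      rw [← Real.log_pow]
      exact Real.log_lt_log (by positivity) hr2
    have h2 : ((r - 1 : ℕ) : ℝ) * Real.log p < ((rmax : ℝ) - 1) * Real.log p :=
      lt_of_lt_of_le h1 (hlog.trans (mul_le_mul_of_nonneg_left hlogPp hrm.le))
    have h3 : ((r - 1 : ℕ) : ℝ) < (rmax : ℝ) - 1 := lt_of_mul_lt_mul_right h2 hlogp.le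
    have h4 : r ≤ rmax := by
      rw [Nat.cast_sub hr0, Nat.cast_one] at h3
      have h5 : (r : ℝ) < rmax := by linarith
      exact (Nat.cast_lt.1 h5).le
    have h5 := hU f hf X p lam α K r hX hp2 hlam hlam2 hα hα2 hKX hr0 hr2 hr1 (U v)
      (Finset.filter_subset _ _) (fun k hk => (Finset.mem_filter.1 hk).2)
    have hr1' : (1 : ℝ) ≤ r := by exact_mod_cast hr0
    have h6 : 1 ≤ C * r := one_le_mul_of_one_le_of_one_le hC hr1'
    have h7 : C * r ≤ C * rmax := by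
      apply mul_le_mul_of_nonneg_left _ (by linarith)
      exact_mod_cast h4
    have h8 : (C * r) ^ (2 * r + 2) ≤ (C * rmax) ^ (2 * rmax + 2) :=
      (pow_le_pow_left₀ (by linarith) h7 _).trans
        (pow_le_pow_right₀ (h6.trans h7) (by omega))
    have h9 : p ^ 2 ≤ (P * lam ^ n) ^ 2 := pow_le_pow_left₀ (by linarith) hpn' 2
    have hX0 : 0 ≤ X ^ (2 * α) := Real.rpow_nonneg (by linarith) _
    calc ((U v).card : ℝ) ≤ X ^ (2 * α) * p ^ 2 * (C * r) ^ (2 * r + 2) := h5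
      _ ≤ X ^ (2 * α) * (P * lam ^ n) ^ 2 * (C * rmax) ^ (2 * rmax + 2) := by
          apply mul_le_mul _ h8 (pow_nonneg (by linarith) _) (by positivity)
          exact mul_le_mul_of_nonneg_left h9 hX0
  have hc := (Finset.card_le_card hcov).trans Finset.card_biUnion_le
  calc ((LU f P lam α n K).card : ℝ) ≤ ((∑ v ∈ Finset.range n, (U v).card : ℕ) : ℝ) := by
        exact_mod_cast hc
    _ = ∑ v ∈ Finset.range n, ((U v).card : ℝ) := by push_cast; rfl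
    _ ≤ ∑ _v ∈ Finset.range n,
        X ^ (2 * α) * (P * lam ^ n) ^ 2 * (C * rmax) ^ (2 * rmax + 2) := Finset.sum_le_sum hone
    _ = n * X ^ (2 * α) * (P * lam ^ n) ^ 2 * (C * rmax) ^ (2 * rmax + 2) := by
        rw [Finset.sum_const, Finset.card_range, nsmul_eq_mul]
        ring

end

end Pool.Agent.Lib.MP_0b748d_nt.MR
end

section

set_option autoImplicit false

/-!
# The contribution of one level
-/

namespace Pool.Agent.Lib.MP_0b748d_nt.MR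

open Zsqrtd

noncomputable section

/-- Cauchy-Schwarz after the decomposition.

Proof. `‖A‖^2 ≤ 2 ‖A - (1/W) ∑_v Q_v A_v‖^2 + 2 (1/W^2) ‖∑_{v<n} Q_v A_v‖^2`, the first part is
bounded by `decomp` (sum over `Ik K ⊇ 𝒯`), the second by Cauchy-Schwarz
`‖∑_{v<n} z_v‖^2 ≤ n ∑ ‖z_v‖^2`, and `W ≥ 1`. -/
theorem level_cs : ∃ C : ℝ, 1 ≤ C ∧ ∀ f : ℤ√2 → ℂ, MF f → ∀ (X P lam : ℝ) (n K : ℕ), 1 ≤ X →
    2 ≤ P → 1 < lam → lam ≤ 2 → (P * lam ^ n) ^ 8 ≤ X → (K : ℝ) ≤ X →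
    1 ≤ Wp P (P * lam ^ n) → ∀ 𝒯 ⊆ Ik K,
    ∑ k ∈ 𝒯, ‖Ap f k X (2 * X)‖ ^ 2 ≤
      C * X ^ 2 * (1 / Wp P (P * lam ^ n) + (lam - 1) + 1 / Real.log P) +
      2 * n * ∑ v ∈ Finset.range n, ∑ k ∈ 𝒯, ‖Qp f k (P * lam ^ v) (P * lam ^ (v + 1))‖ ^ 2 *
        ‖Ap f k (X / (P * lam ^ v)) (2 * X / (P * lam ^ (v + 1)))‖ ^ 2 := by
  obtain ⟨C0, hC0, H⟩ := decomp
  refine ⟨2 * C0, by linarith, ?_⟩
  intro f hf X P lam n K hX hP hl1 hl2 hsz hK hW 𝒯 h𝒯
  have hD := H f hf X P lam n K hX hP hl1 hl2 hsz hK hW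
  set W : ℝ := Wp P (P * lam ^ n) with hWd
  set A : ℤ → ℂ := fun k => Ap f k X (2 * X) with hA
  set q : ℤ → ℕ → ℂ := fun k v => Qp f k (P * lam ^ v) (P * lam ^ (v + 1)) with hq
  set B : ℤ → ℕ → ℂ := fun k v => Ap f k (X / (P * lam ^ v)) (2 * X / (P * lam ^ (v + 1))) with hB
  have hpt : ∀ k, ‖A k‖ ^ 2 ≤ 2 * ‖A k - (1 / (W : ℂ)) * ∑ v ∈ Finset.range n, q k v * B k v‖ ^ 2 +
      2 * n * ∑ v ∈ Finset.range n, ‖q k v‖ ^ 2 * ‖B k v‖ ^ 2 := by
    intro k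
    set S : ℂ := ∑ v ∈ Finset.range n, q k v * B k v with hS
    have h1 : ‖A k‖ ≤ ‖A k - (1 / (W : ℂ)) * S‖ + ‖S‖ := by
      have e : A k = (A k - (1 / (W : ℂ)) * S) + (1 / (W : ℂ)) * S := by ring
      have h2 : ‖(1 / (W : ℂ)) * S‖ ≤ ‖S‖ := by
        rw [_root_.norm_mul]
        have : ‖(1 / (W : ℂ))‖ ≤ 1 := by
          rw [_root_.norm_div, _root_.NormOneClass.norm_one, Complex.norm_real, Real.norm_eq_abs, abs_of_pos (by linarith)]
          rw [div_le_one (by linarith)]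
          exact hW
        calc ‖(1 / (W : ℂ))‖ * ‖S‖ ≤ 1 * ‖S‖ := mul_le_mul_of_nonneg_right this (norm_nonneg _)
          _ = ‖S‖ := one_mul _
      calc ‖A k‖ = ‖(A k - (1 / (W : ℂ)) * S) + (1 / (W : ℂ)) * S‖ := by rw [← e]
        _ ≤ ‖A k - (1 / (W : ℂ)) * S‖ + ‖(1 / (W : ℂ)) * S‖ := norm_add_le _ _
        _ ≤ _ := by linarith
    have h3 : ‖S‖ ^ 2 ≤ n * ∑ v ∈ Finset.range n, ‖q k v‖ ^ 2 * ‖B k v‖ ^ 2 := by
      have h4 : ‖S‖ ≤ ∑ v ∈ Finset.range n, ‖q k v * B k v‖ := norm_sum_le _ _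
      have h5 : (∑ v ∈ Finset.range n, ‖q k v * B k v‖) ^ 2 ≤
          (Finset.range n).card * ∑ v ∈ Finset.range n, ‖q k v * B k v‖ ^ 2 :=
        sq_sum_le_card_mul_sum_sq
      rw [Finset.card_range] at h5
      calc ‖S‖ ^ 2 ≤ (∑ v ∈ Finset.range n, ‖q k v * B k v‖) ^ 2 :=
            pow_le_pow_left₀ (norm_nonneg _) h4 2
        _ ≤ _ := h5
        _ = _ := by
            congr 1
            refine Finset.sum_congr rfl (fun v _ => ?_)
            rw [_root_.norm_mul, mul_pow]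
    have h6 : ‖A k‖ ^ 2 ≤ (‖A k - (1 / (W : ℂ)) * S‖ + ‖S‖) ^ 2 :=
      pow_le_pow_left₀ (norm_nonneg _) h1 2
    nlinarith [sq_nonneg (‖A k - (1 / (W : ℂ)) * S‖ - ‖S‖)]
  calc ∑ k ∈ 𝒯, ‖A k‖ ^ 2
      ≤ ∑ k ∈ 𝒯, (2 * ‖A k - (1 / (W : ℂ)) * ∑ v ∈ Finset.range n, q k v * B k v‖ ^ 2 +
        2 * n * ∑ v ∈ Finset.range n, ‖q k v‖ ^ 2 * ‖B k v‖ ^ 2) :=
        Finset.sum_le_sum (fun k _ => hpt k)
    _ = 2 * ∑ k ∈ 𝒯, ‖A k - (1 / (W : ℂ)) * ∑ v ∈ Finset.range n, q k v * B k v‖ ^ 2 +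
        2 * n * ∑ v ∈ Finset.range n, ∑ k ∈ 𝒯, ‖q k v‖ ^ 2 * ‖B k v‖ ^ 2 := by
        rw [Finset.sum_add_distrib, ← Finset.mul_sum, ← Finset.mul_sum, Finset.sum_comm]
    _ ≤ _ := by
        have h7 : ∑ k ∈ 𝒯, ‖A k - (1 / (W : ℂ)) * ∑ v ∈ Finset.range n, q k v * B k v‖ ^ 2 ≤
            ∑ k ∈ Ik K, ‖A k - (1 / (W : ℂ)) * ∑ v ∈ Finset.range n, q k v * B k v‖ ^ 2 :=
          Finset.sum_le_sum_of_subset_of_nonneg h𝒯 (fun _ _ _ => by positivity)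
        have h8 := h7.trans hD
        linarith

/-- the first level.

Proof. By `level_cs` and `‖Q_v(k)‖^2 ≤ P_v^(2-2α)` (`P_v = P λ^v`) it remains to bound
`2 n ∑_{v<n} P_v^(2-2α) ∑_{k ∈ Ik K} ‖A_v(k)‖^2`. By `mv_Ap` (`a = X/P_v`, `b = 2X/P_(v+1) ≥ 1`)
the inner sum is at most `C (K + 2X/P_v) (2X/P_v) = C P_v^(-2) (K P_v + 2X) 2X
≤ C P_v^(-2) (R + 2) 2 X^2`, because `K P_v ≤ K P λ^n ≤ R X`. Then `P_v^(-2α) ≤ P^(-2α)`. -/
theorem level_one : ∃ C : ℝ, 1 ≤ C ∧ ∀ f : ℤ√2 → ℂ, MF f → ∀ (X P lam α R : ℝ) (n K : ℕ),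
    1 ≤ X → 2 ≤ P → 1 < lam → lam ≤ 2 → 0 < α → α ≤ 1 / 2 → 1 ≤ R → (P * lam ^ n) ^ 8 ≤ X →
    (K : ℝ) ≤ X → 1 ≤ Wp P (P * lam ^ n) → (K : ℝ) * (P * lam ^ n) ≤ R * X → ∀ 𝒯 ⊆ Ik K,
    (∀ k ∈ 𝒯, ∀ v < n, ‖Qp f k (P * lam ^ v) (P * lam ^ (v + 1))‖ ≤ (P * lam ^ v) ^ (1 - α)) →
    ∑ k ∈ 𝒯, ‖Ap f k X (2 * X)‖ ^ 2 ≤
      C * X ^ 2 * (1 / Wp P (P * lam ^ n) + (lam - 1) + 1 / Real.log P +
        R * n ^ 2 * P ^ (-(2 * α))) := by
  obtain ⟨C1, hC1, H1⟩ := level_cs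
  obtain ⟨C2, hC2, H2⟩ := mv_Ap
  refine ⟨C1 + 12 * C2, by linarith, ?_⟩
  intro f hf X P lam α R n K hX hP hl1 hl2 hα0 hα1 hR hsz hK hW hKR 𝒯 h𝒯 hsmall
  have hcs := H1 f hf X P lam n K hX hP hl1 hl2 hsz hK hW 𝒯 h𝒯
  have hPl : ∀ v, 2 ≤ P * lam ^ v := by
    intro v
    have : 1 ≤ lam ^ v := one_le_pow₀ hl1.le
    nlinarith
  have hPn : P * lam ^ n ≤ X := by
    have h1 : (1 : ℝ) ≤ P * lam ^ n := by linarith [hPl n]
    exact (le_self_pow₀ h1 (by norm_num)).trans hsz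
  have hX0 : 0 < X := by linarith
  have hR0 : 0 < R := by linarith
  have hP0 : 0 < P := by linarith
  have hC20 : 0 < C2 := by linarith
  have hterm : ∀ v ∈ Finset.range n, ∑ k ∈ 𝒯, ‖Qp f k (P * lam ^ v) (P * lam ^ (v + 1))‖ ^ 2 *
        ‖Ap f k (X / (P * lam ^ v)) (2 * X / (P * lam ^ (v + 1)))‖ ^ 2 ≤
        6 * C2 * R * X ^ 2 * P ^ (-(2 * α)) := by
    intro v hv
    rw [Finset.mem_range] at hv
    set p : ℝ := P * lam ^ v with hp
    set p' : ℝ := P * lam ^ (v + 1) with hp'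
    have hp2 : 2 ≤ p := hPl v
    have hp0 : 0 < p := by linarith
    have hp'2 : 2 ≤ p' := hPl (v + 1)
    have hp'0 : 0 < p' := by linarith
    have hpp' : p ≤ p' := by
      rw [hp, hp']
      exact mul_le_mul_of_nonneg_left (pow_le_pow_right₀ hl1.le (Nat.le_succ v)) hP0.le
    have hp'n : p' ≤ P * lam ^ n :=
      mul_le_mul_of_nonneg_left (pow_le_pow_right₀ hl1.le hv) hP0.le
    have hPp : P ≤ p := by
      have : 1 ≤ lam ^ v := one_le_pow₀ hl1.le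
      rw [hp]; nlinarith
    have hp'X : p' ≤ X := hp'n.trans hPn
    set b : ℝ := 2 * X / p' with hb
    have hb1 : 1 ≤ b := by
      rw [hb, le_div_iff₀ hp'0]; linarith
    have hA := H2 f hf (X / p) b (by positivity) hb1 K
    have hbp : b ≤ 2 * X / p := by
      rw [hb]; exact div_le_div_of_nonneg_left (by linarith) hp0 hpp'
    have hKp : (K : ℝ) * p ≤ R * X :=
      (mul_le_mul_of_nonneg_left (hpp'.trans hp'n) (Nat.cast_nonneg K)).trans hKR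
    have hAb : C2 * (K + b) * b ≤ 6 * C2 * R * X ^ 2 * p⁻¹ ^ 2 := by
      have h1 : (K : ℝ) + b ≤ (R * X + 2 * X) * p⁻¹ := by
        have h2 : (K : ℝ) ≤ R * X * p⁻¹ := by
          rw [← div_eq_mul_inv, le_div_iff₀ hp0]; exact hKp
        have h3 : b ≤ 2 * X * p⁻¹ := by rw [← div_eq_mul_inv]; exact hbp
        linarith
      have h4 : (R * X + 2 * X) * p⁻¹ ≤ 3 * R * X * p⁻¹ := by
        apply mul_le_mul_of_nonneg_right _ (by positivity)
        nlinarith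
      have h5 : b ≤ 2 * X * p⁻¹ := by rw [← div_eq_mul_inv]; exact hbp
      have hb0 : 0 ≤ b := by linarith
      calc C2 * (K + b) * b ≤ C2 * (3 * R * X * p⁻¹) * (2 * X * p⁻¹) := by
            apply mul_le_mul _ h5 hb0 (by positivity)
            exact mul_le_mul_of_nonneg_left (h1.trans h4) hC20.le
        _ = _ := by ring
    have hQ : ∀ k ∈ 𝒯, ‖Qp f k p p'‖ ^ 2 ≤ p ^ (2 - 2 * α) := by
      intro k hk
      have := hsmall k hk v hv
      calc ‖Qp f k p p'‖ ^ 2 ≤ (p ^ (1 - α)) ^ 2 := pow_le_pow_left₀ (norm_nonneg _) this 2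
        _ = p ^ (2 - 2 * α) := by
            rw [← Real.rpow_natCast, ← Real.rpow_mul hp0.le]
            congr 1; push_cast; ring
    have hpw : p ^ (2 - 2 * α) * p⁻¹ ^ 2 = p ^ (-(2 * α)) := by
      have h6 : p⁻¹ ^ 2 = p ^ (-2 : ℝ) := by
        rw [Real.rpow_neg hp0.le, inv_pow]
        norm_num
      rw [h6, ← Real.rpow_add hp0]
      congr 1; ring
    have hpP : p ^ (-(2 * α)) ≤ P ^ (-(2 * α)) :=
      Real.rpow_le_rpow_of_nonpos hP0 hPp (by linarith)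
    calc ∑ k ∈ 𝒯, ‖Qp f k p p'‖ ^ 2 * ‖Ap f k (X / p) b‖ ^ 2
        ≤ ∑ k ∈ 𝒯, p ^ (2 - 2 * α) * ‖Ap f k (X / p) b‖ ^ 2 :=
          Finset.sum_le_sum (fun k hk => mul_le_mul_of_nonneg_right (hQ k hk) (by positivity))
      _ = p ^ (2 - 2 * α) * ∑ k ∈ 𝒯, ‖Ap f k (X / p) b‖ ^ 2 := by rw [Finset.mul_sum]
      _ ≤ p ^ (2 - 2 * α) * (C2 * (K + b) * b) := by
          apply mul_le_mul_of_nonneg_left _ (Real.rpow_nonneg hp0.le _)
          exact (Finset.sum_le_sum_of_subset_of_nonneg h𝒯 (fun _ _ _ => by positivity)).trans hA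
      _ ≤ p ^ (2 - 2 * α) * (6 * C2 * R * X ^ 2 * p⁻¹ ^ 2) :=
          mul_le_mul_of_nonneg_left hAb (Real.rpow_nonneg hp0.le _)
      _ = 6 * C2 * R * X ^ 2 * (p ^ (2 - 2 * α) * p⁻¹ ^ 2) := by ring
      _ = 6 * C2 * R * X ^ 2 * p ^ (-(2 * α)) := by rw [hpw]
      _ ≤ 6 * C2 * R * X ^ 2 * P ^ (-(2 * α)) :=
          mul_le_mul_of_nonneg_left hpP (by positivity)
  have hsum := Finset.sum_le_sum hterm
  rw [Finset.sum_const, Finset.card_range, nsmul_eq_mul] at hsum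
  have hlog : 0 ≤ Real.log P := Real.log_nonneg (by linarith)
  have hmain : 0 ≤ 1 / Wp P (P * lam ^ n) + (lam - 1) + 1 / Real.log P := by
    have h1 : 0 ≤ 1 / Wp P (P * lam ^ n) := div_nonneg zero_le_one (by linarith)
    have h2 : 0 ≤ 1 / Real.log P := div_nonneg zero_le_one hlog
    linarith
  have hE : 0 ≤ R * n ^ 2 * P ^ (-(2 * α)) := by
    have := Real.rpow_nonneg hP0.le (-(2 * α)); positivity
  have hn0 : (0 : ℝ) ≤ 2 * n := by positivity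
  have h9 := mul_le_mul_of_nonneg_left hsum hn0
  refine hcs.trans ?_
  have hX2 : 0 ≤ X ^ 2 := by positivity
  have e1 : (2 * n : ℝ) * (n * (6 * C2 * R * X ^ 2 * P ^ (-(2 * α)))) =
      12 * C2 * X ^ 2 * (R * n ^ 2 * P ^ (-(2 * α))) := by ring
  rw [e1] at h9
  have h10 : 0 ≤ 12 * C2 * X ^ 2 * (1 / Wp P (P * lam ^ n) + (lam - 1) + 1 / Real.log P) := by
    positivity
  have h11 : 0 ≤ C1 * X ^ 2 * (R * n ^ 2 * P ^ (-(2 * α))) := by positivity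
  linarith

end

end Pool.Agent.Lib.MP_0b748d_nt.MR
end

section

set_option autoImplicit false

/-!
# The contribution of one level
-/

namespace Pool.Agent.Lib.MP_0b748d_nt.MR

open Zsqrtd

noncomputable section

private theorem ln_biUnion {ι κ : Type*} [DecidableEq κ] (s : Finset ι) (T : ι → Finset κ)
    (g : κ → ℝ) (hg : ∀ k, 0 ≤ g k) : ∑ k ∈ s.biUnion T, g k ≤ ∑ i ∈ s, ∑ k ∈ T i, g k := by
  classical
  induction s using Finset.induction_on with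
  | empty => simp
  | insert a s ha ih =>
    rw [Finset.biUnion_insert, Finset.sum_insert ha]
    have h1 : ∑ k ∈ T a ∪ s.biUnion T, g k ≤ ∑ k ∈ T a, g k + ∑ k ∈ s.biUnion T, g k := by
      rw [← Finset.sum_union_inter]
      have h2 : 0 ≤ ∑ k ∈ T a ∩ s.biUnion T, g k := Finset.sum_nonneg fun k _ => hg k
      linarith
    linarith

/-- the next levels.

Proof. By `level_cs` it remains to bound `2 n ∑_{v<n} ∑_{k ∈ 𝒯} ‖Q_v‖^2 ‖A_v‖^2`. For each `v`,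
cover `𝒯` by the sets `𝒯_(v')` of `k` with `(P' λ'^v')^(1-α') < ‖Q'_(v')(k)‖`, `v' < n'`, and
use `level_mixed` for each (with `p' = P' λ'^v'`, `P' ≤ p' ≤ P' λ'^n' ≤ P ≤ Pv`,
`log p' ≥ log P'`). This gives `2 n * n * n' * 4 X^2 P^(-(α-α')) (P' λ'^n')^2`. -/
theorem level_next : ∃ C : ℝ, 1 ≤ C ∧ ∀ f : ℤ√2 → ℂ, MF f → ∀ (X P lam P' lam' α α' : ℝ)
    (n n' K rmax : ℕ), 1 ≤ X → 2 ≤ P' → 1 < lam → lam ≤ 2 → 1 < lam' → lam' ≤ 2 →
    0 < α' → α' < α → α ≤ 1 / 2 → (P * lam ^ n) ^ 8 ≤ X → (K : ℝ) ≤ X →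
    1 ≤ Wp P (P * lam ^ n) → P' * lam' ^ n' ≤ P →
    Real.log (P * lam ^ n) ≤ (rmax - 1) * Real.log P' → (C * rmax) ^ 4 ≤ P' ^ (α - α') →
    ∀ 𝒯 ⊆ Ik K,
    (∀ k ∈ 𝒯, ∀ v < n, ‖Qp f k (P * lam ^ v) (P * lam ^ (v + 1))‖ ≤ (P * lam ^ v) ^ (1 - α)) →
    (∀ k ∈ 𝒯, ∃ v < n', (P' * lam' ^ v) ^ (1 - α') <
      ‖Qp f k (P' * lam' ^ v) (P' * lam' ^ (v + 1))‖) →
    ∑ k ∈ 𝒯, ‖Ap f k X (2 * X)‖ ^ 2 ≤
      C * X ^ 2 * (1 / Wp P (P * lam ^ n) + (lam - 1) + 1 / Real.log P +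
        n ^ 2 * n' * (P' * lam' ^ n') ^ 2 * P ^ (-(α - α'))) := by
  classical
  obtain ⟨C1, hC1, hcs⟩ := level_cs
  obtain ⟨C2, hC2, hmix⟩ := level_mixed
  refine ⟨C1 + C2 + 8, by linarith, ?_⟩
  intro f hf X P lam P' lam' α α' n n' K rmax hX hP' hlam hlam2 hlam' hlam2' hα' hαα hα hPX hKX
    hW hPP hlog hC 𝒯 h𝒯 hQ hQ'
  have hP'0 : 0 < P' := by linarith
  have hl1 : ∀ j : ℕ, 1 ≤ lam ^ j := fun j => one_le_pow₀ hlam.le
  have hl1' : ∀ j : ℕ, 1 ≤ lam' ^ j := fun j => one_le_pow₀ hlam'.le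
  have hP2 : 2 ≤ P := by
    have h1 := hl1' n'
    nlinarith
  have hP0 : 0 < P := by linarith
  have hPn1 : 1 ≤ P * lam ^ n := by
    have h1 := hl1 n
    nlinarith
  have hPnX : P * lam ^ n ≤ X := by
    refine le_trans ?_ hPX
    exact le_self_pow₀ hPn1 (by norm_num)
  have hrm : 0 < (rmax : ℝ) - 1 := by
    have h1 : 0 < Real.log P' := Real.log_pos (by linarith)
    have h2 : 0 < Real.log (P * lam ^ n) := by
      apply Real.log_pos
      have h1 := hl1 n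
      nlinarith
    have h3 : 0 < ((rmax : ℝ) - 1) * Real.log P' := h2.trans_le hlog
    exact pos_of_mul_pos_left h3 h1.le
  have hX2 : 0 ≤ X ^ 2 := sq_nonneg X
  obtain ⟨D, hD⟩ : ∃ D : ℝ, D = 4 * X ^ 2 * P ^ (-(α - α')) * (P' * lam' ^ n') ^ 2 := ⟨_, rfl⟩
  have hPe0 : 0 ≤ P ^ (-(α - α')) := Real.rpow_nonneg hP0.le _
  have hD0 : 0 ≤ D := by rw [hD]; positivity
  have hblock : ∀ v ∈ Finset.range n, ∑ k ∈ 𝒯,
      ‖Qp f k (P * lam ^ v) (P * lam ^ (v + 1))‖ ^ 2 *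
        ‖Ap f k (X / (P * lam ^ v)) (2 * X / (P * lam ^ (v + 1)))‖ ^ 2 ≤ n' * D := by
    intro v hv
    have hvn : v < n := Finset.mem_range.1 hv
    have hPv1 : P ≤ P * lam ^ v := by
      have h1 := hl1 v
      nlinarith
    have hs : P * lam ^ (v + 1) = P * lam ^ v * lam := by rw [pow_succ]; ring
    have hPvn : P * lam ^ (v + 1) ≤ P * lam ^ n := by
      apply mul_le_mul_of_nonneg_left _ hP0.le
      exact pow_le_pow_right₀ hlam.le (by omega)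
    have hPvn' : P * lam ^ v ≤ P * lam ^ n := by
      apply mul_le_mul_of_nonneg_left _ hP0.le
      exact pow_le_pow_right₀ hlam.le (by omega)
    obtain ⟨T, hT⟩ : ∃ T : ℕ → Finset ℤ, T = fun v' => 𝒯.filter (fun k =>
      (P' * lam' ^ v') ^ (1 - α') < ‖Qp f k (P' * lam' ^ v') (P' * lam' ^ (v' + 1))‖) := ⟨_, rfl⟩
    have hcover : 𝒯 ⊆ (Finset.range n').biUnion T := by
      intro k hk
      obtain ⟨v', hv', h⟩ := hQ' k hk
      rw [Finset.mem_biUnion]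
      refine ⟨v', Finset.mem_range.2 hv', ?_⟩
      rw [hT]
      exact Finset.mem_filter.2 ⟨hk, h⟩
    have hone : ∀ v' ∈ Finset.range n', ∑ k ∈ T v',
        ‖Qp f k (P * lam ^ v) (P * lam ^ (v + 1))‖ ^ 2 *
        ‖Ap f k (X / (P * lam ^ v)) (2 * X / (P * lam ^ (v + 1)))‖ ^ 2 ≤ D := by
      intro v' hv'
      have hvn' : v' < n' := Finset.mem_range.1 hv'
      have hTs : T v' ⊆ 𝒯 := by rw [hT]; exact Finset.filter_subset _ _
      have hs' : P' * lam' ^ (v' + 1) = P' * lam' ^ v' * lam' := by rw [pow_succ]; ring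
      have hp'1 : P' ≤ P' * lam' ^ v' := by
        have h1 := hl1' v'
        nlinarith
      have hp'n : P' * lam' ^ v' ≤ P' * lam' ^ n' := by
        apply mul_le_mul_of_nonneg_left _ hP'0.le
        exact pow_le_pow_right₀ hlam'.le (by omega)
      have h1 := hmix f hf X (P * lam ^ v) lam (P' * lam' ^ v') lam' α α' K rmax hX
        (by linarith) (by linarith) hlam hlam2 hlam' hlam2' hα' hαα hα
        (by rw [← hs]; linarith) hKX
        (by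
          have e1 : Real.log (P * lam ^ v) ≤ Real.log (P * lam ^ n) :=
            Real.log_le_log (by linarith) hPvn'
          have e2 : Real.log P' ≤ Real.log (P' * lam' ^ v') := Real.log_le_log hP'0 hp'1
          have e3 := mul_le_mul_of_nonneg_left e2 hrm.le
          linarith)
        (by
          have e1 : (C2 * (rmax : ℝ)) ^ 4 ≤ ((C1 + C2 + 8) * rmax) ^ 4 := by
            apply pow_le_pow_left₀ (by positivity)
            apply mul_le_mul_of_nonneg_right _ (Nat.cast_nonneg _)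
            linarith
          have e2 : P' ^ (α - α') ≤ (P' * lam' ^ v') ^ (α - α') :=
            Real.rpow_le_rpow hP'0.le hp'1 (by linarith)
          linarith)
        (T v') (hTs.trans h𝒯)
        (by
          intro k hk
          rw [← hs]
          exact hQ k (hTs hk) v hvn)
        (by
          intro k hk
          rw [← hs']
          rw [hT] at hk
          exact (Finset.mem_filter.1 hk).2)
      rw [hs]
      refine h1.trans ?_
      rw [hD]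
      have e3 : (P * lam ^ v) ^ (-(α - α')) ≤ P ^ (-(α - α')) :=
        Real.rpow_le_rpow_of_nonpos hP0 hPv1 (by linarith)
      have e4 : (P' * lam' ^ v') ^ 2 ≤ (P' * lam' ^ n') ^ 2 :=
        pow_le_pow_left₀ (by positivity) hp'n 2
      have e5 : 4 * X ^ 2 * (P * lam ^ v) ^ (-(α - α')) ≤ 4 * X ^ 2 * P ^ (-(α - α')) :=
        mul_le_mul_of_nonneg_left e3 (by positivity)
      exact mul_le_mul e5 e4 (by positivity) (by positivity)
    calc ∑ k ∈ 𝒯, ‖Qp f k (P * lam ^ v) (P * lam ^ (v + 1))‖ ^ 2 *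
          ‖Ap f k (X / (P * lam ^ v)) (2 * X / (P * lam ^ (v + 1)))‖ ^ 2
        ≤ ∑ k ∈ (Finset.range n').biUnion T, ‖Qp f k (P * lam ^ v) (P * lam ^ (v + 1))‖ ^ 2 *
          ‖Ap f k (X / (P * lam ^ v)) (2 * X / (P * lam ^ (v + 1)))‖ ^ 2 :=
          Finset.sum_le_sum_of_subset_of_nonneg hcover fun k _ _ => by positivity
      _ ≤ ∑ v' ∈ Finset.range n', ∑ k ∈ T v', ‖Qp f k (P * lam ^ v) (P * lam ^ (v + 1))‖ ^ 2 *
          ‖Ap f k (X / (P * lam ^ v)) (2 * X / (P * lam ^ (v + 1)))‖ ^ 2 :=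
          ln_biUnion _ _ _ fun k => by positivity
      _ ≤ ∑ v' ∈ Finset.range n', D := Finset.sum_le_sum hone
      _ = n' * D := by rw [Finset.sum_const, Finset.card_range, nsmul_eq_mul]
  have hmain := hcs f hf X P lam n K hX hP2 hlam hlam2 hPX hKX hW 𝒯 h𝒯
  have hsum : ∑ v ∈ Finset.range n, ∑ k ∈ 𝒯,
      ‖Qp f k (P * lam ^ v) (P * lam ^ (v + 1))‖ ^ 2 *
        ‖Ap f k (X / (P * lam ^ v)) (2 * X / (P * lam ^ (v + 1)))‖ ^ 2 ≤ n * (n' * D) := by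
    refine (Finset.sum_le_sum hblock).trans (le_of_eq ?_)
    rw [Finset.sum_const, Finset.card_range, nsmul_eq_mul]
  obtain ⟨R, hR⟩ : ∃ R : ℝ, R = 1 / Wp P (P * lam ^ n) + (lam - 1) + 1 / Real.log P := ⟨_, rfl⟩
  have hR0 : 0 ≤ R := by
    rw [hR]
    have e1 : 0 ≤ 1 / Wp P (P * lam ^ n) := by positivity
    have e2 : 0 ≤ 1 / Real.log P := one_div_nonneg.2 (Real.log_nonneg (by linarith))
    linarith
  obtain ⟨M, hM⟩ : ∃ M : ℝ, M = n ^ 2 * n' * (P' * lam' ^ n') ^ 2 * P ^ (-(α - α')) := ⟨_, rfl⟩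
  have hM0 : 0 ≤ M := by rw [hM]; positivity
  rw [← hR] at hmain ⊢
  rw [← hM]
  have h2n : (0 : ℝ) ≤ 2 * n := by positivity
  have h3 := mul_le_mul_of_nonneg_left hsum h2n
  have h4 : 2 * (n : ℝ) * (n * (n' * D)) = 8 * X ^ 2 * M := by
    rw [hD, hM]
    ring
  rw [h4] at h3
  have h5 : (C1 + C2 + 8) * X ^ 2 * (R + M) = C1 * X ^ 2 * R + (C2 + 8) * (X ^ 2 * R) +
      8 * X ^ 2 * M + (C1 + C2) * (X ^ 2 * M) := by ring
  rw [h5]
  have h6 : 0 ≤ (C2 + 8) * (X ^ 2 * R) := by positivity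
  have h7 : 0 ≤ (C1 + C2) * (X ^ 2 * M) := by positivity
  linarith

end

end Pool.Agent.Lib.MP_0b748d_nt.MR
end

section

set_option autoImplicit false

/-!
# Combination of the levels
-/

namespace Pool.Agent.Lib.MP_0b748d_nt.MR

open Zsqrtd

noncomputable section

/-- combination of the levels `0, …, J`.

Proof. Let `𝒰_j = LU f (P j) (lam j) (α j) (n j) K`. For `k ∈ Ik K` outside `𝒰_J` let `j ≤ J` be the
least index with `k ∉ 𝒰_j`, and let `𝒯_j` be the set of the `k` with this `j`. The sets `𝒯_j`,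
`j ≤ J`, partition `Ik K ∖ 𝒰_J`. For `j = 0` use `level_one`, for `j + 1 ≤ J` use `level_next`
with the previous level `j` (`k ∈ 𝒰_j` gives the required large block). Take for `C` the maximum
of the two constants. -/
theorem levels_sum : ∃ C : ℝ, 1 ≤ C ∧ ∀ f : ℤ√2 → ℂ, MF f → ∀ (X R : ℝ) (K J : ℕ)
    (P lam α : ℕ → ℝ) (n rmax : ℕ → ℕ), 1 ≤ X → 1 ≤ R → (K : ℝ) ≤ X →
    (∀ j ≤ J, 2 ≤ P j ∧ 1 < lam j ∧ lam j ≤ 2 ∧ 0 < α j ∧ α j ≤ 1 / 2) →
    (∀ j ≤ J, (P j * lam j ^ n j) ^ 8 ≤ X ∧ 1 ≤ Wp (P j) (P j * lam j ^ n j)) →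
    (K : ℝ) * (P 0 * lam 0 ^ n 0) ≤ R * X →
    (∀ j < J, α j < α (j + 1) ∧ P j * lam j ^ n j ≤ P (j + 1) ∧
      Real.log (P (j + 1) * lam (j + 1) ^ n (j + 1)) ≤ (rmax j - 1) * Real.log (P j) ∧
      (C * rmax j) ^ 4 ≤ P j ^ (α (j + 1) - α j)) →
    ∑ k ∈ Ik K \ LU f (P J) (lam J) (α J) (n J) K, ‖Ap f k X (2 * X)‖ ^ 2 ≤
      C * X ^ 2 * (∑ j ∈ Finset.range (J + 1),
        (1 / Wp (P j) (P j * lam j ^ n j) + (lam j - 1) + 1 / Real.log (P j)) +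
        R * n 0 ^ 2 * P 0 ^ (-(2 * α 0)) +
        ∑ j ∈ Finset.range J, (n (j + 1) ^ 2 * n j * (P j * lam j ^ n j) ^ 2 *
          P (j + 1) ^ (-(α (j + 1) - α j)))) := by
  classical
  obtain ⟨C1, hC1, H1⟩ := level_one
  obtain ⟨C2, hC2, H2⟩ := level_next
  refine ⟨max C1 C2, le_trans hC1 (le_max_left _ _), ?_⟩
  intro f hf X R K J P lam α n rmax hX hR hK hpar hsz hKR hstep
  set C := max C1 C2 with hC
  have hC1' : C1 ≤ C := le_max_left _ _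
  have hC2' : C2 ≤ C := le_max_right _ _
  set F : ℤ → ℝ := fun k => ‖Ap f k X (2 * X)‖ ^ 2 with hF
  have hF0 : ∀ k, 0 ≤ F k := fun k => by positivity
  set U : ℕ → Finset ℤ := fun j => LU f (P j) (lam j) (α j) (n j) K with hU
  set T : ℕ → Finset ℤ := fun j => (Ik K).filter (fun k => k ∉ U j ∧ ∀ i < j, k ∈ U i) with hT
  -- membership in the sets
  have hUmem : ∀ j k, k ∈ U j ↔ k ∈ Ik K ∧ ∃ v < n j, (P j * lam j ^ v) ^ (1 - α j) <
      ‖Qp f k (P j * lam j ^ v) (P j * lam j ^ (v + 1))‖ := by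
    intro j k
    simp [hU, LU]
  have hTsub : ∀ j, T j ⊆ Ik K := fun j => Finset.filter_subset _ _
  have hTsmall : ∀ j, ∀ k ∈ T j, ∀ v < n j, ‖Qp f k (P j * lam j ^ v) (P j * lam j ^ (v + 1))‖ ≤
      (P j * lam j ^ v) ^ (1 - α j) := by
    intro j k hk v hv
    have hk' := Finset.mem_filter.mp hk
    by_contra hcon
    push Not at hcon
    exact hk'.2.1 ((hUmem j k).2 ⟨hk'.1, v, hv, hcon⟩)
  have hTbig : ∀ j, ∀ k ∈ T (j + 1), ∃ v < n j, (P j * lam j ^ v) ^ (1 - α j) <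
      ‖Qp f k (P j * lam j ^ v) (P j * lam j ^ (v + 1))‖ := by
    intro j k hk
    have hk' := Finset.mem_filter.mp hk
    exact ((hUmem j k).1 (hk'.2.2 j (Nat.lt_succ_self j))).2
  -- positivity of the main terms
  have hmain0 : ∀ j ≤ J, 0 ≤ 1 / Wp (P j) (P j * lam j ^ n j) + (lam j - 1) +
      1 / Real.log (P j) := by
    intro j hj
    have h1 := hpar j hj
    have h2 := hsz j hj
    have : 0 ≤ Real.log (P j) := Real.log_nonneg (by linarith [h1.1])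
    have h3 : 0 ≤ 1 / Wp (P j) (P j * lam j ^ n j) := by
      apply div_nonneg zero_le_one; linarith [h2.2]
    have h4 : 0 ≤ 1 / Real.log (P j) := div_nonneg zero_le_one this
    linarith [h1.2.1]
  -- level zero
  have h0 : ∑ k ∈ T 0, F k ≤ C * X ^ 2 * ((1 / Wp (P 0) (P 0 * lam 0 ^ n 0) + (lam 0 - 1) +
      1 / Real.log (P 0)) + R * n 0 ^ 2 * P 0 ^ (-(2 * α 0))) := by
    have h1 := hpar 0 (Nat.zero_le _)
    have h2 := hsz 0 (Nat.zero_le _)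
    have := H1 f hf X (P 0) (lam 0) (α 0) R (n 0) K hX h1.1 h1.2.1 h1.2.2.1 h1.2.2.2.1 h1.2.2.2.2
      hR h2.1 hK h2.2 hKR (T 0) (hTsub 0) (hTsmall 0)
    refine this.trans ?_
    have hP0 : 0 ≤ P 0 ^ (-(2 * α 0)) := Real.rpow_nonneg (by linarith [h1.1]) _
    have hx : 0 ≤ (1 / Wp (P 0) (P 0 * lam 0 ^ n 0) + (lam 0 - 1) +
      1 / Real.log (P 0)) + R * n 0 ^ 2 * P 0 ^ (-(2 * α 0)) := by
      have := hmain0 0 (Nat.zero_le _)
      have h5 : 0 ≤ R * n 0 ^ 2 * P 0 ^ (-(2 * α 0)) := by positivity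
      linarith
    have hX2 : 0 ≤ X ^ 2 := by positivity
    exact mul_le_mul_of_nonneg_right (mul_le_mul_of_nonneg_right hC1' hX2) hx
  -- next levels
  have hj : ∀ j < J, ∑ k ∈ T (j + 1), F k ≤ C * X ^ 2 *
      ((1 / Wp (P (j + 1)) (P (j + 1) * lam (j + 1) ^ n (j + 1)) + (lam (j + 1) - 1) +
      1 / Real.log (P (j + 1))) + n (j + 1) ^ 2 * n j * (P j * lam j ^ n j) ^ 2 *
          P (j + 1) ^ (-(α (j + 1) - α j))) := by
    intro j hj
    have h1 := hpar (j + 1) hj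
    have h1' := hpar j hj.le
    have h2 := hsz (j + 1) hj
    have h3 := hstep j hj
    have hr : (C2 * rmax j) ^ 4 ≤ P j ^ (α (j + 1) - α j) := by
      refine le_trans ?_ h3.2.2.2
      have : 0 ≤ C2 * (rmax j : ℝ) := by positivity
      have h' : C2 * (rmax j : ℝ) ≤ C * rmax j :=
        mul_le_mul_of_nonneg_right hC2' (Nat.cast_nonneg _)
      exact pow_le_pow_left₀ this h' 4
    have := H2 f hf X (P (j + 1)) (lam (j + 1)) (P j) (lam j) (α (j + 1)) (α j) (n (j + 1)) (n j)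
      K (rmax j) hX h1'.1 h1.2.1 h1.2.2.1 h1'.2.1 h1'.2.2.1 h1'.2.2.2.1 h3.1 h1.2.2.2.2 h2.1 hK
      h2.2 h3.2.1 h3.2.2.1 hr (T (j + 1)) (hTsub _) (hTsmall _) (hTbig j)
    refine this.trans ?_
    have hP0 : 0 ≤ P (j + 1) ^ (-(α (j + 1) - α j)) := Real.rpow_nonneg (by linarith [h1.1]) _
    have hx : 0 ≤ (1 / Wp (P (j + 1)) (P (j + 1) * lam (j + 1) ^ n (j + 1)) + (lam (j + 1) - 1) +
      1 / Real.log (P (j + 1))) + n (j + 1) ^ 2 * n j * (P j * lam j ^ n j) ^ 2 *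
          P (j + 1) ^ (-(α (j + 1) - α j)) := by
      have := hmain0 (j + 1) hj
      have h5 : 0 ≤ (n (j + 1) : ℝ) ^ 2 * n j * (P j * lam j ^ n j) ^ 2 *
          P (j + 1) ^ (-(α (j + 1) - α j)) := by positivity
      linarith
    have hX2 : 0 ≤ X ^ 2 := by positivity
    exact mul_le_mul_of_nonneg_right (mul_le_mul_of_nonneg_right hC2' hX2) hx
  -- covering
  have hcov : ∑ k ∈ Ik K \ U J, F k ≤ ∑ j ∈ Finset.range (J + 1), ∑ k ∈ T j, F k := by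
    have hsub : Ik K \ U J ⊆ (Finset.range (J + 1)).biUnion T := by
      intro k hk
      rw [Finset.mem_sdiff] at hk
      have hex : ∃ j, k ∉ U j := ⟨J, hk.2⟩
      rw [Finset.mem_biUnion]
      refine ⟨Nat.find hex, ?_, ?_⟩
      · rw [Finset.mem_range]
        exact Nat.lt_succ_of_le (Nat.find_min' hex hk.2)
      · refine Finset.mem_filter.mpr ⟨hk.1, Nat.find_spec hex, ?_⟩
        intro i hi
        have := Nat.find_min hex hi
        push Not at this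
        exact this
    have hdis : ((Finset.range (J + 1) : Finset ℕ) : Set ℕ).PairwiseDisjoint T := by
      intro i _ j _ hij
      rw [Function.onFun, Finset.disjoint_left]
      intro k hi hj
      have hi' := (Finset.mem_filter.mp hi).2
      have hj' := (Finset.mem_filter.mp hj).2
      rcases lt_or_gt_of_ne hij with h | h
      · exact hi'.1 (hj'.2 i h)
      · exact hj'.1 (hi'.2 j h)
    refine (Finset.sum_le_sum_of_subset_of_nonneg hsub (fun k _ _ => hF0 k)).trans ?_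
    rw [Finset.sum_biUnion hdis]
  refine hcov.trans ?_
  rw [Finset.sum_range_succ', Finset.sum_range_succ' (fun j => 1 / Wp (P j) (P j * lam j ^ n j) +
    (lam j - 1) + 1 / Real.log (P j))]
  have hs : ∑ j ∈ Finset.range J, ∑ k ∈ T (j + 1), F k ≤ ∑ j ∈ Finset.range J, C * X ^ 2 *
      ((1 / Wp (P (j + 1)) (P (j + 1) * lam (j + 1) ^ n (j + 1)) + (lam (j + 1) - 1) +
      1 / Real.log (P (j + 1))) + n (j + 1) ^ 2 * n j * (P j * lam j ^ n j) ^ 2 *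
          P (j + 1) ^ (-(α (j + 1) - α j))) :=
    Finset.sum_le_sum (fun j hjm => hj j (Finset.mem_range.mp hjm))
  rw [← Finset.mul_sum, Finset.sum_add_distrib] at hs
  refine (add_le_add hs h0).trans (le_of_eq ?_)
  ring

end

end Pool.Agent.Lib.MP_0b748d_nt.MR
end

section

set_option autoImplicit false

/-!
# The frequencies outside a small exceptional set
-/

namespace Pool.Agent.Lib.MP_0b748d_nt.MR

open Zsqrtd

noncomputable section

lemma Lower_params (α L : ℝ) (hα : 0 < α) (hα1 : α ≤ 1 / 4) (hL : 3 ≤ L) (j : ℕ) :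
    2 ≤ pP L j ∧ 1 < pl L j ∧ pl L j ≤ 2 ∧ 0 < pa α j ∧ pa α j ≤ 1 / 2 ∧
      pa α j < pa α (j + 1) ∧ pa α j ≤ α := by
  have h1 := (pL_mono L (by linarith) j).1
  have hlog : 1 ≤ Real.log (pL L j) := by
    rw [Real.le_log_iff_exp_le (by linarith)]
    have := Real.exp_one_lt_d9
    linarith
  have e1 : (0 : ℝ) < (1 / 2) ^ (j + 1) := by positivity
  have e2 : ((1 : ℝ) / 2) ^ (j + 1) ≤ 1 / 2 := by
    calc ((1 : ℝ) / 2) ^ (j + 1) ≤ (1 / 2) ^ 1 :=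
          pow_le_pow_of_le_one (by norm_num) (by norm_num) (by omega)
      _ = 1 / 2 := by norm_num
  have e3 : ((1 : ℝ) / 2) ^ (j + 1 + 1) = (1 / 2) ^ (j + 1) * (1 / 2) := by rw [pow_succ]
  refine ⟨?_, ?_, ?_, ?_, ?_, ?_, ?_⟩
  · rw [pP]
    have := Real.add_one_le_exp (pL L j)
    linarith
  · rw [pl]
    have : 0 < 1 / Real.log (pL L j) := by positivity
    linarith
  · rw [pl]
    have : 1 / Real.log (pL L j) ≤ 1 := by
      rw [div_le_one (by linarith)]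
      exact hlog
    linarith
  · rw [pa]
    apply mul_pos hα
    linarith
  · rw [pa]
    nlinarith
  · rw [pa, pa, e3]
    nlinarith only [hα, e1]
  · rw [pa]
    nlinarith only [hα, e1]

/-- Matomaki-Radziwill iteration: apart from at most `X^(3α)` frequencies the polynomial is small
in mean square.

Proof. Let `C1` be the constant of `levels_sum`, `C2` that of `LU_card`, `c` that of `level_W`. Fix
`L` larger than the thresholds of `level_W`, `level_step α C1`, `level_err α R ε C1 c`, and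
`ℓ0 = R exp(6 L^(3/2))`. For `ℓ ≥ ℓ0` and `X` large let `J` be as in `exists_J`; apply `levels_sum`
with `P = pP L`, `lam = pl L`, `α = pa α`, `n = pn L`, `rmax = pr L`. Its hypotheses: `top_le`,
`level_W`, `K (top of level 0) ≤ (R X/ℓ) exp(6 L^(3/2)) ≤ X ≤ R X` (`top_size`), `level_step`;
`K ≤ R X/ℓ ≤ X`. The error is at most `ε X^2` by `level_err` and `𝒰 = LU f (pP L J) ...` has at
most `X^(3α)` elements by `LU_card` and `U_small`. -/
theorem lower_levels (α R ε : ℝ) (hα : 0 < α) (hα1 : α ≤ 1 / 4) (hR : 1 ≤ R) (hε : 0 < ε) :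
    ∃ ℓ0 : ℝ, 1 ≤ ℓ0 ∧ ∀ ℓ : ℝ, ℓ0 ≤ ℓ → ∃ X0 : ℝ, 1 ≤ X0 ∧ ∀ X : ℝ, X0 ≤ X →
    ∀ f : ℤ√2 → ℂ, MF f → ∀ K : ℕ, (K : ℝ) ≤ R * X / ℓ →
    ∃ 𝒰 ⊆ Ik K, (𝒰.card : ℝ) ≤ X ^ (3 * α) ∧
      ∑ k ∈ Ik K \ 𝒰, ‖Ap f k X (2 * X)‖ ^ 2 ≤ ε * X ^ 2 := by
  obtain ⟨C1, hC1, hsum⟩ := levels_sum
  obtain ⟨C2, hC2, hLU⟩ := LU_card
  obtain ⟨c, L1, hc, hL1, hW⟩ := level_W
  obtain ⟨L2, hL2, hstep⟩ := level_step α C1 hα hα1 hC1
  obtain ⟨L3, hL3, herr⟩ := level_err α R ε C1 c hα hα1 hR hε hC1 hc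
  set L : ℝ := max L1 (max L2 L3) with hL
  have hLa : L1 ≤ L := le_max_left _ _
  have hLb : L2 ≤ L := (le_max_left _ _).trans (le_max_right _ _)
  have hLc : L3 ≤ L := (le_max_right _ _).trans (le_max_right _ _)
  have hL3' : 3 ≤ L := hL1.trans hLa
  replace hW := hW L hLa
  replace hstep := hstep L hLb
  replace herr := herr L hLc
  set T : ℝ := Real.exp (6 * L ^ ((3 : ℝ) / 2)) with hT
  have hT1 : 1 ≤ T := Real.one_le_exp (by positivity)
  obtain ⟨X1, hX1, hJ⟩ := exists_J L (by linarith)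
  obtain ⟨X2, hX2, htop⟩ := top_le L hL3'
  obtain ⟨X3, hX3, hU⟩ := U_small α C2 L hα hα1 hC2 hL3'
  refine ⟨R * T, by nlinarith only [hR, hT1], ?_⟩
  intro ℓ hℓ
  have hℓ0 : 0 < ℓ := by nlinarith only [hR, hT1, hℓ]
  refine ⟨max (max X1 X2) X3, hX1.trans ((le_max_left _ _).trans (le_max_left _ _)), ?_⟩
  intro X hX f hf K hK
  simp only [max_le_iff] at hX
  obtain ⟨⟨hx1, hx2⟩, hx3⟩ := hX
  obtain ⟨J, hJ1, hJ2⟩ := hJ X hx1
  replace htop := htop X hx2 J hJ1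
  obtain ⟨rm, hrm1, hrm2⟩ := hU X hx3 J hJ1 hJ2
  have hX1' : 1 ≤ X := hX1.trans hx1
  have hX0 : 0 < X := by linarith
  -- `K T ≤ X`
  have hKT : (K : ℝ) * T ≤ X := by
    rw [le_div_iff₀ hℓ0] at hK
    have h1 : (K : ℝ) * (R * T) ≤ R * X := by
      calc (K : ℝ) * (R * T) ≤ K * ℓ := by gcongr
        _ ≤ R * X := hK
    have h2 : R * ((K : ℝ) * T) ≤ R * X := by linarith
    exact le_of_mul_le_mul_left h2 (by linarith)
  have hKX : (K : ℝ) ≤ X := by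
    have : (0 : ℝ) ≤ K := by positivity
    nlinarith only [hT1, hKT]
  have hpar := fun j => Lower_params α L hα hα1 hL3' j
  have htop0 : pP L 0 * pl L 0 ^ pn L 0 ≤ T := by
    have h1 := (top_size L hL3' 0).2
    have h2 : pL L 0 = L := by simp [pL]
    rw [h2] at h1
    have h3 : 0 < pP L 0 * pl L 0 ^ pn L 0 := by
      have := (hpar 0).1
      have h5 := (hpar 0).2.1
      positivity
    rw [hT]
    exact (Real.log_le_iff_le_exp h3).1 h1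
  have hpos : ∀ j, 0 < pP L j * pl L j ^ pn L j := by
    intro j
    have := (hpar j).1
    have h5 := (hpar j).2.1
    positivity
  have key := hsum f hf X R K J (pP L) (pl L) (pa α) (pn L) (pr L) hX1' hR hKX
    (fun j _ => ⟨(hpar j).1, (hpar j).2.1, (hpar j).2.2.1, (hpar j).2.2.2.1, (hpar j).2.2.2.2.1⟩)
    (fun j hj => ⟨htop j hj, (hW j).2⟩)
    (by
      calc (K : ℝ) * (pP L 0 * pl L 0 ^ pn L 0) ≤ K * T := by gcongr
        _ ≤ X := hKT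
        _ ≤ R * X := by nlinarith only [hR, hKX])
    (fun j _ => ⟨(hpar j).2.2.2.2.2.1, (hstep j).1, (hstep j).2.1, (hstep j).2.2.1⟩)
  refine ⟨LU f (pP L J) (pl L J) (pa α J) (pn L J) K, ?_, ?_, ?_⟩
  · exact Finset.filter_subset _ _
  · have h1 := hLU f hf X (pP L J) (pl L J) (pa α J) (pn L J) K rm hX1' (hpar J).1 (hpar J).2.1
      (hpar J).2.2.1 (hpar J).2.2.2.1 (hpar J).2.2.2.2.1 hKX (by
        have h2 := htop J le_rfl
        have h3 : 1 ≤ pP L J * pl L J ^ pn L J := by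
          have h4 : (1 : ℝ) ≤ pl L J ^ pn L J := one_le_pow₀ (hpar J).2.1.le
          have := (hpar J).1
          nlinarith only [h4, this]
        calc pP L J * pl L J ^ pn L J = (pP L J * pl L J ^ pn L J) ^ 1 := (pow_one _).symm
          _ ≤ (pP L J * pl L J ^ pn L J) ^ 8 := pow_le_pow_right₀ h3 (by norm_num)
          _ ≤ X := h2) hrm1
    exact h1.trans hrm2
  · refine key.trans ?_
    have h1 := herr J (fun j => Wp (pP L j) (pP L j * pl L j ^ pn L j)) (fun j => (hW j).1)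
      (fun j => (hstep j).2.2.2)
    have h2 : 0 ≤ X ^ 2 := by positivity
    calc C1 * X ^ 2 * _ = X ^ 2 * (C1 * _) := by ring
      _ ≤ X ^ 2 * ε := mul_le_mul_of_nonneg_left h1 h2
      _ = ε * X ^ 2 := by ring

end

end Pool.Agent.Lib.MP_0b748d_nt.MR
end
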