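import Pool.Agent.Lib.MP_0b748d_nt.MR.Cheb
import Pool.Agent.Lib.MP_0b748d_nt.P.Cone

set_option autoImplicit false

/-!
# Many odd balanced pairs with sign `-1`
-/

namespace Pool.Agent.Lib.MP_0b748d_nt.MR

open Zsqrtd MeasureTheory

noncomputable section

/-- the hypothesis at frequency `0` -/
def Hyp (g : ℕ → ℤ) (c X : ℝ) : Prop :=
  ‖Ap (fg g) 0 X (2 * X)‖ ^ 2 ≤ (1 - c) * ((Us X (2 * X)).card : ℝ) ^ 2

lemma ConeWin_nm {m : ℤ} (hm : 0 < m) {a b x : ℤ√2} (ha : TP a) (hb : TP b) (hx : TP x)
    (hab : det a b = 1) (hma : m ≤ nm a) (hmb : m ≤ nm b) (h1 : th a ≤ th x)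
    (h2 : th x ≤ th b) : m ≤ nm x := by
  have hi : 0 ≤ det x b := (th_le_iff hx hb).1 h2
  have hj : 0 ≤ det a x := (th_le_iff ha hx).1 h1
  have hB := B_pos ha hb
  have hre : x.re = det x b * a.re + det a x * b.re := by
    have e : det x b * a.re + det a x * b.re = x.re * det a b := by
      simp only [det]; ring
    rw [e, hab, mul_one]
  have him : x.im = det x b * a.im + det a x * b.im := by
    have e : det x b * a.im + det a x * b.im = x.im * det a b := by
      simp only [det]; ring
    rw [e, hab, mul_one]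
  have hn : nm x = det x b ^ 2 * nm a + 2 * det x b * det a x * B a b + det a x ^ 2 * nm b := by
    have e : nm x = x.re ^ 2 - 2 * x.im ^ 2 := rfl
    rw [e]
    generalize det x b = i at *
    generalize det a x = j at *
    rw [hre, him]
    simp only [nm, B]
    ring
  have hpos := hx.nm_pos
  generalize det x b = i at *
  generalize det a x = j at *
  have h3 : 0 ≤ 2 * i * j * B a b := by positivity
  have h4 : i ^ 2 * m ≤ i ^ 2 * nm a := mul_le_mul_of_nonneg_left hma (by positivity)
  have h5 : j ^ 2 * m ≤ j ^ 2 * nm b := mul_le_mul_of_nonneg_left hmb (by positivity)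
  have h6 : 1 ≤ i ^ 2 + j ^ 2 := by
    rcases hi.eq_or_lt with h | h
    · rcases hj.eq_or_lt with h' | h'
      · rw [← h, ← h'] at hn
        simp at hn
        omega
      · nlinarith
    · nlinarith
  have h7 : 1 * m ≤ (i ^ 2 + j ^ 2) * m := mul_le_mul_of_nonneg_right h6 hm.le
  rw [hn]
  nlinarith

/-- two primitive odd elements with different signs in the cone of an edge give a negative odd
edge in this cone.

Proof. Suppose that `F x = F y` for all edges `(x, y)` in the cone (`th a ≤ th x`, `th y ≤ th b`)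
with `B x y ≤ H` and `B x y` odd. By `cone` (class `c = true`, `par true = 1`, `Q true v` means
`v.re` odd; `0 < det a z`, `0 < det z b` by `th_lt_iff`) applied to `z` and `z'`: if `a` is odd
then `F a = F z = F z'`; if `b` is odd, the same with `b`; one of `a, b` is odd because
`det a b = 1`. Contradiction. So there is an edge `(x, y)` in the cone, `B x y ≤ H` odd,
`F x ≠ F y`; `B x y = x.re * y.re - 2 (..)` odd gives `x, y` odd, so the values are `±1`
(`F_val'`) and the product is `-1`.
Norms: `x = i a + j b` with `i = det x b ≥ 0`, `j = det a x ≥ 0` (from `det a b = 1`), not both `0`,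
and `nm x = i² nm a + 2 i j B a b + j² nm b ≥ m` if `m ≤ nm a, nm b` and `0 < m`; same for `y`. -/
theorem cone_win (g : ℕ → ℤ) (hg : CO g) (H m : ℤ) (hm : 0 < m) (a b z z' : ℤ√2) (ha : TP a)
    (hb : TP b) (hab : det a b = 1) (hma : m ≤ nm a) (hmb : m ≤ nm b)
    (hz : OT z ∧ Prim z ∧ nm z ≤ H) (hz' : OT z' ∧ Prim z' ∧ nm z' ≤ H)
    (h1 : th a < th z ∧ th z < th b) (h2 : th a < th z' ∧ th z' < th b) (hF : F g z ≠ F g z') :
    ∃ x y : ℤ√2, OT x ∧ OT y ∧ det x y = 1 ∧ th a ≤ th x ∧ th y ≤ th b ∧ B x y ≤ H ∧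
      F g x * F g y = -1 ∧ m ≤ nm x ∧ m ≤ nm y := by
  by_cases hE : ∀ x y, TP x → TP y → det x y = 1 → th a ≤ th x → th y ≤ th b → B x y ≤ H →
      B x y % 2 = par true → F g x = F g y
  · exfalso
    have c1 := cone (F g) true H a b ha hb hab hE z hz.1.1 hz.2.1 (fun _ => hz.1.2)
      ((th_lt_iff ha hz.1.1).1 h1.1) ((th_lt_iff hz.1.1 hb).1 h1.2) hz.2.2
    have c2 := cone (F g) true H a b ha hb hab hE z' hz'.1.1 hz'.2.1 (fun _ => hz'.1.2)
      ((th_lt_iff ha hz'.1.1).1 h2.1) ((th_lt_iff hz'.1.1 hb).1 h2.2) hz'.2.2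
    rcases Int.emod_two_eq_zero_or_one a.re with h | h
    · rcases Int.emod_two_eq_zero_or_one b.re with h' | h'
      · obtain ⟨u, hu⟩ := Int.dvd_of_emod_eq_zero h
        obtain ⟨v, hv⟩ := Int.dvd_of_emod_eq_zero h'
        simp only [det] at hab
        rw [hu, hv] at hab
        have : 2 * (u * b.im - a.im * v) = 1 := by linear_combination hab
        omega
      · exact hF ((c1.2 (fun _ => h')).symm.trans (c2.2 (fun _ => h')))
    · exact hF ((c1.1 (fun _ => h)).symm.trans (c2.1 (fun _ => h)))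
  · push Not at hE
    obtain ⟨x, y, hx, hy, hxy, hax, hyb, hBH, hBp, hFxy⟩ := hE
    have hodd : (x.re * y.re) % 2 = 1 := by
      have e : B x y = x.re * y.re - 2 * (x.im * y.im) := by simp only [B]; ring
      have hp : par true = 1 := rfl
      rw [hp] at hBp
      push_cast at hBp
      omega
    have hxr : x.re % 2 = 1 := by
      rcases Int.emod_two_eq_zero_or_one x.re with h | h
      · rw [Int.mul_emod, h] at hodd
        simp at hodd
      · exact h
    have hyr : y.re % 2 = 1 := by
      rcases Int.emod_two_eq_zero_or_one y.re with h | h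
      · rw [Int.mul_emod, h] at hodd
        simp at hodd
      · exact h
    have hOx : OT x := ⟨hx, hxr⟩
    have hOy : OT y := ⟨hy, hyr⟩
    have hxly : th x < th y := by
      rw [th_lt_iff hx hy, hxy]
      norm_num
    refine ⟨x, y, hOx, hOy, hxy, hax, hyb, hBH, ?_, ?_, ?_⟩
    · rcases F_val' hg hOx with h | h <;> rcases F_val' hg hOy with h' | h'
      · exact absurd (h.trans h'.symm) hFxy
      · rw [h, h']; norm_num
      · rw [h, h']; norm_num
      · exact absurd (h.trans h'.symm) hFxy
    · exact ConeWin_nm hm ha hb hx hab hma hmb hax (hxly.le.trans hyb)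
    · exact ConeWin_nm hm ha hb hy hab hma hmb (hax.trans hxly.le) hyb

end

end Pool.Agent.Lib.MP_0b748d_nt.MR
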