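import Pool.Agent.Lib.MP_0b748d_nt.MR.DirsA
import Pool.Agent.Lib.MP_0b748d_nt.Measure
import Pool.Agent.Lib.MP_0b748d_nt.Plus
import Pool.Agent.Lib.MP_0b748d_nt.MR.ConeWin
import Pool.Agent.Lib.MP_0b748d_nt.MR.VExp

section

set_option autoImplicit false

/-!
# From odd negative pairs to even pairs of both signs
-/

namespace Pool.Agent.Lib.MP_0b748d_nt.MR

open Zsqrtd

noncomputable section

/-- the twist by the character modulo 4 -/
def tw (g : ℕ → ℤ) (n : ℕ) : ℤ := if n % 4 = 3 then - g n else g n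

/-- Proof. For odd `m, n`: `m n % 4 = 3` iff exactly one of `m % 4, n % 4` is `3`. -/
theorem CO_tw {g : ℕ → ℤ} (hg : CO g) : CO (tw g) := by
  constructor
  · intro m n hm hn
    unfold tw
    rw [hg.mul m n hm hn, Nat.mul_mod]
    have h1 : m % 4 = 1 ∨ m % 4 = 3 := by omega
    have h2 : n % 4 = 1 ∨ n % 4 = 3 := by omega
    rcases h1 with h1 | h1 <;> rcases h2 with h2 | h2 <;> simp [h1, h2]
  · intro n hn
    unfold tw
    rcases hg.val n hn with h | h <;> split_ifs <;> simp [h]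

/-- Proof. For odd `n`, `n² - 2 ≡ 7 mod 8`, so `(n²-2) % 4 = 3` and
`tw g (n²-2) = - g (n²-2)`. -/
theorem BP_tw (D N : ℕ) (g : ℕ → ℤ) (s : ℤ) : BP D N 1 (tw g) s = BP D N 1 g (-s) := by
  unfold BP
  refine Finset.filter_congr fun x hx => ?_
  rw [Finset.mem_product, Finset.mem_Icc, Finset.mem_Icc] at hx
  have hx2 : 2 ≤ x.1 := hx.1.1
  constructor
  · rintro ⟨h1, h2, h3, h4, h5⟩
    refine ⟨h1, h2, h3, h4, ?_⟩
    have h6 : (x.1 ^ 2 - 2) % 4 = 3 := by
      obtain ⟨k, hk⟩ : ∃ k, x.1 = 2 * k + 1 := ⟨x.1 / 2, by omega⟩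
      have h7 : x.1 ^ 2 = 4 * (k * k + k) + 1 := by
        rw [hk]
        ring
      have h8 : 1 ≤ k := by omega
      have h9 : 1 ≤ k * k + k := by nlinarith
      omega
    unfold tw at h5
    rw [if_pos h6] at h5
    linarith
  · rintro ⟨h1, h2, h3, h4, h5⟩
    refine ⟨h1, h2, h3, h4, ?_⟩
    have h6 : (x.1 ^ 2 - 2) % 4 = 3 := by
      obtain ⟨k, hk⟩ : ∃ k, x.1 = 2 * k + 1 := ⟨x.1 / 2, by omega⟩
      have h7 : x.1 ^ 2 = 4 * (k * k + k) + 1 := by
        rw [hk]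
        ring
      have h8 : 1 ≤ k := by omega
      have h9 : 1 ≤ k * k + k := by nlinarith
      omega
    unfold tw
    rw [if_pos h6, h5, neg_neg]

theorem CO_of_CM {g : ℕ → ℤ} (hg : CM g) : CO g :=
  ⟨fun m n hm hn => hg.mul m n (by omega) (by omega), fun n hn => hg.val n (by omega)⟩

/-- Proof. `j² - 2 = 2^a m` with `m` odd (`a ∈ {0, 1}`, `a = 1` iff `j` even); if `g m = -1` then
some prime factor `p` of `m` has `g p = -1` (else `g m = 1` by multiplicativity). `p` is odd and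
`p ∣ j² - 2`, so `2` is a square modulo `p` and `p ≡ ±1 mod 8` (`ZMod.exists_sq_eq_two_iff`). -/
theorem exists_neg_prime {g : ℕ → ℤ} (hg : CO g) (j m : ℕ) (hm : m % 2 = 1) (hj : 2 ≤ j)
    (hd : m ∣ j ^ 2 - 2) (h : g m = -1) : ∃ p, Sp p ∧ p ∣ j ^ 2 - 2 ∧ g p = -1 := by
  have key : ∀ k m : ℕ, m ≤ k → m % 2 = 1 → g m = -1 →
      ∃ p, p.Prime ∧ p % 2 = 1 ∧ p ∣ m ∧ g p = -1 := by
    intro k
    induction k with
    | zero =>
      intro m hm1 hm2
      omega
    | succ k ih =>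
      intro m hmk hm2 hgm
      by_cases hm1 : m = 1
      · have h1 := hg.mul 1 1 rfl rfl
        rw [hm1] at hgm
        rw [mul_one, hgm] at h1
        norm_num at h1
      · have hp := Nat.minFac_prime hm1
        obtain ⟨c, hc⟩ := Nat.minFac_dvd m
        have hpo : m.minFac % 2 = 1 := by
          by_contra h0
          have h1 : 2 ∣ m.minFac := by omega
          have h2 : 2 ∣ m := h1.trans (Nat.minFac_dvd m)
          omega
        have hco : c % 2 = 1 := by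
          by_contra h0
          have h1 : 2 ∣ c := by omega
          have h2 : 2 ∣ m := h1.trans ⟨m.minFac, by rw [mul_comm]; exact hc⟩
          omega
        rcases hg.val _ hpo with hgp | hgp
        · have hc2 : g c = -1 := by
            rw [hc, hg.mul _ _ hpo hco, hgp, one_mul] at hgm
            exact hgm
          have hlt : c < m := by
            have h2 := hp.two_le
            have h3 : 0 < c := by omega
            calc c < 2 * c := by omega
              _ ≤ m.minFac * c := Nat.mul_le_mul_right c h2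
              _ = m := hc.symm
          obtain ⟨p, h1, h2, h3, h4⟩ := ih c (by omega) hco hc2
          exact ⟨p, h1, h2, h3.trans ⟨m.minFac, by rw [mul_comm]; exact hc⟩, h4⟩
        · exact ⟨m.minFac, hp, hpo, Nat.minFac_dvd m, hgp⟩
  obtain ⟨p, hp, hpo, hpm, hgp⟩ := key m m le_rfl hm h
  have hpj : p ∣ j ^ 2 - 2 := hpm.trans hd
  refine ⟨p, ⟨hp, ?_⟩, hpj, hgp⟩
  have : Fact p.Prime := ⟨hp⟩
  rw [← ZMod.exists_sq_eq_two_iff (by rintro rfl; omega)]
  refine ⟨(j : ZMod p), ?_⟩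
  have h1 : ((j ^ 2 - 2 : ℕ) : ZMod p) = 0 := (ZMod.natCast_eq_zero_iff _ _).2 hpj
  have h2 : 2 ≤ j ^ 2 := by nlinarith
  rw [Nat.cast_sub h2] at h1
  push_cast at h1
  rw [← pow_two]
  exact (sub_eq_zero.1 h1).symm

end

end Pool.Agent.Lib.MP_0b748d_nt.MR
end

section

set_option autoImplicit false

/-!
# From odd negative pairs to even pairs of both signs
-/

namespace Pool.Agent.Lib.MP_0b748d_nt.MR

open Zsqrtd

noncomputable section

lemma EvenOddA_mem {D N c : ℕ} {g : ℕ → ℤ} {s : ℤ} {x : ℕ × ℕ} :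
    x ∈ BP D N c g s ↔ ((2 ≤ x.1 ∧ x.1 ≤ N) ∧ 1 ≤ x.2 ∧ x.2 ≤ D * N) ∧ x.1 % 2 = c ∧
      x.2 ∣ x.1 ^ 2 - 2 ∧ x.1 ≤ D * x.2 ∧ x.2 ≤ D * x.1 ∧ g (x.1 ^ 2 - 2) = s := by
  classical
  simp only [BP, Finset.mem_filter, Finset.mem_product, Finset.mem_Icc]

/-- the complementary divisor and its properties -/
lemma EvenOddA_compl {D M : ℕ} {g : ℕ → ℤ} {x : ℕ × ℕ}
    (hx : x ∈ BP D M 1 g (-1)) : 3 ≤ x.1 ∧ 1 ≤ x.2 ∧ 1 ≤ (x.1 ^ 2 - 2) / x.2 ∧
      x.2 * ((x.1 ^ 2 - 2) / x.2) + 2 = x.1 ^ 2 ∧ x.2 % 2 = 1 ∧ ((x.1 ^ 2 - 2) / x.2) % 2 = 1 ∧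
      x.1 ≤ D * x.2 ∧ x.2 ≤ D * x.1 ∧ x.1 ≤ D * ((x.1 ^ 2 - 2) / x.2) ∧
      (x.1 ^ 2 - 2) / x.2 ≤ D * x.1 ∧ x.1 % 2 = 1 ∧ x.1 ≤ M := by
  obtain ⟨n, d⟩ := x
  rw [EvenOddA_mem] at hx
  simp only at hx ⊢
  obtain ⟨⟨⟨h1, h2⟩, h3, h4⟩, h5, ⟨e, he⟩, h7, h8, h9⟩ := hx
  have hn3 : 3 ≤ n := by omega
  have hn9 : 9 ≤ n ^ 2 := by nlinarith
  have hdiv : (n ^ 2 - 2) / d = e := by
    rw [he]
    exact Nat.mul_div_cancel_left e (by omega)
  rw [hdiv]
  have hde : d * e + 2 = n ^ 2 := by omega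
  have he1 : 1 ≤ e := by
    rcases Nat.eq_zero_or_pos e with h | h
    · rw [h] at hde
      omega
    · exact h
  have hodd : (d * e) % 2 = 1 := by
    have h10 : (n ^ 2) % 2 = 1 := by
      rw [Nat.pow_mod, h5]
    omega
  have hd2 : d % 2 = 1 := by
    rcases Nat.mod_two_eq_zero_or_one d with h | h
    · rw [Nat.mul_mod, h] at hodd
      simp at hodd
    · exact h
  have he2 : e % 2 = 1 := by
    rcases Nat.mod_two_eq_zero_or_one e with h | h
    · rw [Nat.mul_mod, h] at hodd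
      simp at hodd
    · exact h
  have heD : n ≤ D * e := by
    by_contra hcon
    push Not at hcon
    have h11 : d * e ≤ (D * n) * e := Nat.mul_le_mul_right e h8
    have h12 : n * (D * e + 1) ≤ n * n := Nat.mul_le_mul_left n hcon
    nlinarith
  have heD2 : e ≤ D * n := by
    by_contra hcon
    push Not at hcon
    have h11 : n * n ≤ (D * d) * n := Nat.mul_le_mul_right n h7
    have h12 : d * (D * n + 1) ≤ d * e := Nat.mul_le_mul_left d hcon
    nlinarith
  exact ⟨hn3, h3, he1, hde, hd2, he2, h7, h8, heD, heD2, h5, h2⟩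

/-- the new pair belongs to the target set -/
lemma EvenOddA_new {D N n d e : ℕ} {g : ℕ → ℤ} {s : ℤ}
    (hn3 : 3 ≤ n) (hd : 1 ≤ d) (hde : d * e + 2 = n ^ 2) (hn : n % 2 = 1)
    (hd2 : d % 2 = 1) (h1 : n ≤ D * d) (h2 : d ≤ D * n) (hM : n ≤ N / (D + 1))
    (hg : g ((n + d) ^ 2 - 2) = s) : (n + d, d) ∈ BP (2 * D + 1) N 0 g s := by
  rw [EvenOddA_mem]
  simp only
  have hN : (D + 1) * n ≤ N := by
    have := Nat.mul_le_mul_left (D + 1) hM
    exact this.trans (Nat.mul_div_le N (D + 1))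
  have hnd : n + d ≤ N := by nlinarith
  have hsq : (n + d) ^ 2 = d * (e + 2 * n + d) + 2 := by
    have : (n + d) ^ 2 = n ^ 2 + 2 * n * d + d ^ 2 := by ring
    rw [this, ← hde]
    ring
  refine ⟨⟨⟨by omega, hnd⟩, hd, ?_⟩, by omega, ?_, ?_, ?_, hg⟩
  · calc d ≤ N := by omega
      _ ≤ (2 * D + 1) * N := Nat.le_mul_of_pos_left N (by omega)
  · rw [hsq, Nat.add_sub_cancel]
    exact Dvd.intro _ rfl
  · nlinarith
  · nlinarith [Nat.zero_le (D * n), Nat.zero_le (D * d)]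

/-- Proof. Let `M = N/(D+1)` (natural division) and `(n, d) ∈ BP D M 1 g (-1)`, `e = (n²-2)/d`;
`d, e` are odd and `d e = n² - 2`, `e ≤ D n` (as `n ≤ D d`: `e < n²/d ≤ D n`). Then
`(n+d)² - 2 = d (e + 2n + d)`, `(n+e)² - 2 = e (d + 2n + e)`. Hence
`g((n+d)²-2) g((n+e)²-2) = g(d) g(e) g(d+2n+e)² = g(d e) = g(n²-2) = -1`, so exactly one of the
values equals `s`. If it is the first, use the pair `(n+d, d)`; otherwise `(n+e, e)`. Both first
coordinates are even and `≤ (D+1) n ≤ N`; `d ≤ n + d`, `n + d ≤ (D+1) d`; `e ≤ n + e`. For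
`n + e ≤ D' e` note `d e = n² - 2`, `d ≤ D n`, so `n² - 2 ≤ D n e` and `n ≤ D e + 1 ≤ 2 D e`
(`n ≥ 3` odd... `2/n < 1`); `D' = 2D + 1`. The map from pairs with
the first alternative, `(n, d) ↦ (n+d, d)`, is injective; the map `(n, d) ↦ (n+e, e)` is
injective (`n` and `e` determine `d`). So `#BP (2D+1) N 0 g s ≥ (1/2) #BP D M 1 g (-1)`. -/
theorem even_of_odd (D N : ℕ) (hD : 1 ≤ D) (g : ℕ → ℤ) (hg : CM g) (s : ℤ)
    (hs : s = 1 ∨ s = -1) :
    ((BP D (N / (D + 1)) 1 g (-1)).card : ℝ) ≤ 2 * (BP (2 * D + 1) N 0 g s).card := by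
  classical
  set S := BP D (N / (D + 1)) 1 g (-1) with hS
  set T := BP (2 * D + 1) N 0 g s with hT
  set E : ℕ × ℕ → ℕ := fun x => (x.1 ^ 2 - 2) / x.2 with hE
  set S1 := S.filter (fun x => g ((x.1 + x.2) ^ 2 - 2) = s) with hS1
  set S2 := S.filter (fun x => g ((x.1 + E x) ^ 2 - 2) = s) with hS2
  have hcover : S ⊆ S1 ∪ S2 := by
    intro x hx
    have hx' := hx
    rw [hS] at hx
    obtain ⟨hn3, hd, he, hde, hd2, he2, -, -, -, -, hn, -⟩ := EvenOddA_compl hx
    have hgx : g (x.1 ^ 2 - 2) = -1 := ((EvenOddA_mem.1 hx).2.2.2.2.2)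
    obtain ⟨n, d⟩ := x
    simp only at hn3 hd he hde hd2 he2 hn hgx
    rw [Finset.mem_union, hS1, hS2, Finset.mem_filter, Finset.mem_filter]
    simp only [hE]
    generalize hedef : (n ^ 2 - 2) / d = e at he hde he2
    have hsq1 : (n + d) ^ 2 - 2 = d * (e + 2 * n + d) := by
      have : (n + d) ^ 2 = d * (e + 2 * n + d) + 2 := by
        have : (n + d) ^ 2 = n ^ 2 + 2 * n * d + d ^ 2 := by ring
        rw [this, ← hde]
        ring
      omega
    have hsq2 : (n + e) ^ 2 - 2 = e * (e + 2 * n + d) := by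
      have : (n + e) ^ 2 = e * (e + 2 * n + d) + 2 := by
        have : (n + e) ^ 2 = n ^ 2 + 2 * n * e + e ^ 2 := by ring
        rw [this, ← hde]
        ring
      omega
    have hsq0 : n ^ 2 - 2 = d * e := by omega
    rw [hsq0, hg.mul d e (by omega) (by omega)] at hgx
    have hv := hg.val (e + 2 * n + d) (by omega)
    have hvd := hg.val d (by omega)
    have hve := hg.val e (by omega)
    have hA : g ((n + d) ^ 2 - 2) = g d * g (e + 2 * n + d) := by
      rw [hsq1, hg.mul _ _ (by omega) (by omega)]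
    have hB : g ((n + e) ^ 2 - 2) = g e * g (e + 2 * n + d) := by
      rw [hsq2, hg.mul _ _ (by omega) (by omega)]
    rw [hA, hB]
    have key : g d * g (e + 2 * n + d) = s ∨ g e * g (e + 2 * n + d) = s := by
      clear hA hB hx hx' hT hS hS1 hS2
      generalize g d = A at *
      generalize g e = B at *
      generalize g (e + 2 * n + d) = C at *
      rcases hv with rfl | rfl <;> rcases hvd with rfl | rfl <;> rcases hve with rfl | rfl <;>
        rcases hs with h | h <;> rw [h] <;> omega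
    rcases key with h | h
    · left; exact ⟨hx', h⟩
    · right; exact ⟨hx', h⟩
  have h1 : S1.card ≤ T.card := by
    apply Finset.card_le_card_of_injOn (fun x => (x.1 + x.2, x.2))
    · intro x hx
      rw [Finset.mem_coe, hS1, Finset.mem_filter, hS] at hx
      obtain ⟨hn3, hd, he, hde, hd2, he2, h7, h8, h9, h10, hn, hM⟩ := EvenOddA_compl hx.1
      exact EvenOddA_new hn3 hd hde hn hd2 h7 h8 hM hx.2
    · intro x _ y _ hxy
      simp only [Prod.mk.injEq] at hxy
      ext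
      · omega
      · exact hxy.2
  have h2 : S2.card ≤ T.card := by
    apply Finset.card_le_card_of_injOn (fun x => (x.1 + E x, E x))
    · intro x hx
      rw [Finset.mem_coe, hS2, Finset.mem_filter, hS] at hx
      obtain ⟨hn3, hd, he, hde, hd2, he2, h7, h8, h9, h10, hn, hM⟩ := EvenOddA_compl hx.1
      refine EvenOddA_new (e := x.2) hn3 he ?_ hn he2 h9 h10 hM hx.2
      rw [mul_comm]
      exact hde
    · intro x hx y hy hxy
      rw [Finset.mem_coe, hS2, Finset.mem_filter, hS] at hx hy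
      obtain ⟨-, -, hex, hdex, -⟩ := EvenOddA_compl hx.1
      obtain ⟨-, -, hey, hdey, -⟩ := EvenOddA_compl hy.1
      simp only [Prod.mk.injEq] at hxy
      obtain ⟨hxy1, hxy2⟩ := hxy
      have hxy3 : x.1 = y.1 := by omega
      have hxE : (x.1 ^ 2 - 2) / x.2 = E x := rfl
      have hyE : (y.1 ^ 2 - 2) / y.2 = E y := rfl
      rw [hxE] at hdex hex
      rw [hyE, ← hxy2, ← hxy3] at hdey
      have h4 : x.2 * E x = y.2 * E x := by omega
      have h5 : x.2 = y.2 := Nat.eq_of_mul_eq_mul_right (by omega) h4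
      ext
      · exact hxy3
      · exact h5
  have h3 : S.card ≤ S1.card + S2.card :=
    (Finset.card_le_card hcover).trans (Finset.card_union_le _ _)
  have h4 : S.card ≤ 2 * T.card := by omega
  exact_mod_cast h4

end

end Pool.Agent.Lib.MP_0b748d_nt.MR
end

section

set_option autoImplicit false

/-!
# Directions inside a balanced edge
-/

namespace Pool.Agent.Lib.MP_0b748d_nt.MR

open Zsqrtd MeasureTheory

noncomputable section

/-- the direction `φ` and `φ + h` lie inside the cone of an edge of size between `K` and `K/ε`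
with endpoints of norm at least `ε K` -/
def GoodDir (K : ℕ) (ε h φ : ℝ) : Prop := ∃ a b : ℤ√2, TP a ∧ TP b ∧ det a b = 1 ∧ th a < φ ∧
  φ + h < th b ∧ (K : ℤ) < B a b ∧ ε * K ≤ nm a ∧ ε * K ≤ nm b

private lemma bad_case {K : ℕ} {ε h φ : ℝ} (hK : 2 ≤ K) (hε : 0 < ε) (hε2 : ε ≤ 1 / 2)
    (hh : 0 < h) (hbad : ¬ GoodDir K ε h φ) {a b x y : ℤ√2} {M : ℤ} (ha : TP a) (hb : TP b)
    (hx : TP x) (hy : TP y) (hdet : det a b = 1) (h1 : th a ≤ φ) (h2 : φ ≤ th b)
    (hKB : (K : ℤ) < B a b) (hM2 : 2 ≤ M) (hMK : M ≤ K) (hBM : B a b = nm x + M)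
    (hxa : nm x ≤ nm a) (hxb : nm x ≤ nm b) (hxy : nm x * nm y = M ^ 2 - 2)
    (hφx : |φ - th x| ≤ th b - th a) (hφy : |φ - th y| ≤ 5 / (M : ℝ)) (ta : |th a| ≤ 5)
    (tb : |th b| ≤ 5) (tx : |th x| ≤ 5) (ty : |th y| ≤ 5) :
    (∃ z ∈ AA (ε * K), |φ - th z| ≤ 5 / (K : ℝ)) ∨
    (∃ z ∈ AA (2 * ε * K), |φ - th z| ≤ 5 * √(2 * ε) / √(K * nm z)) ∨
    (∃ z ∈ AA (K / ε ^ 3), |φ - th z| ≤ h) := by
  have hKR : (2 : ℝ) ≤ K := by exact_mod_cast hK
  have hK0 : (0 : ℝ) < K := by linarith only [hKR]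
  have hM2R : (2 : ℝ) ≤ M := by exact_mod_cast hM2
  have hMKR : (M : ℝ) ≤ K := by exact_mod_cast hMK
  have hM0 : (0 : ℝ) < M := by linarith
  have hx0 : (0 : ℝ) < nm x := by exact_mod_cast hx.nm_pos
  have hy0 : (0 : ℝ) < nm y := by exact_mod_cast hy.nm_pos
  have ha0 : (0 : ℝ) < nm a := by exact_mod_cast ha.nm_pos
  have hb0 : (0 : ℝ) < nm b := by exact_mod_cast hb.nm_pos
  have hxyR : (nm x : ℝ) * nm y = (M : ℝ) ^ 2 - 2 := by exact_mod_cast hxy
  have hBMR : (B a b : ℝ) = nm x + M := by exact_mod_cast hBM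
  have hKBR : (K : ℝ) < B a b := by exact_mod_cast hKB
  have hxaR : (nm x : ℝ) ≤ nm a := by exact_mod_cast hxa
  have hxbR : (nm x : ℝ) ≤ nm b := by exact_mod_cast hxb
  by_cases c1 : (nm x : ℝ) < ε * K
  · left
    refine ⟨x, mem_AA.2 ⟨hx, c1.le, tx⟩, hφx.trans ((edge_len_le ha hb hdet).trans ?_)⟩
    exact div_le_div_of_nonneg_left (by norm_num) hK0 hKBR.le
  · by_cases c2 : (K : ℝ) / ε - K < nm x
    · right; left
      have h3 : (K : ℝ) ≤ 2 * ε * nm x := by
        have h4 : (K : ℝ) / ε * ε = K := div_mul_cancel₀ _ hε.ne'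
        have h5 : ((K : ℝ) / ε - K) * ε < nm x * ε := mul_lt_mul_of_pos_right c2 hε
        have h6 : ε * K ≤ 1 / 2 * K := mul_le_mul_of_nonneg_right hε2 hK0.le
        linarith only [h4, h5, h6]
      have h4 : (K : ℝ) * nm y ≤ 2 * ε * (M : ℝ) ^ 2 := by
        have h5 : (K : ℝ) * nm y ≤ 2 * ε * nm x * nm y := mul_le_mul_of_nonneg_right h3 hy0.le
        have h6 : 2 * ε * nm x * nm y = 2 * ε * ((M : ℝ) ^ 2 - 2) := by rw [← hxyR]; ring
        linarith only [hε, h5, h6]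
      refine ⟨y, mem_AA.2 ⟨hy, ?_, ty⟩, hφy.trans ?_⟩
      · have h5 : (K : ℝ) * nm y ≤ K * (2 * ε * K) := by
          have h6 : (M : ℝ) ^ 2 ≤ K ^ 2 := by gcongr
          have h7 : 2 * ε * (M : ℝ) ^ 2 ≤ 2 * ε * (K : ℝ) ^ 2 :=
            mul_le_mul_of_nonneg_left h6 (by positivity)
          linarith only [h4, h7]
        exact le_of_mul_le_mul_left h5 hK0
      · have h5 : 0 < √((K : ℝ) * nm y) := Real.sqrt_pos.2 (by positivity)
        rw [div_le_div_iff₀ hM0 h5]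
        have h6 : √((K : ℝ) * nm y) ≤ √(2 * ε) * M := by
          have h7 : √(2 * ε) * (M : ℝ) = √(2 * ε * (M : ℝ) ^ 2) := by
            rw [Real.sqrt_mul (show (0 : ℝ) ≤ 2 * ε by positivity) ((M : ℝ) ^ 2),
            Real.sqrt_sq hM0.le]
          rw [h7]
          exact Real.sqrt_le_sqrt h4
        linarith only [h6]
    · right; right
      push Not at c1 c2
      have hnn : (nm a : ℝ) * nm b ≤ (B a b : ℝ) ^ 2 := by
        have h3 := B_sq a b
        rw [hdet] at h3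
        have h4 : (nm a : ℝ) * nm b = (B a b : ℝ) ^ 2 - 2 * 1 ^ 2 := by exact_mod_cast h3
        rw [h4]; linarith
      have hBe : (B a b : ℝ) * ε ≤ K := by
        have h4 : (K : ℝ) / ε * ε = K := div_mul_cancel₀ _ hε.ne'
        have h5 : (B a b : ℝ) ≤ K / ε := by linarith
        calc (B a b : ℝ) * ε ≤ K / ε * ε := mul_le_mul_of_nonneg_right h5 hε.le
          _ = K := h4
      have hB0 : (0 : ℝ) < B a b := hK0.trans hKBR
      have hB2 : ((B a b : ℝ) * ε) ^ 2 ≤ (K : ℝ) ^ 2 := by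
        have : 0 ≤ (B a b : ℝ) * ε := by positivity
        gcongr
      have key : ∀ u v : ℝ, 0 < u → 0 < v → u * v ≤ (B a b : ℝ) ^ 2 → ε * K ≤ v →
          u ≤ K / ε ^ 3 := by
        intro u v hu hv huv hv2
        rw [le_div_iff₀ (by positivity)]
        have h3 : u * (ε * K) ≤ (B a b : ℝ) ^ 2 :=
          (mul_le_mul_of_nonneg_left hv2 hu.le).trans huv
        have h4 : u * (ε * K) * ε ^ 2 ≤ (B a b : ℝ) ^ 2 * ε ^ 2 :=
          mul_le_mul_of_nonneg_right h3 (by positivity)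
        have h5 : u * ε ^ 3 * K ≤ K * K := by
          calc u * ε ^ 3 * K = u * (ε * K) * ε ^ 2 := by ring
            _ ≤ (B a b : ℝ) ^ 2 * ε ^ 2 := h4
            _ = ((B a b : ℝ) * ε) ^ 2 := by ring
            _ ≤ (K : ℝ) ^ 2 := hB2
            _ = K * K := by ring
        exact le_of_mul_le_mul_right h5 hK0
      have hna : (nm a : ℝ) ≤ K / ε ^ 3 := key _ _ ha0 hb0 hnn (c1.trans hxbR)
      have hnb : (nm b : ℝ) ≤ K / ε ^ 3 :=
        key _ _ hb0 ha0 (by rw [mul_comm]; exact hnn) (c1.trans hxaR)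
      by_cases g1 : th a < φ
      · by_cases g2 : φ + h < th b
        · exact absurd ⟨a, b, ha, hb, hdet, g1, g2, hKB, c1.trans hxaR, c1.trans hxbR⟩ hbad
        · push Not at g2
          refine ⟨b, mem_AA.2 ⟨hb, hnb, tb⟩, ?_⟩
          rw [abs_le]
          constructor <;> linarith
      · push Not at g1
        refine ⟨a, mem_AA.2 ⟨ha, hna, ta⟩, ?_⟩
        rw [abs_le]
        constructor <;> linarith

private lemma bad_cover {K : ℕ} {ε h φ : ℝ} (hK : 2 ≤ K) (hε : 0 < ε) (hε2 : ε ≤ 1 / 2)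
    (hh : 0 < h) (hφ0 : 0 ≤ φ) (hφ2 : φ ≤ 2) (hbad : ¬ GoodDir K ε h φ) :
    (∃ z ∈ AA (ε * K), |φ - th z| ≤ 5 / (K : ℝ)) ∨
    (∃ z ∈ AA (2 * ε * K), |φ - th z| ≤ 5 * √(2 * ε) / √(K * nm z)) ∨
    (∃ z ∈ AA (K / ε ^ 3), |φ - th z| ≤ h) := by
  obtain ⟨c, d, hc, hd, hdet, hBK, hcφ, hφd, hcase⟩ := locate K (by exact_mod_cast hK) φ
  have hB2 := B_edge_ge hc hd hdet
  have hB2R : (2 : ℝ) ≤ B c d := by exact_mod_cast hB2
  have hlen := edge_len_le hc hd hdet
  have hlen2 : 5 / (B c d : ℝ) ≤ 5 / 2 := by gcongr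
  have hda : det c (c + d) = 1 := by
    rw [← hdet]; simp only [det, re_add, im_add]; ring
  have hdb : det (c + d) d = 1 := by
    rw [← hdet]; simp only [det, re_add, im_add]; ring
  have hBa : B c (c + d) = nm c + B c d := by simp only [B, nm, re_add, im_add]; ring
  have hBb : B (c + d) d = nm d + B c d := by simp only [B, nm, re_add, im_add]; ring
  have hns : nm (c + d) = nm c + 2 * B c d + nm d := by
    simp only [B, nm, re_add, im_add]; ring
  have hnc := hc.nm_pos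
  have hnd := hd.nm_pos
  have hsq := B_sq c d
  rw [hdet] at hsq
  have tc : |th c| ≤ 5 := by rw [abs_le]; constructor <;> linarith
  have td : |th d| ≤ 5 := by rw [abs_le]; constructor <;> linarith
  rcases hcase with ⟨h5, h6⟩ | ⟨h5, h6⟩
  · have hle : th c ≤ th (c + d) := hcφ.trans h5
    have hle2 : th (c + d) ≤ th d := (th_le_iff (hc.add hd) hd).2 (by rw [hdb]; norm_num)
    refine bad_case hK hε hε2 hh hbad hc (hc.add hd) hc hd hda hcφ h5 h6 hB2 hBK hBa le_rfl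
      (by omega) (by rw [hsq]; ring) ?_ ?_ tc ?_ tc td
    · rw [abs_le]; constructor <;> linarith
    · refine le_trans ?_ hlen
      rw [abs_le]; constructor <;> linarith
    · rw [abs_le]; constructor <;> linarith only [hφ0, h5, hφ2, hcφ, hlen, hlen2, hle2]
  · have hle : th (c + d) ≤ th d := h5.trans hφd
    have hle2 : th c ≤ th (c + d) := (th_le_iff hc (hc.add hd)).2 (by rw [hda]; norm_num)
    refine bad_case hK hε hε2 hh hbad (hc.add hd) hd hd hc hdb h5 hφd h6 hB2 hBK hBb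
      (by omega) le_rfl (by rw [mul_comm, hsq]; ring) ?_ ?_ ?_ td td tc
    · rw [abs_le]; constructor <;> linarith
    · refine le_trans ?_ hlen
      rw [abs_le]; constructor <;> linarith
    · rw [abs_le]; constructor <;> linarith

/-- the measure of the bad directions.

Proof. Claim: every bad `φ ∈ [0, th uu]` lies in one of the sets
(1) `Icc (th z - 5/K) (th z + 5/K)`, `z ∈ AA (εK)`;
(2) `Icc (th d - r_d) (th d + r_d)`, `r_d = 5 √(2ε)/√(K nm d)`, `d ∈ AA (2εK)`;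
(3) `Icc (th z - h) (th z + h)`, `z ∈ AA (K/ε³)`.
The measures add up to at most `C εK (10/K) + 10 √(2ε)/√K · C √(2εK) + C (K/ε³) 2h`
(`AA_card`, `AA_sum`), which is `≤ C' (ε + h K/ε³)`.
Proof of the claim. `locate K φ` (`Cover.lean`) gives an edge `(c, d)`, `B c d ≤ K`,
`th c ≤ φ ≤ th d` and (case A) `φ ≤ th (c+d)`, `K < B c (c+d)`, or (case B) `th (c+d) ≤ φ`,
`K < B (c+d) d`. Since `th d - th c ≤ 5/B c d ≤ 5/2` all these angles are `≤ 5` in absolute value.
Case A: let `a = c`, `b = c + d`, `B a b = nm c + B c d`, `nm b = nm c + 2 B c d + nm d ≥ nm c`.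
* `nm c < εK`: `|φ - th c| ≤ th b - th a ≤ 5/B a b ≤ 5/K`: (1) with `z = c`.
* `nm c > K/ε - K` (`≥ K/(2ε)` as `ε ≤ 1/2`): `nm c * nm d = (B c d)² - 2 < K²`, so
`nm d < 2εK`; `|φ - th d| ≤ 5/B c d` and `(B c d)² > nm c nm d ≥ K nm d/(2ε)`: (2).
* otherwise `nm a, nm b ≥ εK`, `K < B a b ≤ K/ε`, `nm a * nm b = (B a b)² - 2 ≤ K²/ε²`, so
`nm a, nm b ≤ K/ε³`. If `th a < φ` and `φ + h < th b`, `φ` is good. Otherwise `φ = th a` or
`th b - h ≤ φ ≤ th b`: (3).
Case B is symmetric (`a = c + d`, `b = d`). -/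
theorem bad_dirs : ∃ C : ℝ, 1 ≤ C ∧ ∀ (K : ℕ) (ε h : ℝ), 2 ≤ K → 0 < ε → ε ≤ 1 / 2 → 0 < h →
    h ≤ 1 → volume {φ : ℝ | φ ∈ Set.Icc (0 : ℝ) (th uu) ∧ ¬ GoodDir K ε h φ} ≤
      ENNReal.ofReal (C * (ε + h * K / ε ^ 3)) := by
  obtain ⟨C1, hC1, hAc⟩ := AA_card
  obtain ⟨C2, hC2, hAs⟩ := AA_sum
  refine ⟨10 * C1 + 20 * C2, by linarith, ?_⟩
  intro K ε h hK hε hε2 hh _
  have hKR : (2 : ℝ) ≤ K := by exact_mod_cast hK
  have hK0 : (0 : ℝ) < K := by linarith
  have hsub : {φ : ℝ | φ ∈ Set.Icc (0 : ℝ) (th uu) ∧ ¬ GoodDir K ε h φ} ⊆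
      (⋃ z ∈ AA (ε * K), Set.Icc (th z - 5 / (K : ℝ)) (th z + 5 / (K : ℝ))) ∪
      ((⋃ z ∈ AA (2 * ε * K), Set.Icc (th z - 5 * √(2 * ε) / √(K * nm z))
        (th z + 5 * √(2 * ε) / √(K * nm z))) ∪
      (⋃ z ∈ AA (K / ε ^ 3), Set.Icc (th z - h) (th z + h))) := by
    rintro φ ⟨hφ, hbad⟩
    have hu := th_uu_bounds.2
    rcases bad_cover hK hε hε2 hh hφ.1 (hφ.2.trans hu) hbad with ⟨z, hz, h1⟩ | ⟨z, hz, h1⟩ |
      ⟨z, hz, h1⟩
    · left
      simp only [Set.mem_iUnion]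
      rw [abs_le] at h1
      exact ⟨z, hz, by constructor <;> linarith only [h1.1, h1.2]⟩
    · right; left
      simp only [Set.mem_iUnion]
      rw [abs_le] at h1
      exact ⟨z, hz, by constructor <;> linarith [h1.1, h1.2]⟩
    · right; right
      simp only [Set.mem_iUnion]
      rw [abs_le] at h1
      exact ⟨z, hz, by constructor <;> linarith [h1.1, h1.2]⟩
  have hm1 : volume (⋃ z ∈ AA (ε * K), Set.Icc (th z - 5 / (K : ℝ)) (th z + 5 / (K : ℝ))) ≤
      ENNReal.ofReal (10 * C1 * ε) := by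
    refine (vol_biUnion_le _ _ (2 * (5 / (K : ℝ))) (fun z _ => vol_Icc _ _)).trans ?_
    apply ENNReal.ofReal_le_ofReal
    calc ((AA (ε * K)).card : ℝ) * (2 * (5 / (K : ℝ)))
        ≤ C1 * (ε * K) * (2 * (5 / (K : ℝ))) :=
          mul_le_mul_of_nonneg_right (hAc _ (by positivity)) (by positivity)
      _ = 10 * C1 * ε := by field_simp; ring
  have hm2 : volume (⋃ z ∈ AA (2 * ε * K), Set.Icc (th z - 5 * √(2 * ε) / √(K * nm z))
        (th z + 5 * √(2 * ε) / √(K * nm z))) ≤ ENNReal.ofReal (20 * C2 * ε) := by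
    refine (measure_biUnion_finset_le _ _).trans ?_
    refine (Finset.sum_le_sum (fun z _ => vol_Icc (th z) (5 * √(2 * ε) / √(K * nm z)))).trans ?_
    rw [← ENNReal.ofReal_sum_of_nonneg (fun z _ => by positivity)]
    apply ENNReal.ofReal_le_ofReal
    have h1 : ∀ z : ℤ√2, 2 * (5 * √(2 * ε) / √((K : ℝ) * nm z)) =
        10 * √(2 * ε) / √(K : ℝ) * (1 / √(nm z : ℝ)) := by
      intro z
      rw [Real.sqrt_mul hK0.le]
      rcases eq_or_ne (√(nm z : ℝ)) 0 with h0 | h0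
      · rw [h0]; simp
      · have h2 : √(K : ℝ) ≠ 0 := (Real.sqrt_pos.2 hK0).ne'
        field_simp
        ring
    rw [Finset.sum_congr rfl (fun z _ => h1 z), ← Finset.mul_sum]
    have h2 : √(2 * ε * K) = √(2 * ε) * √(K : ℝ) := Real.sqrt_mul (by positivity) _
    have h3 : √(2 * ε) * √(2 * ε) = 2 * ε := Real.mul_self_sqrt (by positivity)
    have h4 : 0 < √(K : ℝ) := Real.sqrt_pos.2 hK0
    calc 10 * √(2 * ε) / √(K : ℝ) * ∑ z ∈ AA (2 * ε * K), 1 / √(nm z : ℝ)
        ≤ 10 * √(2 * ε) / √(K : ℝ) * (C2 * √(2 * ε * K)) :=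
          mul_le_mul_of_nonneg_left (hAs _ (by positivity)) (by positivity)
      _ = 10 * C2 * (√(2 * ε) * √(2 * ε)) := by rw [h2]; field_simp
      _ = 20 * C2 * ε := by rw [h3]; ring
  have hm3 : volume (⋃ z ∈ AA (K / ε ^ 3), Set.Icc (th z - h) (th z + h)) ≤
      ENNReal.ofReal (2 * C1 * (h * K / ε ^ 3)) := by
    refine (vol_biUnion_le _ _ (2 * h) (fun z _ => vol_Icc _ _)).trans ?_
    apply ENNReal.ofReal_le_ofReal
    calc ((AA (K / ε ^ 3)).card : ℝ) * (2 * h)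
        ≤ C1 * (K / ε ^ 3) * (2 * h) :=
          mul_le_mul_of_nonneg_right (hAc _ (by positivity)) (by positivity)
      _ = 2 * C1 * (h * K / ε ^ 3) := by ring
  refine (measure_mono hsub).trans ((measure_union_le _ _).trans ?_)
  refine (add_le_add hm1 ((measure_union_le _ _).trans (add_le_add hm2 hm3))).trans ?_
  have hC10 : 0 ≤ C1 := by linarith
  have hC20 : 0 ≤ C2 := by linarith
  rw [← ENNReal.ofReal_add (by positivity) (by positivity),
    ← ENNReal.ofReal_add (by positivity) (by positivity)]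
  apply ENNReal.ofReal_le_ofReal
  have h5 : 0 ≤ h * K / ε ^ 3 := by positivity
  linarith only [mul_nonneg hC10 h5, mul_nonneg hC20 h5]

end

end Pool.Agent.Lib.MP_0b748d_nt.MR
end

section

set_option autoImplicit false

/-!
# The almost constant case
-/

namespace Pool.Agent.Lib.MP_0b748d_nt.MR

open Zsqrtd

noncomputable section

/-- the even neighbour.

Proof. Bezout: `det w y0 = 1` for some `y0` (`w` primitive). `det w (y0 + t w) = 1`,
`B w (y0 + t w) = B w y0 + t d`, `d = nm w` odd. Among the two consecutive `t` for which this number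
lies in `[2d, 4d)` exactly one gives an even number `n`; let `y = y0 + t w`. `nm y = (n²-2)/d > 0`
(`B_sq`, `n ≥ 2d ≥ 2`) and `B w y = n > 0`, so `y` is totally positive (`TP_of_B` in `Plus.lean`).
`n = w.re * y.re - 2(...)` even and `w.re` odd give `y.re` even, `y = ⟨2,1⟩ * y'` with
`y' = ⟨y.re - y.im, y.im - y.re/2⟩` (as `⟨2,1⟩ * ⟨a, b⟩ = ⟨2a + 2b, a + 2b⟩`); `nm y = 2 nm y'`,
`y'` is totally positive, primitive (`Prim_of_det` for `y`, a common divisor of `y'` divides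
`y`), and `nm y' = (n² - 2)/(2d)` is odd as `n² - 2 ≡ 2 mod 4`, so `y'.re` is odd. Size:
`nm y' ≥ (4d² - 2)/(2d) ≥ 2d - 1 ≥ d`, `nm y' < 16d²/(2d) = 8d`. -/
theorem even_nbr (w : ℤ√2) (hw : OT w) (pw : Prim w) : ∃ y : ℤ√2, OT y ∧ Prim y ∧
    det w (⟨2, 1⟩ * y) = 1 ∧ B w (⟨2, 1⟩ * y) % 2 = 0 ∧ 2 * nm w ≤ B w (⟨2, 1⟩ * y) ∧
    B w (⟨2, 1⟩ * y) < 4 * nm w ∧ nm w ≤ nm y ∧ nm y < 8 * nm w := by
  obtain ⟨a, b, hab⟩ := pw
  obtain ⟨hwT, hwo⟩ := hw
  have hd : 0 < nm w := hwT.nm_pos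
  have hdo : nm w % 2 = 1 := by
    have h1 : nm w = w.re * w.re - 2 * (w.im * w.im) := by simp only [nm]; ring
    have h2 : (w.re * w.re) % 2 = 1 := by rw [Int.mul_emod, hwo]; rfl
    omega
  -- the good translate
  obtain ⟨t, n, hn, hn2, hn3, hn4⟩ : ∃ t n : ℤ, n = B w ⟨-b, a⟩ + t * nm w ∧ n % 2 = 0 ∧
      2 * nm w ≤ n ∧ n < 4 * nm w := by
    have hr0 : 0 ≤ B w ⟨-b, a⟩ % nm w := Int.emod_nonneg _ (by omega)
    have hr1 : B w ⟨-b, a⟩ % nm w < nm w := Int.emod_lt_of_pos _ hd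
    have hqr : nm w * (B w ⟨-b, a⟩ / nm w) + B w ⟨-b, a⟩ % nm w = B w ⟨-b, a⟩ :=
      Int.mul_ediv_add_emod _ _
    set q := B w ⟨-b, a⟩ / nm w
    set r := B w ⟨-b, a⟩ % nm w
    by_cases h : r % 2 = 0
    · refine ⟨2 - q, r + 2 * nm w, ?_, ?_, ?_, ?_⟩
      · rw [← hqr]; ring
      · omega
      · omega
      · omega
    · refine ⟨3 - q, r + 3 * nm w, ?_, ?_, ?_, ?_⟩
      · rw [← hqr]; ring
      · omega
      · omega
      · omega
  -- the neighbour
  obtain ⟨y, hy1, hy2⟩ : ∃ y : ℤ√2, det w y = 1 ∧ B w y = n := by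
    refine ⟨⟨-b + t * w.re, a + t * w.im⟩, ?_, ?_⟩
    · simp only [det]; linear_combination hab
    · rw [hn]; simp only [B, nm]; ring
  have hB := B_sq w y
  rw [hy1, hy2] at hB
  have hy0 : 0 < nm y := by
    by_contra hc
    push Not at hc
    nlinarith
  have hBs : B y w = n := by rw [← hy2]; simp only [B]; ring
  have hyT : TP y := TP_of_B hwT (by rw [hBs]; omega) hy0
  have hyP : Prim y := Prim_of_det hy1
  have hyre : y.re % 2 = 0 := by
    have h1 : n = w.re * y.re - 2 * (w.im * y.im) := by rw [← hy2]; simp only [B]; ring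
    have h2 : (w.re * y.re) % 2 = 0 := by omega
    rw [Int.mul_emod, hwo] at h2
    omega
  obtain ⟨k, hk⟩ : ∃ k, y.re = 2 * k := ⟨y.re / 2, by omega⟩
  set y' : ℤ√2 := ⟨y.re - y.im, y.im - k⟩ with hy'
  have e : (⟨2, 1⟩ : ℤ√2) * y' = y := by
    apply Zsqrtd.ext
    · simp only [re_mul, hy']; linear_combination hk
    · simp only [im_mul, hy']; linear_combination hk
  have hnm : nm y = 2 * nm y' := by
    rw [← e, nm_mul]
    simp only [nm]
    ring
  have hs1 : s1 y = (2 + √2) * s1 y' := by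
    rw [← e, s1_mul]; simp only [s1]; push_cast; ring
  have hs2 : s2 y = (2 - √2) * s2 y' := by
    rw [← e, s2_mul]; simp only [s2]; push_cast; ring
  have hq1 := lt_sqrt2
  have hq2 := sqrt2_lt
  have hyT' : TP y' := by
    refine ⟨?_, ?_⟩
    · have h := hyT.1
      rw [hs1] at h
      exact (mul_pos_iff_of_pos_left (by linarith)).1 h
    · have h := hyT.2
      rw [hs2] at h
      exact (mul_pos_iff_of_pos_left (by linarith)).1 h
  have hodd : nm y' % 2 = 1 := by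
    rw [hnm] at hB
    obtain ⟨m, hm⟩ : ∃ m, n = 2 * m := ⟨n / 2, by omega⟩
    have h1 : nm w * nm y' = 2 * (m * m) - 1 := by
      rw [hm] at hB
      linarith [hB]
    have h2 : (nm w * nm y') % 2 = 1 := by omega
    rw [Int.mul_emod, hdo] at h2
    omega
  refine ⟨y', ⟨hyT', ?_⟩, ?_, ?_, ?_, ?_, ?_, ?_, ?_⟩
  · have h1 : nm y' = y'.re * y'.re - 2 * (y'.im * y'.im) := by simp only [nm]; ring
    have h2 : (y'.re * y'.re) % 2 = 1 := by omega
    rw [Int.mul_emod] at h2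
    rcases Int.emod_two_eq_zero_or_one y'.re with h | h
    · rw [h] at h2; simp at h2
    · exact h
  · obtain ⟨u, v, huv⟩ := hyP
    refine ⟨2 * u + v, 2 * u + 2 * v, ?_⟩
    simp only [hy']
    linear_combination huv + (u + v) * hk
  · rw [e]; exact hy1
  · rw [e, hy2]; exact hn2
  · rw [e, hy2]; exact hn3
  · rw [e, hy2]; exact hn4
  · by_contra hc
    push Not at hc
    rw [hnm] at hB
    nlinarith
  · by_contra hc
    push Not at hc
    rw [hnm] at hB
    nlinarith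

/-- the even neighbour determines the element.

Proof. `det w z = det w' z = 1` gives `w - w' = t z` (`z` primitive, `det (w - w') z = 0`), so
`B w z - B w' z = t nm z`; both numbers lie in `(0, nm z]`: `nm z * nm w = (B w z)² - 2` and
`B w z ≥ 2 nm w ≥ 2` give `nm z = ((B w z)² - 2)/nm w ≥ 2 B w z - 2/nm w ≥ B w z`. So
`|t| nm z < nm z` and `t = 0`. -/
theorem nbr_inj (w w' z : ℤ√2) (hw : TP w) (hw' : TP w') (h1 : det w z = 1) (h1' : det w' z = 1)
    (h2 : 2 * nm w ≤ B w z) (h2' : 2 * nm w' ≤ B w' z) : w = w' := by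
  obtain ⟨a, b, hab⟩ := Prim_of_det h1
  have key : ∀ v : ℤ√2, TP v → det v z = 1 → 2 * nm v ≤ B v z → 0 < nm z ∧ 0 < B v z ∧
      B v z ≤ nm z := by
    intro v hv h h'
    have hp := hv.nm_pos
    have hB := B_sq v z
    rw [h] at hB
    have h3 : 2 ≤ B v z := by omega
    have h4 : 0 < nm z := by
      by_contra hc
      push Not at hc
      nlinarith
    refine ⟨h4, by omega, ?_⟩
    by_contra hc
    push Not at hc
    have h5 : nm z + 1 ≤ B v z := hc
    nlinarith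
  obtain ⟨hz, hb1, hb2⟩ := key w hw h1 h2
  obtain ⟨-, hb1', hb2'⟩ := key w' hw' h1' h2'
  set t := a * (w.re - w'.re) + b * (w.im - w'.im) with ht
  have hdet : (w.re - w'.re) * z.im = (w.im - w'.im) * z.re := by
    simp only [det] at h1 h1'
    linarith
  have hre : w.re - w'.re = t * z.re := by
    rw [ht]; linear_combination (-(w.re - w'.re)) * hab + b * hdet
  have him : w.im - w'.im = t * z.im := by
    rw [ht]; linear_combination (-(w.im - w'.im)) * hab - a * hdet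
  have hBB : B w z - B w' z = t * nm z := by
    simp only [B, nm]
    linear_combination z.re * hre - 2 * z.im * him
  have ht0 : t = 0 := by
    by_contra hc
    rcases lt_or_gt_of_ne hc with h | h
    · have : t ≤ -1 := by omega
      nlinarith
    · have : 1 ≤ t := by omega
      nlinarith
  rw [ht0] at hre him
  apply Zsqrtd.ext
  · linarith
  · linarith

end

end Pool.Agent.Lib.MP_0b748d_nt.MR
end

section

set_option autoImplicit false

/-!
# The almost constant case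
-/

namespace Pool.Agent.Lib.MP_0b748d_nt.MR

open Zsqrtd

noncomputable section

open Classical in
private lemma ra_sum (g : ℕ → ℤ) (hg : CO g) (a b : ℝ) :
    ‖Ap (fg g) 0 a b‖ = |(((Us a b).filter (fun w => F g w = 1)).card : ℝ) -
      ((Us a b).filter (fun w => ¬ F g w = 1)).card| := by
  have h1 : Ap (fg g) 0 a b = ((((((Us a b).filter (fun w => F g w = 1)).card : ℝ) -
      ((Us a b).filter (fun w => ¬ F g w = 1)).card : ℝ)) : ℂ) := by
    unfold Ap
    rw [← Finset.sum_filter_add_sum_filter_not (Us a b) (fun w => F g w = 1)]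
    have e1 : ∑ w ∈ (Us a b).filter (fun w => F g w = 1), fg g w * xi 0 w =
        (((Us a b).filter (fun w => F g w = 1)).card : ℂ) := by
      rw [Finset.sum_congr rfl (g := fun _ => (1 : ℂ))]
      · simp
      · intro w hw
        rw [xi_zero, fg, (Finset.mem_filter.1 hw).2]
        simp
    have e2 : ∑ w ∈ (Us a b).filter (fun w => ¬ F g w = 1), fg g w * xi 0 w =
        -(((Us a b).filter (fun w => ¬ F g w = 1)).card : ℂ) := by
      rw [Finset.sum_congr rfl (g := fun _ => (-1 : ℂ))]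
      · simp
      · intro w hw
        have h2 := Finset.mem_filter.1 hw
        have h3 := F_val' hg (mem_Us.1 h2.1).1.1
        rw [xi_zero, fg, h3.resolve_left h2.2]
        simp
    rw [e1, e2]
    push_cast
    ring
  rw [h1, Complex.norm_real, Real.norm_eq_abs]

open Classical in
/-- if the hypothesis at frequency `0` fails, one sign is rare.

Proof. Let `N = #Us`, `p` and `m` the numbers of `w` with sign `1` and `-1`, `p + m = N`,
`|p - m|² > (1-c) N² ≥ (1-c)² N²`, so `|p - m| > (1-c) N` and `min(p, m) < c N/2`. -/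
theorem rare_sign (g : ℕ → ℤ) (hg : CO g) (c X : ℝ) (hc : 0 < c) (hc1 : c ≤ 1)
    (h : ¬ Hyp g c X) : ∃ s : ℤ, (s = 1 ∨ s = -1) ∧
    (((Us X (2 * X)).filter (fun w => F g w ≠ s)).card : ℝ) ≤ c * (Us X (2 * X)).card := by
  have hN : ((Us X (2 * X)).card : ℝ) = (((Us X (2 * X)).filter (fun w => F g w = 1)).card : ℝ) +
      (((Us X (2 * X)).filter (fun w => ¬ F g w = 1)).card : ℝ) := by
    exact_mod_cast (Finset.card_filter_add_card_filter_not (s := Us X (2 * X))
      (fun w => F g w = 1)).symm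
  have h2 := h
  unfold Hyp at h2
  push Not at h2
  rw [ra_sum g hg, sq_abs, hN] at h2
  have hp0 : (0 : ℝ) ≤ (((Us X (2 * X)).filter (fun w => F g w = 1)).card : ℝ) := by positivity
  have hm0 : (0 : ℝ) ≤ (((Us X (2 * X)).filter (fun w => ¬ F g w = 1)).card : ℝ) := by positivity
  have key : ∀ p m : ℝ, 0 ≤ p → 0 ≤ m → m ≤ p → (1 - c) * (p + m) ^ 2 < (p - m) ^ 2 →
      m ≤ c * (p + m) := by
    intro p m hp hm hmp h3
    by_contra hcon
    push Not at hcon
    have h4 : 2 * (p + m) * m ≤ 4 * p * m := by nlinarith only [hm, hmp]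
    have h5 : 2 * (p + m) * (c * (p + m)) ≤ 2 * (p + m) * m :=
      mul_le_mul_of_nonneg_left hcon.le (by positivity)
    linarith only [h3, h4, h5, mul_nonneg hc.le (sq_nonneg (p + m))]
  rcases le_total (((Us X (2 * X)).filter (fun w => ¬ F g w = 1)).card : ℝ)
    (((Us X (2 * X)).filter (fun w => F g w = 1)).card : ℝ) with hmp | hmp
  · refine ⟨1, Or.inl rfl, ?_⟩
    have h3 := key _ _ hp0 hm0 hmp h2
    rw [hN]
    convert h3 using 4
  · refine ⟨-1, Or.inr rfl, ?_⟩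
    have h3 := key _ _ hm0 hp0 hmp (by
      rw [add_comm (((Us X (2 * X)).filter (fun w => ¬ F g w = 1)).card : ℝ)]
      linarith only [h2])
    have h4 : (Us X (2 * X)).filter (fun w => F g w ≠ -1) =
        (Us X (2 * X)).filter (fun w => F g w = 1) := by
      apply Finset.filter_congr
      intro w hw
      have h5 := F_val' hg (mem_Us.1 hw).1.1
      constructor
      · intro h6; exact h5.resolve_right h6
      · intro h6 h7; rw [h6] at h7; norm_num at h7
    rw [h4, hN, add_comm]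
    exact h3

open Classical in
private lemma ra_overlap : ∃ X0 : ℝ, 1 ≤ X0 ∧ ∀ (c X Y : ℝ) (g : ℕ → ℤ), 0 < c → c ≤ 1 / 20 →
    X0 ≤ X → X ≤ Y → Y ≤ 3 / 2 * X → ∀ s t : ℤ,
    (((Us X (2 * X)).filter (fun w => F g w ≠ s)).card : ℝ) ≤ c * (Us X (2 * X)).card →
    (((Us Y (2 * Y)).filter (fun w => F g w ≠ t)).card : ℝ) ≤ c * (Us Y (2 * Y)).card →
    s = t := by
  obtain ⟨C, hC, hU⟩ := U_count
  obtain ⟨X1, hX1, hD⟩ := U_dyadic
  have hk := kap1_pos
  refine ⟨max X1 ((12 * C / kap1) ^ 4), hX1.trans (le_max_left _ _), ?_⟩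
  intro c X Y g hc0 hc hX hXY hYX s t hs ht
  have hXX1 : X1 ≤ X := (le_max_left _ _).trans hX
  have hX2 : (12 * C / kap1) ^ 4 ≤ X := (le_max_right _ _).trans hX
  have hXpos : 0 < X := by linarith only [hX1, hXX1]
  by_contra hst
  have hsub : Us Y (2 * X) ⊆ (Us X (2 * X)).filter (fun w => F g w ≠ s) ∪
      (Us Y (2 * Y)).filter (fun w => F g w ≠ t) := by
    intro w hw
    obtain ⟨h1, h2, h3⟩ := mem_Us.1 hw
    rw [Finset.mem_union, Finset.mem_filter, Finset.mem_filter, mem_Us, mem_Us]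
    by_cases h4 : F g w = s
    · right
      exact ⟨⟨h1, h2, by linarith⟩, by rw [h4]; exact hst⟩
    · left
      exact ⟨⟨h1, hXY.trans h2, h3⟩, h4⟩
  have hcard : ((Us Y (2 * X)).card : ℝ) ≤
      (((Us X (2 * X)).filter (fun w => F g w ≠ s)).card : ℝ) +
      (((Us Y (2 * Y)).filter (fun w => F g w ≠ t)).card : ℝ) := by
    exact_mod_cast (Finset.card_le_card hsub).trans (Finset.card_union_le _ _)
  have h1 := (hD X hXX1).2
  have h2 := (hD Y (by linarith)).2
  have h3 := (abs_le.1 (hU Y (2 * X) (by linarith) (by linarith))).1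
  have h4 : (2 * X) ^ ((3 : ℝ) / 4) ≤ 2 * X ^ ((3 : ℝ) / 4) := by
    rw [Real.mul_rpow (by norm_num) hXpos.le]
    refine mul_le_mul_of_nonneg_right ?_ (Real.rpow_nonneg hXpos.le _)
    have := Real.rpow_le_rpow_of_exponent_le (by norm_num : (1 : ℝ) ≤ 2)
      (by norm_num : (3 : ℝ) / 4 ≤ 1)
    rwa [Real.rpow_one] at this
  have h5 : 12 * C / kap1 ≤ X ^ ((1 : ℝ) / 4) := by
    have h6 : ((12 * C / kap1) ^ (4 : ℕ)) ^ ((1 : ℝ) / 4) ≤ X ^ ((1 : ℝ) / 4) :=
      Real.rpow_le_rpow (by positivity) hX2 (by norm_num)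
    rwa [← Real.rpow_natCast, ← Real.rpow_mul (by positivity), show (((4 : ℕ) : ℝ) * (1 / 4)) = 1 by
      norm_num, Real.rpow_one] at h6
  have h6 : X ^ ((1 : ℝ) / 4) * X ^ ((3 : ℝ) / 4) = X := by
    rw [← Real.rpow_add hXpos]
    norm_num
  have h7 : 0 < X ^ ((3 : ℝ) / 4) := Real.rpow_pos_of_pos hXpos _
  have h8 : 12 * C * X ^ ((3 : ℝ) / 4) ≤ kap1 * X := by
    have h9 : 12 * C / kap1 * X ^ ((3 : ℝ) / 4) ≤ X := by
      calc 12 * C / kap1 * X ^ ((3 : ℝ) / 4) ≤ X ^ ((1 : ℝ) / 4) * X ^ ((3 : ℝ) / 4) :=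
            mul_le_mul_of_nonneg_right h5 h7.le
        _ = X := h6
    calc 12 * C * X ^ ((3 : ℝ) / 4) = kap1 * (12 * C / kap1 * X ^ ((3 : ℝ) / 4)) := by
          field_simp
      _ ≤ kap1 * X := mul_le_mul_of_nonneg_left h9 hk.le
  have h9 : C * (2 * X) ^ ((3 : ℝ) / 4) ≤ C * (2 * X ^ ((3 : ℝ) / 4)) :=
    mul_le_mul_of_nonneg_left h4 hC.le
  have h10 : kap1 * (2 * X - Y) ≥ kap1 * (X / 2) :=
    mul_le_mul_of_nonneg_left (by linarith only [hYX]) hk.le
  have h11 : c * ((Us X (2 * X)).card : ℝ) ≤ 1 / 20 * (2 * kap1 * X) :=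
    mul_le_mul hc h1 (by positivity) (by norm_num)
  have h12 : c * ((Us Y (2 * Y)).card : ℝ) ≤ 1 / 20 * (2 * kap1 * Y) :=
    mul_le_mul hc h2 (by positivity) (by norm_num)
  have h13 : kap1 * Y ≤ kap1 * (3 / 2 * X) := mul_le_mul_of_nonneg_left hYX hk.le
  have h14 : 0 < kap1 * X := by positivity
  linarith only [hs, ht, hcard, h3, h8, h9, h11, h12, h13, h14]

open Classical in
private lemma ra_piece (g : ℕ → ℤ) (s : ℤ) (a b : ℝ) (hab : a ≤ b) (e : ℝ) (k : ℝ)
    (h1 : (((Us a (2 * a)).filter (fun w => F g w ≠ s)).card : ℝ) ≤ e)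
    (h2 : (((Us (2 * a) b).filter (fun w => F g w ≠ s)).card : ℝ) ≤ k) :
    (((Us a b).filter (fun w => F g w ≠ s)).card : ℝ) ≤ e + k := by
  have hsub : (Us a b).filter (fun w => F g w ≠ s) ⊆
      (Us a (2 * a)).filter (fun w => F g w ≠ s) ∪ (Us (2 * a) b).filter (fun w => F g w ≠ s) := by
    intro w hw
    obtain ⟨h3, h4⟩ := Finset.mem_filter.1 hw
    obtain ⟨h5, h6, h7⟩ := mem_Us.1 h3
    rw [Finset.mem_union, Finset.mem_filter, Finset.mem_filter, mem_Us, mem_Us]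
    rcases lt_or_ge (nm w : ℝ) (2 * a) with h8 | h8
    · exact Or.inl ⟨⟨h5, h6, h8⟩, h4⟩
    · exact Or.inr ⟨⟨h5, h8, h7⟩, h4⟩
  have hcard : (((Us a b).filter (fun w => F g w ≠ s)).card : ℝ) ≤
      (((Us a (2 * a)).filter (fun w => F g w ≠ s)).card : ℝ) +
      (((Us (2 * a) b).filter (fun w => F g w ≠ s)).card : ℝ) := by
    exact_mod_cast (Finset.card_le_card hsub).trans (Finset.card_union_le _ _)
  linarith

open Classical in
/-- the same rare sign at all scales.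

Proof. Scales `X_i = (N/2) 2^(-i/2)`, `i = 0, …, 6`, all in `[N/16, N/2]`; `[X_i, 2X_i)` cover
`[N/16, N)`. Let `s_i` be given by `rare_sign`. The intervals of `i` and `i+1` overlap in
`[X_i, √2 X_i)`, which contains at least `kap1 (√2 - 1) X_i - C X_i^(3/4) ≥ kap1 X_i/4` primitive
elements (`U_count`); if `s_i ≠ s_(i+1)` each of them is an exception for one of the two, but there
are at most `c (#Us X_i 2X_i + #Us X_(i+1) 2X_(i+1)) ≤ 4 c kap1 X_i < kap1 X_i/4` exceptions for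
`c < 1/16` (`U_dyadic`). So all `s_i` are equal; add the exceptions of the seven scales. -/
theorem rare_all : ∃ C : ℝ, 1 ≤ C ∧ ∀ c : ℝ, 0 < c → c ≤ 1 / 20 → ∃ N0 : ℕ, ∀ N : ℕ, N0 ≤ N →
    ∀ g : ℕ → ℤ, CO g → (∀ X : ℝ, (N : ℝ) / 16 ≤ X → X ≤ N / 2 → ¬ Hyp g c X) →
    ∃ s : ℤ, (s = 1 ∨ s = -1) ∧
    (((Us (N / 16) N).filter (fun w => F g w ≠ s)).card : ℝ) ≤ C * c * N := by
  obtain ⟨X0, hX0, hov⟩ := ra_overlap
  obtain ⟨X1, hX1, hD⟩ := U_dyadic
  have hk := kap1_pos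
  refine ⟨1 + 2 * kap1, by linarith, ?_⟩
  intro c hc hc1
  refine ⟨⌈16 * (X0 + X1)⌉₊, ?_⟩
  intro N hN g hg h
  have hNR : 16 * (X0 + X1) ≤ N := (Nat.le_ceil _).trans (by exact_mod_cast hN)
  have hN0 : (0 : ℝ) < N := by linarith
  have hs : ∀ X : ℝ, (N : ℝ) / 16 ≤ X → X ≤ N / 2 → ∃ s : ℤ, (s = 1 ∨ s = -1) ∧
      (((Us X (2 * X)).filter (fun w => F g w ≠ s)).card : ℝ) ≤ c * (Us X (2 * X)).card :=
    fun X h1 h2 => rare_sign g hg c X hc (by linarith) (h X h1 h2)
  obtain ⟨s0, hs0, e0⟩ := hs (N / 16) (by linarith) (by linarith)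
  obtain ⟨s1, -, e1⟩ := hs (3 * N / 32) (by linarith) (by linarith)
  obtain ⟨s2, -, e2⟩ := hs (N / 8) (by linarith only [hN0]) (by linarith only [hN0])
  obtain ⟨s3, -, e3⟩ := hs (3 * N / 16) (by linarith only [hN0]) (by linarith only [hN0])
  obtain ⟨s4, -, e4⟩ := hs (N / 4) (by linarith only [hN0]) (by linarith only [hN0])
  obtain ⟨s5, -, e5⟩ := hs (3 * N / 8) (by linarith only [hN0]) (by linarith only [hN0])
  obtain ⟨s6, -, e6⟩ := hs (N / 2) (by linarith only [hN0]) (by linarith only [])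
  have h01 : s0 = s1 := hov c _ _ g hc hc1 (by linarith only [hX1, hNR]) (by linarith only [hN0]) (by linarith only []) _ _ e0 e1
  have h12 : s1 = s2 := hov c _ _ g hc hc1 (by linarith only [hX1, hNR]) (by linarith only [hN0]) (by linarith only [hN0]) _ _ e1 e2
  have h23 : s2 = s3 := hov c _ _ g hc hc1 (by linarith only [hX1, hNR]) (by linarith only [hN0]) (by linarith only []) _ _ e2 e3
  have h34 : s3 = s4 := hov c _ _ g hc hc1 (by linarith only [hX1, hNR]) (by linarith only [hN0]) (by linarith only [hN0]) _ _ e3 e4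
  have h45 : s4 = s5 := hov c _ _ g hc hc1 (by linarith only [hX1, hNR]) (by linarith only [hN0]) (by linarith only []) _ _ e4 e5
  have h56 : s5 = s6 := hov c _ _ g hc hc1 (by linarith only [hX1, hNR]) (by linarith only [hN0]) (by linarith only [hN0]) _ _ e5 e6
  subst h01 h12 h23 h34 h45 h56
  have hb : ∀ X : ℝ, X1 ≤ X → c * ((Us X (2 * X)).card : ℝ) ≤ c * (2 * kap1 * X) :=
    fun X hX => mul_le_mul_of_nonneg_left (hD X hX).2 hc.le
  have f0 := e0.trans (hb _ (by linarith only [hX0, hNR]))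
  have f2 := e2.trans (hb _ (by linarith only [hX0, hNR]))
  have f4 := e4.trans (hb _ (by linarith only [hX0, hNR]))
  have f6 := e6.trans (hb _ (by linarith only [hX0, hNR]))
  refine ⟨s0, hs0, ?_⟩
  have g6 : (((Us (2 * ((N : ℝ) / 4)) N).filter (fun w => F g w ≠ s0)).card : ℝ) ≤
      c * (2 * kap1 * (N / 2)) := by
    have t1 : 2 * ((N : ℝ) / 4) = N / 2 := by ring
    have t2 : 2 * ((N : ℝ) / 2) = N := by ring
    rw [t2] at f6
    rw [t1]
    exact f6
  have g4 := ra_piece g s0 ((N : ℝ) / 4) N (by linarith only []) _ _ f4 g6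
  have g4' : (((Us (2 * ((N : ℝ) / 8)) N).filter (fun w => F g w ≠ s0)).card : ℝ) ≤
      c * (2 * kap1 * (N / 4)) + c * (2 * kap1 * (N / 2)) := by
    have t1 : 2 * ((N : ℝ) / 8) = N / 4 := by ring
    rw [t1]
    exact g4
  have g2 := ra_piece g s0 ((N : ℝ) / 8) N (by linarith only []) _ _ f2 g4'
  have g2' : (((Us (2 * ((N : ℝ) / 16)) N).filter (fun w => F g w ≠ s0)).card : ℝ) ≤
      c * (2 * kap1 * (N / 8)) + (c * (2 * kap1 * (N / 4)) + c * (2 * kap1 * (N / 2))) := by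
    have t1 : 2 * ((N : ℝ) / 16) = N / 8 := by ring
    rw [t1]
    exact g2
  have g0 := ra_piece g s0 ((N : ℝ) / 16) N (by linarith only []) _ _ f0 g2'
  refine g0.trans ?_
  have hcN : 0 < c * N := by positivity
  have hckN : 0 < c * kap1 * N := by positivity
  linarith only [hcN, hckN]

end

end Pool.Agent.Lib.MP_0b748d_nt.MR
end

section

set_option autoImplicit false

/-!
# Directions inside a balanced edge
-/

namespace Pool.Agent.Lib.MP_0b748d_nt.MR

open Zsqrtd MeasureTheory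

noncomputable section

open Classical in
lemma Dirs_card (t : ℕ × ℕ) :
    ((EF 7 t.1).filter (fun e => (nm e.1).toNat = t.2)).card ≤ 15 := by
  have h1 : ((EF 7 t.1).filter (fun e => (nm e.1).toNat = t.2)).card ≤
      (({t.2} : Finset ℕ) ×ˢ Finset.Icc (-(7 : ℤ)) 7).card := by
    apply Finset.card_le_card_of_injOn code
    · intro e he
      rw [Finset.mem_coe, Finset.mem_filter] at he
      have h2 := he.1
      rw [mem_EF] at h2
      have h3 := abs_le.1 h2.2.2.2.2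
      rw [Finset.mem_coe, Finset.mem_product, Finset.mem_singleton, Finset.mem_Icc]
      refine ⟨he.2, ?_, ?_⟩
      · apply Int.le_floor.2
        push_cast
        have := h3.1
        push_cast at this
        linarith
      · have h6 : (⌊th e.1⌋ : ℝ) ≤ (7 : ℕ) := (Int.floor_le _).trans h3.2
        exact_mod_cast h6
    · intro e he e' he' h
      have h2 : e ∈ EF 7 t.1 := (Finset.mem_filter.1 (Finset.mem_coe.1 he)).1
      have h3 : e' ∈ EF 7 t.1 := (Finset.mem_filter.1 (Finset.mem_coe.1 he')).1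
      exact code_inj 7 t.1 (by simpa [EF] using h2) (by simpa [EF] using h3) h
  refine h1.trans ?_
  rw [Finset.card_product, Int.card_Icc, Finset.card_singleton]
  norm_num

/-- from edges near a set of directions to pairs.

Proof. Cover `S` by the intervals `Icc (th x - 5/K) (th x + 5/K)` where `x` ranges over the first
coordinates of the edges `(x, y)` with `((B x y).toNat, (nm x).toNat) ∈ T` and `|th x| ≤ 7`. For
each `(n, m) ∈ T` there are at most `15` such edges: they lie in `E 7 n`, on which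
`code (x, y) = (nm x, ⌊th x⌋)` is injective (`code_inj` in `Count.lean`), and `⌊th x⌋ ∈ [-7, 7]`.
So `μ ≤ 15 #T (10/K)` (`vol_biUnion_le`, `vol_Icc`). -/
theorem pairs_lower (K : ℝ) (hK : 1 ≤ K) (μ : ℝ) (S : Set ℝ) (hS : S ⊆ Set.Icc 0 2)
    (hμ : ENNReal.ofReal μ ≤ volume S) (T : Finset (ℕ × ℕ))
    (h : ∀ φ ∈ S, ∃ x y : ℤ√2, TP x ∧ TP y ∧ det x y = 1 ∧ |th x - φ| ≤ 5 / K ∧
      ((B x y).toNat, (nm x).toNat) ∈ T) : μ * K ≤ 150 * T.card := by
  classical
  have hK0 : 0 < K := by linarith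
  set I : ℕ × ℕ → Finset (ℤ√2 × ℤ√2) :=
    fun t => (EF 7 t.1).filter (fun e => (nm e.1).toNat = t.2) with hI
  have hcov : S ⊆ ⋃ t ∈ T, ⋃ e ∈ I t, Set.Icc (th e.1 - 5 / K) (th e.1 + 5 / K) := by
    intro φ hφ
    obtain ⟨x, y, hx, hy, hdet, hcl, hT⟩ := h φ hφ
    have hφ2 := hS hφ
    have hcl' := abs_le.1 hcl
    have h5 : 5 / K ≤ 5 := by
      rw [div_le_iff₀ hK0]
      linarith
    simp only [Set.mem_iUnion]
    refine ⟨((B x y).toNat, (nm x).toNat), hT, (x, y), ?_, ?_⟩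
    · rw [hI, Finset.mem_filter, mem_EF]
      refine ⟨⟨hx, hy, hdet, ?_, ?_⟩, rfl⟩
      · have := B_edge_ge hx hy hdet
        simp only
        omega
      · rw [abs_le]
        push_cast
        constructor <;> linarith [hφ2.1, hφ2.2, hcl'.1, hcl'.2]
    · rw [Set.mem_Icc]
      constructor <;> linarith [hcl'.1, hcl'.2]
  have hvol : volume S ≤ ENNReal.ofReal ((T.card : ℝ) * (15 * (2 * (5 / K)))) := by
    refine (measure_mono hcov).trans ?_
    apply vol_biUnion_le T _ _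
    intro t _
    refine (vol_biUnion_le (I t) (fun e => Set.Icc (th e.1 - 5 / K) (th e.1 + 5 / K))
      (2 * (5 / K)) (fun e _ => vol_Icc _ _)).trans ?_
    apply ENNReal.ofReal_le_ofReal
    have h15 : ((I t).card : ℝ) ≤ 15 := by exact_mod_cast Dirs_card t
    exact mul_le_mul_of_nonneg_right h15 (by positivity)
  have hle := hμ.trans hvol
  have hR : μ ≤ (T.card : ℝ) * (15 * (2 * (5 / K))) := by
    rwa [ENNReal.ofReal_le_ofReal_iff (by positivity)] at hle
  calc μ * K ≤ ((T.card : ℝ) * (15 * (2 * (5 / K)))) * K :=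
        mul_le_mul_of_nonneg_right hR hK0.le
    _ = 150 * T.card := by field_simp; ring

end

end Pool.Agent.Lib.MP_0b748d_nt.MR
end
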