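import Mathlib
import Pool.Agent.Lib.MP_0b748d_nt.MR.TOp
import Pool.Agent.Lib.MP_0b748d_nt.MR.VExp
import Pool.Agent.Lib.MP_0b748d_nt.P.Energy
import Pool.Agent.Lib.MP_0b748d_nt.MR.UnitsA
import Pool.Agent.Lib.MP_0b748d_nt.MR.Selberg

section

section

set_option autoImplicit false

/-!
# Selberg weights for a finite set of primes

Self-contained. Square-free numbers are represented by finite sets `D` of primes; `h p` is the
density of the elements divisible by `p`.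
-/

namespace Pool.Agent.Lib.MP_0b748d_nt.MR

noncomputable section

theorem fejer_C (c : ℤ → ℝ) (hc : ∀ l, c (-l) = c l) (J : ℕ) :
    ∑ l ∈ Finset.Ioo (-((J : ℤ) + 1)) ((J : ℤ) + 1), c l =
      c 0 + 2 * ∑ l ∈ Finset.range J, c ((l : ℤ) + 1) := by
  induction J with
  | zero =>
    have h : Finset.Ioo (-(((0 : ℕ) : ℤ) + 1)) (((0 : ℕ) : ℤ) + 1) = {0} := by
      ext l
      simp only [Finset.mem_Ioo, Finset.mem_singleton]
      constructor
      · rintro ⟨h1, h2⟩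
        push_cast at h1 h2
        omega
      · rintro rfl
        simp
    rw [h]
    simp
  | succ J ih =>
    have h : Finset.Ioo (-(((J + 1 : ℕ) : ℤ) + 1)) (((J + 1 : ℕ) : ℤ) + 1) =
        insert ((J : ℤ) + 1) (insert (-((J : ℤ) + 1))
          (Finset.Ioo (-((J : ℤ) + 1)) ((J : ℤ) + 1))) := by
      ext l
      simp only [Finset.mem_Ioo, Finset.mem_insert]
      push_cast
      omega
    rw [h, Finset.sum_insert, Finset.sum_insert, ih, hc, Finset.sum_range_succ]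
    · ring
    · simp
    · simp only [Finset.mem_insert, Finset.mem_Ioo]
      omega

theorem fejer_A (c : ℤ → ℝ) (J : ℕ) :
    ∑ l ∈ Finset.Ioo (-((J : ℤ) + 1)) ((J : ℤ) + 1), ((J : ℝ) - |(l : ℝ)|) * c l =
      ∑ l ∈ Finset.Ioo (-(J : ℤ)) J, ((J : ℝ) - |(l : ℝ)|) * c l := by
  symm
  refine Finset.sum_subset ?_ ?_
  · intro l
    simp only [Finset.mem_Ioo]
    omega
  · intro l h1 h2
    simp only [Finset.mem_Ioo] at h1 h2
    have h3 : |l| = (J : ℤ) := by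
      rcases abs_cases l with ⟨h, h'⟩ | ⟨h, h'⟩ <;> omega
    have h4 : |(l : ℝ)| = (J : ℝ) := by
      rw [← Int.cast_abs, h3]
      simp
    rw [h4]
    ring

theorem fejer_sq (y : ℝ) (J : ℕ) :
    ∑ l ∈ Finset.Ioo (-(J : ℤ)) J, ((J : ℝ) - |(l : ℝ)|) * Real.cos (l * y) =
      (∑ a ∈ Finset.range J, Real.cos (a * y)) ^ 2 +
        (∑ a ∈ Finset.range J, Real.sin (a * y)) ^ 2 := by
  induction J with
  | zero => simp
  | succ J ih =>
    have e1 : ∑ l ∈ Finset.Ioo (-((J + 1 : ℕ) : ℤ)) ((J + 1 : ℕ) : ℤ),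
        (((J + 1 : ℕ) : ℝ) - |(l : ℝ)|) * Real.cos (l * y) =
        (∑ l ∈ Finset.Ioo (-((J : ℤ) + 1)) ((J : ℤ) + 1), ((J : ℝ) - |(l : ℝ)|) *
          Real.cos (l * y)) + ∑ l ∈ Finset.Ioo (-((J : ℤ) + 1)) ((J : ℤ) + 1),
          Real.cos (l * y) := by
      rw [← Finset.sum_add_distrib]
      push_cast
      refine Finset.sum_congr rfl fun l _ => ?_
      ring
    rw [e1, fejer_A (fun l => Real.cos (l * y)), ih,
      fejer_C (fun l => Real.cos (l * y)) (fun l => by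
        simp only [Int.cast_neg, neg_mul, Real.cos_neg]) J, Finset.sum_range_succ,
      Finset.sum_range_succ]
    have e2 : ∑ l ∈ Finset.range J, Real.cos (((l : ℤ) + 1 : ℤ) * y) =
        Real.cos (J * y) * (∑ a ∈ Finset.range J, Real.cos (a * y)) +
        Real.sin (J * y) * ∑ a ∈ Finset.range J, Real.sin (a * y) := by
      rw [← Finset.sum_range_reflect, Finset.mul_sum, Finset.mul_sum, ← Finset.sum_add_distrib]
      refine Finset.sum_congr rfl fun a ha => ?_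
      rw [Finset.mem_range] at ha
      rw [← Real.cos_sub]
      congr 1
      have h1 : ((J - 1 - a : ℕ) : ℝ) = (J : ℝ) - 1 - a := by
        rw [Nat.sub_sub, Nat.cast_sub (by omega)]
        push_cast
        ring
      push_cast
      rw [h1]
      ring
    rw [e2]
    have e3 := Real.sin_sq_add_cos_sq (J * y)
    simp only [Int.cast_zero, zero_mul, Real.cos_zero]
    linear_combination -e3

theorem fejer_closed (θ : ℝ) (J : ℕ) :
    (Real.sin θ * ∑ a ∈ Finset.range J, Real.cos (a * (2 * θ)) =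
      Real.sin (J * θ) * Real.cos (J * θ - θ)) ∧
    (Real.sin θ * ∑ a ∈ Finset.range J, Real.sin (a * (2 * θ)) =
      Real.sin (J * θ) * Real.sin (J * θ - θ)) := by
  induction J with
  | zero => simp
  | succ J ih =>
    rw [Finset.sum_range_succ, Finset.sum_range_succ, mul_add, mul_add, ih.1, ih.2]
    have e1 : ((J + 1 : ℕ) : ℝ) * θ = J * θ + θ := by push_cast; ring
    have e2 : (J : ℝ) * (2 * θ) = 2 * (J * θ) := by ring
    rw [e1, e2]
    have e3 : J * θ + θ - θ = J * θ := by ring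
    rw [e3, Real.sin_add, Real.cos_sub, Real.sin_sub, Real.cos_two_mul, Real.sin_two_mul]
    have e4 := Real.sin_sq_add_cos_sq (J * θ)
    constructor
    · linear_combination Real.sin θ * e4
    · ring

/-- the Fejer majorant.

Proof. `∑_{|l|<J} (1 - |l|/J) e(l x) = (1/J) |∑_{l<J} e(l x)|² ≥ 0` for all real `x`. If
`|x - m| ≤ 1/(2J)`, replace `x` by `t = x - m`; for `t = 0` the value is `J`, otherwise it is
`sin²(π J t)/(J sin²(π t)) ≥ (2 J |t|)²/(J (π t)²) = 4 J/π²` because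
`|sin(π J t)| ≥ 2 J |t|` for `|J t| ≤ 1/2` (Jordan) and `|sin π t| ≤ π |t|`. As `4/π² ≥ 2/5`, the
value is at least `2 J/5`. -/
theorem fejer (J : ℕ) (hJ : 1 ≤ J) (x : ℝ) :
    0 ≤ ∑ l ∈ Finset.Ioo (-(J : ℤ)) J, (1 - |(l : ℝ)| / J) * Real.cos (2 * Real.pi * (l * x)) ∧
    ((∃ m : ℤ, |x - m| ≤ 1 / (2 * J)) → 2 * (J : ℝ) / 5 ≤
      ∑ l ∈ Finset.Ioo (-(J : ℤ)) J, (1 - |(l : ℝ)| / J) * Real.cos (2 * Real.pi * (l * x))) := by
  have hJ0 : (0 : ℝ) < J := by exact_mod_cast hJ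
  have key : ∀ x : ℝ, ∑ l ∈ Finset.Ioo (-(J : ℤ)) J, (1 - |(l : ℝ)| / J) *
      Real.cos (2 * Real.pi * (l * x)) =
      ((∑ a ∈ Finset.range J, Real.cos (a * (2 * (Real.pi * x)))) ^ 2 +
        (∑ a ∈ Finset.range J, Real.sin (a * (2 * (Real.pi * x)))) ^ 2) / J := by
    intro x
    rw [← fejer_sq, Finset.sum_div]
    refine Finset.sum_congr rfl fun l _ => ?_
    have e1 : 2 * Real.pi * (l * x) = l * (2 * (Real.pi * x)) := by ring
    rw [e1]
    field_simp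
  refine ⟨?_, ?_⟩
  · rw [key]
    positivity
  · rintro ⟨m, hm⟩
    set t := x - m with ht
    have ex : ∀ l : ℤ, Real.cos (2 * Real.pi * (l * x)) = Real.cos (2 * Real.pi * (l * t)) := by
      intro l
      have e1 : 2 * Real.pi * (l * x) = 2 * Real.pi * (l * t) + ((l * m : ℤ) : ℝ) *
          (2 * Real.pi) := by
        rw [ht]
        push_cast
        ring
      rw [e1, Real.cos_add_int_mul_two_pi]
    simp only [ex]
    rw [key, le_div_iff₀ hJ0]
    by_cases h0 : t = 0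
    · rw [h0]
      simp
      nlinarith
    · have habs : 0 < |t| := abs_pos.2 h0
      have hc := fejer_closed (Real.pi * t) J
      set C := ∑ a ∈ Finset.range J, Real.cos (a * (2 * (Real.pi * t)))
      set D := ∑ a ∈ Finset.range J, Real.sin (a * (2 * (Real.pi * t)))
      have h1 : Real.sin (Real.pi * t) ^ 2 * (C ^ 2 + D ^ 2) = Real.sin (J * (Real.pi * t)) ^ 2 := by
        have e1 : Real.sin (Real.pi * t) ^ 2 * (C ^ 2 + D ^ 2) =
            (Real.sin (Real.pi * t) * C) ^ 2 + (Real.sin (Real.pi * t) * D) ^ 2 := by ring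
        rw [e1, hc.1, hc.2]
        have e2 := Real.sin_sq_add_cos_sq (J * (Real.pi * t) - Real.pi * t)
        linear_combination Real.sin (J * (Real.pi * t)) ^ 2 * e2
      have hpi := Real.pi_pos
      have h2 : Real.sin (Real.pi * t) ^ 2 ≤ (Real.pi * t) ^ 2 := by
        have h3 : |Real.sin (Real.pi * t)| ≤ |Real.pi * t| := Real.abs_sin_le_abs
        exact sq_le_sq.2 h3
      have h4 : 2 * J * |t| ≤ |Real.sin (J * (Real.pi * t))| := by
        have h5 : |Real.sin (J * (Real.pi * t))| = |Real.sin (J * (Real.pi * |t|))| := by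
          rcases abs_cases t with ⟨h, -⟩ | ⟨h, -⟩
          · rw [h]
          · rw [h]
            have e : (J : ℝ) * (Real.pi * -t) = -(J * (Real.pi * t)) := by ring
            rw [e, Real.sin_neg, abs_neg]
        rw [h5]
        have h6 : J * (Real.pi * |t|) ≤ Real.pi / 2 := by
          have : |t| ≤ 1 / (2 * J) := hm
          calc J * (Real.pi * |t|) ≤ J * (Real.pi * (1 / (2 * J))) := by gcongr
            _ = Real.pi / 2 := by field_simp
        have h7 := Real.mul_le_sin (by positivity : 0 ≤ J * (Real.pi * |t|)) h6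
        refine le_trans (le_of_eq ?_) (h7.trans (le_abs_self _))
        field_simp
      have h8 : (2 * J * |t|) ^ 2 ≤ Real.sin (J * (Real.pi * t)) ^ 2 := by
        rw [← sq_abs (Real.sin (J * (Real.pi * t)))]
        exact pow_le_pow_left₀ (by positivity) h4 2
      rw [mul_pow, sq_abs] at h8
      have ht2 : 0 < t ^ 2 := by positivity
      have h9 : (2 * J) ^ 2 * t ^ 2 ≤ Real.pi ^ 2 * t ^ 2 * (C ^ 2 + D ^ 2) := by
        have h10 : Real.sin (Real.pi * t) ^ 2 * (C ^ 2 + D ^ 2) ≤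
            (Real.pi * t) ^ 2 * (C ^ 2 + D ^ 2) := mul_le_mul_of_nonneg_right h2 (by positivity)
        have e : (Real.pi * t) ^ 2 = Real.pi ^ 2 * t ^ 2 := by ring
        rw [e] at h10
        linarith
      have h11 : (2 * (J : ℝ)) ^ 2 ≤ Real.pi ^ 2 * (C ^ 2 + D ^ 2) := by
        have : t ^ 2 * (2 * (J : ℝ)) ^ 2 ≤ t ^ 2 * (Real.pi ^ 2 * (C ^ 2 + D ^ 2)) := by
          linarith
        exact le_of_mul_le_mul_left this ht2
      have h12 : Real.pi ^ 2 ≤ 10 := by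
        have := Real.pi_lt_d2
        nlinarith
      have h13 : Real.pi ^ 2 * (C ^ 2 + D ^ 2) ≤ 10 * (C ^ 2 + D ^ 2) :=
        mul_le_mul_of_nonneg_right h12 (by positivity)
      have h14 : 2 * (J : ℝ) / 5 * J = (2 * (J : ℝ)) ^ 2 / 10 := by ring
      rw [h14]
      linarith

end

end Pool.Agent.Lib.MP_0b748d_nt.MR
end

section

set_option autoImplicit false

/-!
# Sums over elements whose norm is divisible by given primes
-/

namespace Pool.Agent.Lib.MP_0b748d_nt.MR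

open Zsqrtd

noncomputable section

open Classical in
/-- the sum over elements whose norm is divisible by all primes of `D` -/
def SD (φ : ℤ√2 → ℂ) (D : Finset ℕ) (a b : ℝ) : ℂ :=
  ∑ w ∈ (Vs a b).filter (fun w => ∀ p ∈ D, (p : ℤ) ∣ nm w), φ w

open Classical in
/-- the function restricted to the elements whose norm is divisible by all primes of `D` -/
def sr_ps (φ : ℤ√2 → ℂ) (D : Finset ℕ) (w : ℤ√2) : ℂ :=
  if ∀ p ∈ D, (p : ℤ) ∣ nm w then φ w else 0

private theorem sr_SD (φ : ℤ√2 → ℂ) (D : Finset ℕ) (a b : ℝ) :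
    SD φ D a b = ∑ w ∈ Vs a b, sr_ps φ D w := by
  unfold SD sr_ps
  rw [Finset.sum_filter]

private theorem sr_inv {φ : ℤ√2 → ℂ} (hφ : Inv φ) (D : Finset ℕ) : Inv (sr_ps φ D) := by
  intro n z hz
  unfold sr_ps
  rw [nm_un, hφ n z hz]

private theorem sr_mul {φ : ℤ√2 → ℂ} (hm : ∀ z w, OT z → OT w → φ (z * w) = φ z * φ w)
    {D : Finset ℕ} {ρ m : ℤ√2} (hρ : OT ρ) (hmm : OT m)
    (h : ∀ p ∈ D, ((p : ℤ) ∣ nm ρ * nm m ↔ (p : ℤ) ∣ nm m)) :
    sr_ps φ D (ρ * m) = φ ρ * sr_ps φ D m := by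
  unfold sr_ps
  have h1 : (∀ p ∈ D, (p : ℤ) ∣ nm (ρ * m)) ↔ ∀ p ∈ D, (p : ℤ) ∣ nm m := by
    constructor
    · intro h2 p hp
      have := h2 p hp
      rw [nm_mul] at this
      exact (h p hp).1 this
    · intro h2 p hp
      rw [nm_mul]
      exact (h p hp).2 (h2 p hp)
  by_cases h3 : ∀ p ∈ D, (p : ℤ) ∣ nm m
  · rw [if_pos (h1.2 h3), if_pos h3, hm _ _ hρ hmm]
  · rw [if_neg (fun h4 => h3 (h1.1 h4)), if_neg h3, mul_zero]

private theorem sr_odd {q : ℕ} (hq : Sp q) : q % 2 = 1 := by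
  rcases hq.2 with h | h <;> omega

/-- the recursion.

Proof. For `w ∈ Vs a b`, `q ∣ nm w` iff `el q true ∣ w` or `el q false ∣ w` (`dvd_nm_iff`), both
iff `q ∣ w` (`el_both`). Inclusion-exclusion and `sum_dvd` for `ρ = el q true, el q false, q`
(`nm = q, q, q^2`), applied to the function `φ` times the indicator of `∀ p ∈ D, p ∣ nm w`, which
is invariant under units and does not change under multiplication by `ρ` (`p ∣ nm (ρ m)` iff
`p ∣ nm m` for primes `p ≠ q`). -/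
theorem SD_insert (φ : ℤ√2 → ℂ) (hφ : Inv φ) (hm : ∀ z w, OT z → OT w → φ (z * w) = φ z * φ w)
    (D : Finset ℕ) (hD : ∀ p ∈ D, Sp p) (q : ℕ) (hq : Sp q) (hqD : q ∉ D) (a b : ℝ) :
    SD φ (insert q D) a b = (φ (el q true) + φ (el q false)) * SD φ D (a / q) (b / q) -
      φ ((q : ℕ) : ℤ√2) * SD φ D (a / (q : ℝ) ^ 2) (b / (q : ℝ) ^ 2) := by
  classical
  have hcop : ∀ p ∈ D, IsCoprime (p : ℤ) (q : ℤ) := by
    intro p hp
    have h1 : p ≠ q := fun h => hqD (h ▸ hp)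
    exact Nat.isCoprime_iff_coprime.2 ((Nat.coprime_primes (hD p hp).1 hq.1).2 h1)
  have hψ := sr_inv hφ D
  -- sums over multiples
  have key : ∀ ρ : ℤ√2, OT ρ → (∀ p ∈ D, IsCoprime (p : ℤ) (nm ρ)) →
      ∑ w ∈ (Vs a b).filter (fun w => ρ ∣ w), sr_ps φ D w =
        φ ρ * SD φ D (a / nm ρ) (b / nm ρ) := by
    intro ρ hρ hc
    rw [sum_dvd ρ hρ a b _ hψ, sr_SD, Finset.mul_sum]
    refine Finset.sum_congr rfl fun m hm' => ?_
    refine sr_mul hm hρ (mem_Vs.1 hm').1 fun p hp => ?_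
    constructor
    · intro h
      exact (hc p hp).dvd_of_dvd_mul_left h
    · intro h
      exact Dvd.dvd.mul_left h _
  have e1 := key _ (el_spec hq true).1 (by rw [(el_spec hq true).2]; exact hcop)
  have e2 := key _ (el_spec hq false).1 (by rw [(el_spec hq false).2]; exact hcop)
  have e3 := key _ (OT_nat q (sr_odd hq)) (by
    rw [nm_nat]
    exact fun p hp => (hcop p hp).pow_right)
  rw [(el_spec hq true).2] at e1
  rw [(el_spec hq false).2] at e2
  rw [nm_nat] at e3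
  push_cast at e1 e2 e3
  have h1 : SD φ (insert q D) a b =
      ∑ w ∈ (Vs a b).filter (fun w => el q true ∣ w) ∪ (Vs a b).filter (fun w => el q false ∣ w),
        sr_ps φ D w := by
    rw [← Finset.filter_or, Finset.sum_filter, sr_SD]
    refine Finset.sum_congr rfl fun w _ => ?_
    have h2 := dvd_nm_iff hq w
    unfold sr_ps
    by_cases h3 : (q : ℤ) ∣ nm w
    · rw [if_pos (h2.1 h3)]
      by_cases h4 : ∀ p ∈ D, (p : ℤ) ∣ nm w
      · rw [if_pos h4, if_pos]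
        intro p hp
        rcases Finset.mem_insert.1 hp with rfl | hp
        · exact h3
        · exact h4 p hp
      · rw [if_neg h4, if_neg]
        exact fun h5 => h4 fun p hp => h5 p (Finset.mem_insert_of_mem hp)
    · rw [if_neg (fun h => h3 (h2.2 h)), if_neg]
      exact fun h5 => h3 (h5 q (Finset.mem_insert_self _ _))
  have h2 : (Vs a b).filter (fun w => ((q : ℕ) : ℤ√2) ∣ w) =
      (Vs a b).filter (fun w => el q true ∣ w) ∩ (Vs a b).filter (fun w => el q false ∣ w) := by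
    rw [← Finset.filter_and]
    exact Finset.filter_congr fun w _ => (el_both hq w).symm
  rw [h2] at e3
  have h3 := Finset.sum_union_inter (s₁ := (Vs a b).filter (fun w => el q true ∣ w))
    (s₂ := (Vs a b).filter (fun w => el q false ∣ w)) (f := sr_ps φ D)
  rw [← h1, e1, e2, e3] at h3
  linear_combination h3

theorem SD_empty (φ : ℤ√2 → ℂ) (a b : ℝ) : SD φ ∅ a b = ∑ w ∈ Vs a b, φ w := by
  unfold SD
  rw [Finset.filter_true_of_mem]
  intro w _ p hp
  exact absurd hp (Finset.notMem_empty p)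

end

end Pool.Agent.Lib.MP_0b748d_nt.MR
end
end

section

section

set_option autoImplicit false

/-!
# Lower bound for the Selberg denominator
-/

namespace Pool.Agent.Lib.MP_0b748d_nt.MR

open Zsqrtd

noncomputable section

open Classical in
/-- sets of split primes with product at most `R` -/
def DS (R : ℝ) : Finset (Finset ℕ) :=
  (Spl R).powerset.filter (fun D => ((∏ p ∈ D, p : ℕ) : ℝ) ≤ R)

private lemma jla_block {n : ℕ} {X0 : ℝ} (hX : X0 ≤ 2 ^ n)
    (h : ∀ X : ℝ, X0 ≤ X → kap1 / 2 * X ≤ (Us X (2 * X)).card ∧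
      ((Us X (2 * X)).card : ℝ) ≤ 2 * kap1 * X) :
    kap1 / 4 ≤ ∑ w ∈ Us (2 ^ n) (2 ^ (n + 1)), 1 / (nm w : ℝ) := by
  have h1 := (h (2 ^ n) hX).1
  have e1 : (2 : ℝ) * 2 ^ n = 2 ^ (n + 1) := by ring
  rw [e1] at h1
  have hp : (0 : ℝ) < 2 ^ n := by positivity
  have h2 : ∀ w ∈ Us (2 ^ n) (2 ^ (n + 1)), 1 / (2 : ℝ) ^ (n + 1) ≤ 1 / (nm w : ℝ) := by
    intro w hw
    obtain ⟨-, h3, h4⟩ := mem_Us.1 hw
    exact one_div_le_one_div_of_le (lt_of_lt_of_le hp h3) h4.le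
  have h3 := Finset.sum_le_sum h2
  rw [Finset.sum_const, nsmul_eq_mul] at h3
  refine le_trans ?_ h3
  calc kap1 / 4 = kap1 / 2 * 2 ^ n * (1 / (2 : ℝ) ^ (n + 1)) := by
        rw [pow_succ]
        field_simp
        ring
    _ ≤ _ := mul_le_mul_of_nonneg_right h1 (by positivity)

private lemma jla_ind {X0 : ℝ} (i0 : ℕ) (hi0 : X0 ≤ 2 ^ i0)
    (h : ∀ X : ℝ, X0 ≤ X → kap1 / 2 * X ≤ (Us X (2 * X)).card ∧
      ((Us X (2 * X)).card : ℝ) ≤ 2 * kap1 * X) (m : ℕ) :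
    (m : ℝ) * (kap1 / 4) ≤ ∑ w ∈ Us 1 (2 ^ (i0 + m)), 1 / (nm w : ℝ) := by
  induction m with
  | zero =>
    simp only [Nat.cast_zero, zero_mul]
    refine Finset.sum_nonneg fun w hw => ?_
    obtain ⟨-, h3, -⟩ := mem_Us.1 hw
    have : (0 : ℝ) < nm w := by linarith
    positivity
  | succ m ih =>
    have h1 : (1 : ℝ) ≤ 2 ^ (i0 + m) := one_le_pow₀ (by norm_num)
    have h2 : (2 : ℝ) ^ (i0 + m) ≤ 2 ^ (i0 + m + 1) := by
      rw [pow_succ]
      linarith
    have h3 := Us_split (fun w => 1 / (nm w : ℝ)) h1 h2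
    have h4 : X0 ≤ 2 ^ (i0 + m) :=
      hi0.trans (pow_le_pow_right₀ (by norm_num) (by omega))
    have h5 := jla_block h4 h
    rw [← add_assoc, h3]
    push_cast
    linarith

/-- `∑_{w ∈ Us 1 R} 1/nm w ≥ c log R`.

Proof. Dyadic blocks: `Us (2^i) (2^(i+1))` has at least `kap1/2 * 2^i` elements for `2^i ≥ X0`
(`U_dyadic`), each with `1/nm w ≥ 2^(-(i+1))`. -/
theorem U_harm : ∃ c R0 : ℝ, 0 < c ∧ 2 ≤ R0 ∧ ∀ R : ℝ, R0 ≤ R →
    c * Real.log R ≤ ∑ w ∈ Us 1 R, 1 / (nm w : ℝ) := by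
  obtain ⟨X0, hX0, h⟩ := U_dyadic
  obtain ⟨i0, hi0⟩ := pow_unbounded_of_one_lt X0 (one_lt_two : (1 : ℝ) < 2)
  have hk := kap1_pos
  have hl2 : 0 < Real.log 2 := Real.log_pos one_lt_two
  refine ⟨kap1 / (8 * Real.log 2), 4 ^ (i0 + 1), by positivity, ?_, fun R hR => ?_⟩
  · calc (2 : ℝ) ≤ 4 ^ 1 := by norm_num
      _ ≤ 4 ^ (i0 + 1) := pow_le_pow_right₀ (by norm_num) (by omega)
  have hR0 : (0 : ℝ) < R := lt_of_lt_of_le (by positivity) hR
  have hlogR : 2 * (i0 + 1) * Real.log 2 ≤ Real.log R := by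
    have h1 := Real.log_le_log (by positivity) hR
    rw [Real.log_pow, show (4 : ℝ) = 2 ^ 2 by norm_num, Real.log_pow] at h1
    push_cast at h1
    linarith
  set n : ℕ := ⌊Real.log R / Real.log 2⌋₊ with hn
  have hq0 : 0 ≤ Real.log R / Real.log 2 := by
    refine div_nonneg (le_trans (by positivity) hlogR) hl2.le
  have hn1 : (n : ℝ) ≤ Real.log R / Real.log 2 := Nat.floor_le hq0
  have hn2 : Real.log R / Real.log 2 < n + 1 := Nat.lt_floor_add_one _
  have hq1 : 2 * ((i0 : ℝ) + 1) ≤ Real.log R / Real.log 2 := by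
    rw [le_div_iff₀ hl2]
    exact hlogR
  have hni : i0 ≤ n := by
    have : (i0 : ℝ) < n + 1 := by
      have : (0 : ℝ) ≤ i0 := by positivity
      linarith
    have h2 : i0 < n + 1 := by exact_mod_cast this
    omega
  obtain ⟨m, hnm⟩ := Nat.exists_eq_add_of_le hni
  rw [hnm] at hn1 hn2
  have hpow : (2 : ℝ) ^ (i0 + m) ≤ R := by
    rw [← Real.log_le_log_iff (by positivity) hR0, Real.log_pow]
    rw [le_div_iff₀ hl2] at hn1
    exact_mod_cast hn1
  have h1 := jla_ind i0 hi0.le h m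
  have h2 : ∑ w ∈ Us 1 (2 ^ (i0 + m)), 1 / (nm w : ℝ) ≤ ∑ w ∈ Us 1 R, 1 / (nm w : ℝ) := by
    refine Finset.sum_le_sum_of_subset_of_nonneg (Us_mono le_rfl hpow) fun w hw _ => ?_
    obtain ⟨-, h3, -⟩ := mem_Us.1 hw
    have : (0 : ℝ) < nm w := by linarith
    positivity
  refine le_trans ?_ (h1.trans h2)
  push_cast at hn2
  have h3 : Real.log R / Real.log 2 / 2 ≤ m := by
    have : (0 : ℝ) ≤ i0 := by positivity
    linarith
  calc kap1 / (8 * Real.log 2) * Real.log R = (Real.log R / Real.log 2 / 2) * (kap1 / 4) := by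
        field_simp
        ring
    _ ≤ m * (kap1 / 4) := mul_le_mul_of_nonneg_right h3 (by positivity)

/-- number of primitive elements of given norm.

Proof. `energy_prim` in `P/Energy.lean` (`|th z' - th z| < 1` is needed there; split the
canonical domain `0 ≤ al z < 1`, `th z ∈ [0, th uu)`, `th uu < 2`, into two halves). -/
theorem U_norm (m : ℕ) (hm : 1 ≤ m) (S : Finset (ℤ√2)) (hS : ∀ z ∈ S, Can z ∧ nm z = m) :
    (S.card : ℝ) ≤ 4 * tau m := by
  classical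
  have hpos := th_uu_pos
  have hle := freq_th_uu_le
  have hth : ∀ z : ℤ√2, th z = al z * th uu := fun z => by
    rw [al, div_mul_cancel₀ _ hpos.ne']
  have key : ∀ S' : Finset (ℤ√2), S' ⊆ S →
      (∀ z ∈ S', ∀ z' ∈ S', |al z' - al z| < 1 / 2) → S'.card ≤ 2 * tau m := by
    intro S' hS' hd
    refine energy_prim m hm S' (fun z hz => ?_) fun z hz z' hz' => ?_
    · obtain ⟨hC, hn⟩ := hS z (hS' hz)
      exact ⟨hC.1.1, hC.2.1, hn⟩
    · rw [hth z, hth z', ← sub_mul, abs_mul, abs_of_pos hpos]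
      calc |al z' - al z| * th uu < 1 / 2 * th uu :=
            mul_lt_mul_of_pos_right (hd z hz z' hz') hpos
        _ ≤ 1 / 2 * 2 := by gcongr
        _ = 1 := by norm_num
  have h1 := key (S.filter (fun z => al z < 1 / 2)) (Finset.filter_subset _ _) (by
    intro z hz z' hz'
    rw [Finset.mem_filter] at hz hz'
    have h1 := (hS z hz.1).1.2.2.1
    have h2 := (hS z' hz'.1).1.2.2.1
    rw [abs_lt]
    constructor <;> linarith [hz.2, hz'.2])
  have h2 := key (S.filter (fun z => ¬ al z < 1 / 2)) (Finset.filter_subset _ _) (by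
    intro z hz z' hz'
    rw [Finset.mem_filter] at hz hz'
    have h1 := (hS z hz.1).1.2.2.2
    have h2 := (hS z' hz'.1).1.2.2.2
    rw [abs_lt]
    constructor <;> linarith [not_lt.1 hz.2, not_lt.1 hz'.2])
  have h3 := Finset.card_filter_add_card_filter_not (s := S) (fun z => al z < 1 / 2)
  have h4 : S.card ≤ 4 * tau m := by omega
  exact_mod_cast h4

end

end Pool.Agent.Lib.MP_0b748d_nt.MR
end

section

set_option autoImplicit false

/-!
# Lower bound for the Selberg denominator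
-/

namespace Pool.Agent.Lib.MP_0b748d_nt.MR

open Zsqrtd

noncomputable section

private lemma jl_geo (x : ℝ) (K : ℕ) :
    (1 - x) ^ 2 * ∑ k ∈ Finset.range K, ((k : ℝ) + 1) * x ^ k =
      1 - (K + 1) * x ^ K + K * x ^ (K + 1) := by
  induction K with
  | zero => simp
  | succ K ih =>
    rw [Finset.sum_range_succ, mul_add, ih]
    push_cast
    ring

private lemma jl_geo_le (q : ℕ) (hq : q.Prime) (F : Finset ℕ) (hF : ∀ k ∈ F, 1 ≤ k) :
    ∑ k ∈ F, ((k : ℝ) + 1) * (1 / (q : ℝ)) ^ k ≤ hd q / (1 - hd q) := by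
  have hq2 : (2 : ℝ) ≤ q := by exact_mod_cast hq.two_le
  set x : ℝ := 1 / (q : ℝ) with hx
  have hx0 : 0 < x := by positivity
  have hx1 : x < 1 := by
    rw [hx, div_lt_one (by linarith)]
    linarith
  obtain ⟨K, hK⟩ : ∃ K : ℕ, ∀ k ∈ F, k < K :=
    ⟨F.sup id + 1, fun k hk => Nat.lt_succ_of_le (Finset.le_sup (f := id) hk)⟩
  have h0 : 0 ∉ F := fun h => absurd (hF 0 h) (by norm_num)
  have h1 : ∑ k ∈ F, ((k : ℝ) + 1) * x ^ k + 1 ≤
      ∑ k ∈ Finset.range (K + 1), ((k : ℝ) + 1) * x ^ k := by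
    have h2 : ∑ k ∈ insert 0 F, ((k : ℝ) + 1) * x ^ k =
        1 + ∑ k ∈ F, ((k : ℝ) + 1) * x ^ k := by
      rw [Finset.sum_insert h0]
      simp
    rw [add_comm, ← h2]
    refine Finset.sum_le_sum_of_subset_of_nonneg ?_ fun k _ _ => by positivity
    intro k hk
    rw [Finset.mem_insert] at hk
    rw [Finset.mem_range]
    rcases hk with rfl | hk
    · omega
    · have := hK k hk
      omega
  have h2 := jl_geo x (K + 1)
  have h3 : (1 - x) ^ 2 * ∑ k ∈ Finset.range (K + 1), ((k : ℝ) + 1) * x ^ k ≤ 1 := by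
    rw [h2]
    have h4 : x ^ (K + 1 + 1) ≤ x ^ (K + 1) := by
      rw [pow_succ x (K + 1)]
      exact mul_le_of_le_one_right (by positivity) hx1.le
    have h5 : (0 : ℝ) ≤ ((K + 1 : ℕ) : ℝ) := by positivity
    have h6 : 0 < x ^ (K + 1) := by positivity
    nlinarith [mul_le_mul_of_nonneg_left h4 h5]
  have h4 : 0 < (1 - x) ^ 2 := by
    have : 0 < 1 - x := by linarith
    positivity
  have h5 : hd q / (1 - hd q) = 1 / (1 - x) ^ 2 - 1 := by
    have hq0 : (q : ℝ) ≠ 0 := by linarith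
    have hq1 : (q : ℝ) - 1 ≠ 0 := by linarith
    have e1 : 1 - hd q = ((q : ℝ) - 1) ^ 2 / (q : ℝ) ^ 2 := by
      rw [hd]
      field_simp
      ring
    have e2 : (1 - x) ^ 2 = ((q : ℝ) - 1) ^ 2 / (q : ℝ) ^ 2 := by
      rw [hx]
      field_simp
    rw [e1, e2, hd]
    field_simp
    ring
  rw [h5]
  have h6 : ∑ k ∈ Finset.range (K + 1), ((k : ℝ) + 1) * x ^ k ≤ 1 / (1 - x) ^ 2 := by
    rw [le_div_iff₀ h4, mul_comm]
    exact h3
  linarith

private lemma jl_prod (D : Finset ℕ) : (∀ p ∈ D, p.Prime) → ∀ T : Finset ℕ,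
    (∀ n ∈ T, 1 ≤ n ∧ n.primeFactors = D) →
    ∑ n ∈ T, (tau n : ℝ) / n ≤ ∏ p ∈ D, hd p / (1 - hd p) := by
  classical
  induction D using Finset.induction_on with
  | empty =>
    intro _ T hT
    have h1 : T ⊆ {1} := by
      intro n hn
      obtain ⟨h1, h2⟩ := hT n hn
      rw [Nat.primeFactors_eq_empty] at h2
      rw [Finset.mem_singleton]
      omega
    calc ∑ n ∈ T, (tau n : ℝ) / n ≤ ∑ n ∈ ({1} : Finset ℕ), (tau n : ℝ) / n :=
          Finset.sum_le_sum_of_subset_of_nonneg h1 fun n _ _ => by positivity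
      _ = 1 := by simp [tau]
      _ ≤ _ := by simp
  | insert q D hqD ih =>
    intro hD T hT
    have hq : q.Prime := hD q (Finset.mem_insert_self q D)
    have hq0 : (0 : ℝ) < q := by exact_mod_cast hq.pos
    have ih' := ih (fun p hp => hD p (Finset.mem_insert_of_mem hp))
    set κ : ℕ → ℕ := fun n => n.factorization q with hκ
    set μ : ℕ → ℕ := fun n => n / q ^ n.factorization q with hμ
    set φ : ℕ × ℕ → ℝ := fun x => ((x.1 : ℝ) + 1) * (1 / (q : ℝ)) ^ x.1 * ((tau x.2 : ℝ) / x.2)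
      with hφ
    have hmul : ∀ n, q ^ κ n * μ n = n := fun n => Nat.ordProj_mul_ordCompl_eq_self n q
    have hμpos : ∀ n ∈ T, 1 ≤ μ n := fun n hn =>
      Nat.ordCompl_pos q (by have := (hT n hn).1; omega)
    have hμpf : ∀ n ∈ T, (μ n).primeFactors = D := by
      intro n hn
      have h1 : (μ n).primeFactors = n.primeFactors.erase q := by
        have h2 := Nat.factorization_ordCompl n q
        rw [← Nat.support_factorization, ← Nat.support_factorization, ← Finsupp.support_erase]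
        exact congrArg Finsupp.support h2
      rw [h1, (hT n hn).2, Finset.erase_insert hqD]
    have hκpos : ∀ n ∈ T, 1 ≤ κ n := by
      intro n hn
      have h1 : q ∈ n.primeFactors := by
        rw [(hT n hn).2]
        exact Finset.mem_insert_self q D
      exact (hq.factorization_pos_of_dvd (by have := (hT n hn).1; omega)
        (Nat.dvd_of_mem_primeFactors h1))
    have hval : ∀ n ∈ T, (tau n : ℝ) / n = φ (κ n, μ n) := by
      intro n hn
      have hcop : Nat.Coprime (q ^ κ n) (μ n) := by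
        refine Nat.Coprime.pow_left _ ?_
        exact Nat.coprime_ordCompl hq (by have := (hT n hn).1; omega)
      have h1 : tau n = (κ n + 1) * tau (μ n) := by
        conv_lhs => rw [← hmul n]
        rw [tau, hcop.card_divisors_mul, Nat.divisors_prime_pow hq, Finset.card_map,
          Finset.card_range]
        rfl
      have h2 : (n : ℝ) = (q : ℝ) ^ κ n * (μ n : ℝ) := by
        have := congrArg (fun m : ℕ => (m : ℝ)) (hmul n)
        push_cast at this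
        exact this.symm
      have h3 : (0 : ℝ) < μ n := by exact_mod_cast hμpos n hn
      rw [h1, h2, hφ]
      simp only
      push_cast
      rw [one_div, inv_pow]
      field_simp
    have hinj : Set.InjOn (fun n => (κ n, μ n)) (T : Set ℕ) := by
      intro n _ m _ h
      simp only [Prod.mk.injEq] at h
      rw [← hmul n, ← hmul m, h.1, h.2]
    calc ∑ n ∈ T, (tau n : ℝ) / n = ∑ n ∈ T, φ (κ n, μ n) := Finset.sum_congr rfl hval
      _ = ∑ x ∈ T.image (fun n => (κ n, μ n)), φ x := (Finset.sum_image hinj).symm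
      _ ≤ ∑ x ∈ (T.image κ) ×ˢ (T.image μ), φ x := by
          refine Finset.sum_le_sum_of_subset_of_nonneg ?_ fun x _ _ => ?_
          · intro x hx
            rw [Finset.mem_image] at hx
            obtain ⟨n, hn, rfl⟩ := hx
            exact Finset.mem_product.2 ⟨Finset.mem_image_of_mem _ hn, Finset.mem_image_of_mem _ hn⟩
          · rw [hφ]
            positivity
      _ = (∑ k ∈ T.image κ, ((k : ℝ) + 1) * (1 / (q : ℝ)) ^ k) *
            ∑ m ∈ T.image μ, (tau m : ℝ) / m := by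
          rw [Finset.sum_mul_sum, Finset.sum_product]
      _ ≤ (hd q / (1 - hd q)) * ∏ p ∈ D, hd p / (1 - hd p) := by
          have h1 := jl_geo_le q hq (T.image κ) (by
            intro k hk
            rw [Finset.mem_image] at hk
            obtain ⟨n, hn, rfl⟩ := hk
            exact hκpos n hn)
          have h2 := ih' (T.image μ) (by
            intro m hm
            rw [Finset.mem_image] at hm
            obtain ⟨n, hn, rfl⟩ := hm
            exact ⟨hμpos n hn, hμpf n hn⟩)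
          have h3 : 0 ≤ ∑ k ∈ T.image κ, ((k : ℝ) + 1) * (1 / (q : ℝ)) ^ k :=
            Finset.sum_nonneg fun k _ => by positivity
          have h4 : 0 ≤ ∑ m ∈ T.image μ, (tau m : ℝ) / m :=
            Finset.sum_nonneg fun m _ => by positivity
          exact mul_le_mul h1 h2 h4 (h3.trans h1)
      _ = ∏ p ∈ insert q D, hd p / (1 - hd p) := by rw [Finset.prod_insert hqD]
/-- the Selberg denominator.

Proof. For `p` split, `hd p/(1 - hd p) = 1/(1 - 1/p)^2 - 1 = ∑_{k ≥ 1} (k+1)/p^k`. For `w ∈ Us 1 R`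
the norm `n = nm w` is odd and all its prime factors are split (`Sp_of_dvd`), and
`D = n.primeFactors ∈ DS R`. For `D ∈ DS R`, `∏_{p ∈ D} hd p/(1 - hd p) ≥ ∑_{n ∈ N_D} tau n/n`, where
`N_D` is the (finite) set of `n ≤ R` with `n.primeFactors = D` (expand the product of the
series: `n = ∏ p^(k_p)`, `tau n = ∏ (k_p + 1)`). Hence the sum over `D` is
`≥ ∑_{n ≤ R, primes of n split} tau n/n ≥ (1/4) ∑_{w ∈ Us 1 R} 1/nm w` by `U_norm`. Conclude by
`U_harm`. -/
theorem J_low : ∃ c R0 : ℝ, 0 < c ∧ 2 ≤ R0 ∧ ∀ R : ℝ, R0 ≤ R →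
    c * Real.log R ≤ ∑ D ∈ DS R, ∏ p ∈ D, hd p / (1 - hd p) := by
  classical
  obtain ⟨c, R0, hc, hR0, h⟩ := U_harm
  refine ⟨c / 4, R0, by positivity, hR0, fun R hR => ?_⟩
  have h1 := h R hR
  set N : ℤ√2 → ℕ := fun w => (nm w).toNat with hN
  set T : Finset ℕ := (Us 1 R).image N with hT
  have hcan : ∀ w ∈ Us 1 R, Can w ∧ 1 ≤ nm w ∧ (nm w : ℝ) < R ∧ ((N w : ℕ) : ℤ) = nm w := by
    intro w hw
    obtain ⟨h2, h3, h4⟩ := mem_Us.1 hw
    have h5 : 1 ≤ nm w := by exact_mod_cast h3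
    exact ⟨h2, h5, h4, Int.toNat_of_nonneg (by omega)⟩
  have hNR : ∀ w ∈ Us 1 R, (nm w : ℝ) = (N w : ℝ) := by
    intro w hw
    have h2 := (hcan w hw).2.2.2
    rw [← h2]
    simp
  have hstep1 : ∑ w ∈ Us 1 R, 1 / (nm w : ℝ) ≤ 4 * ∑ n ∈ T, (tau n : ℝ) / n := by
    rw [← Finset.sum_fiberwise_of_maps_to (s := Us 1 R) (t := T) (g := N)
      (fun w hw => Finset.mem_image_of_mem _ hw), Finset.mul_sum]
    refine Finset.sum_le_sum fun n hn => ?_
    rw [hT, Finset.mem_image] at hn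
    obtain ⟨w0, hw0, rfl⟩ := hn
    have hn1 : 1 ≤ N w0 := by
      have h2 := hcan w0 hw0
      have h3 : (1 : ℤ) ≤ (N w0 : ℕ) := by rw [h2.2.2.2]; exact h2.2.1
      exact_mod_cast h3
    have h2 : ∀ w ∈ (Us 1 R).filter (fun w => N w = N w0), 1 / (nm w : ℝ) = 1 / (N w0 : ℝ) := by
      intro w hw
      rw [Finset.mem_filter] at hw
      rw [hNR w hw.1, hw.2]
    rw [Finset.sum_congr rfl h2, Finset.sum_const, nsmul_eq_mul]
    have h3 := U_norm (N w0) hn1 ((Us 1 R).filter (fun w => N w = N w0)) (by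
      intro w hw
      rw [Finset.mem_filter] at hw
      refine ⟨(hcan w hw.1).1, ?_⟩
      rw [← (hcan w hw.1).2.2.2, hw.2])
    have h4 : (0 : ℝ) < N w0 := by exact_mod_cast hn1
    calc (((Us 1 R).filter (fun w => N w = N w0)).card : ℝ) * (1 / (N w0 : ℝ))
        ≤ (4 * tau (N w0)) * (1 / (N w0 : ℝ)) :=
          mul_le_mul_of_nonneg_right h3 (by positivity)
      _ = 4 * ((tau (N w0) : ℝ) / (N w0 : ℝ)) := by ring
  have hmaps : ∀ n ∈ T, n.primeFactors ∈ DS R := by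
    intro n hn
    rw [hT, Finset.mem_image] at hn
    obtain ⟨w, hw, rfl⟩ := hn
    obtain ⟨hC, hn1, hn2, hn3⟩ := hcan w hw
    have hn0 : 1 ≤ N w := by
      have h3 : (1 : ℤ) ≤ (N w : ℕ) := by rw [hn3]; exact hn1
      exact_mod_cast h3
    have hnR : (N w : ℝ) < R := by rw [← hNR w hw]; exact hn2
    rw [DS, Finset.mem_filter, Finset.mem_powerset]
    constructor
    · intro p hp
      have hpp := Nat.prime_of_mem_primeFactors hp
      have hpd := Nat.dvd_of_mem_primeFactors hp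
      have hpn : p ≤ N w := Nat.le_of_dvd (by omega) hpd
      rw [Spl, Finset.mem_filter, Finset.mem_range]
      refine ⟨?_, ?_⟩
      · have h2 : (p : ℝ) ≤ R := le_trans (by exact_mod_cast hpn) hnR.le
        have h3 : p ≤ ⌊R⌋₊ := Nat.le_floor h2
        omega
      · have hdvd : (p : ℤ) ∣ nm w := by
          rw [← hn3]
          exact_mod_cast hpd
        refine Sp_of_dvd hC.2.1 hpp ?_ hdvd
        rintro rfl
        have h2 := nm_odd hC.1.2
        omega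
    · have h2 : ∏ p ∈ (N w).primeFactors, p ≤ N w :=
        Nat.le_of_dvd (by omega) (Nat.prod_primeFactors_dvd _)
      exact le_trans (by exact_mod_cast h2) hnR.le
  have hstep2 : ∑ n ∈ T, (tau n : ℝ) / n ≤ ∑ D ∈ DS R, ∏ p ∈ D, hd p / (1 - hd p) := by
    rw [← Finset.sum_fiberwise_of_maps_to (s := T) (t := DS R) (g := Nat.primeFactors) hmaps]
    refine Finset.sum_le_sum fun D hD => ?_
    rw [DS, Finset.mem_filter, Finset.mem_powerset] at hD
    refine jl_prod D ?_ _ ?_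
    · intro p hp
      have h2 := hD.1 hp
      rw [Spl, Finset.mem_filter] at h2
      exact h2.2.1
    · intro n hn
      rw [Finset.mem_filter, hT, Finset.mem_image] at hn
      obtain ⟨⟨w, hw, rfl⟩, h3⟩ := hn
      refine ⟨?_, h3⟩
      obtain ⟨-, hn1, -, hn3⟩ := hcan w hw
      have h3 : (1 : ℤ) ≤ (N w : ℕ) := by rw [hn3]; exact hn1
      exact_mod_cast h3
  calc c / 4 * Real.log R = (c * Real.log R) / 4 := by ring
    _ ≤ (4 * ∑ D ∈ DS R, ∏ p ∈ D, hd p / (1 - hd p)) / 4 := by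
        have := h1.trans (hstep1.trans (mul_le_mul_of_nonneg_left hstep2 (by norm_num)))
        linarith
    _ = _ := by ring

end

end Pool.Agent.Lib.MP_0b748d_nt.MR
end

section

set_option autoImplicit false

/-!
# Prime elements in sectors: upper bound by the sieve
-/

namespace Pool.Agent.Lib.MP_0b748d_nt.MR

open Zsqrtd

noncomputable section

private lemma ps_primes {R : ℝ} {D : Finset ℕ} (hD : D ∈ DS R) :
    (∀ p ∈ D, p.Prime) ∧ ((∏ p ∈ D, p : ℕ) : ℝ) ≤ R := by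
  classical
  rw [DS, Finset.mem_filter, Finset.mem_powerset] at hD
  refine ⟨fun p hp => ?_, hD.2⟩
  have h2 := hD.1 hp
  rw [Spl, Finset.mem_filter] at h2
  exact h2.2.1

private lemma ps_tau (U : Finset ℕ) : (∀ p ∈ U, p.Prime) → tau (∏ p ∈ U, p) = 2 ^ U.card := by
  classical
  induction U using Finset.induction_on with
  | empty => intro _; simp [tau]
  | insert q U hq ih =>
    intro h
    have hqp := h q (Finset.mem_insert_self q U)
    have hcop : Nat.Coprime q (∏ p ∈ U, p) := by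
      refine Nat.Coprime.prod_right fun p hp => ?_
      refine (Nat.coprime_primes hqp (h p (Finset.mem_insert_of_mem hp))).2 ?_
      rintro rfl
      exact hq hp
    rw [Finset.prod_insert hq, tau, hcop.card_divisors_mul, Finset.card_insert_of_notMem hq]
    have h1 := tau_prime hqp
    have h2 := ih fun p hp => h p (Finset.mem_insert_of_mem hp)
    rw [tau] at h1 h2
    rw [h1, h2, pow_succ, mul_comm]

private lemma ps_inj {U V : Finset ℕ} (hU : ∀ p ∈ U, p.Prime) (hV : ∀ p ∈ V, p.Prime)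
    (h : ∏ p ∈ U, p = ∏ p ∈ V, p) : U = V := by
  rw [← Nat.primeFactors_prod hU, ← Nat.primeFactors_prod hV, h]

/-- sum over pairs of sets by their union.

Proof. Group the pairs by `U = D ∪ E`: `Π_U ≤ Π_D Π_E ≤ R^2`, for given `U` there are `3^|U|` pairs,
`3^|U| 3^|U| ≤ 4^|U| 4^|U| = tau(Π_U)^4`, and `U ↦ Π_U` is injective on sets of primes. So the
sum is at most `∑_{n ≤ R^2} tau(n)^4 n^(-1+η) ≤ R^(2η) ∑_{n ≤ R^2} tau(n)^4/n
≤ R^(2η) (1 + log R^2)^16` (`tau_pow_sum`, `∑_{n ≤ N} 1/n ≤ 1 + log N`). -/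
theorem pair_sum (R η : ℝ) (hR : 1 ≤ R) (hη : 0 ≤ η) (hη1 : η ≤ 1) :
    ∑ D ∈ DS R, ∑ E ∈ DS R, (3 : ℝ) ^ (D ∪ E).card *
      ((∏ p ∈ D ∪ E, p : ℕ) : ℝ) ^ (-(1 - η)) ≤ R ^ (2 * η) * (1 + 2 * Real.log R) ^ 16 := by
  classical
  set N : ℕ := ⌊R ^ 2⌋₊ with hN
  have hR0 : (0 : ℝ) < R := by linarith
  set P : Finset ℕ → ℕ := fun U => ∏ p ∈ U, p with hP
  set ψ : Finset ℕ → ℝ := fun U => (3 : ℝ) ^ U.card * ((P U : ℕ) : ℝ) ^ (-(1 - η)) with hψ
  set 𝒰 : Finset (Finset ℕ) := (DS R ×ˢ DS R).image (fun x => x.1 ∪ x.2) with h𝒰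
  have h𝒰p : ∀ U ∈ 𝒰, (∀ p ∈ U, p.Prime) ∧ 1 ≤ P U ∧ ((P U : ℕ) : ℝ) ≤ R ^ 2 := by
    intro U hU
    rw [h𝒰, Finset.mem_image] at hU
    obtain ⟨⟨D, E⟩, hx, rfl⟩ := hU
    rw [Finset.mem_product] at hx
    obtain ⟨h1, h2⟩ := ps_primes hx.1
    obtain ⟨h3, h4⟩ := ps_primes hx.2
    have h5 : ∀ p ∈ D ∪ E, p.Prime := by
      intro p hp
      rcases Finset.mem_union.1 hp with hp | hp
      · exact h1 p hp
      · exact h3 p hp
    refine ⟨h5, Finset.prod_pos fun p hp => (h5 p hp).pos, ?_⟩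
    have h6 : P (D ∪ E) * P (D ∩ E) = P D * P E := Finset.prod_union_inter
    have h7 : 1 ≤ P (D ∩ E) := Finset.prod_pos fun p hp =>
      (h1 p (Finset.mem_of_mem_inter_left hp)).pos
    have h8 : P (D ∪ E) ≤ P D * P E := by
      rw [← h6]
      exact Nat.le_mul_of_pos_right _ h7
    calc ((P (D ∪ E) : ℕ) : ℝ) ≤ ((P D * P E : ℕ) : ℝ) := by exact_mod_cast h8
      _ = (P D : ℝ) * (P E : ℝ) := by push_cast; ring
      _ ≤ R * R := mul_le_mul h2 h4 (by positivity) hR0.le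
      _ = R ^ 2 := by ring
  have hstep1 : ∑ D ∈ DS R, ∑ E ∈ DS R, (3 : ℝ) ^ (D ∪ E).card *
      ((∏ p ∈ D ∪ E, p : ℕ) : ℝ) ^ (-(1 - η)) ≤ ∑ U ∈ 𝒰, (4 : ℝ) ^ U.card * ψ U := by
    rw [← Finset.sum_product']
    rw [← Finset.sum_fiberwise_of_maps_to (s := DS R ×ˢ DS R) (t := 𝒰)
      (g := fun x => x.1 ∪ x.2) (fun x hx => Finset.mem_image_of_mem _ hx)]
    refine Finset.sum_le_sum fun U hU => ?_
    have h1 : ∀ x ∈ (DS R ×ˢ DS R).filter (fun x => x.1 ∪ x.2 = U),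
        (3 : ℝ) ^ (x.1 ∪ x.2).card * ((∏ p ∈ x.1 ∪ x.2, p : ℕ) : ℝ) ^ (-(1 - η)) = ψ U := by
      intro x hx
      rw [Finset.mem_filter] at hx
      rw [hx.2]
    rw [Finset.sum_congr rfl h1, Finset.sum_const, nsmul_eq_mul]
    have h2 : (DS R ×ˢ DS R).filter (fun x => x.1 ∪ x.2 = U) ⊆ U.powerset ×ˢ U.powerset := by
      intro x hx
      rw [Finset.mem_filter] at hx
      rw [Finset.mem_product, Finset.mem_powerset, Finset.mem_powerset, ← hx.2]
      exact ⟨Finset.subset_union_left, Finset.subset_union_right⟩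
    have h3 := Finset.card_le_card h2
    rw [Finset.card_product, Finset.card_powerset, ← mul_pow] at h3
    have h4 : (((DS R ×ˢ DS R).filter (fun x => x.1 ∪ x.2 = U)).card : ℝ) ≤ (4 : ℝ) ^ U.card := by
      have h5 : ((((DS R ×ˢ DS R).filter (fun x => x.1 ∪ x.2 = U)).card : ℕ) : ℝ) ≤
          (((2 * 2) ^ U.card : ℕ) : ℝ) := by exact_mod_cast h3
      refine h5.trans (le_of_eq ?_)
      push_cast
      norm_num
    have h5 : 0 ≤ ψ U := by
      rw [hψ]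
      positivity
    exact mul_le_mul_of_nonneg_right h4 h5
  have hstep2 : ∀ U ∈ 𝒰, (4 : ℝ) ^ U.card * ψ U ≤
      R ^ (2 * η) * ((tau (P U) : ℝ) ^ 4 / (P U : ℝ)) := by
    intro U hU
    obtain ⟨h1, h2, h3⟩ := h𝒰p U hU
    have h4 : (0 : ℝ) < (P U : ℝ) := by exact_mod_cast h2
    have h5 : ((P U : ℕ) : ℝ) ^ (-(1 - η)) = ((P U : ℕ) : ℝ) ^ η / (P U : ℝ) := by
      rw [show -(1 - η) = η - 1 by ring, Real.rpow_sub h4, Real.rpow_one]
    have h6 : ((P U : ℕ) : ℝ) ^ η ≤ R ^ (2 * η) := by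
      have h7 : R ^ (2 * η) = (R ^ 2) ^ η := by
        rw [← Real.rpow_natCast R 2, ← Real.rpow_mul hR0.le]
        norm_num
      rw [h7]
      exact Real.rpow_le_rpow h4.le h3 hη
    have h7 : (4 : ℝ) ^ U.card * (3 : ℝ) ^ U.card ≤ (tau (P U) : ℝ) ^ 4 := by
      rw [ps_tau U h1, ← mul_pow]
      push_cast
      rw [← pow_mul, mul_comm U.card 4, pow_mul]
      refine pow_le_pow_left₀ (by norm_num) (by norm_num) _
    have h8 : (4 : ℝ) ^ U.card * ψ U =
        ((4 : ℝ) ^ U.card * (3 : ℝ) ^ U.card) * (((P U : ℕ) : ℝ) ^ η / (P U : ℝ)) := by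
      rw [hψ]
      simp only
      rw [h5]
      ring
    rw [h8]
    calc ((4 : ℝ) ^ U.card * (3 : ℝ) ^ U.card) * (((P U : ℕ) : ℝ) ^ η / (P U : ℝ))
        ≤ (tau (P U) : ℝ) ^ 4 * (R ^ (2 * η) / (P U : ℝ)) := by
          refine mul_le_mul h7 ?_ (by positivity) (by positivity)
          exact div_le_div_of_nonneg_right h6 h4.le
      _ = _ := by ring
  have hstep3 : ∑ U ∈ 𝒰, ((tau (P U) : ℝ) ^ 4 / (P U : ℝ)) ≤
      ∑ d ∈ Finset.Icc 1 N, (tau d : ℝ) ^ 4 / d := by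
    have hinj : Set.InjOn P (𝒰 : Set (Finset ℕ)) := by
      intro U hU V hV h
      exact ps_inj (h𝒰p U hU).1 (h𝒰p V hV).1 h
    rw [← Finset.sum_image (f := fun d : ℕ => (tau d : ℝ) ^ 4 / (d : ℝ)) hinj]
    refine Finset.sum_le_sum_of_subset_of_nonneg ?_ fun d _ _ => by positivity
    intro d hd
    rw [Finset.mem_image] at hd
    obtain ⟨U, hU, rfl⟩ := hd
    obtain ⟨h1, h2, h3⟩ := h𝒰p U hU
    rw [Finset.mem_Icc]
    exact ⟨h2, Nat.le_floor h3⟩
  have hN1 : 1 ≤ N := by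
    rw [hN]
    refine Nat.le_floor ?_
    push_cast
    nlinarith
  have hharm : ∑ d ∈ Finset.Icc 1 N, (1 : ℝ) / d ≤ 1 + 2 * Real.log R := by
    have h1 := harmonic_le_one_add_log N
    have h2 : ((harmonic N : ℚ) : ℝ) = ∑ d ∈ Finset.Icc 1 N, (1 : ℝ) / d := by
      rw [harmonic_eq_sum_Icc]
      push_cast
      simp only [one_div]
    rw [← h2]
    have h3 : Real.log N ≤ 2 * Real.log R := by
      have h4 : (N : ℝ) ≤ R ^ 2 := Nat.floor_le (by positivity)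
      have h5 : Real.log (R ^ 2) = 2 * Real.log R := by
        rw [Real.log_pow]
        push_cast
        ring
      rw [← h5]
      exact Real.log_le_log (by exact_mod_cast hN1) h4
    linarith
  calc ∑ D ∈ DS R, ∑ E ∈ DS R, (3 : ℝ) ^ (D ∪ E).card *
      ((∏ p ∈ D ∪ E, p : ℕ) : ℝ) ^ (-(1 - η)) ≤ ∑ U ∈ 𝒰, (4 : ℝ) ^ U.card * ψ U := hstep1
    _ ≤ ∑ U ∈ 𝒰, R ^ (2 * η) * ((tau (P U) : ℝ) ^ 4 / (P U : ℝ)) := Finset.sum_le_sum hstep2
    _ = R ^ (2 * η) * ∑ U ∈ 𝒰, ((tau (P U) : ℝ) ^ 4 / (P U : ℝ)) := by rw [Finset.mul_sum]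
    _ ≤ R ^ (2 * η) * (∑ d ∈ Finset.Icc 1 N, (1 : ℝ) / d) ^ (2 ^ 4) :=
        mul_le_mul_of_nonneg_left (hstep3.trans (tau_pow_sum 4 N)) (by positivity)
    _ ≤ R ^ (2 * η) * (1 + 2 * Real.log R) ^ 16 := by
        refine mul_le_mul_of_nonneg_left ?_ (by positivity)
        norm_num only
        refine pow_le_pow_left₀ (Finset.sum_nonneg fun d _ => by positivity) hharm _

end

end Pool.Agent.Lib.MP_0b748d_nt.MR
end

section

set_option autoImplicit false

/-!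
# Sums over elements whose norm is divisible by given primes
-/

namespace Pool.Agent.Lib.MP_0b748d_nt.MR

open Zsqrtd

noncomputable section

/-- the counting function: induction on `D` with `SD_insert` for `φ = 1`, `V_count`;
`hd q = 2/q - 1/q^2`, and the errors satisfy `2 E(b/q) + E(b/q^2) ≤ 3 E(b)` -/
theorem SD_one : ∃ C : ℝ, 1 ≤ C ∧ ∀ D : Finset ℕ, (∀ p ∈ D, Sp p) → ∀ a b : ℝ, 0 ≤ a → a ≤ b →
    ‖SD (fun _ => 1) D a b - ((kap * (b - a) * ∏ p ∈ D, hd p : ℝ) : ℂ)‖ ≤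
      C * 3 ^ D.card * √b := by
  obtain ⟨C0, hC0, hV⟩ := V_count
  refine ⟨C0 + 1, by linarith, fun D => ?_⟩
  induction D using Finset.induction_on with
  | empty =>
    intro _ a b ha hab
    rw [SD_empty]
    simp only [Finset.prod_empty, mul_one, Finset.card_empty, pow_zero, Finset.sum_const,
      nsmul_eq_mul]
    have h1 := hV a b ha hab
    have h2 : (((Vs a b).card : ℂ) - ((kap * (b - a) : ℝ) : ℂ)) =
        ((((Vs a b).card : ℝ) - kap * (b - a) : ℝ) : ℂ) := by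
      push_cast
      ring
    rw [h2, Complex.norm_real, Real.norm_eq_abs]
    have h3 := Real.sqrt_nonneg b
    linarith
  | insert q D hqD ih =>
    intro hD a b ha hab
    have hq : Sp q := hD q (Finset.mem_insert_self _ _)
    have hD' : ∀ p ∈ D, Sp p := fun p hp => hD p (Finset.mem_insert_of_mem hp)
    have hq0 : (1 : ℝ) ≤ q := by exact_mod_cast hq.1.one_lt.le
    have hqp : (0 : ℝ) < q := by linarith
    have hb : 0 ≤ b := ha.trans hab
    rw [SD_insert (fun _ => 1) (fun _ _ _ => rfl) (fun _ _ _ _ => by simp) D hD' q hq hqD a b]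
    have h1 := ih hD' (a / q) (b / q) (by positivity) (by gcongr)
    have h2 := ih hD' (a / (q : ℝ) ^ 2) (b / (q : ℝ) ^ 2) (by positivity) (by gcongr)
    rw [Finset.prod_insert hqD, Finset.card_insert_of_notMem hqD]
    set H : ℝ := ∏ p ∈ D, hd p with hH
    set S1 := SD (fun _ => 1) D (a / q) (b / q) with hS1
    set S2 := SD (fun _ => 1) D (a / (q : ℝ) ^ 2) (b / (q : ℝ) ^ 2) with hS2
    have e : (1 + 1 : ℂ) * S1 - 1 * S2 - ((kap * (b - a) * (hd q * H) : ℝ) : ℂ) =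
        2 * (S1 - ((kap * (b / q - a / q) * H : ℝ) : ℂ)) -
        (S2 - ((kap * (b / (q : ℝ) ^ 2 - a / (q : ℝ) ^ 2) * H : ℝ) : ℂ)) := by
      have e1 : kap * (b - a) * (hd q * H) = 2 * (kap * (b / q - a / q) * H) -
          kap * (b / (q : ℝ) ^ 2 - a / (q : ℝ) ^ 2) * H := by
        unfold hd
        field_simp
      rw [e1]
      push_cast
      ring
    rw [e]
    have hs1 : √(b / q) ≤ √b := Real.sqrt_le_sqrt (div_le_self hb hq0)
    have hs2 : √(b / (q : ℝ) ^ 2) ≤ √b :=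
      Real.sqrt_le_sqrt (div_le_self hb (by nlinarith))
    have hc : 0 ≤ (C0 + 1) * 3 ^ D.card := by positivity
    calc ‖2 * (S1 - ((kap * (b / q - a / q) * H : ℝ) : ℂ)) -
        (S2 - ((kap * (b / (q : ℝ) ^ 2 - a / (q : ℝ) ^ 2) * H : ℝ) : ℂ))‖ ≤
        ‖2 * (S1 - ((kap * (b / q - a / q) * H : ℝ) : ℂ))‖ +
        ‖S2 - ((kap * (b / (q : ℝ) ^ 2 - a / (q : ℝ) ^ 2) * H : ℝ) : ℂ)‖ := norm_sub_le _ _
      _ ≤ 2 * ((C0 + 1) * 3 ^ D.card * √(b / q)) +
          (C0 + 1) * 3 ^ D.card * √(b / (q : ℝ) ^ 2) := by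
          rw [_root_.norm_mul]
          have : ‖(2 : ℂ)‖ = 2 := by simp
          rw [this]
          gcongr
      _ ≤ 2 * ((C0 + 1) * 3 ^ D.card * √b) + (C0 + 1) * 3 ^ D.card * √b := by gcongr
      _ = (C0 + 1) * 3 ^ (D.card + 1) * √b := by ring

/-- the character sums: induction on `D` with `SD_insert` for `φ = xi j` and `V_exp M`;
`|xi j (el q true) + xi j (el q false)| ≤ 2`, `xi j q = 1`.

Precisely, let `Π = ∏_{p ∈ D} p`. The hypotheses `Π^2 ≤ b` and `|j| ≤ (b/Π^2)^M` pass from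
`(insert q D, b)` to `(D, b/q)` and `(D, b/q^2)`; the bounds are
`2 (C 3^|D| ((b/q)/Π)^(1-η)) + C 3^|D| ((b/q^2)/Π)^(1-η) ≤ C 3^(|D|+1) (b/(qΠ))^(1-η)`. -/
theorem SD_char (M : ℕ) : ∃ C η : ℝ, 1 ≤ C ∧ 0 < η ∧ η ≤ 1 / 8 ∧ ∀ D : Finset ℕ,
    (∀ p ∈ D, Sp p) → ∀ a b : ℝ, 0 ≤ a → ((∏ p ∈ D, p : ℕ) : ℝ) ^ 2 ≤ b → ∀ j : ℤ, j ≠ 0 →
    |(j : ℝ)| ≤ (b / ((∏ p ∈ D, p : ℕ) : ℝ) ^ 2) ^ M →
    ‖SD (xi j) D a b‖ ≤ C * 3 ^ D.card * (b / ((∏ p ∈ D, p : ℕ) : ℝ)) ^ (1 - η) := by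
  obtain ⟨C, η, hC, hη, hη8, hV⟩ := V_exp M
  refine ⟨C, η, hC, hη, hη8, fun D => ?_⟩
  have hη1 : 0 ≤ 1 - η := by linarith
  induction D using Finset.induction_on with
  | empty =>
    intro _ a b ha hb j hj hjb
    rw [SD_empty]
    simp only [Finset.prod_empty, Nat.cast_one, one_pow, div_one] at hb hjb ⊢
    simp only [Finset.card_empty, pow_zero, mul_one]
    exact hV a b ha hb j hj hjb
  | insert q D hqD ih =>
    intro hD a b ha hb j hj hjb
    have hq : Sp q := hD q (Finset.mem_insert_self _ _)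
    have hD' : ∀ p ∈ D, Sp p := fun p hp => hD p (Finset.mem_insert_of_mem hp)
    have hq0 : (1 : ℝ) ≤ q := by exact_mod_cast hq.1.one_lt.le
    have hqp : (0 : ℝ) < q := by linarith
    rw [Finset.prod_insert hqD, Nat.cast_mul] at hb hjb ⊢
    rw [Finset.card_insert_of_notMem hqD]
    have hPN : 0 < ∏ p ∈ D, p := Finset.prod_pos fun p hp => (hD' p hp).1.pos
    set P : ℝ := ((∏ p ∈ D, p : ℕ) : ℝ) with hP
    have hP0 : 0 < P := by
      rw [hP]
      exact_mod_cast hPN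
    have hb0 : 0 ≤ b := le_trans (by positivity) hb
    have hb2 : P ^ 2 ≤ b / (q : ℝ) ^ 2 := by
      rw [le_div_iff₀ (by positivity)]
      calc P ^ 2 * (q : ℝ) ^ 2 = (q * P) ^ 2 := by ring
        _ ≤ b := hb
    have hqq : (q : ℝ) ≤ (q : ℝ) ^ 2 := by nlinarith
    have hb21 : b / (q : ℝ) ^ 2 ≤ b / q := by gcongr
    have hb1 : P ^ 2 ≤ b / q := hb2.trans hb21
    have hj2 : |(j : ℝ)| ≤ (b / (q : ℝ) ^ 2 / P ^ 2) ^ M := by
      refine hjb.trans (le_of_eq ?_)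
      congr 1
      field_simp
    have hj1 : |(j : ℝ)| ≤ (b / q / P ^ 2) ^ M := by
      refine hj2.trans ?_
      gcongr
    rw [SD_insert (xi j) (xi_inv j) (fun z w hz hw => xi_mul j hz.1 hw.1) D hD' q hq hqD a b]
    have h1 := ih hD' (a / q) (b / q) (by positivity) hb1 j hj hj1
    have h2 := ih hD' (a / (q : ℝ) ^ 2) (b / (q : ℝ) ^ 2) (by positivity) hb2 j hj hj2
    have hc : 0 ≤ C * 3 ^ D.card := by positivity
    have e1 : b / q / P = b / (q * P) := by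
      field_simp
    have e2 : (b / (q : ℝ) ^ 2 / P) ^ (1 - η) ≤ (b / (q * P)) ^ (1 - η) := by
      rw [← e1]
      apply Real.rpow_le_rpow (by positivity) _ hη1
      gcongr
    rw [e1] at h1
    calc ‖(xi j (el q true) + xi j (el q false)) * SD (xi j) D (a / q) (b / q) -
          xi j ((q : ℕ) : ℤ√2) * SD (xi j) D (a / (q : ℝ) ^ 2) (b / (q : ℝ) ^ 2)‖ ≤
          ‖(xi j (el q true) + xi j (el q false)) * SD (xi j) D (a / q) (b / q)‖ +
          ‖xi j ((q : ℕ) : ℤ√2) * SD (xi j) D (a / (q : ℝ) ^ 2) (b / (q : ℝ) ^ 2)‖ :=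
          norm_sub_le _ _
      _ ≤ 2 * (C * 3 ^ D.card * (b / (q * P)) ^ (1 - η)) +
          1 * (C * 3 ^ D.card * (b / (q : ℝ) ^ 2 / P) ^ (1 - η)) := by
          rw [_root_.norm_mul, _root_.norm_mul, norm_xi]
          have h3 : ‖xi j (el q true) + xi j (el q false)‖ ≤ 2 := by
            refine (norm_add_le _ _).trans ?_
            rw [norm_xi, norm_xi]
            norm_num
          gcongr
      _ ≤ 2 * (C * 3 ^ D.card * (b / (q * P)) ^ (1 - η)) +
          1 * (C * 3 ^ D.card * (b / (q * P)) ^ (1 - η)) := by gcongr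
      _ = C * 3 ^ (D.card + 1) * (b / (q * P)) ^ (1 - η) := by ring

end

end Pool.Agent.Lib.MP_0b748d_nt.MR
end

section

set_option autoImplicit false

/-!
# Prime elements in sectors: upper bound by the sieve
-/

namespace Pool.Agent.Lib.MP_0b748d_nt.MR

open Zsqrtd

noncomputable section

open Classical in
/-- indicator of the divisibility conditions -/
private def psI (D : Finset ℕ) (w : ℤ√2) : ℝ := if ∀ p ∈ D, (p : ℤ) ∣ nm w then 1 else 0

private theorem psI_mul (D E : Finset ℕ) (w : ℤ√2) : psI D w * psI E w = psI (D ∪ E) w := by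
  unfold psI
  by_cases h1 : ∀ p ∈ D, (p : ℤ) ∣ nm w
  · by_cases h2 : ∀ p ∈ E, (p : ℤ) ∣ nm w
    · have h3 : ∀ p ∈ D ∪ E, (p : ℤ) ∣ nm w := by
        intro p hp
        rcases Finset.mem_union.1 hp with h | h
        · exact h1 p h
        · exact h2 p h
      rw [if_pos h1, if_pos h2, if_pos h3, mul_one]
    · have h3 : ¬ ∀ p ∈ D ∪ E, (p : ℤ) ∣ nm w := fun h =>
        h2 fun p hp => h p (Finset.mem_union_right _ hp)
      rw [if_neg h2, if_neg h3, mul_zero]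
  · have h3 : ¬ ∀ p ∈ D ∪ E, (p : ℤ) ∣ nm w := fun h =>
      h1 fun p hp => h p (Finset.mem_union_left _ hp)
    rw [if_neg h1, if_neg h3, zero_mul]

private theorem ps_SD_re (j : ℤ) (U : Finset ℕ) (a b : ℝ) :
    (SD (xi j) U a b).re = ∑ w ∈ Vs a b, psI U w * Real.cos (2 * Real.pi * (j * al w)) := by
  classical
  unfold SD
  rw [Complex.re_sum, Finset.sum_filter]
  refine Finset.sum_congr rfl fun w _ => ?_
  unfold psI
  have h1 : (xi j w).re = Real.cos (2 * Real.pi * (j * al w)) := by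
    unfold xi ee
    have h2 : (2 * (Real.pi : ℂ) * ((j : ℂ) * ((al w : ℝ) : ℂ)) * Complex.I) =
        ((2 * Real.pi * (j * al w) : ℝ) : ℂ) * Complex.I := by push_cast; ring
    have h3 : ((((j : ℝ) * al w : ℝ)) : ℂ) = (j : ℂ) * ((al w : ℝ) : ℂ) := by push_cast; ring
    rw [h3, h2, Complex.exp_ofReal_mul_I_re]
  by_cases h : ∀ p ∈ U, (p : ℤ) ∣ nm w
  · rw [if_pos h, if_pos h, h1, one_mul]
  · rw [if_neg h, if_neg h, zero_mul]

/-- expansion of the square -/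
private theorem ps_expand (J : ℕ) (k : ℤ) (a b : ℝ) (DD : Finset (Finset ℕ))
    (lam : Finset ℕ → ℝ) :
    ∑ w ∈ Vs a b, (∑ D ∈ DD, lam D * psI D w) ^ 2 *
      ∑ l ∈ Finset.Ioo (-(J : ℤ)) J, (1 - |(l : ℝ)| / J) *
        Real.cos (2 * Real.pi * (l * (2 * k * al w))) =
    ∑ D ∈ DD, ∑ E ∈ DD, lam D * lam E * ∑ l ∈ Finset.Ioo (-(J : ℤ)) J, (1 - |(l : ℝ)| / J) *
      (SD (xi (2 * k * l)) (D ∪ E) a b).re := by
  have h1 : ∀ w ∈ Vs a b, (∑ D ∈ DD, lam D * psI D w) ^ 2 *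
      (∑ l ∈ Finset.Ioo (-(J : ℤ)) J, (1 - |(l : ℝ)| / J) *
        Real.cos (2 * Real.pi * (l * (2 * k * al w)))) =
      ∑ D ∈ DD, ∑ E ∈ DD, ∑ l ∈ Finset.Ioo (-(J : ℤ)) J, lam D * lam E *
        ((1 - |(l : ℝ)| / J) *
          (psI (D ∪ E) w * Real.cos (2 * Real.pi * (((2 * k * l : ℤ) : ℝ) * al w)))) := by
    intro w _
    rw [sq, Finset.sum_mul_sum, Finset.sum_mul]
    refine Finset.sum_congr rfl fun D _ => ?_
    rw [Finset.sum_mul]
    refine Finset.sum_congr rfl fun E _ => ?_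
    rw [Finset.mul_sum]
    refine Finset.sum_congr rfl fun l _ => ?_
    rw [← psI_mul]
    have h2 : (l : ℝ) * (2 * k * al w) = ((2 * k * l : ℤ) : ℝ) * al w := by push_cast; ring
    rw [h2]
    ring
  rw [Finset.sum_congr rfl h1, Finset.sum_comm]
  refine Finset.sum_congr rfl fun D _ => ?_
  rw [Finset.sum_comm]
  refine Finset.sum_congr rfl fun E _ => ?_
  rw [Finset.sum_comm, Finset.mul_sum]
  refine Finset.sum_congr rfl fun l _ => ?_
  rw [ps_SD_re, Finset.mul_sum, Finset.mul_sum]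

private theorem mem_DS {R : ℝ} {D : Finset ℕ} : D ∈ DS R ↔
    D ⊆ Spl R ∧ ((∏ p ∈ D, p : ℕ) : ℝ) ≤ R := by
  classical
  unfold DS
  rw [Finset.mem_filter, Finset.mem_powerset]

private theorem mem_Spl {R : ℝ} {p : ℕ} : p ∈ Spl R ↔ p < ⌊R⌋₊ + 1 ∧ Sp p := by
  classical
  unfold Spl
  rw [Finset.mem_filter, Finset.mem_range]

private theorem ps_Spl_le {R : ℝ} (hR : 0 ≤ R) {p : ℕ} (hp : p ∈ Spl R) : (p : ℝ) ≤ R := by
  have h1 := (mem_Spl.1 hp).1
  have h2 : p ≤ ⌊R⌋₊ := by omega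
  exact (Nat.le_floor_iff hR).1 h2

private theorem ps_Sp_ge {p : ℕ} (hp : Sp p) : 3 ≤ p := by
  rcases hp.2 with h | h
  · have h2 := hp.1.two_le
    omega
  · omega

private theorem ps_prod_pos {R : ℝ} {D : Finset ℕ} (hD : D ⊆ Spl R) :
    1 ≤ ∏ p ∈ D, p := by
  refine Nat.one_le_iff_ne_zero.2 (Finset.prod_ne_zero_iff.2 fun p hp => ?_)
  have := ps_Sp_ge (mem_Spl.1 (hD hp)).2
  omega

private theorem ps_union {R : ℝ} (hR : 1 ≤ R) {D E : Finset ℕ} (hD : D ∈ DS R) (hE : E ∈ DS R) :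
    ((∏ p ∈ D ∪ E, p : ℕ) : ℝ) ≤ R ^ 2 ∧ 1 ≤ ((∏ p ∈ D ∪ E, p : ℕ) : ℝ) := by
  obtain ⟨hD1, hD2⟩ := mem_DS.1 hD
  obtain ⟨hE1, hE2⟩ := mem_DS.1 hE
  have h1 : (∏ p ∈ D ∪ E, p) * (∏ p ∈ D ∩ E, p) = (∏ p ∈ D, p) * ∏ p ∈ E, p :=
    Finset.prod_union_inter
  have h2 : 1 ≤ ∏ p ∈ D ∩ E, p := ps_prod_pos (Finset.inter_subset_left.trans hD1)
  have h3 : 1 ≤ ∏ p ∈ D ∪ E, p := ps_prod_pos (Finset.union_subset hD1 hE1)
  have h4 : ∏ p ∈ D ∪ E, p ≤ (∏ p ∈ D, p) * ∏ p ∈ E, p := by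
    rw [← h1]
    exact Nat.le_mul_of_pos_right _ h2
  refine ⟨?_, by exact_mod_cast h3⟩
  have h5 : ((∏ p ∈ D ∪ E, p : ℕ) : ℝ) ≤ ((∏ p ∈ D, p : ℕ) : ℝ) * ((∏ p ∈ E, p : ℕ) : ℝ) := by
    exact_mod_cast h4
  refine h5.trans ?_
  rw [sq]
  exact mul_le_mul hD2 hE2 (Nat.cast_nonneg _) (by linarith)

/-- the lower bound for the majorised sum -/
private theorem ps_lower (J : ℕ) (hJ : 1 ≤ J) (k : ℤ) {P R : ℝ} (hR0 : 1 ≤ R) (hR : R < P)
    (lam : Finset ℕ → ℝ) (hlam : lam ∅ = 1)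
    (T : Finset ℕ) (hT : ∀ p ∈ T, p ∈ Ip P (2 * P) ∧
      ∃ m : ℤ, |2 * k * al (pe p) - m| ≤ 1 / (2 * J)) :
    (T.card : ℝ) * (2 * J / 5) ≤ ∑ w ∈ Vs P (2 * P), (∑ D ∈ DS R, lam D * psI D w) ^ 2 *
      ∑ l ∈ Finset.Ioo (-(J : ℤ)) J, (1 - |(l : ℝ)| / J) *
        Real.cos (2 * Real.pi * (l * (2 * k * al w))) := by
  classical
  have hempty : (∅ : Finset ℕ) ∈ DS R := mem_DS.2 ⟨Finset.empty_subset _, by simpa using hR0⟩
  have hw : ∀ p ∈ T, rp (pe p) ∈ Vs P (2 * P) ∧ nm (rp (pe p)) = p ∧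
      (∃ m : ℤ, |2 * k * al (rp (pe p)) - m| ≤ 1 / (2 * J)) := by
    intro p hp
    obtain ⟨h1, m, hm⟩ := hT p hp
    obtain ⟨h2, h3, h4, h5⟩ := mem_Ip.1 h1
    obtain ⟨h6, h7⟩ := pe_spec (Ip_Sp h1)
    refine ⟨rp_mem_Vs h6 (by rw [h7]; exact_mod_cast h4) (by rw [h7]; exact_mod_cast h5), ?_, ?_⟩
    · rw [(rp_spec h6).2.1, h7]
    · refine ⟨m - 2 * k * ⌊al (pe p)⌋, ?_⟩
      have h8 : al (rp (pe p)) = al (pe p) + (-⌊al (pe p)⌋ : ℤ) := by
        unfold rp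
        exact al_un h6.1 _
      rw [h8]
      have h9 : 2 * (k : ℝ) * (al (pe p) + ((-⌊al (pe p)⌋ : ℤ) : ℝ)) -
          ((m - 2 * k * ⌊al (pe p)⌋ : ℤ) : ℝ) = 2 * k * al (pe p) - m := by
        push_cast
        ring
      rw [h9]
      exact hm
  have hnn : ∀ w : ℤ√2, 0 ≤ (∑ D ∈ DS R, lam D * psI D w) ^ 2 *
      ∑ l ∈ Finset.Ioo (-(J : ℤ)) J, (1 - |(l : ℝ)| / J) *
        Real.cos (2 * Real.pi * (l * (2 * k * al w))) := fun w =>
    mul_nonneg (sq_nonneg _) (fejer J hJ (2 * k * al w)).1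
  have hinj : Set.InjOn (fun p : ℕ => rp (pe p)) (T : Set ℕ) := by
    intro p hp p' hp' h
    have h1 := (hw p hp).2.1
    have h2 := (hw p' hp').2.1
    simp only at h
    rw [h, h2] at h1
    exact_mod_cast h1.symm
  have hone : ∀ p ∈ T, ∑ D ∈ DS R, lam D * psI D (rp (pe p)) = 1 := by
    intro p hp
    have h1 := (hw p hp).2.1
    have h2 := mem_Ip.1 (hT p hp).1
    rw [Finset.sum_eq_single_of_mem ∅ hempty, hlam]
    · unfold psI
      rw [if_pos (by simp), mul_one]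
    · intro D hD hD0
      obtain ⟨q, hq⟩ := Finset.nonempty_iff_ne_empty.2 hD0
      have h3 := (mem_DS.1 hD).1 hq
      have h4 : ¬ ∀ q ∈ D, (q : ℤ) ∣ nm (rp (pe p)) := by
        intro h
        have h5 := h q hq
        rw [h1, Int.natCast_dvd_natCast, Nat.prime_dvd_prime_iff_eq (mem_Spl.1 h3).2.1 h2.1] at h5
        have h6 := ps_Spl_le (by linarith) h3
        rw [h5] at h6
        linarith [h2.2.2.1]
      unfold psI
      rw [if_neg h4, mul_zero]
  calc (T.card : ℝ) * (2 * J / 5) = ∑ _p ∈ T, 2 * (J : ℝ) / 5 := by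
        rw [Finset.sum_const, nsmul_eq_mul]
    _ ≤ ∑ p ∈ T, (∑ D ∈ DS R, lam D * psI D (rp (pe p))) ^ 2 *
      ∑ l ∈ Finset.Ioo (-(J : ℤ)) J, (1 - |(l : ℝ)| / J) *
        Real.cos (2 * Real.pi * (l * (2 * k * al (rp (pe p))))) := by
        refine Finset.sum_le_sum fun p hp => ?_
        rw [hone p hp, one_pow, one_mul]
        exact (fejer J hJ (2 * k * al (rp (pe p)))).2 (hw p hp).2.2
    _ = ∑ w ∈ T.image (fun p => rp (pe p)), (∑ D ∈ DS R, lam D * psI D w) ^ 2 *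
      ∑ l ∈ Finset.Ioo (-(J : ℤ)) J, (1 - |(l : ℝ)| / J) *
        Real.cos (2 * Real.pi * (l * (2 * k * al w))) := by
        rw [Finset.sum_image hinj]
    _ ≤ _ := by
        refine Finset.sum_le_sum_of_subset_of_nonneg ?_ fun w _ _ => hnn w
        intro w hwT
        obtain ⟨p, hp, rfl⟩ := Finset.mem_image.1 hwT
        exact (hw p hp).1

private theorem ps_hd {R : ℝ} {p : ℕ} (hp : p ∈ Spl R) : 0 < hd p ∧ hd p < 1 := by
  have h1 : (3 : ℝ) ≤ p := by exact_mod_cast ps_Sp_ge (mem_Spl.1 hp).2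
  unfold hd
  constructor
  · apply div_pos
    · linarith
    · positivity
  · rw [div_lt_one (by positivity)]
    nlinarith

/-- asymptotics -/
private theorem ps_asym (A s : ℝ) (hs : 0 < s) : ∃ P0 : ℝ, ∀ P : ℝ, P0 ≤ P →
    A * (1 + Real.log P / 8) ^ 16 * Real.log P ≤ P ^ s := by
  have h1 := isLittleO_log_rpow_rpow_atTop (17 : ℝ) hs
  have h2 := h1.def (show (0 : ℝ) < 1 / (|A| + 1) by positivity)
  have h3 := (h2.and (Filter.eventually_ge_atTop (Real.exp 2))).and (Filter.eventually_gt_atTop 0)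
  obtain ⟨P0, hP0⟩ := Filter.eventually_atTop.1 h3
  refine ⟨P0, fun P hP => ?_⟩
  obtain ⟨⟨h4, h5⟩, h6⟩ := hP0 P hP
  have hL : 2 ≤ Real.log P := (Real.le_log_iff_exp_le h6).2 h5
  rw [Real.norm_of_nonneg (Real.rpow_nonneg (by linarith) _),
    Real.norm_of_nonneg (Real.rpow_nonneg h6.le _)] at h4
  have h7 : (Real.log P) ^ (17 : ℝ) = (Real.log P) ^ 17 := by
    rw [← Real.rpow_natCast]
    norm_num
  rw [h7] at h4
  have h8 : (1 + Real.log P / 8) ^ 16 * Real.log P ≤ (Real.log P) ^ 17 := by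
    have h9 : (1 + Real.log P / 8) ^ 16 ≤ (Real.log P) ^ 16 := by
      refine pow_le_pow_left₀ (by linarith) ?_ 16
      linarith
    calc (1 + Real.log P / 8) ^ 16 * Real.log P ≤ (Real.log P) ^ 16 * Real.log P :=
          mul_le_mul_of_nonneg_right h9 (by linarith)
      _ = (Real.log P) ^ 17 := by ring
  have h10 : 0 ≤ (1 + Real.log P / 8) ^ 16 * Real.log P :=
    mul_nonneg (pow_nonneg (by linarith) _) (by linarith)
  have hP0' : 0 ≤ P ^ s := Real.rpow_nonneg h6.le _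
  calc A * (1 + Real.log P / 8) ^ 16 * Real.log P
      = A * ((1 + Real.log P / 8) ^ 16 * Real.log P) := by ring
    _ ≤ (|A| + 1) * ((1 + Real.log P / 8) ^ 16 * Real.log P) :=
        mul_le_mul_of_nonneg_right (by linarith [le_abs_self A]) h10
    _ ≤ (|A| + 1) * (1 / (|A| + 1) * P ^ s) :=
        mul_le_mul_of_nonneg_left (h8.trans h4) (by positivity)
    _ = P ^ s := by
        have : |A| + 1 ≠ 0 := by positivity
        field_simp

/-- the estimate for one pair -/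
private theorem ps_pair {C1 C2 η : ℝ} {J M : ℕ} (hJ : 1 ≤ J) (hC2 : 0 ≤ C2)
    (hone : ∀ D : Finset ℕ, (∀ p ∈ D, Sp p) → ∀ a b : ℝ, 0 ≤ a → a ≤ b →
      ‖SD (fun _ => 1) D a b - ((kap * (b - a) * ∏ p ∈ D, hd p : ℝ) : ℂ)‖ ≤
      C1 * 3 ^ D.card * √b)
    (hchar : ∀ D : Finset ℕ, (∀ p ∈ D, Sp p) → ∀ a b : ℝ, 0 ≤ a →
      ((∏ p ∈ D, p : ℕ) : ℝ) ^ 2 ≤ b → ∀ j : ℤ, j ≠ 0 →
      |(j : ℝ)| ≤ (b / ((∏ p ∈ D, p : ℕ) : ℝ) ^ 2) ^ (2 * M + 2) →
      ‖SD (xi j) D a b‖ ≤ C2 * 3 ^ D.card * (b / ((∏ p ∈ D, p : ℕ) : ℝ)) ^ (1 - η))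
    {P : ℝ} (hP1 : 1 ≤ P) (hPJ : (J : ℝ) ≤ P) {k : ℤ} (hk : k ≠ 0) (hkM : |(k : ℝ)| ≤ P ^ M)
    {U : Finset ℕ} (hU : ∀ p ∈ U, Sp p) (hU1 : 1 ≤ ((∏ p ∈ U, p : ℕ) : ℝ))
    (hU2 : ((∏ p ∈ U, p : ℕ) : ℝ) ^ 4 ≤ P) {x : ℝ} (hx : |x| ≤ 1) :
    x * ∑ l ∈ Finset.Ioo (-(J : ℤ)) J, (1 - |(l : ℝ)| / J) *
      (SD (xi (2 * k * l)) U P (2 * P)).re ≤
    x * (kap * P * ∏ p ∈ U, hd p) + C1 * 3 ^ U.card * √(2 * P) +
      2 * J * (C2 * 3 ^ U.card * (2 * P / ((∏ p ∈ U, p : ℕ) : ℝ)) ^ (1 - η)) := by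
  obtain ⟨Pi0, hPi0⟩ : ∃ Pi0 : ℝ, Pi0 = ((∏ p ∈ U, p : ℕ) : ℝ) := ⟨_, rfl⟩
  rw [← hPi0] at hU1 hU2 ⊢
  have hJr : (1 : ℝ) ≤ J := by exact_mod_cast hJ
  have hPi02 : Pi0 ^ 2 ≤ 2 * P := by linarith only [hPJ, hU2, hJr, sq_nonneg (Pi0 ^ 2 - 1)]
  have hPi00 : 0 < Pi0 := by linarith
  have h0mem : (0 : ℤ) ∈ Finset.Ioo (-(J : ℤ)) J := by
    rw [Finset.mem_Ioo]
    constructor <;> omega
  rw [← Finset.add_sum_erase _ _ h0mem]
  have hS0 : |(SD (xi (2 * k * 0)) U P (2 * P)).re - kap * P * ∏ p ∈ U, hd p| ≤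
      C1 * 3 ^ U.card * √(2 * P) := by
    have h1 := hone U hU P (2 * P) (by linarith) (by linarith)
    have h2 : xi (2 * k * 0) = fun _ => 1 := by
      funext z
      rw [mul_zero, xi_zero]
    rw [h2]
    have h3 : kap * (2 * P - P) = kap * P := by ring
    rw [h3] at h1
    refine le_trans ?_ h1
    refine le_trans (le_of_eq ?_) (Complex.abs_re_le_norm _)
    rw [Complex.sub_re, Complex.ofReal_re]
  have hSl : ∀ l ∈ (Finset.Ioo (-(J : ℤ)) J).erase 0,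
      |(1 - |(l : ℝ)| / J) * (SD (xi (2 * k * l)) U P (2 * P)).re| ≤
      C2 * 3 ^ U.card * (2 * P / Pi0) ^ (1 - η) := by
    intro l hl
    obtain ⟨hl0, hl1⟩ := Finset.mem_erase.1 hl
    obtain ⟨hl2, hl3⟩ := Finset.mem_Ioo.1 hl1
    have hlJ : |(l : ℝ)| ≤ J := by
      rw [abs_le]
      constructor
      · have : -(J : ℤ) ≤ l := hl2.le
        exact_mod_cast this
      · exact_mod_cast hl3.le
    have h1 : 0 ≤ 1 - |(l : ℝ)| / J := by
      rw [sub_nonneg, div_le_one (by linarith)]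
      exact hlJ
    have h2 : 1 - |(l : ℝ)| / J ≤ 1 := by
      have : 0 ≤ |(l : ℝ)| / J := by positivity
      linarith
    have h3 : ‖SD (xi (2 * k * l)) U P (2 * P)‖ ≤ C2 * 3 ^ U.card * (2 * P / Pi0) ^ (1 - η) := by
      rw [hPi0]
      refine hchar U hU P (2 * P) (by linarith) (by rw [← hPi0]; exact hPi02) (2 * k * l) ?_ ?_
      · exact mul_ne_zero (mul_ne_zero two_ne_zero hk) hl0
      · rw [← hPi0]
        have h4 : |((2 * k * l : ℤ) : ℝ)| = 2 * |(k : ℝ)| * |(l : ℝ)| := by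
          push_cast
          rw [abs_mul, abs_mul]
          norm_num
        rw [h4]
        -- `2P/Pi0² ≥ 2 P^(1/2)`: use the square
        have h5 : (2 * P / Pi0 ^ 2) ^ (2 * M + 2) = ((2 * P / Pi0 ^ 2) ^ 2) ^ (M + 1) := by
          rw [← pow_mul]
          congr 1
        have h6 : 4 * P ≤ (2 * P / Pi0 ^ 2) ^ 2 := by
          rw [div_pow, le_div_iff₀ (by positivity)]
          have h61 : 4 * P * Pi0 ^ 4 ≤ 4 * P * P := mul_le_mul_of_nonneg_left hU2 (by linarith)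
          calc 4 * P * (Pi0 ^ 2) ^ 2 = 4 * P * Pi0 ^ 4 := by ring
            _ ≤ 4 * P * P := h61
            _ = (2 * P) ^ 2 := by ring
        rw [h5]
        have h7 : (4 * P) ^ (M + 1) ≤ ((2 * P / Pi0 ^ 2) ^ 2) ^ (M + 1) :=
          pow_le_pow_left₀ (by linarith) h6 _
        refine le_trans ?_ h7
        have h8 : P ^ M ≤ (4 * P) ^ M := pow_le_pow_left₀ (by linarith) (by linarith) _
        calc 2 * |(k : ℝ)| * |(l : ℝ)| ≤ 2 * P ^ M * P := by
              have : |(l : ℝ)| ≤ P := hlJ.trans hPJ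
              have h9 : 0 ≤ |(k : ℝ)| := abs_nonneg _
              have h10 : 0 ≤ |(l : ℝ)| := abs_nonneg _
              have h11 : 0 ≤ P ^ M := by positivity
              calc 2 * |(k : ℝ)| * |(l : ℝ)| ≤ 2 * P ^ M * |(l : ℝ)| := by gcongr
                _ ≤ 2 * P ^ M * P := by gcongr
          _ ≤ (4 * P) ^ M * (4 * P) := by nlinarith only [hPi02, h8, show (0 : ℝ) ≤ P ^ M by positivity]
          _ = (4 * P) ^ (M + 1) := by rw [pow_succ]
    rw [abs_mul, abs_of_nonneg h1]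
    calc (1 - |(l : ℝ)| / J) * |(SD (xi (2 * k * l)) U P (2 * P)).re|
        ≤ 1 * |(SD (xi (2 * k * l)) U P (2 * P)).re| :=
          mul_le_mul_of_nonneg_right h2 (abs_nonneg _)
      _ ≤ _ := by
          rw [one_mul]
          exact (Complex.abs_re_le_norm _).trans h3
  have hrest : |∑ l ∈ (Finset.Ioo (-(J : ℤ)) J).erase 0, (1 - |(l : ℝ)| / J) *
      (SD (xi (2 * k * l)) U P (2 * P)).re| ≤
      2 * J * (C2 * 3 ^ U.card * (2 * P / Pi0) ^ (1 - η)) := by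
    refine (Finset.abs_sum_le_sum_abs _ _).trans ((Finset.sum_le_sum hSl).trans ?_)
    rw [Finset.sum_const, nsmul_eq_mul]
    refine mul_le_mul_of_nonneg_right ?_ (by positivity)
    rw [Finset.card_erase_of_mem h0mem, Int.card_Ioo]
    have : ((((J : ℤ) - (-(J : ℤ)) - 1).toNat - 1 : ℕ)) ≤ 2 * J := by omega
    exact_mod_cast this
  have e0 : (1 - |((0 : ℤ) : ℝ)| / J) * (SD (xi (2 * k * 0)) U P (2 * P)).re =
      (SD (xi (2 * k * 0)) U P (2 * P)).re := by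
    simp
  rw [e0]
  set S0 : ℝ := (SD (xi (2 * k * 0)) U P (2 * P)).re with hS0d
  set X0 : ℝ := kap * P * ∏ p ∈ U, hd p with hX0d
  set Y : ℝ := ∑ l ∈ (Finset.Ioo (-(J : ℤ)) J).erase 0, (1 - |(l : ℝ)| / J) *
      (SD (xi (2 * k * l)) U P (2 * P)).re with hYd
  have h1 : x * (S0 - X0) ≤ |S0 - X0| := by
    refine (le_abs_self _).trans ?_
    rw [abs_mul]
    exact mul_le_of_le_one_left (abs_nonneg _) hx
  have h2 : x * Y ≤ |Y| := by
    refine (le_abs_self _).trans ?_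
    rw [abs_mul]
    exact mul_le_of_le_one_left (abs_nonneg _) hx
  calc x * (S0 + Y) = x * X0 + x * (S0 - X0) + x * Y := by ring
    _ ≤ x * X0 + |S0 - X0| + |Y| := by linarith
    _ ≤ _ := by linarith

/-- the sieve for elements in an angular set.

Proof. Let `R = P^(1/16)`, `lam` the Selberg weights for `S = Spl R`, `h = hd` (`0 < hd p < 1` for
`p ≥ 3`), `DD = DS R`. For `p ∈ Ip P (2P)` with the sector condition put `w_p = rp (pe p)`; these
are distinct elements of `Vs P (2P)` (norm `p`), `xi (l (2k)) w_p = xi (l(2k)) (pe p)`, and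
no prime of `S` divides `nm w_p = p` (as `R < P`), so `(∑_{D ∈ DD, all primes of D divide nm w} lam D)^2
= lam ∅^2 = 1`. With the Fejer majorant at `x = 2 k al w` (`fejer`):
`count ≤ (5/(2J)) ∑_{w ∈ Vs P 2P} (∑_{D ∈ DD : D | nm w} lam D)^2 ∑_{|l|<J} (1-|l|/J) cos(2π l 2k al w)`
(all terms are nonnegative). Expand the square; `D | nm w` and `E | nm w` iff `(D ∪ E) | nm w`:
`= (5/(2J)) ∑_{D,E} lam D lam E ∑_{|l|<J} (1-|l|/J) Re SD (xi (2 k l)) (D ∪ E) P (2P)`.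
* `l = 0`: by `SD_one` the main term is `kap P ∑_{D,E} lam D lam E ∏_{D∪E} hd = kap P/J_R
≤ kap P/(c log R) = 16 kap P/(c log P)` (`J_low`), and the error is at most
`∑_{D,E ∈ DS R} C 3^|D∪E| √(2P)`; here `3^|D∪E| ≤ Π_(D∪E) ≤ R^2` and `#DS R ≤ R + 1`
(`D ↦ Π_D` is injective), so it is `≤ C 4 R^2 R^2 √(2P) ≤ 6 C P^(3/4)`.
* `l ≠ 0`: `j = 2 k l ≠ 0`, `|j| ≤ 2 J P^M ≤ (2P/Π^2)^(2M+2)` for `P ≥ P0` because
`Π ≤ R^2 = P^(1/8)`, `2P/Π^2 ≥ P^(3/4)`. By `SD_char (2M+2)` and `pair_sum` the sum over `D, E` is at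
most `C (2P)^(1-η) R^(2η) (1 + 2 log R)^16 ≤ P^(1 - η/2)` for large `P`. There are `≤ 2J` values of
`l`.
So `count ≤ (5/(2J)) (C' P/log P + 6 C P^(3/4) + 2J P^(1-η/2)) ≤ (C''/J) P/log P` for
`P ≥ P0(J, M)`, with `C''` absolute. -/
theorem P_sector : ∃ C : ℝ, 1 ≤ C ∧ ∀ J M : ℕ, 1 ≤ J → ∃ P0 : ℝ, 2 ≤ P0 ∧ ∀ P : ℝ, P0 ≤ P →
    ∀ k : ℤ, k ≠ 0 → |(k : ℝ)| ≤ P ^ M → ∀ T : Finset ℕ, (∀ p ∈ T, p ∈ Ip P (2 * P) ∧
      ∃ m : ℤ, |2 * k * al (pe p) - m| ≤ 1 / (2 * J)) →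
    (T.card : ℝ) ≤ C / J * (P / Real.log P) := by
  obtain ⟨C1, hC1, hone⟩ := SD_one
  obtain ⟨c, R0, hc, hR0, hJlow⟩ := J_low
  have hkap := kap_pos
  refine ⟨5 / 2 * (16 * kap / c + 2), ?_, fun J M hJ => ?_⟩
  · have : 0 ≤ 16 * kap / c := by positivity
    linarith
  obtain ⟨C2, η, hC2, hη, hη8, hchar⟩ := SD_char (2 * M + 2)
  obtain ⟨P1, hP1⟩ := ps_asym (C1 * √2) (3 / 8) (by norm_num)
  obtain ⟨P2, hP2⟩ := ps_asym (4 * J * C2) (7 * η / 8) (by positivity)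
  have hJr : (1 : ℝ) ≤ J := by exact_mod_cast hJ
  refine ⟨max (max 2 (max P1 P2)) (max (R0 ^ 16) J), le_max_of_le_left (le_max_left _ _), ?_⟩
  intro P hP k hk hkM T hT
  have hPa : 2 ≤ P := ((le_max_left _ _).trans (le_max_left _ _)).trans hP
  have hPb : P1 ≤ P :=
    (((le_max_left _ _).trans (le_max_right _ _)).trans (le_max_left _ _)).trans hP
  have hPc : P2 ≤ P :=
    (((le_max_right _ _).trans (le_max_right _ _)).trans (le_max_left _ _)).trans hP
  have hPd : R0 ^ 16 ≤ P := ((le_max_left _ _).trans (le_max_right _ _)).trans hP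
  have hPe : (J : ℝ) ≤ P := ((le_max_right _ _).trans (le_max_right _ _)).trans hP
  have hP0 : 0 < P := by linarith
  have hL : 0 < Real.log P := Real.log_pos (by linarith)
  obtain ⟨R, hRd⟩ : ∃ R : ℝ, R = P ^ ((1 : ℝ) / 16) := ⟨_, rfl⟩
  have hR1 : 1 ≤ R := by
    rw [hRd]
    exact Real.one_le_rpow (by linarith) (by norm_num)
  have hRlt : R < P := by
    rw [hRd]
    calc P ^ ((1 : ℝ) / 16) < P ^ (1 : ℝ) :=
          Real.rpow_lt_rpow_of_exponent_lt (by linarith) (by norm_num)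
      _ = P := Real.rpow_one P
  have hR16 : R ^ 16 = P := by
    rw [hRd, ← Real.rpow_natCast, ← Real.rpow_mul hP0.le]
    norm_num
  have hRR0 : R0 ≤ R := by
    by_contra hcon
    push Not at hcon
    have h1 : R ^ 16 < R0 ^ 16 := pow_lt_pow_left₀ hcon (by linarith) (by norm_num)
    linarith
  have hlogR : Real.log R = Real.log P / 16 := by
    rw [hRd, Real.log_rpow hP0]
    ring
  have hempty : (∅ : Finset ℕ) ∈ DS R := mem_DS.2 ⟨Finset.empty_subset _, by simpa using hR1⟩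
  obtain ⟨lam, hl0, hl1, -, hl3⟩ := selberg (Spl R) hd (fun p hp => ps_hd hp) (DS R)
    (fun D hD => (mem_DS.1 hD).1) (fun D hD E hE => by
      obtain ⟨h1, h2⟩ := mem_DS.1 hD
      refine mem_DS.2 ⟨hE.trans h1, le_trans ?_ h2⟩
      have h3 : ∏ p ∈ E, p ≤ ∏ p ∈ D, p :=
        Finset.prod_le_prod_of_subset_of_one_le' hE fun p hp _ => by
          have := ps_Sp_ge (mem_Spl.1 (h1 hp)).2
          omega
      exact_mod_cast h3) hempty
  have hlow := ps_lower J hJ k hR1 hRlt lam hl0 T hT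
  rw [ps_expand] at hlow
  -- pairwise estimate
  have hpair : ∀ D ∈ DS R, ∀ E ∈ DS R, lam D * lam E *
      ∑ l ∈ Finset.Ioo (-(J : ℤ)) J, (1 - |(l : ℝ)| / J) *
        (SD (xi (2 * k * l)) (D ∪ E) P (2 * P)).re ≤
      kap * P * (lam D * lam E * ∏ p ∈ D ∪ E, hd p) +
      C1 * √(2 * P) * ((3 : ℝ) ^ (D ∪ E).card *
        ((∏ p ∈ D ∪ E, p : ℕ) : ℝ) ^ (-(1 - (1 : ℝ)))) +
      2 * J * C2 * (2 * P) ^ (1 - η) * ((3 : ℝ) ^ (D ∪ E).card *
        ((∏ p ∈ D ∪ E, p : ℕ) : ℝ) ^ (-(1 - η))) := by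
    intro D hD E hE
    obtain ⟨h1, h2⟩ := ps_union hR1 hD hE
    have hSp : ∀ p ∈ D ∪ E, Sp p := by
      intro p hp
      rcases Finset.mem_union.1 hp with h | h
      · exact (mem_Spl.1 ((mem_DS.1 hD).1 h)).2
      · exact (mem_Spl.1 ((mem_DS.1 hE).1 h)).2
    have h3 : ((∏ p ∈ D ∪ E, p : ℕ) : ℝ) ^ 4 ≤ P := by
      calc ((∏ p ∈ D ∪ E, p : ℕ) : ℝ) ^ 4 ≤ (R ^ 2) ^ 4 :=
            pow_le_pow_left₀ (by linarith) h1 4
        _ = R ^ 8 := by ring
        _ ≤ R ^ 16 := pow_le_pow_right₀ hR1 (by norm_num)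
        _ = P := hR16
    have h4 : |lam D * lam E| ≤ 1 := by
      rw [abs_mul]
      exact mul_le_one₀ (hl1 D) (abs_nonneg _) (hl1 E)
    have h5 := ps_pair (C1 := C1) (C2 := C2) (η := η) (M := M) hJ (by linarith) hone hchar
      (by linarith : (1 : ℝ) ≤ P) hPe hk hkM hSp h2 h3 h4
    refine h5.trans (le_of_eq ?_)
    have h6 : (0 : ℝ) < ((∏ p ∈ D ∪ E, p : ℕ) : ℝ) := by linarith only [h2]
    rw [Real.div_rpow (by linarith) h6.le, Real.rpow_neg h6.le (1 - η)]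
    have h7 : -(1 - (1 : ℝ)) = 0 := by norm_num
    rw [h7, Real.rpow_zero]
    ring
  have hsum := Finset.sum_le_sum fun D hD => Finset.sum_le_sum fun E hE => hpair D hD E hE
  simp only [Finset.sum_add_distrib, ← Finset.mul_sum] at hsum
  rw [hl3] at hsum
  have hps1 := pair_sum R 1 hR1 zero_le_one le_rfl
  have hps2 := pair_sum R η hR1 hη.le (by linarith only [hη8])
  have hJL := hJlow R hRR0
  have hbase : 1 + 2 * Real.log R = 1 + Real.log P / 8 := by
    rw [hlogR]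
    ring
  rw [hbase] at hps1 hps2
  have hLL : 0 ≤ (1 + Real.log P / 8) ^ 16 := pow_nonneg (by linarith only [hL]) _
  have hR2 : R ^ (2 * (1 : ℝ)) = P ^ ((1 : ℝ) / 8) := by
    rw [hRd, ← Real.rpow_mul hP0.le]
    norm_num
  have hR2η : R ^ (2 * η) = P ^ (η / 8) := by
    rw [hRd, ← Real.rpow_mul hP0.le]
    congr 1
    ring
  rw [hR2] at hps1
  rw [hR2η] at hps2
  -- main term
  have hmain : kap * P * (1 / ∑ D ∈ DS R, ∏ p ∈ D, hd p / (1 - hd p)) ≤
      16 * kap / c * (P / Real.log P) := by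
    have h1 : 0 < c * Real.log R := by
      rw [hlogR]
      positivity
    have h2 : 1 / ∑ D ∈ DS R, ∏ p ∈ D, hd p / (1 - hd p) ≤ 1 / (c * Real.log R) :=
      one_div_le_one_div_of_le h1 hJL
    calc kap * P * (1 / ∑ D ∈ DS R, ∏ p ∈ D, hd p / (1 - hd p)) ≤
          kap * P * (1 / (c * Real.log R)) := mul_le_mul_of_nonneg_left h2 (by positivity)
      _ = 16 * kap / c * (P / Real.log P) := by
          rw [hlogR]
          field_simp
  -- first error
  have herr1 : C1 * √(2 * P) * ∑ D ∈ DS R, ∑ E ∈ DS R, (3 : ℝ) ^ (D ∪ E).card *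
        ((∏ p ∈ D ∪ E, p : ℕ) : ℝ) ^ (-(1 - (1 : ℝ))) ≤ P / Real.log P := by
    have h1 : C1 * √(2 * P) * ∑ D ∈ DS R, ∑ E ∈ DS R, (3 : ℝ) ^ (D ∪ E).card *
        ((∏ p ∈ D ∪ E, p : ℕ) : ℝ) ^ (-(1 - (1 : ℝ))) ≤
        C1 * √(2 * P) * (P ^ ((1 : ℝ) / 8) * (1 + Real.log P / 8) ^ 16) :=
      mul_le_mul_of_nonneg_left hps1 (by positivity)
    refine h1.trans ?_
    rw [le_div_iff₀ hL]
    have h2 := hP1 P hPb
    have h3 : √(2 * P) = √2 * P ^ ((1 : ℝ) / 2) := by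
      rw [Real.sqrt_mul (by norm_num), Real.sqrt_eq_rpow P]
    have h4 : P ^ ((1 : ℝ) / 2) * P ^ ((1 : ℝ) / 8) * P ^ ((3 : ℝ) / 8) = P := by
      rw [← Real.rpow_add hP0, ← Real.rpow_add hP0]
      norm_num
    calc C1 * √(2 * P) * (P ^ ((1 : ℝ) / 8) * (1 + Real.log P / 8) ^ 16) * Real.log P
        = (C1 * √2 * (1 + Real.log P / 8) ^ 16 * Real.log P) *
          (P ^ ((1 : ℝ) / 2) * P ^ ((1 : ℝ) / 8)) := by rw [h3]; ring
      _ ≤ P ^ ((3 : ℝ) / 8) * (P ^ ((1 : ℝ) / 2) * P ^ ((1 : ℝ) / 8)) :=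
          mul_le_mul_of_nonneg_right h2 (by positivity)
      _ = P := by
          rw [mul_comm]
          exact h4
  -- second error
  have herr2 : 2 * J * C2 * (2 * P) ^ (1 - η) * ∑ D ∈ DS R, ∑ E ∈ DS R,
        (3 : ℝ) ^ (D ∪ E).card *
        ((∏ p ∈ D ∪ E, p : ℕ) : ℝ) ^ (-(1 - η)) ≤ P / Real.log P := by
    have h1 : 2 * J * C2 * (2 * P) ^ (1 - η) * ∑ D ∈ DS R, ∑ E ∈ DS R,
        (3 : ℝ) ^ (D ∪ E).card * ((∏ p ∈ D ∪ E, p : ℕ) : ℝ) ^ (-(1 - η)) ≤
        2 * J * C2 * (2 * P) ^ (1 - η) * (P ^ (η / 8) * (1 + Real.log P / 8) ^ 16) :=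
      mul_le_mul_of_nonneg_left hps2 (by positivity)
    refine h1.trans ?_
    rw [le_div_iff₀ hL]
    have h2 := hP2 P hPc
    have h3 : (2 * P) ^ (1 - η) ≤ 2 * P ^ (1 - η) := by
      rw [Real.mul_rpow (by norm_num) hP0.le]
      refine mul_le_mul_of_nonneg_right ?_ (by positivity)
      calc (2 : ℝ) ^ (1 - η) ≤ 2 ^ (1 : ℝ) :=
            Real.rpow_le_rpow_of_exponent_le (by norm_num) (by linarith only [hη])
        _ = 2 := Real.rpow_one 2
    have h4 : P ^ (1 - η) * P ^ (η / 8) * P ^ (7 * η / 8) = P := by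
      rw [← Real.rpow_add hP0, ← Real.rpow_add hP0]
      have : 1 - η + η / 8 + 7 * η / 8 = 1 := by ring
      rw [this, Real.rpow_one]
    calc 2 * J * C2 * (2 * P) ^ (1 - η) * (P ^ (η / 8) * (1 + Real.log P / 8) ^ 16) * Real.log P
        ≤ 2 * J * C2 * (2 * P ^ (1 - η)) * (P ^ (η / 8) * (1 + Real.log P / 8) ^ 16) *
          Real.log P := by gcongr
      _ = (4 * J * C2 * (1 + Real.log P / 8) ^ 16 * Real.log P) *
          (P ^ (1 - η) * P ^ (η / 8)) := by ring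
      _ ≤ P ^ (7 * η / 8) * (P ^ (1 - η) * P ^ (η / 8)) :=
          mul_le_mul_of_nonneg_right h2 (by positivity)
      _ = P := by
          rw [mul_comm]
          exact h4
  have hfin : (T.card : ℝ) * (2 * J / 5) ≤ (16 * kap / c + 2) * (P / Real.log P) := by
    calc (T.card : ℝ) * (2 * J / 5) ≤ _ := hlow.trans hsum
      _ ≤ 16 * kap / c * (P / Real.log P) + P / Real.log P + P / Real.log P := by
          linarith only [hmain, herr1, herr2]
      _ = (16 * kap / c + 2) * (P / Real.log P) := by ring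
  have hJ0 : (0 : ℝ) < J := by linarith only [hJr]
  calc (T.card : ℝ) = ((T.card : ℝ) * (2 * J / 5)) * (5 / (2 * J)) := by field_simp
    _ ≤ ((16 * kap / c + 2) * (P / Real.log P)) * (5 / (2 * J)) :=
        mul_le_mul_of_nonneg_right hfin (by positivity)
    _ = 5 / 2 * (16 * kap / c + 2) / J * (P / Real.log P) := by
        field_simp

end

end Pool.Agent.Lib.MP_0b748d_nt.MR
end
end
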