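import Mathlib
import Pool.Agent.Lib.MP_0b748d_nt.MR.UnitsA
import Pool.Agent.Lib.MP_0b748d_nt.MR.Cheb
import Pool.Agent.Lib.MP_0b748d_nt.MR.ElDvdA
import Pool.Agent.Lib.MP_0b748d_nt.MR.VExp
import Pool.Agent.Lib.MP_0b748d_nt.MR.PrimeSector
import Pool.Agent.Lib.MP_0b748d_nt.MR.Parseval

section

set_option autoImplicit false

/-!
# An inequality for the exceptional frequencies
-/

namespace Pool.Agent.Lib.MP_0b748d_nt.MR

noncomputable section

/-- The final inequality (pure real analysis).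

Proof. Put `S_v(k) = w v * y k v ^ 2`. For `k ∈ U`: by Cauchy-Schwarz with weights `q k v`,
`((1/W) ∑_v q y)^2 ≤ (1/W²) (∑_v q) (∑_v q y²) ≤ (1/W²) (∑_v q) (∑_v w y²)`. With
`(a + e)^2 ≤ (1 + ε) a² + (1 + 1/ε) e²` and the bounds on `∑_v q`:
* `k ≠ 0`: `x k² ≤ (1+ε) (1-δ) (1/W) ∑_v w y² + (1 + 1/ε) e²`;
* `k = 0`: `x 0² ≤ (1+ε)² (1/W) ∑_v w y² + (1 + 1/ε) e²` (here `∑_v q ≤ ∑_v w ≤ (1+ε) W`).
Divide the first by `1 - δ ≥ 1/2` and add everything (`x0 = x 0` if `0 ∈ U`, else `0`):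
`x0² + ∑_{k ≠ 0} x k²/(1-δ) ≤ (1+ε)² (1/W) ∑_v w v ∑_k y² + 2 (1 + 1/ε) ε²
≤ (1+ε)^4 + 2 ε² + 2 ε ≤ 1 + 19 ε`. Let `T = ∑_{k ∈ U, k ≠ 0} x k²`; as `1/(1-δ) ≥ 1 + δ`,
`x0² + T ≤ 1 + 19 ε - δ T`. If `T ≥ c/2` this is `≤ 1 + 19 ε - δ c/2`. If `T < c/2` then
`x0² + T ≤ 1 - c + c/2 ≤ 1 - δ c/2` (if `0 ∉ U`: `T ≤ c/2 ≤ 1/2 ≤ 1 - δ c/2`). -/
theorem fin_ineq (U : Finset ℤ) (n : ℕ) (x e : ℤ → ℝ) (q y : ℤ → ℕ → ℝ) (w : ℕ → ℝ)
    (W δ c ε : ℝ) (hW : 0 < W) (hδ : 0 < δ) (hδ1 : δ ≤ 1 / 2) (hc : 0 ≤ c) (hc1 : c ≤ 1)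
    (hε : 0 < ε) (hε1 : ε ≤ 1) (hx : ∀ k, 0 ≤ x k) (hq0 : ∀ k v, 0 ≤ q k v)
    (hy0 : ∀ k v, 0 ≤ y k v)
    (h1 : ∀ k ∈ U, x k ≤ (1 / W) * ∑ v ∈ Finset.range n, q k v * y k v + e k)
    (h2 : ∑ k ∈ U, e k ^ 2 ≤ ε ^ 2) (h3 : ∀ k ∈ U, ∀ v < n, q k v ≤ w v)
    (h4 : ∀ k ∈ U, k ≠ 0 → ∑ v ∈ Finset.range n, q k v ≤ (1 - δ) * W)
    (h5 : ∑ v ∈ Finset.range n, w v ≤ (1 + ε) * W)
    (h6 : ∀ v < n, ∑ k ∈ U, y k v ^ 2 ≤ 1 + ε) (h7 : x 0 ^ 2 ≤ 1 - c) :
    ∑ k ∈ U, x k ^ 2 ≤ 1 - δ * c / 2 + 19 * ε := by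
  classical
  have hδc : δ * c ≤ 1 / 2 := by nlinarith only [hδ1, hc, hc1]
  rcases U.eq_empty_or_nonempty with hU | ⟨k₀, hk₀⟩
  · rw [hU, Finset.sum_empty]
    linarith
  have hw0 : ∀ v < n, 0 ≤ w v := fun v hv => (hq0 k₀ v).trans (h3 k₀ hk₀ v hv)
  set B : ℤ → ℝ := fun k => ∑ v ∈ Finset.range n, w v * y k v ^ 2 with hB
  have hB0 : ∀ k, 0 ≤ B k := fun k => Finset.sum_nonneg fun v hv =>
    mul_nonneg (hw0 v (Finset.mem_range.mp hv)) (sq_nonneg _)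
  have hW2 : 0 < 1 / W := by positivity
  -- the basic inequality
  have hcs : ∀ k ∈ U, ∀ t : ℝ, 0 ≤ t → ∑ v ∈ Finset.range n, q k v ≤ t * W →
      ((1 / W) * ∑ v ∈ Finset.range n, q k v * y k v) ^ 2 ≤ t * ((1 / W) * B k) := by
    intro k hk t ht hq
    have e1 : (∑ v ∈ Finset.range n, q k v * y k v) ^ 2 ≤
        (∑ v ∈ Finset.range n, q k v) * ∑ v ∈ Finset.range n, q k v * y k v ^ 2 :=
      Finset.sum_sq_le_sum_mul_sum_of_sq_le_mul _ (fun v _ => hq0 k v)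
        (fun v _ => mul_nonneg (hq0 k v) (sq_nonneg _)) (fun v _ => le_of_eq (by ring))
    have e2 : ∑ v ∈ Finset.range n, q k v * y k v ^ 2 ≤ B k :=
      Finset.sum_le_sum fun v hv =>
        mul_le_mul_of_nonneg_right (h3 k hk v (Finset.mem_range.mp hv)) (sq_nonneg _)
    have e3 : (∑ v ∈ Finset.range n, q k v) * ∑ v ∈ Finset.range n, q k v * y k v ^ 2 ≤
        (t * W) * B k :=
      mul_le_mul hq e2 (Finset.sum_nonneg fun v _ => mul_nonneg (hq0 k v) (sq_nonneg _))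
        (by positivity)
    calc ((1 / W) * ∑ v ∈ Finset.range n, q k v * y k v) ^ 2
        = (1 / W) ^ 2 * (∑ v ∈ Finset.range n, q k v * y k v) ^ 2 := by rw [mul_pow]
      _ ≤ (1 / W) ^ 2 * ((t * W) * B k) :=
          mul_le_mul_of_nonneg_left (e1.trans e3) (by positivity)
      _ = t * ((1 / W) * B k) := by
          field_simp
  have hsq : ∀ a b : ℝ, (a + b) ^ 2 ≤ (1 + ε) * a ^ 2 + (1 + 1 / ε) * b ^ 2 := by
    intro a b
    have h8 : 0 ≤ ε * (a - b / ε) ^ 2 := by positivity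
    have h9 : ε * (a - b / ε) ^ 2 = (1 + ε) * a ^ 2 + (1 + 1 / ε) * b ^ 2 - (a + b) ^ 2 := by
      field_simp
      ring
    linarith
  have hxk : ∀ k ∈ U, ∀ t : ℝ, 0 ≤ t → ∑ v ∈ Finset.range n, q k v ≤ t * W →
      x k ^ 2 ≤ (1 + ε) * (t * ((1 / W) * B k)) + (1 + 1 / ε) * e k ^ 2 := by
    intro k hk t ht hq
    have e1 : x k ^ 2 ≤ ((1 / W) * ∑ v ∈ Finset.range n, q k v * y k v + e k) ^ 2 :=
      pow_le_pow_left₀ (hx k) (h1 k hk) 2
    have e2 := hsq ((1 / W) * ∑ v ∈ Finset.range n, q k v * y k v) (e k)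
    have e3 := mul_le_mul_of_nonneg_left (hcs k hk t ht hq) (by linarith : (0 : ℝ) ≤ 1 + ε)
    linarith
  set R : ℤ → ℝ := fun k => (1 + ε) ^ 2 * ((1 / W) * B k) + 2 * (1 + 1 / ε) * e k ^ 2 with hR
  have hε' : 0 ≤ 1 + 1 / ε := by positivity
  have hWB : ∀ k, 0 ≤ (1 / W) * B k := fun k => mul_nonneg hW2.le (hB0 k)
  have hR1 : ∀ k ∈ U, k ≠ 0 → (1 + δ) * x k ^ 2 ≤ R k := by
    intro k hk hk0
    have e1 := hxk k hk (1 - δ) (by linarith) (h4 k hk hk0)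
    have e2 : (1 + δ) * x k ^ 2 ≤ (1 + δ) * ((1 + ε) * ((1 - δ) * ((1 / W) * B k)) +
        (1 + 1 / ε) * e k ^ 2) := mul_le_mul_of_nonneg_left e1 (by linarith)
    refine e2.trans ?_
    have e3 : (1 + δ) * (1 - δ) ≤ 1 := by nlinarith only [hδ]
    have e4 : (1 + δ) * ((1 + ε) * ((1 - δ) * ((1 / W) * B k))) ≤ (1 + ε) ^ 2 * ((1 / W) * B k) := by
      calc (1 + δ) * ((1 + ε) * ((1 - δ) * ((1 / W) * B k)))
          = ((1 + δ) * (1 - δ)) * ((1 + ε) * ((1 / W) * B k)) := by ring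
        _ ≤ 1 * ((1 + ε) * ((1 / W) * B k)) :=
            mul_le_mul_of_nonneg_right e3 (mul_nonneg (by linarith only [hε]) (hWB k))
        _ ≤ (1 + ε) ^ 2 * ((1 / W) * B k) := by
            rw [one_mul]
            refine mul_le_mul_of_nonneg_right ?_ (hWB k)
            nlinarith only [hε]
    have e5 : (1 + δ) * ((1 + 1 / ε) * e k ^ 2) ≤ 2 * (1 + 1 / ε) * e k ^ 2 := by
      have : 0 ≤ (1 + 1 / ε) * e k ^ 2 := mul_nonneg hε' (sq_nonneg _)
      nlinarith only [hδ1, this]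
    simp only [hR]
    linarith only [e4, e5]
  have hR2 : (0 : ℤ) ∈ U → x 0 ^ 2 ≤ R 0 := by
    intro h0
    have hq : ∑ v ∈ Finset.range n, q 0 v ≤ (1 + ε) * W :=
      (Finset.sum_le_sum fun v hv => h3 0 h0 v (Finset.mem_range.mp hv)).trans h5
    have e1 := hxk 0 h0 (1 + ε) (by linarith) hq
    have e2 : 0 ≤ (1 + 1 / ε) * e 0 ^ 2 := mul_nonneg hε' (sq_nonneg _)
    simp only [hR]
    linarith only [e1, e2]
  have hBs : ∑ k ∈ U, B k ≤ (1 + ε) ^ 2 * W := by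
    simp only [hB]
    rw [Finset.sum_comm]
    calc ∑ v ∈ Finset.range n, ∑ k ∈ U, w v * y k v ^ 2
        = ∑ v ∈ Finset.range n, w v * ∑ k ∈ U, y k v ^ 2 := by
          refine Finset.sum_congr rfl fun v _ => ?_
          rw [Finset.mul_sum]
      _ ≤ ∑ v ∈ Finset.range n, w v * (1 + ε) := Finset.sum_le_sum fun v hv =>
          mul_le_mul_of_nonneg_left (h6 v (Finset.mem_range.mp hv))
            (hw0 v (Finset.mem_range.mp hv))
      _ = (∑ v ∈ Finset.range n, w v) * (1 + ε) := by rw [Finset.sum_mul]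
      _ ≤ ((1 + ε) * W) * (1 + ε) := mul_le_mul_of_nonneg_right h5 (by linarith)
      _ = (1 + ε) ^ 2 * W := by ring
  have hRs : ∑ k ∈ U, R k ≤ 1 + 19 * ε := by
    have e1 : ∑ k ∈ U, R k = (1 + ε) ^ 2 * ((1 / W) * ∑ k ∈ U, B k) +
        2 * (1 + 1 / ε) * ∑ k ∈ U, e k ^ 2 := by
      simp only [hR]
      rw [Finset.sum_add_distrib, ← Finset.mul_sum, ← Finset.mul_sum, ← Finset.mul_sum]
    have e2 : (1 / W) * ∑ k ∈ U, B k ≤ (1 + ε) ^ 2 := by
      calc (1 / W) * ∑ k ∈ U, B k ≤ (1 / W) * ((1 + ε) ^ 2 * W) :=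
            mul_le_mul_of_nonneg_left hBs hW2.le
        _ = (1 + ε) ^ 2 := by field_simp
    have e3 : (1 + ε) ^ 2 * ((1 / W) * ∑ k ∈ U, B k) ≤ (1 + ε) ^ 2 * (1 + ε) ^ 2 :=
      mul_le_mul_of_nonneg_left e2 (by positivity)
    have e4 : 2 * (1 + 1 / ε) * ∑ k ∈ U, e k ^ 2 ≤ 2 * (1 + 1 / ε) * ε ^ 2 :=
      mul_le_mul_of_nonneg_left h2 (by positivity)
    have e5 : 2 * (1 + 1 / ε) * ε ^ 2 = 2 * ε ^ 2 + 2 * ε := by
      field_simp
    have e6 : (1 + ε) ^ 2 * (1 + ε) ^ 2 ≤ 1 + 15 * ε := by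
      have f2 : ε ^ 2 ≤ ε := by nlinarith only [hε, hε1]
      have f3 : ε ^ 3 ≤ ε := by
        calc ε ^ 3 = ε ^ 2 * ε := by ring
          _ ≤ 1 * ε := mul_le_mul_of_nonneg_right (f2.trans hε1) hε.le
          _ = ε := one_mul _
      have f4 : ε ^ 4 ≤ ε := by
        calc ε ^ 4 = ε ^ 3 * ε := by ring
          _ ≤ 1 * ε := mul_le_mul_of_nonneg_right (f3.trans hε1) hε.le
          _ = ε := one_mul _
      have f5 : (1 + ε) ^ 2 * (1 + ε) ^ 2 = 1 + 4 * ε + 6 * ε ^ 2 + 4 * ε ^ 3 + ε ^ 4 := by ring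
      linarith only [f2, f3, f4]
    have e7 : ε ^ 2 ≤ ε := by nlinarith only [e6]
    linarith
  by_cases h0 : (0 : ℤ) ∈ U
  · set T : ℝ := ∑ k ∈ U.erase 0, x k ^ 2 with hT
    have hT0 : 0 ≤ T := Finset.sum_nonneg fun k _ => sq_nonneg _
    have e1 : ∑ k ∈ U, x k ^ 2 = x 0 ^ 2 + T := (Finset.add_sum_erase U _ h0).symm
    have e2 : ∑ k ∈ U, R k = R 0 + ∑ k ∈ U.erase 0, R k := (Finset.add_sum_erase U _ h0).symm
    have e3 : (1 + δ) * T ≤ ∑ k ∈ U.erase 0, R k := by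
      rw [hT, Finset.mul_sum]
      exact Finset.sum_le_sum fun k hk =>
        hR1 k (Finset.mem_of_mem_erase hk) (Finset.ne_of_mem_erase hk)
    have e4 := hR2 h0
    rw [e1]
    rcases le_or_gt (c / 2) T with hTc | hTc
    · have : δ * (c / 2) ≤ δ * T := mul_le_mul_of_nonneg_left hTc hδ.le
      linarith only [hRs, e2, e3, e4, this]
    · have : δ * c ≤ c := mul_le_of_le_one_left hc (by linarith)
      linarith
  · set T : ℝ := ∑ k ∈ U, x k ^ 2 with hT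
    have hT0 : 0 ≤ T := Finset.sum_nonneg fun k _ => sq_nonneg _
    have e3 : (1 + δ) * T ≤ ∑ k ∈ U, R k := by
      rw [hT, Finset.mul_sum]
      exact Finset.sum_le_sum fun k hk => hR1 k hk (fun h => h0 (h ▸ hk))
    rcases le_or_gt (c / 2) T with hTc | hTc
    · have : δ * (c / 2) ≤ δ * T := mul_le_mul_of_nonneg_left hTc hδ.le
      linarith only [hRs, e3, this]
    · have : δ * c ≤ c := mul_le_of_le_one_left hc (by linarith)
      linarith

end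

end Pool.Agent.Lib.MP_0b748d_nt.MR
end

section

set_option autoImplicit false

/-!
# The exceptional frequencies
-/

namespace Pool.Agent.Lib.MP_0b748d_nt.MR

open Zsqrtd

noncomputable section

/-- the prime polynomial for a function of the norm.

Proof. `fg g (el p true) = fg g (el p false) = g p` (norm `p`), `el p false = star (pe p)`,
`xi k (pe p) + xi k (star (pe p)) = 2 cos(2π k al (pe p))`; `|g p| = 1` as `p` is odd. -/
theorem Qp_fg_le (g : ℕ → ℤ) (hg : CO g) (k : ℤ) (P Q : ℝ) :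
    ‖Qp (fg g) k P Q‖ ≤ ∑ p ∈ Ip P Q, 2 * |Real.cos (2 * Real.pi * (k * al (pe p)))| := by
  unfold Qp
  refine (norm_sum_le _ _).trans (Finset.sum_le_sum fun p hp => ?_)
  have hS : Sp p := Ip_Sp hp
  have hodd : p % 2 = 1 := by
    have := (mem_Ip.1 hp).2.1
    omega
  have hF : ∀ s : Bool, fg g (el p s) = ((g p : ℤ) : ℂ) := by
    intro s
    rw [fg, F, (el_spec hS s).2, Int.toNat_natCast]
  have e1 : el p true = pe p := by simp [el]
  have e2 : el p false = star (pe p) := by simp [el]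
  have h1 : ∑ s : Bool, fg g (el p s) * xi k (el p s) =
      ((g p : ℤ) : ℂ) * ((2 * Real.cos (2 * Real.pi * (k * al (pe p))) : ℝ) : ℂ) := by
    rw [Fintype.sum_bool, hF, hF, e1, e2, xi_star, ← mul_add, Complex.add_conj, xi, ee_re]
  rw [h1, Complex.norm_mul, Complex.norm_real, Real.norm_eq_abs, abs_mul, abs_two]
  have h2 : ‖((g p : ℤ) : ℂ)‖ = 1 := by
    rcases hg.val p hodd with h | h <;> rw [h] <;> simp
  rw [h2, one_mul]

end

end Pool.Agent.Lib.MP_0b748d_nt.MR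
end

section

set_option autoImplicit false

/-!
# The exceptional frequencies
-/

namespace Pool.Agent.Lib.MP_0b748d_nt.MR

open Zsqrtd

noncomputable section

/-- pure real inequality behind `dual_level` -/
private theorem dual_arith {P Nv N cU M S ε κX D' : ℝ} (hε : 0 < ε) (hε1 : ε ≤ 1) (hκ : 0 < κX)
    (hP : 0 ≤ P) (hNv : 0 ≤ Nv) (hcU : 0 ≤ cU * M) (hS : S ≤ (Nv + cU * M) * Nv)
    (h1 : P * Nv ≤ κX + D' / 2) (h2 : P * (cU * M) ≤ D' / 2) (h3 : κX - D' ≤ N)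
    (h4 : D' ≤ ε / 8 * κX) : P ^ 2 * S ≤ (1 + ε) * N ^ 2 := by
  have e1 : P ^ 2 * S ≤ (P * Nv + P * (cU * M)) * (P * Nv) := by
    calc P ^ 2 * S ≤ P ^ 2 * ((Nv + cU * M) * Nv) := mul_le_mul_of_nonneg_left hS (sq_nonneg _)
      _ = _ := by ring
  have hPNv : 0 ≤ P * Nv := mul_nonneg hP hNv
  have hD0 : 0 ≤ D' := by
    have := mul_nonneg hP hcU
    linarith
  have e2 : (P * Nv + P * (cU * M)) * (P * Nv) ≤ (κX + D') * (κX + D') := by
    apply mul_le_mul (by linarith) (by linarith) hPNv (by linarith)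
  have e3 : κX + D' ≤ (1 + ε / 8) * κX := by linarith
  have e4 : (κX + D') * (κX + D') ≤ ((1 + ε / 8) * κX) * ((1 + ε / 8) * κX) :=
    mul_le_mul e3 e3 (by linarith) (by linarith)
  have e5 : (1 - ε / 8) * κX ≤ N := by linarith
  have e6 : 0 ≤ (1 - ε / 8) * κX := mul_nonneg (by linarith) hκ.le
  have e7 : ((1 - ε / 8) * κX) ^ 2 ≤ N ^ 2 := pow_le_pow_left₀ e6 e5 2
  have e8 : (1 + ε / 8) * (1 + ε / 8) ≤ (1 + ε) * (1 - ε / 8) ^ 2 := by
    have : (1 + ε) * (1 - ε / 8) ^ 2 - (1 + ε / 8) * (1 + ε / 8) =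
        ε * (1 / 2 - ε / 4) + ε ^ 3 / 64 := by ring
    have h5 : 0 ≤ ε * (1 / 2 - ε / 4) := mul_nonneg hε.le (by linarith only [hε1])
    have h6 : 0 ≤ ε ^ 3 / 64 := by positivity
    linarith only [h5, h6]
  calc P ^ 2 * S ≤ ((1 + ε / 8) * κX) * ((1 + ε / 8) * κX) := e1.trans (e2.trans e4)
    _ = (1 + ε / 8) * (1 + ε / 8) * κX ^ 2 := by ring
    _ ≤ (1 + ε) * (1 - ε / 8) ^ 2 * κX ^ 2 := mul_le_mul_of_nonneg_right e8 (sq_nonneg _)
    _ = (1 + ε) * ((1 - ε / 8) * κX) ^ 2 := by ring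
    _ ≤ (1 + ε) * N ^ 2 := mul_le_mul_of_nonneg_left e7 (by linarith only [hε])

/-- duality at the exceptional frequencies.

Proof. `dual` with `T = Us A B`, `A = X/P`, `B = 2X/(P λ)`, `J = ⌊2X⌋`,
`M = C B^(1-η)` from `U_exp 2` (`η ≤ 1/8`): for `0 < |j| ≤ 2X` one has `|j| ≤ 2 X ≤ B^2` because
`B ≥ X^(7/8)`. With `N_v = #T`: `∑_{k ∈ 𝒰} ‖A_v(k)‖² ≤ (N_v + #𝒰 C B^(1-η)) N_v`. By `U_count`
`N_v = kap1 (2/λ - 1) X/P + O((X/P)^(3/4)) ≤ (1 + ε/8) N/P` and `B^(1-η) X^(3α) ≤ (ε/8) kap1 X/P`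
for large `X`, because `3α = η/4` and `B ≥ X^(7/8)`: `X^(3α) ≤ X^(η/4) ≤ B^(η/2)`, and
`N ≥ (1 - ε/8) kap1 X`. So `P² ∑ ‖A_v‖² ≤ (1+ε) N²`. -/
theorem dual_level : ∃ α : ℝ, 0 < α ∧ α ≤ 1 / 4 ∧ ∀ ε : ℝ, 0 < ε → ε ≤ 1 → ∃ X0 : ℝ, 2 ≤ X0 ∧
    ∀ X : ℝ, X0 ≤ X → ∀ f : ℤ√2 → ℂ, MF f → ∀ P lam : ℝ, 1 ≤ P → 1 < lam → lam ≤ 2 →
    P * lam ≤ X ^ ((1 : ℝ) / 8) → ∀ 𝒰 : Finset ℤ, (∀ k ∈ 𝒰, |(k : ℝ)| ≤ X) →
    (𝒰.card : ℝ) ≤ X ^ (3 * α) →
    P ^ 2 * ∑ k ∈ 𝒰, ‖Ap f k (X / P) (2 * X / (P * lam))‖ ^ 2 ≤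
      (1 + ε) * ((Us X (2 * X)).card : ℝ) ^ 2 := by
  obtain ⟨C2, η, hC2, hη, hη8, hU⟩ := U_exp 2
  obtain ⟨C1, hC1, hcount⟩ := U_count
  refine ⟨η / 12, by positivity, by linarith, ?_⟩
  intro ε hε hε1
  set κ : ℝ := kap1 with hκdef
  have hκ : 0 < κ := kap1_pos
  set s : ℝ := 5 * η / 8 with hs
  have hs0 : 0 < s := by positivity
  set D : ℝ := 4 * C1 + 4 * C2 with hD
  have hD0 : 0 < D := by positivity
  have hlim := tendsto_rpow_neg_atTop hs0
  have hev : ∀ᶠ X : ℝ in Filter.atTop, X ^ (-s) < ε / 8 * κ / D :=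
    hlim.eventually (gt_mem_nhds (by positivity))
  obtain ⟨X1, hX1⟩ := Filter.eventually_atTop.mp hev
  refine ⟨max 2 X1, le_max_left _ _, ?_⟩
  intro X hX f hf P lam hP hlam1 hlam2 hPl 𝒰 h𝒰 hcard
  have hX2 : 2 ≤ X := (le_max_left _ _).trans hX
  have hXs : X ^ (-s) < ε / 8 * κ / D := hX1 X ((le_max_right _ _).trans hX)
  have hX0 : 0 < X := by linarith
  have hX1' : 1 ≤ X := by linarith
  have hP0 : 0 < P := by linarith
  have hlam0 : 0 < lam := by linarith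
  set a : ℝ := X / P with ha
  set b : ℝ := 2 * X / (P * lam) with hb
  have hPlam : 0 < P * lam := mul_pos hP0 hlam0
  have ha0 : 0 ≤ a := by positivity
  have hab : a ≤ b := by
    rw [ha, hb, div_le_div_iff₀ hP0 hPlam]
    have h5 : lam * (X * P) ≤ 2 * (X * P) := mul_le_mul_of_nonneg_right hlam2 (by positivity)
    linarith
  -- lower bound for `b`
  have hX78 : X ^ ((7 : ℝ) / 8) * X ^ ((1 : ℝ) / 8) = X := by
    rw [← Real.rpow_add hX0]
    norm_num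
  have hX18 : 0 < X ^ ((1 : ℝ) / 8) := Real.rpow_pos_of_pos hX0 _
  have hX78' : 0 < X ^ ((7 : ℝ) / 8) := Real.rpow_pos_of_pos hX0 _
  have hbX : 2 * X ^ ((7 : ℝ) / 8) ≤ b := by
    rw [hb, le_div_iff₀ hPlam]
    calc 2 * X ^ ((7 : ℝ) / 8) * (P * lam) ≤ 2 * X ^ ((7 : ℝ) / 8) * X ^ ((1 : ℝ) / 8) :=
          mul_le_mul_of_nonneg_left hPl (by positivity)
      _ = 2 * (X ^ ((7 : ℝ) / 8) * X ^ ((1 : ℝ) / 8)) := by ring
      _ = 2 * X := by rw [hX78]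
  have hX78one : 1 ≤ X ^ ((7 : ℝ) / 8) := Real.one_le_rpow hX1' (by norm_num)
  have hbX' : X ^ ((7 : ℝ) / 8) ≤ b := by linarith only [hX78', hbX]
  have hb1 : 1 ≤ b := by linarith only [hX78one, hbX']
  have hb0 : 0 < b := by linarith only [hb1]
  -- upper bound for `P * b`
  have hPb : P * b ≤ 2 * X := by
    have h5 : P * b = 2 * X / lam := by
      rw [hb]
      field_simp
    rw [h5, div_le_iff₀ hlam0]
    have h6 : 2 * X * 1 ≤ 2 * X * lam := mul_le_mul_of_nonneg_left hlam1.le (by positivity)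
    linarith only [h6]
  -- `2 X ≤ b ^ 2`
  have hb2 : 2 * X ≤ b ^ 2 := by
    have h5 : (2 * X ^ ((7 : ℝ) / 8)) ^ 2 ≤ b ^ 2 := pow_le_pow_left₀ (by positivity) hbX 2
    have h6 : X ≤ (X ^ ((7 : ℝ) / 8)) ^ 2 := by
      rw [← Real.rpow_natCast, ← Real.rpow_mul hX0.le]
      calc X = X ^ (1 : ℝ) := (Real.rpow_one X).symm
        _ ≤ _ := Real.rpow_le_rpow_of_exponent_le hX1' (by norm_num)
    have h7 : (2 * X ^ ((7 : ℝ) / 8)) ^ 2 = 4 * (X ^ ((7 : ℝ) / 8)) ^ 2 := by ring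
    linarith only [hX1', h5, h6]
  -- decay
  have hdec : ∀ t : ℝ, 0 ≤ t → b ^ (-t) ≤ X ^ (-(7 / 8 * t)) := by
    intro t ht
    have h5 : b ^ (-t) ≤ (X ^ ((7 : ℝ) / 8)) ^ (-t) :=
      Real.rpow_le_rpow_of_nonpos hX78' hbX' (by linarith only [ht])
    rw [← Real.rpow_mul hX0.le] at h5
    refine h5.trans (le_of_eq ?_)
    congr 1
    ring
  have hXmono : ∀ t : ℝ, s ≤ t → X ^ (-t) ≤ X ^ (-s) := fun t ht =>
    Real.rpow_le_rpow_of_exponent_le hX1' (by linarith only [ht])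
  have hXs0 : 0 < X ^ (-s) := Real.rpow_pos_of_pos hX0 _
  -- counting
  have hNv := hcount a b ha0 hab
  have hN := hcount X (2 * X) hX0.le (by linarith only [hX1'])
  set Nv : ℝ := ((Us a b).card : ℝ) with hNvd
  set N : ℝ := ((Us X (2 * X)).card : ℝ) with hNd
  have hNv0 : 0 ≤ Nv := Nat.cast_nonneg _
  have hNvu : Nv ≤ κ * (b - a) + C1 * b ^ ((3 : ℝ) / 4) := by
    have := (abs_le.mp hNv).2
    linarith only [this]
  have hNl : κ * X - C1 * (2 * X) ^ ((3 : ℝ) / 4) ≤ N := by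
    have h5 := (abs_le.mp hN).1
    have h6 : κ * (2 * X - X) = κ * X := by ring
    rw [h6] at h5
    linarith only [h5]
  have hPba : P * (b - a) ≤ X := by
    have h5 : P * a = X := by
      rw [ha]
      field_simp
    have h6 : P * (b - a) = P * b - P * a := by ring
    rw [h6, h5]
    linarith only [hPb]
  have hb34 : b ^ ((3 : ℝ) / 4) = b * b ^ (-((1 : ℝ) / 4)) := by
    calc b ^ ((3 : ℝ) / 4) = b ^ ((1 : ℝ) + -((1 : ℝ) / 4)) := by norm_num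
      _ = b ^ (1 : ℝ) * b ^ (-((1 : ℝ) / 4)) := Real.rpow_add hb0 _ _
      _ = _ := by rw [Real.rpow_one]
  have hb1η : b ^ (1 - η) = b * b ^ (-η) := by
    calc b ^ (1 - η) = b ^ ((1 : ℝ) + -η) := by ring_nf
      _ = b ^ (1 : ℝ) * b ^ (-η) := Real.rpow_add hb0 _ _
      _ = _ := by rw [Real.rpow_one]
  have hPb34 : P * b ^ ((3 : ℝ) / 4) ≤ 2 * X * X ^ (-s) := by
    rw [hb34]
    have h5 : b ^ (-((1 : ℝ) / 4)) ≤ X ^ (-s) :=
      (hdec (1 / 4) (by norm_num)).trans (hXmono _ (by rw [hs]; linarith only [hη8]))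
    calc P * (b * b ^ (-((1 : ℝ) / 4))) = (P * b) * b ^ (-((1 : ℝ) / 4)) := by ring
      _ ≤ (2 * X) * X ^ (-s) :=
        mul_le_mul hPb h5 (Real.rpow_nonneg hb0.le _) (by positivity)
  have h2X34 : (2 * X) ^ ((3 : ℝ) / 4) ≤ 2 * X * X ^ (-s) := by
    have h2X : 0 < 2 * X := by positivity
    have h5 : (2 * X) ^ ((3 : ℝ) / 4) = (2 * X) * (2 * X) ^ (-((1 : ℝ) / 4)) := by
      calc (2 * X) ^ ((3 : ℝ) / 4) = (2 * X) ^ ((1 : ℝ) + -((1 : ℝ) / 4)) := by norm_num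
        _ = (2 * X) ^ (1 : ℝ) * (2 * X) ^ (-((1 : ℝ) / 4)) := Real.rpow_add h2X _ _
        _ = _ := by rw [Real.rpow_one]
    rw [h5]
    have h6 : (2 * X) ^ (-((1 : ℝ) / 4)) ≤ X ^ (-((1 : ℝ) / 4)) :=
      Real.rpow_le_rpow_of_nonpos hX0 (by linarith only [h2X]) (by norm_num)
    exact mul_le_mul_of_nonneg_left (h6.trans (hXmono _ (by rw [hs]; linarith only [hη8]))) h2X.le
  -- the exponential sums
  set M : ℝ := C2 * b ^ (1 - η) with hM
  have hM0 : 0 ≤ M := by positivity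
  have hdual := dual (Us a b) M hM0 ⌊2 * X⌋ (by
    intro j hj0 hj
    refine hU a b ha0 hb1 j hj0 ?_
    have h5 : ((|j| : ℤ) : ℝ) ≤ 2 * X := (Int.cast_le.mpr hj).trans (Int.floor_le _)
    rw [Int.cast_abs] at h5
    exact h5.trans hb2) 𝒰 (by
    intro k hk l hl
    rw [Int.le_floor]
    have h5 := h𝒰 k hk
    have h6 := h𝒰 l hl
    push_cast
    have h7 := abs_sub (k : ℝ) (l : ℝ)
    linarith only [h5, h6, h7]) f
  have hfsum : ∑ w ∈ Us a b, ‖f w‖ ^ 2 ≤ Nv := by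
    have h5 : ∀ w ∈ Us a b, ‖f w‖ ^ 2 ≤ 1 := by
      intro w hw
      have h6 := hf.le w (mem_Us.mp hw).1.1
      exact pow_le_one₀ (norm_nonneg _) h6
    calc ∑ w ∈ Us a b, ‖f w‖ ^ 2 ≤ ∑ w ∈ Us a b, (1 : ℝ) := Finset.sum_le_sum h5
      _ = Nv := by rw [Finset.sum_const, nsmul_eq_mul, mul_one]
  have hcM0 : 0 ≤ (𝒰.card : ℝ) * M := by positivity
  have hS : ∑ k ∈ 𝒰, ‖Ap f k a b‖ ^ 2 ≤ (Nv + 𝒰.card * M) * Nv := by
    refine le_trans hdual ?_
    exact mul_le_mul_of_nonneg_left hfsum (by positivity)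
  -- the size of the second term
  have hPM : P * ((𝒰.card : ℝ) * M) ≤ 2 * C2 * X * X ^ (-s) := by
    rw [hM, hb1η]
    have h5 : b ^ (-η) ≤ X ^ (-(7 / 8 * η)) := hdec η hη.le
    have h6 : (𝒰.card : ℝ) * b ^ (-η) ≤ X ^ (3 * (η / 12)) * X ^ (-(7 / 8 * η)) :=
      mul_le_mul hcard h5 (Real.rpow_nonneg hb0.le _) (Real.rpow_nonneg hX0.le _)
    have h7 : X ^ (3 * (η / 12)) * X ^ (-(7 / 8 * η)) = X ^ (-s) := by
      rw [← Real.rpow_add hX0]
      congr 1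
      rw [hs]
      ring
    rw [h7] at h6
    have h8 : 0 ≤ (𝒰.card : ℝ) * b ^ (-η) := by positivity
    calc P * ((𝒰.card : ℝ) * (C2 * (b * b ^ (-η))))
        = C2 * ((P * b) * ((𝒰.card : ℝ) * b ^ (-η))) := by ring
      _ ≤ C2 * ((2 * X) * X ^ (-s)) :=
        mul_le_mul_of_nonneg_left (mul_le_mul hPb h6 h8 (by positivity)) (by linarith only [hC2])
      _ = 2 * C2 * X * X ^ (-s) := by ring
  have hXX : 0 < X * X ^ (-s) := by positivity
  refine dual_arith (Nv := Nv) (cU := (𝒰.card : ℝ)) (M := M) (κX := κ * X)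
    (D' := D * (X * X ^ (-s))) hε hε1 (by positivity) hP0.le hNv0 hcM0 hS ?_ ?_ ?_ ?_
  · calc P * Nv ≤ P * (κ * (b - a) + C1 * b ^ ((3 : ℝ) / 4)) :=
          mul_le_mul_of_nonneg_left hNvu hP0.le
      _ = κ * (P * (b - a)) + C1 * (P * b ^ ((3 : ℝ) / 4)) := by ring
      _ ≤ κ * X + C1 * (2 * X * X ^ (-s)) :=
        add_le_add (mul_le_mul_of_nonneg_left hPba hκ.le)
          (mul_le_mul_of_nonneg_left hPb34 hC1.le)
      _ ≤ κ * X + D * (X * X ^ (-s)) / 2 := by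
        have h5 : 0 ≤ C2 * (X * X ^ (-s)) := by positivity
        have h6 : D * (X * X ^ (-s)) / 2 =
            C1 * (2 * X * X ^ (-s)) + 2 * (C2 * (X * X ^ (-s))) := by
          rw [hD]
          ring
        linarith only [h5]
  · have h5 : 0 ≤ C1 * (X * X ^ (-s)) := by positivity
    have h6 : D * (X * X ^ (-s)) / 2 =
        2 * C2 * X * X ^ (-s) + 2 * (C1 * (X * X ^ (-s))) := by
      rw [hD]
      ring
    linarith only [hPM, h5]
  · have h5 : C1 * (2 * X) ^ ((3 : ℝ) / 4) ≤ C1 * (2 * X * X ^ (-s)) :=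
      mul_le_mul_of_nonneg_left h2X34 hC1.le
    have h6 : D * (X * X ^ (-s)) = C1 * (2 * X * X ^ (-s)) +
        2 * (C1 * (X * X ^ (-s))) + 4 * (C2 * (X * X ^ (-s))) := by
      rw [hD]
      ring
    have h7 : 0 ≤ C1 * (X * X ^ (-s)) := by positivity
    have h8 : 0 ≤ C2 * (X * X ^ (-s)) := by positivity
    linarith only [hNl, h5, h7, h8]
  · have h5 : D * X ^ (-s) ≤ ε / 8 * κ := by
      have h6 := hXs.le
      rw [le_div_iff₀ hD0] at h6
      linarith only [h6]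
    calc D * (X * X ^ (-s)) = (D * X ^ (-s)) * X := by ring
      _ ≤ (ε / 8 * κ) * X := mul_le_mul_of_nonneg_right h5 hX0.le
      _ = ε / 8 * (κ * X) := by ring

end

end Pool.Agent.Lib.MP_0b748d_nt.MR
end

section

set_option autoImplicit false

/-!
# Prime elements in sectors: upper bound by the sieve
-/

namespace Pool.Agent.Lib.MP_0b748d_nt.MR

open Zsqrtd

noncomputable section

private lemma psec_cos {J : ℕ} (hJ : 1 ≤ J) {a : ℝ} (h : ∀ m : ℤ, 1 / (2 * (J : ℝ)) < |2 * a - m|) :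
    |Real.cos (2 * Real.pi * a)| ≤ 1 - 1 / (2 * (J : ℝ) ^ 2) := by
  have hJ0 : (0 : ℝ) < J := by exact_mod_cast hJ
  set m : ℤ := round (2 * a) with hm
  set t : ℝ := 2 * a - m with ht
  have h1 : |t| ≤ 1 / 2 := abs_sub_round (2 * a)
  have h2 := h m
  rw [← ht] at h2
  have h3 : |Real.cos (2 * Real.pi * a)| = |Real.cos (Real.pi * t)| := by
    have e1 : Real.pi * t = 2 * Real.pi * a - m * Real.pi := by
      rw [ht]
      ring
    rw [e1, Real.cos_sub_int_mul_pi, abs_mul, abs_zpow, abs_neg, abs_one, one_zpow, one_mul]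
  have h4 : |Real.pi * t| ≤ Real.pi / 2 := by
    rw [abs_mul, abs_of_pos Real.pi_pos]
    have := mul_le_mul_of_nonneg_left h1 Real.pi_pos.le
    linarith
  have h5 : 0 ≤ Real.cos (Real.pi * t) := by
    have := abs_le.1 h4
    exact Real.cos_nonneg_of_mem_Icc ⟨by linarith [this.1], this.2⟩
  have h7 : Real.cos (Real.pi * t) ≤ 1 - 2 / Real.pi ^ 2 * (Real.pi * t) ^ 2 :=
    Real.cos_le_one_sub_mul_cos_sq (h4.trans (by linarith [Real.pi_pos]))
  have h8 : 2 / Real.pi ^ 2 * (Real.pi * t) ^ 2 = 2 * t ^ 2 := by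
    have := Real.pi_pos.ne'
    field_simp
  have h9 : (1 / (2 * (J : ℝ))) ^ 2 ≤ t ^ 2 := by
    rw [← sq_abs t]
    exact pow_le_pow_left₀ (by positivity) h2.le 2
  have h10 : (1 / (2 * (J : ℝ))) ^ 2 = 1 / (2 * (J : ℝ) ^ 2) / 2 := by
    field_simp
  rw [h3, abs_of_nonneg h5]
  rw [h8] at h7
  rw [h10] at h9
  linarith

open Classical in
private lemma psec_bad {C : ℝ} {J M : ℕ} {P0 : ℝ} (hJ : 1 ≤ J) (hP0 : 2 ≤ P0)
    (h : ∀ P : ℝ, P0 ≤ P → ∀ k : ℤ, k ≠ 0 → |(k : ℝ)| ≤ P ^ M → ∀ T : Finset ℕ,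
      (∀ p ∈ T, p ∈ Ip P (2 * P) ∧ ∃ m : ℤ, |2 * k * al (pe p) - m| ≤ 1 / (2 * J)) →
      (T.card : ℝ) ≤ C / J * (P / Real.log P)) {P Q : ℝ} (hP : P0 ≤ P) (hPQ : P ≤ Q) {k : ℤ}
    (hk : k ≠ 0) (hkP : |(k : ℝ)| ≤ P ^ M) (hC : 0 ≤ C) :
    ∑ p ∈ Ip P Q, (if ∃ m : ℤ, |2 * k * al (pe p) - m| ≤ 1 / (2 * J) then 2 / (p : ℝ) else 0) ≤
      2 * C / J * (2 + 2 * Real.log (2 * Real.log Q / Real.log P)) := by
  have hJ0 : (0 : ℝ) < J := by exact_mod_cast hJ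
  have hP2 : 2 ≤ P := hP0.trans hP
  have hP0' : 0 < P := by linarith
  have hQ0 : 0 < Q := by linarith
  have hlogP : 0 < Real.log P := Real.log_pos (by linarith)
  -- the number of dyadic blocks
  have hex : ∃ N : ℕ, Q ≤ P * 2 ^ N := by
    obtain ⟨N, hN⟩ := pow_unbounded_of_one_lt (Q / P) (one_lt_two : (1 : ℝ) < 2)
    refine ⟨N, ?_⟩
    rw [div_lt_iff₀ hP0'] at hN
    linarith
  set N : ℕ := Nat.find hex with hN
  have hN1 : Q ≤ P * 2 ^ N := Nat.find_spec hex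
  have hN2 : P * 2 ^ N ≤ 2 * Q := by
    rcases Nat.eq_zero_or_pos N with h0 | h0
    · rw [h0, pow_zero]
      linarith
    · obtain ⟨N', hN'⟩ : ∃ N', N = N' + 1 := ⟨N - 1, by omega⟩
      have h1 : ¬ Q ≤ P * 2 ^ N' := Nat.find_min hex (by omega)
      rw [hN', pow_succ]
      linarith [not_le.1 h1]
  set φ : ℕ → ℝ := fun p => if ∃ m : ℤ, |2 * k * al (pe p) - m| ≤ 1 / (2 * J) then
    2 / (p : ℝ) else 0 with hφ
  have hφ0 : ∀ p, 0 ≤ φ p := by
    intro p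
    rw [hφ]
    simp only
    split_ifs
    · positivity
    · exact le_rfl
  have h1 : ∑ p ∈ Ip P Q, φ p ≤ ∑ p ∈ Ip P (P * 2 ^ N), φ p := by
    refine Finset.sum_le_sum_of_subset_of_nonneg ?_ fun p _ _ => hφ0 p
    intro p hp
    rw [mem_Ip] at hp ⊢
    exact ⟨hp.1, hp.2.1, hp.2.2.1, lt_of_lt_of_le hp.2.2.2 hN1⟩
  have h2 : ∀ v ∈ Finset.range N, ∑ p ∈ Ip (P * 2 ^ v) (P * 2 ^ (v + 1)), φ p ≤
      2 * C / J * (1 / Real.log (2 ^ v * P)) := by
    intro v _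
    set R : ℝ := 2 ^ v * P with hR
    have hPR : P ≤ R := by
      rw [hR]
      exact le_mul_of_one_le_left hP0'.le (one_le_pow₀ (by norm_num))
    have e1 : P * 2 ^ v = R := by rw [hR]; ring
    have e2 : P * 2 ^ (v + 1) = 2 * R := by rw [hR]; ring
    rw [e1, e2]
    have hR0 : 0 < R := by linarith
    have h3 := h R (hP.trans hPR) k hk (hkP.trans (pow_le_pow_left₀ hP0'.le hPR M))
      ((Ip R (2 * R)).filter (fun p => ∃ m : ℤ, |2 * k * al (pe p) - m| ≤ 1 / (2 * J)))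
      (fun p hp => Finset.mem_filter.1 hp)
    have h4 : ∑ p ∈ Ip R (2 * R), φ p =
        ∑ p ∈ (Ip R (2 * R)).filter (fun p => ∃ m : ℤ, |2 * k * al (pe p) - m| ≤ 1 / (2 * J)),
          2 / (p : ℝ) := by
      rw [Finset.sum_filter]
    rw [h4]
    have h5 : ∀ p ∈ (Ip R (2 * R)).filter
        (fun p => ∃ m : ℤ, |2 * k * al (pe p) - m| ≤ 1 / (2 * J)), 2 / (p : ℝ) ≤ 2 / R := by
      intro p hp
      have h6 := (mem_Ip.1 (Finset.mem_filter.1 hp).1).2.2.1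
      exact div_le_div_of_nonneg_left (by norm_num) hR0 h6
    have h6 := Finset.sum_le_sum h5
    rw [Finset.sum_const, nsmul_eq_mul] at h6
    refine h6.trans ?_
    calc _ ≤ C / J * (R / Real.log R) * (2 / R) :=
          mul_le_mul_of_nonneg_right h3 (by positivity)
      _ = 2 * C / J * (1 / Real.log R) := by
          have hlogR : 0 < Real.log R := Real.log_pos (by linarith)
          field_simp
  have h3 := sum_inv_log P hP2 N
  calc ∑ p ∈ Ip P Q, φ p ≤ ∑ p ∈ Ip P (P * 2 ^ N), φ p := h1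
    _ = ∑ v ∈ Finset.range N, ∑ p ∈ Ip (P * 2 ^ v) (P * 2 ^ (v + 1)), φ p :=
        Ip_split φ P 2 hP0' one_lt_two N
    _ ≤ ∑ v ∈ Finset.range N, 2 * C / J * (1 / Real.log (2 ^ v * P)) := Finset.sum_le_sum h2
    _ = 2 * C / J * ∑ v ∈ Finset.range N, 1 / Real.log (2 ^ v * P) := by rw [Finset.mul_sum]
    _ ≤ 2 * C / J * (2 + 2 * Real.log (Real.log (2 ^ N * P) / Real.log P)) :=
        mul_le_mul_of_nonneg_left h3 (by positivity)
    _ ≤ 2 * C / J * (2 + 2 * Real.log (2 * Real.log Q / Real.log P)) := by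
        refine mul_le_mul_of_nonneg_left ?_ (by positivity)
        have h4 : Real.log (2 ^ N * P) ≤ 2 * Real.log Q := by
          have h5 : 2 ^ N * P ≤ Q ^ 2 := by
            rw [mul_comm]
            refine hN2.trans ?_
            rw [sq]
            exact mul_le_mul_of_nonneg_right (by linarith) hQ0.le
          have h6 := Real.log_le_log (by positivity) h5
          rw [Real.log_pow] at h6
          exact_mod_cast h6
        have h5 : 0 < Real.log (2 ^ N * P) := by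
          refine Real.log_pos ?_
          have : (1 : ℝ) ≤ 2 ^ N := one_le_pow₀ (by norm_num)
          nlinarith
        have h6 : Real.log (Real.log (2 ^ N * P) / Real.log P) ≤
            Real.log (2 * Real.log Q / Real.log P) := by
          refine Real.log_le_log (by positivity) ?_
          exact div_le_div_of_nonneg_right h4 hlogP.le
        linarith

/-- cosine sums over primes.

Proof. Let `C` be the constant of `P_sector`, `c, K` those of `M_low`. Choose `J` with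
`40 C/J ≤ c/4` and `t0 > 1` with `log t0 ≥ max 1 (4K/c)`; `δ0 = 1/(4 J^2)`. Given `c1` let
`M = ⌈1/c1⌉` and `X0` with `X0^c1 ≥ P0(J, M)`, `X0^c1 ≥ 2`. For `P ≥ X^c1`: `|k| ≤ X ≤ P^M`. Let
`L = log(log Q/log P) ≥ log t0 ≥ 1` and `W = Wp P Q ≥ c L - K ≥ (3/4) c L`.
Call `p ∈ Ip P Q` bad if `∃ m, |2 k al (pe p) - m| ≤ 1/(2J)`. Cover `[P, Q)` by the dyadic
intervals `[2^i P, 2^(i+1) P)`, `i < N`, `2^(N-1) P < Q ≤ 2^N P`. By `P_sector` (at `2^i P ≥ P`)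
the bad primes have weight
`∑_bad 2/p ≤ ∑_i (2/(2^i P)) (C/J) 2^i P/log(2^i P) = (2C/J) ∑_i 1/log(2^i P)
≤ (2C/J) (2 + 2 log(log(2^N P)/log P))` (`sum_inv_log`), and `log(2^N P) ≤ log(2Q) ≤ 2 log Q`, so this
is `≤ (2C/J) (2 + 2 log 2 + 2 L) ≤ (2C/J) 6 L ≤ (3/8) c L ≤ W/2`.
For good primes `|cos(2π k α)| = |cos(π x)|` with `x = 2 k α`, `|x - m| > 1/(2J)` for all
integers `m`, so `|cos(π x)| ≤ cos(π/(2J)) ≤ 1 - 1/(2 J^2)` (`1 - cos y ≥ 2 y²/π²` for
`|y| ≤ π`). Hence the sum is `≤ W - (1/(2J²)) (W - W/2) = (1 - 1/(4J²)) W`. -/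
theorem cos_sum : ∃ δ0 t0 : ℝ, 0 < δ0 ∧ δ0 ≤ 1 / 4 ∧ 1 < t0 ∧ ∀ c1 : ℝ, 0 < c1 → ∃ X0 : ℝ, 2 ≤ X0 ∧
    ∀ X : ℝ, X0 ≤ X → ∀ P Q : ℝ, X ^ c1 ≤ P → P ^ t0 ≤ Q → Q ≤ X → ∀ k : ℤ, k ≠ 0 →
    |(k : ℝ)| ≤ X →
    ∑ p ∈ Ip P Q, 2 / (p : ℝ) * |Real.cos (2 * Real.pi * (k * al (pe p)))| ≤
      (1 - δ0) * Wp P Q := by
  classical
  obtain ⟨C, hC1, hC⟩ := P_sector
  obtain ⟨c, K, hc, hK, hM⟩ := M_low
  obtain ⟨J, hJ⟩ := exists_nat_ge (160 * C / c)
  have hJ0 : (0 : ℝ) < J := lt_of_lt_of_le (by positivity) hJ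
  have hJ1 : 1 ≤ J := by
    have : 0 < J := by exact_mod_cast hJ0
    omega
  have hJ1' : (1 : ℝ) ≤ J := by exact_mod_cast hJ1
  have hCJ : C / J ≤ c / 160 := by
    rw [div_le_iff₀ hc] at hJ
    rw [div_le_div_iff₀ hJ0 (by norm_num)]
    linarith
  set l0 : ℝ := max 1 (4 * K / c) with hl0
  have hl01 : 1 ≤ l0 := le_max_left _ _
  have hl02 : 4 * K / c ≤ l0 := le_max_right _ _
  refine ⟨1 / (4 * (J : ℝ) ^ 2), Real.exp l0, by positivity, ?_, ?_, fun c1 hc1 => ?_⟩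
  · refine one_div_le_one_div_of_le (by norm_num) ?_
    have : (1 : ℝ) ≤ (J : ℝ) ^ 2 := one_le_pow₀ hJ1'
    linarith
  · exact Real.one_lt_exp_iff.2 (by linarith)
  set M : ℕ := ⌈1 / c1⌉₊ with hMdef
  obtain ⟨P0, hP0, hsec⟩ := hC J M hJ1
  refine ⟨max 2 (P0 ^ (1 / c1)), le_max_left _ _, fun X hX P Q hXP hPQ hQX k hk hkX => ?_⟩
  have hX2 : 2 ≤ X := (le_max_left _ _).trans hX
  have hX0 : 0 < X := by linarith
  have hP00 : 0 < P0 := by linarith
  have hXc : P0 ≤ X ^ c1 := by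
    have h1 : P0 ^ (1 / c1) ≤ X := (le_max_right _ _).trans hX
    have h2 := Real.rpow_le_rpow (by positivity) h1 hc1.le
    rw [← Real.rpow_mul hP00.le, one_div_mul_cancel hc1.ne', Real.rpow_one] at h2
    exact h2
  have hPP0 : P0 ≤ P := hXc.trans hXP
  have hP2 : 2 ≤ P := hP0.trans hPP0
  have hP0' : 0 < P := by linarith
  have hlogP : 0 < Real.log P := Real.log_pos (by linarith)
  have hkP : |(k : ℝ)| ≤ P ^ M := by
    have h1 : X ≤ P ^ (1 / c1) := by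
      have h2 := Real.rpow_le_rpow (by positivity) hXP (by positivity : 0 ≤ 1 / c1)
      rw [← Real.rpow_mul hX0.le, mul_one_div_cancel hc1.ne', Real.rpow_one] at h2
      exact h2
    have h3 : P ^ (1 / c1) ≤ P ^ (M : ℝ) :=
      Real.rpow_le_rpow_of_exponent_le (by linarith) (Nat.le_ceil _)
    rw [Real.rpow_natCast] at h3
    exact hkX.trans (h1.trans h3)
  have hexp1 : 1 ≤ Real.exp l0 := Real.one_le_exp (by linarith)
  have hPQ' : P ≤ Q := by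
    refine le_trans ?_ hPQ
    calc P = P ^ (1 : ℝ) := (Real.rpow_one P).symm
      _ ≤ P ^ Real.exp l0 := Real.rpow_le_rpow_of_exponent_le (by linarith) hexp1
  have hQ0 : 0 < Q := by linarith
  have hlogQ : Real.exp l0 * Real.log P ≤ Real.log Q := by
    rw [← Real.log_rpow hP0']
    exact Real.log_le_log (by positivity) hPQ
  set L : ℝ := Real.log (Real.log Q / Real.log P) with hL
  have hLl : l0 ≤ L := by
    rw [hL, Real.le_log_iff_exp_le (by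
      refine div_pos (lt_of_lt_of_le (by positivity) hlogQ) hlogP), le_div_iff₀ hlogP]
    exact hlogQ
  have hW : 3 / 4 * (c * L) ≤ Wp P Q := by
    have h1 := hM P Q hP2 hPQ'
    have h2 : 4 * K ≤ c * L := by
      have h3 := hl02.trans hLl
      rw [div_le_iff₀ hc] at h3
      linarith
    rw [← hL] at h1
    linarith
  have hbad := psec_bad hJ1 hP0 hsec hPP0 hPQ' hk hkP (by linarith : (0 : ℝ) ≤ C)
  have hbad2 : 2 * C / J * (2 + 2 * Real.log (2 * Real.log Q / Real.log P)) ≤ Wp P Q / 2 := by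
    have h1 : Real.log (2 * Real.log Q / Real.log P) = Real.log 2 + L := by
      rw [mul_div_assoc, Real.log_mul two_ne_zero, hL]
      have h2 : 0 < Real.log Q := lt_of_lt_of_le (by positivity) hlogQ
      exact (div_pos h2 hlogP).ne'
    have h2 : Real.log 2 ≤ 1 := by
      have := Real.log_two_lt_d9
      linarith
    rw [h1]
    have h3 : 2 + 2 * (Real.log 2 + L) ≤ 6 * L := by
      have : 1 ≤ L := hl01.trans hLl
      linarith
    have h4 : 0 ≤ 2 * C / (J : ℝ) := by positivity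
    calc 2 * C / J * (2 + 2 * (Real.log 2 + L)) ≤ 2 * C / J * (6 * L) :=
          mul_le_mul_of_nonneg_left h3 h4
      _ = 12 * L * (C / J) := by ring
      _ ≤ 12 * L * (c / 160) := by
          refine mul_le_mul_of_nonneg_left hCJ ?_
          have : 1 ≤ L := hl01.trans hLl
          linarith
      _ ≤ 3 / 4 * (c * L) / 2 := by
          have : 0 < c * L := mul_pos hc (by linarith)
          nlinarith
      _ ≤ Wp P Q / 2 := by linarith
  set B : ℝ := ∑ p ∈ Ip P Q,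
    (if ∃ m : ℤ, |2 * k * al (pe p) - m| ≤ 1 / (2 * J) then 2 / (p : ℝ) else 0) with hB
  set ε : ℝ := 1 / (2 * (J : ℝ) ^ 2) with hε
  have hε0 : 0 < ε := by positivity
  have hε1 : ε ≤ 1 := by
    rw [hε, div_le_one (by positivity)]
    have : (1 : ℝ) ≤ (J : ℝ) ^ 2 := one_le_pow₀ hJ1'
    linarith
  have hterm : ∀ p ∈ Ip P Q, 2 / (p : ℝ) * |Real.cos (2 * Real.pi * (k * al (pe p)))| ≤
      2 / (p : ℝ) - ε * (2 / (p : ℝ)) +
        ε * (if ∃ m : ℤ, |2 * k * al (pe p) - m| ≤ 1 / (2 * J) then 2 / (p : ℝ) else 0) := by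
    intro p hp
    have hp0 : (0 : ℝ) ≤ 2 / (p : ℝ) := by positivity
    split_ifs with hb
    · have h1 := mul_le_mul_of_nonneg_left (Real.abs_cos_le_one (2 * Real.pi * (k * al (pe p)))) hp0
      linarith
    · push Not at hb
      have h1 := psec_cos hJ1 (a := k * al (pe p)) (by
        intro m
        have := hb m
        rwa [mul_assoc] at this)
      have h2 := mul_le_mul_of_nonneg_left h1 hp0
      rw [← hε] at h2
      linarith
  calc ∑ p ∈ Ip P Q, 2 / (p : ℝ) * |Real.cos (2 * Real.pi * (k * al (pe p)))|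
      ≤ ∑ p ∈ Ip P Q, (2 / (p : ℝ) - ε * (2 / (p : ℝ)) +
        ε * (if ∃ m : ℤ, |2 * k * al (pe p) - m| ≤ 1 / (2 * J) then 2 / (p : ℝ) else 0)) :=
        Finset.sum_le_sum hterm
    _ = Wp P Q - ε * Wp P Q + ε * B := by
        rw [Finset.sum_add_distrib, Finset.sum_sub_distrib, ← Finset.mul_sum, ← Finset.mul_sum]
        rfl
    _ ≤ Wp P Q - ε * Wp P Q + ε * (Wp P Q / 2) := by
        have := mul_le_mul_of_nonneg_left (hbad.trans hbad2) hε0.le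
        linarith
    _ = (1 - 1 / (4 * (J : ℝ) ^ 2)) * Wp P Q := by
        rw [hε]
        field_simp
        ring

end

end Pool.Agent.Lib.MP_0b748d_nt.MR
end

section

set_option autoImplicit false

namespace Pool.Agent.Lib.MP_0b748d_nt.MR

open Zsqrtd

noncomputable section

/-- the normalised prime polynomial -/
lemma FL_q (g : ℕ → ℤ) (hg : CO g) (k : ℤ) (a lam : ℝ) (ha : 0 < a) (_hl : 1 < lam) :
    ‖Qp (fg g) k a (a * lam)‖ / a ≤
      lam * ∑ p ∈ Ip a (a * lam), 2 / (p : ℝ) * |Real.cos (2 * Real.pi * (k * al (pe p)))| := by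
  have h1 := Qp_fg_le g hg k a (a * lam)
  rw [div_le_iff₀ ha]
  refine h1.trans ?_
  rw [mul_assoc, mul_comm _ a, ← mul_assoc, Finset.mul_sum]
  apply Finset.sum_le_sum
  intro p hp
  obtain ⟨hp1, hp2, hp3, hp4⟩ := mem_Ip.1 hp
  have hp0 : (0 : ℝ) < p := lt_of_lt_of_le ha hp3
  have h2 : 1 ≤ lam * a / p := by
    rw [le_div_iff₀ hp0]
    linarith
  have h3 : 0 ≤ 2 * |Real.cos (2 * Real.pi * (k * al (pe p)))| := by positivity
  calc 2 * |Real.cos (2 * Real.pi * (k * al (pe p)))|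
      ≤ (2 * |Real.cos (2 * Real.pi * (k * al (pe p)))|) * (lam * a / p) :=
        le_mul_of_one_le_right h3 h2
    _ = lam * a * (2 / (p : ℝ) * |Real.cos (2 * Real.pi * (k * al (pe p)))|) := by ring

lemma FL_core (g : ℕ → ℤ) (hg : CO g) (X P lam : ℝ) (n : ℕ) (δ c ε : ℝ) (U : Finset ℤ)
    (hP : 0 < P) (hl : 1 < lam) (hlδ : lam ≤ 1 + δ) (hlε : lam ≤ 1 + ε) (hδ : 0 < δ)
    (hδ1 : δ ≤ 1 / 2) (hc : 0 ≤ c) (hc1 : c ≤ 1) (hε : 0 < ε) (hε1 : ε ≤ 1)
    (hN : 0 < ((Us X (2 * X)).card : ℝ)) (hW : 0 < Wp P (P * lam ^ n))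
    (hdec : ∑ k ∈ U, ‖Ap (fg g) k X (2 * X) - (1 / (Wp P (P * lam ^ n) : ℂ)) *
        ∑ v ∈ Finset.range n, Qp (fg g) k (P * lam ^ v) (P * lam ^ (v + 1)) *
          Ap (fg g) k (X / (P * lam ^ v)) (2 * X / (P * lam ^ (v + 1)))‖ ^ 2 ≤
      ε ^ 2 * ((Us X (2 * X)).card : ℝ) ^ 2)
    (hcos : ∀ k ∈ U, k ≠ 0 → ∑ p ∈ Ip P (P * lam ^ n),
      2 / (p : ℝ) * |Real.cos (2 * Real.pi * (k * al (pe p)))| ≤
        (1 - 2 * δ) * Wp P (P * lam ^ n))
    (hdual : ∀ v < n, (P * lam ^ v) ^ 2 * ∑ k ∈ U,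
      ‖Ap (fg g) k (X / (P * lam ^ v)) (2 * X / (P * lam ^ (v + 1)))‖ ^ 2 ≤
        (1 + ε) * ((Us X (2 * X)).card : ℝ) ^ 2)
    (h0 : ‖Ap (fg g) 0 X (2 * X)‖ ^ 2 ≤ (1 - c) * ((Us X (2 * X)).card : ℝ) ^ 2) :
    ∑ k ∈ U, ‖Ap (fg g) k X (2 * X)‖ ^ 2 ≤
      (1 - δ * c / 2 + 19 * ε) * ((Us X (2 * X)).card : ℝ) ^ 2 := by
  set N : ℝ := ((Us X (2 * X)).card : ℝ) with hNdef
  set W : ℝ := Wp P (P * lam ^ n) with hWdef
  have hlam0 : 0 < lam := by linarith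
  set A : ℤ → ℕ → ℂ := fun k v =>
    Ap (fg g) k (X / (P * lam ^ v)) (2 * X / (P * lam ^ (v + 1))) with hA
  set Q : ℤ → ℕ → ℂ := fun k v => Qp (fg g) k (P * lam ^ v) (P * lam ^ (v + 1)) with hQ
  set E : ℤ → ℂ := fun k => Ap (fg g) k X (2 * X) - (1 / (W : ℂ)) *
    ∑ v ∈ Finset.range n, Q k v * A k v with hE
  have hPv : ∀ v : ℕ, 0 < P * lam ^ v := fun v => by positivity
  have hq : ∀ (k : ℤ) (v : ℕ), ‖Q k v‖ / (P * lam ^ v) ≤ lam * ∑ p ∈ Ip (P * lam ^ v)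
      (P * lam ^ (v + 1)), 2 / (p : ℝ) * |Real.cos (2 * Real.pi * (k * al (pe p)))| := by
    intro k v
    have h := FL_q g hg k (P * lam ^ v) lam (hPv v) hl
    rw [mul_assoc P (lam ^ v) lam, ← pow_succ] at h
    exact h
  have key := fin_ineq U n (fun k => ‖Ap (fg g) k X (2 * X)‖ / N) (fun k => ‖E k‖ / N)
    (fun k v => ‖Q k v‖ / (P * lam ^ v)) (fun k v => P * lam ^ v * ‖A k v‖ / N)
    (fun v => lam * Wp (P * lam ^ v) (P * lam ^ (v + 1))) W δ c ε hW hδ hδ1 hc hc1 hε hε1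
    (fun k => by positivity) (fun k v => by have := hPv v; positivity)
    (fun k v => by have := hPv v; positivity)
    (by
      -- (h1)
      intro k _
      have e1 : ‖Ap (fg g) k X (2 * X)‖ ≤ ‖(1 / (W : ℂ)) * ∑ v ∈ Finset.range n, Q k v * A k v‖ +
          ‖E k‖ := by
        have : Ap (fg g) k X (2 * X) = (1 / (W : ℂ)) * ∑ v ∈ Finset.range n, Q k v * A k v +
            E k := by simp only [hE]; ring
        rw [this]
        exact norm_add_le _ _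
      have e2 : ‖(1 / (W : ℂ)) * ∑ v ∈ Finset.range n, Q k v * A k v‖ ≤
          (1 / W) * ∑ v ∈ Finset.range n, ‖Q k v‖ * ‖A k v‖ := by
        rw [_root_.norm_mul, norm_div, NormOneClass.norm_one, Complex.norm_real, Real.norm_of_nonneg hW.le]
        apply mul_le_mul_of_nonneg_left _ (by positivity)
        refine (norm_sum_le _ _).trans (le_of_eq ?_)
        exact Finset.sum_congr rfl fun v _ => _root_.norm_mul _ _
      have e3 : (1 / W) * ∑ v ∈ Finset.range n, ‖Q k v‖ / (P * lam ^ v) *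
          (P * lam ^ v * ‖A k v‖ / N) = ((1 / W) * ∑ v ∈ Finset.range n, ‖Q k v‖ * ‖A k v‖) / N := by
        rw [mul_div_assoc, Finset.sum_div]
        congr 1
        apply Finset.sum_congr rfl
        intro v _
        have := (hPv v).ne'
        field_simp
      rw [e3, ← add_div]
      apply div_le_div_of_nonneg_right _ hN.le
      linarith only [e1, e2])
    (by
      -- (h2)
      have : ∑ k ∈ U, (‖E k‖ / N) ^ 2 = (∑ k ∈ U, ‖E k‖ ^ 2) / N ^ 2 := by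
        rw [Finset.sum_div]
        exact Finset.sum_congr rfl fun k _ => div_pow _ _ _
      rw [this, div_le_iff₀ (by positivity)]
      exact hdec)
    (by
      -- (h3)
      intro k _ v _
      refine (hq k v).trans ?_
      apply mul_le_mul_of_nonneg_left _ hlam0.le
      rw [Wp]
      apply Finset.sum_le_sum
      intro p _
      have h1 : |Real.cos (2 * Real.pi * (k * al (pe p)))| ≤ 1 := Real.abs_cos_le_one _
      have h2 : (0 : ℝ) ≤ 2 / p := by positivity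
      exact mul_le_of_le_one_right h2 h1)
    (by
      -- (h4)
      intro k hk hk0
      have e1 : ∑ v ∈ Finset.range n, ‖Q k v‖ / (P * lam ^ v) ≤
          lam * ∑ p ∈ Ip P (P * lam ^ n),
            2 / (p : ℝ) * |Real.cos (2 * Real.pi * (k * al (pe p)))| := by
        rw [Ip_split _ P lam hP hl n, Finset.mul_sum]
        exact Finset.sum_le_sum fun v _ => hq k v
      refine e1.trans ?_
      have e2 := hcos k hk hk0
      have e3 : 0 ≤ ∑ p ∈ Ip P (P * lam ^ n),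
            2 / (p : ℝ) * |Real.cos (2 * Real.pi * (k * al (pe p)))| :=
        Finset.sum_nonneg fun p _ => by positivity
      calc lam * ∑ p ∈ Ip P (P * lam ^ n),
            2 / (p : ℝ) * |Real.cos (2 * Real.pi * (k * al (pe p)))|
          ≤ (1 + δ) * ∑ p ∈ Ip P (P * lam ^ n),
            2 / (p : ℝ) * |Real.cos (2 * Real.pi * (k * al (pe p)))| := by gcongr
        _ ≤ (1 + δ) * ((1 - 2 * δ) * W) := by gcongr
        _ = (1 - δ) * W - 2 * (δ ^ 2 * W) := by ring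
        _ ≤ (1 - δ) * W := by
          have : 0 ≤ δ ^ 2 * W := by positivity
          linarith)
    (by
      -- (h5)
      have e1 : ∑ v ∈ Finset.range n, lam * Wp (P * lam ^ v) (P * lam ^ (v + 1)) = lam * W := by
        rw [← Finset.mul_sum, hWdef]
        congr 1
        exact (Ip_split (fun p : ℕ => 2 / (p : ℝ)) P lam hP hl n).symm
      rw [e1]
      gcongr)
    (by
      -- (h6)
      intro v hv
      have e1 : ∑ k ∈ U, (P * lam ^ v * ‖A k v‖ / N) ^ 2 =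
          ((P * lam ^ v) ^ 2 * ∑ k ∈ U, ‖A k v‖ ^ 2) / N ^ 2 := by
        rw [Finset.mul_sum, Finset.sum_div]
        exact Finset.sum_congr rfl fun k _ => by rw [div_pow, mul_pow]
      rw [e1, div_le_iff₀ (by positivity)]
      exact hdual v hv)
    (by
      -- (h7)
      rw [div_pow, div_le_iff₀ (by positivity)]
      exact h0)
  have e1 : ∑ k ∈ U, (‖Ap (fg g) k X (2 * X)‖ / N) ^ 2 =
      (∑ k ∈ U, ‖Ap (fg g) k X (2 * X)‖ ^ 2) / N ^ 2 := by
    rw [Finset.sum_div]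
    exact Finset.sum_congr rfl fun k _ => div_pow _ _ _
  rw [e1, div_le_iff₀ (by positivity)] at key
  exact key

/-- choice of the number of blocks -/
lemma FL_n (X c1 lam : ℝ) (hX : 1 < X) (hc : c1 ≤ 1 / 16) (hl : 1 < lam)
    (hX2 : lam ≤ X ^ ((1 : ℝ) / 16)) : ∃ n : ℕ,
    X ^ c1 * lam ^ n ≤ X ^ ((1 : ℝ) / 8) ∧ X ^ ((1 : ℝ) / 16) ≤ X ^ c1 * lam ^ n := by
  have hX0 : 0 < X := by linarith
  have hlX : 0 < Real.log X := Real.log_pos hX
  have hll : 0 < Real.log lam := Real.log_pos hl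
  set t : ℝ := (1 / 8 - c1) * Real.log X / Real.log lam with ht
  have ht0 : 0 ≤ t := by
    apply div_nonneg (mul_nonneg (by linarith) hlX.le) hll.le
  refine ⟨⌊t⌋₊, ?_, ?_⟩
  · have h1 : (⌊t⌋₊ : ℝ) ≤ t := Nat.floor_le ht0
    have h2 : lam ^ ⌊t⌋₊ ≤ X ^ ((1 : ℝ) / 8 - c1) := by
      rw [← Real.rpow_natCast, Real.rpow_def_of_pos (by linarith), Real.rpow_def_of_pos hX0]
      apply Real.exp_le_exp.2
      have h3 : Real.log lam * t = (1 / 8 - c1) * Real.log X := by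
        rw [ht]; field_simp
      calc Real.log lam * (⌊t⌋₊ : ℝ) ≤ Real.log lam * t := by gcongr
        _ = Real.log X * (1 / 8 - c1) := by rw [h3]; ring
    calc X ^ c1 * lam ^ ⌊t⌋₊ ≤ X ^ c1 * X ^ ((1 : ℝ) / 8 - c1) := by gcongr
      _ = X ^ ((1 : ℝ) / 8) := by rw [← Real.rpow_add hX0]; congr 1; ring
  · have h1 : t < (⌊t⌋₊ : ℝ) + 1 := Nat.lt_floor_add_one t
    have h2 : X ^ ((1 : ℝ) / 8 - c1) ≤ lam ^ (⌊t⌋₊ + 1) := by
      rw [← Real.rpow_natCast, Real.rpow_def_of_pos (show 0 < lam by linarith),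
        Real.rpow_def_of_pos hX0]
      apply Real.exp_le_exp.2
      have h3 : Real.log lam * t = (1 / 8 - c1) * Real.log X := by
        rw [ht]; field_simp
      push_cast
      calc Real.log X * (1 / 8 - c1) = Real.log lam * t := by rw [h3]; ring
        _ ≤ Real.log lam * ((⌊t⌋₊ : ℝ) + 1) := by gcongr
    have h3 : X ^ ((1 : ℝ) / 8) ≤ (X ^ c1 * lam ^ ⌊t⌋₊) * lam := by
      calc X ^ ((1 : ℝ) / 8) = X ^ c1 * X ^ ((1 : ℝ) / 8 - c1) := by
            rw [← Real.rpow_add hX0]; congr 1; ring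
        _ ≤ X ^ c1 * lam ^ (⌊t⌋₊ + 1) := by gcongr
        _ = (X ^ c1 * lam ^ ⌊t⌋₊) * lam := by rw [pow_succ]; ring
    have h4 : X ^ ((1 : ℝ) / 8) = X ^ ((1 : ℝ) / 16) * X ^ ((1 : ℝ) / 16) := by
      rw [← Real.rpow_add hX0]; congr 1; norm_num
    have h5 : 0 < X ^ ((1 : ℝ) / 16) := by positivity
    have h6 : 0 < X ^ c1 * lam ^ ⌊t⌋₊ := by positivity
    have h7 : X ^ ((1 : ℝ) / 16) * X ^ ((1 : ℝ) / 16) ≤
        (X ^ c1 * lam ^ ⌊t⌋₊) * X ^ ((1 : ℝ) / 16) := by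
      rw [← h4]
      refine h3.trans ?_
      gcongr
    exact le_of_mul_le_mul_right h7 h5

lemma FL_large (K e : ℝ) (he : 0 < e) : ∃ X0 : ℝ, 2 ≤ X0 ∧ ∀ X : ℝ, X0 ≤ X → K ≤ X ^ e := by
  have h := (tendsto_rpow_atTop he).eventually_ge_atTop K
  obtain ⟨X0, hX0⟩ := Filter.eventually_atTop.1 h
  exact ⟨max X0 2, le_max_right _ _, fun X hX => hX0 X ((le_max_left _ _).trans hX)⟩

/-- the exceptional frequencies carry at most the proportion `1 - δ0 c + ε`. -/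
theorem final_level : ∃ α δ0 : ℝ, 0 < α ∧ α ≤ 1 / 4 ∧ 0 < δ0 ∧ δ0 ≤ 1 ∧ ∀ c ε : ℝ, 0 < c →
    c ≤ 1 → 0 < ε → ∃ X0 : ℝ, 2 ≤ X0 ∧ ∀ X : ℝ, X0 ≤ X → ∀ g : ℕ → ℤ, CO g →
    ‖Ap (fg g) 0 X (2 * X)‖ ^ 2 ≤ (1 - c) * ((Us X (2 * X)).card : ℝ) ^ 2 →
    ∀ 𝒰 : Finset ℤ, (∀ k ∈ 𝒰, |(k : ℝ)| ≤ X) → (𝒰.card : ℝ) ≤ X ^ (3 * α) →
    ∑ k ∈ 𝒰, ‖Ap (fg g) k X (2 * X)‖ ^ 2 ≤
      (1 - δ0 * c + ε) * ((Us X (2 * X)).card : ℝ) ^ 2 := by
  obtain ⟨α, hα0, hα1, hdual⟩ := dual_level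
  obtain ⟨δ1, t0, hδ0, hδ1, ht0, hcos⟩ := cos_sum
  obtain ⟨c0, K0, hc0, hK0, hM⟩ := M_low
  obtain ⟨C, hC, hdec⟩ := decomp
  have hκ := kap1_pos
  refine ⟨α, δ1 / 4, hα0, hα1, by positivity, by linarith, ?_⟩
  intro c ε hc hc1 hε
  set ε' : ℝ := min ε 1 / 19 with hε'
  have hm : 0 < min ε 1 := lt_min hε one_pos
  have hε'0 : 0 < ε' := by positivity
  have hε'1 : ε' ≤ 1 := by
    have := min_le_right ε 1
    rw [hε']; linarith
  have hε'2 : 19 * ε' ≤ ε := by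
    have := min_le_left ε 1
    rw [hε']; linarith
  -- the precision
  set η : ℝ := ε' ^ 2 * kap1 ^ 2 / (4 * C) with hη
  have hη0 : 0 < η := by positivity
  set κ : ℝ := min (δ1 / 2) (min ε' (min 1 (η / 3))) with hκdef
  have hκ0 : 0 < κ := by
    rw [hκdef]
    exact lt_min (by positivity) (lt_min hε'0 (lt_min one_pos (by positivity)))
  have hκa : κ ≤ δ1 / 2 := min_le_left _ _
  have hκb : κ ≤ ε' := (min_le_right _ _).trans (min_le_left _ _)
  have hκc : κ ≤ 1 := (min_le_right _ _).trans ((min_le_right _ _).trans (min_le_left _ _))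
  have hκd : κ ≤ η / 3 := (min_le_right _ _).trans ((min_le_right _ _).trans (min_le_right _ _))
  set Λ : ℝ := (K0 + 1 + 3 / η) / c0 with hΛ
  have hΛ0 : 0 < Λ := by positivity
  set c1 : ℝ := min (1 / (16 * t0)) (Real.exp (-Λ) / 16) with hc1def
  have hc10 : 0 < c1 := by
    rw [hc1def]
    exact lt_min (by positivity) (by positivity)
  have hc1a : t0 * c1 ≤ 1 / 16 := by
    calc t0 * c1 ≤ t0 * (1 / (16 * t0)) := by
          apply mul_le_mul_of_nonneg_left (min_le_left _ _) (by linarith)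
      _ = 1 / 16 := by field_simp
  have hc1b : c1 ≤ 1 / 16 := by
    refine (min_le_left _ _).trans ?_
    apply one_div_le_one_div_of_le (by norm_num)
    linarith
  have hc1c : Λ ≤ Real.log (1 / 16 / c1) := by
    rw [Real.le_log_iff_exp_le (by positivity), le_div_iff₀ hc10]
    have h1 : c1 ≤ Real.exp (-Λ) / 16 := min_le_right _ _
    calc Real.exp Λ * c1 ≤ Real.exp Λ * (Real.exp (-Λ) / 16) := by gcongr
      _ = 1 / 16 := by
        rw [← mul_div_assoc, ← Real.exp_add]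
        simp
  obtain ⟨X1, hX1, hdual⟩ := hdual ε' hε'0 hε'1
  obtain ⟨X2, hX2, hcos⟩ := hcos c1 hc10
  obtain ⟨X3, hX3, hU⟩ := U_dyadic
  obtain ⟨X4, hX4, h4⟩ := FL_large 2 (1 / 16) (by norm_num)
  obtain ⟨X5, hX5, h5⟩ := FL_large (max 2 (Real.exp (3 / η))) c1 hc10
  refine ⟨max (max X1 X2) (max X3 (max X4 X5)), hX1.trans ((le_max_left _ _).trans
    (le_max_left _ _)), ?_⟩
  intro X hX g hg h0 𝒰 h𝒰 hcard
  simp only [max_le_iff] at hX
  obtain ⟨⟨hx1, hx2⟩, hx3, hx4, hx5⟩ := hX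
  replace hdual := hdual X hx1
  replace hcos := hcos X hx2
  replace hU := hU X hx3
  replace h4 := h4 X hx4
  replace h5 := h5 X hx5
  have hX1' : 1 < X := by linarith only [hX5, hx5]
  have hX0 : 0 < X := by linarith only [hX1']
  set P : ℝ := X ^ c1 with hP
  have hP2 : 2 ≤ P := (le_max_left _ _).trans h5
  have hP0 : 0 < P := by linarith only [hP2]
  set lam : ℝ := 1 + κ with hlam
  have hl1 : 1 < lam := by linarith only [hκ0]
  have hl2 : lam ≤ 2 := by linarith only [hκc]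
  obtain ⟨n, hn1, hn2⟩ := FL_n X c1 lam hX1' hc1b hl1 (by linarith only [h4, hl2])
  rw [← hP] at hn1 hn2
  set Q : ℝ := P * lam ^ n with hQ
  have hpow1 : ∀ v : ℕ, 1 ≤ lam ^ v := fun v => one_le_pow₀ hl1.le
  have hPQ : P ≤ Q := by
    rw [hQ]
    exact le_mul_of_one_le_right hP0.le (hpow1 n)
  have hQX : Q ≤ X := by
    refine hn1.trans ?_
    calc X ^ ((1 : ℝ) / 8) ≤ X ^ (1 : ℝ) :=
          Real.rpow_le_rpow_of_exponent_le hX1'.le (by norm_num)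
      _ = X := Real.rpow_one X
  have hPt : P ^ t0 ≤ Q := by
    refine le_trans ?_ hn2
    rw [hP, ← Real.rpow_mul hX0.le]
    apply Real.rpow_le_rpow_of_exponent_le hX1'.le
    linarith only [hc1a]
  have hQ8 : Q ^ 8 ≤ X := by
    have hQ0 : 0 ≤ Q := by positivity
    calc Q ^ 8 ≤ (X ^ ((1 : ℝ) / 8)) ^ 8 := pow_le_pow_left₀ hQ0 hn1 8
      _ = X := by
        rw [← Real.rpow_natCast, ← Real.rpow_mul hX0.le]
        norm_num
  have hlogX : 0 < Real.log X := Real.log_pos hX1'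
  have hlogP : Real.log P = c1 * Real.log X := by rw [hP, Real.log_rpow hX0]
  have hlogP0 : 0 < Real.log P := by rw [hlogP]; positivity
  have hlogP3 : 3 / η ≤ Real.log P := by
    rw [Real.le_log_iff_exp_le hP0]
    exact (le_max_right _ _).trans h5
  have hW : 1 + 3 / η ≤ Wp P Q := by
    refine le_trans ?_ (hM P Q hP2 hPQ)
    have h6 : (1 / 16 : ℝ) / c1 ≤ Real.log Q / Real.log P := by
      rw [hlogP, div_le_div_iff₀ hc10 (by positivity)]
      have h7 : 1 / 16 * Real.log X ≤ Real.log Q := by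
        rw [← Real.log_rpow hX0]
        exact Real.log_le_log (by positivity) hn2
      have h7' := mul_le_mul_of_nonneg_right h7 hc10.le
      linarith only [h7']
    have h7 : Λ ≤ Real.log (Real.log Q / Real.log P) :=
      hc1c.trans (Real.log_le_log (by positivity) h6)
    have h8 : c0 * Λ = K0 + 1 + 3 / η := by rw [hΛ]; field_simp
    have h9 := mul_le_mul_of_nonneg_left h7 hc0.le
    linarith only [h8, h9]
  have hW1 : 1 ≤ Wp P Q := by
    have : 0 < 3 / η := by positivity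
    linarith only [hW, this]
  set N : ℝ := ((Us X (2 * X)).card : ℝ) with hN
  have hNlow : kap1 / 2 * X ≤ N := hU.1
  have hN0 : 0 < N := lt_of_lt_of_le (by positivity) hNlow
  have hfg := MF_fg hg
  set K : ℕ := ⌊X⌋₊ with hK
  have hKX : (K : ℝ) ≤ X := Nat.floor_le hX0.le
  have hsub : 𝒰 ⊆ Ik K := by
    intro k hk
    rw [Ik, Finset.mem_Icc]
    have h6 := h𝒰 k hk
    have h7 : (k.natAbs : ℝ) ≤ X := by
      rw [Nat.cast_natAbs]
      push_cast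
      exact h6
    have h8 : k.natAbs ≤ K := Nat.le_floor h7
    omega
  have hD := hdec (fg g) hfg X P lam n K hX1'.le hP2 hl1 hl2 hQ8 hKX hW1
  have hfin := FL_core g hg X P lam n (δ1 / 2) c ε' 𝒰 hP0 hl1 (by linarith only [hκa]) (by linarith only [hκb])
    (by positivity) (by linarith only [hδ1]) hc.le hc1 hε'0 hε'1 hN0 (by linarith only [hW1]) (by
      -- the decomposition error
      refine (Finset.sum_le_sum_of_subset_of_nonneg hsub fun _ _ _ => by positivity).trans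
        (hD.trans ?_)
      have h6 : 1 / Wp P Q ≤ η / 3 := by
        rw [div_le_div_iff₀ (by linarith only [hW1]) (by norm_num)]
        have h7 : 3 / η ≤ Wp P Q := by linarith only [hW]
        rw [div_le_iff₀ hη0] at h7
        linarith only [h7]
      have h7 : 1 / Real.log P ≤ η / 3 := by
        rw [div_le_div_iff₀ hlogP0 (by norm_num)]
        rw [div_le_iff₀ hη0] at hlogP3
        linarith only [hlogP3]
      have h8 : 1 / Wp P Q + (lam - 1) + 1 / Real.log P ≤ η := by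
        rw [hlam]; linarith only [hκd, h6, h7]
      calc C * X ^ 2 * (1 / Wp P Q + (lam - 1) + 1 / Real.log P) ≤ C * X ^ 2 * η := by gcongr
        _ = ε' ^ 2 * (kap1 / 2 * X) ^ 2 := by
          rw [hη]
          field_simp
          ring
        _ ≤ ε' ^ 2 * N ^ 2 := by gcongr) (by
      intro k hk hk0
      have h6 := hcos P Q le_rfl hPt hQX k hk0 (h𝒰 k hk)
      refine h6.trans (le_of_eq ?_)
      ring) (by
      intro v hv
      have h6 : P * lam ^ v * lam ≤ X ^ ((1 : ℝ) / 8) := by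
        refine le_trans ?_ hn1
        rw [hQ, mul_assoc, ← pow_succ]
        apply mul_le_mul_of_nonneg_left _ hP0.le
        exact pow_le_pow_right₀ hl1.le (by omega)
      have h7 := hdual (fg g) hfg (P * lam ^ v) lam (by
        exact one_le_two.trans (hP2.trans (le_mul_of_one_le_right hP0.le (hpow1 v)))) hl1 hl2 h6 𝒰 h𝒰 hcard
      rw [mul_assoc P (lam ^ v) lam, ← pow_succ] at h7
      exact h7) h0
  refine hfin.trans ?_
  apply mul_le_mul_of_nonneg_right _ (by positivity)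
  linarith only [hε'2]

end

end Pool.Agent.Lib.MP_0b748d_nt.MR
end
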