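import Mathlib
import Pool.Agent.Lib.MP_0b748d_nt.MR.DirsA
import Pool.Agent.Lib.MP_0b748d_nt.MR.Sector
import Pool.Agent.Lib.MP_0b748d_nt.Moment
import Pool.Agent.Lib.MP_0b748d_nt.MR.TOp
import Pool.Agent.Lib.MP_0b748d_nt.MR.ConeWin
import Pool.Agent.Lib.MP_0b748d_nt.MR.VExp

section

set_option autoImplicit false

/-!
# The frequency `0`: both signs have positive proportion
-/

namespace Pool.Agent.Lib.MP_0b748d_nt.MR

open Zsqrtd

noncomputable section

/-- ratios.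

Proof. `r = 17^8/41^6 = 1.4685…`, `1 < r < 3/2`. Choose `s` with `41^(2s) ≥ p0` (`p0 > 0`), then the
largest `t ∈ ℕ` with `p0 * r^t ≤ 41^(2s) * r`, hence... precisely: let `t` be the least natural
number with `41^(2s) ≤ p0 r^t`; then `p0 r^t < r * 41^(2s)` (if `t ≥ 1` by minimality, if `t = 0`
because `p0 ≤ 41^(2s)`). Take `i = 4t`, `j = 3t + s`. -/
theorem ratio (p0 : ℕ) (hp : 0 < p0) : ∃ i j : ℕ, (41 : ℝ) ^ (2 * j) ≤ p0 * 17 ^ (2 * i) ∧
    (p0 : ℝ) * 17 ^ (2 * i) < 3 / 2 * 41 ^ (2 * j) := by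
  classical
  have hp' : (0 : ℝ) < p0 := by exact_mod_cast hp
  obtain ⟨s, hs⟩ : ∃ s : ℕ, (p0 : ℝ) ≤ 41 ^ (2 * s) := by
    obtain ⟨s, hs⟩ := pow_unbounded_of_one_lt (p0 : ℝ) (by norm_num : (1 : ℝ) < 41 ^ 2)
    exact ⟨s, by rw [pow_mul]; exact hs.le⟩
  set r : ℝ := 17 ^ 8 / 41 ^ 6 with hr
  have hr1 : 1 < r := by rw [hr]; norm_num
  have hr2 : r < 3 / 2 := by rw [hr]; norm_num
  have hex : ∃ t : ℕ, (41 : ℝ) ^ (2 * s) ≤ p0 * r ^ t := by
    obtain ⟨t, ht⟩ := pow_unbounded_of_one_lt ((41 : ℝ) ^ (2 * s) / p0) hr1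
    refine ⟨t, ?_⟩
    rw [div_lt_iff₀ hp'] at ht
    linarith [mul_comm (r ^ t) (p0 : ℝ)]
  have h1 := Nat.find_spec hex
  set t := Nat.find hex with ht
  have h2 : (p0 : ℝ) * r ^ t < 3 / 2 * 41 ^ (2 * s) := by
    have hpos : (0 : ℝ) < 41 ^ (2 * s) := by positivity
    rcases Nat.eq_zero_or_pos t with h0 | h0
    · rw [h0, pow_zero, mul_one]
      linarith
    · have hlt : ¬ ((41 : ℝ) ^ (2 * s) ≤ p0 * r ^ (t - 1)) := Nat.find_min hex (by omega)
      push Not at hlt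
      have e : r ^ t = r ^ (t - 1) * r := by rw [← pow_succ]; congr 1; omega
      rw [e]
      have hr0 : 0 < r := by linarith
      have hA : 0 < (p0 : ℝ) * r ^ (t - 1) := by positivity
      calc (p0 : ℝ) * (r ^ (t - 1) * r) = (p0 * r ^ (t - 1)) * r := by ring
        _ < 41 ^ (2 * s) * r := mul_lt_mul_of_pos_right hlt hr0
        _ < 41 ^ (2 * s) * (3 / 2) := mul_lt_mul_of_pos_left hr2 hpos
        _ = 3 / 2 * 41 ^ (2 * s) := by ring
  have key : (p0 : ℝ) * 17 ^ (2 * (4 * t)) = (p0 * r ^ t) * 41 ^ (6 * t) := by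
    rw [hr, div_pow, ← pow_mul, ← pow_mul, mul_assoc, div_mul_cancel₀ _ (by positivity)]
    congr 2
    ring
  have e2 : (41 : ℝ) ^ (2 * (3 * t + s)) = 41 ^ (2 * s) * 41 ^ (6 * t) := by
    rw [← pow_add]; congr 1; ring
  refine ⟨4 * t, 3 * t + s, ?_, ?_⟩
  · rw [key, e2]
    exact mul_le_mul_of_nonneg_right h1 (by positivity)
  · rw [key, e2, ← mul_assoc]
    exact mul_lt_mul_of_pos_right h2 (by positivity)

end

end Pool.Agent.Lib.MP_0b748d_nt.MR
end

section

set_option autoImplicit false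

/-!
# Sums of the number of roots of `r² = 2`
-/

namespace Pool.Agent.Lib.MP_0b748d_nt.MR

open Zsqrtd

noncomputable section

theorem rho_key_odd {c r' x : ℤ} (hc : IsCoprime c 2) (h2 : c ∣ r' ^ 2 - 2)
    (h3 : c ∣ 2 * r' * x) : c ∣ x := by
  obtain ⟨t, ht⟩ := h2
  have h4 : IsCoprime c (r' ^ 2) := by
    have : r' ^ 2 = 2 + c * t := by linarith
    rw [this]
    exact hc.add_mul_left_right t
  have h5 : IsCoprime c r' := by
    rw [pow_two] at h4
    exact h4.of_mul_right_left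
  exact (hc.mul_right h5).dvd_of_dvd_mul_left h3

theorem rho_key {a b r r' : ℤ} (h1 : a * b ∣ r ^ 2 - 2) (h2 : a * b ∣ r' ^ 2 - 2)
    (hA : a ∣ r - r') (hB : b ∣ r - r') : a * b ∣ r - r' := by
  have h3 : a * b ∣ 2 * r' * (r - r') := by
    have e : 2 * r' * (r - r') = (r ^ 2 - 2) - (r' ^ 2 - 2) - (r - r') * (r - r') := by ring
    rw [e]
    exact dvd_sub (dvd_sub h1 h2) (mul_dvd_mul hA hB)
  rcases Int.even_or_odd (a * b) with hev | hodd
  · obtain ⟨c, hc⟩ := hev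
    have hc2 : a * b = 2 * c := by rw [hc]; ring
    have hcodd : Odd c := by
      rw [← Int.not_even_iff_odd]
      rintro ⟨d, hd⟩
      have h4 : (4 : ℤ) ∣ r' ^ 2 - 2 := by
        refine dvd_trans ?_ h2
        rw [hc2, hd]
        exact ⟨d, by ring⟩
      rcases Int.even_or_odd r' with ⟨s, hs⟩ | ⟨s, hs⟩
      · obtain ⟨q, hq⟩ := h4
        rw [hs] at hq
        have : 2 * (s * s) - 2 * q = 1 := by nlinarith
        omega
      · obtain ⟨q, hq⟩ := h4
        rw [hs] at hq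
        have : 4 * (s * s) + 4 * s + 1 - 2 = 4 * q := by nlinarith
        omega
    have hcop : IsCoprime c 2 := by
      rw [Int.isCoprime_iff_gcd_eq_one]
      have := hcodd
      rw [← Int.isCoprime_two_right] at this
      exact Int.isCoprime_iff_gcd_eq_one.1 this
    have hcd : c ∣ a * b := ⟨2, by rw [hc2]; ring⟩
    have h5 : c ∣ r - r' := rho_key_odd hcop (hcd.trans h2) (hcd.trans h3)
    have h6 : (2 : ℤ) ∣ r - r' := by
      have : (2 : ℤ) ∣ a * b := ⟨c, hc2⟩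
      rcases Int.prime_two.dvd_or_dvd this with h | h
      · exact h.trans hA
      · exact h.trans hB
    rw [hc2]
    exact hcop.symm.mul_dvd h6 h5
  · have hcop : IsCoprime (a * b) 2 := by
      rw [← Int.isCoprime_two_right] at hodd
      exact hodd
    exact rho_key_odd hcop h2 h3

/-- Proof. A root modulo `d1 d2` gives roots modulo `d1` and `d2`; the map is injective: if
`r, r'` are roots modulo `d1 d2` with the same residues, then for every prime power `p^a ‖ d1 d2`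
with `p` odd, `p^a ∣ (r - r')(r + r')`, and `p` divides `d1` or `d2`, so `p ∣ r - r'`, so
`p ∤ r + r'` (else `p ∣ 2 r`, `p ∣ r`, `p ∣ 2`), so `p^a ∣ r - r'`; for `p = 2`: `4 ∤ r² - 2`, so
`a ≤ 1` and `2 ∣ r - r'`. -/
theorem rho_mul_le (a b : ℕ) (ha : 1 ≤ a) (hb : 1 ≤ b) : rho (a * b) ≤ rho a * rho b := by
  classical
  unfold rho
  rw [← Finset.card_product]
  refine Finset.card_le_card_of_injOn (fun r => (r % a, r % b)) ?_ ?_
  · intro r hr
    simp only [Finset.coe_filter, Finset.mem_range, Set.mem_ofPred_eq] at hr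
    obtain ⟨-, hr⟩ := hr
    push_cast at hr
    simp only [Finset.coe_product, Finset.coe_filter, Finset.mem_range, Set.mem_prod,
      Set.mem_ofPred_eq]
    have gen : ∀ c : ℕ, (c : ℤ) ∣ (r : ℤ) ^ 2 - 2 → (c : ℤ) ∣ ((r % c : ℕ) : ℤ) ^ 2 - 2 := by
      intro c hc
      have h1 : (c : ℤ) ∣ (r : ℤ) - ((r % c : ℕ) : ℤ) := by
        push_cast
        exact Int.dvd_self_sub_emod
      have e : ((r % c : ℕ) : ℤ) ^ 2 - 2 = ((r : ℤ) ^ 2 - 2) -
          ((r : ℤ) - ((r % c : ℕ) : ℤ)) * ((r : ℤ) + ((r % c : ℕ) : ℤ)) := by ring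
      rw [e]
      exact dvd_sub hc (h1.mul_right _)
    exact ⟨⟨Nat.mod_lt _ ha, gen a ((Dvd.intro _ rfl).trans hr)⟩,
      ⟨Nat.mod_lt _ hb, gen b ((Dvd.intro_left _ rfl).trans hr)⟩⟩
  · intro r hr r' hr' he
    simp only [Finset.coe_filter, Finset.mem_range, Set.mem_ofPred_eq] at hr hr'
    simp only [Prod.mk.injEq] at he
    obtain ⟨hl, hr⟩ := hr
    obtain ⟨hl', hr'⟩ := hr'
    push_cast at hr hr'
    have hA : (a : ℤ) ∣ (r : ℤ) - r' := by
      have : (r : ℤ) ≡ r' [ZMOD a] := by exact_mod_cast (show r ≡ r' [MOD a] from he.1)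
      exact this.symm.dvd
    have hB : (b : ℤ) ∣ (r : ℤ) - r' := by
      have : (r : ℤ) ≡ r' [ZMOD b] := by exact_mod_cast (show r ≡ r' [MOD b] from he.2)
      exact this.symm.dvd
    have h := rho_key hr hr' hA hB
    have hz : (r : ℤ) - r' = 0 := by
      apply Int.eq_zero_of_abs_lt_dvd h
      rw [abs_lt]
      constructor
      · have : (r' : ℤ) < a * b := by exact_mod_cast hl'
        have h0 : (0 : ℤ) ≤ r := by positivity
        linarith
      · have : (r : ℤ) < a * b := by exact_mod_cast hl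
        have h0 : (0 : ℤ) ≤ r' := by positivity
        linarith
    omega

end

end Pool.Agent.Lib.MP_0b748d_nt.MR
end

section

set_option autoImplicit false

/-!
# From balanced pairs to integers `n`
-/

namespace Pool.Agent.Lib.MP_0b748d_nt.MR

open Zsqrtd

noncomputable section

/-- all balanced pairs -/
def BA (D N : ℕ) : Finset (ℕ × ℕ) :=
  (Finset.Icc 2 N ×ˢ Finset.Icc 1 (D * N)).filter (fun x => x.2 ∣ x.1 ^ 2 - 2 ∧
    x.1 ≤ D * x.2 ∧ x.2 ≤ D * x.1)

/-- the fibre of `BA` over `d` has at most `(D + 1) rho d` elements -/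
lemma BA_fibre (D N d : ℕ) (hd : 1 ≤ d) :
    ((BA D N).filter (fun x => x.2 = d)).card ≤ (D + 1) * rho d := by
  have h : ((BA D N).filter (fun x => x.2 = d)).card ≤
      ((Finset.range (D + 1)) ×ˢ
        ((Finset.range d).filter (fun r : ℕ => (d : ℤ) ∣ (r : ℤ) ^ 2 - 2))).card := by
    refine Finset.card_le_card_of_injOn (fun x => (x.1 / d, x.1 % d)) ?_ ?_
    · rintro ⟨n, e⟩ hx
      simp only [BA, Finset.coe_filter, Finset.mem_filter, Finset.mem_product, Finset.mem_Icc,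
        Set.mem_ofPred_eq] at hx
      obtain ⟨⟨⟨⟨hn2, hnN⟩, he1, heN⟩, hdvd, h1, h2⟩, rfl⟩ := hx
      simp only [Finset.coe_product, Finset.coe_range, Finset.coe_filter, Finset.mem_range,
        Set.mem_prod, Set.mem_Iio, Set.mem_ofPred_eq]
      refine ⟨?_, Nat.mod_lt _ hd, ?_⟩
      · have : n / e ≤ D := Nat.div_le_of_le_mul (by rwa [mul_comm] at h1)
        omega
      · have h3 : (e : ℤ) ∣ (n : ℤ) ^ 2 - 2 := by
          have h4 : 2 ≤ n ^ 2 := by nlinarith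
          have h5 : ((n ^ 2 - 2 : ℕ) : ℤ) = (n : ℤ) ^ 2 - 2 := by
            push_cast [h4]; ring
          rw [← h5]
          exact_mod_cast hdvd
        have h6 : (n : ℤ) = e * (n / e : ℕ) + (n % e : ℕ) := by
          exact_mod_cast (Nat.div_add_mod n e).symm
        have h7 : (((n % e : ℕ) : ℤ)) ^ 2 - 2 =
            ((n : ℤ) ^ 2 - 2) - e * ((n / e : ℕ) * (n + (n % e : ℕ))) := by
          have : (((n % e : ℕ) : ℤ)) = n - e * (n / e : ℕ) := by linarith
          rw [this]; ring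
        rw [h7]
        exact dvd_sub h3 (Dvd.intro _ rfl)
    · rintro ⟨n, e⟩ hx ⟨n', e'⟩ hx' heq
      simp only [Finset.coe_filter, Set.mem_ofPred_eq] at hx hx'
      simp only [Prod.mk.injEq] at heq ⊢
      refine ⟨?_, by rw [hx.2, hx'.2]⟩
      rw [← Nat.div_add_mod n d, ← Nat.div_add_mod n' d, heq.1, heq.2]
  rw [Finset.card_product, Finset.card_range] at h
  exact h

/-- weighted number of balanced pairs.

Proof. For fixed `d ∈ [1, D N]` the `n ≤ D d` with `d ∣ n² - 2` lie in the `D + 1` blocks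
`[k d, (k+1) d)`, `k ≤ D`, each containing at most `rho d` of them. -/
theorem BA_weight (D N : ℕ) (w : ℕ → ℝ) (hw : ∀ d, 0 ≤ w d) :
    ∑ x ∈ BA D N, w x.2 ≤ (D + 1) * ∑ d ∈ Finset.Icc 1 (D * N), (rho d : ℝ) * w d := by
  have hmaps : ∀ x ∈ BA D N, x.2 ∈ Finset.Icc 1 (D * N) := by
    rintro ⟨n, e⟩ hx
    simp only [BA, Finset.mem_filter, Finset.mem_product] at hx
    exact hx.1.2
  rw [← Finset.sum_fiberwise_of_maps_to hmaps, Finset.mul_sum]
  refine Finset.sum_le_sum fun d hd => ?_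
  rw [Finset.mem_Icc] at hd
  have h1 : ∑ x ∈ (BA D N).filter (fun x => x.2 = d), w x.2 =
      ((BA D N).filter (fun x => x.2 = d)).card * w d := by
    rw [Finset.sum_congr rfl (g := fun _ => w d)
      (fun x hx => by rw [(Finset.mem_filter.mp hx).2]), Finset.sum_const, nsmul_eq_mul]
  rw [h1]
  have h2 := BA_fibre D N d hd.1
  have h3 : (((BA D N).filter (fun x => x.2 = d)).card : ℝ) ≤ (D + 1) * rho d := by
    exact_mod_cast h2
  calc (((BA D N).filter (fun x => x.2 = d)).card : ℝ) * w d ≤ ((D + 1) * rho d) * w d :=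
        mul_le_mul_of_nonneg_right h3 (hw d)
    _ = (D + 1) * ((rho d : ℝ) * w d) := by ring

/-- the total number of balanced pairs: `BA_weight` with `w = 1` and `rho_sum` -/
theorem BA_card (D : ℕ) : ∃ C : ℝ, 1 ≤ C ∧ ∀ N : ℕ, 1 ≤ N → ((BA D N).card : ℝ) ≤ C * N := by
  obtain ⟨C, hC1, hC⟩ := rho_sum
  have hD0 : (0 : ℝ) ≤ D := Nat.cast_nonneg D
  refine ⟨(D + 1) * (C * (D + 1)), ?_, ?_⟩
  · nlinarith [mul_nonneg hD0 hD0]
  intro N hN
  have h1 := BA_weight D N (fun _ => 1) (fun _ => zero_le_one)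
  have hN0 : (1 : ℝ) ≤ N := by exact_mod_cast hN
  have h2 : ∑ d ∈ Finset.Icc 1 (D * N), (rho d : ℝ) * 1 ≤ C * (D + 1) * N := by
    rcases Nat.eq_zero_or_pos D with h0 | h0
    · subst h0
      simp
      nlinarith
    · have h3 := hC (D * N) (Nat.mul_pos h0 hN)
      simp only [mul_one]
      refine h3.trans ?_
      push_cast
      nlinarith [mul_nonneg hD0 (by linarith : (0 : ℝ) ≤ N)]
  simp only [Finset.sum_const, nsmul_eq_mul, mul_one] at h1
  simp only [mul_one] at h2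
  refine h1.trans ?_
  calc ((D : ℝ) + 1) * ∑ d ∈ Finset.Icc 1 (D * N), (rho d : ℝ) ≤ (D + 1) * (C * (D + 1) * N) :=
        mul_le_mul_of_nonneg_left h2 (by positivity)
    _ = (D + 1) * (C * (D + 1)) * N := by ring

/-- the involution `(n, d) ↦ (n, (n²-2)/d)`.

Proof. If `d ∣ n² - 2`, `n ≤ D d`, `d ≤ D n` and `e = (n²-2)/d`, then `e ≤ n²/d ≤ D n`, and
`n² - 2 = d e ≤ D n e`, so `n ≤ D e + 2/n`, i.e. `n ≤ D e + 1`, so with `D' = 2 D` (`e ≥ 1`):
`n ≤ 2 D e`. `(n, e) ∈ BA (2D) N`, and the map is injective (`n² - 2 ≥ 2 > 0`). -/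
theorem BA_inv (D N : ℕ) (hD : 1 ≤ D) (w : ℕ → ℝ) (hw : ∀ d, 0 ≤ w d) :
    ∑ x ∈ BA D N, w ((x.1 ^ 2 - 2) / x.2) ≤ ∑ x ∈ BA (2 * D) N, w x.2 := by
  have hinj : Set.InjOn (fun x : ℕ × ℕ => (x.1, (x.1 ^ 2 - 2) / x.2)) (BA D N : Set (ℕ × ℕ)) := by
    rintro ⟨n, d⟩ hx ⟨n', d'⟩ hx' heq
    simp only [BA, Finset.coe_filter, Finset.mem_product, Finset.mem_Icc,
      Set.mem_ofPred_eq] at hx hx'
    simp only [Prod.mk.injEq] at heq ⊢
    obtain ⟨h1, h2⟩ := heq
    subst h1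
    refine ⟨rfl, ?_⟩
    obtain ⟨⟨⟨hn2, hnN⟩, he1, heN⟩, hdvd, -, -⟩ := hx
    obtain ⟨-, hdvd', -, -⟩ := hx'
    have h3 : 2 ≤ n ^ 2 - 2 := by
      have : 4 ≤ n ^ 2 := by nlinarith
      omega
    have h4 : d * ((n ^ 2 - 2) / d) = n ^ 2 - 2 := Nat.mul_div_cancel' hdvd
    have h5 : d' * ((n ^ 2 - 2) / d') = n ^ 2 - 2 := Nat.mul_div_cancel' hdvd'
    have h6 : 0 < (n ^ 2 - 2) / d := Nat.div_pos (Nat.le_of_dvd (by omega) hdvd) (by omega)
    rw [← h2] at h5
    exact Nat.eq_of_mul_eq_mul_right h6 (h4.trans h5.symm)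
  have h1 : ∑ x ∈ BA D N, w ((x.1 ^ 2 - 2) / x.2) =
      ∑ y ∈ (BA D N).image (fun x : ℕ × ℕ => (x.1, (x.1 ^ 2 - 2) / x.2)), w y.2 := by
    rw [Finset.sum_image hinj]
  rw [h1]
  refine Finset.sum_le_sum_of_subset_of_nonneg ?_ (fun x _ _ => hw _)
  intro y hy
  obtain ⟨⟨n, d⟩, hx, rfl⟩ := Finset.mem_image.mp hy
  simp only [BA, Finset.mem_filter, Finset.mem_product, Finset.mem_Icc] at hx ⊢
  obtain ⟨⟨⟨hn2, hnN⟩, he1, heN⟩, hdvd, hnd, hdn⟩ := hx
  have h4 : d * ((n ^ 2 - 2) / d) = n ^ 2 - 2 := Nat.mul_div_cancel' hdvd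
  have h4' : 4 ≤ n ^ 2 := by nlinarith
  have h6 : 0 < (n ^ 2 - 2) / d := Nat.div_pos (Nat.le_of_dvd (by omega) hdvd) (by omega)
  set e := (n ^ 2 - 2) / d with he
  have h7 : d * e + 2 = n ^ 2 := by omega
  have h8 : e ≤ D * n := by
    by_contra hcon
    push Not at hcon
    have : d * e ≥ d * (D * n) + d := by nlinarith
    nlinarith
  have h9 : n ≤ 2 * D * e := by
    by_contra hcon
    push Not at hcon
    have h10 : d * e ≤ D * n * e := Nat.mul_le_mul_right _ hdn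
    have h11 : n * (2 * D * e + 1) ≤ n * n := Nat.mul_le_mul_left _ hcon
    nlinarith
  refine ⟨⟨⟨hn2, hnN⟩, h6, ?_⟩, ⟨d, by rw [mul_comm]; exact h4.symm⟩, h9, ?_⟩
  · calc e ≤ D * n := h8
      _ ≤ 2 * D * N := by nlinarith
  · nlinarith

end

end Pool.Agent.Lib.MP_0b748d_nt.MR
end

section

set_option autoImplicit false

/-!
# The frequency `0`: both signs have positive proportion
-/

namespace Pool.Agent.Lib.MP_0b748d_nt.MR

open Zsqrtd

noncomputable section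

/-- one more factor `el p true` -/
theorem prim_prod_step {p : ℕ} (hp : Sp p) {z : ℤ√2} (hz : Prim z) (h : ¬ el p false ∣ z) :
    Prim (el p true * z) ∧ ¬ el p false ∣ el p true * z := by
  refine ⟨(prim_el_mul hp true z).2 ⟨hz, h⟩, ?_⟩
  rw [el_coprime hp hp (by simp)]
  exact h

/-- a power of `el p true` -/
theorem prim_prod_pow {p : ℕ} (hp : Sp p) (k : ℕ) {z : ℤ√2} (hz : Prim z)
    (h : ¬ el p false ∣ z) :
    Prim (el p true ^ k * z) ∧ ¬ el p false ∣ el p true ^ k * z := by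
  induction k with
  | zero => simpa using ⟨hz, h⟩
  | succ k ih =>
    rw [pow_succ', mul_assoc]
    exact prim_prod_step hp ih.1 ih.2

/-- the conjugate of another prime element does not divide -/
theorem not_dvd_prod_pow {p q : ℕ} (hp : Sp p) (hq : Sp q) (l : ℕ) {z : ℤ√2}
    (h : ¬ el p false ∣ z) : ¬ el p false ∣ el q true ^ l * z := by
  induction l with
  | zero => simpa using h
  | succ l ih =>
    rw [pow_succ', mul_assoc, el_coprime hp hq (by simp)]
    exact ih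

/-- products of prime elements with a good `m` are primitive.

Proof. By `prim_el_mul`: `Prim (el p s * m') ↔ Prim m' ∧ ¬ el p (!s) ∣ m'`. Induct on the power:
`el p true ^ k * m'` with `¬ el p false ∣ m'`: `el p false ∣ el p true * z ↔ el p false ∣ z`
(`el_coprime`). The conjugate of one prime element divides the product with another one iff it
divides the rest (`el_coprime` again; for `p = p0` equal to `17` or `41` both factors are the same
element `el p true`, same argument). -/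
theorem prim_prod2 (p q : ℕ) (hp : Sp p) (hq : Sp q) (k l : ℕ) (m : ℤ√2) (hm : Prim m)
    (h1 : ¬ el p false ∣ m) (h2 : ¬ el q false ∣ m) :
    Prim (el p true ^ k * (el q true ^ l * m)) :=
  (prim_prod_pow hp k (prim_prod_pow hq l hm h2).1 (not_dvd_prod_pow hp hq l h1)).1

end

end Pool.Agent.Lib.MP_0b748d_nt.MR
end

section

set_option autoImplicit false

/-!
# Sums of the number of roots of `r² = 2`
-/

namespace Pool.Agent.Lib.MP_0b748d_nt.MR

open Zsqrtd

noncomputable section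

/-- partial summation: if `∑_{a ≤ Y} f a ≤ C Y` then `∑_{a ≤ Y} f a / a ≤ C (1 + log Y)`. -/
lemma sum_div_le_of_sum_le (f : ℕ → ℝ) (C : ℝ)
    (h : ∀ Y : ℕ, 1 ≤ Y → ∑ d ∈ Finset.Icc 1 Y, f d ≤ C * Y) (hC : 0 ≤ C) (Y : ℕ) (hY : 1 ≤ Y) :
    ∑ a ∈ Finset.Icc 1 Y, f a / a ≤ C * (1 + Real.log Y) := by
  have key : ∀ Y : ℕ, 1 ≤ Y → ∑ a ∈ Finset.Icc 1 Y, f a / a ≤
      (∑ a ∈ Finset.Icc 1 Y, f a) / Y + C * ((harmonic Y : ℚ) - 1 : ℝ) := by
    intro Y hY
    induction Y, hY using Nat.le_induction with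
    | base => simp [harmonic]
    | succ Y hY ih =>
      have hY0 : (0 : ℝ) < Y := by exact_mod_cast hY
      rw [Finset.sum_Icc_succ_top (by omega), Finset.sum_Icc_succ_top (by omega), harmonic_succ]
      have h1 := h Y hY
      have h2 : (∑ a ∈ Finset.Icc 1 Y, f a) / Y - (∑ a ∈ Finset.Icc 1 Y, f a) / (Y + 1) ≤
          C / (Y + 1) := by
        have h3 : (∑ a ∈ Finset.Icc 1 Y, f a) / Y - (∑ a ∈ Finset.Icc 1 Y, f a) / (Y + 1) =
            (∑ a ∈ Finset.Icc 1 Y, f a) / (Y * (Y + 1)) := by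
          field_simp
          ring
        rw [h3, div_le_div_iff₀ (by positivity) (by positivity)]
        nlinarith [mul_le_mul_of_nonneg_right h1 (by positivity : (0 : ℝ) ≤ Y + 1)]
      push_cast
      rw [add_div]
      have h4 : C * ((harmonic Y : ℝ) + ((Y : ℝ) + 1)⁻¹ - 1) =
          C * ((harmonic Y : ℝ) - 1) + C / (Y + 1) := by
        rw [div_eq_mul_inv]; ring
      rw [h4]
      linarith
  have h1 := key Y hY
  have h2 := h Y hY
  have hY0 : (0 : ℝ) < Y := by exact_mod_cast hY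
  have h3 : (∑ a ∈ Finset.Icc 1 Y, f a) / Y ≤ C := by
    rw [div_le_iff₀ hY0]; exact h2
  have h4 := harmonic_le_one_add_log Y
  nlinarith

/-- Proof. `tau d = ∑_{d = a b} 1`, so the sum is `≤ ∑_{a ≤ Y} rho a ∑_{b ≤ Y/a} rho b
≤ ∑_{a ≤ Y} rho a C Y/a`, and by partial summation `∑_{a ≤ Y} rho a/a ≤ C (1 + log Y)`
(e.g. dyadic: `∑_{2^i ≤ a < 2^(i+1)} rho a/a ≤ C 2^(i+1)/2^i = 2C`, `i ≤ log₂ Y`). -/
theorem tau_rho_sum : ∃ C : ℝ, 1 ≤ C ∧ ∀ Y : ℕ, 1 ≤ Y →
    ∑ d ∈ Finset.Icc 1 Y, (rho d : ℝ) * tau d ≤ C * Y * (1 + Real.log Y) := by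
  obtain ⟨C, hC1, hC⟩ := rho_sum
  refine ⟨C * C, by nlinarith, ?_⟩
  intro Y hY
  have hY0 : (0 : ℝ) < Y := by exact_mod_cast hY
  have h1 : ∑ d ∈ Finset.Icc 1 Y, (rho d : ℝ) * tau d ≤
      ∑ x ∈ (Finset.Icc 1 Y).sigma (fun d => d.divisors), (rho x.2 : ℝ) * rho (x.1 / x.2) := by
    rw [Finset.sum_sigma]
    refine Finset.sum_le_sum fun d hd => ?_
    rw [Finset.mem_Icc] at hd
    have h2 : (rho d : ℝ) * tau d = ∑ a ∈ d.divisors, (rho d : ℝ) := by
      rw [Finset.sum_const, tau, nsmul_eq_mul, mul_comm]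
    rw [h2]
    refine Finset.sum_le_sum fun a ha => ?_
    have hda := Nat.dvd_of_mem_divisors ha
    have ha0 : 0 < a := Nat.pos_of_mem_divisors ha
    have hb0 : 0 < d / a := Nat.div_pos (Nat.le_of_dvd (by omega) hda) ha0
    have h3 := rho_mul_le a (d / a) ha0 hb0
    rw [Nat.mul_div_cancel' hda] at h3
    exact_mod_cast h3
  have h2 : ∑ x ∈ (Finset.Icc 1 Y).sigma (fun d => d.divisors), (rho x.2 : ℝ) * rho (x.1 / x.2) ≤
      ∑ x ∈ (Finset.Icc 1 Y).sigma (fun a => Finset.Icc 1 (Y / a)), (rho x.1 : ℝ) * rho x.2 := by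
    refine le_of_eq ?_
    refine Finset.sum_bij' (fun x _ => (⟨x.2, x.1 / x.2⟩ : (_ : ℕ) × ℕ))
      (fun x _ => (⟨x.1 * x.2, x.1⟩ : (_ : ℕ) × ℕ)) ?_ ?_ ?_ ?_ ?_
    · rintro ⟨d, a⟩ hx
      simp only [Finset.mem_sigma, Finset.mem_Icc, Nat.mem_divisors] at hx ⊢
      obtain ⟨⟨hd1, hd2⟩, had, hd0⟩ := hx
      have ha0 : 0 < a := Nat.pos_of_dvd_of_pos had (by omega)
      refine ⟨⟨ha0, (Nat.le_of_dvd (by omega) had).trans hd2⟩, Nat.div_pos (Nat.le_of_dvd (by omega) had) ha0,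
        Nat.div_le_div_right hd2⟩
    · rintro ⟨a, b⟩ hx
      simp only [Finset.mem_sigma, Finset.mem_Icc, Nat.mem_divisors] at hx ⊢
      obtain ⟨⟨ha1, ha2⟩, hb1, hb2⟩ := hx
      have h5 : a * b ≤ Y := by
        calc a * b ≤ a * (Y / a) := Nat.mul_le_mul_left _ hb2
          _ ≤ Y := Nat.mul_div_le _ _
      have h6 : 0 < a * b := Nat.mul_pos ha1 hb1
      exact ⟨⟨h6, h5⟩, Dvd.intro _ rfl, h6.ne'⟩
    · rintro ⟨d, a⟩ hx
      simp only [Finset.mem_sigma, Finset.mem_Icc, Nat.mem_divisors] at hx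
      simp only [Nat.mul_div_cancel' hx.2.1]
    · rintro ⟨a, b⟩ hx
      simp only [Finset.mem_sigma, Finset.mem_Icc] at hx
      simp only [Nat.mul_div_cancel_left _ (by omega : 0 < a)]
    · rintro ⟨d, a⟩ hx
      rfl
  refine h1.trans (h2.trans ?_)
  rw [Finset.sum_sigma]
  have h3 : ∀ a ∈ Finset.Icc 1 Y, ∑ b ∈ Finset.Icc 1 (Y / a), (rho a : ℝ) * rho b ≤
      (C * Y) * ((rho a : ℝ) / a) := by
    intro a ha
    rw [Finset.mem_Icc] at ha
    have ha0 : (0 : ℝ) < a := by exact_mod_cast ha.1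
    rw [← Finset.mul_sum]
    have h4 := hC (Y / a) (Nat.div_pos ha.2 ha.1)
    have h5 : ((Y / a : ℕ) : ℝ) ≤ Y / a := Nat.cast_div_le
    have h6 : ∑ b ∈ Finset.Icc 1 (Y / a), (rho b : ℝ) ≤ C * (Y / a) :=
      h4.trans (mul_le_mul_of_nonneg_left h5 (by linarith))
    calc (rho a : ℝ) * ∑ b ∈ Finset.Icc 1 (Y / a), (rho b : ℝ) ≤ rho a * (C * (Y / a)) :=
          mul_le_mul_of_nonneg_left h6 (Nat.cast_nonneg _)
      _ = (C * Y) * ((rho a : ℝ) / a) := by ring
  refine (Finset.sum_le_sum h3).trans ?_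
  rw [← Finset.mul_sum]
  have h4 := sum_div_le_of_sum_le (fun a => (rho a : ℝ)) C hC (by linarith) Y hY
  calc C * Y * ∑ a ∈ Finset.Icc 1 Y, (rho a : ℝ) / a ≤ C * Y * (C * (1 + Real.log Y)) :=
        mul_le_mul_of_nonneg_left h4 (by nlinarith)
    _ = C * C * Y * (1 + Real.log Y) := by ring

end

end Pool.Agent.Lib.MP_0b748d_nt.MR
end

section

set_option autoImplicit false

/-!
# The frequency `0`: both signs have positive proportion
-/

namespace Pool.Agent.Lib.MP_0b748d_nt.MR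

open Zsqrtd

noncomputable section

open Classical in
private lemma gm_card_dvd (ρ : ℤ√2) (hρ : OT ρ) (a b : ℝ) :
    ((Vs a b).filter (fun w => ρ ∣ w)).card = (Vs (a / nm ρ) (b / nm ρ)).card := by
  have h := sum_dvd ρ hρ a b (fun _ : ℤ√2 => (1 : ℕ)) (fun n z hz => rfl)
  simpa using h

open Classical in
private lemma gm_bound {C0 : ℝ} (hV : ∀ a b : ℝ, 0 ≤ a → a ≤ b →
    |((Vs a b).card : ℝ) - kap * (b - a)| ≤ C0 * √b) {a b : ℝ} (ha : 0 ≤ a) (hab : a ≤ b)
    {ρ : ℤ√2} (hρ : OT ρ) {m : ℝ} (hm : 1 ≤ m) (hn : (nm ρ : ℝ) = m) :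
    (((Vs a b).filter (fun w => ρ ∣ w)).card : ℝ) ≤ kap * (b - a) / m + C0 * √(b / m) := by
  have hm0 : 0 < m := lt_of_lt_of_le one_pos hm
  rw [gm_card_dvd ρ hρ a b, hn]
  have h := (abs_le.1 (hV (a / m) (b / m) (div_nonneg ha hm0.le)
    (div_le_div_of_nonneg_right hab hm0.le))).2
  have e : kap * (b / m - a / m) = kap * (b - a) / m := by ring
  rw [e] at h
  linarith

private lemma gm_cover {a b : ℝ} {w : ℤ√2} (hw : w ∈ Vs a b) (hp : ¬ Prim w) :
    ∃ k ∈ Finset.Icc 1 ⌊√b⌋₊, (((2 * k + 1 : ℕ) : ℤ√2)) ∣ w := by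
  obtain ⟨⟨htp, hodd⟩, -, hlt, -, -⟩ := mem_Vs.1 hw
  rw [Prim, Int.isCoprime_iff_gcd_eq_one] at hp
  obtain ⟨q, hq, hqd⟩ := Nat.exists_prime_and_dvd hp
  have h1 : (q : ℤ) ∣ w.re := (Int.natCast_dvd_natCast.2 hqd).trans (Int.gcd_dvd_left _ _)
  have h2 : (q : ℤ) ∣ w.im := (Int.natCast_dvd_natCast.2 hqd).trans (Int.gcd_dvd_right _ _)
  have hqodd : q % 2 = 1 := by
    rcases hq.eq_two_or_odd with h | h
    · exfalso
      rw [h] at h1
      obtain ⟨c, hc⟩ := h1
      push_cast at hc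
      omega
    · exact h
  have hq1 : 2 ≤ q := hq.two_le
  obtain ⟨k, hk⟩ : ∃ k, q = 2 * k + 1 := ⟨q / 2, by omega⟩
  have hk1 : 1 ≤ k := by omega
  have hqn : (q : ℤ) ^ 2 ≤ nm w := by
    obtain ⟨x, hx⟩ := h1
    obtain ⟨y, hy⟩ := h2
    refine Int.le_of_dvd htp.nm_pos ⟨x ^ 2 - 2 * y ^ 2, ?_⟩
    rw [nm, hx, hy]
    ring
  have hqb : (q : ℝ) ^ 2 ≤ b := by
    have : ((q : ℤ) ^ 2 : ℝ) ≤ (nm w : ℝ) := by exact_mod_cast hqn
    push_cast at this
    linarith
  have hqs : (q : ℝ) ≤ √b := Real.le_sqrt_of_sq_le hqb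
  refine ⟨k, Finset.mem_Icc.2 ⟨hk1, Nat.le_floor ?_⟩, ?_⟩
  · have : (k : ℝ) ≤ q := by exact_mod_cast (by omega : k ≤ q)
    linarith
  · rw [← hk]
    exact (nat_dvd q w).2 ⟨(Int.natCast_dvd_natCast.2 hqd).trans (Int.gcd_dvd_left _ _),
      (Int.natCast_dvd_natCast.2 hqd).trans (Int.gcd_dvd_right _ _)⟩

private lemma gm_sum_sq (T : ℕ) :
    ∑ k ∈ Finset.Icc 1 T, 1 / ((2 * k + 1 : ℕ) : ℝ) ^ 2 ≤ 1 / 4 - 1 / (4 * ((T : ℝ) + 1)) := by
  induction T with
  | zero => simp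
  | succ T ih =>
    rw [Finset.sum_Icc_succ_top (by omega)]
    have hT : (0 : ℝ) ≤ T := Nat.cast_nonneg T
    have h1 : 1 / ((2 * (T + 1) + 1 : ℕ) : ℝ) ^ 2 ≤
        1 / (4 * ((T : ℝ) + 1)) - 1 / (4 * (((T + 1 : ℕ) : ℝ) + 1)) := by
      push_cast
      have e : 1 / (4 * ((T : ℝ) + 1)) - 1 / (4 * ((T : ℝ) + 1 + 1)) =
          1 / (4 * ((T : ℝ) + 1) * ((T : ℝ) + 1 + 1)) := by
        field_simp
        ring
      rw [e]
      apply one_div_le_one_div_of_le (by positivity)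
      nlinarith
    linarith

private lemma gm_sum_inv (T : ℕ) :
    ∑ k ∈ Finset.Icc 1 T, 1 / ((2 * k + 1 : ℕ) : ℝ) ≤ 1 + Real.log T := by
  have h1 := harmonic_le_one_add_log T
  rw [harmonic_eq_sum_Icc] at h1
  push_cast at h1
  refine le_trans (Finset.sum_le_sum fun k hk => ?_) h1
  have hk1 : 1 ≤ k := (Finset.mem_Icc.1 hk).1
  have hk0 : (0 : ℝ) < k := by exact_mod_cast hk1
  rw [← one_div]
  apply one_div_le_one_div_of_le hk0
  push_cast
  linarith

private lemma gm_Sp_seven {p : ℕ} (hp : Sp p) : 7 ≤ p := by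
  obtain ⟨h1, h2⟩ := hp
  have := h1.two_le
  rcases h2 with h | h <;> omega

/-- many `m` whose products with two given elements are primitive.

Let `T` be the set of the three pairs `(p0, s)`, `(17, true)`, `(41, true)`.
The good `m` in the norm range `[a, b)`: primitive and not divisible by the conjugates
`el p0 false`, `el 17 false`, `el 41 false`.

Proof. Number of all `m ∈ Vs a b`: `κ (b-a) + O(√b)` (`κ = kap`). Not primitive: divisible by some
odd `c ≥ 3` (a common prime factor of `re, im`; odd because `re` is odd), `c ≤ √b`; the number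
divisible by `c` is `#Vs (a/c²) (b/c²) ≤ κ (b-a)/c² + C √b/c` (`sum_dvd`), and
`∑_{c odd ≥ 3} 1/c² = π²/8 - 1 ≤ 1/4`; the errors sum to `≤ C √b (1 + log b)`. Divisible by
`el p false`: `≤ κ (b-a)/p + C √b`; `1/p0 + 1/17 + 1/41 ≤ 1/7 + 1/17 + 1/41 ≤ 1/4`. So at least
`κ (b-a)/2 - O(√b (1 + log b))` good `m` remain. -/
theorem good_m (p0 : ℕ) (hp : Sp p0) : ∃ C : ℝ, 1 ≤ C ∧ ∀ a b : ℝ, 0 ≤ a → a ≤ b → 1 ≤ b →
    ∃ S ⊆ Us a b, (∀ m ∈ S, ¬ el p0 false ∣ m ∧ ¬ el 17 false ∣ m ∧ ¬ el 41 false ∣ m) ∧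
    kap / 2 * (b - a) - C * √b * (1 + Real.log b) ≤ (S.card : ℝ) := by
  classical
  obtain ⟨C0, hC0, hV⟩ := V_count
  have hp7 : (7 : ℝ) ≤ p0 := by exact_mod_cast gm_Sp_seven hp
  have hS17 : Sp 17 := ⟨by norm_num, by norm_num⟩
  have hS41 : Sp 41 := ⟨by norm_num, by norm_num⟩
  refine ⟨max 1 (5 * C0), le_max_left _ _, fun a b ha hab hb => ?_⟩
  have hlog : 0 ≤ Real.log b := Real.log_nonneg hb
  have hsq : 0 ≤ √b := Real.sqrt_nonneg b
  have hk := kap_pos
  have hba : 0 ≤ kap * (b - a) := mul_nonneg hk.le (sub_nonneg.2 hab)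
  -- divisibility by a prime element
  have hel : ∀ p : ℕ, Sp p → (((Vs a b).filter (fun w => el p false ∣ w)).card : ℝ) ≤
      kap * (b - a) / p + C0 * √b := by
    intro p hp
    have hp1 : (1 : ℝ) ≤ p := by exact_mod_cast hp.1.one_lt.le
    have h1 := gm_bound hV ha hab (el_spec hp false).1 hp1
      (by rw [(el_spec hp false).2]; push_cast; rfl)
    have h2 : √(b / p) ≤ √b := Real.sqrt_le_sqrt (div_le_self (by linarith) hp1)
    have h3 := mul_le_mul_of_nonneg_left h2 hC0.le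
    linarith
  -- not primitive
  have hnp : ∑ k ∈ Finset.Icc 1 ⌊√b⌋₊,
      (((Vs a b).filter (fun w => ((2 * k + 1 : ℕ) : ℤ√2) ∣ w)).card : ℝ) ≤
      kap * (b - a) * (1 / 4) + C0 * √b * (1 + Real.log b) := by
    have h1 : ∀ k ∈ Finset.Icc 1 ⌊√b⌋₊,
        (((Vs a b).filter (fun w => ((2 * k + 1 : ℕ) : ℤ√2) ∣ w)).card : ℝ) ≤
        kap * (b - a) * (1 / ((2 * k + 1 : ℕ) : ℝ) ^ 2) +
          C0 * √b * (1 / ((2 * k + 1 : ℕ) : ℝ)) := by
      intro k _
      have hc1 : (1 : ℝ) ≤ ((2 * k + 1 : ℕ) : ℝ) := by push_cast; linarith [Nat.cast_nonneg (α := ℝ) k]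
      have h2 := gm_bound hV ha hab (OT_nat (2 * k + 1) (by omega))
        (m := ((2 * k + 1 : ℕ) : ℝ) ^ 2) (one_le_pow₀ hc1)
        (by rw [nm_nat]; push_cast; rfl)
      rw [Real.sqrt_div' b (by positivity), Real.sqrt_sq (by positivity)] at h2
      calc _ ≤ _ := h2
        _ = _ := by ring
    refine (Finset.sum_le_sum h1).trans ?_
    rw [Finset.sum_add_distrib, ← Finset.mul_sum, ← Finset.mul_sum]
    have h2 := gm_sum_sq ⌊√b⌋₊
    have h3 := gm_sum_inv ⌊√b⌋₊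
    have h4 : (0 : ℝ) ≤ 1 / (4 * ((⌊√b⌋₊ : ℝ) + 1)) := by positivity
    have h5 : Real.log (⌊√b⌋₊ : ℝ) ≤ Real.log b := by
      have h6 : 1 ≤ √b := Real.one_le_sqrt.2 hb
      have h7 : 1 ≤ ⌊√b⌋₊ := Nat.floor_pos.2 h6
      apply Real.log_le_log (by exact_mod_cast h7)
      refine (Nat.floor_le hsq).trans ?_
      rw [Real.sqrt_le_left (by linarith)]
      nlinarith
    exact add_le_add (mul_le_mul_of_nonneg_left (by linarith) hba)
      (mul_le_mul_of_nonneg_left (by linarith) (mul_nonneg hC0.le hsq))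
  let S := (Us a b).filter fun m => ¬ el p0 false ∣ m ∧ ¬ el 17 false ∣ m ∧ ¬ el 41 false ∣ m
  refine ⟨S, Finset.filter_subset _ _, fun m hm => (Finset.mem_filter.1 hm).2, ?_⟩
  have hcov : Vs a b ⊆ S ∪ (((Finset.Icc 1 ⌊√b⌋₊).biUnion fun k =>
      (Vs a b).filter (fun w => ((2 * k + 1 : ℕ) : ℤ√2) ∣ w)) ∪
      ((Vs a b).filter (fun w => el p0 false ∣ w) ∪ ((Vs a b).filter (fun w => el 17 false ∣ w) ∪
        (Vs a b).filter (fun w => el 41 false ∣ w)))) := by
    intro w hw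
    simp only [Finset.mem_union, Finset.mem_biUnion, Finset.mem_filter, S]
    by_cases hpr : Prim w
    · by_cases h1 : el p0 false ∣ w
      · exact Or.inr (Or.inr (Or.inl ⟨hw, h1⟩))
      by_cases h2 : el 17 false ∣ w
      · exact Or.inr (Or.inr (Or.inr (Or.inl ⟨hw, h2⟩)))
      by_cases h3 : el 41 false ∣ w
      · exact Or.inr (Or.inr (Or.inr (Or.inr ⟨hw, h3⟩)))
      obtain ⟨k1, k2, k3, k4, k5⟩ := mem_Vs.1 hw
      exact Or.inl ⟨mem_Us.2 ⟨⟨k1, hpr, k4, k5⟩, k2, k3⟩, h1, h2, h3⟩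
    · obtain ⟨k, hk, hkd⟩ := gm_cover hw hpr
      exact Or.inr (Or.inl ⟨k, hk, hw, hkd⟩)
  have hcard := (Finset.card_le_card hcov).trans ((Finset.card_union_le _ _).trans
    (Nat.add_le_add_left ((Finset.card_union_le _ _).trans (Nat.add_le_add
      Finset.card_biUnion_le ((Finset.card_union_le _ _).trans (Nat.add_le_add_left
        (Finset.card_union_le _ _) _)))) _))
  have hcard' : ((Vs a b).card : ℝ) ≤ S.card + ((∑ k ∈ Finset.Icc 1 ⌊√b⌋₊,
      (((Vs a b).filter (fun w => ((2 * k + 1 : ℕ) : ℤ√2) ∣ w)).card : ℝ)) +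
      ((((Vs a b).filter (fun w => el p0 false ∣ w)).card : ℝ) +
        ((((Vs a b).filter (fun w => el 17 false ∣ w)).card : ℝ) +
        (((Vs a b).filter (fun w => el 41 false ∣ w)).card : ℝ)))) := by
    exact_mod_cast hcard
  have h0 := (abs_le.1 (hV a b ha hab)).1
  have h1 := hel p0 hp
  have h2 := hel 17 hS17
  have h3 := hel 41 hS41
  have h4 : kap * (b - a) / p0 ≤ kap * (b - a) / 7 :=
    div_le_div_of_nonneg_left hba (by norm_num) hp7
  push_cast at h2 h3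
  have h5 : C0 * √b * (1 + Real.log b) + 4 * (C0 * √b) ≤
      max 1 (5 * C0) * √b * (1 + Real.log b) := by
    have e1 : 5 * C0 * √b * (1 + Real.log b) ≤ max 1 (5 * C0) * √b * (1 + Real.log b) :=
      mul_le_mul_of_nonneg_right (mul_le_mul_of_nonneg_right (le_max_right _ _) hsq)
        (by linarith)
    have e2 : 0 ≤ C0 * √b * Real.log b := mul_nonneg (mul_nonneg hC0.le hsq) hlog
    nlinarith
  linarith

end

end Pool.Agent.Lib.MP_0b748d_nt.MR
end

section

set_option autoImplicit false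

/-!
# The frequency `0`: both signs have positive proportion
-/

namespace Pool.Agent.Lib.MP_0b748d_nt.MR

open Zsqrtd

noncomputable section

private theorem zf_cancel {σ x y : ℤ√2} (hσ : nm σ ≠ 0) (h : σ * x = σ * y) : x = y := by
  have h1 := congrArg Zsqrtd.re h
  have h2 := congrArg Zsqrtd.im h
  simp only [Zsqrtd.re_mul, Zsqrtd.im_mul] at h1 h2
  have hnm : nm σ = σ.re ^ 2 - 2 * σ.im ^ 2 := rfl
  ext
  · apply mul_left_cancel₀ hσ
    rw [hnm]
    linear_combination σ.re * h1 - 2 * σ.im * h2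
  · apply mul_left_cancel₀ hσ
    rw [hnm]
    linear_combination σ.re * h2 - σ.im * h1

private theorem zf_inj {σ m m' : ℤ√2} (hσ : OT σ) (hm : Can m) (hm' : Can m')
    (h : rp (σ * m) = rp (σ * m')) : m = m' := by
  obtain ⟨n, hn⟩ := rp_inj (hσ.1.mul hm.1.1) (hσ.1.mul hm'.1.1) h
  have h1 : σ * m = σ * (un n * m') := by
    rw [hn]
    ring
  have h2 : m = un n * m' := zf_cancel hσ.1.nm_pos.ne' h1
  have h3 : rp m = rp m' := by
    rw [h2, rp_un hm'.1.1]
  rwa [rp_eq hm.2.2.1 hm.2.2.2, rp_eq hm'.2.2.1 hm'.2.2.2] at h3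

private theorem zf_one : OT 1 := by
  refine ⟨?_, by simp⟩
  rw [← un_zero]
  exact (un_spec 0).1

private theorem zf_pow {x : ℤ√2} (hx : OT x) (k : ℕ) : OT (x ^ k) := by
  induction k with
  | zero => rw [pow_zero]; exact zf_one
  | succ k ih => rw [pow_succ]; exact ih.mul hx

private theorem zf_nm_pow (x : ℤ√2) (k : ℕ) : nm (x ^ k) = nm x ^ k := by
  induction k with
  | zero => simp [nm]
  | succ k ih => rw [pow_succ, nm_mul, ih, pow_succ]

private theorem zf_F_pow {g : ℕ → ℤ} (hg : CO g) {x : ℤ√2} (hx : OT x) (k : ℕ) :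
    F g (x ^ (2 * k)) = 1 := by
  have h0 : ∀ l : ℕ, F g (x ^ (l + 1)) = F g x ^ (l + 1) := by
    intro l
    induction l with
    | zero => simp
    | succ l ih => rw [pow_succ, F_mul' hg (zf_pow hx _) hx, ih, ← pow_succ]
  rcases Nat.eq_zero_or_pos k with rfl | hk
  · rw [mul_zero, pow_zero]
    have h1 := F_mul' hg zf_one zf_one
    rw [mul_one] at h1
    rcases F_val' hg zf_one with h2 | h2
    · exact h2
    · rw [h2] at h1
      norm_num at h1
  · obtain ⟨l, hl⟩ : ∃ l, 2 * k = l + 1 := ⟨2 * k - 1, by omega⟩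
    rw [hl, h0 l, ← hl, pow_mul]
    rcases F_val' hg hx with h2 | h2 <;> rw [h2] <;> simp

open Classical in
private theorem zf_card {g : ℕ → ℤ} (hg : CO g) {σ : ℤ√2} (hσ : OT σ) {X : ℝ} {S : Finset (ℤ√2)}
    (hS : ∀ m ∈ S, Can m) (h1 : ∀ m ∈ S, Prim (σ * m)) (h2 : ∀ m ∈ S, X ≤ nm (σ * m))
    (h3 : ∀ m ∈ S, (nm (σ * m) : ℝ) < 2 * X) (τ : ℤ) :
    (S.filter (fun m => F g m = τ)).card ≤
      ((Us X (2 * X)).filter (fun w => F g w = F g σ * τ)).card := by
  refine Finset.card_le_card_of_injOn (fun m => rp (σ * m)) ?_ ?_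
  · intro m hm
    rw [Finset.mem_coe, Finset.mem_filter] at hm
    rw [Finset.mem_coe, Finset.mem_filter]
    have hOT := (hS m hm.1).1
    refine ⟨rp_mem_Us (hσ.mul hOT) (h1 m hm.1) (h2 m hm.1) (h3 m hm.1), ?_⟩
    rw [(F_inv g).rp (hσ.mul hOT).1, F_mul' hg hσ hOT, hm.2]
  · intro m hm m' hm' h
    rw [Finset.mem_coe, Finset.mem_filter] at hm hm'
    exact zf_inj hσ (hS m hm.1) (hS m' hm'.1) h

private theorem zf_large {C κ : ℝ} (hC : 0 < C) (hκ : 0 < κ) :
    ∃ Y0 : ℝ, 1 ≤ Y0 ∧ ∀ y : ℝ, Y0 ≤ y → C * √y * (1 + Real.log y) ≤ κ * y := by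
  have h1 : Filter.Tendsto (fun y : ℝ => 5 * C * y ^ (-(1 / 4 : ℝ))) Filter.atTop (nhds 0) := by
    have := (tendsto_rpow_neg_atTop (y := (1 / 4 : ℝ)) (by norm_num)).const_mul (5 * C)
    rwa [mul_zero] at this
  obtain ⟨Y, hY⟩ := Filter.eventually_atTop.1 (h1.eventually (gt_mem_nhds hκ))
  refine ⟨max 1 Y, le_max_left _ _, fun y hy => ?_⟩
  have hy1 : 1 ≤ y := (le_max_left _ _).trans hy
  have hy0 : 0 < y := by linarith
  have h2 := (hY y ((le_max_right _ _).trans hy)).le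
  have h3 : Real.log y ≤ y ^ (1 / 4 : ℝ) / (1 / 4) := Real.log_le_rpow_div hy0.le (by norm_num)
  have h4 : (1 : ℝ) ≤ y ^ (1 / 4 : ℝ) := Real.one_le_rpow hy1 (by norm_num)
  have h5 : 1 + Real.log y ≤ 5 * y ^ (1 / 4 : ℝ) := by linarith
  have h6 : √y * y ^ (1 / 4 : ℝ) = y ^ (-(1 / 4 : ℝ)) * y := by
    rw [Real.sqrt_eq_rpow, ← Real.rpow_add hy0, ← Real.rpow_add_one hy0.ne']
    norm_num
  calc C * √y * (1 + Real.log y) ≤ C * √y * (5 * y ^ (1 / 4 : ℝ)) := by
        gcongr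
    _ = 5 * C * (√y * y ^ (1 / 4 : ℝ)) := by ring
    _ = 5 * C * y ^ (-(1 / 4 : ℝ)) * y := by rw [h6]; ring
    _ ≤ κ * y := by gcongr

/-- both signs have positive proportion if `g p0 = -1` for some split prime `p0`.

Proof. Let `i, j` be as in `ratio`, `σ1 = el p0 true * el 17 true ^ (2i)`, `σ2 = el 41 true ^ (2j)`,
`n1 = nm σ1 = p0 17^(2i)`, `n2 = 41^(2j)`, `n2 ≤ n1 < (3/2) n2`. `f = F g`, `f σ1 = g p0 = -1`,
`f σ2 = 1`. Let `S` be the set of `good_m` for `a = X/n2`, `b = 2X/n1`,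
`b - a = (X/n2)(2 n2/n1 - 1) ≥ X/(3 n2)`. For `m ∈ S`, `nm(σ2 m) = n2 nm m ∈ [X, 2X)` and
`nm(σ1 m) ∈ [X, 2X)`, both primitive (`prim_prod2`), odd, totally positive, so
`rp(σ1 m), rp(σ2 m) ∈ Us X 2X` with `f(rp(σ1 m)) = -f m`, `f(rp(σ2 m)) = f m`. `m ↦ rp(σ m)` is
injective on canonical `m` (`rp_inj`: `σ m = un n σ m'` gives `m = un n m'`, so `n = 0` as both are
canonical). So the number of `w ∈ Us X 2X` with `f w = 1` is at least `#S/2` (at least half of the
`m ∈ S` have the same value `f m`; use `σ2` or `σ1` accordingly), same for `-1`. Hence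
`|A(0)| = |#plus - #minus| ≤ N - #S` with `N = #Us X 2X ≤ 2 kap1 X` and
`#S ≥ kap X/(6 n2) - O(√X (1 + log X)) ≥ kap X/(12 n2) ≥ c N` for large `X`;
`(1-c)² ≤ 1 - c`. -/
theorem zero_freq (p0 : ℕ) (hp : Sp p0) : ∃ c X0 : ℝ, 0 < c ∧ c ≤ 1 ∧ ∀ X : ℝ, X0 ≤ X →
    ∀ g : ℕ → ℤ, CO g → g p0 = -1 → Hyp g c X := by
  classical
  obtain ⟨i, j, hij1, hij2⟩ := ratio p0 hp.1.pos
  obtain ⟨C, hC1, hgood⟩ := good_m p0 hp
  obtain ⟨X1, hX1, hdy⟩ := U_dyadic
  have hk := kap_pos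
  have hk1 := kap1_pos
  have hp0 : (1 : ℝ) ≤ p0 := by exact_mod_cast hp.1.one_le
  have h17 : Sp 17 := ⟨by norm_num, Or.inl (by norm_num)⟩
  have h41 : Sp 41 := ⟨by norm_num, Or.inl (by norm_num)⟩
  set n1 : ℝ := p0 * 17 ^ (2 * i) with hn1
  set n2 : ℝ := 41 ^ (2 * j) with hn2
  have hn2p : 1 ≤ n2 := one_le_pow₀ (by norm_num)
  have hn1p : 1 ≤ n1 := hn2p.trans hij1
  obtain ⟨Y0, hY0, hlarge⟩ := zf_large (C := C) (κ := kap / 24) (by linarith) (by positivity)
  refine ⟨min 1 (kap / (24 * n2 * kap1)), max X1 (n1 * Y0), by positivity, min_le_left _ _, ?_⟩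
  intro X hX g hg hgp
  have hXX1 : X1 ≤ X := (le_max_left _ _).trans hX
  have hXY : n1 * Y0 ≤ X := (le_max_right _ _).trans hX
  have hX0 : 1 ≤ X := hX1.trans hXX1
  obtain ⟨-, hU⟩ := hdy X hXX1
  set a : ℝ := X / n2 with ha
  set b : ℝ := 2 * X / n1 with hb
  have ha0 : 0 ≤ a := by positivity
  have hbY : Y0 ≤ b := by
    rw [hb, le_div_iff₀ (by linarith)]
    linarith
  have hb1 : 1 ≤ b := hY0.trans hbY
  have hba : X / (3 * n2) ≤ b - a := by
    have h1 : b ≥ 4 / 3 * (X / n2) := by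
      rw [hb, ge_iff_le, ← mul_div_assoc, div_le_div_iff₀ (by linarith) (by linarith)]
      nlinarith only [hij2, hX0]
    have h2 : X / (3 * n2) = 1 / 3 * (X / n2) := by
      field_simp
    rw [h2]
    linarith
  have hab : a ≤ b := by
    have : 0 ≤ X / (3 * n2) := by positivity
    linarith
  have hb2 : b ≤ 2 * (X / n2) := by
    rw [hb, ← mul_div_assoc]
    gcongr
  obtain ⟨S, hSU, hSd, hSc⟩ := hgood a b ha0 hab hb1
  have hScard : kap / (12 * n2) * X ≤ S.card := by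
    have h1 := hlarge b hbY
    have h2 : kap / 2 * (X / (3 * n2)) ≤ kap / 2 * (b - a) := by gcongr
    have h3 : kap / 24 * b ≤ kap / 24 * (2 * (X / n2)) := by gcongr
    have h4 : kap / 2 * (X / (3 * n2)) - kap / 24 * (2 * (X / n2)) = kap / (12 * n2) * X := by
      field_simp
      ring
    linarith
  -- the two multipliers
  set σ1 : ℤ√2 := el p0 true * el 17 true ^ (2 * i) with hσ1
  set σ2 : ℤ√2 := el 41 true ^ (2 * j) with hσ2
  have o1 : OT σ1 := (el_spec hp true).1.mul (zf_pow (el_spec h17 true).1 _)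
  have o2 : OT σ2 := zf_pow (el_spec h41 true).1 _
  have nm1 : (nm σ1 : ℝ) = n1 := by
    rw [hσ1, nm_mul, zf_nm_pow, (el_spec hp true).2, (el_spec h17 true).2]
    push_cast
    rfl
  have nm2 : (nm σ2 : ℝ) = n2 := by
    rw [hσ2, zf_nm_pow, (el_spec h41 true).2]
    push_cast
    rfl
  have F1 : F g σ1 = -1 := by
    rw [hσ1, F_mul' hg (el_spec hp true).1 (zf_pow (el_spec h17 true).1 _),
      zf_F_pow hg (el_spec h17 true).1, mul_one]
    show g (nm (el p0 true)).toNat = -1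
    rw [(el_spec hp true).2, Int.toNat_natCast, hgp]
  have F2 : F g σ2 = 1 := zf_F_pow hg (el_spec h41 true).1 j
  have hScan : ∀ m ∈ S, Can m ∧ a ≤ nm m ∧ (nm m : ℝ) < b := fun m hm => mem_Us.1 (hSU hm)
  have c1 : ∀ τ : ℤ, (S.filter (fun m => F g m = τ)).card ≤
      ((Us X (2 * X)).filter (fun w => F g w = -1 * τ)).card := by
    intro τ
    rw [← F1]
    refine zf_card hg o1 (fun m hm => (hScan m hm).1) ?_ ?_ ?_ τ
    · intro m hm
      have h1 := prim_prod2 p0 17 hp h17 1 (2 * i) m (hScan m hm).1.2.1 (hSd m hm).1 (hSd m hm).2.1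
      have h2 : σ1 * m = el p0 true ^ 1 * (el 17 true ^ (2 * i) * m) := by
        rw [hσ1]
        ring
      rw [h2]
      exact h1
    · intro m hm
      rw [nm_mul]
      push_cast
      rw [nm1]
      have h1 : n1 * (X / n2) ≤ n1 * nm m := by
        have := (hScan m hm).2.1
        gcongr
      have h2 : X ≤ n1 * (X / n2) := by
        rw [← mul_div_assoc, le_div_iff₀ (by linarith)]
        nlinarith only [hij1, hX0]
      linarith
    · intro m hm
      rw [nm_mul]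
      push_cast
      rw [nm1]
      have h1 := (hScan m hm).2.2
      rw [hb, lt_div_iff₀ (by linarith)] at h1
      linarith
  have c2 : ∀ τ : ℤ, (S.filter (fun m => F g m = τ)).card ≤
      ((Us X (2 * X)).filter (fun w => F g w = 1 * τ)).card := by
    intro τ
    rw [← F2]
    refine zf_card hg o2 (fun m hm => (hScan m hm).1) ?_ ?_ ?_ τ
    · intro m hm
      have h1 := prim_prod2 41 17 h41 h17 (2 * j) 0 m (hScan m hm).1.2.1 (hSd m hm).2.2
        (hSd m hm).2.1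
      have h2 : σ2 * m = el 41 true ^ (2 * j) * (el 17 true ^ 0 * m) := by
        rw [hσ2]
        ring
      rw [h2]
      exact h1
    · intro m hm
      rw [nm_mul]
      push_cast
      rw [nm2]
      have h1 := (hScan m hm).2.1
      rw [ha, div_le_iff₀ (by linarith)] at h1
      linarith
    · intro m hm
      rw [nm_mul]
      push_cast
      rw [nm2]
      have h1 := (hScan m hm).2.2
      have h0 : (0 : ℝ) ≤ nm m := ha0.trans (hScan m hm).2.1
      rw [hb, lt_div_iff₀ (by linarith)] at h1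
      nlinarith only [hij1, h1, h0]
  -- counting
  set P := (Us X (2 * X)).filter (fun w => F g w = 1) with hP
  set N := (Us X (2 * X)).filter (fun w => F g w = -1) with hN
  have hsplit : S.card = (S.filter (fun m => F g m = 1)).card +
      (S.filter (fun m => F g m = -1)).card := by
    rw [← Finset.card_filter_add_card_filter_not (s := S) (fun m => F g m = 1)]
    congr 2
    refine Finset.filter_congr fun m hm => ?_
    rcases F_val' hg (hScan m hm).1.1 with h | h <;> rw [h] <;> norm_num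
  have hsplitU : (Us X (2 * X)).card = P.card + N.card := by
    rw [hP, hN, ← Finset.card_filter_add_card_filter_not (s := Us X (2 * X)) (fun m => F g m = 1)]
    congr 2
    refine Finset.filter_congr fun m hm => ?_
    rcases F_val' hg (mem_Us.1 hm).1.1 with h | h <;> rw [h] <;> norm_num
  have e1 := c1 1
  have e2 := c1 (-1)
  have e3 := c2 1
  have e4 := c2 (-1)
  rw [show (-1 : ℤ) * 1 = -1 by norm_num] at e1
  rw [show (-1 : ℤ) * -1 = 1 by norm_num] at e2
  rw [show (1 : ℤ) * 1 = 1 by norm_num] at e3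
  rw [show (1 : ℤ) * -1 = -1 by norm_num] at e4
  rw [← hN] at e1 e4
  rw [← hP] at e2 e3
  have hPS : S.card ≤ 2 * P.card := by omega
  have hNS : S.card ≤ 2 * N.card := by omega
  have hsum : ∑ w ∈ Us X (2 * X), F g w = (P.card : ℤ) - N.card := by
    have h1 : ∀ w ∈ Us X (2 * X), F g w =
        (if F g w = 1 then (1 : ℤ) else 0) - (if F g w = -1 then (1 : ℤ) else 0) := by
      intro w hw
      rcases F_val' hg (mem_Us.1 hw).1.1 with h | h <;> rw [h] <;> norm_num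
    rw [Finset.sum_congr rfl h1, Finset.sum_sub_distrib, Finset.sum_boole, Finset.sum_boole]
  have hA : Ap (fg g) 0 X (2 * X) = (((P.card : ℝ) - N.card : ℝ) : ℂ) := by
    have h1 : Ap (fg g) 0 X (2 * X) = ((∑ w ∈ Us X (2 * X), F g w : ℤ) : ℂ) := by
      unfold Ap
      rw [Int.cast_sum]
      refine Finset.sum_congr rfl fun w _ => ?_
      rw [xi_zero, mul_one]
      rfl
    rw [h1, hsum]
    push_cast
    rfl
  unfold Hyp
  rw [hA, Complex.norm_real, Real.norm_eq_abs, sq_abs, hsplitU]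
  push_cast
  set c : ℝ := min 1 (kap / (24 * n2 * kap1)) with hc
  have hc0 : 0 < c := by positivity
  have hcS : c * ((P.card : ℝ) + N.card) ≤ S.card := by
    have h1 : ((P.card : ℝ) + N.card) ≤ 2 * kap1 * X := by
      have : (((Us X (2 * X)).card : ℕ) : ℝ) = (P.card : ℝ) + N.card := by
        rw [hsplitU]
        push_cast
        rfl
      rw [← this]
      exact hU
    have h2 : c ≤ kap / (24 * n2 * kap1) := min_le_right _ _
    calc c * ((P.card : ℝ) + N.card) ≤ kap / (24 * n2 * kap1) * (2 * kap1 * X) := by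
          gcongr
      _ = kap / (12 * n2) * X := by
          field_simp
          ring
      _ ≤ S.card := hScard
  have hPS' : (S.card : ℝ) ≤ 2 * P.card := by exact_mod_cast hPS
  have hNS' : (S.card : ℝ) ≤ 2 * N.card := by exact_mod_cast hNS
  have hP0 : (0 : ℝ) ≤ P.card := Nat.cast_nonneg _
  have hN0 : (0 : ℝ) ≤ N.card := Nat.cast_nonneg _
  have hc1 : c ≤ 1 := min_le_left _ _
  generalize (P.card : ℝ) = x at *
  generalize (N.card : ℝ) = y at *
  have h1 : |x - y| ≤ (1 - c) * (x + y) := by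
    rw [abs_le]
    constructor <;> linarith only [hPS', hcS, hNS']
  have h2 : (x - y) ^ 2 ≤ ((1 - c) * (x + y)) ^ 2 := by
    rw [← sq_abs (x - y)]
    gcongr
  have h3 : ((1 - c) * (x + y)) ^ 2 ≤ (1 - c) * (x + y) ^ 2 := by
    rw [mul_pow]
    have h4 : (1 - c) ^ 2 ≤ 1 - c := by nlinarith only [hc0, hc1]
    gcongr
  exact h2.trans h3

end

end Pool.Agent.Lib.MP_0b748d_nt.MR
end

section

set_option autoImplicit false

/-!
# From balanced pairs to integers `n`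
-/

namespace Pool.Agent.Lib.MP_0b748d_nt.MR

open Zsqrtd

noncomputable section

/-- Markov -/
lemma card_filter_gt_mul_le {α : Type*} (S : Finset α) (f : α → ℝ) (hf : ∀ x, 0 ≤ f x) (T : ℝ) :
    ((S.filter (fun x => T < f x)).card : ℝ) * T ≤ ∑ x ∈ S, f x := by
  calc ((S.filter (fun x => T < f x)).card : ℝ) * T = ∑ x ∈ S.filter (fun x => T < f x), T := by
        rw [Finset.sum_const, nsmul_eq_mul]
    _ ≤ ∑ x ∈ S.filter (fun x => T < f x), f x :=
        Finset.sum_le_sum fun x hx => (Finset.mem_filter.mp hx).2.le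
    _ ≤ ∑ x ∈ S, f x :=
        Finset.sum_le_sum_of_subset_of_nonneg (Finset.filter_subset _ _) (fun x _ _ => hf x)

/-- many pairs give many integers.

Proof. By `tau_rho_sum`, `BA_weight`, `BA_inv` (`w = tau`): the sums of `tau d` and of `tau e`
(`e = (n²-2)/d`) over the pairs of `BA D N` are at most `C1 N log N` (for `N ≥ 3`). Let
`T = (4 C1/c) log N`. All but `c N/4 + c N/4` of the pairs of `S` have `tau d ≤ T` and `tau e ≤ T`;
the others, at least `c N/2`, satisfy `tau (n² - 2) ≤ tau d tau e ≤ T²` (`tau_mul_le`), so every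
`n` occurs in at most `T²` of them (the number of `d` is at most `tau (n²-2)`). So at least
`c N/(2 T²)` integers `n` occur. -/
theorem n_count (D : ℕ) (hD : 1 ≤ D) (c : ℝ) (hc : 0 < c) : ∃ c' : ℝ, 0 < c' ∧ ∃ N0 : ℕ,
    ∀ N : ℕ, N0 ≤ N → ∀ S ⊆ BA D N, c * N ≤ (S.card : ℝ) →
    c' * N / Real.log N ^ 2 ≤ ((S.image Prod.fst).card : ℝ) := by
  obtain ⟨C, hC1, hC⟩ := tau_rho_sum
  have hDr : (1 : ℝ) ≤ D := by exact_mod_cast hD
  set C1 : ℝ := (2 * D + 1) * (C * (2 * D)) with hC1def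
  have hC1pos : 0 < C1 := by positivity
  set A : ℝ := 2 + Real.log (2 * D) with hA
  have hlogD : 0 ≤ Real.log (2 * D) := Real.log_nonneg (by linarith)
  have hApos : 0 < A := by linarith
  refine ⟨c ^ 3 / (32 * C1 ^ 2 * A ^ 2), by positivity, 3, ?_⟩
  intro N hN S hS hcard
  have hN3 : (3 : ℝ) ≤ N := by exact_mod_cast hN
  have hN0 : (0 : ℝ) < N := by linarith
  have hlogN : 1 ≤ Real.log N := by
    rw [Real.le_log_iff_exp_le hN0]
    exact (Real.exp_one_lt_d9.le.trans (by norm_num)).trans hN3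
  set L : ℝ := A * Real.log N with hL
  have hLpos : 0 < L := by positivity
  have hw : ∀ d, (0 : ℝ) ≤ (tau d : ℝ) := fun d => Nat.cast_nonneg _
  -- the weighted sums
  have hsum : ∀ E : ℕ, 1 ≤ E → E ≤ 2 * D → ∑ x ∈ BA E N, (tau x.2 : ℝ) ≤ C1 * N * L := by
    intro E hE1 hE2
    have h1 := BA_weight E N (fun d => (tau d : ℝ)) hw
    have h2 := hC (E * N) (Nat.mul_pos hE1 (by omega))
    have hEr : (1 : ℝ) ≤ E := by exact_mod_cast hE1
    have hEr2 : (E : ℝ) ≤ 2 * D := by exact_mod_cast hE2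
    have h3 : 1 + Real.log ((E * N : ℕ) : ℝ) ≤ L := by
      have h4 : Real.log ((E * N : ℕ) : ℝ) ≤ Real.log (2 * D) + Real.log N := by
        push_cast
        rw [← Real.log_mul (by positivity) hN0.ne']
        exact Real.log_le_log (by positivity) (mul_le_mul_of_nonneg_right hEr2 hN0.le)
      rw [hL, hA]
      nlinarith
    have h5 : ∑ d ∈ Finset.Icc 1 (E * N), (rho d : ℝ) * tau d ≤ C * (2 * D) * N * L := by
      refine h2.trans ?_
      push_cast at h3 ⊢
      calc C * (E * N) * (1 + Real.log (E * N)) ≤ C * (2 * D * N) * L := by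
            apply mul_le_mul _ h3 _ (by positivity)
            · apply mul_le_mul_of_nonneg_left _ (by linarith)
              exact mul_le_mul_of_nonneg_right hEr2 hN0.le
            · have : 0 ≤ Real.log ((E : ℝ) * N) := Real.log_nonneg (by nlinarith)
              linarith
        _ = C * (2 * D) * N * L := by ring
    refine h1.trans ?_
    calc ((E : ℝ) + 1) * ∑ d ∈ Finset.Icc 1 (E * N), (rho d : ℝ) * tau d
        ≤ (2 * D + 1) * (C * (2 * D) * N * L) := by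
          apply mul_le_mul (by linarith) h5 _ (by positivity)
          exact Finset.sum_nonneg fun d _ => by positivity
      _ = C1 * N * L := by rw [hC1def]; ring
  have hs1 : ∑ x ∈ S, (tau x.2 : ℝ) ≤ C1 * N * L :=
    (Finset.sum_le_sum_of_subset_of_nonneg hS (fun x _ _ => hw _)).trans
      (hsum D hD (by omega))
  have hs2 : ∑ x ∈ S, (tau ((x.1 ^ 2 - 2) / x.2) : ℝ) ≤ C1 * N * L :=
    ((Finset.sum_le_sum_of_subset_of_nonneg hS (fun x _ _ => hw _)).trans
      (BA_inv D N hD (fun d => (tau d : ℝ)) hw)).trans (hsum (2 * D) (by omega) le_rfl)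
  set T : ℝ := 4 * C1 * L / c with hT
  have hTpos : 0 < T := by positivity
  have hTe : C1 * N * L = c * N / 4 * T := by
    rw [hT]; field_simp
  have hm1 : ((S.filter (fun x => T < (tau x.2 : ℝ))).card : ℝ) ≤ c * N / 4 := by
    have h1 := card_filter_gt_mul_le S (fun x => (tau x.2 : ℝ)) (fun x => hw _) T
    have h2 := h1.trans (hs1.trans hTe.le)
    exact le_of_mul_le_mul_right h2 hTpos
  have hm2 : ((S.filter (fun x => T < (tau ((x.1 ^ 2 - 2) / x.2) : ℝ))).card : ℝ) ≤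
      c * N / 4 := by
    have h1 := card_filter_gt_mul_le S (fun x => (tau ((x.1 ^ 2 - 2) / x.2) : ℝ)) (fun x => hw _) T
    have h2 := h1.trans (hs2.trans hTe.le)
    exact le_of_mul_le_mul_right h2 hTpos
  set S' := S.filter (fun x => (tau x.2 : ℝ) ≤ T ∧ (tau ((x.1 ^ 2 - 2) / x.2) : ℝ) ≤ T) with hS'
  have hsplit : S.card ≤ S'.card + (S.filter (fun x => T < (tau x.2 : ℝ))).card +
      (S.filter (fun x => T < (tau ((x.1 ^ 2 - 2) / x.2) : ℝ))).card := by
    have h1 : S ⊆ S' ∪ (S.filter (fun x => T < (tau x.2 : ℝ))) ∪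
        (S.filter (fun x => T < (tau ((x.1 ^ 2 - 2) / x.2) : ℝ))) := by
      intro x hx
      simp only [hS', Finset.mem_union, Finset.mem_filter]
      by_cases h1 : (tau x.2 : ℝ) ≤ T
      · by_cases h2 : (tau ((x.1 ^ 2 - 2) / x.2) : ℝ) ≤ T
        · exact Or.inl (Or.inl ⟨hx, h1, h2⟩)
        · exact Or.inr ⟨hx, not_le.mp h2⟩
      · exact Or.inl (Or.inr ⟨hx, not_le.mp h1⟩)
    refine (Finset.card_le_card h1).trans ((Finset.card_union_le _ _).trans ?_)
    have := Finset.card_union_le S' (S.filter (fun x => T < (tau x.2 : ℝ)))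
    omega
  have hS'card : c * N / 2 ≤ (S'.card : ℝ) := by
    have h1 : (S.card : ℝ) ≤ S'.card + (S.filter (fun x => T < (tau x.2 : ℝ))).card +
      (S.filter (fun x => T < (tau ((x.1 ^ 2 - 2) / x.2) : ℝ))).card := by exact_mod_cast hsplit
    linarith
  have hfib : ∀ n ∈ S'.image Prod.fst, (S'.filter (fun x => x.1 = n)).card ≤ ⌊T ^ 2⌋₊ := by
    intro n hn
    apply Nat.le_floor
    obtain ⟨⟨n', d⟩, hx, rfl⟩ := Finset.mem_image.mp hn
    have hxS := Finset.mem_filter.mp hx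
    have hxBA := hS hxS.1
    simp only [BA, Finset.mem_filter, Finset.mem_product, Finset.mem_Icc] at hxBA
    obtain ⟨⟨⟨hn2, hnN⟩, he1, heN⟩, hdvd, -, -⟩ := hxBA
    have hpos : 2 ≤ n' ^ 2 - 2 := by
      have : 4 ≤ n' ^ 2 := by nlinarith
      omega
    have h1 : (S'.filter (fun x => x.1 = n')).card ≤ (n' ^ 2 - 2).divisors.card := by
      refine Finset.card_le_card_of_injOn (fun x => x.2) ?_ ?_
      · rintro ⟨n'', d'⟩ hx'
        simp only [Finset.coe_filter, Set.mem_ofPred_eq] at hx'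
        obtain ⟨hx', rfl⟩ := hx'
        have hx'BA := hS (Finset.mem_filter.mp hx').1
        simp only [BA, Finset.mem_filter] at hx'BA
        simp only [Finset.mem_coe, Nat.mem_divisors]
        exact ⟨hx'BA.2.1, by omega⟩
      · rintro ⟨n1, d1⟩ hx1 ⟨n2, d2⟩ hx2 heq
        simp only [Finset.coe_filter, Set.mem_ofPred_eq] at hx1 hx2
        simp only at heq
        rw [Prod.mk.injEq]
        exact ⟨hx1.2.trans hx2.2.symm, heq⟩
    have h2 := tau_mul_le d ((n' ^ 2 - 2) / d)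
    rw [Nat.mul_div_cancel' hdvd] at h2
    have h3 : ((S'.filter (fun x => x.1 = n')).card : ℝ) ≤ (tau d : ℝ) * tau ((n' ^ 2 - 2) / d) := by
      exact_mod_cast h1.trans h2
    refine h3.trans ?_
    have h7 : T ^ 2 = T * T := pow_two T
    rw [h7]
    exact mul_le_mul hxS.2.1 hxS.2.2 (hw _) hTpos.le
  have h1 := Finset.card_le_mul_card_image S' ⌊T ^ 2⌋₊ hfib
  have h2 : (S'.card : ℝ) ≤ T ^ 2 * ((S'.image Prod.fst).card : ℝ) := by
    have h3 : (S'.card : ℝ) ≤ (⌊T ^ 2⌋₊ : ℝ) * ((S'.image Prod.fst).card : ℝ) := by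
      exact_mod_cast h1
    exact h3.trans (mul_le_mul_of_nonneg_right (Nat.floor_le (by positivity)) (Nat.cast_nonneg _))
  have h4 : ((S'.image Prod.fst).card : ℝ) ≤ ((S.image Prod.fst).card : ℝ) := by
    exact_mod_cast Finset.card_le_card (Finset.image_subset_image (Finset.filter_subset _ _))
  refine le_trans ?_ h4
  have h5 : c * N / 2 ≤ T ^ 2 * ((S'.image Prod.fst).card : ℝ) := hS'card.trans h2
  have h6 : c ^ 3 / (32 * C1 ^ 2 * A ^ 2) * N / Real.log N ^ 2 = (c * N / 2) / T ^ 2 := by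
    have : Real.log N ≠ 0 := by linarith
    rw [hT, hL]
    field_simp
    ring
  rw [h6, div_le_iff₀ (by positivity)]
  linarith

end

end Pool.Agent.Lib.MP_0b748d_nt.MR
end
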