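import Pool.Agent.Lib.MP_0b748d_nt.MR.Dirs
import Pool.Agent.Lib.MP_0b748d_nt.MR.FinalLevel
import Pool.Agent.Lib.MP_0b748d_nt.MR.Lower
import Pool.Agent.Lib.MP_0b748d_nt.MR.Parseval
import Pool.Agent.Lib.MP_0b748d_nt.MR.ConeWin
import Pool.Agent.Lib.MP_0b748d_nt.MR.NCount

section

set_option autoImplicit false

/-!
# The almost constant case
-/

namespace Pool.Agent.Lib.MP_0b748d_nt.MR

open Zsqrtd

noncomputable section

private lemma et_ineq {k N C c a b G T : ℝ} (hk : 0 < k) (hN : 0 ≤ N) (hC : 1 ≤ C)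
    (hc : c ≤ k / (100 * C)) (ha : a ≤ C * c * N) (hb : b ≤ C * c * N)
    (hT : k / 2 * (N / 16) ≤ T) (hG : T ≤ G + (a + b)) : k / 100 * N ≤ G := by
  have h1 : C * c ≤ k / 100 := by
    have h2 : C * c ≤ C * (k / (100 * C)) := mul_le_mul_of_nonneg_left hc (by linarith)
    have h3 : C * (k / (100 * C)) = k / 100 := by
      field_simp
    linarith
  have h4 : C * c * N ≤ k / 100 * N := mul_le_mul_of_nonneg_right h1 hN
  have h5 : 0 ≤ k * N := mul_nonneg hk.le hN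
  linarith only [ha, hb, hT, hG, h4, h5]

/-- the almost constant case for even `n`.

Proof. Let `C1` be the constant of `rare_all`, `c = min (1/20) (kap1/(100 C1))`,
`Y = N/16`. For `w ∈ Us Y 2Y` let `y = y(w)` be `even_nbr`; `nm w ∈ [N/16, N/8)`,
`nm y ∈ [N/16, N)`. Let `s` be the sign of `rare_all`. Discard the `w` with `F w ≠ s` (at most
`C1 c N`) and those with `F (rp y) ≠ s`: the map `w ↦ rp y` is injective (if `rp y = rp y'` then
`y' = un n * y` and `un n * w`, `w'` have the same neighbour `⟨2,1⟩ * y'`, so `w' = un n * w` by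
`nbr_inj`, and `n = 0` as both are canonical), so again at most `C1 c N`. For the remaining at
least `kap1 Y/2 - 2 C1 c N ≥ kap1 N/32 - kap1 N/50 ≥ kap1 N/100` elements `w`: `n = B w z`
(`z = ⟨2,1⟩ y`), `d = nm w`: `d ∣ n² - 2`, `2d ≤ n < 4d`, `n < 4 N/8 ≤ N`, `n` even, and
`g(n² - 2) = g(nm w * 2 * nm y) = g 2 F w F y = g 2 s² = g 2`. The map `w ↦ (n, d)` is at most
`2` to one by `code_inj` (`th w ∈ [0, th uu) ⊂ [0, 2)`). So
`#BP 4 N 0 g (g 2) ≥ kap1 N/200`. -/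
theorem even_triv : ∃ c c' : ℝ, 0 < c ∧ c ≤ 1 ∧ 0 < c' ∧ ∃ N0 : ℕ, ∀ N : ℕ, N0 ≤ N →
    ∀ g : ℕ → ℤ, CM g → (∀ X : ℝ, (N : ℝ) / 16 ≤ X → X ≤ N / 2 → ¬ Hyp g c X) →
    c' * N ≤ ((BP 4 N 0 g (g 2)).card : ℝ) := by
  classical
  obtain ⟨C1, hC1, hrare⟩ := rare_all
  obtain ⟨X0, hX0, hU⟩ := U_dyadic
  have hk := kap1_pos
  set c : ℝ := min (1 / 20) (kap1 / (100 * C1)) with hc
  have hc0 : 0 < c := lt_min (by norm_num) (by positivity)
  have hc20 : c ≤ 1 / 20 := min_le_left _ _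
  have hck : c ≤ kap1 / (100 * C1) := min_le_right _ _
  obtain ⟨N1, hN1⟩ := hrare c hc0 hc20
  refine ⟨c, kap1 / 200, hc0, by linarith, by positivity, max N1 ⌈16 * X0⌉₊, ?_⟩
  intro N hN g hg hH
  have hNN1 : N1 ≤ N := (le_max_left _ _).trans hN
  have hNX : 16 * X0 ≤ N := (Nat.le_ceil _).trans (by exact_mod_cast (le_max_right _ _).trans hN)
  have hCO : CO g := ⟨fun m n hm hn => hg.mul m n (by omega) (by omega),
    fun n hn => hg.val n (by omega)⟩
  obtain ⟨s, hs, hbad⟩ := hN1 N hNN1 g hCO hH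
  have hNr : (0 : ℝ) ≤ N := Nat.cast_nonneg N
  set Y : ℝ := (N : ℝ) / 16 with hY
  obtain ⟨hUl, -⟩ := hU Y (by rw [hY]; linarith only [hNX])
  set W := Us Y (2 * Y) with hW
  choose! y hy using even_nbr
  have hWm : ∀ w ∈ W, OT w ∧ Prim w ∧ 0 ≤ al w ∧ al w < 1 ∧ Y ≤ nm w ∧ (nm w : ℝ) < 2 * Y := by
    intro w hw
    rw [hW, mem_Us] at hw
    exact ⟨hw.1.1, hw.1.2.1, hw.1.2.2.1, hw.1.2.2.2, hw.2.1, hw.2.2⟩
  have hT21 : TP (⟨2, 1⟩ : ℤ√2) := (TP_iff _).2 ⟨by norm_num, by norm_num [nm]⟩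
  have hn21 : nm (⟨2, 1⟩ : ℤ√2) = 2 := by norm_num [nm]
  -- the bad elements
  have hb1 : ((W.filter (fun w => F g w ≠ s)).card : ℝ) ≤ C1 * c * N := by
    refine le_trans ?_ hbad
    have hsub : W.filter (fun w => F g w ≠ s) ⊆ (Us (N / 16) N).filter (fun w => F g w ≠ s) := by
      intro w hw
      rw [Finset.mem_filter] at hw ⊢
      refine ⟨?_, hw.2⟩
      have h1 := hw.1
      rw [hW, mem_Us] at h1
      rw [mem_Us]
      refine ⟨h1.1, h1.2.1, h1.2.2.trans_le ?_⟩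
      rw [hY]
      linarith only []
    exact_mod_cast Finset.card_le_card hsub
  have hyU : ∀ w ∈ W, rp (y w) ∈ Us (N / 16) N := by
    intro w hw
    obtain ⟨h1, h2, -, -, h5, h6⟩ := hWm w hw
    obtain ⟨g1, g2, -, -, -, -, g7, g8⟩ := hy w h1 h2
    have g7' : (nm w : ℝ) ≤ nm (y w) := by exact_mod_cast g7
    have g8' : (nm (y w) : ℝ) < 8 * nm w := by exact_mod_cast g8
    exact rp_mem_Us g1 g2 (h5.trans g7') (by rw [hY] at h6; linarith only [h6, g8'])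
  have hinj : Set.InjOn (fun w => rp (y w)) (W : Set (ℤ√2)) := by
    intro w hw w' hw' heq
    obtain ⟨h1, h2, h3, h4, -, -⟩ := hWm w hw
    obtain ⟨h1', h2', h3', h4', -, -⟩ := hWm w' hw'
    obtain ⟨g1, g2, g3, g4, g5, g6, g7, g8⟩ := hy w h1 h2
    obtain ⟨g1', g2', g3', g4', g5', g6', g7', g8'⟩ := hy w' h1' h2'
    obtain ⟨n, hn⟩ := rp_inj g1.1 g1'.1 heq
    have e1 : (⟨2, 1⟩ : ℤ√2) * y w = un n * (⟨2, 1⟩ * y w') := by
      rw [hn]
      ring
    have hun := (un_spec n).2.1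
    have e2 : det (un n * w') (⟨2, 1⟩ * y w) = 1 := by
      rw [e1, det_mul_left, hun, one_mul, g3']
    have e3 : B (un n * w') (⟨2, 1⟩ * y w) = B w' (⟨2, 1⟩ * y w') := by
      rw [e1, B_mul_left, hun, one_mul]
    have e4 : w = un n * w' := by
      refine nbr_inj w (un n * w') (⟨2, 1⟩ * y w) h1.1 ((TP_un n).2 h1'.1) g3 e2 g5 ?_
      rw [e3, nm_un]
      exact g5'
    have e5 : al w = al w' + n := by
      rw [e4, al_un h1'.1]
    have e6 : n = 0 := by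
      have k1 : (n : ℝ) < 1 := by linarith only [h4, h3', e5]
      have k2 : (-1 : ℝ) < n := by linarith
      have k3 : n < 1 := by exact_mod_cast k1
      have k4 : -1 < n := by exact_mod_cast k2
      omega
    rw [e4, e6, un_zero, one_mul]
  have hb2 : ((W.filter (fun w => F g (rp (y w)) ≠ s)).card : ℝ) ≤ C1 * c * N := by
    refine le_trans ?_ hbad
    have hle : (W.filter (fun w => F g (rp (y w)) ≠ s)).card ≤
        ((Us (N / 16) N).filter (fun w => F g w ≠ s)).card := by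
      refine Finset.card_le_card_of_injOn (fun w => rp (y w)) ?_ ?_
      · intro w hw
        rw [Finset.mem_coe, Finset.mem_filter] at hw
        rw [Finset.mem_coe, Finset.mem_filter]
        exact ⟨hyU w hw.1, hw.2⟩
      · intro w hw w' hw' heq
        rw [Finset.mem_coe, Finset.mem_filter] at hw hw'
        exact hinj (Finset.mem_coe.2 hw.1) (Finset.mem_coe.2 hw'.1) heq
    exact_mod_cast hle
  set G := W.filter (fun w => F g w = s ∧ F g (rp (y w)) = s) with hG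
  have hcov : W ⊆ G ∪ (W.filter (fun w => F g w ≠ s) ∪ W.filter (fun w => F g (rp (y w)) ≠ s)) := by
    intro w hw
    simp only [hG, Finset.mem_union, Finset.mem_filter]
    by_cases h1 : F g w = s
    · by_cases h2 : F g (rp (y w)) = s
      · exact Or.inl ⟨hw, h1, h2⟩
      · exact Or.inr (Or.inr ⟨hw, h2⟩)
    · exact Or.inr (Or.inl ⟨hw, h1⟩)
  have hcard : (W.card : ℝ) ≤ G.card + ((W.filter (fun w => F g w ≠ s)).card +
      (W.filter (fun w => F g (rp (y w)) ≠ s)).card) := by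
    have h1 := (Finset.card_le_card hcov).trans (Finset.card_union_le _ _)
    have h2 := Finset.card_union_le (W.filter (fun w => F g w ≠ s))
      (W.filter (fun w => F g (rp (y w)) ≠ s))
    have h3 : W.card ≤ G.card + ((W.filter (fun w => F g w ≠ s)).card +
      (W.filter (fun w => F g (rp (y w)) ≠ s)).card) := by omega
    exact_mod_cast h3
  have hGl : kap1 / 100 * N ≤ G.card := et_ineq hk hNr hC1 hck hb1 hb2 hUl hcard
  -- the coding
  have hGm : G.card ≤ (BP 4 N 0 g (g 2) ×ˢ Finset.Icc (0 : ℤ) 1).card := by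
    refine Finset.card_le_card_of_injOn
      (fun w => (((B w (⟨2, 1⟩ * y w)).toNat, (nm w).toNat), ⌊th w⌋)) ?_ ?_
    · intro w hw
      rw [Finset.mem_coe, hG, Finset.mem_filter] at hw
      obtain ⟨hwW, hF1, hF2⟩ := hw
      obtain ⟨h1, h2, h3, h4, h5, h6⟩ := hWm w hwW
      obtain ⟨g1, g2, g3, g4, g5, g6, g7, g8⟩ := hy w h1 h2
      have hTz : TP ((⟨2, 1⟩ : ℤ√2) * y w) := hT21.mul g1.1
      have hnw := h1.1.nm_pos
      set n : ℤ := B w (⟨2, 1⟩ * y w) with hn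
      have hn2 : 2 ≤ n := by omega
      have hFz : F g ((⟨2, 1⟩ : ℤ√2) * y w) = g 2 * s := by
        have h21 : F g (⟨2, 1⟩ : ℤ√2) = g 2 := by
          unfold F
          rw [hn21]
          rfl
        have h22 : F g (y w) = s := by
          rw [← (F_inv g).rp g1.1]
          exact hF2
        rw [F_mul hg hT21 g1.1, h21, h22]
      have hgn : g (n.toNat ^ 2 - 2) = g 2 := by
        rw [hn, ← F_edge hg h1.1 hTz g3, hFz, hF1]
        rcases hs with rfl | rfl <;> ring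
      have hsq := B_sq w (⟨2, 1⟩ * y w)
      rw [g3, ← hn] at hsq
      have hdvd : (nm w).toNat ∣ n.toNat ^ 2 - 2 := by
        have h7 : ((nm w).toNat : ℤ) ∣ ((n.toNat ^ 2 - 2 : ℕ) : ℤ) := by
          have h8 : ((nm w).toNat : ℤ) = nm w := Int.toNat_of_nonneg hnw.le
          have h9 : (n.toNat : ℤ) = n := Int.toNat_of_nonneg (by omega)
          have h10 : 2 ≤ n.toNat ^ 2 := by
            have : 2 ≤ n.toNat := by omega
            nlinarith only [this]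
          rw [h8, Nat.cast_sub h10]
          push_cast
          rw [h9]
          exact ⟨nm ((⟨2, 1⟩ : ℤ√2) * y w), by linarith only [hsq]⟩
        exact_mod_cast h7
      have hnN : n ≤ N := by
        have h7 : (nm w : ℝ) * 4 < N := by rw [hY] at h6; linarith only [h6]
        have h8 : nm w * 4 < N := by exact_mod_cast h7
        omega
      have hth : th w = al w * th uu := by
        unfold al
        rw [div_mul_cancel₀ _ th_uu_pos.ne']
      have hth2 := freq_th_uu_le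
      have hthp := th_uu_pos
      have hth0 : 0 ≤ th w := by rw [hth]; positivity
      have hth1 : th w < 2 := by rw [hth]; nlinarith only [h3, h4, hth2]
      have hfl1 : ⌊th w⌋ ≤ 1 := by
        have : ⌊th w⌋ < 2 := Int.floor_lt.2 (by exact_mod_cast hth1)
        omega
      suffices hsuf : (n.toNat, (nm w).toNat) ∈ BP 4 N 0 g (g 2) from
        Finset.mem_coe.2 (Finset.mem_product.2
          ⟨hsuf, Finset.mem_Icc.2 ⟨Int.floor_nonneg.2 hth0, hfl1⟩⟩)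
      unfold BP
      rw [Finset.mem_filter, Finset.mem_product, Finset.mem_Icc, Finset.mem_Icc]
      simp only
      refine ⟨⟨⟨by omega, by omega⟩, by omega, by omega⟩, by omega, hdvd, by omega, by omega, hgn⟩
    · intro w hw w' hw' heq
      rw [Finset.mem_coe, hG, Finset.mem_filter] at hw hw'
      obtain ⟨h1, h2, -, -, -, -⟩ := hWm w hw.1
      obtain ⟨h1', h2', -, -, -, -⟩ := hWm w' hw'.1
      obtain ⟨g1, g2, g3, g4, g5, g6, g7, g8⟩ := hy w h1 h2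
      obtain ⟨g1', g2', g3', g4', g5', g6', g7', g8'⟩ := hy w' h1' h2'
      have hnw := h1.1.nm_pos
      have hnw' := h1'.1.nm_pos
      simp only [Prod.mk.injEq] at heq
      obtain ⟨⟨k1, k2⟩, k3⟩ := heq
      have k4 : B w (⟨2, 1⟩ * y w) = B w' (⟨2, 1⟩ * y w') := by omega
      have k5 : nm w = nm w' := by omega
      have k6 : |th w' - th w| < 1 := by
        have := Int.floor_le (th w)
        have := Int.lt_floor_add_one (th w)
        have := Int.floor_le (th w')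
        have := Int.lt_floor_add_one (th w')
        rw [← k3] at *
        rw [abs_lt]
        constructor <;> linarith
      exact (edge_inj h1.1 h1'.1 g3 g3' k4 k5 k6).1
  rw [Finset.card_product] at hGm
  have hIcc : (Finset.Icc (0 : ℤ) 1).card = 2 := by decide
  rw [hIcc] at hGm
  have hGm' : (G.card : ℝ) ≤ (BP 4 N 0 g (g 2)).card * 2 := by exact_mod_cast hGm
  linarith only [hGl, hGm']

end

end Pool.Agent.Lib.MP_0b748d_nt.MR
end

section

set_option autoImplicit false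

/-!
# Mean square over all frequencies, and windows
-/

namespace Pool.Agent.Lib.MP_0b748d_nt.MR

open Zsqrtd MeasureTheory

noncomputable section

/-- Proof. Let `α, δ0` be those of `final_level`; `δ = δ0 c/2` (at most `1/2`). Take `lower_levels`
with this `α`, `R`, and `ε1 = δ0 c κ₁²/64` (`κ₁ = kap1`; `N ≥ κ₁ X/2`, so
`ε1 X² ≤ (δ0 c/16) N²`), and `final_level` with `ε = δ0 c/4`. For `ℓ ≥ ℓ0`,
`K ≤ R X/ℓ ≤ X` (make `ℓ0 ≥ R`), `𝒰 ⊆ Ik K` satisfies the hypotheses of `final_level`; add the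
two sums: `1 - δ0 c + δ0 c/4 + δ0 c/16 ≤ 1 - δ0 c/2`. -/
theorem mr_main (c : ℝ) (hc : 0 < c) (hc1 : c ≤ 1) : ∃ δ : ℝ, 0 < δ ∧ δ ≤ 1 / 2 ∧ ∀ R : ℝ, 1 ≤ R →
    ∃ ℓ0 : ℝ, 1 ≤ ℓ0 ∧ ∀ ℓ : ℝ, ℓ0 ≤ ℓ → ∃ X0 : ℝ, 2 ≤ X0 ∧ ∀ X : ℝ, X0 ≤ X → ∀ g : ℕ → ℤ, CO g →
    ‖Ap (fg g) 0 X (2 * X)‖ ^ 2 ≤ (1 - c) * ((Us X (2 * X)).card : ℝ) ^ 2 →
    ∀ K : ℕ, (K : ℝ) ≤ R * X / ℓ → ∑ k ∈ Ik K, ‖Ap (fg g) k X (2 * X)‖ ^ 2 ≤
      (1 - δ) * ((Us X (2 * X)).card : ℝ) ^ 2 := by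
  classical
  obtain ⟨α, δ0, hα, hα1, hδ0, hδ1, hfin⟩ := final_level
  have hκ := kap1_pos
  obtain ⟨X1, hX1, hfin⟩ := hfin c (δ0 * c / 4) hc hc1 (by positivity)
  obtain ⟨X2, hX2, hU⟩ := U_dyadic
  refine ⟨δ0 * c / 2, by positivity, by nlinarith, ?_⟩
  intro R hR
  obtain ⟨ℓ1, hℓ1, hlow⟩ := lower_levels α R (δ0 * c * kap1 ^ 2 / 64) hα hα1 hR (by positivity)
  refine ⟨max ℓ1 R, hℓ1.trans (le_max_left _ _), ?_⟩
  intro ℓ hℓ
  obtain ⟨X3, hX3, hlow⟩ := hlow ℓ ((le_max_left _ _).trans hℓ)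
  have hℓR : R ≤ ℓ := (le_max_right _ _).trans hℓ
  have hℓ0 : 0 < ℓ := by linarith
  refine ⟨max X1 (max X2 X3), hX1.trans (le_max_left _ _), ?_⟩
  intro X hX g hg h0 K hK
  simp only [max_le_iff] at hX
  obtain ⟨hx1, hx2, hx3⟩ := hX
  have hX0 : 0 < X := by linarith
  obtain ⟨𝒰, h𝒰, hcard, hsum⟩ := hlow X hx3 (fg g) (MF_fg hg) K hK
  have hKX : (K : ℝ) ≤ X := by
    refine hK.trans ?_
    rw [div_le_iff₀ hℓ0]
    nlinarith
  set N : ℝ := ((Us X (2 * X)).card : ℝ) with hN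
  have hNlow : kap1 / 2 * X ≤ N := (hU X hx2).1
  have h1 := hfin X hx1 g hg h0 𝒰 (by
    intro k hk
    have h2 := h𝒰 hk
    rw [Ik, Finset.mem_Icc] at h2
    have h3 : |k| ≤ (K : ℤ) := abs_le.2 h2
    have h4 : (|k| : ℝ) ≤ (K : ℝ) := by exact_mod_cast h3
    exact h4.trans hKX) hcard
  have h2 : ∑ k ∈ Ik K, ‖Ap (fg g) k X (2 * X)‖ ^ 2 =
      ∑ k ∈ Ik K \ 𝒰, ‖Ap (fg g) k X (2 * X)‖ ^ 2 + ∑ k ∈ 𝒰, ‖Ap (fg g) k X (2 * X)‖ ^ 2 :=
    (Finset.sum_sdiff h𝒰).symm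
  have h3 : δ0 * c * kap1 ^ 2 / 64 * X ^ 2 ≤ δ0 * c / 16 * N ^ 2 := by
    have h4 : (kap1 / 2 * X) ^ 2 ≤ N ^ 2 := by gcongr
    have h5 : δ0 * c * kap1 ^ 2 / 64 * X ^ 2 = δ0 * c / 16 * (kap1 / 2 * X) ^ 2 := by ring
    rw [h5]
    gcongr
  rw [h2]
  have h4 : 0 ≤ δ0 * c * N ^ 2 := by positivity
  have h5 : (1 - δ0 * c + δ0 * c / 4) * N ^ 2 = N ^ 2 - 3 / 4 * (δ0 * c * N ^ 2) := by ring
  have h6 : (1 - δ0 * c / 2) * N ^ 2 = N ^ 2 - 1 / 2 * (δ0 * c * N ^ 2) := by ring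
  have h7 : δ0 * c / 16 * N ^ 2 = 1 / 16 * (δ0 * c * N ^ 2) := by ring
  rw [h5] at h1
  rw [h6]
  rw [h7] at h3
  linarith

end

end Pool.Agent.Lib.MP_0b748d_nt.MR
end

section

set_option autoImplicit false

/-!
# Mean square over all frequencies, and windows
-/

namespace Pool.Agent.Lib.MP_0b748d_nt.MR

open Zsqrtd MeasureTheory

noncomputable section

lemma ii_of_bounded {f : ℝ → ℝ} (hf : Measurable f) (M : ℝ) (hM : ∀ x, |f x| ≤ M) (a b : ℝ) :
    IntervalIntegrable f volume a b := by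
  constructor
  · exact Measure.integrableOn_of_bounded (M := M) (measure_Ioc_lt_top).ne
      hf.aestronglyMeasurable (Filter.Eventually.of_forall fun x => by
        rw [Real.norm_eq_abs]; exact hM x)
  · exact Measure.integrableOn_of_bounded (M := M) (measure_Ioc_lt_top).ne
      hf.aestronglyMeasurable (Filter.Eventually.of_forall fun x => by
        rw [Real.norm_eq_abs]; exact hM x)

open Classical in
/-- the sum of `b` over a window -/
def WS (T : Finset (ℤ√2)) (h : ℝ) (b : ℤ√2 → ℝ) (θ : ℝ) : ℝ :=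
  ∑ z ∈ T.filter (Win θ h), b z

lemma measurableSet_Win (h : ℝ) (z : ℤ√2) : MeasurableSet {θ : ℝ | Win θ h z} := by
  unfold Win
  exact measurableSet_lt (measurable_fract.comp (measurable_const.sub measurable_id))
    measurable_const

lemma measurable_WS (T : Finset (ℤ√2)) (h : ℝ) (b : ℤ√2 → ℝ) : Measurable (WS T h b) := by
  classical
  have : WS T h b = fun θ => ∑ z ∈ T, if Win θ h z then b z else 0 := by
    ext θ
    rw [WS, Finset.sum_filter]
  rw [this]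
  refine Finset.measurable_sum _ fun z _ => ?_
  exact Measurable.ite (measurableSet_Win h z) measurable_const measurable_const

lemma abs_WS_le (T : Finset (ℤ√2)) (h : ℝ) (b : ℤ√2 → ℝ) (θ : ℝ) :
    |WS T h b θ| ≤ ∑ z ∈ T, |b z| := by
  classical
  rw [WS]
  refine (Finset.abs_sum_le_sum_abs _ _).trans ?_
  exact Finset.sum_le_sum_of_subset_of_nonneg (Finset.filter_subset _ _)
    fun _ _ _ => abs_nonneg _

lemma ii_WS_sq (T : Finset (ℤ√2)) (h : ℝ) (b : ℤ√2 → ℝ) (x y : ℝ) :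
    IntervalIntegrable (fun θ => WS T h b θ ^ 2) volume x y := by
  refine ii_of_bounded ((measurable_WS T h b).pow_const 2) ((∑ z ∈ T, |b z|) ^ 2) ?_ x y
  intro θ
  rw [abs_pow]
  exact pow_le_pow_left₀ (abs_nonneg _) (abs_WS_le T h b θ) 2

lemma ii_WS (T : Finset (ℤ√2)) (h : ℝ) (b : ℤ√2 → ℝ) (x y : ℝ) :
    IntervalIntegrable (WS T h b) volume x y :=
  ii_of_bounded (measurable_WS T h b) (∑ z ∈ T, |b z|) (abs_WS_le T h b) x y

lemma cs_WS (T : Finset (ℤ√2)) (h : ℝ) (b : ℤ√2 → ℝ) :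
    (∫ θ in (0 : ℝ)..1, WS T h b θ) ^ 2 ≤ ∫ θ in (0 : ℝ)..1, WS T h b θ ^ 2 := by
  set μ := ∫ θ in (0 : ℝ)..1, WS T h b θ with hμ
  have h1 : 0 ≤ ∫ θ in (0 : ℝ)..1, (WS T h b θ - μ) ^ 2 :=
    intervalIntegral.integral_nonneg zero_le_one fun θ _ => sq_nonneg _
  have h2 : ∫ θ in (0 : ℝ)..1, (WS T h b θ - μ) ^ 2
      = (∫ θ in (0 : ℝ)..1, WS T h b θ ^ 2) - 2 * μ * μ + μ ^ 2 := by
    have e : ∀ θ, (WS T h b θ - μ) ^ 2 = (WS T h b θ ^ 2 - 2 * μ * WS T h b θ) + μ ^ 2 := by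
      intro θ; ring
    simp_rw [e]
    rw [intervalIntegral.integral_add
      ((ii_WS_sq T h b 0 1).sub ((ii_WS T h b 0 1).const_mul _)) intervalIntegrable_const,
      intervalIntegral.integral_sub (ii_WS_sq T h b 0 1) ((ii_WS T h b 0 1).const_mul _),
      intervalIntegral.integral_const_mul, ← hμ]
    simp
  rw [h2] at h1
  linarith [h1]

/-- a positive proportion of the windows of length `ℓ/X` is not constant.

Proof. Let `δ` be that of `mr_main`, `C` that of `window_bound`, `κ₁ = kap1`, `R` with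
`C (4/R) ≤ δ κ₁²/16` and `C 4/R² ≤ δ κ₁²/32` (then also `C 2/(R ℓ) ≤ δ κ₁²/32` for `ℓ ≥ 1`),
`ℓ = ℓ0(R)`. For large `X` put `h = ℓ/X ≤ 1`, `K = ⌊R X/ℓ⌋ ≥ R X/(2ℓ) ≥ 1`, `N = #Us X 2X
≥ κ₁ X/2`, `a z = F g z` (so `a z = fg g z`). By `window_bound` and `mr_main`
`∫ (∑_{Win} F g z)² dθ ≤ h² (1-δ) N² + C (1/K + X/K²) X
≤ h²(1-δ) N² + C (2ℓ/R + 4ℓ²/R²) ≤ h² (1 - δ/2) N²`, as `h² N² ≥ κ₁² ℓ²/4`. By `window_mean`
and Cauchy-Schwarz on `[0,1]`, `∫ #² ≥ (∫ #)² = h² N²`, `# = #(Us ∩ Win θ)`. So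
`∫ (#² - (∑ F g)²) ≥ (δ/2) h² N² ≥ (δ/8) κ₁² ℓ²`. The integrand vanishes for a constant window and
is at most `#² ≤ (C' (ℓ + 1))² ≤ 4 C'² ℓ²` (`window_card`). So the measure of the set of `θ` with a
nonconstant window is at least `δ κ₁²/(32 C'²) = δ'`. (The functions of `θ` are simple functions:
`Int.fract (al z - θ) < h` is measurable in `θ`.) -/
theorem win_meas (c : ℝ) (hc : 0 < c) (hc1 : c ≤ 1) : ∃ δ' ℓ X0 : ℝ, 0 < δ' ∧ 1 ≤ ℓ ∧ 2 ≤ X0 ∧
    ∀ X : ℝ, X0 ≤ X → ∀ g : ℕ → ℤ, CO g →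
    ‖Ap (fg g) 0 X (2 * X)‖ ^ 2 ≤ (1 - c) * ((Us X (2 * X)).card : ℝ) ^ 2 →
    ENNReal.ofReal δ' ≤ volume {θ : ℝ | θ ∈ Set.Icc (0 : ℝ) 1 ∧ ∃ z ∈ Us X (2 * X),
      ∃ z' ∈ Us X (2 * X), Win θ (ℓ / X) z ∧ Win θ (ℓ / X) z' ∧ F g z ≠ F g z'} := by
  classical
  obtain ⟨δ, hδ, hδ1, H⟩ := mr_main c hc hc1
  obtain ⟨C, hC, HB⟩ := window_bound
  obtain ⟨C', hC', HC⟩ := window_card
  obtain ⟨X1, hX1, HU⟩ := U_dyadic
  have hκ := kap1_pos
  set κ := kap1 with hκd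
  set R : ℝ := 1 + 48 * C / (δ * κ ^ 2) with hR
  have hδκ : 0 < δ * κ ^ 2 := by positivity
  have hR1 : 1 ≤ R := by
    have : 0 ≤ 48 * C / (δ * κ ^ 2) := by positivity
    linarith
  have hRC : 48 * C ≤ R * (δ * κ ^ 2) := by
    rw [hR, add_mul, div_mul_cancel₀ _ hδκ.ne']
    linarith
  obtain ⟨ℓ, hℓ, HL⟩ := H R hR1
  obtain ⟨X2, hX2, HX⟩ := HL ℓ le_rfl
  refine ⟨δ * κ ^ 2 / (32 * C' ^ 2), ℓ, max (max X1 X2) ℓ, by positivity, hℓ,
    le_max_of_le_left (le_max_of_le_right hX2), ?_⟩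
  intro X hX g hg hA
  have hXX1 : X1 ≤ X := (le_max_left _ _).trans ((le_max_left _ _).trans hX)
  have hXX2 : X2 ≤ X := (le_max_right _ _).trans ((le_max_left _ _).trans hX)
  have hXℓ : ℓ ≤ X := (le_max_right _ _).trans hX
  have hX0 : 1 ≤ X := hℓ.trans hXℓ
  have hXpos : 0 < X := by linarith
  have hℓpos : 0 < ℓ := by linarith
  set h : ℝ := ℓ / X with hh
  have hh0 : 0 < h := by positivity
  have hh1 : h ≤ 1 := by
    rw [hh, div_le_one hXpos]
    exact hXℓ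
  set U := Us X (2 * X) with hU
  set N : ℝ := (U.card : ℝ) with hN
  set K : ℕ := ⌊R * X / ℓ⌋₊ with hK
  have hq1 : 1 ≤ R * X / ℓ := by
    rw [le_div_iff₀ hℓpos, one_mul]
    exact hXℓ.trans (le_mul_of_one_le_left hXpos.le hR1)
  have hKle : (K : ℝ) ≤ R * X / ℓ := Nat.floor_le (by positivity)
  have hK1 : 1 ≤ K := by
    rw [hK, Nat.one_le_floor_iff]
    exact hq1
  have hKge : R * X / (2 * ℓ) ≤ K := by
    have h1 : R * X / ℓ < K + 1 := Nat.lt_floor_add_one _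
    have h2 : (1 : ℝ) ≤ K := by exact_mod_cast hK1
    have h3 : R * X / (2 * ℓ) = (R * X / ℓ) / 2 := by
      rw [mul_comm 2 ℓ, div_mul_eq_div_div]
    rw [h3]
    linarith only [h1, h2]
  have hNge : κ / 2 * X ≤ N := (HU X hXX1).1
  -- the sign function
  set a : ℤ√2 → ℝ := fun z => if |((F g z : ℤ) : ℝ)| ≤ 1 then ((F g z : ℤ) : ℝ) else 0 with ha
  have ha1 : ∀ z, |a z| ≤ 1 := by
    intro z
    simp only [ha]
    split_ifs with hz
    · exact hz
    · simp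
  have hodd : ∀ z ∈ U, F g z = 1 ∨ F g z = -1 := by
    intro z hz
    rw [hU, Us, Finset.mem_filter, Vs, Finset.mem_filter] at hz
    obtain ⟨⟨_, ⟨hTP, hre⟩, _⟩, _⟩ := hz
    refine hg.val _ ?_
    have hpos := hTP.nm_pos
    have hnm : nm z % 2 = 1 := by
      have e : nm z = z.re * z.re - 2 * (z.im * z.im) := by
        simp only [nm]
        ring
      rw [e]
      have h1 : z.re * z.re % 2 = 1 := by
        rw [Int.mul_emod, hre]
        norm_num
      omega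
    omega
  have haF : ∀ z ∈ U, a z = ((F g z : ℤ) : ℝ) := by
    intro z hz
    simp only [ha]
    rcases hodd z hz with h1 | h1 <;> simp [h1]
  have hB := HB X K a h hX0 hK1 ha1 hh0 hh1
  have hM := HX X hXX2 g hg hA K hKle
  have hsum : ∑ k ∈ Ik K, ‖∑ z ∈ Us X (2 * X), (a z : ℂ) * xi k z‖ ^ 2
      = ∑ k ∈ Ik K, ‖Ap (fg g) k X (2 * X)‖ ^ 2 := by
    refine Finset.sum_congr rfl fun k _ => ?_
    congr 2
    rw [Ap]
    refine Finset.sum_congr rfl fun z hz => ?_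
    rw [haF z hz, fg]
    push_cast
    rfl
  rw [hsum] at hB
  change ∫ θ in (0 : ℝ)..1, WS U h a θ ^ 2 ≤ _ at hB
  have hKpos : (0 : ℝ) < K := by exact_mod_cast hK1
  have hRpos : 0 < R := by linarith only [hR1]
  have herr : C * (1 / K + X / K ^ 2) * X ≤ δ * κ ^ 2 * ℓ ^ 2 / 8 := by
    have hlow : 0 < R * X / (2 * ℓ) := by positivity
    have e1 : 1 / (K : ℝ) ≤ 2 * ℓ / (R * X) := by
      rw [div_le_div_iff₀ hKpos (by positivity)]
      rw [div_le_iff₀ (by positivity)] at hKge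
      linarith only [hKge]
    have e2 : X / (K : ℝ) ^ 2 ≤ X * (2 * ℓ / (R * X)) ^ 2 := by
      have : (1 / (K : ℝ)) ^ 2 ≤ (2 * ℓ / (R * X)) ^ 2 :=
        pow_le_pow_left₀ (by positivity) e1 2
      calc X / (K : ℝ) ^ 2 = X * (1 / (K : ℝ)) ^ 2 := by
            rw [one_div, inv_pow]; rfl
        _ ≤ _ := mul_le_mul_of_nonneg_left this hXpos.le
    have e3 : (1 / (K : ℝ) + X / K ^ 2) * X ≤ 6 * ℓ ^ 2 / R := by
      have e4 : (1 / (K : ℝ) + X / K ^ 2) * X ≤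
          (2 * ℓ / (R * X) + X * (2 * ℓ / (R * X)) ^ 2) * X :=
        mul_le_mul_of_nonneg_right (add_le_add e1 e2) hXpos.le
      refine e4.trans ?_
      have e5 : (2 * ℓ / (R * X) + X * (2 * ℓ / (R * X)) ^ 2) * X
          = (2 * ℓ * R + 4 * ℓ ^ 2) / R ^ 2 := by
        field_simp
        ring
      rw [e5, div_le_div_iff₀ (by positivity) hRpos]
      have e6 : 2 * ℓ * R + 4 * ℓ ^ 2 ≤ 6 * ℓ ^ 2 * R := by
        have : ℓ * R ≤ ℓ ^ 2 * R := by
          have : ℓ ≤ ℓ ^ 2 := le_self_pow₀ hℓ two_ne_zero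
          exact mul_le_mul_of_nonneg_right this hRpos.le
        have : ℓ ^ 2 ≤ ℓ ^ 2 * R := le_mul_of_one_le_right (by positivity) hR1
        linarith
      calc (2 * ℓ * R + 4 * ℓ ^ 2) * R ≤ (6 * ℓ ^ 2 * R) * R :=
            mul_le_mul_of_nonneg_right e6 hRpos.le
        _ = 6 * ℓ ^ 2 * R ^ 2 := by ring
    calc C * (1 / K + X / K ^ 2) * X = C * ((1 / K + X / K ^ 2) * X) := by ring
      _ ≤ C * (6 * ℓ ^ 2 / R) := mul_le_mul_of_nonneg_left e3 (by linarith only [hC])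
      _ ≤ δ * κ ^ 2 * ℓ ^ 2 / 8 := by
        rw [mul_div_assoc', div_le_div_iff₀ hRpos (by norm_num)]
        have : 48 * C * ℓ ^ 2 ≤ R * (δ * κ ^ 2) * ℓ ^ 2 :=
          mul_le_mul_of_nonneg_right hRC (by positivity)
        linarith only [this]
  have hhN : κ ^ 2 * ℓ ^ 2 / 4 ≤ h ^ 2 * N ^ 2 := by
    have e1 : κ / 2 * ℓ ≤ h * N := by
      have : h * (κ / 2 * X) ≤ h * N := mul_le_mul_of_nonneg_left hNge hh0.le
      have e2 : h * (κ / 2 * X) = κ / 2 * ℓ := by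
        rw [hh]
        field_simp
      linarith only [this, e2]
    have e3 : (κ / 2 * ℓ) ^ 2 ≤ (h * N) ^ 2 := pow_le_pow_left₀ (by positivity) e1 2
    linarith only [e3]
  have hI1 : ∫ θ in (0 : ℝ)..1, WS U h a θ ^ 2 ≤ (1 - δ / 2) * (h ^ 2 * N ^ 2) := by
    have e1 : h ^ 2 * ∑ k ∈ Ik K, ‖Ap (fg g) k X (2 * X)‖ ^ 2 ≤ h ^ 2 * ((1 - δ) * N ^ 2) :=
      mul_le_mul_of_nonneg_left hM (by positivity)
    have e2 : δ * κ ^ 2 * ℓ ^ 2 / 8 ≤ δ / 2 * (h ^ 2 * N ^ 2) := by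
      have := mul_le_mul_of_nonneg_left hhN (by positivity : (0 : ℝ) ≤ δ / 2)
      linarith only [this]
    linarith only [hB, herr, e1, e2]
  -- the counting function
  have hcnt : ∀ θ, WS U h (fun _ => 1) θ = ((U.filter (Win θ h)).card : ℝ) := by
    intro θ
    simp [WS]
  have hI2 : h ^ 2 * N ^ 2 ≤ ∫ θ in (0 : ℝ)..1, WS U h (fun _ => 1) θ ^ 2 := by
    have e1 := cs_WS U h (fun _ => 1)
    have e2 : ∫ θ in (0 : ℝ)..1, WS U h (fun _ => 1) θ = h * N := by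
      simp_rw [hcnt]
      exact window_mean U h hh0 hh1
    rw [e2] at e1
    linarith only [e1]
  set S : Set ℝ := {θ : ℝ | θ ∈ Set.Icc (0 : ℝ) 1 ∧ ∃ z ∈ U,
      ∃ z' ∈ U, Win θ h z ∧ Win θ h z' ∧ F g z ≠ F g z'} with hS
  have hSm : MeasurableSet S := by
    have : S = Set.Icc (0 : ℝ) 1 ∩ ⋃ z ∈ U, ⋃ z' ∈ U,
        ({θ : ℝ | Win θ h z} ∩ ({θ : ℝ | Win θ h z'} ∩ {θ : ℝ | F g z ≠ F g z'})) := by
      ext θ
      simp only [hS, Set.mem_ofPred_eq, Set.mem_inter_iff, Set.mem_iUnion, exists_prop]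
    rw [this]
    refine measurableSet_Icc.inter ?_
    refine Finset.measurableSet_biUnion _ fun z _ => ?_
    refine Finset.measurableSet_biUnion _ fun z' _ => ?_
    exact (measurableSet_Win h z).inter ((measurableSet_Win h z').inter (MeasurableSet.const _))
  have hSfin : volume S ≠ ⊤ := by
    refine ne_top_of_le_ne_top (b := volume (Set.Icc (0 : ℝ) 1)) (by simp) (measure_mono ?_)
    intro θ hθ
    exact hθ.1
  set M : ℝ := 4 * C' ^ 2 * ℓ ^ 2 with hM'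
  have hMpos : 0 < M := by positivity
  have hpt : ∀ θ ∈ Set.Ioc (0 : ℝ) 1, WS U h (fun _ => 1) θ ^ 2 - WS U h a θ ^ 2
      ≤ S.indicator (fun _ => M) θ := by
    intro θ hθ
    by_cases hθS : θ ∈ S
    · rw [Set.indicator_of_mem hθS]
      have e1 : WS U h (fun _ => 1) θ ≤ C' * (h * X + 1) := by
        rw [hcnt]
        exact HC X h θ hX0 hh0 hh1
      have e2 : h * X = ℓ := by
        rw [hh]
        field_simp
      rw [e2] at e1
      have e3 : 0 ≤ WS U h (fun _ => 1) θ := by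
        rw [hcnt]
        positivity
      have e4 : C' * (ℓ + 1) ≤ 2 * C' * ℓ := by
        have := mul_le_mul_of_nonneg_left hℓ (zero_le_one.trans hC')
        linarith only [this]
      have e5 : WS U h (fun _ => 1) θ ^ 2 ≤ (2 * C' * ℓ) ^ 2 :=
        pow_le_pow_left₀ e3 (e1.trans e4) 2
      have e6 : 0 ≤ WS U h a θ ^ 2 := sq_nonneg _
      rw [hM']
      linarith only [e5, e6]
    · rw [Set.indicator_of_notMem hθS]
      have hconst : ∀ z ∈ U, ∀ z' ∈ U, Win θ h z → Win θ h z' → F g z = F g z' := by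
        intro z hz z' hz' h1 h2
        by_contra hne
        exact hθS ⟨⟨hθ.1.le, hθ.2⟩, z, hz, z', hz', h1, h2, hne⟩
      have key : WS U h a θ ^ 2 = WS U h (fun _ => 1) θ ^ 2 := by
        rcases (U.filter (Win θ h)).eq_empty_or_nonempty with he | ⟨z0, hz0⟩
        · simp [WS, he]
        · rw [Finset.mem_filter] at hz0
          have e1 : WS U h a θ = ((F g z0 : ℤ) : ℝ) * WS U h (fun _ => 1) θ := by
            rw [WS, WS, Finset.mul_sum]
            refine Finset.sum_congr rfl fun z hz => ?_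
            rw [Finset.mem_filter] at hz
            rw [haF z hz.1, hconst z hz.1 z0 hz0.1 hz.2 hz0.2, mul_one]
          rw [e1, mul_pow]
          rcases hodd z0 hz0.1 with h1 | h1 <;> simp [h1]
      rw [key, sub_self]
  have hint : (δ / 2) * (h ^ 2 * N ^ 2) ≤ M * (volume S).toReal := by
    have e1 : (δ / 2) * (h ^ 2 * N ^ 2) ≤
        ∫ θ in (0 : ℝ)..1, (WS U h (fun _ => 1) θ ^ 2 - WS U h a θ ^ 2) := by
      rw [intervalIntegral.integral_sub (ii_WS_sq _ _ _ _ _) (ii_WS_sq _ _ _ _ _)]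
      linarith only [hI1, hI2]
    refine e1.trans ?_
    rw [intervalIntegral.integral_of_le zero_le_one]
    have e2 : ∫ θ in Set.Ioc (0 : ℝ) 1, (WS U h (fun _ => 1) θ ^ 2 - WS U h a θ ^ 2)
        ≤ ∫ θ in Set.Ioc (0 : ℝ) 1, S.indicator (fun _ => M) θ := by
      refine setIntegral_mono_on ?_ ?_ measurableSet_Ioc hpt
      · exact ((ii_WS_sq U h (fun _ => 1) 0 1).sub (ii_WS_sq U h a 0 1)).1
      · exact (integrableOn_const (measure_Ioc_lt_top).ne).indicator hSm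
    refine e2.trans ?_
    rw [integral_indicator hSm, Measure.restrict_restrict hSm, setIntegral_const, smul_eq_mul,
      mul_comm]
    refine mul_le_mul_of_nonneg_left ?_ hMpos.le
    rw [Measure.real]
    exact ENNReal.toReal_mono hSfin (measure_mono Set.inter_subset_left)
  rw [ENNReal.ofReal_le_iff_le_toReal hSfin]
  have e2 : δ * κ ^ 2 * ℓ ^ 2 / 8 ≤ δ / 2 * (h ^ 2 * N ^ 2) := by
    have := mul_le_mul_of_nonneg_left hhN (by positivity : (0 : ℝ) ≤ δ / 2)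
    linarith only [this]
  have e3 : δ * κ ^ 2 * ℓ ^ 2 / 8 ≤ 4 * C' ^ 2 * ℓ ^ 2 * (volume S).toReal := by
    rw [← hM']
    linarith only [hint, e2]
  rw [div_le_iff₀ (by positivity)]
  have hℓ2 : 0 < ℓ ^ 2 := by positivity
  have e4 : (δ * κ ^ 2) * ℓ ^ 2 ≤ ((volume S).toReal * (32 * C' ^ 2)) * ℓ ^ 2 := by linarith only [e3]
  exact le_of_mul_le_mul_right e4 hℓ2

end

end Pool.Agent.Lib.MP_0b748d_nt.MR
end

section

set_option autoImplicit false

/-!
# Many odd balanced pairs with sign `-1`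
-/

namespace Pool.Agent.Lib.MP_0b748d_nt.MR

open Zsqrtd MeasureTheory

noncomputable section

/-- a window contains an element whose translate has its angle in the window -/
private theorem negOdd_win {θ h' : ℝ} {z : ℤ√2} (hz : OT z) (hw : Win θ h' z) :
    θ * th uu ≤ th (un (-⌊al z - θ⌋) * z) ∧
      th (un (-⌊al z - θ⌋) * z) < (θ + h') * th uu := by
  have hp := th_uu_pos
  have h1 : al (un (-⌊al z - θ⌋) * z) = θ + Int.fract (al z - θ) := by
    rw [al_un hz.1, Int.fract]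
    push_cast
    ring
  have h2 : th (un (-⌊al z - θ⌋) * z) = al (un (-⌊al z - θ⌋) * z) * th uu := by
    unfold al
    field_simp
  rw [h2, h1]
  have h3 := Int.fract_nonneg (al z - θ)
  have h4 : Int.fract (al z - θ) < h' := hw
  constructor
  · exact mul_le_mul_of_nonneg_right (by linarith) hp.le
  · exact mul_lt_mul_of_pos_right (by linarith) hp

private theorem negOdd_B {x y : ℤ√2} (hx : OT x) (hy : OT y) : B x y % 2 = 1 := by
  have h1 := hx.2
  have h2 := hy.2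
  unfold B
  have h3 : x.re * y.re % 2 = 1 := by
    rw [Int.mul_emod, h1, h2]
    norm_num
  have h4 : 2 * x.im * y.im = 2 * (x.im * y.im) := by ring
  rw [h4]
  omega

/-- from one edge to a balanced pair -/
private theorem negOdd_pair {g : ℕ → ℤ} (hg : CO g) {x y : ℤ√2} (hx : OT x) (hy : OT y)
    (hdet : det x y = 1) (hF : F g x * F g y = -1) {D N : ℕ} (_hD : 1 ≤ D)
    (hB : B x y ≤ N) (h1 : (N : ℤ) ≤ D * nm x) (h2 : (N : ℤ) ≤ D * nm y) :
    ((B x y).toNat, (nm x).toNat) ∈ BP D N 1 g (-1) := by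
  have hB2 := B_edge_ge hx.1 hy.1 hdet
  have hodd := negOdd_B hx hy
  have hnx := hx.1.nm_pos
  have hny := hy.1.nm_pos
  have hsq := B_sq x y
  rw [hdet] at hsq
  obtain ⟨n, hn⟩ : ∃ n : ℕ, (n : ℤ) = B x y := ⟨(B x y).toNat, by omega⟩
  obtain ⟨d, hd⟩ : ∃ d : ℕ, (d : ℤ) = nm x := ⟨(nm x).toNat, by omega⟩
  obtain ⟨e, he⟩ : ∃ e : ℕ, (e : ℤ) = nm y := ⟨(nm y).toNat, by omega⟩
  have e1 : (B x y).toNat = n := by omega
  have e2 : (nm x).toNat = d := by omega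
  have e3 : (nm y).toNat = e := by omega
  rw [e1, e2]
  rw [← hn] at hB2 hodd hsq hB
  rw [← hd] at hnx hsq h1
  rw [← he] at hny hsq h2
  have hde : d * e + 2 = n ^ 2 := by
    have : ((d * e + 2 : ℕ) : ℤ) = ((n ^ 2 : ℕ) : ℤ) := by
      push_cast
      linarith
    exact_mod_cast this
  have hde' : n ^ 2 - 2 = d * e := by omega
  have hnN : n ≤ N := by exact_mod_cast hB
  have h1' : N ≤ D * d := by exact_mod_cast h1
  have h2' : N ≤ D * e := by exact_mod_cast h2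
  have hd1 : 1 ≤ d := by omega
  have he1 : 1 ≤ e := by omega
  have hn2 : 2 ≤ n := by omega
  have hdn : d ≤ D * n := by
    have h5 : d * n ≤ (D * n) * n := by
      calc d * n ≤ d * (D * e) := Nat.mul_le_mul_left _ (hnN.trans h2')
        _ = D * (d * e) := by ring
        _ ≤ D * n ^ 2 := Nat.mul_le_mul_left _ (by omega)
        _ = (D * n) * n := by ring
    exact Nat.le_of_mul_le_mul_right h5 (by omega)
  simp only [BP, Finset.mem_filter, Finset.mem_product, Finset.mem_Icc]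
  refine ⟨⟨⟨hn2, hnN⟩, hd1, hdn.trans (Nat.mul_le_mul_left _ hnN)⟩, by omega,
    ⟨e, hde'⟩, hnN.trans h1', hdn, ?_⟩
  rw [hde']
  have hod : d % 2 = 1 := by
    have := nm_odd hx.2
    omega
  have hoe : e % 2 = 1 := by
    have := nm_odd hy.2
    omega
  rw [hg.mul d e hod hoe, ← hF, F, F, e2, e3]

/-- many odd balanced pairs with sign `-1`.

Proof. Let `δ', ℓ, X0` be those of `win_meas c`, `C` that of `bad_dirs`. Put `ε = min (1/2)
(δ'/(4C))`, `κ = ε³ δ'/(16 C ℓ)` (`κ ≤ 1`), and for large `X`, `K = ⌊κ X⌋ ≥ 2`, `K ≥ κX/2`,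
`h = (ℓ/X) th uu ≤ 2ℓ/X`. The bad directions have measure
`≤ C ε + C (2ℓ/X) κX/ε³ ≤ δ'/4 + δ'/8 ≤ δ'/2`. Let `S` be the set of good `φ = θ th uu`, `θ ∈ [0,1]`
with a nonconstant window; the set of all such `φ` (good or not) has measure
`th uu * vol{θ} ≥ δ'` (scaling; `th uu ≥ 1`), so `vol S ≥ δ'/2` (subadditivity of outer measure).
Let `φ ∈ S`, `(a, b)` the edge of `GoodDir`, and `z, z' ∈ Us X 2X` with `F z ≠ F z'` and
`fract(al z - θ) < ℓ/X`. Put `z1 = un (-⌊al z - θ⌋) * z`: `al z1 ∈ [θ, θ + ℓ/X)`, so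
`th z1 ∈ [φ, φ + h)`, strictly between `th a` and `th b`; same for `z'`; `F`, `nm`, `OT`, `Prim` are
unchanged. `cone_win` with `H = ⌊2X⌋`, `m = ⌈εK⌉` gives `(x, y)` with
`|th x - φ| ≤ th b - th a ≤ 5/B a b ≤ 5/K`, `n = B x y ≤ 2X ≤ N`, `n` odd, `n ≥ 2`
(`B_edge_ge`), `d = nm x`, `e = nm y`, `d e = n² - 2` (`B_sq`), `d, e ≥ εK ≥ εκX/2 ≥ N/D` if
`D ≥ 128/(εκ)` (`N ≤ 64X`). So `n ≤ N ≤ D d` and `d = (n²-2)/e ≤ n N D/N = D n`, also
`d ≤ D N`. `g(n²-2) = g(d e) = F x F y = -1`. So `(n, d) ∈ BP D N 1 g (-1)` and `pairs_lower`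
(`K`, `μ = δ'/2`, `S ⊆ [0, 2]`) gives `#BP ≥ δ' K/300 ≥ δ' κ X/600 ≥ c' N`. -/
theorem neg_odd (c : ℝ) (hc : 0 < c) (hc1 : c ≤ 1) : ∃ (c' X0 : ℝ) (D : ℕ), 0 < c' ∧ 1 ≤ D ∧
    ∀ X : ℝ, X0 ≤ X → ∀ N : ℕ, 2 * X ≤ N → (N : ℝ) ≤ 64 * X → ∀ g : ℕ → ℤ, CO g → Hyp g c X →
    c' * N ≤ ((BP D N 1 g (-1)).card : ℝ) := by
  obtain ⟨δ, l, X0, hδ, hl, hX0, hwin⟩ := win_meas c hc hc1
  obtain ⟨C, hC, hbad⟩ := bad_dirs
  obtain ⟨ε, hε⟩ : ∃ ε : ℝ, ε = min (1 / 2) (δ / (4 * C)) := ⟨_, rfl⟩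
  have hε0 : 0 < ε := by rw [hε]; positivity
  have hε2 : ε ≤ 1 / 2 := by rw [hε]; exact min_le_left _ _
  have hεC : C * ε ≤ δ / 4 := by
    have h1 : ε ≤ δ / (4 * C) := by rw [hε]; exact min_le_right _ _
    calc C * ε ≤ C * (δ / (4 * C)) := mul_le_mul_of_nonneg_left h1 (by linarith)
      _ = δ / 4 := by field_simp
  obtain ⟨κ, hκ⟩ : ∃ κ : ℝ, κ = ε ^ 3 * δ / (16 * C * l) := ⟨_, rfl⟩
  have hκ0 : 0 < κ := by rw [hκ]; positivity
  obtain ⟨D, hD⟩ : ∃ D : ℕ, D = ⌈128 / (ε * κ)⌉₊ := ⟨_, rfl⟩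
  have hD0 : 128 / (ε * κ) ≤ D := by rw [hD]; exact Nat.le_ceil _
  have hD1 : 1 ≤ D := by
    rw [hD, Nat.one_le_ceil_iff]
    positivity
  refine ⟨δ * κ / 38400, max X0 (max (2 * l) (2 / κ)), D, by positivity, hD1, ?_⟩
  intro X hX N hN1 hN2 g hg hH
  have hX1 : X0 ≤ X := (le_max_left _ _).trans hX
  have hX2 : 2 * l ≤ X := ((le_max_left _ _).trans (le_max_right _ _)).trans hX
  have hX3 : 2 / κ ≤ X := ((le_max_right _ _).trans (le_max_right _ _)).trans hX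
  have hXpos : 0 < X := by linarith
  have hκX : 2 ≤ κ * X := by
    rw [div_le_iff₀ hκ0] at hX3
    linarith
  obtain ⟨K, hK⟩ : ∃ K : ℕ, K = ⌊κ * X⌋₊ := ⟨_, rfl⟩
  have hKle : (K : ℝ) ≤ κ * X := by rw [hK]; exact Nat.floor_le (by positivity)
  have hKge : κ * X / 2 ≤ K := by
    have h1 : κ * X < K + 1 := by rw [hK]; exact Nat.lt_floor_add_one _
    linarith
  have hK2 : 2 ≤ K := by
    rw [hK, Nat.le_floor_iff (by positivity)]
    exact_mod_cast hκX
  have hK1 : (1 : ℝ) ≤ K := by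
    have : (2 : ℝ) ≤ K := by exact_mod_cast hK2
    linarith
  obtain ⟨hu1, hu2⟩ := th_uu_bounds
  have hu0 : 0 < th uu := by linarith
  obtain ⟨h, hh⟩ : ∃ h : ℝ, h = l / X * th uu := ⟨_, rfl⟩
  have hh0 : 0 < h := by rw [hh]; positivity
  have hhle : h ≤ 2 * l / X := by
    rw [hh]
    calc l / X * th uu ≤ l / X * 2 := mul_le_mul_of_nonneg_left hu2 (by positivity)
      _ = 2 * l / X := by ring
  have hh1 : h ≤ 1 := hhle.trans (by rw [div_le_one hXpos]; exact hX2)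
  have hbad' := hbad K ε h hK2 hε0 hε2 hh0 hh1
  obtain ⟨Bad, hBad⟩ : ∃ Bad : Set ℝ,
    Bad = {φ : ℝ | φ ∈ Set.Icc (0 : ℝ) (th uu) ∧ ¬ GoodDir K ε h φ} := ⟨_, rfl⟩
  rw [← hBad] at hbad'
  have hbad2 : volume Bad ≤ ENNReal.ofReal (δ / 2) := by
    refine hbad'.trans (ENNReal.ofReal_le_ofReal ?_)
    have h1 : h * K / ε ^ 3 ≤ (2 * l / X) * (κ * X) / ε ^ 3 := by gcongr
    have h2 : C * ((2 * l / X) * (κ * X) / ε ^ 3) = δ / 8 := by
      rw [hκ]
      field_simp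
      norm_num
    have h3 : C * (h * K / ε ^ 3) ≤ δ / 8 := by
      rw [← h2]
      exact mul_le_mul_of_nonneg_left h1 (by linarith)
    rw [mul_add]
    linarith
  have hwin' := hwin X hX1 g hg hH
  obtain ⟨A, hA⟩ : ∃ A : Set ℝ, A = {θ : ℝ | θ ∈ Set.Icc (0 : ℝ) 1 ∧ ∃ z ∈ Us X (2 * X),
      ∃ z' ∈ Us X (2 * X), Win θ (l / X) z ∧ Win θ (l / X) z' ∧ F g z ≠ F g z'} := ⟨_, rfl⟩
  rw [← hA] at hwin'
  obtain ⟨A', hA'⟩ : ∃ A' : Set ℝ, A' = (· * (th uu)⁻¹) ⁻¹' A := ⟨_, rfl⟩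
  have hvolA' : ENNReal.ofReal δ ≤ volume A' := by
    rw [hA', Real.volume_preimage_mul_right (by positivity)]
    rw [inv_inv, abs_of_pos hu0]
    refine hwin'.trans ?_
    calc volume A = 1 * volume A := (one_mul _).symm
      _ ≤ ENNReal.ofReal (th uu) * volume A := by
          gcongr
          rw [← ENNReal.ofReal_one]
          exact ENNReal.ofReal_le_ofReal hu1
  have hvolS : ENNReal.ofReal (δ / 2) ≤ volume (A' \ Bad) := by
    refine le_trans ?_ le_measure_sdiff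
    refine le_trans ?_ (tsub_le_tsub hvolA' hbad2)
    rw [← ENNReal.ofReal_sub _ (by positivity)]
    refine ENNReal.ofReal_le_ofReal ?_
    linarith
  have hsub : A' \ Bad ⊆ Set.Icc 0 2 := by
    rintro φ ⟨hφ, -⟩
    rw [hA', Set.mem_preimage, hA] at hφ
    have h1 := hφ.1
    rw [Set.mem_Icc] at h1 ⊢
    have h2 : φ = φ * (th uu)⁻¹ * th uu := by field_simp
    constructor
    · rw [h2]
      exact mul_nonneg h1.1 hu0.le
    · rw [h2]
      calc φ * (th uu)⁻¹ * th uu ≤ 1 * 2 :=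
            mul_le_mul h1.2 hu2 hu0.le (by norm_num)
        _ = 2 := by norm_num
  have hmain := pairs_lower (K : ℝ) hK1 (δ / 2) (A' \ Bad) hsub hvolS (BP D N 1 g (-1)) ?_
  · have h1 : δ / 2 * (κ * X / 2) ≤ δ / 2 * K := mul_le_mul_of_nonneg_left hKge (by positivity)
    have h2 : δ * κ / 38400 * N ≤ δ * κ / 38400 * (64 * X) :=
      mul_le_mul_of_nonneg_left hN2 (by positivity)
    have h3 : δ * κ / 38400 * (64 * X) = (δ / 2 * (κ * X / 2)) / 150 := by ring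
    rw [h3] at h2
    linarith
  rintro φ ⟨hφ, hφB⟩
  rw [hA', Set.mem_preimage, hA] at hφ
  obtain ⟨θ, hθ⟩ : ∃ θ : ℝ, θ = φ * (th uu)⁻¹ := ⟨_, rfl⟩
  have hφθ : φ = θ * th uu := by rw [hθ]; field_simp
  obtain ⟨hθ01, z, hz, z', hz', hWz, hWz', hFne⟩ := hφ
  rw [← hθ] at hθ01 hWz hWz'
  have hgood : GoodDir K ε h φ := by
    by_contra hcon
    apply hφB
    rw [hBad]
    refine ⟨?_, hcon⟩
    rw [Set.mem_Icc] at hθ01 ⊢
    rw [hφθ]
    constructor
    · exact mul_nonneg hθ01.1 hu0.le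
    · calc θ * th uu ≤ 1 * th uu := mul_le_mul_of_nonneg_right hθ01.2 hu0.le
        _ = th uu := one_mul _
  obtain ⟨a, b, ha, hb, hab, haφ, hφb, hKB, hεa, hεb⟩ := hgood
  rw [mem_Us] at hz hz'
  obtain ⟨⟨hzOT, hzP, -, -⟩, -, hz2⟩ := hz
  obtain ⟨⟨hzOT', hzP', -, -⟩, -, hz2'⟩ := hz'
  obtain ⟨hw1, hw2⟩ := negOdd_win hzOT hWz
  obtain ⟨hw1', hw2'⟩ := negOdd_win hzOT' hWz'
  have hφh : (θ + l / X) * th uu = φ + h := by
    rw [add_mul, ← hφθ, hh]
  rw [hφh] at hw2 hw2'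
  rw [← hφθ] at hw1 hw1'
  have hεK : 0 < ε * K := by positivity
  have hm : 0 < ⌈ε * K⌉ := Int.ceil_pos.2 hεK
  have hfl : ∀ w : ℤ√2, (nm w : ℝ) < 2 * X → ∀ k : ℤ, nm (un k * w) ≤ ⌊2 * X⌋ := by
    intro w hw k
    rw [nm_un, Int.le_floor]
    exact hw.le
  obtain ⟨x, y, hx, hy, hxy, hax, hyb, hBxy, hFxy, hnx, hny⟩ := cone_win g hg ⌊2 * X⌋ ⌈ε * K⌉ hm
    a b (un (-⌊al z - θ⌋) * z) (un (-⌊al z' - θ⌋) * z') ha hb hab
    (Int.ceil_le.2 (by exact_mod_cast hεa)) (Int.ceil_le.2 (by exact_mod_cast hεb))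
    ⟨(OT_un _).2 hzOT, (Prim_un _).2 hzP, hfl z hz2 _⟩
    ⟨(OT_un _).2 hzOT', (Prim_un _).2 hzP', hfl z' hz2' _⟩
    ⟨haφ.trans_le hw1, hw2.trans hφb⟩ ⟨haφ.trans_le hw1', hw2'.trans hφb⟩
    (by rw [F_inv g _ z hzOT.1, F_inv g _ z' hzOT'.1]; exact hFne)
  refine ⟨x, y, hx.1, hy.1, hxy, ?_, ?_⟩
  · have h1 : th x < th y := by
      rw [th_lt_iff hx.1 hy.1, hxy]
      norm_num
    have h2 := edge_len_le ha hb hab
    have h3 : 5 / (B a b : ℝ) ≤ 5 / K := by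
      have h4 : (K : ℝ) ≤ B a b := by exact_mod_cast hKB.le
      gcongr
    have h5 : φ < th b := by linarith
    rw [abs_le]
    constructor
    · linarith
    · linarith
  · have hBN : B x y ≤ N := by
      have h1 : (B x y : ℝ) ≤ 2 * X := by
        have := Int.le_floor.1 hBxy
        exact this
      have h2 : (B x y : ℝ) ≤ N := h1.trans hN1
      exact_mod_cast h2
    have hDn : ∀ k : ℤ, ⌈ε * K⌉ ≤ k → (N : ℤ) ≤ D * k := by
      intro k hk
      have h1 : ε * K ≤ k := Int.ceil_le.1 hk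
      have h2 : (N : ℝ) ≤ D * k := by
        calc (N : ℝ) ≤ 64 * X := hN2
          _ = 128 / (ε * κ) * (ε * (κ * X / 2)) := by
              field_simp
              ring
          _ ≤ D * (ε * K) := by
              refine mul_le_mul hD0 (mul_le_mul_of_nonneg_left hKge hε0.le) (by positivity)
                (by positivity)
          _ ≤ D * k := mul_le_mul_of_nonneg_left h1 (by positivity)
      exact_mod_cast h2
    exact negOdd_pair hg hx hy hxy hFxy hD1 hBN (hDn _ hnx) (hDn _ hny)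

end

end Pool.Agent.Lib.MP_0b748d_nt.MR
end

section

set_option autoImplicit false

/-!
# The final theorem
-/

namespace Pool.Agent.Lib.MP_0b748d_nt.MR

open Zsqrtd

noncomputable section

/-- monotonicity of `BP` in `D` and `N` -/
theorem BP_mono {D D' N N' : ℕ} (hD : D ≤ D') (hN : N ≤ N') (c : ℕ) (g : ℕ → ℤ) (s : ℤ) :
    BP D N c g s ⊆ BP D' N' c g s := by
  intro x hx
  simp only [BP, Finset.mem_filter, Finset.mem_product, Finset.mem_Icc] at hx ⊢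
  obtain ⟨⟨⟨h1, h2⟩, h3, h4⟩, h5, h6, h7, h8, h9⟩ := hx
  refine ⟨⟨⟨h1, h2.trans hN⟩, h3, h4.trans (Nat.mul_le_mul hD hN)⟩, h5, h6, ?_, ?_, h9⟩
  · exact h7.trans (Nat.mul_le_mul_right _ hD)
  · exact h8.trans (Nat.mul_le_mul_right _ hD)

theorem BP_sub_BA (D N c : ℕ) (g : ℕ → ℤ) (s : ℤ) : BP D N c g s ⊆ BA D N := by
  intro x hx
  simp only [BP, BA, Finset.mem_filter, Finset.mem_product, Finset.mem_Icc] at hx ⊢
  obtain ⟨⟨⟨h1, h2⟩, h3, h4⟩, h5, h6, h7, h8, h9⟩ := hx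
  exact ⟨⟨⟨h1, h2⟩, h3, h4⟩, h6, h7, h8⟩

theorem Hyp_mono {g : ℕ → ℤ} {c c' X : ℝ} (h : c' ≤ c) (hH : Hyp g c X) : Hyp g c' X := by
  unfold Hyp at hH ⊢
  refine hH.trans ?_
  gcongr

/-- odd `j`, sign `-1`.

Proof. The primes `p0 ∣ j² - 2` with `Sp p0` are finitely many; take the minimum `c0` and the
maximum `X0` of the constants of `zero_freq`, and `neg_odd c0` with `X = N/2`. By
`exists_neg_prime` some `g p0 = -1`. (`Hyp g c X` is monotone in `c`.) -/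
theorem neg_j (j : ℕ) (hj : 2 ≤ j) : ∃ (c : ℝ) (D N0 : ℕ), 0 < c ∧ 1 ≤ D ∧ ∀ N : ℕ, N0 ≤ N →
    ∀ g : ℕ → ℤ, CO g → (∃ p, Sp p ∧ p ∣ j ^ 2 - 2 ∧ g p = -1) →
    c * N ≤ ((BP D N 1 g (-1)).card : ℝ) := by
  classical
  have hj2 : 0 < j ^ 2 - 2 := by
    have : 4 ≤ j ^ 2 := by nlinarith
    omega
  set P : Finset ℕ := (j ^ 2 - 2).divisors.filter Sp with hP
  -- constants for all primes of `P`
  have key : ∀ Q : Finset ℕ, (∀ p ∈ Q, Sp p) → ∃ c X0 : ℝ, 0 < c ∧ c ≤ 1 ∧ ∀ p ∈ Q,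
      ∀ X : ℝ, X0 ≤ X → ∀ g : ℕ → ℤ, CO g → g p = -1 → Hyp g c X := by
    intro Q
    induction Q using Finset.induction_on with
    | empty => intro _; exact ⟨1, 0, one_pos, le_rfl, by simp⟩
    | insert q Q hq ih =>
      intro hQ
      obtain ⟨c1, X1, hc1, hc1', h1⟩ := ih (fun p hp => hQ p (Finset.mem_insert_of_mem hp))
      obtain ⟨c2, X2, hc2, hc2', h2⟩ := zero_freq q (hQ q (Finset.mem_insert_self _ _))
      refine ⟨min c1 c2, max X1 X2, lt_min hc1 hc2, (min_le_left _ _).trans hc1', ?_⟩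
      intro p hp X hX g hg hgp
      rcases Finset.mem_insert.1 hp with rfl | hp
      · exact Hyp_mono (min_le_right _ _) (h2 X ((le_max_right _ _).trans hX) g hg hgp)
      · exact Hyp_mono (min_le_left _ _) (h1 p hp X ((le_max_left _ _).trans hX) g hg hgp)
  obtain ⟨c, X0, hc, hc1, h⟩ := key P (fun p hp => (Finset.mem_filter.1 hp).2)
  obtain ⟨c', X1, D, hc', hD, h'⟩ := neg_odd c hc hc1
  refine ⟨c', D, ⌈2 * max X0 X1⌉₊ + 1, hc', hD, ?_⟩
  intro N hN g hg ⟨p, hp1, hp2, hp3⟩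
  have hN' : 2 * max X0 X1 ≤ N := by
    have h1 := Nat.le_ceil (2 * max X0 X1)
    have h2 : ((⌈2 * max X0 X1⌉₊ : ℕ) : ℝ) ≤ N := by exact_mod_cast (by omega)
    linarith
  have hX0 : X0 ≤ (N : ℝ) / 2 := by
    have := le_max_left X0 X1; linarith
  have hX1 : X1 ≤ (N : ℝ) / 2 := by
    have := le_max_right X0 X1; linarith
  refine h' (N / 2) hX1 N (by linarith) ?_ g hg ?_
  · have : (0 : ℝ) ≤ N := by positivity
    linarith
  · refine h p ?_ (N / 2) hX0 g hg hp3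
    rw [hP, Finset.mem_filter, Nat.mem_divisors]
    exact ⟨⟨hp2, hj2.ne'⟩, hp1⟩

/-- passage from odd pairs below `N/(D+1)` to even pairs below `N` -/
theorem even_pass (c : ℝ) (D N0 : ℕ) (hc : 0 < c) (hD : 1 ≤ D) (g : ℕ → ℤ) (hg : CM g) (s : ℤ)
    (hs : s = 1 ∨ s = -1) (N : ℕ) (hN : (D + 1) * (N0 + 1) ≤ N)
    (h : c * ((N / (D + 1) : ℕ) : ℝ) ≤ ((BP D (N / (D + 1)) 1 g (-1)).card : ℝ)) :
    c / (4 * (D + 1)) * N ≤ ((BP (2 * D + 1) N 0 g s).card : ℝ) := by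
  have h1 := even_of_odd D N hD g hg s hs
  have h2 : (N : ℝ) / (2 * (D + 1)) ≤ ((N / (D + 1) : ℕ) : ℝ) := by
    have h3 : 0 < D + 1 := by omega
    have h4 : N < (D + 1) * (N / (D + 1) + 1) := Nat.lt_mul_div_succ N h3
    have h5 : 1 ≤ N / (D + 1) := by
      rw [Nat.one_le_div_iff h3]
      nlinarith only [hN]
    have h6 : N ≤ 2 * (D + 1) * (N / (D + 1)) := by nlinarith only [h4, h5]
    have h7 : (N : ℝ) ≤ 2 * (D + 1) * ((N / (D + 1) : ℕ) : ℝ) := by exact_mod_cast h6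
    rw [div_le_iff₀ (by positivity)]
    linarith only [h7]
  have h3 : c * ((N : ℝ) / (2 * (D + 1))) ≤ c * ((N / (D + 1) : ℕ) : ℝ) := by gcongr
  have h4 : c / (4 * (D + 1)) * N = c * ((N : ℝ) / (2 * (D + 1))) / 2 := by
    field_simp
    ring
  rw [h4]
  linarith

theorem CM.one {g : ℕ → ℤ} (hg : CM g) : g 1 = 1 := by
  have h := hg.mul 1 1 one_pos one_pos
  rcases hg.val 1 one_pos with h' | h' <;> rw [mul_one, h'] at h <;> omega

/-- the balanced pairs with prescribed parity and sign.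

Proof. `j` odd, `g(j²-2) = -1`: `neg_j` with `exists_neg_prime` (`m = j²-2`).
`j` odd, `g(j²-2) = 1`: apply this to `tw g` (`tw g (j²-2) = -1`) and `BP_tw`.
`j` even, `m = (j²-2)/2` (odd), `g(j²-2) = g 2 * g m`.
(i) `g m = -1`: `neg_j` at `N/(D+1)` and `even_of_odd` for `s = g(j²-2)`.
(ii) `g m = 1`, `s = g 2`. Let `c` be the constant of `even_triv`. If `Hyp g c X` for some
`X ∈ [N/16, N/2]`... applied with `N' = N/(D+1)` in place of `N`: `neg_odd c` (`2X ≤ N'`,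
`N' ≤ 16 X`) and `even_of_odd`. Otherwise `even_triv` at `N'`, and `BP_mono`. -/
theorem pairs_j (j : ℕ) (hj : 2 ≤ j) : ∃ (c : ℝ) (D N0 : ℕ), 0 < c ∧ 1 ≤ D ∧ ∀ N : ℕ, N0 ≤ N →
    ∀ g : ℕ → ℤ, CM g → c * N ≤ ((BP D N (j % 2) g (g (j ^ 2 - 2))).card : ℝ) := by
  obtain ⟨c1, D1, N1, hc1, hD1, h1⟩ := neg_j j hj
  have hj4 : 4 ≤ j ^ 2 := by nlinarith
  rcases Nat.mod_two_eq_zero_or_one j with hpar | hpar
  · -- even `j`
    obtain ⟨c2, c3, hc2, hc2', hc3, N2, h2⟩ := even_triv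
    obtain ⟨c4, X4, D4, hc4, hD4, h4⟩ := neg_odd c2 hc2 hc2'
    obtain ⟨m, hm⟩ : ∃ m, j ^ 2 - 2 = 2 * m ∧ m % 2 = 1 := by
      obtain ⟨k, hk⟩ : ∃ k, j = 2 * k := ⟨j / 2, by omega⟩
      refine ⟨2 * k ^ 2 - 1, ?_, ?_⟩
      · rw [hk] at hj4 ⊢
        have : (2 * k) ^ 2 = 4 * k ^ 2 := by ring
        omega
      · have : 1 ≤ k ^ 2 := by
          have : 1 ≤ k := by omega
          nlinarith only [this]
        omega
    set D : ℕ := max (2 * D1 + 1) (max (2 * D4 + 1) 4) with hD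
    set cc : ℝ := min (c1 / (4 * (D1 + 1))) (min (c4 / (4 * (D4 + 1))) (c3 / (2 * (D4 + 1))))
      with hcc
    have hcc0 : 0 < cc := by
      rw [hcc]
      exact lt_min (by positivity) (lt_min (by positivity) (by positivity))
    refine ⟨cc, D, max ((D1 + 1) * (N1 + 1)) ((D4 + 1) * (max N2 (⌈16 * X4⌉₊ + 1) + 1)), hcc0,
      (by rw [hD]; have := le_max_left (2 * D1 + 1) (max (2 * D4 + 1) 4); omega), ?_⟩
    intro N hN g hg
    have hN1 : (D1 + 1) * (N1 + 1) ≤ N := (le_max_left _ _).trans hN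
    have hN4 : (D4 + 1) * (max N2 (⌈16 * X4⌉₊ + 1) + 1) ≤ N := (le_max_right _ _).trans hN
    have hNn : (0 : ℝ) ≤ N := by positivity
    have hgj : g (j ^ 2 - 2) = g 2 * g m := by
      rw [hm.1]; exact hg.mul _ _ (by norm_num) (by omega)
    rw [hpar]
    rcases hg.val m (by omega) with hgm | hgm
    · -- `g m = 1`
      rw [hgj, hgm, mul_one]
      set N' : ℕ := N / (D4 + 1) with hN'
      have hN'1 : max N2 (⌈16 * X4⌉₊ + 1) ≤ N' := by
        rw [hN', Nat.le_div_iff_mul_le (by omega)]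
        linarith only [hN4]
      have hN'X : 16 * X4 ≤ N' := by
        have e1 := Nat.le_ceil (16 * X4)
        have e2 : ⌈16 * X4⌉₊ ≤ N' := by
          have := (le_max_right N2 (⌈16 * X4⌉₊ + 1)).trans hN'1
          omega
        have e3 : ((⌈16 * X4⌉₊ : ℕ) : ℝ) ≤ N' := by exact_mod_cast e2
        linarith only [e1, e3]
      by_cases hH : ∃ X : ℝ, (N' : ℝ) / 16 ≤ X ∧ X ≤ N' / 2 ∧ Hyp g c2 X
      · obtain ⟨X, hX1, hX2, hX3⟩ := hH
        have hodd := h4 X (by linarith only [hN'X, hX1]) N' (by linarith only [hX2]) (by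
          have : (0 : ℝ) ≤ N' := by positivity
          linarith only [hX1]) g (CO_of_CM hg) hX3
        have hp := even_pass c4 D4 (max N2 (⌈16 * X4⌉₊ + 1)) hc4 hD4 g hg (g 2)
          (hg.val 2 (by norm_num)) N hN4 hodd
        have hsub : BP (2 * D4 + 1) N 0 g (g 2) ⊆ BP D N 0 g (g 2) :=
          BP_mono (by rw [hD]; exact (le_max_left _ _).trans (le_max_right _ _)) le_rfl _ _ _
        have hcard : ((BP (2 * D4 + 1) N 0 g (g 2)).card : ℝ) ≤ (BP D N 0 g (g 2)).card := by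
          exact_mod_cast Finset.card_le_card hsub
        have hle : cc * N ≤ c4 / (4 * (D4 + 1)) * N := by
          apply mul_le_mul_of_nonneg_right _ hNn
          rw [hcc]
          exact (min_le_right _ _).trans (min_le_left _ _)
        linarith only [hp, hcard, hle]
      · push Not at hH
        have ht := h2 N' ((le_max_left _ _).trans hN'1) g hg (fun X hX1 hX2 => hH X hX1 hX2)
        have hsub : BP 4 N' 0 g (g 2) ⊆ BP D N 0 g (g 2) :=
          BP_mono (by rw [hD]; exact (le_max_right _ _).trans (le_max_right _ _))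
            (by rw [hN']; exact Nat.div_le_self _ _) _ _ _
        have hcard : ((BP 4 N' 0 g (g 2)).card : ℝ) ≤ (BP D N 0 g (g 2)).card := by
          exact_mod_cast Finset.card_le_card hsub
        have h5 : (N : ℝ) / (2 * (D4 + 1)) ≤ N' := by
          have h3 : 0 < D4 + 1 := by omega
          have h6 : N < (D4 + 1) * (N' + 1) := by rw [hN']; exact Nat.lt_mul_div_succ N h3
          have h7 : 1 ≤ N' := by
            have := (le_max_right N2 (⌈16 * X4⌉₊ + 1)).trans hN'1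
            omega
          have h8 : N ≤ 2 * (D4 + 1) * N' := by nlinarith only [h6, h7]
          have h9 : (N : ℝ) ≤ 2 * (D4 + 1) * (N' : ℝ) := by exact_mod_cast h8
          rw [div_le_iff₀ (by positivity)]
          linarith only [h9]
        have hle : cc * N ≤ c3 * N' := by
          calc cc * N ≤ c3 / (2 * (D4 + 1)) * N := by
                apply mul_le_mul_of_nonneg_right _ hNn
                rw [hcc]
                exact (min_le_right _ _).trans (min_le_right _ _)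
            _ = c3 * (N / (2 * (D4 + 1))) := by ring
            _ ≤ c3 * N' := by gcongr
        linarith only [ht, hcard, hle]
    · -- `g m = -1`
      obtain ⟨p, hp1, hp2, hp3⟩ := exists_neg_prime (CO_of_CM hg) j m hm.2 hj
        ⟨2, by rw [hm.1]; ring⟩ hgm
      have hNd : N1 ≤ N / (D1 + 1) := by
        rw [Nat.le_div_iff_mul_le (by omega)]
        linarith only [hN1]
      have hodd := h1 (N / (D1 + 1)) hNd g (CO_of_CM hg) ⟨p, hp1, hp2, hp3⟩
      have hs : g (j ^ 2 - 2) = 1 ∨ g (j ^ 2 - 2) = -1 := hg.val _ (by omega)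
      have hp := even_pass c1 D1 N1 hc1 hD1 g hg (g (j ^ 2 - 2)) hs N hN1 hodd
      have hsub : BP (2 * D1 + 1) N 0 g (g (j ^ 2 - 2)) ⊆ BP D N 0 g (g (j ^ 2 - 2)) :=
        BP_mono (by rw [hD]; exact le_max_left _ _) le_rfl _ _ _
      have hcard : ((BP (2 * D1 + 1) N 0 g (g (j ^ 2 - 2))).card : ℝ) ≤
          (BP D N 0 g (g (j ^ 2 - 2))).card := by
        exact_mod_cast Finset.card_le_card hsub
      have hle : cc * N ≤ c1 / (4 * (D1 + 1)) * N := by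
        apply mul_le_mul_of_nonneg_right _ hNn
        rw [hcc]
        exact min_le_left _ _
      linarith only [hp, hcard, hle]
  · -- odd `j`
    refine ⟨c1, D1, N1, hc1, hD1, ?_⟩
    intro N hN g hg
    rw [hpar]
    have hodd : (j ^ 2 - 2) % 2 = 1 := by
      have : j ^ 2 % 2 = 1 := by rw [Nat.pow_mod, hpar]
      omega
    rcases hg.val (j ^ 2 - 2) (by omega) with hgj | hgj
    · -- sign `1`: twist
      have hCO : CO (tw g) := CO_tw (CO_of_CM hg)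
      have h8 : (j ^ 2 - 2) % 4 = 3 := by
        obtain ⟨k, hk⟩ : ∃ k, j = 2 * k + 1 := ⟨j / 2, by omega⟩
        have : j ^ 2 = 4 * (k ^ 2 + k) + 1 := by rw [hk]; ring
        omega
      have htw : tw g (j ^ 2 - 2) = -1 := by
        simp only [tw, h8, if_true, hgj]
      obtain ⟨p, hp1, hp2, hp3⟩ := exists_neg_prime hCO j (j ^ 2 - 2) hodd hj dvd_rfl htw
      have h5 := h1 N hN (tw g) hCO ⟨p, hp1, hp2, hp3⟩
      rw [BP_tw, neg_neg] at h5
      rw [hgj]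
      exact h5
    · obtain ⟨p, hp1, hp2, hp3⟩ := exists_neg_prime (CO_of_CM hg) j (j ^ 2 - 2) hodd hj dvd_rfl hgj
      rw [hgj]
      exact h1 N hN g (CO_of_CM hg) ⟨p, hp1, hp2, hp3⟩

/-- the main theorem -/
theorem main (j : ℕ) (hj : 2 ≤ j) : ∃ (c C : ℝ) (D N0 : ℕ), 0 < c ∧ ∀ N : ℕ, N0 ≤ N →
    ((BA D N).card : ℝ) ≤ C * N ∧ ∀ g : ℕ → ℤ, CM g →
    c * N ≤ ((BP D N (j % 2) g (g (j ^ 2 - 2))).card : ℝ) ∧
    c * N / Real.log N ^ 2 ≤ (((BP D N (j % 2) g (g (j ^ 2 - 2))).image Prod.fst).card : ℝ) := by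
  obtain ⟨c, D, N1, hc, hD, h1⟩ := pairs_j j hj
  obtain ⟨C, hC, h2⟩ := BA_card D
  obtain ⟨c', hc', N2, h3⟩ := n_count D hD c hc
  refine ⟨min c c', C, D, max (max N1 N2) 1, lt_min hc hc', ?_⟩
  intro N hN
  have hN1 : N1 ≤ N := (le_max_left _ _).trans ((le_max_left _ _).trans hN)
  have hN2 : N2 ≤ N := (le_max_right _ _).trans ((le_max_left _ _).trans hN)
  have hN3 : 1 ≤ N := (le_max_right _ _).trans hN
  refine ⟨h2 N hN3, ?_⟩
  intro g hg
  have h4 := h1 N hN1 g hg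
  have h5 := h3 N hN2 _ (BP_sub_BA D N (j % 2) g (g (j ^ 2 - 2))) h4
  have hNn : (0 : ℝ) ≤ N := by positivity
  constructor
  · refine le_trans ?_ h4
    exact mul_le_mul_of_nonneg_right (min_le_left _ _) hNn
  · refine le_trans ?_ h5
    apply div_le_div_of_nonneg_right _ (by positivity)
    exact mul_le_mul_of_nonneg_right (min_le_right _ _) hNn

end

end Pool.Agent.Lib.MP_0b748d_nt.MR
end
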